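import Mathlib
import Pool.Agent.H883B.Stmts

/-!
# Minimal convex sets of means on a non-amenable group
-/

set_option autoImplicit false

namespace Pool.Agent.Q195.AD

open Finset Topology

universe u

variable {G : Type u} [Group G]

/-- Left translation of a set function. -/
def act (g : G) (m : Set G → ℝ) : Set G → ℝ := fun A => m ((fun x => g * x) ⁻¹' A)

theorem act_act (g h : G) (m : Set G → ℝ) : act g (act h m) = act (g * h) m := by
  funext A
  simp only [act]
  congr 1
  ext x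
  simp [mul_assoc]

/-- The means. -/
def K (G : Type u) [Group G] : Set (Set G → ℝ) :=
  {m | (∀ A, 0 ≤ m A) ∧ m Set.univ = 1 ∧ ∀ A B, Disjoint A B → m (A ∪ B) = m A + m B}

theorem act_mem_K (g : G) {m : Set G → ℝ} (hm : m ∈ K G) : act g m ∈ K G := by
  refine ⟨fun A => hm.1 _, ?_, fun A B hAB => ?_⟩
  · simp only [act, Set.preimage_univ]
    exact hm.2.1
  · simp only [act, Set.preimage_union]
    exact hm.2.2 _ _ (hAB.preimage _)

theorem K_le_one {m : Set G → ℝ} (hm : m ∈ K G) (A : Set G) : m A ≤ 1 := by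
  have h1 := hm.2.2 A Aᶜ disjoint_compl_right
  rw [Set.union_compl_self, hm.2.1] at h1
  linarith [hm.1 Aᶜ]

theorem K_compl {m : Set G → ℝ} (hm : m ∈ K G) (A : Set G) : m Aᶜ = 1 - m A := by
  have h1 := hm.2.2 A Aᶜ disjoint_compl_right
  rw [Set.union_compl_self, hm.2.1] at h1
  linarith

theorem isClosed_K : IsClosed (K G) := by
  have h1 : K G = {m : Set G → ℝ | ∀ A, 0 ≤ m A} ∩ ({m | m Set.univ = 1} ∩
      {m | ∀ A B, Disjoint A B → m (A ∪ B) = m A + m B}) := by
    ext m; rfl
  rw [h1]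
  refine IsClosed.inter ?_ (IsClosed.inter ?_ ?_)
  · simp only [Set.ofPred_forall]
    exact isClosed_iInter fun A => isClosed_le continuous_const (continuous_apply A)
  · exact isClosed_eq (continuous_apply _) continuous_const
  · simp only [Set.ofPred_forall]
    exact isClosed_iInter fun A => isClosed_iInter fun B => isClosed_iInter fun _ =>
      isClosed_eq (by fun_prop) (by fun_prop)

theorem isCompact_K : IsCompact (K G) := by
  refine IsCompact.of_isClosed_subset (isCompact_univ_pi fun _ : Set G => isCompact_Icc (a := (0:ℝ))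
    (b := 1)) isClosed_K ?_
  intro m hm A _
  exact ⟨hm.1 A, K_le_one hm A⟩

theorem convex_K : Convex ℝ (K G) := by
  intro m hm m' hm' a b ha hb hab
  refine ⟨fun A => ?_, ?_, fun A B hAB => ?_⟩
  · simp only [Pi.add_apply, Pi.smul_apply, smul_eq_mul]
    exact add_nonneg (mul_nonneg ha (hm.1 A)) (mul_nonneg hb (hm'.1 A))
  · simp only [Pi.add_apply, Pi.smul_apply, smul_eq_mul]
    rw [hm.2.1, hm'.2.1]
    linarith
  · simp only [Pi.add_apply, Pi.smul_apply, smul_eq_mul]
    rw [hm.2.2 A B hAB, hm'.2.2 A B hAB]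
    ring

theorem K_nonempty : (K G).Nonempty := by
  classical
  refine ⟨fun A => if (1 : G) ∈ A then 1 else 0, fun A => ?_, ?_, fun A B hAB => ?_⟩
  · dsimp only
    split_ifs <;> norm_num
  · simp
  · by_cases h1 : (1 : G) ∈ A
    · have h2 : (1 : G) ∉ B := fun h => Set.disjoint_left.1 hAB h1 h
      simp [h1, h2]
    · by_cases h2 : (1 : G) ∈ B <;> simp [h1, h2]

/-- Nonempty closed convex invariant sets of means. -/
def Inv (Q : Set (Set G → ℝ)) : Prop :=
  IsClosed Q ∧ Convex ℝ Q ∧ Q.Nonempty ∧ Q ⊆ K G ∧ ∀ g, ∀ q ∈ Q, act g q ∈ Q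

theorem exists_minimal : ∃ Q : Set (Set G → ℝ), Minimal (· ∈ {Q | Inv Q}) Q := by
  have H : ∀ c ⊆ {Q : Set (Set G → ℝ) | Inv Q}, IsChain (· ⊆ ·) c → c.Nonempty →
      ∃ lb ∈ {Q : Set (Set G → ℝ) | Inv Q}, ∀ s ∈ c, lb ⊆ s := by
    intro c hc hch hne
    refine ⟨⋂₀ c, ⟨?_, ?_, ?_, ?_, ?_⟩, fun s hs => Set.sInter_subset_of_mem hs⟩
    · exact isClosed_sInter fun s hs => (hc hs).1
    · exact convex_sInter fun s hs => (hc hs).2.1
    · have : Nonempty c := hne.to_subtype
      refine IsCompact.nonempty_sInter_of_directed_nonempty_isCompact_isClosed ?_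
        (fun s hs => (hc hs).2.2.1)
        (fun s hs => isCompact_K.of_isClosed_subset (hc hs).1 (hc hs).2.2.2.1)
        (fun s hs => (hc hs).1)
      intro s hs t ht
      rcases hch.total hs ht with h | h
      · exact ⟨s, hs, subset_rfl, h⟩
      · exact ⟨t, ht, h, subset_rfl⟩
    · obtain ⟨s, hs⟩ := hne
      exact (Set.sInter_subset_of_mem hs).trans (hc hs).2.2.2.1
    · intro g q hq s hs
      exact (hc hs).2.2.2.2 g q (hq s hs)
  obtain ⟨Q, -, hQ⟩ := zorn_superset_nonempty {Q : Set (Set G → ℝ) | Inv Q} H (K G)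
    ⟨isClosed_K, convex_K, K_nonempty, subset_rfl, fun g q hq => act_mem_K g hq⟩
  exact ⟨Q, hQ⟩

theorem continuous_act_apply (g : G) (A : Set G) :
    Continuous fun m : Set G → ℝ => act g m A := continuous_apply _

/-- In a minimal set the orbit of each point comes above each value below the maximum. -/
theorem orbit_large {Q : Set (Set G → ℝ)} (hQ : Minimal (· ∈ {Q | Inv Q}) Q) (A : Set G) (t : ℝ)
    {q' : Set G → ℝ} (hq' : q' ∈ Q) (ht : t < q' A) {q : Set G → ℝ} (hq : q ∈ Q) :
    ∃ g, t < act g q A := by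
  by_contra hno
  push Not at hno
  have hQi : Inv Q := hQ.prop
  let Q' : Set (Set G → ℝ) := Q ∩ {m | ∀ g, act g m A ≤ t}
  have hQ' : Inv Q' := by
    refine ⟨?_, ?_, ⟨q, hq, hno⟩, fun m hm => hQi.2.2.2.1 hm.1, fun g m hm => ⟨?_, ?_⟩⟩
    · refine hQi.1.inter ?_
      simp only [Set.ofPred_forall]
      exact isClosed_iInter fun g => isClosed_le (continuous_act_apply g A) continuous_const
    · refine hQi.2.1.inter ?_
      intro m hm m' hm' a b ha hb hab g
      have h1 := hm g
      have h2 := hm' g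
      have h3 : act g (a • m + b • m') A = a * act g m A + b * act g m' A := rfl
      rw [h3]
      have h4 : t = a * t + b * t := by rw [← add_mul, hab, one_mul]
      rw [h4]
      exact add_le_add (mul_le_mul_of_nonneg_left h1 ha) (mul_le_mul_of_nonneg_left h2 hb)
    · exact hQi.2.2.2.2 g m hm.1
    · intro h
      rw [act_act]
      exact hm.2 (h * g)
  have h1 : Q ⊆ Q' := hQ.le_of_le hQ' Set.inter_subset_left
  have h2 := (h1 hq').2 1
  have h3 : act 1 q' A = q' A := by
    simp only [act, one_mul, Set.preimage_id']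
  rw [h3] at h2
  linarith

theorem finite_large {Q : Set (Set G → ℝ)} (hQ : Minimal (· ∈ {Q | Inv Q}) Q) (A : Set G) (t : ℝ)
    {q' : Set G → ℝ} (hq' : q' ∈ Q) (ht : t < q' A) :
    ∃ s : Finset G, ∀ q ∈ Q, ∃ g ∈ s, t < act g q A := by
  have hQi : Inv Q := hQ.prop
  have hc : IsCompact Q := isCompact_K.of_isClosed_subset hQi.1 hQi.2.2.2.1
  obtain ⟨s, hs⟩ := hc.elim_finite_subcover (fun g : G => {m : Set G → ℝ | t < act g m A})
    (fun g => isOpen_lt continuous_const (continuous_act_apply g A)) (by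
      intro q hq
      obtain ⟨g, hg⟩ := orbit_large hQ A t hq' ht hq
      exact Set.mem_iUnion.2 ⟨g, hg⟩)
  refine ⟨s, fun q hq => ?_⟩
  obtain ⟨g, hg⟩ := Set.mem_iUnion.1 (hs hq)
  obtain ⟨hgs, hg⟩ := Set.mem_iUnion.1 hg
  exact ⟨g, hgs, hg⟩

end Pool.Agent.Q195.AD
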