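import Mathlib

/-!
# A finite-dimensional minimax statement
-/

set_option autoImplicit false

namespace Pool.Agent.Q195.AD

open Finset Topology

theorem minimax {ι : Type*} [Fintype ι] (D : Set (ι → ℝ)) (hD : Convex ℝ D) (hne : D.Nonempty)
    (t : ℝ) (h : ∀ x ∈ D, ∃ i, t < x i) :
    ∃ w : ι → ℝ, (∀ i, 0 ≤ w i) ∧ ∑ i, w i = 1 ∧ ∀ x ∈ D, t ≤ ∑ i, w i * x i := by
  classical
  let O : Set (ι → ℝ) := {x | ∀ i, x i < t}
  have hO : IsOpen O := by
    have : O = ⋂ i, {x : ι → ℝ | x i < t} := by
      ext x; simp [O]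
    rw [this]
    exact isOpen_iInter_of_finite fun i => isOpen_lt (continuous_apply i) continuous_const
  have hOc : Convex ℝ O := by
    intro x hx y hy a b ha hb hab i
    simp only [Pi.add_apply, Pi.smul_apply, smul_eq_mul]
    have h1 := hx i
    have h2 := hy i
    rcases eq_or_lt_of_le ha with h3 | h3
    · have : b = 1 := by linarith
      rw [← h3, this]
      linarith
    · have e1 : a * x i < a * t := mul_lt_mul_of_pos_left h1 h3
      have e2 : b * y i ≤ b * t := mul_le_mul_of_nonneg_left h2.le hb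
      have e3 : t = a * t + b * t := by rw [← add_mul, hab, one_mul]
      linarith
  have hdis : Disjoint O D := by
    rw [Set.disjoint_left]
    intro x hx hxD
    obtain ⟨i, hi⟩ := h x hxD
    linarith [hx i]
  obtain ⟨f, u, hf1, hf2⟩ := geometric_hahn_banach_open hOc hO hD hdis
  let w : ι → ℝ := fun i => f (Pi.single i 1)
  have hfw : ∀ x, f x = ∑ i, w i * x i := by
    intro x
    conv_lhs => rw [pi_eq_sum_univ' x]
    rw [map_sum]
    refine Finset.sum_congr rfl fun i _ => ?_
    rw [map_smul, smul_eq_mul, mul_comm]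
  obtain ⟨x₁, hx₁⟩ := hne
  obtain ⟨x₀, hx₀⟩ : ∃ x₀, x₀ ∈ O := ⟨fun _ => t - 1, fun i => by simp⟩
  have hw0 : ∀ i, 0 ≤ w i := by
    intro i
    by_contra hneg
    push Not at hneg
    have h1 : ∀ r : ℝ, 0 ≤ r → f x₀ - r * w i < u := by
      intro r hr
      have h2 := hf1 (x₀ - r • Pi.single i 1) (fun j => by
        simp only [Pi.sub_apply, Pi.smul_apply, smul_eq_mul, Pi.single_apply]
        have h3 := hx₀ j
        split_ifs
        · linarith
        · linarith)
      rwa [map_sub, map_smul, smul_eq_mul] at h2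
    have h4 := hf1 x₀ hx₀
    have h5 := h1 ((u - f x₀) / (- w i)) (div_nonneg (by linarith) (by linarith))
    have hwi : w i ≠ 0 := hneg.ne
    have h6 : (u - f x₀) / (- w i) * w i = -(u - f x₀) := by
      field_simp
    rw [h6] at h5
    linarith
  have hu : t * ∑ i, w i ≤ u := by
    by_contra hlt
    push Not at hlt
    have h1 : ∀ δ : ℝ, 0 < δ → (t - δ) * ∑ i, w i < u := by
      intro δ hδ
      have h2 := hf1 (fun _ => t - δ) (fun i => by linarith)
      rw [hfw, ← Finset.sum_mul, mul_comm] at h2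
      exact h2
    have hW0 : 0 ≤ ∑ i, w i := Finset.sum_nonneg fun i _ => hw0 i
    rcases eq_or_lt_of_le hW0 with h3 | h3
    · have h4 := h1 1 one_pos
      rw [← h3] at h4 hlt
      linarith
    · have h4 := h1 ((t * ∑ i, w i - u) / ∑ i, w i) (div_pos (by linarith) h3)
      rw [sub_mul, div_mul_cancel₀ _ h3.ne'] at h4
      linarith
  have hWpos : 0 < ∑ i, w i := by
    have hW0 : 0 ≤ ∑ i, w i := Finset.sum_nonneg fun i _ => hw0 i
    rcases eq_or_lt_of_le hW0 with h3 | h3
    · exfalso
      have h4 : ∀ i, w i = 0 := by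
        intro i
        exact (Finset.sum_eq_zero_iff_of_nonneg fun i _ => hw0 i).1 h3.symm i (Finset.mem_univ i)
      have h5 := hf1 x₀ hx₀
      have h6 := hf2 x₁ hx₁
      rw [hfw] at h5 h6
      simp only [h4, zero_mul, Finset.sum_const_zero] at h5 h6
      linarith
    · exact h3
  refine ⟨fun i => w i / ∑ j, w j, fun i => div_nonneg (hw0 i) hWpos.le, ?_, fun x hx => ?_⟩
  · rw [← Finset.sum_div, div_self hWpos.ne']
  · have h1 := hf2 x hx
    rw [hfw] at h1
    have h2 : ∑ i, w i / (∑ j, w j) * x i = (∑ i, w i * x i) / ∑ j, w j := by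
      rw [Finset.sum_div]
      refine Finset.sum_congr rfl fun i _ => ?_
      ring
    rw [h2, le_div_iff₀ hWpos]
    linarith

end Pool.Agent.Q195.AD
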