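import Pool.Agent.Q195.AD1
import Pool.Agent.Q195.AD2

/-!
# A function on a non-amenable group whose translates average to two different constants
-/

set_option autoImplicit false

namespace Pool.Agent.Q195.AD

open Finset Topology

universe u

variable {G : Type u} [Group G]

theorem weights_large {Q : Set (Set G → ℝ)} (hQ : Minimal (· ∈ {Q | Inv Q}) Q) (A : Set G) (t : ℝ)
    {q' : Set G → ℝ} (hq' : q' ∈ Q) (ht : t < q' A) :
    ∃ (s : Finset G) (w : G → ℝ), (∀ g, 0 ≤ w g) ∧ ∑ g ∈ s, w g = 1 ∧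
      ∀ q ∈ Q, t ≤ ∑ g ∈ s, w g * act g q A := by
  classical
  obtain ⟨s, hs⟩ := finite_large hQ A t hq' ht
  have hQi : Inv Q := hQ.prop
  let Φ : (Set G → ℝ) → (s → ℝ) := fun q i => act (i : G) q A
  obtain ⟨w, hw0, hw1, hw2⟩ := minimax (Φ '' Q) (by
      rintro _ ⟨q, hq, rfl⟩ _ ⟨q', hq', rfl⟩ a b ha hb hab
      exact ⟨a • q + b • q', hQi.2.1 hq hq' ha hb hab, rfl⟩) (hQi.2.2.1.image _) t (by
      rintro _ ⟨q, hq, rfl⟩
      obtain ⟨g, hg, hgt⟩ := hs q hq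
      exact ⟨⟨g, hg⟩, hgt⟩)
  refine ⟨s, fun g => if h : g ∈ s then w ⟨g, h⟩ else 0, fun g => ?_, ?_, fun q hq => ?_⟩
  · dsimp only
    split_ifs
    · exact hw0 _
    · exact le_refl _
  · rw [← Finset.sum_coe_sort s, ← hw1]
    refine Finset.sum_congr rfl fun i _ => ?_
    rw [dif_pos i.2]
  · refine (hw2 _ ⟨q, hq, rfl⟩).trans (le_of_eq ?_)
    rw [← Finset.sum_coe_sort s]
    refine Finset.sum_congr rfl fun i _ => ?_
    show w i * Φ q i = (if h : (i : G) ∈ s then w ⟨i, h⟩ else 0) * act (i : G) q A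
    rw [dif_pos i.2]

/-- A non-amenable group carries a bounded function `F` whose left translates have convex
combinations arbitrarily close to its upper bound everywhere, and others arbitrarily close to its
lower bound everywhere. -/
theorem exists_fun (h : ¬ Pool.Agent.H883B.IsAmenable G) :
    ∃ (F : G → ℝ) (lo hi : ℝ), lo < hi ∧ (∀ g, lo ≤ F g) ∧ (∀ g, F g ≤ hi) ∧
      (∀ ε > 0, ∃ (s : Finset G) (w : G → ℝ), (∀ g, 0 ≤ w g) ∧ ∑ g ∈ s, w g = 1 ∧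
        ∀ y, hi - ε ≤ ∑ g ∈ s, w g * F (g * y)) ∧
      (∀ ε > 0, ∃ (s : Finset G) (w : G → ℝ), (∀ g, 0 ≤ w g) ∧ ∑ g ∈ s, w g = 1 ∧
        ∀ y, ∑ g ∈ s, w g * F (g * y) ≤ lo + ε) := by
  classical
  obtain ⟨Q, hQ⟩ := exists_minimal (G := G)
  have hQi : Inv Q := hQ.prop
  obtain ⟨hcl, hcv, ⟨q₀, hq₀⟩, hQK, hinv⟩ := hQi
  have hc : IsCompact Q := isCompact_K.of_isClosed_subset hcl hQK
  obtain ⟨g₀, A, hA⟩ : ∃ (g₀ : G) (A : Set G), act g₀ q₀ A ≠ q₀ A := by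
    by_contra hno
    push Not at hno
    refine h ⟨q₀, (hQK hq₀).1, (hQK hq₀).2.1, (hQK hq₀).2.2, fun g A => ?_⟩
    rw [← hno g ((fun x => g * x) '' A)]
    simp only [act]
    rw [Set.preimage_image_eq _ (mul_right_injective g)]
  obtain ⟨q₁, hq₁, hmax⟩ := hc.exists_isMaxOn ⟨q₀, hq₀⟩ (continuous_apply A).continuousOn
  obtain ⟨q₂, hq₂, hmin⟩ := hc.exists_isMinOn ⟨q₀, hq₀⟩ (continuous_apply A).continuousOn
  have hmax' : ∀ q ∈ Q, q A ≤ q₁ A := fun q hq => hmax hq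
  have hmin' : ∀ q ∈ Q, q₂ A ≤ q A := fun q hq => hmin hq
  refine ⟨fun g => act g q₀ A, q₂ A, q₁ A, ?_, fun g => hmin' _ (hinv g _ hq₀),
    fun g => hmax' _ (hinv g _ hq₀), ?_, ?_⟩
  · rcases lt_or_gt_of_ne hA with h1 | h1
    · exact (hmin' _ (hinv g₀ _ hq₀)).trans_lt (h1.trans_le (hmax' _ hq₀))
    · exact (hmin' _ hq₀).trans_lt (h1.trans_le (hmax' _ (hinv g₀ _ hq₀)))
  · intro ε hε
    obtain ⟨s, w, hw0, hw1, hw2⟩ := weights_large hQ A (q₁ A - ε) hq₁ (by linarith)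
    refine ⟨s, w, hw0, hw1, fun y => ?_⟩
    have h1 := hw2 _ (hinv y _ hq₀)
    simpa only [act_act] using h1
  · intro ε hε
    obtain ⟨s, w, hw0, hw1, hw2⟩ := weights_large hQ Aᶜ (q₂ Aᶜ - ε) hq₂ (by linarith)
    refine ⟨s, w, hw0, hw1, fun y => ?_⟩
    have h1 := hw2 _ (hinv y _ hq₀)
    have h2 : ∀ g, act g (act y q₀) Aᶜ = 1 - act (g * y) q₀ A := by
      intro g
      rw [act_act, K_compl (act_mem_K _ (hQK hq₀))]
    rw [Finset.sum_congr rfl fun g _ => by rw [h2 g, mul_sub, mul_one], Finset.sum_sub_distrib,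
      hw1, K_compl (hQK hq₂)] at h1
    linarith

end Pool.Agent.Q195.AD
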