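import Pool.Agent.PackIndex.Core
import Pool.Agent.H883B.Stmts

/-!
# Non-amenable groups: an injection `G × {0, 1} → G` moving points by finitely many elements
-/

set_option autoImplicit false

namespace Pool.Agent.Q195.AM

open Finset Filter
open scoped Pointwise
open Pool.Agent.PackIndex

universe u

/-- Følner's condition. -/
def Folner (G : Type u) [Group G] [DecidableEq G] : Prop :=
  ∀ (S : Finset G) (ε : ℝ), 0 < ε → ∃ F : Finset G, F.Nonempty ∧
    ∀ s ∈ S, (#((F.image fun g => s * g) \ F) : ℝ) ≤ ε * #F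

variable {G : Type u} [Group G]

theorem amenable_of_folner [DecidableEq G] (h : Folner G) : Pool.Agent.H883B.IsAmenable G := by
  classical
  have h' : ∀ j : Finset G × ℕ, ∃ F : Finset G, F.Nonempty ∧
      ∀ s ∈ j.1, (#((F.image fun g => s * g) \ F) : ℝ) ≤ (1 / ((j.2 : ℝ) + 1)) * #F := fun j =>
    h j.1 (1 / ((j.2 : ℝ) + 1)) (by positivity)
  choose F hF hFs using h'
  let 𝒰 : Ultrafilter (Finset G × ℕ) := Ultrafilter.of (atTop : Filter (Finset G × ℕ))
  have hU : (𝒰 : Filter (Finset G × ℕ)) ≤ atTop := Ultrafilter.of_le _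
  obtain ⟨Λ, hΛ, hinv⟩ := exists_lim 𝒰 (fun j (f : G → ℝ) => (∑ x ∈ F j, f x) / (F j).card)
    (fun j => avg_mean (F j) (hF j))
  have hI : ∀ g : G, InvUnder Λ g := by
    intro g
    refine hinv g fun f hf => ?_
    obtain ⟨C, hC⟩ := hf
    have hC0 : 0 ≤ C := (abs_nonneg _).trans (hC 1)
    have h1 : Tendsto (fun j : Finset G × ℕ => 2 * C * (1 / ((j.2 : ℝ) + 1))) atTop (nhds 0) := by
      have h2 : Tendsto (fun j : Finset G × ℕ => j.2) atTop atTop := by
        refine tendsto_atTop.2 fun b => ?_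
        filter_upwards [eventually_ge_atTop ((∅, b) : Finset G × ℕ)] with j hj
        exact hj.2
      have h3 := (tendsto_one_div_add_atTop_nhds_zero_nat (𝕜 := ℝ)).comp h2
      have h4 := h3.const_mul (2 * C)
      rw [mul_zero] at h4
      exact h4
    refine squeeze_zero_norm' ?_ (h1.mono_left hU)
    have h5 : ∀ᶠ j : Finset G × ℕ in atTop, g ∈ j.1 := by
      filter_upwards [eventually_ge_atTop (({g}, 0) : Finset G × ℕ)] with j hj
      exact hj.1 (Finset.mem_singleton_self g)
    filter_upwards [hU h5] with j hj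
    rw [Real.norm_eq_abs]
    refine (avg_diff (F j) (hF j) g hC).trans ?_
    have hpos : (0 : ℝ) < (F j).card := by exact_mod_cast (hF j).card_pos
    rw [div_le_iff₀ hpos]
    have h6 := mul_le_mul_of_nonneg_left (hFs j g hj) (show (0 : ℝ) ≤ 2 * C by positivity)
    calc _ ≤ 2 * C * (1 / ((j.2 : ℝ) + 1) * #(F j)) := h6
      _ = _ := by ring
  have hb : ∀ A : Set G, Bdd (A.indicator (fun _ => (1 : ℝ))) := fun A => ⟨1, fun x => by
    by_cases hx : x ∈ A
    · simp [hx]
    · simp [hx]⟩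
  refine ⟨fun A => Λ (A.indicator fun _ => 1), ?_, ?_, ?_, ?_⟩
  · intro A
    refine hΛ.nonneg _ (hb A) fun x => Set.indicator_nonneg (fun _ _ => zero_le_one) x
  · simp only [Set.indicator_univ]
    exact hΛ.one
  · intro A B hAB
    show Λ ((A ∪ B).indicator fun _ => 1) = Λ (A.indicator fun _ => 1) + Λ (B.indicator fun _ => 1)
    rw [← hΛ.add _ _ (hb A) (hb B)]
    congr 1
    funext x
    rw [Set.indicator_union_of_disjoint hAB]
  · intro g A
    show Λ (((fun x => g * x) '' A).indicator fun _ => 1) = Λ (A.indicator fun _ => 1)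
    rw [← hI g⁻¹ _ (hb A)]
    congr 1
    funext x
    have h1 : x ∈ (fun x => g * x) '' A ↔ g⁻¹ * x ∈ A := by
      constructor
      · rintro ⟨a, ha, rfl⟩
        simpa using ha
      · intro hx
        exact ⟨g⁻¹ * x, hx, by simp⟩
    by_cases hx : g⁻¹ * x ∈ A
    · rw [Set.indicator_of_mem (h1.2 hx), Set.indicator_of_mem hx]
    · rw [Set.indicator_of_notMem (fun h => hx (h1.1 h)), Set.indicator_of_notMem hx]

lemma expansion [DecidableEq G] (h : ¬ Folner G) : ∃ (S : Finset G) (r : ℝ), 1 < r ∧ S.Nonempty ∧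
    ∀ F : Finset G, F.Nonempty → r * #F ≤ #(S * F) := by
  unfold Folner at h
  push Not at h
  obtain ⟨S, ε, hε, hS⟩ := h
  refine ⟨insert 1 S, 1 + ε, by linarith, Finset.insert_nonempty _ _, fun F hF => ?_⟩
  obtain ⟨s, hs, hs2⟩ := hS F hF
  have h2 : #F + #((F.image fun g => s * g) \ F) ≤ #(insert 1 S * F) := by
    rw [← Finset.card_union_of_disjoint Finset.disjoint_sdiff]
    refine Finset.card_le_card ?_
    intro x hx
    rcases Finset.mem_union.1 hx with h | h
    · exact Finset.mem_mul.2 ⟨1, Finset.mem_insert_self _ _, x, h, one_mul x⟩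
    · obtain ⟨a, ha, rfl⟩ := Finset.mem_image.1 (Finset.mem_sdiff.1 h).1
      exact Finset.mem_mul.2 ⟨s, Finset.mem_insert_of_mem hs, a, ha, rfl⟩
  have h3 : ((#F + #((F.image fun g => s * g) \ F) : ℕ) : ℝ) ≤ #(insert 1 S * F) := by
    exact_mod_cast h2
  push_cast at h3
  linarith

lemma expansion_pow [DecidableEq G] (S : Finset G) (r : ℝ) (hr : 1 < r) (hS0 : S.Nonempty)
    (hS : ∀ F : Finset G, F.Nonempty → r * #F ≤ #(S * F)) (k : ℕ) (F : Finset G)
    (hF : F.Nonempty) : r ^ k * #F ≤ #(S ^ k * F) := by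
  induction k with
  | zero => simp
  | succ k ih =>
    have h1 := hS (S ^ k * F) ((hS0.pow).mul hF)
    rw [← mul_assoc, ← pow_succ'] at h1
    refine le_trans ?_ h1
    rw [pow_succ, mul_comm (r ^ k) r, mul_assoc]
    exact mul_le_mul_of_nonneg_left ih (by linarith)

theorem exists_tau (h : ¬ Pool.Agent.H883B.IsAmenable G) :
    ∃ (S : Finset G) (τ : G × Fin 2 → G), Function.Injective τ ∧ ∀ p, ∃ s ∈ S, τ p = s * p.1 := by
  classical
  have hF : ¬ Folner G := fun hf => h (amenable_of_folner hf)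
  obtain ⟨S, r, hr, hS0, hS⟩ := expansion hF
  obtain ⟨k, hk⟩ := pow_unbounded_of_one_lt 2 hr
  have h2 : ∀ F : Finset G, 2 * #F ≤ #(S ^ k * F) := by
    intro F
    rcases F.eq_empty_or_nonempty with rfl | hne
    · simp
    · have h3 := expansion_pow S r hr hS0 hS k F hne
      have h4 : (2 : ℝ) * #F ≤ r ^ k * #F := mul_le_mul_of_nonneg_right hk.le (by positivity)
      exact_mod_cast h4.trans h3
  let t : G × Fin 2 → Finset G := fun p => (S ^ k).image fun s => s * p.1
  have hall : ∀ s : Finset (G × Fin 2), #s ≤ #(s.biUnion t) := by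
    intro s
    have h5 : s.biUnion t = S ^ k * s.image Prod.fst := by
      ext x
      simp only [Finset.mem_biUnion, Finset.mem_mul, t, Finset.mem_image]
      constructor
      · rintro ⟨p, hp, a, ha, rfl⟩
        exact ⟨a, ha, p.1, ⟨p, hp, rfl⟩, rfl⟩
      · rintro ⟨a, ha, b, ⟨p, hp, rfl⟩, rfl⟩
        exact ⟨p, hp, a, ha, rfl⟩
    have h6 : #s ≤ 2 * #(s.image Prod.fst) := by
      have : s ⊆ (s.image Prod.fst) ×ˢ (Finset.univ : Finset (Fin 2)) := by
        intro p hp
        exact Finset.mem_product.2 ⟨Finset.mem_image_of_mem _ hp, Finset.mem_univ _⟩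
      have h7 := Finset.card_le_card this
      rw [Finset.card_product, Finset.card_univ, Fintype.card_fin, mul_comm] at h7
      exact h7
    rw [h5]
    exact h6.trans (h2 _)
  obtain ⟨τ, hτ, hτt⟩ := (Finset.all_card_le_biUnion_card_iff_exists_injective t).1 hall
  refine ⟨S ^ k, τ, hτ, fun p => ?_⟩
  obtain ⟨s, hs, h⟩ := Finset.mem_image.1 (hτt p)
  exact ⟨s, hs, h.symm⟩

end Pool.Agent.Q195.AM
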