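import Pool.Agent.Q195.AM1

/-!
# Fractional partitions with small averages on non-amenable groups
-/

set_option autoImplicit false

namespace Pool.Agent.Q195.AM

open Finset

universe u

variable {G : Type u} [Group G]

theorem weights (h : ¬ Pool.Agent.H883B.IsAmenable G) :
    Infinite G ∧ ∃ (n : ℕ) (_ : 2 ≤ n) (s : Fin n → G) (W : Fin n → G → ℕ),
      (∀ g, ∑ j, W j g = 2 * n ^ 2) ∧
      ∀ j x, ∑ k ∈ range (2 * n), W j ((s j) ^ k * x) + n ≤ 4 * n ^ 2 := by
  classical
  obtain ⟨S, τ, hτ, hS⟩ := exists_tau h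
  constructor
  · by_contra hfin
    rw [not_infinite_iff_finite] at hfin
    have : Fintype G := Fintype.ofFinite G
    have h1 := Fintype.card_le_of_injective τ hτ
    rw [Fintype.card_prod, Fintype.card_fin] at h1
    have h2 : 0 < Fintype.card G := Fintype.card_pos
    omega
  obtain ⟨s₀, hs₀, -⟩ := hS (1, 0)
  let a : S × Fin 2 → G → ℤ := fun j g => if τ (g, j.2) = (j.1 : G) * g then 1 else 0
  have ha0 : ∀ j g, 0 ≤ a j g := fun j g => by simp only [a]; split_ifs <;> norm_num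
  have ha1 : ∀ j g, a j g ≤ 1 := fun j g => by simp only [a]; split_ifs <;> norm_num
  have hsum1 : ∀ g, ∑ j, a j g = 2 := by
    intro g
    rw [Fintype.sum_prod_type, Finset.sum_comm]
    have h1 : ∀ i : Fin 2, ∑ x : S, a (x, i) g = 1 := by
      intro i
      obtain ⟨s, hs, hsτ⟩ := hS (g, i)
      rw [Finset.sum_eq_single (⟨s, hs⟩ : S)]
      · simp only [a]
        rw [if_pos hsτ]
      · intro b _ hb
        simp only [a]
        rw [if_neg]
        intro h2
        rw [hsτ] at h2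
        exact hb (Subtype.ext (mul_right_cancel h2).symm)
      · intro h2
        exact absurd (Finset.mem_univ _) h2
    rw [Finset.sum_congr rfl fun i _ => h1 i]
    simp
  have hsum2 : ∀ g, ∑ j : S × Fin 2, a j ((j.1 : G)⁻¹ * g) ≤ 1 := by
    intro g
    have h1 : ∑ j : S × Fin 2, a j ((j.1 : G)⁻¹ * g) =
        #{j : S × Fin 2 | τ ((j.1 : G)⁻¹ * g, j.2) = g} := by
      simp only [a, mul_inv_cancel_left, Finset.card_filter]
      push_cast
      rfl
    rw [h1]
    have h2 : #{j : S × Fin 2 | τ ((j.1 : G)⁻¹ * g, j.2) = g} ≤ 1 := by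
      rw [Finset.card_le_one]
      intro j hj j' hj'
      rw [Finset.mem_filter] at hj hj'
      have h3 := hτ (hj.2.trans hj'.2.symm)
      rw [Prod.mk.injEq] at h3
      have h4 := inv_injective (mul_right_cancel h3.1)
      exact Prod.ext (Subtype.ext h4) h3.2
    exact_mod_cast h2
  let hh : S × Fin 2 → G → ℤ := fun j g => a j g - a j ((j.1 : G)⁻¹ * g)
  have hh1 : ∀ g, 1 ≤ ∑ j, hh j g := by
    intro g
    simp only [hh, Finset.sum_sub_distrib]
    linarith [hsum1 g, hsum2 g]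
  have hh2 : ∀ g, ∑ j, hh j g ≤ 2 := by
    intro g
    simp only [hh, Finset.sum_sub_distrib]
    have : 0 ≤ ∑ j : S × Fin 2, a j ((j.1 : G)⁻¹ * g) := Finset.sum_nonneg fun j _ => ha0 _ _
    linarith [hsum1 g]
  have hhm : ∀ j g, -1 ≤ hh j g := fun j g => by
    simp only [hh]
    linarith [ha0 j g, ha1 j ((j.1 : G)⁻¹ * g)]
  have htel : ∀ (j : S × Fin 2) (x : G) (N : ℕ), ∑ k ∈ range (N + 1), hh j ((j.1 : G) ^ k * x) =
      a j ((j.1 : G) ^ N * x) - a j ((j.1 : G)⁻¹ * x) := by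
    intro j x N
    induction N with
    | zero => simp [hh]
    | succ N ih =>
      rw [Finset.sum_range_succ, ih]
      simp only [hh]
      have : (j.1 : G)⁻¹ * ((j.1 : G) ^ (N + 1) * x) = (j.1 : G) ^ N * x := by
        rw [← mul_assoc, pow_succ', inv_mul_cancel_left]
      rw [this]
      ring
  set n : ℕ := Fintype.card (S × Fin 2) with hn
  have hn2 : 2 ≤ n := by
    rw [hn, Fintype.card_prod, Fintype.card_fin, Fintype.card_coe]
    have : 0 < #S := Finset.card_pos.2 ⟨s₀, hs₀⟩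
    omega
  let e : Fin n ≃ S × Fin 2 := (Fintype.equivFin _).symm
  let W : S × Fin 2 → G → ℤ := fun j g => 2 * n + n * hh j g - ∑ k, hh k g
  have hW0 : ∀ j g, 0 ≤ W j g := by
    intro j g
    simp only [W]
    have h1 := hhm j g
    have h2 := hh2 g
    have h3 : (2 : ℤ) ≤ n := by exact_mod_cast hn2
    nlinarith
  have hWs : ∀ g, ∑ j, W j g = 2 * (n : ℤ) ^ 2 := by
    intro g
    simp only [W, Finset.sum_sub_distrib, Finset.sum_add_distrib, Finset.sum_const,
      Finset.card_univ, ← Finset.mul_sum, nsmul_eq_mul]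
    rw [← hn]
    ring
  have hWa : ∀ j x, ∑ k ∈ range (2 * n), W j ((j.1 : G) ^ k * x) + n ≤ 4 * (n : ℤ) ^ 2 := by
    intro j x
    have h1 : ∑ k ∈ range (2 * n), W j ((j.1 : G) ^ k * x) = (2 * n) * (2 * n) +
        n * (∑ k ∈ range (2 * n), hh j ((j.1 : G) ^ k * x)) -
        ∑ k ∈ range (2 * n), ∑ i, hh i ((j.1 : G) ^ k * x) := by
      simp only [W, Finset.sum_sub_distrib, Finset.sum_add_distrib, Finset.sum_const,
        Finset.card_range, ← Finset.mul_sum, nsmul_eq_mul]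
      push_cast
      ring
    have h2 : ((2 * n : ℕ) : ℤ) ≤ ∑ k ∈ range (2 * n), ∑ i, hh i ((j.1 : G) ^ k * x) := by
      calc ((2 * n : ℕ) : ℤ) = ∑ _k ∈ range (2 * n), (1 : ℤ) := by simp
        _ ≤ _ := Finset.sum_le_sum fun k _ => hh1 _
    have h3 : ∑ k ∈ range (2 * n), hh j ((j.1 : G) ^ k * x) ≤ 1 := by
      obtain ⟨N, hN⟩ : ∃ N, 2 * n = N + 1 := ⟨2 * n - 1, by omega⟩
      rw [hN, htel]
      linarith [ha1 j ((j.1 : G) ^ N * x), ha0 j ((j.1 : G)⁻¹ * x)]
    rw [h1]
    have h4 : (0 : ℤ) ≤ n := by positivity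
    push_cast at h2
    nlinarith
  refine ⟨n, hn2, fun j => ((e j).1 : G), fun j g => (W (e j) g).toNat, ?_, ?_⟩
  · intro g
    have h1 : ((∑ j, (W (e j) g).toNat : ℕ) : ℤ) = 2 * (n : ℤ) ^ 2 := by
      push_cast
      rw [← hWs g, ← Equiv.sum_comp e (fun j => W j g)]
      exact Finset.sum_congr rfl fun j _ => Int.toNat_of_nonneg (hW0 _ _)
    exact_mod_cast h1
  · intro j x
    have h1 : ((∑ k ∈ range (2 * n), (W (e j) (((e j).1 : G) ^ k * x)).toNat + n : ℕ) : ℤ) ≤
        4 * (n : ℤ) ^ 2 := by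
      push_cast
      refine le_trans (le_of_eq ?_) (hWa (e j) x)
      congr 1
      exact Finset.sum_congr rfl fun k _ => Int.toNat_of_nonneg (hW0 _ _)
    exact_mod_cast h1

end Pool.Agent.Q195.AM
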