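import Mathlib

/-!
# A concentration inequality by counting
-/

set_option autoImplicit false

namespace Pool.Agent.Q195.AM

open Finset

variable {κ : Type*} [Fintype κ] [DecidableEq κ]

theorem concentration {R : ℕ} (hR : 0 < R) (F : Finset κ) (B : κ → Finset (Fin R)) (lam : ℝ)
    (h0 : 0 ≤ lam) (h2 : lam ≤ 2) (E : Finset (κ → Fin R))
    (hE : ∀ ω ∈ E, (∑ y ∈ F, (#(B y) : ℝ) / R) + lam * #F ≤ #{y ∈ F | ω y ∈ B y}) :
    (#E : ℝ) ≤ Real.exp (-(lam ^ 2 * #F / 4)) * Fintype.card (κ → Fin R) := by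
  classical
  have hR0 : (0 : ℝ) < R := by exact_mod_cast hR
  set s : ℝ := lam / 2 with hs
  have hs0 : 0 ≤ s := by positivity
  have hs1 : s ≤ 1 := by rw [hs]; linarith
  set q : ℝ := ∑ y ∈ F, (#(B y) : ℝ) / R with hq
  let ψ : κ → Fin R → ℝ := fun y r => if y ∈ F ∧ r ∈ B y then Real.exp s else 1
  have hψ : ∀ ω : κ → Fin R, ∏ y, ψ y (ω y) = Real.exp (s * #{y ∈ F | ω y ∈ B y}) := by
    intro ω
    simp only [ψ]
    rw [Finset.prod_ite, Finset.prod_const_one, mul_one, Finset.prod_const, ← Real.exp_nat_mul,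
      mul_comm]
    congr 3
    rw [← Finset.filter_filter]
    congr 1
    ext y
    simp
  have hprod : ∑ ω : κ → Fin R, ∏ y, ψ y (ω y) = ∏ y, ∑ r, ψ y r := by
    rw [Finset.prod_univ_sum, Fintype.piFinset_univ]
  have hbound : ∀ y, ∑ r, ψ y r ≤
      R * Real.exp (if y ∈ F then (#(B y) : ℝ) / R * (Real.exp s - 1) else 0) := by
    intro y
    by_cases hy : y ∈ F
    · simp only [ψ, hy, true_and, if_true]
      rw [Finset.sum_ite, Finset.sum_const, Finset.sum_const, nsmul_eq_mul, nsmul_eq_mul, mul_one]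
      have e1 : #{r : Fin R | r ∈ B y} = #(B y) := by
        congr 1
        ext r
        simp
      have e2 : (#{r : Fin R | r ∉ B y} : ℝ) = R - #(B y) := by
        have h3 := Finset.card_filter_add_card_filter_not (s := (Finset.univ : Finset (Fin R)))
          (fun r => r ∈ B y)
        rw [e1, Finset.card_univ, Fintype.card_fin] at h3
        have h4 : ((#(B y) + #{r : Fin R | r ∉ B y} : ℕ) : ℝ) = R := by exact_mod_cast h3
        push_cast at h4
        linarith
      rw [e1, e2]
      have h3 := Real.add_one_le_exp ((#(B y) : ℝ) / R * (Real.exp s - 1))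
      calc (#(B y) : ℝ) * Real.exp s + (R - #(B y)) =
            R * ((#(B y) : ℝ) / R * (Real.exp s - 1) + 1) := by field_simp; ring
        _ ≤ _ := mul_le_mul_of_nonneg_left h3 hR0.le
    · simp [ψ, hy]
  have htot : ∏ y, ∑ r, ψ y r ≤ (R : ℝ) ^ Fintype.card κ * Real.exp (q * (Real.exp s - 1)) := by
    calc ∏ y, ∑ r, ψ y r ≤ ∏ y : κ,
          ((R : ℝ) * Real.exp (if y ∈ F then (#(B y) : ℝ) / R * (Real.exp s - 1) else 0)) := by
          refine Finset.prod_le_prod (fun y _ => Finset.sum_nonneg fun r _ => ?_)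
            fun y _ => hbound y
          simp only [ψ]
          split_ifs <;> positivity
      _ = _ := by
          rw [Finset.prod_mul_distrib, Finset.prod_const, Finset.card_univ, ← Real.exp_sum,
            Finset.sum_ite_mem, Finset.univ_inter, hq, Finset.sum_mul]
  have hqF : q ≤ #F := by
    rw [hq]
    calc ∑ y ∈ F, (#(B y) : ℝ) / R ≤ ∑ y ∈ F, (1 : ℝ) := by
          refine Finset.sum_le_sum fun y _ => ?_
          rw [div_le_one hR0]
          have := Finset.card_le_univ (B y)
          rw [Fintype.card_fin] at this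
          exact_mod_cast this
      _ = #F := by simp
  have hq0 : 0 ≤ q := Finset.sum_nonneg fun y _ => by positivity
  have hexp : Real.exp s - 1 - s ≤ s ^ 2 := by
    have := Real.abs_exp_sub_one_sub_id_le (x := s) (by rw [abs_of_nonneg hs0]; exact hs1)
    exact (le_abs_self _).trans this
  -- Markov
  have hmain : (#E : ℝ) * Real.exp (s * (q + lam * #F)) ≤
      (R : ℝ) ^ Fintype.card κ * Real.exp (q * (Real.exp s - 1)) := by
    calc (#E : ℝ) * Real.exp (s * (q + lam * #F)) = ∑ ω ∈ E, Real.exp (s * (q + lam * #F)) := by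
          rw [Finset.sum_const, nsmul_eq_mul]
      _ ≤ ∑ ω ∈ E, ∏ y, ψ y (ω y) := by
          refine Finset.sum_le_sum fun ω hω => ?_
          rw [hψ]
          exact Real.exp_le_exp.2 (mul_le_mul_of_nonneg_left (hE ω hω) hs0)
      _ ≤ ∑ ω : κ → Fin R, ∏ y, ψ y (ω y) := by
          refine Finset.sum_le_sum_of_subset_of_nonneg (Finset.subset_univ _) fun ω _ _ => ?_
          rw [hψ]
          positivity
      _ ≤ _ := by rw [hprod]; exact htot
  have hcard : (Fintype.card (κ → Fin R) : ℝ) = (R : ℝ) ^ Fintype.card κ := by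
    rw [Fintype.card_fun, Fintype.card_fin]
    push_cast
    rfl
  rw [hcard]
  have hlast : Real.exp (q * (Real.exp s - 1)) ≤
      Real.exp (-(lam ^ 2 * #F / 4)) * Real.exp (s * (q + lam * #F)) := by
    rw [← Real.exp_add, Real.exp_le_exp]
    have h3 : q * (Real.exp s - 1 - s) ≤ #F * s ^ 2 :=
      (mul_le_mul_of_nonneg_left hexp hq0).trans (mul_le_mul_of_nonneg_right hqF (sq_nonneg s))
    have h4 : lam = 2 * s := by rw [hs]; ring
    rw [h4]
    nlinarith
  have h5 : 0 < Real.exp (s * (q + lam * #F)) := Real.exp_pos _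
  have h6 : (#E : ℝ) * Real.exp (s * (q + lam * #F)) ≤
      (Real.exp (-(lam ^ 2 * #F / 4)) * (R : ℝ) ^ Fintype.card κ) *
        Real.exp (s * (q + lam * #F)) := by
    refine hmain.trans ?_
    calc (R : ℝ) ^ Fintype.card κ * Real.exp (q * (Real.exp s - 1)) ≤
          (R : ℝ) ^ Fintype.card κ * (Real.exp (-(lam ^ 2 * #F / 4)) *
            Real.exp (s * (q + lam * #F))) := mul_le_mul_of_nonneg_left hlast (by positivity)
      _ = _ := by ring
  exact le_of_mul_le_mul_right h6 h5

end Pool.Agent.Q195.AM
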