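import Pool.Agent.Q195.AM2
import Pool.Agent.Q195.AM3
import Pool.Agent.Helper208.Rainbow.LLL

/-!
# Rounding a fractional partition by the local lemma
-/

set_option autoImplicit false

namespace Pool.Agent.Q195.AM

open Finset
open Pool.Agent.Helper208.Rainbow

universe u

lemma exists_col {n R : ℕ} (w : Fin n → ℕ) (hw : ∑ j, w j = R) :
    ∃ f : Fin R → Fin n, ∀ j, #{r | f r = j} = w j := by
  classical
  let e : Fin R ≃ Σ j, Fin (w j) := Fintype.equivOfCardEq (by simp [hw])
  refine ⟨fun r => (e r).1, fun j => ?_⟩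
  have h1 : (Finset.univ.filter fun r => (e r).1 = j) =
      (Finset.univ : Finset (Fin (w j))).image (fun k => e.symm ⟨j, k⟩) := by
    ext r
    simp only [Finset.mem_filter, Finset.mem_univ, true_and, Finset.mem_image]
    constructor
    · intro h
      subst h
      exact ⟨(e r).2, by simp⟩
    · rintro ⟨k, rfl⟩
      simp
  rw [h1, Finset.card_image_of_injective, Finset.card_univ, Fintype.card_fin]
  intro k k' hk
  have h2 := e.symm.injective hk
  simpa using h2

variable {G : Type u} [Group G]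

theorem finite_coloring {n : ℕ} (hn : 2 ≤ n) (s : Fin n → G) (W : Fin n → G → ℕ)
    (hW : ∀ g, ∑ j, W j g = 2 * n ^ 2) (lam : ℝ) (h0 : 0 ≤ lam) (h2 : lam ≤ 2) (T : Finset G)
    (hT : 1 ≤ #T)
    (hbig : Real.exp (-(lam ^ 2 * #T / 4)) ≤ 1 / (2 * n * (2 * n) * (#T) ^ 2) * Real.exp (-1))
    (X : Finset G) :
    ∃ c : G → Fin n, ∀ x ∈ X, ∀ j : Fin n, ∀ k < 2 * n,
      (#{t ∈ T | c ((s j) ^ k * t * x) = j} : ℝ) ≤
        (∑ t ∈ T, (W j ((s j) ^ k * t * x) : ℝ) / (2 * n ^ 2 : ℕ)) + lam * #T := by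
  classical
  have hn0 : 0 < n := by omega
  set R : ℕ := 2 * n ^ 2 with hR
  have hR0 : 0 < R := by positivity
  choose col hcol using fun g => exists_col (fun j => W j g) (hW g)
  let ι := Fin n × Fin (2 * n) × X
  let pt : ι → G → G := fun i t => (s i.1) ^ (i.2.1 : ℕ) * t * i.2.2
  have hpt : ∀ i, Function.Injective (pt i) := by
    intro i t t' h
    exact mul_left_cancel (mul_right_cancel h)
  let V : Finset G := (Finset.univ : Finset ι).biUnion fun i => T.image (pt i)
  have hV : ∀ i, ∀ t ∈ T, pt i t ∈ V := fun i t ht =>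
    Finset.mem_biUnion.2 ⟨i, Finset.mem_univ _, Finset.mem_image_of_mem _ ht⟩
  let em : ι → T → V := fun i t => ⟨pt i t, hV i t t.2⟩
  have hem : ∀ i, Function.Injective (em i) := by
    intro i t t' h
    exact Subtype.ext (hpt i (congrArg Subtype.val h))
  let F : ι → Finset V := fun i => (Finset.univ : Finset T).image (em i)
  have hF : ∀ i, #(F i) = #T := by
    intro i
    rw [Finset.card_image_of_injective _ (hem i), Finset.card_univ, Fintype.card_coe]
  let B : ι → V → Finset (Fin R) := fun i y => Finset.univ.filter fun r => col y r = i.1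
  have hB : ∀ i y, #(B i y) = W i.1 y := fun i y => hcol y i.1
  let A : ι → Finset (V → Fin R) := fun i => Finset.univ.filter fun ω =>
    (∑ y ∈ F i, (#(B i y) : ℝ) / R) + lam * #(F i) ≤ #{y ∈ F i | ω y ∈ B i y}
  have hA : ∀ i, DepOn (A i) (F i) := by
    intro i ω ω' h
    simp only [A, Finset.mem_filter, Finset.mem_univ, true_and]
    have : (F i).filter (fun y => ω y ∈ B i y) = (F i).filter (fun y => ω' y ∈ B i y) := by
      refine Finset.filter_congr fun y hy => ?_
      rw [h y hy]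
    rw [this]
  have hT0 : (0 : ℝ) < #T := by
    have : 0 < #T := hT
    exact_mod_cast this
  have hT1 : (1 : ℝ) ≤ #T := by exact_mod_cast hT
  have hnr : (2 : ℝ) ≤ n := by exact_mod_cast hn
  set x0 : ℝ := 1 / (2 * n * (2 * n) * (#T) ^ 2) with hx0
  have hx0p : 0 < x0 := by positivity
  have hx0h : x0 ≤ 1 / 2 := by
    rw [hx0]
    apply one_div_le_one_div_of_le (by norm_num)
    have h3 : (1 : ℝ) ≤ (#T : ℝ) ^ 2 := by nlinarith
    have h4 : (2 : ℝ) ≤ 2 * n * (2 * n) := by nlinarith
    nlinarith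
  have : Nonempty (Fin R) := ⟨⟨0, hR0⟩⟩
  obtain ⟨t₀, ht₀⟩ := Finset.card_pos.1 hT
  obtain ⟨ω, hω⟩ := lll_exp A F hA (fun _ => x0) (fun _ => hx0p.le) (fun _ => hx0h)
    (n * (2 * n) * #T * x0) (by
      intro y
      rw [Finset.sum_const, nsmul_eq_mul]
      refine mul_le_mul_of_nonneg_right ?_ hx0p.le
      have hex : ∀ i ∈ Finset.univ.filter (fun i : ι => y ∈ F i), ∃ t : T, em i t = y := by
        intro i hi
        rw [Finset.mem_filter] at hi
        obtain ⟨t, -, ht⟩ := Finset.mem_image.1 hi.2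
        exact ⟨t, ht⟩
      let gg : ι → Fin n × Fin (2 * n) × T := fun i =>
        (i.1, i.2.1, if h : ∃ t : T, em i t = y then h.choose else ⟨t₀, ht₀⟩)
      have h5 : #(Finset.univ.filter (fun i : ι => y ∈ F i)) ≤
          #(Finset.univ : Finset (Fin n × Fin (2 * n) × T)) := by
        refine Finset.card_le_card_of_injOn gg (fun _ _ => Finset.mem_coe.2 (Finset.mem_univ _)) ?_
        intro i hi i' hi' hEq
        have e1 := hex i hi
        have e2 := hex i' hi'
        have f1 : em i e1.choose = y := e1.choose_spec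
        have f2 : em i' e2.choose = y := e2.choose_spec
        simp only [gg, dif_pos e1, dif_pos e2, Prod.mk.injEq] at hEq
        obtain ⟨a1, a2, a3⟩ := hEq
        have f3 : pt i e1.choose = pt i' e2.choose := congrArg Subtype.val (f1.trans f2.symm)
        rw [a3] at f3
        simp only [pt, a1, a2] at f3
        have f4 := mul_left_cancel f3
        exact Prod.ext a1 (Prod.ext a2 (Subtype.ext f4))
      rw [Finset.card_univ, Fintype.card_prod, Fintype.card_prod, Fintype.card_fin,
        Fintype.card_fin, Fintype.card_coe] at h5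
      have h6 : ((#(Finset.univ.filter (fun i : ι => y ∈ F i)) : ℕ) : ℝ) ≤
          ((n * (2 * n * #T) : ℕ) : ℝ) := by exact_mod_cast h5
      push_cast at h6
      linarith) (by
      intro i
      have h7 := concentration hR0 (F i) (B i) lam h0 h2 (A i) (by
        intro ω hω
        exact (Finset.mem_filter.1 hω).2)
      refine h7.trans (mul_le_mul_of_nonneg_right ?_ (by positivity))
      rw [hF]
      have h8 : 2 * ((#T : ℝ) * (n * (2 * n) * #T * x0)) = 1 := by
        rw [hx0]
        field_simp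
      rw [h8]
      exact hbig)
  let c : G → Fin n := fun g => if h : g ∈ V then col g (ω ⟨g, h⟩) else ⟨0, hn0⟩
  refine ⟨c, fun x hx j k hk => ?_⟩
  have h9 := hω (j, ⟨k, hk⟩, ⟨x, hx⟩)
  simp only [A, Finset.mem_filter, Finset.mem_univ, true_and, not_le] at h9
  rw [hF] at h9
  set i : ι := (j, ⟨k, hk⟩, ⟨x, hx⟩) with hi
  have e1 : (#{t ∈ T | c ((s j) ^ k * t * x) = j} : ℝ) = #{y ∈ F i | ω y ∈ B i y} := by
    rw [Finset.card_filter, Finset.card_filter, Finset.sum_image (fun a _ b _ h => hem i h)]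
    push_cast
    rw [← Finset.sum_coe_sort T]
    refine Finset.sum_congr rfl fun t _ => ?_
    have e2 : c ((s j) ^ k * (t : G) * x) = col (em i t) (ω (em i t)) := by
      simp only [c]
      rw [dif_pos (hV i t t.2)]
    rw [e2]
    simp only [B, Finset.mem_filter, Finset.mem_univ, true_and, hi]
  have e3 : ∑ y ∈ F i, (#(B i y) : ℝ) / R =
      ∑ t ∈ T, (W j ((s j) ^ k * t * x) : ℝ) / R := by
    rw [Finset.sum_image (fun a _ b _ h => hem i h), ← Finset.sum_coe_sort T]
    refine Finset.sum_congr rfl fun t _ => ?_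
    rw [hB]
  rw [e1, ← e3]
  exact h9.le

theorem global_coloring {n : ℕ} (hn : 2 ≤ n) (s : Fin n → G) (W : Fin n → G → ℕ)
    (hW : ∀ g, ∑ j, W j g = 2 * n ^ 2) (lam : ℝ) (h0 : 0 ≤ lam) (h2 : lam ≤ 2) (T : Finset G)
    (hT : 1 ≤ #T)
    (hbig : Real.exp (-(lam ^ 2 * #T / 4)) ≤ 1 / (2 * n * (2 * n) * (#T) ^ 2) * Real.exp (-1)) :
    ∃ c : G → Fin n, ∀ x, ∀ j : Fin n, ∀ k < 2 * n,
      (#{t ∈ T | c ((s j) ^ k * t * x) = j} : ℝ) ≤
        (∑ t ∈ T, (W j ((s j) ^ k * t * x) : ℝ) / (2 * n ^ 2 : ℕ)) + lam * #T := by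
  classical
  let K : Finset G → Set (G → Fin n) := fun X => {c | ∀ x ∈ X, ∀ j : Fin n, ∀ k < 2 * n,
      (#{t ∈ T | c ((s j) ^ k * t * x) = j} : ℝ) ≤
        (∑ t ∈ T, (W j ((s j) ^ k * t * x) : ℝ) / (2 * n ^ 2 : ℕ)) + lam * #T}
  have hcl : ∀ X, IsClosed (K X) := by
    intro X
    have h1 : K X = ⋂ x ∈ X, ⋂ j : Fin n, ⋂ k : Fin (2 * n), {c : G → Fin n |
        (#{t ∈ T | c ((s j) ^ (k : ℕ) * t * x) = j} : ℝ) ≤
        (∑ t ∈ T, (W j ((s j) ^ (k : ℕ) * t * x) : ℝ) / (2 * n ^ 2 : ℕ)) + lam * #T} := by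
      ext c
      simp only [K, Set.mem_ofPred_eq, Set.mem_iInter]
      constructor
      · intro h x hx j k
        exact h x hx j k k.2
      · intro h x hx j k hk
        exact h x hx j ⟨k, hk⟩
    rw [h1]
    refine isClosed_biInter fun x _ => isClosed_iInter fun j => isClosed_iInter fun k => ?_
    refine isClosed_le ?_ continuous_const
    have h3 : (fun c : G → Fin n => (#{t ∈ T | c ((s j) ^ (k : ℕ) * t * x) = j} : ℝ)) =
        fun c => ∑ t ∈ T, (if c ((s j) ^ (k : ℕ) * t * x) = j then (1 : ℝ) else 0) := by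
      funext c
      rw [Finset.card_filter]
      push_cast
      rfl
    rw [h3]
    refine continuous_finsetSum _ fun t _ => ?_
    have h4 : Continuous fun a : Fin n => if a = j then (1 : ℝ) else 0 :=
      continuous_of_discreteTopology
    exact h4.comp (continuous_apply _)
  have hne : (⋂ X, K X).Nonempty := by
    refine IsCompact.nonempty_iInter_of_directed_nonempty_isCompact_isClosed K ?_ ?_ ?_ hcl
    · intro X Y
      refine ⟨X ∪ Y, ?_, ?_⟩
      · intro c hc x hx
        exact hc x (Finset.mem_union_left _ hx)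
      · intro c hc x hx
        exact hc x (Finset.mem_union_right _ hx)
    · intro X
      exact finite_coloring hn s W hW lam h0 h2 T hT hbig X
    · intro X
      exact (hcl X).isCompact
  obtain ⟨c, hc⟩ := hne
  refine ⟨c, fun x j k hk => ?_⟩
  exact Set.mem_iInter.1 hc {x} x (Finset.mem_singleton_self x) j k hk

end Pool.Agent.Q195.AM
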