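import Pool.Agent.Q195.AM2
import Pool.Agent.Q195.AM4
import Pool.Agent.H883B.Stmts

/-!
# MP_d97def_al, Q1 for X = a: a group with property (a) is amenable
-/

set_option autoImplicit false

namespace Pool.Agent.Q195.AM5

open Finset

universe u

variable {G : Type u}

open Classical in
/-- `μ(B)` for a finitely supported function `μ` on `G`, seen as a measure: the sum of the values
`μ(a)` over the points `a ∈ B` of the support. -/
noncomputable def mass (μ : G →₀ ℝ) (B : Set G) : ℝ := μ.sum fun a t => if a ∈ B then t else 0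

/-- `μ` is a finitely supported probability measure, `μ ∈ P_ω(G)`. -/
def IsProb (μ : G →₀ ℝ) : Prop := (∀ a, 0 ≤ μ a) ∧ (μ.sum fun _ t => t) = 1

/-- `is₁₂(A) = inf_{μ ∈ P_ω(G)} sup_{y ∈ G} μ(A y)`. -/
noncomputable def is12 [Group G] (A : Set G) : ℝ :=
  ⨅ μ : {μ : G →₀ ℝ // IsProb μ}, ⨆ y : G, mass (μ : G →₀ ℝ) ((fun a => a * y) '' A)

/-- Property (a): for every `n ≥ 1`, every partition of `G` into `n` nonempty cells
`{x | c x = i}` has a cell `A` with `is₁₂(A) ≥ 1/n`. -/
def PropertyA (G : Type u) [Group G] : Prop :=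
  ∀ n : ℕ, 1 ≤ n → ∀ c : G → Fin n, Function.Surjective c →
    ∃ i : Fin n, 1 / (n : ℝ) ≤ is12 {x | c x = i}

/-- Empty cells may be allowed in property (a). -/
theorem PropertyA.all [Group G] (h : PropertyA G) {n : ℕ} (c : G → Fin n) :
    ∃ i : Fin n, 1 / (n : ℝ) ≤ is12 {x | c x = i} := by
  classical
  have e : Set.range c ≃ Fin (Fintype.card (Set.range c)) := Fintype.equivFin _
  have hm : 1 ≤ Fintype.card (Set.range c) :=
    Fintype.card_pos_iff.2 ⟨⟨c 1, ⟨1, rfl⟩⟩⟩
  have hmn : Fintype.card (Set.range c) ≤ n := by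
    have := Fintype.card_le_of_injective (fun x : Set.range c => x.1) Subtype.val_injective
    rwa [Fintype.card_fin] at this
  obtain ⟨i, hi⟩ := h _ hm (fun x => e ⟨c x, ⟨x, rfl⟩⟩) (by
    intro i
    obtain ⟨⟨_, x, rfl⟩, hx⟩ := e.surjective i
    exact ⟨x, hx⟩)
  refine ⟨(e.symm i).1, ?_⟩
  have h1 : {x | c x = (e.symm i).1} = {x | e ⟨c x, ⟨x, rfl⟩⟩ = i} := by
    ext x
    simp only [Set.mem_ofPred_eq]
    rw [← Equiv.eq_symm_apply, Subtype.ext_iff]
  rw [h1]
  refine le_trans ?_ hi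
  have h2 : (0:ℝ) < Fintype.card (Set.range c) := by exact_mod_cast hm
  have h3 : (Fintype.card (Set.range c) : ℝ) ≤ n := by exact_mod_cast hmn
  exact one_div_le_one_div_of_le h2 h3

theorem mass_nonneg {μ : G →₀ ℝ} (h : IsProb μ) (B : Set G) : 0 ≤ mass μ B := by
  classical
  unfold mass
  refine Finsupp.sum_nonneg fun a _ => ?_
  split_ifs
  · exact h.1 a
  · exact le_refl _

theorem mass_le_one {μ : G →₀ ℝ} (h : IsProb μ) (B : Set G) : mass μ B ≤ 1 := by
  classical
  rw [← h.2]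
  unfold mass Finsupp.sum
  refine Finset.sum_le_sum fun a _ => ?_
  show (if a ∈ B then μ a else 0) ≤ μ a
  split_ifs
  · exact le_refl _
  · exact h.1 a

/-- The uniform measure (with multiplicity) on the points `f i`, `i ∈ I`. -/
noncomputable def unif {ι : Type*} (I : Finset ι) (f : ι → G) : G →₀ ℝ :=
  ∑ i ∈ I, Finsupp.single (f i) (1 / (#I : ℝ))

theorem unif_sum {ι : Type*} (I : Finset ι) (f : ι → G) (F : G → Prop) [DecidablePred F] :
    ((unif I f).sum fun a t => if F a then t else 0) = (#{i ∈ I | F (f i)} : ℝ) / #I := by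
  classical
  unfold unif
  rw [← Finsupp.sum_finsetSum_index]
  · rw [Finset.sum_congr rfl (fun i _ => Finsupp.sum_single_index (by simp))]
    rw [Finset.card_filter, Nat.cast_sum, Finset.sum_div]
    refine Finset.sum_congr rfl fun i _ => ?_
    split_ifs <;> simp
  · intro a; simp
  · intro a b₁ b₂; split_ifs <;> simp

theorem unif_prob {ι : Type*} {I : Finset ι} (hI : I.Nonempty) (f : ι → G) :
    IsProb (unif I f) := by
  classical
  constructor
  · intro a
    unfold unif
    rw [Finsupp.finsetSum_apply]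
    refine Finset.sum_nonneg fun i _ => ?_
    rw [Finsupp.single_apply]
    split_ifs <;> positivity
  · have := unif_sum I f (fun _ => True)
    simp only [if_true, Finset.filter_true] at this
    rw [this, div_self]
    have := hI.card_pos
    positivity

theorem is12_le_of [Group G] {A : Set G} {μ : G →₀ ℝ} (hμ : IsProb μ) {C : ℝ}
    (h : ∀ y, mass μ ((fun a => a * y) '' A) ≤ C) : is12 A ≤ C := by
  unfold is12
  refine (ciInf_le ⟨0, ?_⟩ (⟨μ, hμ⟩ : {μ : G →₀ ℝ // IsProb μ})).trans (ciSup_le h)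
  rintro _ ⟨ν, rfl⟩
  exact Real.iSup_nonneg fun y => mass_nonneg ν.2 _

theorem exists_M (c K : ℝ) (hc : 0 < c) (hK : 0 < K) :
    ∃ M : ℕ, 1 ≤ M ∧ Real.exp (-(c * M)) ≤ 1 / (K * (M : ℝ) ^ 2) * Real.exp (-1) := by
  have h1 := (Real.tendsto_pow_mul_exp_neg_atTop_nhds_zero 2).comp
    (Filter.Tendsto.const_mul_atTop hc tendsto_natCast_atTop_atTop)
  have h2 : (0:ℝ) < c ^ 2 / K * Real.exp (-1) := by positivity
  have h3 := (h1.eventually (gt_mem_nhds h2)).and (Filter.eventually_ge_atTop 1)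
  obtain ⟨M, hM, hM1⟩ := h3.exists
  refine ⟨M, hM1, ?_⟩
  simp only [Function.comp_apply] at hM
  have hM0 : (0:ℝ) < M := by exact_mod_cast hM1
  rw [mul_pow] at hM
  rw [div_mul_eq_mul_div, one_mul, le_div_iff₀ (by positivity)]
  have h4 : Real.exp (-(c * M)) * (K * (M:ℝ)^2) =
      (K / c ^ 2) * (c ^ 2 * (M:ℝ) ^ 2 * Real.exp (-(c * M))) := by
    field_simp
  rw [h4]
  calc (K / c ^ 2) * (c ^ 2 * (M:ℝ) ^ 2 * Real.exp (-(c * M)))
      ≤ (K / c ^ 2) * (c ^ 2 / K * Real.exp (-1)) :=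
        mul_le_mul_of_nonneg_left hM.le (by positivity)
    _ = Real.exp (-1) := by field_simp

theorem result (G : Type u) [Group G] (ha : PropertyA G) : Pool.Agent.H883B.IsAmenable G := by
  classical
  by_contra hna
  obtain ⟨hinf, n, hn, s, W, hW1, hW2⟩ := Pool.Agent.Q195.AM.weights hna
  have hn0 : (0:ℝ) < n := by
    have : 0 < n := by omega
    exact_mod_cast this
  have hn2 : (2:ℝ) ≤ n := by exact_mod_cast hn
  set lam : ℝ := 1 / (8 * (n:ℝ) ^ 2) with hlam
  have hlam0 : 0 < lam := by positivity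
  have hlam2 : lam ≤ 2 := by
    rw [hlam, div_le_iff₀ (by positivity)]
    nlinarith
  obtain ⟨M, hM1, hM⟩ := exists_M (lam ^ 2 / 4) (2 * n * (2 * n)) (by positivity) (by positivity)
  obtain ⟨T, hT⟩ := Infinite.exists_subset_card_eq G M
  have hM0 : (0:ℝ) < M := by exact_mod_cast hM1
  obtain ⟨c, hc⟩ := Pool.Agent.Q195.AM.global_coloring hn s W hW1 lam hlam0.le hlam2 T
    (by rw [hT]; exact hM1) (by
      rw [hT]
      convert hM using 2
      ring)
  obtain ⟨j, hj⟩ := ha.all c
  let I : Finset (ℕ × G) := (range (2 * n)) ×ˢ T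
  let f : ℕ × G → G := fun p => (s j) ^ p.1 * p.2
  have hIc : (#I : ℝ) = 2 * n * M := by
    simp only [I, Finset.card_product, Finset.card_range, hT]
    push_cast
    ring
  have hIne : I.Nonempty := by
    rw [← Finset.card_pos]
    have : (0:ℝ) < #I := by rw [hIc]; positivity
    exact_mod_cast this
  have hub : is12 {x | c x = j} ≤ 1 / n - 1 / (8 * (n:ℝ) ^ 2) := by
    refine is12_le_of (unif_prob hIne f) fun y => ?_
    unfold mass
    rw [unif_sum, div_le_iff₀ (by rw [hIc]; positivity)]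
    have h1 : (#{i ∈ I | f i ∈ (fun a => a * y) '' {x | c x = j}} : ℝ) =
        ∑ k ∈ range (2 * n), (#{t ∈ T | c ((s j) ^ k * t * y⁻¹) = j} : ℝ) := by
      rw [Finset.card_filter, Finset.sum_product]
      push_cast
      refine Finset.sum_congr rfl fun k _ => ?_
      rw [Finset.card_filter]
      push_cast
      refine Finset.sum_congr rfl fun t _ => ?_
      have : (f (k, t) ∈ (fun a => a * y) '' {x | c x = j}) ↔ c ((s j) ^ k * t * y⁻¹) = j := by
        constructor
        · rintro ⟨a, ha, hfa⟩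
          simp only [f] at hfa
          rw [← hfa, mul_inv_cancel_right]
          exact ha
        · intro h
          exact ⟨(s j) ^ k * t * y⁻¹, h, by simp only [f, inv_mul_cancel_right]⟩
      simp only [this]
    rw [h1]
    have h2 : ∑ k ∈ range (2 * n), (#{t ∈ T | c ((s j) ^ k * t * y⁻¹) = j} : ℝ) ≤
        ∑ k ∈ range (2 * n), ((∑ t ∈ T, (W j ((s j)^k * t * y⁻¹) : ℝ)/(2*n^2 : ℕ)) + lam * #T) :=
      Finset.sum_le_sum fun k hk => hc y⁻¹ j k (Finset.mem_range.1 hk)
    refine h2.trans ?_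
    rw [Finset.sum_add_distrib, Finset.sum_comm, Finset.sum_const, Finset.card_range, hT,
      nsmul_eq_mul]
    have h3 : ∀ t ∈ T, ∑ k ∈ range (2 * n), (W j ((s j)^k * t * y⁻¹) : ℝ)/(2*n^2 : ℕ) ≤
        (4 * n ^ 2 - n) / (2 * n ^ 2) := by
      intro t _
      rw [← Finset.sum_div]
      push_cast
      refine div_le_div_of_nonneg_right ?_ (by positivity)
      have h4 := hW2 j (t * y⁻¹)
      have h5 : (∑ k ∈ range (2 * n), (W j ((s j)^k * (t * y⁻¹)) : ℝ)) + n ≤ 4 * n ^ 2 := by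
        exact_mod_cast h4
      simp only [← mul_assoc] at h5
      linarith
    have h6 := Finset.sum_le_sum h3
    rw [Finset.sum_const, hT, nsmul_eq_mul] at h6
    have h7 : (M:ℝ) * ((4 * n ^ 2 - n) / (2 * n ^ 2)) + ((2 * n : ℕ) : ℝ) * (lam * M) =
        (1 / n - 1 / (8 * (n:ℝ) ^ 2)) * #I := by
      rw [hIc, hlam]
      push_cast
      field_simp
      ring
    linarith
  have h8 : (0:ℝ) < 1 / (8 * (n:ℝ) ^ 2) := by positivity
  linarith

end Pool.Agent.Q195.AM5
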