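import Mathlib

set_option autoImplicit false

namespace Pool.Agent.Q195.BC

open Filter Topology

variable {𝕜 : Type*} [RCLike 𝕜]

/-- separation from closed absolutely convex sets -/
lemma sep {V : Type*} [NormedAddCommGroup V] [NormedSpace 𝕜 V] [NormedSpace ℝ V]
    [IsScalarTower ℝ 𝕜 V]
    (S : Set V) (hc : IsClosed S) (hconv : Convex ℝ S) (hb : ∀ (l : 𝕜) w, ‖l‖ = 1 → w ∈ S → l • w ∈ S)
    (v : V) (hv : v ∉ S) : ∃ (ψ : V →L[𝕜] 𝕜) (s : ℝ), (∀ w ∈ S, ‖ψ w‖ ≤ s) ∧ s < ‖ψ v‖ := by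
  obtain ⟨ψ, s, h1, h2⟩ := RCLike.geometric_hahn_banach_closed_point (𝕜 := 𝕜) hconv hc hv
  refine ⟨ψ, s, ?_, h2.trans_le (RCLike.re_le_norm _)⟩
  intro w hw
  by_cases h0 : ψ w = 0
  · have := h1 w hw
    rw [h0] at this ⊢
    simpa using this.le
  · have hn : ‖ψ w‖ ≠ 0 := by simpa using h0
    let l : 𝕜 := (‖ψ w‖ : 𝕜) * (ψ w)⁻¹
    have hl : ‖l‖ = 1 := by
      simp only [l]
      rw [norm_mul, norm_inv, RCLike.norm_ofReal, abs_of_nonneg (norm_nonneg _)]
      exact mul_inv_cancel₀ hn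
    have h3 := h1 (l • w) (hb l w hl hw)
    rw [map_smul, smul_eq_mul] at h3
    have h4 : l * ψ w = (‖ψ w‖ : 𝕜) := by
      simp only [l]
      rw [mul_assoc, inv_mul_cancel₀ h0, mul_one]
    rw [h4, RCLike.ofReal_re] at h3
    exact h3.le

variable {E : Type*} [NormedAddCommGroup E] [NormedSpace 𝕜 E]

/-- unit ball of a space of functionals -/
abbrev BF (F : Submodule 𝕜 (E →L[𝕜] 𝕜)) := {g : E →L[𝕜] 𝕜 // g ∈ F ∧ ‖g‖ ≤ 1}

/-- evaluation map -/
noncomputable def T (F : Submodule 𝕜 (E →L[𝕜] 𝕜)) : E →ₗ[𝕜] lp (fun _ : BF F => 𝕜) ⊤ where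
  toFun := fun x => ⟨fun g => g.1 x, memℓp_infty ⟨‖x‖, by
    rintro _ ⟨g, rfl⟩
    have := g.1.le_opNorm x
    have h1 := g.2.2
    have h2 := norm_nonneg x
    nlinarith⟩⟩
  map_add' := fun x y => by
    apply lp.ext; funext g; exact map_add g.1 x y
  map_smul' := fun t x => by
    apply lp.ext; funext g; exact map_smul g.1 t x

variable {F : Submodule 𝕜 (E →L[𝕜] 𝕜)}

lemma T_apply (x : E) (g : BF F) : T F x g = g.1 x := rfl

lemma T_le (x : E) (c : ℝ) (hc : 0 ≤ c) (h : ∀ g ∈ F, ‖g‖ ≤ 1 → ‖g x‖ ≤ c) : ‖T F x‖ ≤ c :=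
  lp.norm_le_of_forall_le hc (fun g => h g.1 g.2.1 g.2.2)

lemma T_norm_le (x : E) : ‖T F x‖ ≤ ‖x‖ := by
  apply T_le x _ (norm_nonneg _)
  intro g _ hg
  have := g.le_opNorm x
  have h2 := norm_nonneg x
  nlinarith

lemma le_T (x : E) (g : E →L[𝕜] 𝕜) (hg : g ∈ F) : ‖g x‖ ≤ ‖g‖ * ‖T F x‖ := by
  by_cases h0 : ‖g‖ = 0
  · have : g = 0 := norm_eq_zero.mp h0
    rw [this]; simp
  · have hpos : 0 < ‖g‖ := lt_of_le_of_ne (norm_nonneg _) (Ne.symm h0)
    let g' : BF F := ⟨((‖g‖⁻¹ : ℝ) : 𝕜) • g, F.smul_mem _ hg, by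
      rw [norm_smul, RCLike.norm_ofReal, abs_of_pos (by positivity), inv_mul_cancel₀ h0]⟩
    have h1 := lp.norm_apply_le_norm (p := ⊤) (by simp) (T F x) g'
    rw [T_apply] at h1
    have h2 : g'.1 x = ((‖g‖⁻¹ : ℝ) : 𝕜) • g x := rfl
    rw [h2, norm_smul, RCLike.norm_ofReal, abs_of_pos (by positivity),
      inv_mul_le_iff₀ hpos] at h1
    exact h1

/-- Approximation: functionals dominated by the norm of `T F x` are approximated on finitely many
points by bounded elements of `F`. -/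
lemma approx (h : E →L[𝕜] 𝕜) (C : ℝ) (hC : 0 < C)
    (hh : ∀ x, ‖h x‖ ≤ C * ‖T F x‖) (x : ℕ → E) (n : ℕ) (ε : ℝ) (hε : 0 < ε) :
    ∃ g ∈ F, ‖g‖ ≤ C ∧ ∀ i < n, ‖g (x i) - h (x i)‖ < ε := by
  let S : Set (Fin n → 𝕜) := {w | ∃ g ∈ F, ‖g‖ ≤ C ∧ w = fun i : Fin n => g (x i)}
  let v : Fin n → 𝕜 := fun i => h (x i)
  have hconv : Convex ℝ S := by
    rintro _ ⟨g1, hg1, hn1, rfl⟩ _ ⟨g2, hg2, hn2, rfl⟩ a b ha hb hab
    refine ⟨(a : 𝕜) • g1 + (b : 𝕜) • g2, F.add_mem (F.smul_mem _ hg1) (F.smul_mem _ hg2), ?_, ?_⟩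
    · refine (norm_add_le _ _).trans ?_
      rw [norm_smul, norm_smul, RCLike.norm_ofReal, RCLike.norm_ofReal, abs_of_nonneg ha,
        abs_of_nonneg hb]
      calc a * ‖g1‖ + b * ‖g2‖ ≤ a * C + b * C :=
            add_le_add (mul_le_mul_of_nonneg_left hn1 ha) (mul_le_mul_of_nonneg_left hn2 hb)
        _ = C := by rw [← add_mul, hab, one_mul]
    · funext i
      simp only [Pi.add_apply, Pi.smul_apply, add_apply, _root_.smul_apply, RCLike.real_smul_eq_coe_mul,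
        smul_eq_mul]
  have hbal : ∀ (l : 𝕜) w, ‖l‖ = 1 → w ∈ S → l • w ∈ S := by
    rintro l _ hl ⟨g, hg, hn, rfl⟩
    exact ⟨l • g, F.smul_mem _ hg, by rw [norm_smul, hl, one_mul]; exact hn, by
      funext i; simp⟩
  have hbal' : ∀ (l : 𝕜) w, ‖l‖ = 1 → w ∈ closure S → l • w ∈ closure S := by
    intro l w hl hw
    have hcont : Continuous (fun w : Fin n → 𝕜 => l • w) := continuous_const_smul l
    exact (Set.MapsTo.closure (fun w hw => hbal l w hl hw) hcont) hw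
  have hmem : v ∈ closure S := by
    by_contra hv
    obtain ⟨ψ, s, h1, h2⟩ := sep (closure S) isClosed_closure hconv.closure hbal' v hv
    classical
    let z : E := ∑ i : Fin n, ψ (Pi.single i 1) • x i
    have hψ : ∀ w : Fin n → 𝕜, ψ w = ∑ i, w i * ψ (Pi.single i 1) := by
      intro w
      conv_lhs => rw [show w = ∑ i, w i • (Pi.single i 1 : Fin n → 𝕜) from by
        funext j; rw [Finset.sum_apply]; simp [Pi.single_apply]]
      rw [map_sum]
      simp only [map_smul, smul_eq_mul]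
    have hψg : ∀ g : E →L[𝕜] 𝕜, ψ (fun i : Fin n => g (x i)) = g z := by
      intro g
      rw [hψ]
      simp only [z, map_sum, map_smul, smul_eq_mul]
      apply Finset.sum_congr rfl
      intro i _
      ring
    have h3 : ‖T F z‖ ≤ s / C := by
      have hs0 : 0 ≤ s := by
        have := h1 (fun i : Fin n => (0 : E →L[𝕜] 𝕜) (x i))
          (subset_closure ⟨0, F.zero_mem, by simpa using hC.le, rfl⟩)
        exact (norm_nonneg _).trans this
      apply T_le z _ (by positivity)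
      intro g hg hgn
      have h4 := h1 (fun i : Fin n => ((C : 𝕜) • g) (x i))
          (subset_closure ⟨_, F.smul_mem _ hg, by
            rw [norm_smul, RCLike.norm_ofReal, abs_of_pos hC]
            nlinarith, rfl⟩)
      rw [hψg, _root_.smul_apply, norm_smul, RCLike.norm_ofReal, abs_of_pos hC] at h4
      rw [le_div_iff₀ hC]
      linarith
    have h4 := hh z
    have h5 : ψ v = h z := hψg h
    rw [h5] at h2
    have h6 : C * ‖T F z‖ ≤ s := by
      calc C * ‖T F z‖ ≤ C * (s / C) := mul_le_mul_of_nonneg_left h3 hC.le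
        _ = s := by field_simp
    linarith
  obtain ⟨w, ⟨g, hg, hgn, rfl⟩, hdist⟩ := Metric.mem_closure_iff.mp hmem ε hε
  refine ⟨g, hg, hgn, ?_⟩
  intro i hi
  have h1 := dist_le_pi_dist v (fun i : Fin n => g (x i)) ⟨i, hi⟩
  have h2 := lt_of_le_of_lt h1 hdist
  rw [dist_comm, dist_eq_norm] at h2
  exact h2

/-- Bounded completeness of the dual system `(f_n)` in the space `F`, with associated functionals
the evaluations at the `x_n`: every bounded sequence in `F` that converges at each `x_n` has the same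
limits as some element of `F`. -/
def DualBoundedlyComplete (F : Submodule 𝕜 (E →L[𝕜] 𝕜)) (x : ℕ → E) : Prop :=
  ∀ g : ℕ → E →L[𝕜] 𝕜, (∀ j, g j ∈ F) → (∃ M : ℝ, ∀ j, ‖g j‖ ≤ M) →
    (∀ n, ∃ α : 𝕜, Tendsto (fun j => g j (x n)) atTop (𝓝 α)) →
    ∃ g0 ∈ F, ∀ n, Tendsto (fun j => g j (x n)) atTop (𝓝 (g0 (x n)))

lemma mem_of_dominated (x : ℕ → E)
    (hx : (Submodule.span 𝕜 (Set.range x)).topologicalClosure = ⊤)
    (hbc : DualBoundedlyComplete F x) (h : E →L[𝕜] 𝕜) (C : ℝ) (hC : 0 < C)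
    (hh : ∀ x, ‖h x‖ ≤ C * ‖T F x‖) : h ∈ F := by
  choose g hgF hgC hgx using fun n : ℕ => approx h C hC hh x n (1 / ((n:ℝ) + 1)) (by positivity)
  have hlim : ∀ n, Tendsto (fun j => g j (x n)) atTop (𝓝 (h (x n))) := by
    intro n
    rw [tendsto_iff_norm_sub_tendsto_zero]
    apply squeeze_zero' (Eventually.of_forall (fun _ => norm_nonneg _)) _
      tendsto_one_div_add_atTop_nhds_zero_nat
    filter_upwards [eventually_gt_atTop n] with j hj
    exact (hgx j n hj).le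
  obtain ⟨g0, hg0F, hg0⟩ := hbc g hgF ⟨C, hgC⟩ (fun n => ⟨_, hlim n⟩)
  have heq : ∀ n, g0 (x n) = h (x n) := fun n =>
    tendsto_nhds_unique (hg0 n) (hlim n)
  have : g0 = h := by
    ext z
    have hcl : IsClosed {z : E | g0 z = h z} := isClosed_eq g0.continuous h.continuous
    have hsub : (Submodule.span 𝕜 (Set.range x) : Set E) ⊆ {z : E | g0 z = h z} := by
      intro z hz
      induction hz using Submodule.span_induction with
      | mem z hz => obtain ⟨n, rfl⟩ := hz; exact heq n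
      | zero => simp
      | add a b _ _ h1 h2 =>
        simp only [Set.mem_ofPred_eq] at h1 h2 ⊢
        rw [map_add, map_add, h1, h2]
      | smul t a _ h1 =>
        simp only [Set.mem_ofPred_eq] at h1 ⊢
        rw [map_smul, map_smul, h1]
    have h1 := closure_minimal hsub hcl
    have h2 : z ∈ (Submodule.span 𝕜 (Set.range x)).topologicalClosure := by rw [hx]; trivial
    exact h1 h2
  rw [← this]; exact hg0F

lemma density (hdom : ∀ (h : E →L[𝕜] 𝕜) (C : ℝ), 0 < C → (∀ x, ‖h x‖ ≤ C * ‖T F x‖) → h ∈ F)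
    (x : E) (hx : ‖T F x‖ < 1) (ε : ℝ) (hε : 0 < ε) :
    ∃ y : E, ‖y‖ ≤ 1 ∧ ‖T F (x - y)‖ < ε := by
  let S : Set (lp (fun _ : BF F => 𝕜) ⊤) := T F '' Metric.closedBall 0 1
  have hmem : T F x ∈ closure S := by
    by_contra hv
    have hconv : Convex ℝ S := by
      rintro _ ⟨y1, hy1, rfl⟩ _ ⟨y2, hy2, rfl⟩ a b ha hb hab
      refine ⟨(a : 𝕜) • y1 + (b : 𝕜) • y2, ?_, ?_⟩
      · rw [mem_closedBall_zero_iff] at hy1 hy2 ⊢
        refine (norm_add_le _ _).trans ?_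
        rw [norm_smul, norm_smul, RCLike.norm_ofReal, RCLike.norm_ofReal, abs_of_nonneg ha,
          abs_of_nonneg hb]
        calc a * ‖y1‖ + b * ‖y2‖ ≤ a * 1 + b * 1 :=
              add_le_add (mul_le_mul_of_nonneg_left hy1 ha) (mul_le_mul_of_nonneg_left hy2 hb)
          _ = 1 := by rw [← add_mul, hab, one_mul]
      · rw [map_add, map_smul, map_smul]
        apply lp.ext
        funext g
        show (a : 𝕜) • (T F y1 g) + (b : 𝕜) • (T F y2 g) = a • (T F y1 g) + b • (T F y2 g)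
        simp only [RCLike.real_smul_eq_coe_mul, smul_eq_mul]
    have hbal : ∀ (l : 𝕜) w, ‖l‖ = 1 → w ∈ S → l • w ∈ S := by
      rintro l _ hl ⟨y, hy, rfl⟩
      refine ⟨l • y, ?_, by rw [map_smul]⟩
      rw [mem_closedBall_zero_iff] at hy ⊢
      rw [norm_smul, hl, one_mul]; exact hy
    have hbal' : ∀ (l : 𝕜) w, ‖l‖ = 1 → w ∈ closure S → l • w ∈ closure S := by
      intro l w hl hw
      have hcont : Continuous (fun w : lp (fun _ : BF F => 𝕜) ⊤ => l • w) :=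
        continuous_const_smul l
      exact (Set.MapsTo.closure (fun w hw => hbal l w hl hw) hcont) hw
    obtain ⟨ψ, s, h1, h2⟩ := sep (closure S) isClosed_closure hconv.closure hbal' _ hv
    have hs0 : 0 ≤ s := by
      have := h1 _ (subset_closure ⟨0, by simp, rfl⟩)
      exact (norm_nonneg _).trans this
    let φ : E →L[𝕜] 𝕜 := LinearMap.mkContinuous (ψ.toLinearMap.comp (T F)) ‖ψ‖ (fun z => by
      refine (ψ.le_opNorm _).trans ?_
      exact mul_le_mul_of_nonneg_left (T_norm_le z) (norm_nonneg _))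
    have hφ : ∀ z, φ z = ψ (T F z) := fun z => rfl
    have hφF : φ ∈ F := by
      apply hdom φ (‖ψ‖ + 1) (by positivity)
      intro z
      rw [hφ]
      refine (ψ.le_opNorm _).trans ?_
      apply mul_le_mul_of_nonneg_right _ (norm_nonneg _)
      linarith
    have hφn : ‖φ‖ ≤ s := by
      apply ContinuousLinearMap.opNorm_le_bound _ hs0
      intro z
      by_cases hz : ‖z‖ = 0
      · rw [norm_eq_zero.mp hz]; simp
      · have hpos : 0 < ‖z‖ := lt_of_le_of_ne (norm_nonneg _) (Ne.symm hz)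
        have h3 := h1 _ (subset_closure ⟨((‖z‖⁻¹ : ℝ) : 𝕜) • z, by
          rw [mem_closedBall_zero_iff, norm_smul, RCLike.norm_ofReal, abs_of_pos (by positivity),
            inv_mul_cancel₀ hz], rfl⟩)
        rw [← hφ, map_smul, norm_smul, RCLike.norm_ofReal, abs_of_pos (by positivity),
          inv_mul_le_iff₀ hpos] at h3
        linarith
    have h3 : ‖φ x‖ ≤ s * ‖T F x‖ :=
      (le_T x φ hφF).trans (mul_le_mul_of_nonneg_right hφn (norm_nonneg _))
    have h4 : s < ‖φ x‖ := h2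
    nlinarith
  obtain ⟨_, ⟨y, hy, rfl⟩, hdist⟩ := Metric.mem_closure_iff.mp hmem ε hε
  refine ⟨y, by simpa using hy, ?_⟩
  rwa [dist_eq_norm, ← map_sub] at hdist

lemma step (hdom : ∀ (h : E →L[𝕜] 𝕜) (C : ℝ), 0 < C → (∀ x, ‖h x‖ ≤ C * ‖T F x‖) → h ∈ F)
    (x : E) (r : ℝ) (hr : 0 < r) (hx : ‖T F x‖ ≤ r) :
    ∃ y : E, ‖y‖ ≤ 2 * r ∧ ‖T F (x - y)‖ ≤ r / 2 := by
  obtain ⟨y, hy1, hy2⟩ := density hdom ((((2 * r)⁻¹ : ℝ) : 𝕜) • x) (by
    rw [map_smul, norm_smul, RCLike.norm_ofReal, abs_of_pos (by positivity),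
      inv_mul_lt_iff₀ (by positivity)]
    linarith) (1/4) (by norm_num)
  refine ⟨((2 * r : ℝ) : 𝕜) • y, ?_, ?_⟩
  · rw [norm_smul, RCLike.norm_ofReal, abs_of_pos (by positivity)]
    nlinarith
  · have h1 : x - ((2 * r : ℝ) : 𝕜) • y = ((2 * r : ℝ) : 𝕜) • ((((2 * r)⁻¹ : ℝ) : 𝕜) • x - y) := by
      rw [smul_sub, smul_smul, ← RCLike.ofReal_mul, mul_inv_cancel₀ (by positivity)]
      simp
    rw [h1, map_smul, norm_smul, RCLike.norm_ofReal, abs_of_pos (by positivity)]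
    nlinarith

lemma norming [CompleteSpace E]
    (hdom : ∀ (h : E →L[𝕜] 𝕜) (C : ℝ), 0 < C → (∀ x, ‖h x‖ ≤ C * ‖T F x‖) → h ∈ F)
    (htot : ∀ x : E, (∀ g ∈ F, g x = 0) → x = 0) (x : E) : ‖x‖ ≤ 4 * ‖T F x‖ := by
  have hker : ∀ z : E, ‖T F z‖ = 0 → z = 0 := by
    intro z hz
    apply htot
    intro g hg
    have := le_T z g hg
    rw [hz, mul_zero] at this
    exact norm_eq_zero.mp (le_antisymm this (norm_nonneg _))
  by_cases h0 : ‖T F x‖ = 0
  · rw [hker x h0]; simp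
  have hpos : 0 < ‖T F x‖ := lt_of_le_of_ne (norm_nonneg _) (Ne.symm h0)
  set ρ := ‖T F x‖ with hρ
  have hstep : ∀ (k : ℕ) (z : E), ‖T F z‖ ≤ ρ * (1/2)^k →
      ∃ y : E, ‖y‖ ≤ 2 * (ρ * (1/2)^k) ∧ ‖T F (z - y)‖ ≤ ρ * (1/2)^(k+1) := by
    intro k z hz
    obtain ⟨y, h1, h2⟩ := step hdom z (ρ * (1/2)^k) (by positivity) hz
    refine ⟨y, h1, h2.trans (le_of_eq ?_)⟩
    rw [pow_succ]; ring
  choose! y hy1 hy2 using hstep
  let z : ℕ → E := fun k => Nat.rec x (fun k zk => zk - y k zk) k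
  have hz0 : z 0 = x := rfl
  have hzs : ∀ k, z (k+1) = z k - y k (z k) := fun k => rfl
  have hzb : ∀ k, ‖T F (z k)‖ ≤ ρ * (1/2)^k := by
    intro k
    induction k with
    | zero => rw [hz0]; simp [hρ]
    | succ k ih => rw [hzs]; exact hy2 k (z k) ih
  let w : ℕ → E := fun k => y k (z k)
  have hwb : ∀ k, ‖w k‖ ≤ 2 * ρ * (1/2)^k := by
    intro k
    have := hy1 k (z k) (hzb k)
    simp only [w]; linarith
  have hgeo : HasSum (fun k : ℕ => 2 * ρ * (1/2:ℝ)^k) (2 * ρ * 2) := by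
    have := hasSum_geometric_two.mul_left (2 * ρ)
    exact this
  have hws : Summable w := Summable.of_norm_bounded hgeo.summable hwb
  have hwn : ‖∑' k, w k‖ ≤ 4 * ρ := by
    refine (tsum_of_norm_bounded hgeo hwb).trans (le_of_eq ?_)
    ring
  have hpart : ∀ n, x - ∑ k ∈ Finset.range n, w k = z n := by
    intro n
    induction n with
    | zero => simp [hz0]
    | succ n ih => rw [Finset.sum_range_succ, hzs, ← ih]; simp only [w]; rw [← ih]; abel
  have hlim : Tendsto z atTop (𝓝 (x - ∑' k, w k)) := by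
    have := (hws.hasSum.tendsto_sum_nat).const_sub x
    exact this.congr hpart
  have hzero : ‖T F (x - ∑' k, w k)‖ = 0 := by
    have hc : ∀ n, ‖T F (x - ∑' k, w k)‖ ≤ ρ * (1/2)^n + ‖(x - ∑' k, w k) - z n‖ := by
      intro n
      have h1 : x - ∑' k, w k = z n + ((x - ∑' k, w k) - z n) := by abel
      calc ‖T F (x - ∑' k, w k)‖ = ‖T F (z n) + T F ((x - ∑' k, w k) - z n)‖ := by
            rw [← map_add, ← h1]
        _ ≤ ‖T F (z n)‖ + ‖T F ((x - ∑' k, w k) - z n)‖ := norm_add_le _ _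
        _ ≤ _ := add_le_add (hzb n) (T_norm_le _)
    have hl2 : Tendsto (fun n => ρ * (1/2:ℝ)^n + ‖(x - ∑' k, w k) - z n‖) atTop (𝓝 0) := by
      have h1 : Tendsto (fun n : ℕ => ρ * (1/2:ℝ)^n) atTop (𝓝 (ρ * 0)) :=
        (tendsto_pow_atTop_nhds_zero_of_lt_one (by norm_num) (by norm_num)).const_mul ρ
      have h2 : Tendsto (fun n => ‖(x - ∑' k, w k) - z n‖) atTop (𝓝 ‖(x - ∑' k, w k) - (x - ∑' k, w k)‖) :=
        (hlim.const_sub _).norm
      have h3 := h1.add h2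
      simpa using h3
    exact le_antisymm (ge_of_tendsto' hl2 hc) (norm_nonneg _)
  have hx : x = ∑' k, w k := sub_eq_zero.mp (hker _ hzero)
  rw [hx]
  exact hwn

/-- Main theorem: bounded completeness of the dual system implies that the system is shrinking. -/
theorem main [CompleteSpace E] (x : ℕ → E)
    (hx : (Submodule.span 𝕜 (Set.range x)).topologicalClosure = ⊤)
    (htot : ∀ x : E, (∀ g ∈ F, g x = 0) → x = 0)
    (hbc : DualBoundedlyComplete F x) : F = ⊤ := by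
  have hdom : ∀ (h : E →L[𝕜] 𝕜) (C : ℝ), 0 < C → (∀ x, ‖h x‖ ≤ C * ‖T F x‖) → h ∈ F :=
    fun h C hC hh => mem_of_dominated x hx hbc h C hC hh
  rw [eq_top_iff]
  intro h _
  apply hdom h (4 * ‖h‖ + 1) (by positivity)
  intro z
  have h1 := h.le_opNorm z
  have h2 := norming hdom htot z
  have h3 := mul_le_mul_of_nonneg_left h2 (norm_nonneg h)
  have h4 := norm_nonneg (T F z)
  linarith

end Pool.Agent.Q195.BC
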