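import Mathlib

set_option autoImplicit false

namespace Pool.Agent.Q195.BE

open Filter Topology

variable {𝕜 : Type*} [RCLike 𝕜] {E : Type*} [NormedAddCommGroup E] [NormedSpace 𝕜 E]

/-- A bounded sequence of functionals converging pointwise on a dense sequence to zero is
weak-star null. -/
lemma tendsto_of_dense (f : ℕ → E →L[𝕜] 𝕜) (D : ℝ) (hf : ∀ n, ‖f n‖ ≤ D) (s : Set E)
    (hs : Dense s) (h : ∀ z ∈ s, Tendsto (fun n => f n z) atTop (𝓝 0)) (z : E) :
    Tendsto (fun n => f n z) atTop (𝓝 0) := by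
  have hD : 0 ≤ D := (norm_nonneg _).trans (hf 0)
  rw [Metric.tendsto_atTop]
  intro ε hε
  obtain ⟨w, hw, hdist⟩ := hs.exists_dist_lt z (show 0 < ε / (2 * (D + 1)) by positivity)
  obtain ⟨N, hN⟩ := Metric.tendsto_atTop.mp (h w hw) (ε/2) (by linarith)
  refine ⟨N, fun n hn => ?_⟩
  have h1 := hN n hn
  rw [dist_zero_right] at h1 ⊢
  have h2 : f n z = f n w + f n (z - w) := by rw [map_sub]; ring
  rw [h2]
  have h3 : ‖f n (z - w)‖ ≤ D * (ε / (2 * (D + 1))) := by
    refine ((f n).le_opNorm _).trans ?_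
    rw [dist_eq_norm] at hdist
    exact mul_le_mul (hf n) hdist.le (norm_nonneg _) hD
  have h4 : D * (ε / (2 * (D + 1))) ≤ ε / 2 := by
    rw [mul_div_assoc', div_le_div_iff₀ (by positivity) (by norm_num)]
    nlinarith
  have h5 := norm_add_le (f n w) (f n (z - w))
  linarith

/-- Sobczyk-Veech correction: bounded functionals that are null on a subspace can be corrected by
bounded functionals vanishing on the subspace so as to become weak-star null. -/
theorem exists_null [TopologicalSpace.SeparableSpace E] (X : Submodule 𝕜 E)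
    (g : ℕ → E →L[𝕜] 𝕜) (D : ℝ)
    (hg : ∀ n, ‖g n‖ ≤ D) (hX : ∀ x ∈ X, Tendsto (fun n => g n x) atTop (𝓝 0)) :
    ∃ f : ℕ → E →L[𝕜] 𝕜, (∀ n, ‖f n‖ ≤ 2 * D) ∧ (∀ n, ∀ x ∈ X, f n x = g n x) ∧
      ∀ z, Tendsto (fun n => f n z) atTop (𝓝 0) := by
  classical
  have hD : 0 ≤ D := (norm_nonneg _).trans (hg 0)
  obtain ⟨z, hz⟩ := TopologicalSpace.exists_dense_seq E
  let P : ℕ → ℕ → Prop := fun m n => ∃ k : E →L[𝕜] 𝕜, ‖k‖ ≤ D ∧ (∀ x ∈ X, k x = 0) ∧
    ∀ i < m, ‖g n (z i) - k (z i)‖ < 1 / ((m:ℝ) + 1)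
  have hP0 : ∀ n, P 0 n := fun n => ⟨0, by simpa using hD, by simp, by simp⟩
  have hP : ∀ m, ∀ᶠ n in atTop, P m n := by
    intro m
    by_contra hcon
    rw [not_eventually] at hcon
    obtain ⟨φ, hφ, hφP⟩ := extraction_of_frequently_atTop hcon
    have hmem : ∀ n, StrongDual.toWeakDual (g (φ n)) ∈
        (WeakDual.toStrongDual ⁻¹' Metric.closedBall (0 : StrongDual 𝕜 E) D) := by
      intro n
      simp only [Set.mem_preimage, mem_closedBall_zero_iff]
      exact hg _
    obtain ⟨k, hk, ψ, hψ, hlim⟩ := (WeakDual.isSeqCompact_closedBall 𝕜 E 0 D) hmem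
    have hlim' : ∀ y : E, Tendsto (fun n => g (φ (ψ n)) y) atTop (𝓝 (k y)) := by
      intro y
      exact ((WeakDual.eval_continuous y).tendsto k).comp hlim
    let k' : E →L[𝕜] 𝕜 := WeakDual.toStrongDual k
    have hk' : ∀ y, k' y = k y := fun y => rfl
    have hev : ∀ᶠ n in atTop, ∀ i < m, ‖g (φ (ψ n)) (z i) - k' (z i)‖ < 1 / ((m:ℝ) + 1) := by
      refine (eventually_all_finite (Set.finite_lt_nat m)).mpr ?_
      intro i _
      have h1 := (hlim' (z i))
      rw [Metric.tendsto_atTop] at h1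
      obtain ⟨N, hN⟩ := h1 (1 / ((m:ℝ) + 1)) (by positivity)
      filter_upwards [eventually_ge_atTop N] with n hn
      have := hN n hn
      rwa [dist_eq_norm] at this
    obtain ⟨n, hn⟩ := hev.exists
    apply hφP (ψ n)
    refine ⟨k', ?_, ?_, hn⟩
    · have := hk
      simp only [Set.mem_preimage, mem_closedBall_zero_iff] at this
      exact this
    · intro x hx
      have h1 := (hX x hx).comp (hφ.tendsto_atTop.comp hψ.tendsto_atTop)
      exact tendsto_nhds_unique (hlim' x) h1
  let m : ℕ → ℕ := fun n => Nat.findGreatest (fun m => P m n) n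
  have hm : ∀ n, P (m n) n := fun n => Nat.findGreatest_spec (P := fun m => P m n) (Nat.zero_le n) (hP0 n)
  have hmlim : Tendsto m atTop atTop := by
    rw [tendsto_atTop]
    intro M
    filter_upwards [hP M, eventually_ge_atTop M] with n h1 h2
    exact Nat.le_findGreatest h2 h1
  choose k hk1 hk2 hk3 using hm
  refine ⟨fun n => g n - k n, ?_, ?_, ?_⟩
  · intro n
    have := norm_sub_le (g n) (k n)
    have := hg n
    have := hk1 n
    linarith
  · intro n x hx
    simp [hk2 n x hx]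
  · apply tendsto_of_dense _ (2 * D) _ (Set.range z) hz
    · rintro _ ⟨i, rfl⟩
      have h1 : Tendsto (fun n => 1 / ((m n : ℝ) + 1)) atTop (𝓝 0) :=
        tendsto_one_div_add_atTop_nhds_zero_nat.comp hmlim
      apply squeeze_zero_norm' _ h1
      filter_upwards [hmlim.eventually (eventually_gt_atTop i)] with n hn
      exact (hk3 n i hn).le
    · intro n
      have := norm_sub_le (g n) (k n)
      have := hg n
      have := hk1 n
      linarith

end Pool.Agent.Q195.BE
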