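import Mathlib

set_option autoImplicit false

namespace Pool.Agent.Q195.BE

open Filter Topology

/-- strong recursion on existence statements -/
theorem exists_seq_strong {α : Type*} [Nonempty α] (P : ℕ → (ℕ → α) → α → Prop)
    (hloc : ∀ k s s' a, (∀ i < k, s i = s' i) → P k s a → P k s' a)
    (hex : ∀ k s, (∀ i < k, P i s (s i)) → ∃ a, P k s a) :
    ∃ s : ℕ → α, ∀ k, P k s (s k) := by
  classical
  let S : ℕ → (ℕ → α) := fun k => Nat.rec (fun _ => Classical.arbitrary α)
    (fun k Sk => Function.update Sk k (if h : ∃ a, P k Sk a then h.choose else Classical.arbitrary α)) k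
  have hS : ∀ k, S (k+1) = Function.update (S k) k
      (if h : ∃ a, P k (S k) a then h.choose else Classical.arbitrary α) := fun k => rfl
  let s : ℕ → α := fun k => S (k+1) k
  have hagree : ∀ k m, k < m → S m k = s k := by
    intro k m hkm
    induction m with
    | zero => omega
    | succ m ih =>
      by_cases h : k = m
      · subst h; rfl
      · rw [hS, Function.update_of_ne h]
        exact ih (by omega)
  refine ⟨s, ?_⟩
  intro k
  induction k using Nat.strong_induction_on with
  | _ k ih =>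
    have h1 : ∀ i < k, P i (S k) (S k i) := by
      intro i hi
      rw [hagree i k hi]
      exact hloc i s (S k) (s i) (fun j hj => (hagree j k (hj.trans hi)).symm) (ih i hi)
    have h2 := hex k (S k) h1
    have h3 : P k (S k) (s k) := by
      have : s k = h2.choose := by
        simp only [s]
        rw [hS, Function.update_self, dif_pos h2]
      rw [this]
      exact h2.choose_spec
    exact hloc k (S k) s (s k) (fun j hj => hagree j k hj) h3

variable {𝕜 : Type*} [RCLike 𝕜] {E : Type*} [NormedAddCommGroup E] [NormedSpace 𝕜 E]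

/-- Hahn-Banach for a closed subspace and a point outside it. -/
lemma exists_sep (Y : Submodule 𝕜 E) (hY : IsClosed (Y : Set E)) (z : E) (hz : z ∉ Y) :
    ∃ h : E →L[𝕜] 𝕜, (∀ y ∈ Y, h y = 0) ∧ h z = 1 := by
  have : IsClosed (Y : Set E) := hY
  have hz' : (Submodule.Quotient.mk z : E ⧸ Y) ≠ 0 := by
    rwa [Ne, Submodule.Quotient.mk_eq_zero]
  have hn : ‖(Submodule.Quotient.mk z : E ⧸ Y)‖ ≠ 0 := by
    rwa [Ne, norm_eq_zero]
  obtain ⟨g, hg1, hg2⟩ := exists_dual_vector 𝕜 (Submodule.Quotient.mk z : E ⧸ Y) hn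
  let q : E →L[𝕜] E ⧸ Y := Y.mkQL
  refine ⟨((‖(Submodule.Quotient.mk z : E ⧸ Y)‖ : 𝕜)⁻¹) • g.comp q, ?_, ?_⟩
  · intro y hy
    have : q y = 0 := by
      show (Submodule.Quotient.mk y : E ⧸ Y) = 0
      rwa [Submodule.Quotient.mk_eq_zero]
    simp [this]
  · have : q z = Submodule.Quotient.mk z := rfl
    simp only [_root_.smul_apply, ContinuousLinearMap.comp_apply, this, hg2,
      smul_eq_mul]
    apply inv_mul_cancel₀
    exact_mod_cast hn

/-- Riesz-type lemma: unit functional annihilating a proper closed subspace with a bounded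
dual vector. -/
lemma exists_riesz (Y : Submodule 𝕜 E) (hY : IsClosed (Y : Set E)) (hne : Y ≠ ⊤) :
    ∃ (a : E) (h : E →L[𝕜] 𝕜), ‖a‖ ≤ 2 ∧ ‖h‖ ≤ 1 ∧ (∀ y ∈ Y, h y = 0) ∧ h a = 1 := by
  have : IsClosed (Y : Set E) := hY
  obtain ⟨z, hz⟩ : ∃ z, z ∉ Y := by
    by_contra hcon
    push Not at hcon
    exact hne (eq_top_iff.mpr (fun z _ => hcon z))
  have hz' : (Submodule.Quotient.mk z : E ⧸ Y) ≠ 0 := by
    rwa [Ne, Submodule.Quotient.mk_eq_zero]
  have hn : ‖(Submodule.Quotient.mk z : E ⧸ Y)‖ ≠ 0 := by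
    rwa [Ne, norm_eq_zero]
  set ρ := ‖(Submodule.Quotient.mk z : E ⧸ Y)‖ with hρ
  have hρ0 : 0 < ρ := lt_of_le_of_ne (norm_nonneg _) (Ne.symm hn)
  obtain ⟨w, hw1, hw2⟩ := Submodule.Quotient.norm_mk_lt (Submodule.Quotient.mk z : E ⧸ Y) hρ0
  obtain ⟨g, hg1, hg2⟩ := exists_dual_vector 𝕜 (Submodule.Quotient.mk z : E ⧸ Y) hn
  let q : E →L[𝕜] E ⧸ Y := Y.mkQL
  have hqn : ∀ x : E, ‖q x‖ ≤ ‖x‖ := fun x => Submodule.Quotient.norm_mk_le Y x
  refine ⟨((ρ : 𝕜)⁻¹) • w, g.comp q, ?_, ?_, ?_, ?_⟩
  · rw [norm_smul, norm_inv, RCLike.norm_ofReal, abs_of_pos hρ0, inv_mul_le_iff₀ hρ0]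
    rw [← hρ] at hw2
    linarith
  · apply ContinuousLinearMap.opNorm_le_bound _ zero_le_one
    intro x
    rw [one_mul, ContinuousLinearMap.comp_apply]
    refine (g.le_opNorm _).trans ?_
    rw [hg1, one_mul]
    exact hqn x
  · intro y hy
    have : q y = 0 := by
      show (Submodule.Quotient.mk y : E ⧸ Y) = 0
      rwa [Submodule.Quotient.mk_eq_zero]
    simp [this]
  · have h1 : q w = Submodule.Quotient.mk z := hw1
    rw [ContinuousLinearMap.comp_apply, map_smul, map_smul, h1, hg2, smul_eq_mul]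
    apply inv_mul_cancel₀
    exact_mod_cast hn

/-- Complete minimal systems modulo a subspace. -/
theorem complete_minimal [TopologicalSpace.SeparableSpace E] (X : Submodule 𝕜 E) :
    ∃ (z : ℕ → E) (h : ℕ → E →L[𝕜] 𝕜), (∀ k, ∀ x ∈ X, h k x = 0) ∧
      (∀ k, (z k = 0 ∧ h k = 0) ∨ h k (z k) = 1) ∧ (∀ i j, i ≠ j → h i (z j) = 0) ∧
      (X ⊔ Submodule.span 𝕜 (Set.range z)).topologicalClosure = ⊤ := by
  classical
  obtain ⟨d, hd⟩ := TopologicalSpace.exists_dense_seq E
  let P : ℕ → (ℕ → E × (E →L[𝕜] 𝕜)) → E × (E →L[𝕜] 𝕜) → Prop := fun k s a =>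
    (∀ x ∈ X, a.2 x = 0) ∧ (∀ i < k, a.2 (s i).1 = 0) ∧ (∀ i < k, (s i).2 a.1 = 0) ∧
      ((a.1 = 0 ∧ a.2 = 0) ∨ a.2 a.1 = 1) ∧
      d k ∈ (X ⊔ Submodule.span 𝕜 ((fun i => (s i).1) '' Set.Iio k) ⊔
        Submodule.span 𝕜 {a.1}).topologicalClosure
  have hloc : ∀ k s s' a, (∀ i < k, s i = s' i) → P k s a → P k s' a := by
    intro k s s' a hss h
    refine ⟨h.1, fun i hi => by rw [← hss i hi]; exact h.2.1 i hi,
      fun i hi => by rw [← hss i hi]; exact h.2.2.1 i hi, h.2.2.2.1, ?_⟩
    have : (fun i => (s i).1) '' Set.Iio k = (fun i => (s' i).1) '' Set.Iio k := by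
      apply Set.image_congr
      intro i hi
      rw [hss i hi]
    rw [← this]
    exact h.2.2.2.2
  have hex : ∀ k s, (∀ i < k, P i s (s i)) → ∃ a, P k s a := by
    intro k s hs
    let z : E := d k - ∑ i ∈ Finset.range k, (s i).2 (d k) • (s i).1
    let Y : Submodule 𝕜 E :=
      (X ⊔ Submodule.span 𝕜 ((fun i => (s i).1) '' Set.Iio k)).topologicalClosure
    have hsumY : ∑ i ∈ Finset.range k, (s i).2 (d k) • (s i).1 ∈ Y := by
      apply Submodule.sum_mem
      intro i hi
      apply Submodule.smul_mem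
      apply Submodule.le_topologicalClosure
      exact Submodule.mem_sup_right (Submodule.subset_span ⟨i, by simpa using hi, rfl⟩)
    have hzi : ∀ i < k, (s i).2 z = 0 := by
      intro i hi
      simp only [z]
      rw [map_sub, map_sum, Finset.sum_eq_single i]
      · rw [map_smul, smul_eq_mul]
        rcases (hs i hi).2.2.2.1 with h | h
        · rw [h.2]; simp
        · rw [h]; simp
      · intro j hj hji
        have hj' : j < k := by simpa using hj
        rw [map_smul]
        rcases lt_or_gt_of_ne hji with h | h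
        · rw [(hs i hi).2.1 j h, smul_zero]
        · rw [(hs j hj').2.2.1 i h, smul_zero]
      · intro h; exact absurd (Finset.mem_range.mpr hi) h
    by_cases hzY : z ∈ Y
    · refine ⟨(0, 0), by simp, by simp, by simp, Or.inl ⟨rfl, rfl⟩, ?_⟩
      have h1 : d k ∈ Y := by
        have : d k = z + ∑ i ∈ Finset.range k, (s i).2 (d k) • (s i).1 := by simp [z]
        rw [this]
        exact Submodule.add_mem _ hzY hsumY
      exact Submodule.topologicalClosure_mono le_sup_left h1
    · obtain ⟨h, hh1, hh2⟩ := exists_sep Y (Submodule.isClosed_topologicalClosure _) z hzY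
      refine ⟨(z, h), ?_, ?_, hzi, Or.inr hh2, ?_⟩
      · intro x hx
        exact hh1 x (Submodule.le_topologicalClosure _ (Submodule.mem_sup_left hx))
      · intro i hi
        exact hh1 _ (Submodule.le_topologicalClosure _
          (Submodule.mem_sup_right (Submodule.subset_span ⟨i, hi, rfl⟩)))
      · have : d k = z + ∑ i ∈ Finset.range k, (s i).2 (d k) • (s i).1 := by simp [z]
        rw [this]
        apply Submodule.add_mem
        · exact Submodule.le_topologicalClosure _
            (Submodule.mem_sup_right (Submodule.mem_span_singleton_self z))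
        · exact Submodule.topologicalClosure_mono le_sup_left hsumY
  obtain ⟨s, hs⟩ := exists_seq_strong P hloc hex
  refine ⟨fun k => (s k).1, fun k => (s k).2, fun k => (hs k).1, fun k => (hs k).2.2.2.1, ?_, ?_⟩
  · intro i j hij
    rcases lt_or_gt_of_ne hij with h | h
    · exact (hs j).2.2.1 i h
    · exact (hs i).2.1 j h
  · rw [eq_top_iff]
    intro y _
    have h1 : Set.range d ⊆
        ((X ⊔ Submodule.span 𝕜 (Set.range (fun k => (s k).1))).topologicalClosure : Set E) := by
      rintro _ ⟨k, rfl⟩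
      refine Submodule.topologicalClosure_mono ?_ (hs k).2.2.2.2
      refine sup_le (sup_le le_sup_left ?_) ?_
      · refine le_sup_of_le_right (Submodule.span_mono ?_)
        rintro _ ⟨i, _, rfl⟩; exact ⟨i, rfl⟩
      · refine le_sup_of_le_right (Submodule.span_mono ?_)
        rintro _ rfl; exact ⟨k, rfl⟩
    have h2 := closure_mono h1
    rw [hd.closure_range] at h2
    have h3 := h2 (Set.mem_univ y)
    rwa [IsClosed.closure_eq (Submodule.isClosed_topologicalClosure _)] at h3

end Pool.Agent.Q195.BE
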