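import Pool.Agent.Q195.BE1
import Pool.Agent.Q195.BE2

set_option autoImplicit false

namespace Pool.Agent.Q195.BE

open Filter Topology

variable {𝕜 : Type*} [RCLike 𝕜] {E : Type*} [NormedAddCommGroup E] [NormedSpace 𝕜 E]

lemma null_on_span (x : ℕ → E) (f : ℕ → E →L[𝕜] 𝕜)
    (hbi : ∀ i j, f i (x j) = if i = j then 1 else 0) (v : E)
    (hv : v ∈ Submodule.span 𝕜 (Set.range x)) : Tendsto (fun n => f n v) atTop (𝓝 0) := by
  induction hv using Submodule.span_induction with
  | mem v hv =>
    obtain ⟨j, rfl⟩ := hv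
    apply tendsto_const_nhds.congr'
    filter_upwards [eventually_gt_atTop j] with n hn
    rw [hbi, if_neg (by omega)]
  | zero => simp
  | add v w _ _ h1 h2 => simpa using h1.add h2
  | smul t v _ h1 => simpa using h1.const_mul t

/-- Core extension theorem. -/
theorem core [TopologicalSpace.SeparableSpace E] (x : ℕ → E) (f : ℕ → E →L[𝕜] 𝕜) (D : ℝ)
    (hbi : ∀ i j, f i (x j) = if i = j then 1 else 0) (hf : ∀ n, ‖f n‖ ≤ D) :
    ∃ (f' : ℕ → E →L[𝕜] 𝕜) (y : ℕ → E) (h : ℕ → E →L[𝕜] 𝕜), (∀ n, ‖f' n‖ ≤ 2 * D + 2) ∧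
      (∀ n, ∀ v ∈ Submodule.span 𝕜 (Set.range x), f' n v = f n v) ∧
      (∀ n k, f' n (y k) = 0) ∧
      (∀ k, ∀ v ∈ Submodule.span 𝕜 (Set.range x), h k v = 0) ∧
      (∀ k, (y k = 0 ∧ h k = 0) ∨ h k (y k) = 1) ∧ (∀ i j, i ≠ j → h i (y j) = 0) ∧
      (Submodule.span 𝕜 (Set.range x) ⊔ Submodule.span 𝕜 (Set.range y)).topologicalClosure = ⊤ := by
  classical
  set X := Submodule.span 𝕜 (Set.range x) with hX
  obtain ⟨f0, hf0n, hf0X, hf0l⟩ := exists_null X f D hf (fun v hv => null_on_span x f hbi v hv)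
  obtain ⟨z, h, hhX, hz, hdiag, hdense⟩ := complete_minimal X
  have hf0bi : ∀ i j, f0 i (x j) = if i = j then 1 else 0 := by
    intro i j
    rw [hf0X i _ (Submodule.subset_span ⟨j, rfl⟩), hbi]
  have hw : ∀ k, ∃ w ∈ X, (z k = 0 → w = 0) ∧ ∀ n, ‖f0 n (z k - w)‖ * ‖h k‖ ≤ (1/2:ℝ)^k := by
    intro k
    by_cases hzk : z k = 0
    · refine ⟨0, Submodule.zero_mem _, fun _ => rfl, ?_⟩
      intro n
      rw [hzk]; simp
    · have h1 : Tendsto (fun n => ‖f0 n (z k)‖ * ‖h k‖) atTop (𝓝 0) := by
        have := ((hf0l (z k)).norm).mul_const ‖h k‖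
        simpa using this
      obtain ⟨N, hN⟩ := (h1.eventually (gt_mem_nhds (show (0:ℝ) < (1/2)^k by positivity))).exists_forall_of_atTop
      refine ⟨∑ n ∈ Finset.range N, f0 n (z k) • x n, ?_, fun h => absurd h hzk, ?_⟩
      · exact Submodule.sum_mem _ (fun n _ => Submodule.smul_mem _ _ (Submodule.subset_span ⟨n, rfl⟩))
      · intro n
        rw [map_sub, map_sum]
        simp only [map_smul, hf0bi, smul_eq_mul, mul_ite, mul_one, mul_zero]
        rw [Finset.sum_ite_eq]
        by_cases hn : n < N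
        · rw [if_pos (by simpa using hn)]; simp
        · rw [if_neg (by simpa using hn), sub_zero]
          exact (hN n (by omega)).le
  choose w hwX hw0 hwn using hw
  let y : ℕ → E := fun k => z k - w k
  have hhy : ∀ i j, h i (y j) = h i (z j) := by
    intro i j
    simp only [y, map_sub, hhX i _ (hwX j), sub_zero]
  have hynorm : ∀ n k, ‖f0 n (y k) • h k‖ ≤ (1/2:ℝ)^k := by
    intro n k
    rw [norm_smul]
    exact hwn k n
  have hgeo : Summable (fun k : ℕ => (1/2:ℝ)^k) := summable_geometric_two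
  have hsum : ∀ n, Summable (fun k => f0 n (y k) • h k) := fun n =>
    Summable.of_norm_bounded hgeo (hynorm n)
  let S : ℕ → E →L[𝕜] 𝕜 := fun n => ∑' k, f0 n (y k) • h k
  have hS : ∀ n v, HasSum (fun k => f0 n (y k) * h k v) (S n v) := by
    intro n v
    have h1 := (hsum n).hasSum
    have h2 := (ContinuousLinearMap.apply 𝕜 𝕜 v).hasSum h1
    exact h2
  have hSn : ∀ n, ‖S n‖ ≤ 2 := by
    intro n
    refine (tsum_of_norm_bounded hgeo.hasSum (hynorm n)).trans ?_
    rw [tsum_geometric_two]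
  refine ⟨fun n => f0 n - S n, y, h, ?_, ?_, ?_, hhX, ?_, ?_, ?_⟩
  · intro n
    have := norm_sub_le (f0 n) (S n)
    have := hf0n n
    have := hSn n
    linarith
  · intro n v hv
    have h1 : S n v = 0 := by
      have h2 := hS n v
      have h3 : (fun k => f0 n (y k) * h k v) = fun _ => 0 := by
        funext k; rw [hhX k v hv, mul_zero]
      rw [h3] at h2
      exact h2.unique hasSum_zero
    rw [sub_apply, h1, sub_zero, hf0X n v hv]
  · intro n i
    have h1 : S n (y i) = f0 n (y i) := by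
      refine (hS n (y i)).unique ?_
      have h2 : HasSum (fun k => f0 n (y k) * h k (y i)) (f0 n (y i) * h i (y i)) := by
        apply hasSum_single i
        intro k hk
        rw [hhy, hdiag k i hk, mul_zero]
      rcases hz i with h3 | h3
      · have h4 : y i = 0 := by simp only [y]; rw [h3.1, hw0 i h3.1, sub_zero]
        rw [h4] at h2 ⊢
        simp
      · rw [hhy i i, h3, mul_one] at h2
        exact h2
    rw [sub_apply, h1, sub_self]
  · intro k
    rcases hz k with h3 | h3
    · left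
      refine ⟨?_, h3.2⟩
      simp only [y]; rw [h3.1, hw0 k h3.1, sub_zero]
    · right
      rw [hhy]; exact h3
  · intro i j hij
    rw [hhy]; exact hdiag i j hij
  · rw [eq_top_iff, ← hdense]
    apply Submodule.topologicalClosure_mono
    apply sup_le le_sup_left
    rw [Submodule.span_le]
    rintro _ ⟨k, rfl⟩
    have : z k = w k + y k := by simp [y]
    rw [this]
    apply Submodule.add_mem
    · exact Submodule.mem_sup_left (hwX k)
    · exact Submodule.mem_sup_right (Submodule.subset_span ⟨k, rfl⟩)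

end Pool.Agent.Q195.BE
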