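import Pool.Agent.Q195.BE3

set_option autoImplicit false

namespace Pool.Agent.Q195.BE

open Filter Topology

/-- Orthogonal matrices with one small column and rows of bounded `l_1`-norm. -/
theorem op (m : ℕ) : ∃ (I : Type) (_ : Fintype I) (_ : DecidableEq I) (o : I)
    (T : Matrix I I ℝ), T * T.transpose = 1 ∧ (∀ j, |T j o| ≤ (1/√2:ℝ)^m) ∧
      (∀ j, ∑ i ∈ Finset.univ.erase o, |T j i| ≤ 3 * (1 - (1/√2:ℝ)^m)) := by
  induction m with
  | zero =>
    refine ⟨Unit, inferInstance, inferInstance, (), 1, by simp, ?_, ?_⟩
    · intro j; simp
    · intro j
      have : (Finset.univ : Finset Unit).erase () = ∅ := by decide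
      rw [this]; simp
  | succ m ih =>
    obtain ⟨I, hI, hd, o, T, hT, h1, h2⟩ := ih
    set c : ℝ := 1/√2 with hc
    have hc0 : 0 < c := by positivity
    have hc2 : c * c = 1/2 := by
      rw [hc, div_mul_div_comm, Real.mul_self_sqrt (by norm_num)]; norm_num
    have hc34 : c ≤ 3/4 := by nlinarith
    let s : Bool → Bool → ℝ := fun b b' => if b = true ∧ b' = true then -1 else 1
    let T' : Matrix (Bool × I) (Bool × I) ℝ := fun p q =>
      if q.2 = o then T p.2 o * c * s p.1 q.1 else (if p.1 = q.1 then T p.2 q.2 else 0)
    refine ⟨Bool × I, inferInstance, inferInstance, (false, o), T', ?_, ?_, ?_⟩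
    · ext ⟨b, j⟩ ⟨b', k⟩
      have hrow : ∑ i, T j i * T k i = if j = k then 1 else 0 := by
        have := congrFun (congrFun hT j) k
        rw [Matrix.mul_apply, Matrix.one_apply] at this
        simpa [Matrix.transpose_apply] using this
      have hsum : ∑ i, T j i * T k i = T j o * T k o + ∑ i ∈ Finset.univ.erase o, T j i * T k i :=
        (Finset.add_sum_erase _ _ (Finset.mem_univ o)).symm
      rw [Matrix.mul_apply, Matrix.one_apply, Fintype.sum_prod_type]
      have hsplit : ∀ x : Bool, ∑ i, T' (b, j) (x, i) * T'.transpose (x, i) (b', k) =
          T' (b,j) (x,o) * T' (b',k) (x,o) +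
            ∑ i ∈ Finset.univ.erase o, T' (b, j) (x, i) * T' (b', k) (x, i) := by
        intro x
        exact (Finset.add_sum_erase _ _ (Finset.mem_univ o)).symm
      simp only [hsplit]
      have hrest : ∀ x : Bool, ∑ i ∈ Finset.univ.erase o, T' (b, j) (x, i) * T' (b', k) (x, i) =
          if b = x ∧ b' = x then ∑ i ∈ Finset.univ.erase o, T j i * T k i else 0 := by
        intro x
        split_ifs with h
        · apply Finset.sum_congr rfl
          intro i hi
          have hio : i ≠ o := Finset.ne_of_mem_erase hi
          simp only [T', hio, if_false, h.1, h.2, if_true]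
        · apply Finset.sum_eq_zero
          intro i hi
          have hio : i ≠ o := Finset.ne_of_mem_erase hi
          simp only [T', hio, if_false]
          by_cases hb : b = x
          · have hb' : b' ≠ x := fun h' => h ⟨hb, h'⟩
            rw [if_neg hb', mul_zero]
          · rw [if_neg hb, zero_mul]
      simp only [hrest, Fintype.sum_bool]
      simp only [T', if_true, s]
      cases b <;> cases b'
      · simp only [Bool.false_eq_true, false_and, and_self, if_false, if_true, and_true, mul_one,
          Prod.mk.injEq, true_and]
        rw [← hrow, hsum]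
        linear_combination (2 * T j o * T k o) * hc2
      · simp
      · simp
      · simp only [Bool.false_eq_true, and_false, and_self, if_false, if_true, mul_one,
          Prod.mk.injEq, true_and, Bool.true_eq_false]
        rw [← hrow, hsum]
        linear_combination (2 * T j o * T k o) * hc2
    · rintro ⟨b, j⟩
      have hs1 : |s b false| = 1 := by simp [s]
      simp only [T', if_true]
      rw [abs_mul, abs_mul, hs1, mul_one, abs_of_pos hc0, pow_succ]
      exact mul_le_mul_of_nonneg_right (h1 j) hc0.le
    · rintro ⟨b, j⟩
      have htot : ∑ i ∈ Finset.univ.erase ((false, o) : Bool × I), |T' (b, j) i| ≤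
          |T' (b,j) (true, o)| + ∑ i ∈ Finset.univ.erase o, |T j i| := by
        have h3 : ∑ i ∈ Finset.univ.erase ((false, o) : Bool × I), |T' (b, j) i|
            = ∑ i, |T' (b, j) i| - |T' (b,j) (false, o)| := by
          rw [← Finset.add_sum_erase Finset.univ (fun i => |T' (b, j) i|)
            (Finset.mem_univ ((false, o) : Bool × I))]
          ring
        rw [h3, Fintype.sum_prod_type]
        have h4 : ∀ x : Bool, ∑ i, |T' (b, j) (x, i)| = |T' (b,j) (x,o)| +
            (if b = x then ∑ i ∈ Finset.univ.erase o, |T j i| else 0) := by
          intro x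
          rw [← Finset.add_sum_erase Finset.univ (fun i => |T' (b, j) (x, i)|) (Finset.mem_univ o)]
          congr 1
          split_ifs with h
          · apply Finset.sum_congr rfl
            intro i hi
            have hio : i ≠ o := Finset.ne_of_mem_erase hi
            simp only [T', hio, if_false, h, if_true]
          · apply Finset.sum_eq_zero
            intro i hi
            have hio : i ≠ o := Finset.ne_of_mem_erase hi
            simp only [T', hio, if_false, h, abs_zero]
        simp only [h4, Fintype.sum_bool]
        cases b <;> simp <;> linarith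
      have hs1 : |s b true| = 1 := by cases b <;> simp [s]
      have h5 : |T' (b,j) (true, o)| ≤ c^m * c := by
        simp only [T', if_true]
        rw [abs_mul, abs_mul, hs1, mul_one, abs_of_pos hc0]
        exact mul_le_mul_of_nonneg_right (h1 j) hc0.le
      have h6 := h2 j
      have h7 : (0:ℝ) < c^m := by positivity
      rw [pow_succ]
      nlinarith

end Pool.Agent.Q195.BE
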