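import Pool.Agent.Q195.BE4

set_option autoImplicit false

namespace Pool.Agent.Q195.BE

open Filter Topology

variable {𝕜 : Type*} [RCLike 𝕜] {E : Type*} [NormedAddCommGroup E] [NormedSpace 𝕜 E]

/-- Ovsepian-Pelczynski mixing: countably many vectors with no norm control are mixed with
infinitely many bounded ones so that everything becomes bounded. -/
theorem mix {K : Type} [Countable K] (v : K ⊕ ℕ → E) (g : K ⊕ ℕ → E →L[𝕜] 𝕜)
    (hbi1 : ∀ a, g a (v a) = 1) (hbi0 : ∀ a b, a ≠ b → g a (v b) = 0) (C : ℝ)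
    (hC : ∀ n, ‖v (Sum.inr n)‖ ≤ C ∧ ‖g (Sum.inr n)‖ ≤ C) :
    ∃ (ι : Type) (_ : Countable ι) (v' : ι → E) (g' : ι → E →L[𝕜] 𝕜),
      (∀ a b, (a = b → g' a (v' b) = 1) ∧ (a ≠ b → g' a (v' b) = 0)) ∧
      (∀ a, ‖v' a‖ ≤ 1 + 3 * C ∧ ‖g' a‖ ≤ 1 + 3 * C) ∧
      (∀ a, v' a ∈ Submodule.span 𝕜 (Set.range v)) ∧
      (∀ b, v b ∈ Submodule.span 𝕜 (Set.range v')) ∧
      (∀ a, g' a ∈ Submodule.span 𝕜 (Set.range g)) := by
  classical
  have hbi : ∀ a b, g a (v b) = if a = b then 1 else 0 := by
    intro a b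
    by_cases h : a = b
    · subst h; rw [if_pos rfl, hbi1]
    · rw [if_neg h, hbi0 a b h]
  have hC0 : 0 ≤ C := (norm_nonneg _).trans (hC 0).1
  choose I hI hd o T hT hTo hTs using op
  set c : ℝ := 1/√2 with hc
  have hc0 : 0 < c := by positivity
  have hc1 : c < 1 := by
    have h1 : c * c = 1/2 := by
      rw [hc, div_mul_div_comm, Real.mul_self_sqrt (by norm_num)]; norm_num
    nlinarith
  have hm : ∀ k : K, ∃ m : ℕ, c^m * (‖v (Sum.inl k)‖ + ‖g (Sum.inl k)‖) ≤ 1 := by
    intro k
    obtain ⟨m, hm⟩ := exists_pow_lt_of_lt_one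
      (show 0 < 1 / (‖v (Sum.inl k)‖ + ‖g (Sum.inl k)‖ + 1) by positivity) hc1
    refine ⟨m, ?_⟩
    rw [lt_div_iff₀ (by positivity)] at hm
    have : 0 < c^m := by positivity
    nlinarith
  choose m hm using hm
  have hrow : ∀ m j k, ∑ i, T m j i * T m k i = if j = k then 1 else 0 := by
    intro m j k
    have := congrFun (congrFun (hT m) j) k
    rw [Matrix.mul_apply, Matrix.one_apply] at this
    simpa [Matrix.transpose_apply] using this
  have hcol : ∀ m j k, ∑ i, T m i j * T m i k = if j = k then 1 else 0 := by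
    intro m j k
    have h1 : (T m).transpose * T m = 1 := mul_eq_one_comm.mp (hT m)
    have := congrFun (congrFun h1 j) k
    rw [Matrix.mul_apply, Matrix.one_apply] at this
    simpa [Matrix.transpose_apply] using this
  -- the injection
  obtain ⟨σ, hσ⟩ := exists_injective_nat (Σ k : K, {i : I (m k) // i ≠ o (m k)})
  let τ : (Σ k : K, I (m k)) → K ⊕ ℕ := fun p =>
    if h : p.2 = o (m p.1) then Sum.inl p.1 else Sum.inr (σ ⟨p.1, ⟨p.2, h⟩⟩)
  have hτo : ∀ k, τ ⟨k, o (m k)⟩ = Sum.inl k := fun k => by simp [τ]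
  have hτn : ∀ k i (h : i ≠ o (m k)), τ ⟨k, i⟩ = Sum.inr (σ ⟨k, ⟨i, h⟩⟩) := by
    intro k i h
    simp only [τ]
    rw [dif_neg h]
  have hτ : Function.Injective τ := by
    rintro ⟨k, i⟩ ⟨k', i'⟩ h
    by_cases hi : i = o (m k)
    · by_cases hi' : i' = o (m k')
      · subst hi; subst hi'
        rw [hτo, hτo] at h
        have := Sum.inl.inj h
        subst this; rfl
      · subst hi
        rw [hτo, hτn k' i' hi'] at h
        exact absurd h (by simp)
    · by_cases hi' : i' = o (m k')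
      · subst hi'
        rw [hτo, hτn k i hi] at h
        exact absurd h (by simp)
      · rw [hτn k i hi, hτn k' i' hi'] at h
        have h2 := hσ (Sum.inr.inj h)
        have h3 : k = k' := congrArg Sigma.fst h2
        subst h3
        have h4 := eq_of_heq (Sigma.mk.inj h2).2
        have h5 : i = i' := congrArg Subtype.val h4
        rw [h5]
  let V : (Σ k : K, I (m k)) → E := fun p => ∑ i, (T (m p.1) p.2 i : 𝕜) • v (τ ⟨p.1, i⟩)
  let G : (Σ k : K, I (m k)) → E →L[𝕜] 𝕜 := fun p => ∑ i, (T (m p.1) p.2 i : 𝕜) • g (τ ⟨p.1, i⟩)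
  have hGV : ∀ p q, G p (V q) = if p = q then 1 else 0 := by
    rintro ⟨k, j⟩ ⟨k', j'⟩
    have h1 : G ⟨k, j⟩ (V ⟨k', j'⟩) = ∑ i, ∑ i', (T (m k) j i : 𝕜) * ((T (m k') j' i' : 𝕜) *
        g (τ ⟨k, i⟩) (v (τ ⟨k', i'⟩))) := by
      simp only [G, V]
      rw [sum_apply]
      apply Finset.sum_congr rfl
      intro i _
      rw [_root_.smul_apply, map_sum, smul_eq_mul, Finset.mul_sum]
      apply Finset.sum_congr rfl
      intro i' _
      rw [map_smul, smul_eq_mul]
    rw [h1]
    by_cases hk : k = k'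
    · subst hk
      have h2 : ∀ i, ∑ i', (T (m k) j i : 𝕜) * ((T (m k) j' i' : 𝕜) *
          g (τ ⟨k, i⟩) (v (τ ⟨k, i'⟩))) = ((T (m k) j i * T (m k) j' i : ℝ) : 𝕜) := by
        intro i
        rw [Finset.sum_eq_single i]
        · rw [hbi, if_pos rfl]; push_cast; ring
        · intro i' _ hi'
          rw [hbi, if_neg]
          · ring
          · intro h
            have := hτ h
            apply hi'
            simpa using this.symm
        · simp
      simp only [h2]
      rw [← RCLike.ofReal_sum, hrow]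
      by_cases hj : j = j'
      · subst hj; simp
      · rw [if_neg hj, if_neg]
        · simp
        · intro h; apply hj; simpa using h
    · rw [if_neg (fun h => hk (congrArg Sigma.fst h))]
      apply Finset.sum_eq_zero
      intro i _
      apply Finset.sum_eq_zero
      intro i' _
      rw [hbi, if_neg]
      · ring
      · intro h
        exact hk (congrArg Sigma.fst (hτ h))
  have hbd : ∀ (w : K ⊕ ℕ → ℝ) (_ : ∀ n, 0 ≤ w n) (_ : ∀ n, w (Sum.inr n) ≤ C)
      (_ : ∀ k, c^(m k) * w (Sum.inl k) ≤ 1) (k : K) (j : I (m k)),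
      ∑ i, |T (m k) j i| * w (τ ⟨k, i⟩) ≤ 1 + 3 * C := by
    intro w hw0 hw1 hw2 k j
    rw [← Finset.add_sum_erase _ _ (Finset.mem_univ (o (m k))), hτo]
    have h1 : |T (m k) j (o (m k))| * w (Sum.inl k) ≤ 1 :=
      (mul_le_mul_of_nonneg_right (hTo (m k) j) (hw0 _)).trans (hw2 k)
    have h2 : ∑ i ∈ Finset.univ.erase (o (m k)), |T (m k) j i| * w (τ ⟨k, i⟩) ≤ 3 * C := by
      calc ∑ i ∈ Finset.univ.erase (o (m k)), |T (m k) j i| * w (τ ⟨k, i⟩)
          ≤ ∑ i ∈ Finset.univ.erase (o (m k)), |T (m k) j i| * C := by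
            apply Finset.sum_le_sum
            intro i hi
            apply mul_le_mul_of_nonneg_left _ (abs_nonneg _)
            rw [hτn k i (Finset.ne_of_mem_erase hi)]
            exact hw1 _
        _ = (∑ i ∈ Finset.univ.erase (o (m k)), |T (m k) j i|) * C := by rw [Finset.sum_mul]
        _ ≤ 3 * C := by
            apply mul_le_mul_of_nonneg_right _ hC0
            have h3 := hTs (m k) j
            have h4 : (0:ℝ) < (1/√2)^(m k) := by positivity
            linarith
    linarith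
  have hVn : ∀ p, ‖V p‖ ≤ 1 + 3 * C := by
    rintro ⟨k, j⟩
    refine le_trans ?_ (hbd (fun n => ‖v n‖) (fun _ => norm_nonneg _) (fun n => (hC n).1) ?_ k j)
    · refine (norm_sum_le _ _).trans (Finset.sum_le_sum (fun i _ => ?_))
      rw [norm_smul, RCLike.norm_ofReal]
    · intro k
      refine le_trans ?_ (hm k)
      apply mul_le_mul_of_nonneg_left _ (by positivity)
      have := norm_nonneg (g (Sum.inl k))
      linarith
  have hGn : ∀ p, ‖G p‖ ≤ 1 + 3 * C := by
    rintro ⟨k, j⟩
    refine le_trans ?_ (hbd (fun n => ‖g n‖) (fun _ => norm_nonneg _) (fun n => (hC n).2) ?_ k j)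
    · refine (norm_sum_le _ _).trans (Finset.sum_le_sum (fun i _ => ?_))
      rw [norm_smul, RCLike.norm_ofReal]
    · intro k
      refine le_trans ?_ (hm k)
      apply mul_le_mul_of_nonneg_left _ (by positivity)
      have := norm_nonneg (v (Sum.inl k))
      linarith
  have hleft : ∀ b, b ∉ Set.range τ → ‖v b‖ ≤ 1 + 3 * C ∧ ‖g b‖ ≤ 1 + 3 * C := by
    intro b hb
    rcases b with k | n
    · exact absurd ⟨⟨k, o (m k)⟩, hτo k⟩ hb
    · have := hC n
      constructor <;> linarith
  refine ⟨(Σ k : K, I (m k)) ⊕ {b // b ∉ Set.range τ}, inferInstance,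
    Sum.elim V (fun b => v b.1), Sum.elim G (fun b => g b.1), ?_, ?_, ?_, ?_, ?_⟩
  · have key : ∀ a b, (Sum.elim G (fun b : {b // b ∉ Set.range τ} => g b.1) a)
        ((Sum.elim V (fun b : {b // b ∉ Set.range τ} => v b.1)) b) = if a = b then 1 else 0 := by
      rintro (p | a) (q | b)
      · simp only [Sum.elim_inl, Sum.inl.injEq]
        exact hGV p q
      · simp only [Sum.elim_inl, Sum.elim_inr, reduceCtorEq, if_false]
        simp only [G]
        rw [sum_apply]
        apply Finset.sum_eq_zero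
        intro i _
        rw [_root_.smul_apply, hbi, if_neg, smul_zero]
        intro h
        exact b.2 ⟨_, h⟩
      · simp only [Sum.elim_inl, Sum.elim_inr, reduceCtorEq, if_false]
        simp only [V]
        rw [map_sum]
        apply Finset.sum_eq_zero
        intro i _
        rw [map_smul, hbi, if_neg, smul_zero]
        intro h
        exact a.2 ⟨_, h.symm⟩
      · simp only [Sum.elim_inr, Sum.inr.injEq]
        rw [hbi]
        by_cases h : a = b
        · rw [if_pos h, if_pos (congrArg _ h)]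
        · rw [if_neg h, if_neg (fun h' => h (Subtype.ext h'))]
    intro a b
    refine ⟨fun h => ?_, fun h => ?_⟩
    · rw [key, if_pos h]
    · rw [key, if_neg h]
  · rintro (p | b)
    · exact ⟨hVn p, hGn p⟩
    · exact hleft b.1 b.2
  · rintro (p | b)
    · exact Submodule.sum_mem _ (fun i _ => Submodule.smul_mem _ _ (Submodule.subset_span ⟨_, rfl⟩))
    · exact Submodule.subset_span ⟨_, rfl⟩
  · intro b
    by_cases hb : b ∈ Set.range τ
    · obtain ⟨⟨k, i⟩, rfl⟩ := hb
      have h1 : v (τ ⟨k, i⟩) = ∑ j, (T (m k) j i : 𝕜) • V ⟨k, j⟩ := by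
        have h0 : ∑ j, (T (m k) j i : 𝕜) • V ⟨k, j⟩ =
            ∑ i', ∑ j, ((T (m k) j i : 𝕜) * (T (m k) j i' : 𝕜)) • v (τ ⟨k, i'⟩) := by
          simp only [V, Finset.smul_sum, smul_smul]
          exact Finset.sum_comm (s := (Finset.univ : Finset (I (m k))))
            (t := (Finset.univ : Finset (I (m k))))
            (f := fun j i' => ((T (m k) j i : 𝕜) * (T (m k) j i' : 𝕜)) • v (τ ⟨k, i'⟩))
        rw [h0]
        have h2 : ∀ i', ∑ j, ((T (m k) j i : 𝕜) * (T (m k) j i' : 𝕜)) • v (τ ⟨k, i'⟩) =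
            ((if i = i' then 1 else 0 : ℝ) : 𝕜) • v (τ ⟨k, i'⟩) := by
          intro i'
          rw [← Finset.sum_smul, ← hcol]
          push_cast
          rfl
        simp only [h2]
        rw [Finset.sum_eq_single i]
        · simp
        · intro i' _ hi'
          rw [if_neg (Ne.symm hi')]; simp
        · simp
      rw [h1]
      exact Submodule.sum_mem _ (fun j _ => Submodule.smul_mem _ _
        (Submodule.subset_span ⟨Sum.inl ⟨k, j⟩, rfl⟩))
    · exact Submodule.subset_span ⟨Sum.inr ⟨b, hb⟩, rfl⟩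
  · rintro (p | b)
    · exact Submodule.sum_mem _ (fun i _ => Submodule.smul_mem _ _ (Submodule.subset_span ⟨_, rfl⟩))
    · exact Submodule.subset_span ⟨_, rfl⟩

end Pool.Agent.Q195.BE
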