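import Pool.Agent.Q195.BE5

set_option autoImplicit false

namespace Pool.Agent.Q195.BE

open Filter Topology

variable {𝕜 : Type*} [RCLike 𝕜] {E : Type*} [NormedAddCommGroup E] [NormedSpace 𝕜 E]

/-- triangular bounded systems modulo a closed subspace of infinite codimension -/
theorem tri (X : Submodule 𝕜 E) (hX : IsClosed (X : Set E))
    (hinf : ¬ FiniteDimensional 𝕜 (E ⧸ X)) :
    ∃ (a : ℕ → E) (η : ℕ → E →L[𝕜] 𝕜), ∀ k, ‖a k‖ ≤ 3 ∧ ‖η k‖ ≤ 1 ∧ (∀ x ∈ X, η k x = 0) ∧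
      (∀ i < k, η k (a i) = 0) ∧ η k (a k) = 1 := by
  classical
  have hXc : IsClosed (X : Set E) := hX
  let P : ℕ → (ℕ → E × (E →L[𝕜] 𝕜)) → E × (E →L[𝕜] 𝕜) → Prop := fun k s a =>
    ‖a.1‖ ≤ 3 ∧ ‖a.2‖ ≤ 1 ∧ (∀ x ∈ X, a.2 x = 0) ∧ (∀ i < k, a.2 (s i).1 = 0) ∧ a.2 a.1 = 1
  have hloc : ∀ k s s' a, (∀ i < k, s i = s' i) → P k s a → P k s' a := by
    intro k s s' a hss h
    exact ⟨h.1, h.2.1, h.2.2.1, fun i hi => by rw [← hss i hi]; exact h.2.2.2.1 i hi, h.2.2.2.2⟩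
  have hex : ∀ k s, (∀ i < k, P i s (s i)) → ∃ a, P k s a := by
    intro k s _
    let U : Submodule 𝕜 (E ⧸ X) :=
      Submodule.span 𝕜 ((fun i => (Submodule.Quotient.mk (s i).1 : E ⧸ X)) '' Set.Iio k)
    have hU : FiniteDimensional 𝕜 U :=
      FiniteDimensional.span_of_finite 𝕜 ((Set.finite_Iio k).image _)
    have hUc : IsClosed (U : Set (E ⧸ X)) := Submodule.closed_of_finiteDimensional U
    have hne : U ≠ ⊤ := by
      intro h
      apply hinf
      rw [h] at hU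
      exact Module.Finite.of_surjective (⊤ : Submodule 𝕜 (E ⧸ X)).subtype
        (fun x => ⟨⟨x, Submodule.mem_top⟩, rfl⟩)
    obtain ⟨b, θ, hb, hθ, hθU, hθb⟩ := exists_riesz U hUc hne
    obtain ⟨w, hw1, hw2⟩ := Submodule.Quotient.norm_mk_lt b one_pos
    let q : E →L[𝕜] E ⧸ X := X.mkQL
    have hqn : ∀ x : E, ‖q x‖ ≤ ‖x‖ := fun x => Submodule.Quotient.norm_mk_le X x
    refine ⟨(w, θ.comp q), by simp only; linarith, ?_, ?_, ?_, ?_⟩
    · apply ContinuousLinearMap.opNorm_le_bound _ zero_le_one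
      intro x
      rw [ContinuousLinearMap.comp_apply]
      refine (θ.le_opNorm _).trans ?_
      exact mul_le_mul hθ (hqn x) (norm_nonneg _) zero_le_one
    · intro x hx
      have : q x = 0 := by
        show (Submodule.Quotient.mk x : E ⧸ X) = 0
        rwa [Submodule.Quotient.mk_eq_zero]
      simp [this]
    · intro i hi
      rw [ContinuousLinearMap.comp_apply]
      exact hθU _ (Submodule.subset_span ⟨i, hi, rfl⟩)
    · have h1 : q w = b := hw1
      rw [ContinuousLinearMap.comp_apply, h1, hθb]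
  obtain ⟨s, hs⟩ := exists_seq_strong P hloc hex
  exact ⟨fun k => (s k).1, fun k => (s k).2, fun k => hs k⟩

/-- pigeonhole for finitely many functionals -/
lemma pigeon (F : Finset (E →L[𝕜] 𝕜)) (z : ℕ → E) (R : ℝ) (hz : ∀ k, ‖z k‖ ≤ R) {ε : ℝ}
    (hε : 0 < ε) : ∃ k l, k < l ∧ ∀ f ∈ F, ‖f (z l) - f (z k)‖ < ε := by
  classical
  let u : ℕ → (F → 𝕜) := fun k f => (f : E →L[𝕜] 𝕜) (z k)
  have hb : ∀ k, u k ∈ Metric.closedBall (0 : F → 𝕜) ((∑ f ∈ F, ‖f‖) * R) := by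
    intro k
    rw [mem_closedBall_zero_iff]
    have hR : 0 ≤ R := (norm_nonneg _).trans (hz k)
    rw [pi_norm_le_iff_of_nonneg (mul_nonneg (Finset.sum_nonneg (fun _ _ => norm_nonneg _)) hR)]
    intro f
    calc ‖u k f‖ ≤ ‖(f : E →L[𝕜] 𝕜)‖ * ‖z k‖ := (f : E →L[𝕜] 𝕜).le_opNorm _
      _ ≤ (∑ f ∈ F, ‖f‖) * R := by
        apply mul_le_mul _ (hz k) (norm_nonneg _) (Finset.sum_nonneg (fun _ _ => norm_nonneg _))
        exact Finset.single_le_sum (f := fun f : E →L[𝕜] 𝕜 => ‖f‖) (fun _ _ => norm_nonneg _) f.2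
  obtain ⟨a, -, φ, hφ, hlim⟩ := tendsto_subseq_of_bounded (Metric.isBounded_closedBall) hb
  have hc := hlim.cauchySeq
  rw [Metric.cauchySeq_iff] at hc
  obtain ⟨N, hN⟩ := hc ε hε
  refine ⟨φ N, φ (N+1), hφ (Nat.lt_succ_self N), ?_⟩
  intro f hf
  have h1 := hN (N+1) (Nat.le_succ N) N le_rfl
  have h2 := dist_le_pi_dist ((u ∘ φ) (N+1)) ((u ∘ φ) N) ⟨f, hf⟩
  have h3 := lt_of_le_of_lt h2 h1
  rwa [dist_eq_norm] at h3

/-- Adding infinitely many bounded vectors. -/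
theorem add_bounded (X : Submodule 𝕜 E) (hX : IsClosed (X : Set E))
    (hinf : ¬ FiniteDimensional 𝕜 (E ⧸ X)) (f : ℕ → E →L[𝕜] 𝕜) (D : ℝ) (hD : ∀ n, ‖f n‖ ≤ D)
    (hf : ∀ z, Tendsto (fun n => f n z) atTop (𝓝 0)) :
    ∃ (u : ℕ → E) (h : ℕ → E →L[𝕜] 𝕜), (∀ j, ‖u j‖ ≤ 7 ∧ ‖h j‖ ≤ 1) ∧
      (∀ j, ∀ x ∈ X, h j x = 0) ∧ (∀ i j, h i (u j) = if i = j then 1 else 0) ∧
      (∀ n (s : Finset ℕ), ∑ j ∈ s, ‖f n (u j)‖ ≤ 2 + 7 * D) := by
  classical
  have hD0 : 0 ≤ D := (norm_nonneg _).trans (hD 0)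
  obtain ⟨a, η, haη⟩ := tri X hX hinf
  have ha3 : ∀ k, ‖a k‖ ≤ 3 := fun k => (haη k).1
  have hη1 : ∀ k, ‖η k‖ ≤ 1 := fun k => (haη k).2.1
  have hηX : ∀ k, ∀ x ∈ X, η k x = 0 := fun k => (haη k).2.2.1
  have hηa : ∀ k, ∀ i < k, η k (a i) = 0 := fun k => (haη k).2.2.2.1
  have hηd : ∀ k, η k (a k) = 1 := fun k => (haη k).2.2.2.2
  -- data: (u, h, K, N)
  let P : ℕ → (ℕ → E × (E →L[𝕜] 𝕜) × ℕ × ℕ) → E × (E →L[𝕜] 𝕜) × ℕ × ℕ → Prop := fun j s b =>
    ‖b.1‖ ≤ 7 ∧ ‖b.2.1‖ ≤ 1 ∧ (∀ x ∈ X, b.2.1 x = 0) ∧ (∀ i < j, b.2.1 (s i).1 = 0) ∧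
    (∀ i < j, (s i).2.1 b.1 = 0) ∧ b.2.1 b.1 = 1 ∧
    b.1 ∈ Submodule.span 𝕜 (a '' Set.Iio b.2.2.1) ∧
    (∀ i < j, (s i).2.2.2 ≤ b.2.2.2) ∧
    (∀ n, b.2.2.2 ≤ n → ‖f n b.1‖ ≤ (1/2:ℝ)^j) ∧
    (∀ i < j, ∀ n < (s i).2.2.2, ‖f n b.1‖ ≤ (1/2:ℝ)^j)
  have hloc : ∀ k s s' a, (∀ i < k, s i = s' i) → P k s a → P k s' a := by
    intro k s s' b hss h
    obtain ⟨h1, h2, h3, h4, h5, h6, h7, h8, h9, h10⟩ := h
    exact ⟨h1, h2, h3, fun i hi => by rw [← hss i hi]; exact h4 i hi,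
      fun i hi => by rw [← hss i hi]; exact h5 i hi, h6, h7,
      fun i hi => by rw [← hss i hi]; exact h8 i hi, h9,
      fun i hi => by rw [← hss i hi]; exact h10 i hi⟩
  have hex : ∀ k s, (∀ i < k, P i s (s i)) → ∃ a, P k s a := by
    intro j s hs
    let K : ℕ := ∑ i ∈ Finset.range j, (s i).2.2.1
    let N : ℕ := ∑ i ∈ Finset.range j, (s i).2.2.2
    have hK : ∀ i < j, (s i).2.2.1 ≤ K := fun i hi =>
      Finset.single_le_sum (f := fun i => (s i).2.2.1) (fun _ _ => Nat.zero_le _)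
        (Finset.mem_range.mpr hi)
    have hN : ∀ i < j, (s i).2.2.2 ≤ N := fun i hi =>
      Finset.single_le_sum (f := fun i => (s i).2.2.2) (fun _ _ => Nat.zero_le _)
        (Finset.mem_range.mpr hi)
    let F : Finset (E →L[𝕜] 𝕜) := (Finset.range j).image (fun i => (s i).2.1) ∪
      (Finset.range N).image f
    set δ : ℝ := (1/2:ℝ)^j / (1 + j * (7 * D + 7)) with hδ
    have hden : (0:ℝ) < 1 + j * (7 * D + 7) := by positivity
    have hδ0 : 0 < δ := by positivity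
    obtain ⟨l, k, hlk, hclose⟩ := pigeon F (fun i => a (K + i)) 3 (fun i => ha3 _) hδ0
    set v := a (K + k) - a (K + l) with hv
    have hcl1 : ∀ i < j, ‖(s i).2.1 v‖ ≤ δ := by
      intro i hi
      rw [hv, map_sub]
      apply le_of_lt
      apply hclose
      apply Finset.mem_union_left
      exact Finset.mem_image_of_mem _ (Finset.mem_range.mpr hi)
    have hcl2 : ∀ n < N, ‖f n v‖ ≤ δ := by
      intro n hn
      rw [hv, map_sub]
      apply le_of_lt
      apply hclose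
      apply Finset.mem_union_right
      exact Finset.mem_image_of_mem _ (Finset.mem_range.mpr hn)
    let u : E := v - ∑ i ∈ Finset.range j, (s i).2.1 v • (s i).1
    have hηu : ∀ i < j, η (K + k) (s i).1 = 0 := by
      intro i hi
      have h7 := (hs i hi).2.2.2.2.2.2.1
      have hsub : Submodule.span 𝕜 (a '' Set.Iio (s i).2.2.1) ≤
          LinearMap.ker (η (K+k)).toLinearMap := by
        rw [Submodule.span_le]
        rintro _ ⟨m, hm, rfl⟩
        have hm' : m < (s i).2.2.1 := hm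
        have := hK i hi
        exact hηa (K+k) m (by omega)
      exact hsub h7
    have hηv : η (K + k) v = 1 := by
      rw [hv, map_sub, hηd, hηa (K+k) (K+l) (by omega), sub_zero]
    have hηu1 : η (K + k) u = 1 := by
      simp only [u]
      rw [map_sub, map_sum, hηv, Finset.sum_eq_zero, sub_zero]
      intro i hi
      rw [map_smul, hηu i (by simpa using hi), smul_zero]
    have hsu : ∀ i < j, (s i).2.1 u = 0 := by
      intro i hi
      simp only [u]
      rw [map_sub, map_sum, Finset.sum_eq_single i]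
      · rw [map_smul, smul_eq_mul, (hs i hi).2.2.2.2.2.1, mul_one, sub_self]
      · intro i' hi' hne
        have hi'' : i' < j := by simpa using hi'
        rw [map_smul]
        rcases lt_or_gt_of_ne hne with h | h
        · rw [(hs i hi).2.2.2.1 i' h, smul_zero]
        · rw [(hs i' hi'').2.2.2.2.1 i h, smul_zero]
      · intro h; exact absurd (Finset.mem_range.mpr hi) h
    have hsumn : ‖∑ i ∈ Finset.range j, (s i).2.1 v • (s i).1‖ ≤ j * (δ * 7) := by
      refine (norm_sum_le _ _).trans ?_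
      calc ∑ i ∈ Finset.range j, ‖(s i).2.1 v • (s i).1‖ ≤ ∑ i ∈ Finset.range j, δ * 7 := by
            apply Finset.sum_le_sum
            intro i hi
            have hi' : i < j := by simpa using hi
            rw [norm_smul]
            exact mul_le_mul (hcl1 i hi') (hs i hi').1 (norm_nonneg _) hδ0.le
        _ = j * (δ * 7) := by simp
    have hδj : δ * (1 + j * (7 * D + 7)) = (1/2:ℝ)^j := by
      rw [hδ]; field_simp
    have hpow1 : (1/2:ℝ)^j ≤ 1 := pow_le_one₀ (by norm_num) (by norm_num)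
    have hu7 : ‖u‖ ≤ 7 := by
      have h1 := norm_sub_le v (∑ i ∈ Finset.range j, (s i).2.1 v • (s i).1)
      have h2 := norm_sub_le (a (K+k)) (a (K+l))
      have h3 := ha3 (K+k)
      have h4 := ha3 (K+l)
      have h5 : (j:ℝ) * (δ * 7) ≤ 1 := by
        have : 0 ≤ (j:ℝ) * δ * D := by positivity
        nlinarith
      calc ‖u‖ ≤ ‖v‖ + ‖∑ i ∈ Finset.range j, (s i).2.1 v • (s i).1‖ := h1
        _ ≤ 6 + 1 := by linarith
        _ = 7 := by norm_num
    have hfu : ∀ n < N, ‖f n u‖ ≤ (1/2:ℝ)^j := by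
      intro n hn
      simp only [u]
      rw [map_sub]
      have h1 := norm_sub_le (f n v) (f n (∑ i ∈ Finset.range j, (s i).2.1 v • (s i).1))
      have h2 : ‖f n (∑ i ∈ Finset.range j, (s i).2.1 v • (s i).1)‖ ≤ D * (j * (δ * 7)) :=
        ((f n).le_opNorm _).trans (mul_le_mul (hD n) hsumn (norm_nonneg _) hD0)
      have h3 := hcl2 n hn
      have h4 : 0 ≤ (j:ℝ) * δ := by positivity
      nlinarith
    have hlim := (hf u).norm
    rw [norm_zero] at hlim
    obtain ⟨N1, hN1⟩ := (hlim.eventually (gt_mem_nhds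
      (show (0:ℝ) < (1/2)^j by positivity))).exists_forall_of_atTop
    refine ⟨(u, η (K+k), K + k + 1, max N N1), hu7, hη1 _, hηX _, hηu, hsu, hηu1, ?_, ?_, ?_, ?_⟩
    · simp only [u]
      apply Submodule.sub_mem
      · rw [hv]
        apply Submodule.sub_mem
        · apply Submodule.subset_span
          refine ⟨K + k, ?_, rfl⟩
          show K + k < K + k + 1
          omega
        · apply Submodule.subset_span
          refine ⟨K + l, ?_, rfl⟩
          show K + l < K + k + 1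
          omega
      · apply Submodule.sum_mem
        intro i hi
        have hi' : i < j := by simpa using hi
        apply Submodule.smul_mem
        have h7 := (hs i hi').2.2.2.2.2.2.1
        refine Submodule.span_mono ?_ h7
        apply Set.image_mono
        intro m hm
        have hm' : m < (s i).2.2.1 := hm
        have := hK i hi'
        show m < K + k + 1
        omega
    · intro i hi
      exact (hN i hi).trans (le_max_left _ _)
    · intro n hn
      exact (hN1 n ((le_max_right _ _).trans hn)).le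
    · intro i hi n hn
      exact hfu n (lt_of_lt_of_le hn (hN i hi))
  obtain ⟨s, hs⟩ := exists_seq_strong P hloc hex
  refine ⟨fun j => (s j).1, fun j => (s j).2.1, fun j => ⟨(hs j).1, (hs j).2.1⟩,
    fun j => (hs j).2.2.1, ?_, ?_⟩
  · intro i j
    by_cases hij : i = j
    · subst hij; rw [if_pos rfl]; exact (hs i).2.2.2.2.2.1
    · rw [if_neg hij]
      rcases lt_or_gt_of_ne hij with h | h
      · exact (hs j).2.2.2.2.1 i h
      · exact (hs i).2.2.2.1 j h
  · intro n t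
    -- at most one exceptional index
    have hbig : ∀ j, ‖f n (s j).1‖ ≤ 7 * D := by
      intro j
      refine ((f n).le_opNorm _).trans ?_
      calc ‖f n‖ * ‖(s j).1‖ ≤ D * 7 := mul_le_mul (hD n) (hs j).1 (norm_nonneg _) hD0
        _ = 7 * D := by ring
    let B : Finset ℕ := t.filter (fun j => ¬ ‖f n (s j).1‖ ≤ (1/2:ℝ)^j)
    have hB : B.card ≤ 1 := by
      rw [Finset.card_le_one]
      intro i hi j hj
      simp only [B, Finset.mem_filter] at hi hj
      by_contra hne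
      have key : ∀ i j, i < j → ¬ ‖f n (s i).1‖ ≤ (1/2:ℝ)^i → ¬ ‖f n (s j).1‖ ≤ (1/2:ℝ)^j → False := by
        intro i j hij h1 h2
        have h3 : ¬ (s i).2.2.2 ≤ n := fun h => h1 ((hs i).2.2.2.2.2.2.2.2.1 n h)
        have h4 : ¬ n < (s i).2.2.2 := fun h => h2 ((hs j).2.2.2.2.2.2.2.2.2 i hij n h)
        omega
      rcases lt_or_gt_of_ne hne with h | h
      · exact key i j h hi.2 hj.2
      · exact key j i h hj.2 hi.2
    have h1 : ∑ j ∈ t, ‖f n (s j).1‖ = ∑ j ∈ t.filter (fun j => ‖f n (s j).1‖ ≤ (1/2:ℝ)^j),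
        ‖f n (s j).1‖ + ∑ j ∈ B, ‖f n (s j).1‖ :=
      (Finset.sum_filter_add_sum_filter_not t _ _).symm
    have h2 : ∑ j ∈ B, ‖f n (s j).1‖ ≤ 7 * D := by
      calc ∑ j ∈ B, ‖f n (s j).1‖ ≤ ∑ j ∈ B, 7 * D := Finset.sum_le_sum (fun j _ => hbig j)
        _ = B.card * (7 * D) := by simp
        _ ≤ 1 * (7 * D) := by
          apply mul_le_mul_of_nonneg_right _ (by positivity)
          exact_mod_cast hB
        _ = 7 * D := one_mul _
    have h3 : ∑ j ∈ t.filter (fun j => ‖f n (s j).1‖ ≤ (1/2:ℝ)^j), ‖f n (s j).1‖ ≤ 2 := by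
      calc ∑ j ∈ t.filter (fun j => ‖f n (s j).1‖ ≤ (1/2:ℝ)^j), ‖f n (s j).1‖
          ≤ ∑ j ∈ t.filter (fun j => ‖f n (s j).1‖ ≤ (1/2:ℝ)^j), (1/2:ℝ)^j :=
            Finset.sum_le_sum (fun j hj => (Finset.mem_filter.mp hj).2)
        _ ≤ ∑' j : ℕ, (1/2:ℝ)^j :=
            summable_geometric_two.sum_le_tsum _ (fun _ _ => by positivity)
        _ = 2 := tsum_geometric_two
    rw [h1]; linarith

end Pool.Agent.Q195.BE
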