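import Pool.Agent.Q195.BE6

set_option autoImplicit false

namespace Pool.Agent.Q195.BE

open Filter Topology

theorem caseFin (𝕜 : Type) [RCLike 𝕜] (E : Type) [NormedAddCommGroup E] [NormedSpace 𝕜 E]
      [TopologicalSpace.SeparableSpace E] (x : ℕ → E) (C D : ℝ)
      (f : ℕ → (E →L[𝕜] 𝕜)) (hbi : ∀ i j, f i (x j) = if i = j then 1 else 0)
      (hx : ∀ n, ‖x n‖ ≤ C) (hf : ∀ n, ‖f n‖ ≤ D)
      (hfin : FiniteDimensional 𝕜 (E ⧸ (Submodule.span 𝕜 (Set.range x)).topologicalClosure)) :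
      ∃ (ι : Type) (_ : Countable ι) (y : ι → E) (C D : ℝ) (g : ℕ ⊕ ι → (E →L[𝕜] 𝕜)),
        (∀ i j : ℕ ⊕ ι, (i = j → g i (Sum.elim x y j) = 1) ∧
            (i ≠ j → g i (Sum.elim x y j) = 0)) ∧
        (∀ i : ℕ ⊕ ι, ‖Sum.elim x y i‖ ≤ C ∧ ‖g i‖ ≤ D) ∧
        (Submodule.span 𝕜 (Set.range (Sum.elim x y))).topologicalClosure = ⊤ := by
  classical
  obtain ⟨f', y, h, hf'n, hf'X, hf'y, hhX, hyh, hdiag, hdense⟩ := core x f D hbi hf
  have hcl : ∀ k, ∀ v ∈ (Submodule.span 𝕜 (Set.range x)).topologicalClosure, h k v = 0 := by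
    intro k v hv
    have hc : IsClosed {v : E | h k v = 0} := isClosed_eq (h k).continuous continuous_const
    exact closure_minimal (fun v hv => hhX k v hv) hc hv
  have hli : LinearIndependent 𝕜 (fun k : {k // y k ≠ 0} =>
      (Submodule.Quotient.mk (y k.1) : E ⧸ (Submodule.span 𝕜 (Set.range x)).topologicalClosure)) := by
    rw [linearIndependent_iff']
    intro s c hc i hi
    have h1 : ∑ k ∈ s, c k • y k.1 ∈ (Submodule.span 𝕜 (Set.range x)).topologicalClosure := by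
      rw [← Submodule.Quotient.mk_eq_zero, ← hc]
      rw [← Submodule.mkQ_apply, map_sum]
      rfl
    have h2 := hcl i.1 _ h1
    rw [map_sum, Finset.sum_eq_single i] at h2
    · rcases hyh i.1 with h3 | h3
      · exact absurd h3.1 i.2
      · rw [map_smul, h3, smul_eq_mul, mul_one] at h2
        exact h2
    · intro j _ hj
      rw [map_smul, hdiag i.1 j.1 (fun h => hj (Subtype.ext h.symm)), smul_zero]
    · intro h; exact absurd hi h
  have hfinite : Finite {k // y k ≠ 0} := hli.finite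
  obtain ⟨C1, hC1⟩ : ∃ C1, ∀ k : {k // y k ≠ 0}, ‖y k.1‖ ≤ C1 := by
    obtain ⟨C1, hC1⟩ := (Set.finite_range (fun k : {k // y k ≠ 0} => ‖y k.1‖)).bddAbove
    exact ⟨C1, fun k => hC1 ⟨k, rfl⟩⟩
  obtain ⟨D1, hD1⟩ : ∃ D1, ∀ k : {k // y k ≠ 0}, ‖h k.1‖ ≤ D1 := by
    obtain ⟨D1, hD1⟩ := (Set.finite_range (fun k : {k // y k ≠ 0} => ‖h k.1‖)).bddAbove
    exact ⟨D1, fun k => hD1 ⟨k, rfl⟩⟩
  have hxX : ∀ j, x j ∈ Submodule.span 𝕜 (Set.range x) := fun j => Submodule.subset_span ⟨j, rfl⟩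
  refine ⟨{k // y k ≠ 0}, inferInstance, fun k => y k.1, max C C1, max (2 * D + 2) D1,
    Sum.elim f' (fun k => h k.1), ?_, ?_, ?_⟩
  · rintro (i | i) (j | j)
    · simp only [Sum.elim_inl, Sum.inl.injEq, ne_eq]
      rw [hf'X i _ (hxX j), hbi]
      constructor
      · intro h; rw [if_pos h]
      · intro h; rw [if_neg h]
    · simp only [Sum.elim_inl, Sum.elim_inr, reduceCtorEq, false_implies, true_and]
      intro _; exact hf'y i j.1
    · simp only [Sum.elim_inl, Sum.elim_inr, reduceCtorEq, false_implies, true_and]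
      intro _; exact hhX i.1 _ (hxX j)
    · simp only [Sum.elim_inr, Sum.inr.injEq, ne_eq]
      constructor
      · intro h; subst h
        rcases hyh i.1 with h3 | h3
        · exact absurd h3.1 i.2
        · exact h3
      · intro h; exact hdiag i.1 j.1 (fun h' => h (Subtype.ext h'))
  · rintro (i | i)
    · exact ⟨(hx i).trans (le_max_left _ _), (hf'n i).trans (le_max_left _ _)⟩
    · exact ⟨(hC1 i).trans (le_max_right _ _), (hD1 i).trans (le_max_right _ _)⟩
  · rw [eq_top_iff, ← hdense]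
    apply Submodule.topologicalClosure_mono
    apply sup_le
    · rw [Submodule.span_le]
      rintro _ ⟨j, rfl⟩
      exact Submodule.subset_span ⟨Sum.inl j, rfl⟩
    · rw [Submodule.span_le]
      rintro _ ⟨k, rfl⟩
      by_cases hk : y k = 0
      · rw [hk]; exact Submodule.zero_mem _
      · exact Submodule.subset_span ⟨Sum.inr ⟨k, hk⟩, rfl⟩

theorem caseInf (𝕜 : Type) [RCLike 𝕜] (E : Type) [NormedAddCommGroup E] [NormedSpace 𝕜 E]
      [TopologicalSpace.SeparableSpace E] (x : ℕ → E) (C D : ℝ)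
      (f : ℕ → (E →L[𝕜] 𝕜)) (hbi : ∀ i j, f i (x j) = if i = j then 1 else 0)
      (hx : ∀ n, ‖x n‖ ≤ C) (hf : ∀ n, ‖f n‖ ≤ D)
      (hinf : ¬ FiniteDimensional 𝕜 (E ⧸ (Submodule.span 𝕜 (Set.range x)).topologicalClosure)) :
      ∃ (ι : Type) (_ : Countable ι) (y : ι → E) (C D : ℝ) (g : ℕ ⊕ ι → (E →L[𝕜] 𝕜)),
        (∀ i j : ℕ ⊕ ι, (i = j → g i (Sum.elim x y j) = 1) ∧
            (i ≠ j → g i (Sum.elim x y j) = 0)) ∧
        (∀ i : ℕ ⊕ ι, ‖Sum.elim x y i‖ ≤ C ∧ ‖g i‖ ≤ D) ∧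
        (Submodule.span 𝕜 (Set.range (Sum.elim x y))).topologicalClosure = ⊤ := by
  classical
  have hD0 : 0 ≤ D := (norm_nonneg _).trans (hf 0)
  have hxX : ∀ j, x j ∈ Submodule.span 𝕜 (Set.range x) := fun j => Submodule.subset_span ⟨j, rfl⟩
  obtain ⟨f0, hf0n, hf0X, hf0l⟩ := exists_null (Submodule.span 𝕜 (Set.range x)) f D hf
    (fun v hv => null_on_span x f hbi v hv)
  obtain ⟨u, h, huh, hhX, hhu, hsumu⟩ := add_bounded _
    (Submodule.isClosed_topologicalClosure (Submodule.span 𝕜 (Set.range x))) hinf f0 (2*D)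
    hf0n hf0l
  have hhx : ∀ i j, h i (x j) = 0 := fun i j =>
    hhX i _ (Submodule.le_topologicalClosure _ (hxX j))
  set M : ℝ := 2 + 7 * (2 * D) with hM
  have hsm0 : ∀ n, Summable (fun j => ‖f0 n (u j)‖) := fun n =>
    summable_of_sum_le (fun _ => norm_nonneg _) (hsumu n)
  have hle : ∀ n j, ‖f0 n (u j) • h j‖ ≤ ‖f0 n (u j)‖ := by
    intro n j
    rw [norm_smul]
    calc ‖f0 n (u j)‖ * ‖h j‖ ≤ ‖f0 n (u j)‖ * 1 :=
          mul_le_mul_of_nonneg_left (huh j).2 (norm_nonneg _)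
      _ = _ := mul_one _
  have hsm : ∀ n, Summable (fun j => f0 n (u j) • h j) := fun n =>
    Summable.of_norm_bounded (hsm0 n) (hle n)
  let S : ℕ → E →L[𝕜] 𝕜 := fun n => ∑' j, f0 n (u j) • h j
  have hS : ∀ n v, HasSum (fun j => f0 n (u j) * h j v) (S n v) := by
    intro n v
    exact (ContinuousLinearMap.apply 𝕜 𝕜 v).hasSum (hsm n).hasSum
  have hSn : ∀ n, ‖S n‖ ≤ M := by
    intro n
    refine (tsum_of_norm_bounded (hsm0 n).hasSum (hle n)).trans ?_
    exact (hsm0 n).tsum_le_of_sum_le (hsumu n)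
  let f1 : ℕ → E →L[𝕜] 𝕜 := fun n => f0 n - S n
  have hf1x : ∀ i j, f1 i (x j) = if i = j then 1 else 0 := by
    intro i j
    have h1 : S i (x j) = 0 := by
      have h2 := hS i (x j)
      have h3 : (fun k => f0 i (u k) * h k (x j)) = fun _ => 0 := by
        funext k; rw [hhx, mul_zero]
      rw [h3] at h2
      exact h2.unique hasSum_zero
    simp only [f1]
    rw [sub_apply, h1, sub_zero, hf0X i _ (hxX j), hbi]
  have hf1u : ∀ n i, f1 n (u i) = 0 := by
    intro n i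
    have h1 : S n (u i) = f0 n (u i) := by
      refine (hS n (u i)).unique ?_
      have h2 : HasSum (fun k => f0 n (u k) * h k (u i)) (f0 n (u i) * h i (u i)) := by
        apply hasSum_single i
        intro k hk
        rw [hhu, if_neg hk, mul_zero]
      rw [hhu, if_pos rfl, mul_one] at h2
      exact h2
    simp only [f1]
    rw [sub_apply, h1, sub_self]
  let e : ℕ ⊕ ℕ ≃ ℕ := Equiv.natSumNatEquivNat
  let xb : ℕ → E := fun n => Sum.elim x u (e.symm n)
  let fb : ℕ → E →L[𝕜] 𝕜 := fun n => Sum.elim f1 h (e.symm n)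
  have hbb : ∀ a b : ℕ ⊕ ℕ, (Sum.elim f1 h a) (Sum.elim x u b) = if a = b then 1 else 0 := by
    rintro (i | i) (j | j)
    · simp only [Sum.elim_inl, Sum.inl.injEq]; exact hf1x i j
    · simp only [Sum.elim_inl, Sum.elim_inr, reduceCtorEq, if_false]; exact hf1u i j
    · simp only [Sum.elim_inl, Sum.elim_inr, reduceCtorEq, if_false]; exact hhx i j
    · simp only [Sum.elim_inr, Sum.inr.injEq]; exact hhu i j
  have hxb : ∀ i j, fb i (xb j) = if i = j then 1 else 0 := by
    intro i j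
    simp only [fb, xb]
    rw [hbb]
    simp only [EmbeddingLike.apply_eq_iff_eq]
  have hfb : ∀ n, ‖fb n‖ ≤ 2 * D + M + 1 := by
    intro n
    simp only [fb]
    rcases e.symm n with i | i
    · have h1 := norm_sub_le (f0 i) (S i)
      have h2 := hf0n i
      have h3 := hSn i
      show ‖f0 i - S i‖ ≤ _
      linarith
    · have h1 := (huh i).2
      have : 0 ≤ M := by positivity
      show ‖h i‖ ≤ _
      linarith
  obtain ⟨f', y, hy, hf'n, hf'X, hf'y, hyX, hyh, hdiag, hdense⟩ := core xb fb _ hxb hfb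
  have hxbX : ∀ j, xb j ∈ Submodule.span 𝕜 (Set.range xb) := fun j => Submodule.subset_span ⟨j, rfl⟩
  have hxl : ∀ n, x n = xb (e (Sum.inl n)) := by intro n; simp [xb]
  have hur : ∀ n, u n = xb (e (Sum.inr n)) := by intro n; simp [xb]
  have hf'xb : ∀ i j, f' i (xb j) = if i = j then 1 else 0 := by
    intro i j; rw [hf'X i _ (hxbX j), hxb]
  set D2 : ℝ := 2 * (2 * D + M + 1) + 2 with hD2
  have hM0 : 0 ≤ M := by positivity
  have hD27 : 1 ≤ D2 := by rw [hD2]; linarith
  -- mixing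
  let v : {k // y k ≠ 0} ⊕ ℕ → E := Sum.elim (fun k => y k.1) u
  let g : {k // y k ≠ 0} ⊕ ℕ → E →L[𝕜] 𝕜 := Sum.elim (fun k => hy k.1)
    (fun j => f' (e (Sum.inr j)))
  have hg1 : ∀ a, g a (v a) = 1 := by
    rintro (k | j)
    · rcases hyh k.1 with h3 | h3
      · exact absurd h3.1 k.2
      · exact h3
    · show f' (e (Sum.inr j)) (u j) = 1
      rw [hur, hf'xb, if_pos rfl]
  have hg0 : ∀ a b, a ≠ b → g a (v b) = 0 := by
    rintro (k | j) (k' | j') hne
    · show hy k.1 (y k'.1) = 0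
      exact hdiag _ _ (fun h' => hne (by rw [Subtype.ext h']))
    · show hy k.1 (u j') = 0
      rw [hur]; exact hyX _ _ (hxbX _)
    · show f' (e (Sum.inr j)) (y k'.1) = 0
      exact hf'y _ _
    · show f' (e (Sum.inr j)) (u j') = 0
      rw [hur, hf'xb, if_neg]
      intro h'
      apply hne
      have := e.injective h'
      rw [Sum.inr.inj this]
  obtain ⟨ι, hι, v', g', hbi', hbd', hv's, hvs', hg's⟩ := mix v g hg1 hg0 (max 7 D2) (by
    intro n
    refine ⟨?_, ?_⟩
    · exact ((huh n).1).trans (le_max_left _ _)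
    · exact (hf'n _).trans (le_max_right _ _))
  have hf'v : ∀ n a, f' (e (Sum.inl n)) (v' a) = 0 := by
    intro n a
    have hsub : Submodule.span 𝕜 (Set.range v) ≤ LinearMap.ker (f' (e (Sum.inl n))).toLinearMap := by
      rw [Submodule.span_le]
      rintro _ ⟨b, rfl⟩
      rcases b with k | j
      · exact hf'y _ _
      · show f' (e (Sum.inl n)) (u j) = 0
        rw [hur, hf'xb, if_neg]
        intro h'
        have := e.injective h'
        simp at this
    exact hsub (hv's a)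
  have hg'x : ∀ a n, g' a (x n) = 0 := by
    intro a n
    have hsub : Submodule.span 𝕜 (Set.range g) ≤
        LinearMap.ker (ContinuousLinearMap.apply 𝕜 𝕜 (x n)).toLinearMap := by
      rw [Submodule.span_le]
      rintro _ ⟨b, rfl⟩
      rcases b with k | j
      · show hy k.1 (x n) = 0
        rw [hxl]; exact hyX _ _ (hxbX _)
      · show f' (e (Sum.inr j)) (x n) = 0
        rw [hxl, hf'xb, if_neg]
        intro h'
        have := e.injective h'
        simp at this
    exact hsub (hg's a)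
  refine ⟨ι, hι, v', max C (1 + 3 * max 7 D2), max D2 (1 + 3 * max 7 D2),
    Sum.elim (fun n => f' (e (Sum.inl n))) g', ?_, ?_, ?_⟩
  · rintro (i | i) (j | j)
    · simp only [Sum.elim_inl, Sum.inl.injEq, ne_eq]
      rw [hxl j, hf'xb]
      simp only [EmbeddingLike.apply_eq_iff_eq, Sum.inl.injEq]
      constructor
      · intro h; rw [if_pos h]
      · intro h; rw [if_neg h]
    · simp only [Sum.elim_inl, Sum.elim_inr, reduceCtorEq, false_implies, true_and]
      intro _; exact hf'v i j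
    · simp only [Sum.elim_inl, Sum.elim_inr, reduceCtorEq, false_implies, true_and]
      intro _; exact hg'x i j
    · simp only [Sum.elim_inr, Sum.inr.injEq, ne_eq]
      exact hbi' i j
  · rintro (i | i)
    · exact ⟨(hx i).trans (le_max_left _ _), (hf'n _).trans (le_max_left _ _)⟩
    · exact ⟨(hbd' i).1.trans (le_max_right _ _), (hbd' i).2.trans (le_max_right _ _)⟩
  · rw [eq_top_iff, ← hdense]
    have hv : ∀ b, v b ∈ Submodule.span 𝕜 (Set.range (Sum.elim x v')) := by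
      intro b
      refine Submodule.span_mono ?_ (hvs' b)
      rintro _ ⟨a, rfl⟩
      exact ⟨Sum.inr a, rfl⟩
    apply Submodule.topologicalClosure_mono
    apply sup_le
    · rw [Submodule.span_le]
      rintro _ ⟨j, rfl⟩
      simp only [xb]
      rcases e.symm j with i | i
      · exact Submodule.subset_span ⟨Sum.inl i, rfl⟩
      · exact hv (Sum.inr i)
    · rw [Submodule.span_le]
      rintro _ ⟨k, rfl⟩
      by_cases hk : y k = 0
      · rw [hk]; exact Submodule.zero_mem _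
      · exact hv (Sum.inl ⟨k, hk⟩)

theorem final (𝕜 : Type) [RCLike 𝕜] (E : Type) [NormedAddCommGroup E] [NormedSpace 𝕜 E]
      [CompleteSpace E] [TopologicalSpace.SeparableSpace E] (x : ℕ → E)
      (h : ∃ (C D : ℝ) (f : ℕ → (E →L[𝕜] 𝕜)),
        (∀ i j : ℕ, (i = j → f i (x j) = 1) ∧ (i ≠ j → f i (x j) = 0)) ∧
        (∀ n : ℕ, ‖x n‖ ≤ C ∧ ‖f n‖ ≤ D)) :
      ∃ (ι : Type) (_ : Countable ι) (y : ι → E) (C D : ℝ) (g : ℕ ⊕ ι → (E →L[𝕜] 𝕜)),
        (∀ i j : ℕ ⊕ ι, (i = j → g i (Sum.elim x y j) = 1) ∧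
            (i ≠ j → g i (Sum.elim x y j) = 0)) ∧
        (∀ i : ℕ ⊕ ι, ‖Sum.elim x y i‖ ≤ C ∧ ‖g i‖ ≤ D) ∧
        (Submodule.span 𝕜 (Set.range (Sum.elim x y))).topologicalClosure = ⊤ := by
  obtain ⟨C, D, f, hbi, hb⟩ := h
  have hbi' : ∀ i j, f i (x j) = if i = j then 1 else 0 := by
    intro i j
    by_cases h : i = j
    · rw [if_pos h, (hbi i j).1 h]
    · rw [if_neg h, (hbi i j).2 h]
  by_cases hfin : FiniteDimensional 𝕜 (E ⧸ (Submodule.span 𝕜 (Set.range x)).topologicalClosure)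
  · exact caseFin 𝕜 E x C D f hbi' (fun n => (hb n).1) (fun n => (hb n).2) hfin
  · exact caseInf 𝕜 E x C D f hbi' (fun n => (hb n).1) (fun n => (hb n).2) hfin

end Pool.Agent.Q195.BE
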