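import Mathlib

set_option autoImplicit false
set_option linter.unusedSectionVars false

/-! Banach lattices: basic definitions (lattice homomorphisms, quotient maps by closed ideals,
projectivity, topological order units) and elementary facts. -/

namespace Pool.Agent.Q195.BL

open Topology Filter

universe u v w

/-- Real Banach lattices, as a property of a type that carries a norm, a real vector space
structure and a lattice order. -/
class IsBanachLattice (X : Type u) [NormedAddCommGroup X] [NormedSpace ℝ X] [Lattice X] : Prop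
    extends HasSolidNorm X, IsOrderedAddMonoid X, CompleteSpace X where
  smul_nonneg : ∀ (c : ℝ) (x : X), 0 ≤ c → 0 ≤ x → 0 ≤ c • x

/-- Lattice homomorphisms (bounded linear maps preserving finite suprema). -/
def IsLatHom {X : Type u} {Y : Type v} [NormedAddCommGroup X] [NormedSpace ℝ X] [Lattice X]
    [NormedAddCommGroup Y] [NormedSpace ℝ Y] [Lattice Y] (T : X →L[ℝ] Y) : Prop :=
  ∀ x y, T (x ⊔ y) = T x ⊔ T y

/-- `Q : X → Y` is the quotient map of the Banach lattice `X` by the closed ideal `ker Q`: a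
surjective lattice homomorphism for which the norm of `Y` is the quotient norm. -/
structure IsQuot {X : Type u} {Y : Type v} [NormedAddCommGroup X] [NormedSpace ℝ X] [Lattice X]
    [NormedAddCommGroup Y] [NormedSpace ℝ Y] [Lattice Y] (Q : X →L[ℝ] Y) : Prop where
  hom : IsLatHom Q
  norm_le : ∀ x, ‖Q x‖ ≤ ‖x‖
  lift : ∀ y, ∀ ε : ℝ, 0 < ε → ∃ x, Q x = y ∧ ‖x‖ < ‖y‖ + ε

/-- (Isometrically, `1⁺`-) projective Banach lattices. -/
def Projective.{a, b} (P : Type b) [NormedAddCommGroup P] [NormedSpace ℝ P] [Lattice P] : Prop :=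
  ∀ (X Y : Type a) [NormedAddCommGroup X] [NormedSpace ℝ X] [Lattice X] [IsBanachLattice X]
    [NormedAddCommGroup Y] [NormedSpace ℝ Y] [Lattice Y] [IsBanachLattice Y]
    (Q : X →L[ℝ] Y), IsQuot Q → ∀ T : P →L[ℝ] Y, IsLatHom T → ∀ ε : ℝ, 0 < ε →
    ∃ S : P →L[ℝ] X, IsLatHom S ∧ (∀ p, Q (S p) = T p) ∧ ‖S‖ ≤ (1 + ε) * ‖T‖

/-- Closed ideals. -/
def IsClosedIdeal {X : Type u} [NormedAddCommGroup X] [NormedSpace ℝ X] [Lattice X]
    (J : Submodule ℝ X) : Prop :=
  IsClosed (J : Set X) ∧ ∀ x ∈ J, ∀ y, |y| ≤ |x| → y ∈ J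

/-- `X` has a topological order unit (a quasi-interior point). -/
def HasTopUnit (X : Type u) [NormedAddCommGroup X] [NormedSpace ℝ X] [Lattice X] : Prop :=
  ∃ e : X, 0 ≤ e ∧ ∀ J : Submodule ℝ X, IsClosedIdeal J → e ∈ J → J = ⊤

instance : IsBanachLattice ℝ where
  smul_nonneg c x hc hx := by simpa using mul_nonneg hc hx

section Basic

variable {X : Type u} [NormedAddCommGroup X] [NormedSpace ℝ X] [Lattice X] [IsBanachLattice X]
variable {Y : Type v} [NormedAddCommGroup Y] [NormedSpace ℝ Y] [Lattice Y] [IsBanachLattice Y]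

lemma smul_mono {c : ℝ} (hc : 0 ≤ c) {x y : X} (h : x ≤ y) : c • x ≤ c • y := by
  have := IsBanachLattice.smul_nonneg c (y - x) hc (sub_nonneg.mpr h)
  rw [smul_sub] at this
  exact sub_nonneg.mp this

instance : PosSMulMono ℝ X where
  smul_le_smul_of_nonneg_left _ hc _ _ h := smul_mono hc h

lemma smul_mono_left {c d : ℝ} (h : c ≤ d) {x : X} (hx : 0 ≤ x) : c • x ≤ d • x := by
  have := IsBanachLattice.smul_nonneg (d - c) x (sub_nonneg.mpr h) hx
  rw [sub_smul] at this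
  exact sub_nonneg.mp this

lemma smul_sup {c : ℝ} (hc : 0 ≤ c) (x y : X) : c • (x ⊔ y) = c • x ⊔ c • y := by
  rcases hc.eq_or_lt with rfl | hc'
  · simp
  refine le_antisymm ?_ (sup_le (smul_mono hc le_sup_left) (smul_mono hc le_sup_right))
  have h1 : x ⊔ y ≤ c⁻¹ • (c • x ⊔ c • y) := by
    refine sup_le ?_ ?_
    · have := smul_mono (X := X) (inv_nonneg.mpr hc) (le_sup_left : c • x ≤ c • x ⊔ c • y)
      rwa [smul_smul, inv_mul_cancel₀ hc'.ne', one_smul] at this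
    · have := smul_mono (X := X) (inv_nonneg.mpr hc) (le_sup_right : c • y ≤ c • x ⊔ c • y)
      rwa [smul_smul, inv_mul_cancel₀ hc'.ne', one_smul] at this
  have := smul_mono hc h1
  rwa [smul_smul, mul_inv_cancel₀ hc'.ne', one_smul] at this

lemma smul_inf {c : ℝ} (hc : 0 ≤ c) (x y : X) : c • (x ⊓ y) = c • x ⊓ c • y := by
  have h : ∀ a b : X, a ⊓ b = -(-a ⊔ -b) := fun a b => by rw [neg_sup, neg_neg, neg_neg]
  rw [h, h, smul_neg, smul_sup hc, smul_neg, smul_neg]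

lemma inf_add_le {a b c : X} (ha : 0 ≤ a) (hb : 0 ≤ b) (hc : 0 ≤ c) :
    a ⊓ (b + c) ≤ a ⊓ b + a ⊓ c := by
  set z := a ⊓ (b + c) with hz
  have h0 : 0 ≤ z := le_inf ha (add_nonneg hb hc)
  have h1 : z = z ⊓ b + ((z - b) ⊔ 0) := by
    have h2 : (z - b) ⊔ 0 = z ⊔ b - b := by rw [sup_sub, sub_self]
    have h3 := inf_add_sup z b
    rw [h2, ← add_sub_assoc, h3]; abel
  rw [h1]
  refine add_le_add (inf_le_inf_right _ inf_le_left) (le_inf ?_ ?_)
  · exact sup_le ((sub_le_self _ hb).trans inf_le_left) ha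
  · refine sup_le ?_ hc
    rw [sub_le_iff_le_add, add_comm]
    exact inf_le_right

lemma sub_sup_zero_of_inf {a b : X} (h : a ⊓ b = 0) : (a - b) ⊔ 0 = a := by
  have h2 : (a - b) ⊔ 0 = a ⊔ b - b := by rw [sup_sub, sub_self]
  have h3 := inf_add_sup a b
  rw [h, zero_add] at h3
  rw [h2, h3]; abel

lemma inf_smul_of_inf {a b : X} (ha : 0 ≤ a) (hb : 0 ≤ b) (h : a ⊓ b = 0) {c : ℝ} (hc : 0 ≤ c) :
    a ⊓ (c • b) = 0 := by
  refine le_antisymm ?_ (le_inf ha (IsBanachLattice.smul_nonneg _ _ hc hb))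
  have hd : (1 : ℝ) ≤ max 1 c := le_max_left _ _
  have h1 : a ≤ (max 1 c) • a := by
    have := smul_mono_left (X := X) hd ha
    rwa [one_smul] at this
  calc a ⊓ c • b ≤ (max 1 c) • a ⊓ (max 1 c) • b :=
        inf_le_inf h1 (smul_mono_left (le_max_right _ _) hb)
    _ = (max 1 c) • (a ⊓ b) := (smul_inf (by positivity) _ _).symm
    _ = 0 := by rw [h, smul_zero]

lemma inf_add_of_inf {a b c : X} (ha : 0 ≤ a) (hb : 0 ≤ b) (hc : 0 ≤ c) (h1 : a ⊓ b = 0)
    (h2 : a ⊓ c = 0) : a ⊓ (b + c) = 0 := by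
  refine le_antisymm ?_ (le_inf ha (add_nonneg hb hc))
  have := inf_add_le ha hb hc
  rwa [h1, h2, add_zero] at this

lemma inf_sum_of_inf {ι : Type*} {a : X} (ha : 0 ≤ a) (s : Finset ι) (b : ι → X)
    (hb : ∀ i ∈ s, 0 ≤ b i) (h : ∀ i ∈ s, a ⊓ b i = 0) : a ⊓ (∑ i ∈ s, b i) = 0 := by
  classical
  induction s using Finset.induction_on with
  | empty => simpa using ha
  | insert i s hi ih =>
    rw [Finset.sum_insert hi]
    refine inf_add_of_inf ha (hb i (Finset.mem_insert_self _ _))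
      (Finset.sum_nonneg fun j hj => hb j (Finset.mem_insert_of_mem hj))
      (h i (Finset.mem_insert_self _ _)) ?_
    exact ih (fun j hj => hb j (Finset.mem_insert_of_mem hj))
      (fun j hj => h j (Finset.mem_insert_of_mem hj))

lemma inf_eq_zero_of_le {a b a' b' : X} (ha : 0 ≤ a') (hb : 0 ≤ b') (h1 : a' ≤ a) (h2 : b' ≤ b)
    (h : a ⊓ b = 0) : a' ⊓ b' = 0 :=
  le_antisymm (h ▸ inf_le_inf h1 h2) (le_inf ha hb)

lemma isClosed_nonneg : IsClosed {x : X | 0 ≤ x} := by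
  have : {x : X | 0 ≤ x} = {x | x ⊔ 0 = x} := by
    ext x; exact ⟨fun h => sup_eq_left.mpr h, fun h => sup_eq_left.mp h⟩
  rw [this]
  exact isClosed_eq (continuous_id.sup continuous_const) continuous_id

lemma inf_eq_neg_sup (x y : X) : x ⊓ y = -(-x ⊔ -y) := by rw [neg_sup, neg_neg, neg_neg]

lemma latHom_inf {T : X →L[ℝ] Y} (h : IsLatHom T) (x y : X) : T (x ⊓ y) = T x ⊓ T y := by
  rw [inf_eq_neg_sup, map_neg, h, map_neg, map_neg, ← inf_eq_neg_sup]

lemma latHom_nonneg {T : X →L[ℝ] Y} (h : IsLatHom T) {x : X} (hx : 0 ≤ x) : 0 ≤ T x := by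
  have := h x 0
  rw [sup_eq_left.mpr hx, map_zero] at this
  rw [this]; exact le_sup_right

lemma latHom_mono {T : X →L[ℝ] Y} (h : IsLatHom T) {x y : X} (hx : x ≤ y) : T x ≤ T y := by
  have := latHom_nonneg h (sub_nonneg.mpr hx)
  rw [map_sub] at this
  exact sub_nonneg.mp this

lemma latHom_abs {T : X →L[ℝ] Y} (h : IsLatHom T) (x : X) : T |x| = |T x| := by
  rw [abs, abs, h, map_neg]

lemma latHom_of_pos {T : X →L[ℝ] Y} (h : ∀ x, T (x ⊔ 0) = T x ⊔ 0) : IsLatHom T := by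
  intro x y
  have e1 : x ⊔ y = (x - y) ⊔ 0 + y := by rw [sup_add]; simp
  have e2 : T x ⊔ T y = (T x - T y) ⊔ 0 + T y := by rw [sup_add]; simp
  rw [e1, e2, map_add, h, map_sub]

/-- a positive operator preserving disjointness is a lattice homomorphism -/
lemma latHom_of_disjoint {T : X →L[ℝ] Y}
    (hd : ∀ x y : X, 0 ≤ x → 0 ≤ y → x ⊓ y = 0 → T x ⊓ T y = 0) : IsLatHom T := by
  refine latHom_of_pos fun x => ?_
  have h1 : x = x ⊔ 0 - (-x) ⊔ 0 := (posPart_sub_negPart x).symm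
  have h2 : (x ⊔ 0) ⊓ ((-x) ⊔ 0) = 0 := posPart_inf_negPart_eq_zero x
  have h3 := hd _ _ le_sup_right le_sup_right h2
  have h4 : T x = T (x ⊔ 0) - T ((-x) ⊔ 0) := by
    conv_lhs => rw [h1]
    rw [map_sub]
  rw [h4, sub_sup_zero_of_inf h3]

lemma latHom_comp {Z : Type w} [NormedAddCommGroup Z] [NormedSpace ℝ Z] [Lattice Z]
    {T : X →L[ℝ] Y} {S : Y →L[ℝ] Z} (hS : IsLatHom S) (hT : IsLatHom T) :
    IsLatHom (S.comp T) := by
  intro x y
  rw [ContinuousLinearMap.comp_apply, hT, hS]; rfl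

/-- positive elements lift to positive elements with control of the norm -/
lemma IsQuot.lift_nonneg {Q : X →L[ℝ] Y} (hQ : IsQuot Q) {y : Y} (hy : 0 ≤ y) {ε : ℝ}
    (hε : 0 < ε) : ∃ x, 0 ≤ x ∧ Q x = y ∧ ‖x‖ < ‖y‖ + ε := by
  obtain ⟨x, hx, hn⟩ := hQ.lift y ε hε
  refine ⟨|x|, abs_nonneg _, ?_, by rwa [norm_abs_eq_norm]⟩
  rw [latHom_abs hQ.hom, hx, abs_of_nonneg hy]

end Basic

instance {X : Type u} {Y : Type v} [NormedAddCommGroup X] [NormedSpace ℝ X] [Lattice X]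
    [IsBanachLattice X] [NormedAddCommGroup Y] [NormedSpace ℝ Y] [Lattice Y]
    [IsBanachLattice Y] : IsBanachLattice (X × Y) where
  solid := fun x y h => by
    rw [Prod.norm_def, Prod.norm_def]
    exact max_le_max (norm_le_norm_of_abs_le_abs h.1) (norm_le_norm_of_abs_le_abs h.2)
  smul_nonneg := fun c x hc hx =>
    ⟨IsBanachLattice.smul_nonneg c x.1 hc hx.1, IsBanachLattice.smul_nonneg c x.2 hc hx.2⟩

end Pool.Agent.Q195.BL
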