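import Mathlib
import Pool.Agent.Q195.BL1

set_option autoImplicit false
set_option linter.unusedSectionVars false

/-! Banach lattices of functions on an index set, normed by a family of finitely supported
non-negative weights. -/

namespace Pool.Agent.Q195.BL

open Topology Filter

/-- the value of a weight at a function -/
noncomputable def val {ι : Type} (w : ι →₀ ℝ) (x : ι → ℝ) : ℝ := ∑ i ∈ w.support, w i * |x i|

/-- Data defining a Banach lattice of functions. -/
structure KData (ι : Type) where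
  W : Set (ι →₀ ℝ)
  nonneg : ∀ w ∈ W, ∀ i, 0 ≤ w i
  cover : ∀ i, ∃ w ∈ W, 0 < w i
  R : Submodule ℝ (ι → ℝ)
  sup_mem : ∀ x ∈ R, ∀ y ∈ R, x ⊔ y ∈ R
  closed : ∀ x : ι → ℝ, (∀ ε : ℝ, 0 < ε → ∃ y ∈ R, ∀ w ∈ W, val w (x - y) ≤ ε) → x ∈ R

section Val

variable {ι : Type} {w : ι →₀ ℝ} (hw : ∀ i, 0 ≤ w i)
include hw

lemma val_nonneg (x : ι → ℝ) : 0 ≤ val w x :=
  Finset.sum_nonneg fun i _ => mul_nonneg (hw i) (abs_nonneg _)

lemma val_mono {x y : ι → ℝ} (h : ∀ i, |x i| ≤ |y i|) : val w x ≤ val w y :=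
  Finset.sum_le_sum fun i _ => mul_le_mul_of_nonneg_left (h i) (hw i)

lemma val_add (x y : ι → ℝ) : val w (x + y) ≤ val w x + val w y := by
  unfold val
  rw [← Finset.sum_add_distrib]
  refine Finset.sum_le_sum fun i _ => ?_
  rw [← mul_add]
  exact mul_le_mul_of_nonneg_left (abs_add_le _ _) (hw i)

omit hw in
lemma val_smul (c : ℝ) (x : ι → ℝ) : val w (c • x) = |c| * val w x := by
  unfold val
  rw [Finset.mul_sum]
  refine Finset.sum_congr rfl fun i _ => ?_
  rw [Pi.smul_apply, smul_eq_mul, abs_mul]; ring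

omit hw in
lemma val_neg (x : ι → ℝ) : val w (-x) = val w x := by
  unfold val
  exact Finset.sum_congr rfl fun i _ => by rw [Pi.neg_apply, abs_neg]

omit hw in
lemma val_zero : val w (0 : ι → ℝ) = 0 := by
  unfold val
  exact Finset.sum_eq_zero fun i _ => by simp

omit hw in
lemma val_eq (x : ι → ℝ) (D : Finset ι) (h : ∀ i, w i ≠ 0 → i ∈ D) :
    val w x = ∑ i ∈ D, w i * |x i| := by
  unfold val
  refine Finset.sum_subset (fun i hi => h i (by simpa using hi)) fun i _ hi => ?_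
  have : w i = 0 := by simpa using hi
  rw [this, zero_mul]

lemma mul_abs_le_val (x : ι → ℝ) (i : ι) : w i * |x i| ≤ val w x := by
  classical
  rw [val_eq x (insert i w.support) (fun j hj => Finset.mem_insert_of_mem (by simpa using hj))]
  exact Finset.single_le_sum (f := fun i => w i * |x i|)
    (fun j _ => mul_nonneg (hw j) (abs_nonneg _)) (Finset.mem_insert_self _ _)

end Val

namespace KData

variable {ι : Type} (D : KData ι)

/-- the underlying vector space -/
def sub : Submodule ℝ (ι → ℝ) where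
  carrier := {x | x ∈ D.R ∧ ∃ C, ∀ w ∈ D.W, val w x ≤ C}
  zero_mem' := ⟨D.R.zero_mem, 0, fun w _ => by rw [val_zero]⟩
  add_mem' := by
    rintro x y ⟨hx, C, hC⟩ ⟨hy, C', hC'⟩
    exact ⟨D.R.add_mem hx hy, C + C', fun w hw =>
      (val_add (D.nonneg w hw) x y).trans (add_le_add (hC w hw) (hC' w hw))⟩
  smul_mem' := by
    rintro c x ⟨hx, C, hC⟩
    exact ⟨D.R.smul_mem c hx, |c| * C, fun w hw => by
      rw [val_smul]; exact mul_le_mul_of_nonneg_left (hC w hw) (abs_nonneg _)⟩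

/-- the Banach lattice -/
def Sp : Type := D.sub

instance : AddCommGroup D.Sp := inferInstanceAs (AddCommGroup D.sub)
instance : Module ℝ D.Sp := inferInstanceAs (Module ℝ D.sub)

/-- underlying function -/
def fn (x : D.Sp) : ι → ℝ := x.1

variable {D}

@[ext] lemma ext {x y : D.Sp} (h : ∀ i, D.fn x i = D.fn y i) : x = y := Subtype.ext (funext h)

@[simp] lemma fn_add (x y : D.Sp) (i : ι) : D.fn (x + y) i = D.fn x i + D.fn y i := rfl
@[simp] lemma fn_sub (x y : D.Sp) (i : ι) : D.fn (x - y) i = D.fn x i - D.fn y i := rfl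
@[simp] lemma fn_neg (x : D.Sp) (i : ι) : D.fn (-x) i = - D.fn x i := rfl
@[simp] lemma fn_zero (i : ι) : D.fn (0 : D.Sp) i = 0 := rfl
@[simp] lemma fn_smul (c : ℝ) (x : D.Sp) (i : ι) : D.fn (c • x) i = c * D.fn x i := rfl

variable (D)

lemma bdd (x : D.Sp) : BddAbove (Set.range fun w : D.W => val w.1 (D.fn x)) := by
  obtain ⟨_, C, hC⟩ := x.2
  exact ⟨C, by rintro _ ⟨w, rfl⟩; exact hC w.1 w.2⟩

noncomputable instance : Norm D.Sp := ⟨fun x => ⨆ w : D.W, val w.1 (D.fn x)⟩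

variable {D}

lemma norm_def (x : D.Sp) : ‖x‖ = ⨆ w : D.W, val w.1 (D.fn x) := rfl

lemma val_le_norm (x : D.Sp) {w : ι →₀ ℝ} (hw : w ∈ D.W) : val w (D.fn x) ≤ ‖x‖ :=
  le_ciSup (D.bdd x) ⟨w, hw⟩

lemma norm_le' (x : D.Sp) {C : ℝ} (hC : 0 ≤ C) (h : ∀ w ∈ D.W, val w (D.fn x) ≤ C) : ‖x‖ ≤ C :=
  Real.iSup_le (fun w => h w.1 w.2) hC

lemma norm_nonneg'' (x : D.Sp) : 0 ≤ ‖x‖ :=
  Real.iSup_nonneg fun w => val_nonneg (D.nonneg w.1 w.2) _

noncomputable instance : NormedAddCommGroup D.Sp :=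
  NormedAddCommGroup.ofCore (𝕜 := ℝ)
    { norm_nonneg := norm_nonneg''
      norm_smul := fun c x => by
        rw [norm_def, norm_def, Real.norm_eq_abs, Real.mul_iSup_of_nonneg (abs_nonneg c)]
        exact congrArg _ (funext fun w => val_smul c _)
      norm_triangle := fun x y => by
        refine norm_le' _ (add_nonneg (norm_nonneg'' _) (norm_nonneg'' _)) fun w hw => ?_
        exact (val_add (D.nonneg w hw) _ _).trans (add_le_add (val_le_norm x hw) (val_le_norm y hw))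
      norm_eq_zero_iff := fun x => by
        constructor
        · intro h
          ext i
          obtain ⟨w, hw, hi⟩ := D.cover i
          have h1 := (mul_abs_le_val (D.nonneg w hw) (D.fn x) i).trans (val_le_norm x hw)
          rw [h] at h1
          have h2 : |D.fn x i| ≤ 0 := by
            by_contra h3
            push Not at h3
            have := mul_pos hi h3
            linarith
          rw [fn_zero]
          exact abs_nonpos_iff.mp h2
        · rintro rfl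
          refine le_antisymm (norm_le' _ le_rfl fun w hw => ?_) (norm_nonneg'' _)
          have : D.fn (0 : D.Sp) = 0 := rfl
          rw [this, val_zero] }

noncomputable instance : NormedSpace ℝ D.Sp :=
  NormedSpace.ofCore (𝕜 := ℝ)
    { norm_nonneg := norm_nonneg''
      norm_smul := fun c x => by
        rw [norm_def, norm_def, Real.norm_eq_abs, Real.mul_iSup_of_nonneg (abs_nonneg c)]
        exact congrArg _ (funext fun w => val_smul c _)
      norm_triangle := fun x y => norm_add_le x y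
      norm_eq_zero_iff := fun x => norm_eq_zero }

/-- building elements -/
def el (x : ι → ℝ) (h1 : x ∈ D.R) (h2 : ∃ C, ∀ w ∈ D.W, val w x ≤ C) : D.Sp := ⟨x, h1, h2⟩

@[simp] lemma fn_el (x : ι → ℝ) (h1 : x ∈ D.R) (h2) : D.fn (el x h1 h2) = x := rfl

lemma inf_mem (x : ι → ℝ) (hx : x ∈ D.R) (y : ι → ℝ) (hy : y ∈ D.R) : x ⊓ y ∈ D.R := by
  have : x ⊓ y = -(-x ⊔ -y) := by rw [neg_sup, neg_neg, neg_neg]
  rw [this]
  exact D.R.neg_mem (D.sup_mem _ (D.R.neg_mem hx) _ (D.R.neg_mem hy))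

lemma bound_of (x y : D.Sp) (f : ι → ℝ) (h : ∀ i, |f i| ≤ |D.fn x i| + |D.fn y i|) :
    ∃ C, ∀ w ∈ D.W, val w f ≤ C := by
  refine ⟨‖x‖ + ‖y‖, fun w hw => ?_⟩
  refine le_trans ?_ (add_le_add (val_le_norm x hw) (val_le_norm y hw))
  unfold val
  rw [← Finset.sum_add_distrib]
  refine Finset.sum_le_sum fun i _ => ?_
  rw [← mul_add]
  exact mul_le_mul_of_nonneg_left (h i) (D.nonneg w hw i)

lemma sup_abs_le (a b : ℝ) : |a ⊔ b| ≤ |a| + |b| := by
  rcases le_total a b with h | h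
  · rw [sup_eq_right.mpr h]; linarith [abs_nonneg a]
  · rw [sup_eq_left.mpr h]; linarith [abs_nonneg b]

lemma inf_abs_le (a b : ℝ) : |a ⊓ b| ≤ |a| + |b| := by
  rcases le_total a b with h | h
  · rw [inf_eq_left.mpr h]; linarith [abs_nonneg b]
  · rw [inf_eq_right.mpr h]; linarith [abs_nonneg a]

instance : Max D.Sp := ⟨fun x y => ⟨D.fn x ⊔ D.fn y, D.sup_mem _ x.2.1 _ y.2.1,
  bound_of x y _ fun _ => sup_abs_le _ _⟩⟩
instance : Min D.Sp := ⟨fun x y => ⟨D.fn x ⊓ D.fn y, inf_mem _ x.2.1 _ y.2.1,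
  bound_of x y _ fun _ => inf_abs_le _ _⟩⟩
instance : LE D.Sp := ⟨fun x y => D.fn x ≤ D.fn y⟩
instance : LT D.Sp := ⟨fun x y => D.fn x < D.fn y⟩

instance : Lattice D.Sp :=
  Function.Injective.lattice D.fn Subtype.val_injective Iff.rfl Iff.rfl (fun _ _ => rfl)
    (fun _ _ => rfl)

@[simp] lemma fn_sup (x y : D.Sp) (i : ι) : D.fn (x ⊔ y) i = D.fn x i ⊔ D.fn y i := rfl
@[simp] lemma fn_inf (x y : D.Sp) (i : ι) : D.fn (x ⊓ y) i = D.fn x i ⊓ D.fn y i := rfl
@[simp] lemma fn_abs (x : D.Sp) (i : ι) : D.fn |x| i = |D.fn x i| := rfl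
lemma le_iff (x y : D.Sp) : x ≤ y ↔ ∀ i, D.fn x i ≤ D.fn y i := Iff.rfl

lemma norm_mono {x y : D.Sp} (h : ∀ i, |D.fn x i| ≤ |D.fn y i|) : ‖x‖ ≤ ‖y‖ :=
  norm_le' _ (norm_nonneg _) fun w hw => (val_mono (D.nonneg w hw) h).trans (val_le_norm y hw)

lemma tendsto_val {w : ι →₀ ℝ} (y : ι → ℝ) (x : ℕ → ι → ℝ) (a : ι → ℝ)
    (h : ∀ i, Tendsto (fun n => x n i) atTop (𝓝 (a i))) :
    Tendsto (fun n => val w (y - x n)) atTop (𝓝 (val w (y - a))) := by
  unfold val
  refine tendsto_finsetSum _ fun i _ => ?_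
  exact ((((h i).const_sub (y i)).abs).const_mul (w i))

instance : CompleteSpace D.Sp := by
  refine Metric.complete_of_cauchySeq_tendsto fun x hx => ?_
  have hc : ∀ i, ∃ a, Tendsto (fun n => D.fn (x n) i) atTop (𝓝 a) := by
    intro i
    obtain ⟨w, hw, hi⟩ := D.cover i
    refine cauchySeq_tendsto_of_complete ?_
    rw [Metric.cauchySeq_iff] at hx ⊢
    intro ε hε
    obtain ⟨N, hN⟩ := hx (w i * ε) (mul_pos hi hε)
    refine ⟨N, fun m hm n hn => ?_⟩
    have h1 := hN m hm n hn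
    rw [dist_eq_norm] at h1
    have h2 := (mul_abs_le_val (D.nonneg w hw) (D.fn (x m - x n)) i).trans (val_le_norm _ hw)
    have h3 := lt_of_mul_lt_mul_left (h2.trans_lt h1) hi.le
    rwa [Real.dist_eq, ← fn_sub]
  choose a ha using hc
  have key : ∀ ε : ℝ, 0 < ε → ∃ N, ∀ n ≥ N, ∀ w ∈ D.W, val w (D.fn (x n) - a) ≤ ε := by
    intro ε hε
    obtain ⟨N, hN⟩ := (Metric.cauchySeq_iff.mp hx) ε hε
    refine ⟨N, fun n hn w hw => ?_⟩
    refine le_of_tendsto (tendsto_val (D.fn (x n)) (fun m => D.fn (x m)) a ha) ?_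
    filter_upwards [eventually_ge_atTop N] with m hm
    have h1 := hN n hn m hm
    rw [dist_eq_norm] at h1
    exact (val_le_norm (x n - x m) hw).trans h1.le
  have hneg : ∀ w (y z : ι → ℝ), val w (y - z) = val w (z - y) := by
    intro w y z
    rw [← val_neg, neg_sub]
  have haR : a ∈ D.R := by
    refine D.closed a fun ε hε => ?_
    obtain ⟨N, hN⟩ := key ε hε
    exact ⟨D.fn (x N), (x N).2.1, fun w hw => by rw [hneg]; exact hN N le_rfl w hw⟩
  obtain ⟨N, hN⟩ := key 1 one_pos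
  have hab : ∃ C, ∀ w ∈ D.W, val w a ≤ C := by
    refine ⟨‖x N‖ + 1, fun w hw => ?_⟩
    have h1 : a = D.fn (x N) + (a - D.fn (x N)) := by abel
    rw [h1]
    refine (val_add (D.nonneg w hw) _ _).trans (add_le_add (val_le_norm _ hw) ?_)
    rw [hneg]; exact hN N le_rfl w hw
  refine ⟨el a haR hab, ?_⟩
  rw [Metric.tendsto_atTop]
  intro ε hε
  obtain ⟨N, hN⟩ := key (ε / 2) (half_pos hε)
  refine ⟨N, fun n hn => ?_⟩
  rw [dist_eq_norm]
  refine (norm_le' (x n - el a haR hab) (half_pos hε).le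
    fun w hw => hN n hn w hw).trans_lt (half_lt_self hε)

instance : IsBanachLattice D.Sp where
  solid := fun x y h => norm_mono h
  add_le_add_left := fun x y h z i => by
    show D.fn x i + D.fn z i ≤ D.fn y i + D.fn z i
    linarith [h i]
  smul_nonneg := fun c x hc hx i => mul_nonneg hc (hx i)

end KData

end Pool.Agent.Q195.BL
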