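import Mathlib
import Pool.Agent.Q195.BL2

set_option autoImplicit false
set_option linter.unusedSectionVars false

/-! Lifting disjoint sequences; operators on `ℓ₁`-like Banach lattices; `ℝ` is projective. -/

namespace Pool.Agent.Q195.BL

open Topology Filter

universe u v w

section Lift

variable {X : Type u} [NormedAddCommGroup X] [NormedSpace ℝ X] [Lattice X] [IsBanachLattice X]
variable {Y : Type v} [NormedAddCommGroup Y] [NormedSpace ℝ Y] [Lattice Y] [IsBanachLattice Y]

noncomputable def lam (x : ℕ → X) (i j : ℕ) : ℝ :=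
  if i < j then (1 / 2) ^ j / (1 + ‖x j‖) else 2 ^ i * (1 + ‖x i‖)

lemma lam_pos (x : ℕ → X) (i j : ℕ) : 0 < lam x i j := by
  unfold lam
  have := norm_nonneg (x i)
  have := norm_nonneg (x j)
  split_ifs <;> positivity

lemma lam_mul (x : ℕ → X) {i j : ℕ} (h : i < j) : lam x j i * lam x i j = 1 := by
  unfold lam
  rw [if_pos h, if_neg (by omega)]
  have : (1 + ‖x j‖) ≠ 0 := by have := norm_nonneg (x j); positivity
  field_simp
  rw [← mul_pow]; norm_num

/-- Countable disjoint families lift to disjoint families. -/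
theorem lift_disjoint {Q : X →L[ℝ] Y} (hQ : IsLatHom Q) (y : ℕ → Y)
    (hd : ∀ i j, i ≠ j → y i ⊓ y j = 0) (x : ℕ → X) (hx : ∀ i, 0 ≤ x i)
    (hxy : ∀ i, Q (x i) = y i) :
    ∃ x' : ℕ → X, (∀ i, 0 ≤ x' i) ∧ (∀ i, x' i ≤ x i) ∧ (∀ i, Q (x' i) = y i) ∧
      ∀ i j, i ≠ j → x' i ⊓ x' j = 0 := by
  classical
  have hy : ∀ i, 0 ≤ y i := fun i => by rw [← hxy]; exact latHom_nonneg hQ (hx i)
  let f : ℕ → ℕ → X := fun i j => if j = i then 0 else lam x i j • x j
  have hf0 : ∀ i j, 0 ≤ f i j := by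
    intro i j
    simp only [f]
    split_ifs
    · exact le_rfl
    · exact IsBanachLattice.smul_nonneg _ _ (lam_pos x i j).le (hx j)
  have hsum : ∀ i, Summable (f i) := by
    intro i
    refine Summable.of_norm_bounded_eventually_nat (g := fun j => (1 / 2 : ℝ) ^ j)
      (summable_geometric_of_lt_one (by norm_num) (by norm_num)) ?_
    filter_upwards [eventually_gt_atTop i] with j hj
    simp only [f]
    rw [if_neg (by omega), norm_smul, Real.norm_eq_abs, abs_of_pos (lam_pos x i j)]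
    unfold lam
    rw [if_pos hj, div_mul_eq_mul_div, div_le_iff₀ (by have := norm_nonneg (x j); positivity)]
    refine mul_le_mul_of_nonneg_left ?_ (by positivity)
    linarith [norm_nonneg (x j)]
  let z : ℕ → X := fun i => ∑' j, f i j
  have hle : ∀ i j, f i j ≤ z i := fun i j => (hsum i).le_tsum j fun k _ => hf0 i k
  have hz0 : ∀ i, 0 ≤ z i := fun i => (hf0 i 0).trans (hle i 0)
  refine ⟨fun i => (x i - z i) ⊔ 0, fun i => le_sup_right, fun i => ?_, fun i => ?_, ?_⟩
  · exact sup_le (sub_le_self _ (hz0 i)) (hx i)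
  · rw [hQ, map_sub, map_zero, hxy]
    refine sub_sup_zero_of_inf ?_
    have h1 : HasSum (fun j => Q (f i j)) (Q (z i)) := Q.hasSum (hsum i).hasSum
    have h2 : Tendsto (fun s : Finset ℕ => y i ⊓ ∑ j ∈ s, Q (f i j)) atTop
        (𝓝 (y i ⊓ Q (z i))) := tendsto_const_nhds.inf_nhds h1
    refine tendsto_nhds_unique h2 ?_
    refine (tendsto_const_nhds (x := (0 : Y))).congr fun s => ?_
    refine (inf_sum_of_inf (hy i) s _ (fun j _ => latHom_nonneg hQ (hf0 i j)) fun j _ => ?_).symm
    simp only [f]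
    split_ifs with hji
    · rw [map_zero]; exact inf_eq_right.mpr (hy i)
    · rw [map_smul, hxy]
      exact inf_smul_of_inf (hy i) (hy j) (hd i j (Ne.symm hji)) (lam_pos x i j).le
  · have main : ∀ i j, i < j → ((x i - z i) ⊔ 0) ⊓ ((x j - z j) ⊔ 0) = 0 := by
      intro i j hij
      have h1 : (x i - z i) ⊔ 0 ≤ (x i - lam x i j • x j) ⊔ 0 := by
        refine sup_le_sup_right (sub_le_sub_left ?_ _) _
        have := hle i j
        simp only [f] at this
        rwa [if_neg (by omega)] at this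
      have h2 : (x j - z j) ⊔ 0 ≤ (x j - lam x j i • x i) ⊔ 0 := by
        refine sup_le_sup_right (sub_le_sub_left ?_ _) _
        have := hle j i
        simp only [f] at this
        rwa [if_neg (by omega)] at this
      refine inf_eq_zero_of_le le_sup_right le_sup_right h1 h2 ?_
      have h3 : (x j - lam x j i • x i) ⊔ 0 =
          lam x j i • ((-(x i - lam x i j • x j)) ⊔ 0) := by
        rw [smul_sup (lam_pos x j i).le, smul_zero, neg_sub, smul_sub, smul_smul,
          lam_mul x hij, one_smul]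
      rw [h3]
      refine inf_smul_of_inf le_sup_right le_sup_right ?_ (lam_pos x j i).le
      exact posPart_inf_negPart_eq_zero _
    intro i j hij
    rcases lt_or_gt_of_ne hij with h | h
    · exact main i j h
    · rw [inf_comm]; exact main j i h

end Lift

section Real

/-- `ℝ` is a projective Banach lattice. -/
theorem projective_real : Projective.{u, 0} ℝ := by
  intro X Y _ _ _ _ _ _ _ _ Q hQ T hT ε hε
  rcases eq_or_ne T 0 with rfl | hT0
  · exact ⟨0, fun x y => by simp, fun p => by simp, by simp⟩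
  have hTp : 0 < ‖T‖ := norm_pos_iff.mpr hT0
  have hy : 0 ≤ T 1 := latHom_nonneg hT zero_le_one
  obtain ⟨x, hx0, hx, hn⟩ := hQ.lift_nonneg hy (mul_pos hε hTp)
  refine ⟨ContinuousLinearMap.toSpanSingleton ℝ x, ?_, ?_, ?_⟩
  · intro r s
    simp only [ContinuousLinearMap.toSpanSingleton_apply]
    rcases le_total r s with h | h
    · rw [sup_eq_right.mpr h, sup_eq_right.mpr (smul_mono_left h hx0)]
    · rw [sup_eq_left.mpr h, sup_eq_left.mpr (smul_mono_left h hx0)]
  · intro p
    rw [ContinuousLinearMap.toSpanSingleton_apply, map_smul, hx, ← map_smul]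
    simp
  · refine ContinuousLinearMap.opNorm_le_bound _ (by positivity) fun r => ?_
    rw [ContinuousLinearMap.toSpanSingleton_apply, norm_smul, mul_comm]
    refine mul_le_mul_of_nonneg_right ?_ (norm_nonneg _)
    have h1 : ‖T 1‖ ≤ ‖T‖ := by simpa using T.le_opNorm 1
    linarith

theorem hasTopUnit_real : HasTopUnit ℝ := by
  refine ⟨1, zero_le_one, fun J _ h1 => ?_⟩
  rw [Submodule.eq_top_iff']
  intro x
  simpa using J.smul_mem x h1

end Real

/-- `ℓ₁`-like function lattices on `ℕ`. -/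
structure L1Like (D : KData ℕ) (C : ℝ) : Prop where
  R_top : D.R = ⊤
  le_one : ∀ w ∈ D.W, ∀ i, w i ≤ 1
  sum_le : ∀ (x : D.Sp) (m : ℕ), ∑ i ∈ Finset.range m, |D.fn x i| ≤ C * ‖x‖

namespace L1Like

variable {D : KData ℕ} {C : ℝ} (H : L1Like D C)
include H

lemma C_nonneg : 0 ≤ C := by
  by_contra h
  push Not at h
  have h1 : ∃ C, ∀ w ∈ D.W, val w (Pi.single 0 (1 : ℝ) : ℕ → ℝ) ≤ C := by
    refine ⟨1, fun w hw => ?_⟩
    rw [val_eq _ (insert 0 w.support) (fun i hi => by simp [hi])]
    rw [Finset.sum_eq_single 0]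
    · simpa using H.le_one w hw 0
    · intro j _ hj; simp [hj]
    · simp
  let e : D.Sp := KData.el (Pi.single 0 1) (by rw [H.R_top]; trivial) h1
  have h2 := H.sum_le e 1
  have h3 : (1 : ℝ) ≤ ∑ i ∈ Finset.range 1, |D.fn e i| := by simp [e]
  have h4 : C * ‖e‖ ≤ 0 := mul_nonpos_of_nonpos_of_nonneg h.le (norm_nonneg _)
  linarith

lemma summable (x : D.Sp) : Summable fun i => |D.fn x i| :=
  summable_of_sum_range_le (fun _ => abs_nonneg _) (H.sum_le x)

lemma tsum_le (x : D.Sp) : ∑' i, |D.fn x i| ≤ C * ‖x‖ :=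
  (H.summable x).tsum_le_of_sum_range_le (H.sum_le x)

omit H in
lemma val_le_tsum {w : ℕ →₀ ℝ} (h : ∀ i, w i ≤ 1) (x : ℕ → ℝ)
    (hx : Summable fun i => |x i|) : val w x ≤ ∑' i, |x i| := by
  unfold val
  refine le_trans ?_ (hx.sum_le_tsum w.support fun i _ => abs_nonneg _)
  refine Finset.sum_le_sum fun i _ => ?_
  exact mul_le_of_le_one_left (abs_nonneg _) (h i)

lemma bound (x : ℕ → ℝ) (hx : Summable fun i => |x i|) : ∃ C, ∀ w ∈ D.W, val w x ≤ C :=
  ⟨_, fun w hw => val_le_tsum (H.le_one w hw) x hx⟩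

/-- the element with given summable coordinates -/
def el (x : ℕ → ℝ) (hx : Summable fun i => |x i|) : D.Sp :=
  KData.el x (by rw [H.R_top]; trivial) (H.bound x hx)

@[simp] lemma fn_el (x : ℕ → ℝ) (hx : Summable fun i => |x i|) : D.fn (H.el x hx) = x := rfl

lemma norm_le_tsum (x : D.Sp) : ‖x‖ ≤ ∑' i, |D.fn x i| :=
  KData.norm_le' _ (tsum_nonneg fun _ => abs_nonneg _) fun w hw =>
    val_le_tsum (H.le_one w hw) _ (H.summable x)

lemma summable_single (i : ℕ) : Summable fun j => |(Pi.single i (1 : ℝ) : ℕ → ℝ) j| := by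
  refine summable_of_ne_finset_zero (s := {i}) fun j hj => ?_
  have : j ≠ i := by simpa using hj
  simp [this]

/-- unit vectors -/
noncomputable def e (i : ℕ) : D.Sp := H.el (Pi.single i 1) (H.summable_single i)

lemma fn_e (i j : ℕ) : D.fn (H.e i) j = if j = i then 1 else 0 := by
  show (Pi.single i (1 : ℝ) : ℕ → ℝ) j = _
  rw [Pi.single_apply]

lemma e_nonneg (i : ℕ) : 0 ≤ H.e i := fun j => by
  show (0 : ℝ) ≤ D.fn (H.e i) j
  rw [fn_e]; split_ifs <;> norm_num

lemma norm_e_le (i : ℕ) : ‖H.e i‖ ≤ 1 := by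
  refine (H.norm_le_tsum _).trans ?_
  rw [tsum_eq_single i]
  · rw [fn_e]; simp
  · intro j hj; rw [fn_e, if_neg hj]; simp

lemma e_inf (i j : ℕ) (h : i ≠ j) : H.e i ⊓ H.e j = 0 := by
  ext k
  rw [KData.fn_inf, fn_e, fn_e, KData.fn_zero]
  by_cases h1 : k = i
  · rw [if_pos h1, if_neg (by rw [h1]; exact h)]; norm_num
  · rw [if_neg h1]
    split_ifs <;> norm_num

lemma fn_sum {ι : Type*} (s : Finset ι) (f : ι → D.Sp) (k : ℕ) :
    D.fn (∑ i ∈ s, f i) k = ∑ i ∈ s, D.fn (f i) k := by
  classical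
  induction s using Finset.induction_on with
  | empty => simp
  | insert i s hi ih => rw [Finset.sum_insert hi, KData.fn_add, ih, Finset.sum_insert hi]

lemma hasSum_e (x : D.Sp) : HasSum (fun i => D.fn x i • H.e i) x := by
  have hs : Summable fun i => D.fn x i • H.e i := by
    refine Summable.of_norm_bounded (g := fun i => |D.fn x i|) (H.summable x) fun i => ?_
    rw [norm_smul, Real.norm_eq_abs]
    exact mul_le_of_le_one_right (abs_nonneg _) (H.norm_e_le i)
  have h1 : Tendsto (fun n => ∑ i ∈ Finset.range n, D.fn x i • H.e i) atTop (𝓝 x) := by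
    rw [tendsto_iff_norm_sub_tendsto_zero]
    have h2 : Tendsto (fun n => ∑' i, |D.fn x (i + n)|) atTop (𝓝 0) :=
      tendsto_sum_nat_add fun i => |D.fn x i|
    refine squeeze_zero (fun _ => norm_nonneg _) (fun n => ?_) h2
    refine (H.norm_le_tsum _).trans ?_
    have h3 : ∀ k, D.fn (∑ i ∈ Finset.range n, D.fn x i • H.e i - x) k =
        if k < n then 0 else - D.fn x k := by
      intro k
      rw [KData.fn_sub, H.fn_sum]
      have : ∀ i, D.fn (D.fn x i • H.e i) k = if k = i then D.fn x i else 0 := by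
        intro i
        rw [KData.fn_smul, fn_e]; split_ifs <;> simp
      simp only [this]
      rw [Finset.sum_ite_eq]
      simp only [Finset.mem_range]
      split_ifs <;> simp
    have h4 : (fun k => |D.fn (∑ i ∈ Finset.range n, D.fn x i • H.e i - x) k|) =
        fun k => if k < n then 0 else |D.fn x k| := by
      funext k
      rw [h3]; split_ifs <;> simp
    rw [h4]
    have h5 : Summable fun k => if k < n then 0 else |D.fn x k| := by
      refine Summable.of_nonneg_of_le (fun k => ?_) (fun k => ?_) (H.summable x)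
      · split_ifs
        · exact le_rfl
        · exact abs_nonneg _
      · split_ifs
        · exact abs_nonneg _
        · exact le_rfl
    rw [← h5.sum_add_tsum_nat_add n]
    have h6 : ∑ i ∈ Finset.range n, (if i < n then 0 else |D.fn x i|) = 0 :=
      Finset.sum_eq_zero fun i hi => if_pos (Finset.mem_range.mp hi)
    rw [h6, zero_add]
    refine le_of_eq (tsum_congr fun i => if_neg (by omega))
  have h2 := hs.hasSum.tendsto_sum_nat
  have h3 := tendsto_nhds_unique h1 h2
  have h4 := hs.hasSum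
  rwa [← h3] at h4

variable {X : Type u} [NormedAddCommGroup X] [NormedSpace ℝ X] [Lattice X] [IsBanachLattice X]
variable {Y : Type v} [NormedAddCommGroup Y] [NormedSpace ℝ Y] [Lattice Y] [IsBanachLattice Y]

lemma summable_smul (a : ℕ → X) {M : ℝ} (ha : ∀ i, ‖a i‖ ≤ M) (x : D.Sp) :
    Summable fun i => D.fn x i • a i := by
  refine Summable.of_norm_bounded (g := fun i => |D.fn x i| * M) ((H.summable x).mul_right M)
    fun i => ?_
  rw [norm_smul, Real.norm_eq_abs]
  exact mul_le_mul_of_nonneg_left (ha i) (abs_nonneg _)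

/-- the operator sending `e i` to `a i` -/
noncomputable def op (a : ℕ → X) (M : ℝ) (ha : ∀ i, ‖a i‖ ≤ M) : D.Sp →L[ℝ] X :=
  LinearMap.mkContinuous
    { toFun := fun x => ∑' i, D.fn x i • a i
      map_add' := fun x y => by
        rw [← (H.summable_smul a ha x).tsum_add (H.summable_smul a ha y)]
        exact tsum_congr fun i => by rw [KData.fn_add, add_smul]
      map_smul' := fun c x => by
        rw [RingHom.id_apply, ← (H.summable_smul a ha x).tsum_const_smul]
        exact tsum_congr fun i => by rw [KData.fn_smul, mul_smul] }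
    (C * M) (fun x => by
      have hM : 0 ≤ M := (norm_nonneg _).trans (ha 0)
      have h1 : ‖∑' i, D.fn x i • a i‖ ≤ ∑' i, |D.fn x i| * M := by
        refine tsum_of_norm_bounded ((H.summable x).mul_right M).hasSum fun i => ?_
        rw [norm_smul, Real.norm_eq_abs]
        exact mul_le_mul_of_nonneg_left (ha i) (abs_nonneg _)
      refine h1.trans ?_
      rw [tsum_mul_right]
      have := mul_le_mul_of_nonneg_right (H.tsum_le x) hM
      linarith)

lemma op_apply (a : ℕ → X) (M : ℝ) (ha : ∀ i, ‖a i‖ ≤ M) (x : D.Sp) :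
    H.op a M ha x = ∑' i, D.fn x i • a i := rfl

lemma op_hasSum (a : ℕ → X) (M : ℝ) (ha : ∀ i, ‖a i‖ ≤ M) (x : D.Sp) :
    HasSum (fun i => D.fn x i • a i) (H.op a M ha x) := (H.summable_smul a ha x).hasSum

lemma op_latHom (a : ℕ → X) (M : ℝ) (ha : ∀ i, ‖a i‖ ≤ M) (h0 : ∀ i, 0 ≤ a i)
    (hd : ∀ i j, i ≠ j → a i ⊓ a j = 0) : IsLatHom (H.op a M ha) := by
  refine latHom_of_disjoint fun x y hx hy hxy => ?_
  have hx' : ∀ i, 0 ≤ D.fn x i := hx
  have hy' : ∀ i, 0 ≤ D.fn y i := hy
  have hxy' : ∀ i, D.fn x i ⊓ D.fn y i = 0 := fun i => by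
    rw [← KData.fn_inf, hxy, KData.fn_zero]
  have hfin : ∀ s t : Finset ℕ, (∑ i ∈ s, D.fn x i • a i) ⊓ (∑ j ∈ t, D.fn y j • a j) = 0 := by
    intro s t
    refine inf_sum_of_inf (Finset.sum_nonneg fun i _ =>
      IsBanachLattice.smul_nonneg _ _ (hx' i) (h0 i)) t _
      (fun j _ => IsBanachLattice.smul_nonneg _ _ (hy' j) (h0 j)) fun j _ => ?_
    rw [inf_comm]
    refine inf_sum_of_inf (IsBanachLattice.smul_nonneg _ _ (hy' j) (h0 j)) s _
      (fun i _ => IsBanachLattice.smul_nonneg _ _ (hx' i) (h0 i)) fun i _ => ?_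
    by_cases hij : i = j
    · subst hij
      rcases le_total (D.fn x i) (D.fn y i) with h | h
      · have : D.fn x i = 0 := by rw [← hxy' i, inf_eq_left.mpr h]
        rw [this, zero_smul]
        exact inf_eq_right.mpr (IsBanachLattice.smul_nonneg _ _ (hy' i) (h0 i))
      · have : D.fn y i = 0 := by rw [← hxy' i, inf_eq_right.mpr h]
        rw [this, zero_smul]
        exact inf_eq_left.mpr (IsBanachLattice.smul_nonneg _ _ (hx' i) (h0 i))
    · refine inf_smul_of_inf (IsBanachLattice.smul_nonneg _ _ (hy' j) (h0 j)) (h0 i) ?_ (hx' i)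
      rw [inf_comm]
      refine inf_smul_of_inf (h0 i) (h0 j) (hd i j hij) (hy' j)
  have h1 := H.op_hasSum a M ha x
  have h2 := H.op_hasSum a M ha y
  have h3 : ∀ s : Finset ℕ, (∑ i ∈ s, D.fn x i • a i) ⊓ H.op a M ha y = 0 := by
    intro s
    have h4 : Tendsto (fun t : Finset ℕ => (∑ i ∈ s, D.fn x i • a i) ⊓ ∑ j ∈ t, D.fn y j • a j)
        atTop (𝓝 ((∑ i ∈ s, D.fn x i • a i) ⊓ H.op a M ha y)) := tendsto_const_nhds.inf_nhds h2
    exact tendsto_nhds_unique h4 ((tendsto_const_nhds (x := (0 : X))).congr fun t =>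
      (hfin s t).symm)
  have h5 : Tendsto (fun s : Finset ℕ => (∑ i ∈ s, D.fn x i • a i) ⊓ H.op a M ha y)
      atTop (𝓝 (H.op a M ha x ⊓ H.op a M ha y)) := h1.inf_nhds tendsto_const_nhds
  exact tendsto_nhds_unique h5 ((tendsto_const_nhds (x := (0 : X))).congr fun t => (h3 t).symm)

lemma apply_eq_tsum (T : D.Sp →L[ℝ] Y) (x : D.Sp) :
    HasSum (fun i => D.fn x i • T (H.e i)) (T x) := by
  have := T.hasSum (H.hasSum_e x)
  simpa using this

lemma op_lift {Q : X →L[ℝ] Y} (T : D.Sp →L[ℝ] Y) (a : ℕ → X) (M : ℝ) (ha : ∀ i, ‖a i‖ ≤ M)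
    (h : ∀ i, Q (a i) = T (H.e i)) (x : D.Sp) : Q (H.op a M ha x) = T x := by
  have h1 := Q.hasSum (H.op_hasSum a M ha x)
  have h2 := H.apply_eq_tsum T x
  refine h1.unique ?_
  convert h2 using 2 with i
  rw [map_smul, h]

lemma hasTopUnit : HasTopUnit D.Sp := by
  have hs : Summable fun i => |((1 / 2 : ℝ)) ^ i| := by
    simp only [abs_pow]
    exact summable_geometric_of_lt_one (abs_nonneg _) (by norm_num [abs_lt])
  refine ⟨H.el (fun i => (1 / 2) ^ i) hs, fun i => ?_, fun J hJ hu => ?_⟩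
  · show (0 : ℝ) ≤ (1 / 2) ^ i
    positivity
  · have he : ∀ i, H.e i ∈ J := by
      intro i
      refine hJ.2 _ (J.smul_mem ((2 : ℝ) ^ i) hu) _ fun k => ?_
      rw [KData.fn_abs, KData.fn_abs, fn_e, KData.fn_smul, fn_el]
      split_ifs with h
      · subst h
        rw [← mul_pow]; norm_num
      · rw [abs_zero]; exact abs_nonneg _
    rw [Submodule.eq_top_iff']
    intro x
    have h1 := (H.hasSum_e x).tendsto_sum_nat
    refine hJ.1.mem_of_tendsto h1 (Eventually.of_forall fun n => ?_)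
    exact J.sum_mem fun i _ => J.smul_mem _ (he i)

end L1Like

/-- the data of `ℓ₁` -/
def dL1 : KData ℕ where
  W := {w | ∃ m : ℕ, w = ∑ i ∈ Finset.range m, Finsupp.single i (1 : ℝ)}
  nonneg := by
    rintro _ ⟨m, rfl⟩ i
    rw [Finsupp.finsetSum_apply]
    exact Finset.sum_nonneg fun j _ => by
      rw [Finsupp.single_apply]; split_ifs <;> norm_num
  cover := fun i => ⟨_, ⟨i + 1, rfl⟩, by
    rw [Finsupp.finsetSum_apply]
    simp only [Finsupp.single_apply]
    rw [Finset.sum_ite_eq']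
    simp⟩
  R := ⊤
  sup_mem := fun _ _ _ _ => trivial
  closed := fun _ _ => trivial

lemma w_apply (m i : ℕ) : (∑ j ∈ Finset.range m, Finsupp.single j (1 : ℝ)) i =
    if i < m then 1 else 0 := by
  rw [Finsupp.finsetSum_apply]
  simp only [Finsupp.single_apply]
  rw [Finset.sum_ite_eq']
  simp

lemma val_range (m : ℕ) (x : ℕ → ℝ) : val (∑ j ∈ Finset.range m, Finsupp.single j (1 : ℝ)) x =
    ∑ i ∈ Finset.range m, |x i| := by
  rw [val_eq x (Finset.range m)]
  · refine Finset.sum_congr rfl fun i hi => ?_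
    rw [w_apply, if_pos (Finset.mem_range.mp hi), one_mul]
  · intro i hi
    rw [w_apply] at hi
    by_contra h
    rw [Finset.mem_range] at h
    rw [if_neg h] at hi
    exact hi rfl

/-- the Banach lattice `ℓ₁` -/
abbrev l1 : Type := dL1.Sp

theorem l1_like : L1Like dL1 1 where
  R_top := rfl
  le_one := by
    rintro _ ⟨m, rfl⟩ i
    rw [w_apply]; split_ifs <;> norm_num
  sum_le := fun x m => by
    rw [one_mul, ← val_range]
    exact KData.val_le_norm x ⟨m, rfl⟩

theorem projective_l1 : Projective.{u, 0} l1 := by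
  intro X Y _ _ _ _ _ _ _ _ Q hQ T hT ε hε
  rcases eq_or_ne T 0 with rfl | hT0
  · exact ⟨0, fun x y => by simp, fun p => by simp, by simp⟩
  have hTp : 0 < ‖T‖ := norm_pos_iff.mpr hT0
  have H := l1_like
  have hy : ∀ i, 0 ≤ T (H.e i) := fun i => latHom_nonneg hT (H.e_nonneg i)
  choose x hx0 hx hn using fun i => hQ.lift_nonneg (hy i) (mul_pos hε hTp)
  obtain ⟨x', hx'0, hx'le, hx'Q, hx'd⟩ := lift_disjoint hQ.hom (fun i => T (H.e i))
    (fun i j hij => by
      rw [← latHom_inf hT, H.e_inf i j hij, map_zero]) x hx0 hx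
  have hM : ∀ i, ‖x' i‖ ≤ (1 + ε) * ‖T‖ := by
    intro i
    have h1 : ‖x' i‖ ≤ ‖x i‖ := norm_le_norm_of_abs_le_abs (by
      rw [abs_of_nonneg (hx'0 i), abs_of_nonneg (hx0 i)]; exact hx'le i)
    have h2 : ‖T (H.e i)‖ ≤ ‖T‖ :=
      (T.le_opNorm _).trans (mul_le_of_le_one_right (norm_nonneg _) (H.norm_e_le i))
    linarith [hn i]
  refine ⟨H.op x' _ hM, H.op_latHom x' _ hM hx'0 hx'd, H.op_lift T x' _ hM hx'Q, ?_⟩
  refine (LinearMap.mkContinuous_norm_le _ ?_ _).trans ?_
  · positivity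
  · rw [one_mul]

end Pool.Agent.Q195.BL
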