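import Mathlib
import Pool.Agent.Q195.BL3

set_option autoImplicit false
set_option linter.unusedSectionVars false

/-! The separable Banach lattices `E n` and the quotient maps `E n → ℝ × ℓ₁` that do not allow
liftings of the identity of norm less than 2. -/

namespace Pool.Agent.Q195.BL

open Topology Filter

/-- weight: evaluate at `inl k` and sum over `inr i`, `a ≤ i < m` -/
noncomputable def wt (k a m : ℕ) : (ℕ ⊕ ℕ) →₀ ℝ :=
  Finsupp.single (Sum.inl k) 1 + ∑ i ∈ Finset.Ico a m, Finsupp.single (Sum.inr i) 1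

/-- weight: sum over `inr i`, `i < m` -/
noncomputable def wt' (m : ℕ) : (ℕ ⊕ ℕ) →₀ ℝ := ∑ i ∈ Finset.range m, Finsupp.single (Sum.inr i) 1

lemma sum_inr_inl (s : Finset ℕ) (j : ℕ) :
    (∑ i ∈ s, Finsupp.single (Sum.inr i : ℕ ⊕ ℕ) (1 : ℝ)) (Sum.inl j) = 0 := by
  rw [Finsupp.finsetSum_apply]
  exact Finset.sum_eq_zero fun i _ => by rw [Finsupp.single_apply, if_neg (by simp)]

lemma sum_inr_inr (s : Finset ℕ) (j : ℕ) :
    (∑ i ∈ s, Finsupp.single (Sum.inr i : ℕ ⊕ ℕ) (1 : ℝ)) (Sum.inr j) =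
      if j ∈ s then 1 else 0 := by
  rw [Finsupp.finsetSum_apply]
  simp only [Finsupp.single_apply, Sum.inr.injEq]
  rw [Finset.sum_ite_eq']

lemma wt_inl (k a m j : ℕ) : wt k a m (Sum.inl j) = if j = k then 1 else 0 := by
  unfold wt
  rw [Finsupp.add_apply, sum_inr_inl, add_zero, Finsupp.single_apply]
  simp only [Sum.inl.injEq]
  by_cases h : j = k
  · rw [if_pos h, if_pos h.symm]
  · rw [if_neg h, if_neg (Ne.symm h)]

lemma wt_inr (k a m j : ℕ) : wt k a m (Sum.inr j) = if j ∈ Finset.Ico a m then 1 else 0 := by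
  unfold wt
  rw [Finsupp.add_apply, sum_inr_inr, Finsupp.single_apply, if_neg (by simp), zero_add]

lemma val_wt (k a m : ℕ) (x : ℕ ⊕ ℕ → ℝ) :
    val (wt k a m) x = |x (Sum.inl k)| + ∑ i ∈ Finset.Ico a m, |x (Sum.inr i)| := by
  rw [val_eq x (Finset.disjSum {k} (Finset.Ico a m))]
  · rw [Finset.sum_disjSum, Finset.sum_singleton, wt_inl, if_pos rfl, one_mul]
    congr 1
    exact Finset.sum_congr rfl fun i hi => by rw [wt_inr, if_pos hi, one_mul]
  · rintro (j | j) hj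
    · rw [wt_inl] at hj
      rw [Finset.inl_mem_disjSum, Finset.mem_singleton]
      by_contra h
      rw [if_neg h] at hj; exact hj rfl
    · rw [wt_inr] at hj
      rw [Finset.inr_mem_disjSum]
      by_contra h
      rw [if_neg h] at hj; exact hj rfl

lemma val_wt' (m : ℕ) (x : ℕ ⊕ ℕ → ℝ) :
    val (wt' m) x = ∑ i ∈ Finset.range m, |x (Sum.inr i)| := by
  rw [val_eq x (Finset.disjSum ∅ (Finset.range m))]
  · rw [Finset.sum_disjSum, Finset.sum_empty, zero_add]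
    exact Finset.sum_congr rfl fun i hi => by
      unfold wt'
      rw [sum_inr_inr, if_pos hi, one_mul]
  · rintro (j | j) hj
    · unfold wt' at hj
      rw [sum_inr_inl] at hj; exact absurd rfl hj
    · unfold wt' at hj
      rw [sum_inr_inr] at hj
      rw [Finset.inr_mem_disjSum]
      by_contra h
      rw [if_neg h] at hj; exact hj rfl

/-- the space of functions `(u, v)` on `ℕ ⊕ ℕ` with `u` convergent -/
def dRc : Submodule ℝ (ℕ ⊕ ℕ → ℝ) where
  carrier := {x | ∃ l, Tendsto (fun k => x (Sum.inl k)) atTop (𝓝 l)}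
  zero_mem' := ⟨0, by simp⟩
  add_mem' := by
    rintro x y ⟨l, hl⟩ ⟨l', hl'⟩
    exact ⟨l + l', hl.add hl'⟩
  smul_mem' := by
    rintro c x ⟨l, hl⟩
    exact ⟨c * l, hl.const_mul c⟩

/-- the data of the lattice `E n` -/
noncomputable def dE (n : ℕ) : KData (ℕ ⊕ ℕ) where
  W := {w | (∃ k m, w = wt k (n + k) m) ∨ ∃ m, w = wt' m}
  nonneg := by
    rintro w (⟨k, m, rfl⟩ | ⟨m, rfl⟩) (i | i)
    · rw [wt_inl]; split_ifs <;> norm_num
    · rw [wt_inr]; split_ifs <;> norm_num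
    · unfold wt'; rw [sum_inr_inl]
    · unfold wt'; rw [sum_inr_inr]; split_ifs <;> norm_num
  cover := by
    rintro (i | i)
    · exact ⟨_, Or.inl ⟨i, 0, rfl⟩, by rw [wt_inl, if_pos rfl]; exact one_pos⟩
    · exact ⟨_, Or.inr ⟨i + 1, rfl⟩, by unfold wt'; rw [sum_inr_inr, if_pos (by simp)]; exact one_pos⟩
  R := dRc
  sup_mem := by
    rintro x ⟨l, hl⟩ y ⟨l', hl'⟩
    exact ⟨l ⊔ l', hl.sup_nhds hl'⟩
  closed := by
    intro x hx
    refine cauchySeq_tendsto_of_complete ?_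
    rw [Metric.cauchySeq_iff]
    intro ε hε
    obtain ⟨y, ⟨l, hl⟩, hy⟩ := hx (ε / 4) (by positivity)
    have h1 : ∀ k, |x (Sum.inl k) - y (Sum.inl k)| ≤ ε / 4 := by
      intro k
      have := hy _ (Or.inl ⟨k, 0, rfl⟩)
      rw [val_wt] at this
      simpa using this
    obtain ⟨N, hN⟩ := (Metric.cauchySeq_iff.mp hl.cauchySeq) (ε / 4) (by positivity)
    refine ⟨N, fun m hm n hn => ?_⟩
    have h2 := hN m hm n hn
    rw [Real.dist_eq] at h2 ⊢
    have h3 := abs_le.mp (h1 m)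
    have h4 := abs_le.mp (h1 n)
    have h5 := abs_lt.mp h2
    rw [abs_lt]
    constructor <;> linarith [h3.1, h3.2, h4.1, h4.2, h5.1, h5.2]

/-- the separable Banach lattices `E n` -/
abbrev E (n : ℕ) : Type := (dE n).Sp

variable {n : ℕ}

lemma E_le1 (x : E n) (k m : ℕ) :
    |(dE n).fn x (Sum.inl k)| + ∑ i ∈ Finset.Ico (n + k) m, |(dE n).fn x (Sum.inr i)| ≤ ‖x‖ := by
  rw [← val_wt]
  exact KData.val_le_norm x (Or.inl ⟨k, m, rfl⟩)

lemma E_le0 (x : E n) (k : ℕ) : |(dE n).fn x (Sum.inl k)| ≤ ‖x‖ := by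
  have := E_le1 x k 0
  simpa using this

lemma E_le2 (x : E n) (m : ℕ) : ∑ i ∈ Finset.range m, |(dE n).fn x (Sum.inr i)| ≤ ‖x‖ := by
  rw [← val_wt']
  exact KData.val_le_norm x (Or.inr ⟨m, rfl⟩)

lemma E_norm_le (x : E n) {C : ℝ} (hC : 0 ≤ C)
    (h1 : ∀ k m, |(dE n).fn x (Sum.inl k)| +
      ∑ i ∈ Finset.Ico (n + k) m, |(dE n).fn x (Sum.inr i)| ≤ C)
    (h2 : ∀ m, ∑ i ∈ Finset.range m, |(dE n).fn x (Sum.inr i)| ≤ C) : ‖x‖ ≤ C := by
  refine KData.norm_le' x hC ?_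
  rintro w (⟨k, m, rfl⟩ | ⟨m, rfl⟩)
  · rw [val_wt]; exact h1 k m
  · rw [val_wt']; exact h2 m

/-- building elements of `E n` -/
noncomputable def elE (n : ℕ) (u v : ℕ → ℝ) (hu : ∃ l, Tendsto u atTop (𝓝 l)) (C : ℝ)
    (h1 : ∀ k m, |u k| + ∑ i ∈ Finset.Ico (n + k) m, |v i| ≤ C)
    (h2 : ∀ m, ∑ i ∈ Finset.range m, |v i| ≤ C) : E n :=
  KData.el (Sum.elim u v) (by exact hu) ⟨C, by
    rintro w (⟨k, m, rfl⟩ | ⟨m, rfl⟩)
    · rw [val_wt]; exact h1 k m
    · rw [val_wt']; exact h2 m⟩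

@[simp] lemma elE_inl (u v : ℕ → ℝ) (hu) (C : ℝ) (h1) (h2) (k : ℕ) :
    (dE n).fn (elE n u v hu C h1 h2) (Sum.inl k) = u k := rfl

@[simp] lemma elE_inr (u v : ℕ → ℝ) (hu) (C : ℝ) (h1) (h2) (k : ℕ) :
    (dE n).fn (elE n u v hu C h1 h2) (Sum.inr k) = v k := rfl

lemma elE_norm_le (u v : ℕ → ℝ) (hu) (C : ℝ) (h1) (h2) :
    ‖elE n u v hu C h1 h2‖ ≤ C :=
  E_norm_le _ ((abs_nonneg (u 0)).trans (by simpa using h1 0 0)) h1 h2

/-- the limit of the first coordinate -/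
noncomputable def lmt (x : E n) : ℝ := limUnder atTop fun k => (dE n).fn x (Sum.inl k)

lemma lmt_spec (x : E n) : Tendsto (fun k => (dE n).fn x (Sum.inl k)) atTop (𝓝 (lmt x)) :=
  tendsto_nhds_limUnder x.2.1

lemma lmt_eq {x : E n} {l : ℝ} (h : Tendsto (fun k => (dE n).fn x (Sum.inl k)) atTop (𝓝 l)) :
    lmt x = l := tendsto_nhds_unique (lmt_spec x) h

lemma lmt_add (x y : E n) : lmt (x + y) = lmt x + lmt y := lmt_eq ((lmt_spec x).add (lmt_spec y))

lemma lmt_smul (c : ℝ) (x : E n) : lmt (c • x) = c * lmt x := lmt_eq ((lmt_spec x).const_mul c)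

lemma lmt_sup (x y : E n) : lmt (x ⊔ y) = lmt x ⊔ lmt y :=
  lmt_eq ((lmt_spec x).sup_nhds (lmt_spec y))

lemma lmt_le (x : E n) : |lmt x| ≤ ‖x‖ :=
  le_of_tendsto (lmt_spec x).abs (Eventually.of_forall fun k => E_le0 x k)

/-- the second coordinate -/
noncomputable def snd (x : E n) : l1 :=
  KData.el (fun i => (dE n).fn x (Sum.inr i)) trivial ⟨‖x‖, by
    rintro w ⟨m, rfl⟩
    rw [val_range]; exact E_le2 x m⟩

@[simp] lemma fn_snd (x : E n) (i : ℕ) : dL1.fn (snd x) i = (dE n).fn x (Sum.inr i) := rfl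

lemma snd_le (x : E n) : ‖snd x‖ ≤ ‖x‖ := by
  refine KData.norm_le' _ (norm_nonneg _) ?_
  rintro w ⟨m, rfl⟩
  rw [val_range]; exact E_le2 x m

/-- the quotient map `E n → ℝ × ℓ₁` -/
noncomputable def Qn (n : ℕ) : E n →L[ℝ] ℝ × l1 :=
  LinearMap.mkContinuous
    { toFun := fun x => (lmt x, snd x)
      map_add' := fun x y => by
        refine Prod.ext (lmt_add x y) ?_
        ext i; rfl
      map_smul' := fun c x => by
        refine Prod.ext (lmt_smul c x) ?_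
        ext i; rfl } 1
    (fun x => by
      rw [one_mul, Prod.norm_def]
      exact max_le (lmt_le x) (snd_le x))

lemma Qn_apply (x : E n) : Qn n x = (lmt x, snd x) := rfl

lemma exists_tail (v : l1) {ε : ℝ} (hε : 0 < ε) :
    ∃ N, ∀ a m, N ≤ a → ∑ i ∈ Finset.Ico a m, |dL1.fn v i| < ε := by
  obtain ⟨s, hs⟩ := (summable_iff_vanishing_norm.mp (l1_like.summable v)) ε hε
  obtain ⟨N, hN⟩ := s.exists_nat_subset_range
  refine ⟨N, fun a m ha => ?_⟩
  have h1 : Disjoint (Finset.Ico a m) s := by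
    rw [Finset.disjoint_left]
    intro i hi hi2
    have := Finset.mem_range.mp (hN hi2)
    have := (Finset.mem_Ico.mp hi).1
    omega
  exact (le_abs_self _).trans_lt (hs _ h1)

lemma l1_sum_le (v : l1) (s : Finset ℕ) : ∑ i ∈ s, |dL1.fn v i| ≤ ‖v‖ := by
  obtain ⟨N, hN⟩ := s.exists_nat_subset_range
  refine (Finset.sum_le_sum_of_subset_of_nonneg hN fun _ _ _ => abs_nonneg _).trans ?_
  have := l1_like.sum_le v N
  rwa [one_mul] at this

theorem Qn_isQuot (n : ℕ) : IsQuot (Qn n) where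
  hom := fun x y => by
    refine Prod.ext (lmt_sup x y) ?_
    ext i; rfl
  norm_le := fun x => by
    rw [Qn_apply, Prod.norm_def]
    exact max_le (lmt_le x) (snd_le x)
  lift := by
    rintro ⟨s, v⟩ ε hε
    obtain ⟨N, hN⟩ := exists_tail v (half_pos hε)
    have hs : |s| ≤ ‖(s, v)‖ := by rw [Prod.norm_def]; exact le_max_left _ _
    have hv : ‖v‖ ≤ ‖(s, v)‖ := by rw [Prod.norm_def]; exact le_max_right _ _
    have hT : Tendsto (fun k : ℕ => if k < N then (0 : ℝ) else s) atTop (𝓝 s) := by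
      refine (tendsto_const_nhds (x := s)).congr' ?_
      filter_upwards [eventually_ge_atTop N] with k hk
      rw [if_neg (by omega)]
    refine ⟨elE n (fun k => if k < N then 0 else s) (dL1.fn v) ⟨s, hT⟩ (‖(s, v)‖ + ε / 2)
      ?_ ?_, ?_, ?_⟩
    · intro k m
      split_ifs with h
      · rw [abs_zero, zero_add]
        linarith [l1_sum_le v (Finset.Ico (n + k) m)]
      · have := hN (n + k) m (by omega)
        linarith
    · intro m
      linarith [l1_sum_le v (Finset.range m)]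
    · rw [Qn_apply]
      refine Prod.ext (lmt_eq hT) ?_
      ext i; rfl
    · refine (elE_norm_le _ _ _ _ _ _).trans_lt ?_
      linarith

/-- the identity of `ℝ × ℓ₁` does not lift to an operator of norm at most `3 / 2` -/
theorem no_lift (S : ℝ × l1 →L[ℝ] E n) (hS : IsLatHom S) (hQ : ∀ a, Qn n (S a) = a)
    (hn : ‖S‖ ≤ 3 / 2) : False := by
  have H := l1_like
  have hx : 0 ≤ S (1, 0) := latHom_nonneg hS ⟨zero_le_one, le_rfl⟩
  have h1 : Tendsto (fun k => (dE n).fn (S (1, 0)) (Sum.inl k)) atTop (𝓝 1) := by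
    have := lmt_spec (S (1, 0))
    have h2 : lmt (S (1, 0)) = 1 := congrArg Prod.fst (hQ (1, 0))
    rwa [h2] at this
  obtain ⟨k, hk⟩ := (h1.eventually (lt_mem_nhds (show (3 / 4 : ℝ) < 1 by norm_num))).exists
  have hy : 0 ≤ S (0, H.e (n + k)) := latHom_nonneg hS ⟨le_rfl, H.e_nonneg _⟩
  have h3 : S (1, H.e (n + k)) = S (1, 0) + S (0, H.e (n + k)) := by
    rw [← map_add]; simp
  have h4 := E_le1 (S (1, H.e (n + k))) k (n + k + 1)
  have h5 : ‖S (1, H.e (n + k))‖ ≤ 3 / 2 := by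
    refine (S.le_opNorm _).trans ?_
    have : ‖((1 : ℝ), H.e (n + k))‖ ≤ 1 := by
      rw [Prod.norm_def]
      exact max_le (by simp) (H.norm_e_le _)
    calc ‖S‖ * ‖((1 : ℝ), H.e (n + k))‖ ≤ 3 / 2 * 1 :=
          mul_le_mul hn this (norm_nonneg _) (by norm_num)
      _ = 3 / 2 := mul_one _
  rw [Finset.sum_Ico_succ_top (by omega), Finset.Ico_self, Finset.sum_empty, zero_add] at h4
  have h6 : (dE n).fn (S (1, H.e (n + k))) (Sum.inr (n + k)) = 1 := by
    have this : snd (S (1, H.e (n + k))) = H.e (n + k) :=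
      congrArg Prod.snd (hQ (1, H.e (n + k)))
    have h7 : dL1.fn (snd (S (1, H.e (n + k)))) (n + k) = dL1.fn (H.e (n + k)) (n + k) := by
      rw [this]
    rw [fn_snd, H.fn_e, if_pos rfl] at h7
    exact h7
  have h8 : 3 / 4 ≤ (dE n).fn (S (1, H.e (n + k))) (Sum.inl k) := by
    rw [h3, KData.fn_add]
    have := hy (Sum.inl k)
    have h9 : 0 ≤ (dE n).fn (S (0, H.e (n + k))) (Sum.inl k) := this
    linarith
  rw [h6, abs_one] at h4
  have := le_abs_self ((dE n).fn (S (1, H.e (n + k))) (Sum.inl k))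
  linarith

theorem not_projective : ¬ Projective.{0, 0} (ℝ × l1) := by
  intro h
  obtain ⟨S, hS, hQ, hn⟩ := h (E 0) (ℝ × l1) (Qn 0) (Qn_isQuot 0) (ContinuousLinearMap.id ℝ _)
    (fun x y => rfl) (1 / 2) (by norm_num)
  refine no_lift S hS (fun a => hQ a) (hn.trans ?_)
  have := ContinuousLinearMap.norm_id_le (𝕜 := ℝ) (E := ℝ × l1)
  calc (1 + 1 / 2) * ‖ContinuousLinearMap.id ℝ (ℝ × l1)‖ ≤ (1 + 1 / 2) * 1 := by gcongr
    _ = 3 / 2 := by norm_num

end Pool.Agent.Q195.BL
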