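import Mathlib
import Pool.Agent.Q195.BL4

set_option autoImplicit false
set_option linter.unusedSectionVars false

/-! Semiprojective Banach lattices. -/

namespace Pool.Agent.Q195.BL

open Topology Filter TopologicalSpace

/-- Semiprojective Banach lattices: `E` is a separable Banach lattice, `q n : E → F n` is the
quotient map by a closed ideal `I n`, `I n ⊆ I (n + 1)`, and `Q : E → G` is the quotient map by
the closure of the union of the `I n`. -/
def Semiprojective.{a, b} (A : Type b) [NormedAddCommGroup A] [NormedSpace ℝ A] [Lattice A] :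
    Prop :=
  ∀ (E : Type a) [NormedAddCommGroup E] [NormedSpace ℝ E] [Lattice E] [IsBanachLattice E]
    [SeparableSpace E]
    (F : ℕ → Type a) [∀ n, NormedAddCommGroup (F n)] [∀ n, NormedSpace ℝ (F n)]
    [∀ n, Lattice (F n)] [∀ n, IsBanachLattice (F n)]
    (G : Type a) [NormedAddCommGroup G] [NormedSpace ℝ G] [Lattice G] [IsBanachLattice G]
    (q : ∀ n, E →L[ℝ] F n) (Q : E →L[ℝ] G), (∀ n, IsQuot (q n)) → IsQuot Q →
    (∀ n x, q n x = 0 → q (n + 1) x = 0) →
    {x | Q x = 0} = closure {x | ∃ n, q n x = 0} →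
    ∀ φ : A →L[ℝ] G, IsLatHom φ → ‖φ‖ ≤ 1 →
    ∃ n, ∀ ε : ℝ, 0 < ε → ∃ ψ : A →L[ℝ] F n, IsLatHom ψ ∧ ‖ψ‖ ≤ 1 + ε ∧
      ∀ a x, q n x = ψ a → Q x = φ a

theorem Projective.semiprojective.{a, b} {A : Type b} [NormedAddCommGroup A] [NormedSpace ℝ A]
    [Lattice A] (h : Projective.{a, b} A) : Semiprojective.{a, b} A := by
  intro E _ _ _ _ _ F _ _ _ _ G _ _ _ _ q Q hq hQ hk hker φ hφ hn
  refine ⟨0, fun ε hε => ?_⟩
  obtain ⟨S, hS, hQS, hSn⟩ := h E G Q hQ φ hφ ε hε
  refine ⟨(q 0).comp S, fun x y => by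
    rw [ContinuousLinearMap.comp_apply, hS, (hq 0).hom]; rfl, ?_, fun a x hx => ?_⟩
  · refine ContinuousLinearMap.opNorm_le_bound _ (by positivity) fun a => ?_
    refine ((hq 0).norm_le _).trans ((S.le_opNorm a).trans ?_)
    refine mul_le_mul_of_nonneg_right (hSn.trans ?_) (norm_nonneg _)
    exact mul_le_of_le_one_right (by positivity) hn
  · have h1 : q 0 (x - S a) = 0 := by rw [map_sub, hx]; simp
    have h2 : x - S a ∈ {x | Q x = 0} := by
      rw [hker]; exact subset_closure ⟨0, h1⟩
    have h3 : Q (x - S a) = 0 := h2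
    rw [map_sub, sub_eq_zero] at h3
    rw [h3, hQS]

/-- the shift quotient `E 0 → E n` -/
noncomputable def shiftFn (n : ℕ) (x : E 0) : E n :=
  elE n (fun k => (dE 0).fn x (Sum.inl (n + k))) (fun i => (dE 0).fn x (Sum.inr i))
    ⟨lmt x, by
      have := (tendsto_add_atTop_iff_nat n).mpr (lmt_spec x)
      refine this.congr fun k => ?_
      rw [add_comm]⟩ ‖x‖
    (fun k m => by have := E_le1 x (n + k) m; rwa [zero_add] at this) (E_le2 x)

lemma shiftFn_norm (n : ℕ) (x : E 0) : ‖shiftFn n x‖ ≤ ‖x‖ := elE_norm_le _ _ _ _ _ _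

/-- the shift quotient `E 0 → E n` -/
noncomputable def shiftE (n : ℕ) : E 0 →L[ℝ] E n :=
  LinearMap.mkContinuous
    { toFun := shiftFn n
      map_add' := fun x y => by ext (i | i) <;> rfl
      map_smul' := fun c x => by ext (i | i) <;> rfl } 1
    (fun x => by rw [one_mul]; exact shiftFn_norm n x)

@[simp] lemma shiftE_inl (n : ℕ) (x : E 0) (k : ℕ) :
    (dE n).fn (shiftE n x) (Sum.inl k) = (dE 0).fn x (Sum.inl (n + k)) := rfl
@[simp] lemma shiftE_inr (n : ℕ) (x : E 0) (k : ℕ) :
    (dE n).fn (shiftE n x) (Sum.inr k) = (dE 0).fn x (Sum.inr k) := rfl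

theorem shiftE_isQuot (n : ℕ) : IsQuot (shiftE n) where
  hom := fun x y => by ext (i | i) <;> rfl
  norm_le := fun x => shiftFn_norm n x
  lift := by
    intro y ε hε
    have hT : Tendsto (fun k : ℕ => if k < n then (0 : ℝ) else (dE n).fn y (Sum.inl (k - n))) atTop
        (𝓝 (lmt y)) := by
      refine ((lmt_spec y).comp (tendsto_sub_atTop_nat n)).congr' ?_
      filter_upwards [eventually_ge_atTop n] with k hk
      rw [if_neg (by omega)]; rfl
    refine ⟨elE 0 (fun k => if k < n then 0 else (dE n).fn y (Sum.inl (k - n)))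
      (fun i => (dE n).fn y (Sum.inr i)) ⟨_, hT⟩ ‖y‖ ?_ (E_le2 y), ?_, ?_⟩
    · intro k m
      split_ifs with h
      · rw [abs_zero, zero_add]
        refine le_trans ?_ (E_le2 y m)
        refine Finset.sum_le_sum_of_subset_of_nonneg (fun i hi => ?_) fun _ _ _ => abs_nonneg _
        rw [Finset.mem_Ico] at hi
        exact Finset.mem_range.mpr hi.2
      · have := E_le1 y (k - n) m
        rwa [show n + (k - n) = 0 + k by omega] at this
    · ext (i | i)
      · rw [shiftE_inl, elE_inl, if_neg (by omega)]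
        congr 2; omega
      · rfl
    · refine (elE_norm_le _ _ _ _ _ _).trans_lt (by linarith)

lemma lmt_shift (n : ℕ) (x : E 0) : lmt (shiftE n x) = lmt x := by
  refine lmt_eq ?_
  have := (tendsto_add_atTop_iff_nat n).mpr (lmt_spec x)
  refine this.congr fun k => ?_
  rw [shiftE_inl, add_comm]

lemma Qn_shift (n : ℕ) (x : E 0) : Qn n (shiftE n x) = Qn 0 x := by
  rw [Qn_apply, Qn_apply, lmt_shift]
  refine Prod.ext rfl ?_
  ext i; rfl

lemma ker_mono (n : ℕ) (x : E 0) (h : shiftE n x = 0) : shiftE (n + 1) x = 0 := by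
  ext (i | i)
  · rw [shiftE_inl, KData.fn_zero]
    have := congrArg (fun z => (dE n).fn z (Sum.inl (1 + i))) h
    simp only [shiftE_inl, KData.fn_zero] at this
    rw [← this]; congr 2; omega
  · have := congrArg (fun z => (dE n).fn z (Sum.inr i)) h
    simpa using this

lemma ker_eq : {x : E 0 | Qn 0 x = 0} = closure {x | ∃ n, shiftE n x = 0} := by
  apply Set.Subset.antisymm
  · intro x hx
    have h1 : lmt x = 0 := congrArg Prod.fst hx
    have h2 : ∀ i, (dE 0).fn x (Sum.inr i) = 0 := by
      intro i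
      have : snd x = 0 := congrArg Prod.snd hx
      rw [← fn_snd, this, KData.fn_zero]
    rw [Metric.mem_closure_iff]
    intro ε hε
    have h3 := lmt_spec x
    rw [h1] at h3
    obtain ⟨N, hN⟩ := (Metric.tendsto_atTop.mp h3) (ε / 2) (half_pos hε)
    have hT : Tendsto (fun k : ℕ => if k < N then (dE 0).fn x (Sum.inl k) else 0) atTop (𝓝 0) := by
      refine (tendsto_const_nhds (x := (0 : ℝ))).congr' ?_
      filter_upwards [eventually_ge_atTop N] with k hk
      rw [if_neg (by omega)]
    refine ⟨elE 0 (fun k => if k < N then (dE 0).fn x (Sum.inl k) else 0) (fun _ => 0)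
      ⟨0, hT⟩ ‖x‖ ?_ ?_, ⟨N, ?_⟩, ?_⟩
    · intro k m
      simp only [abs_zero, Finset.sum_const_zero, add_zero]
      split_ifs
      · exact E_le0 x k
      · rw [abs_zero]; exact norm_nonneg _
    · intro m; simp
    · ext (i | i)
      · rw [shiftE_inl, elE_inl, if_neg (by omega), KData.fn_zero]
      · rfl
    · rw [dist_eq_norm]
      refine lt_of_le_of_lt (E_norm_le _ (half_pos hε).le ?_ ?_) (half_lt_self hε)
      · intro k m
        simp only [KData.fn_sub, elE_inl, elE_inr, h2, sub_zero, abs_zero, Finset.sum_const_zero,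
          add_zero]
        split_ifs with h
        · rw [sub_self, abs_zero]; positivity
        · have := hN k (by omega)
          rw [Real.dist_eq, sub_zero] at this
          rw [sub_zero]; exact this.le
      · intro m
        simp only [KData.fn_sub, elE_inr, h2, sub_zero, abs_zero, Finset.sum_const_zero]
        positivity
  · refine closure_minimal ?_ (isClosed_eq (Qn 0).continuous continuous_const)
    rintro x ⟨n, hx⟩
    show Qn 0 x = 0
    rw [← Qn_shift n, hx, map_zero]

instance : SeparableSpace (E 0) := by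
  have hA : ∀ k : ℕ, ∃ a : E 0, (∀ j, (dE 0).fn a (Sum.inl j) = if k ≤ j then 1 else 0) ∧
      ∀ j, (dE 0).fn a (Sum.inr j) = 0 := by
    intro k
    refine ⟨elE 0 (fun j => if k ≤ j then 1 else 0) (fun _ => 0) ⟨1, ?_⟩ 1 ?_ ?_,
      fun j => rfl, fun j => rfl⟩
    · refine (tendsto_const_nhds (x := (1 : ℝ))).congr' ?_
      filter_upwards [eventually_ge_atTop k] with j hj
      rw [if_pos hj]
    · intro j m
      simp only [abs_zero, Finset.sum_const_zero, add_zero]
      split_ifs <;> simp
    · intro m; simp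
  have hB : ∀ i : ℕ, ∃ b : E 0, (∀ j, (dE 0).fn b (Sum.inl j) = 0) ∧
      ∀ j, (dE 0).fn b (Sum.inr j) = if j = i then 1 else 0 := by
    intro i
    refine ⟨elE 0 (fun _ => 0) (fun j => if j = i then 1 else 0) ⟨0, tendsto_const_nhds⟩ 1 ?_ ?_,
      fun j => rfl, fun j => rfl⟩
    · intro k m
      rw [abs_zero, zero_add]
      have : ∀ j, |if j = i then (1 : ℝ) else 0| = if j = i then 1 else 0 := fun j => by
        split_ifs <;> simp
      simp only [this]
      rw [Finset.sum_ite_eq']
      split_ifs <;> norm_num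
    · intro m
      have : ∀ j, |if j = i then (1 : ℝ) else 0| = if j = i then 1 else 0 := fun j => by
        split_ifs <;> simp
      simp only [this]
      rw [Finset.sum_ite_eq']
      split_ifs <;> norm_num
  choose a ha1 ha2 using hA
  choose b hb1 hb2 using hB
  have hS : IsSeparable (closure
      (Submodule.span ℝ (Set.range a ∪ Set.range b) : Set (E 0))) := by
    refine IsSeparable.closure ?_
    refine IsSeparable.span ?_
    exact ((Set.countable_range a).union (Set.countable_range b)).isSeparable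
  rw [← isSeparable_univ_iff]
  refine hS.mono fun x _ => ?_
  rw [Metric.mem_closure_iff]
  intro ε hε
  obtain ⟨N1, hN1⟩ := (Metric.tendsto_atTop.mp (lmt_spec x)) (ε / 4) (by positivity)
  obtain ⟨N2, hN2⟩ := exists_tail (snd x) (show 0 < ε / 4 by positivity)
  set N := max N1 N2 with hN
  let y : E 0 := (∑ k ∈ Finset.range N, (dE 0).fn x (Sum.inl k) • (a k - a (k + 1))) +
    lmt x • a N + ∑ i ∈ Finset.range N, (dE 0).fn x (Sum.inr i) • b i
  have hfs : ∀ {s : Finset ℕ} {f : ℕ → E 0} {j : ℕ ⊕ ℕ},
      (dE 0).fn (∑ i ∈ s, f i) j = ∑ i ∈ s, (dE 0).fn (f i) j := by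
    intro s f j
    induction s using Finset.induction_on with
    | empty => simp
    | insert i s hi ih => rw [Finset.sum_insert hi, KData.fn_add, ih, Finset.sum_insert hi]
  have hy1 : ∀ k, (dE 0).fn y (Sum.inl k) = if k < N then (dE 0).fn x (Sum.inl k) else lmt x := by
    intro k
    simp only [y, KData.fn_add, hfs, KData.fn_smul, KData.fn_sub, ha1, hb1, mul_zero,
      Finset.sum_const_zero, add_zero]
    have h1 : ∀ i, (dE 0).fn x (Sum.inl i) * ((if i ≤ k then (1 : ℝ) else 0) -
        if i + 1 ≤ k then 1 else 0) = if i = k then (dE 0).fn x (Sum.inl i) else 0 := by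
      intro i
      by_cases h2 : i = k
      · subst h2; rw [if_pos le_rfl, if_neg (by omega), if_pos rfl]; ring
      · rw [if_neg h2]
        by_cases h3 : i < k
        · rw [if_pos h3.le, if_pos (by omega)]; ring
        · rw [if_neg (by omega), if_neg (by omega)]; ring
    simp only [h1]
    rw [Finset.sum_ite_eq']
    by_cases h4 : k < N
    · rw [if_pos (Finset.mem_range.mpr h4), if_neg (by omega), if_pos h4]; ring
    · rw [if_neg (by simpa using h4), if_pos (by omega), if_neg h4]; ring
  have hy2 : ∀ i, (dE 0).fn y (Sum.inr i) = if i < N then (dE 0).fn x (Sum.inr i) else 0 := by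
    intro k
    simp only [y, KData.fn_add, hfs, KData.fn_smul, KData.fn_sub, ha2, hb2, mul_zero, sub_self,
      Finset.sum_const_zero, zero_add]
    have h1 : ∀ i, (dE 0).fn x (Sum.inr i) * (if k = i then (1 : ℝ) else 0) =
        if k = i then (dE 0).fn x (Sum.inr i) else 0 := fun i => by split_ifs <;> simp
    simp only [h1]
    rw [Finset.sum_ite_eq]
    by_cases h4 : k < N
    · rw [if_pos (Finset.mem_range.mpr h4), if_pos h4]
    · rw [if_neg (by simpa using h4), if_neg h4]
  have htail : ∀ s : Finset ℕ, ∑ i ∈ s, |(dE 0).fn (x - y) (Sum.inr i)| ≤ ε / 4 := by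
    intro s
    obtain ⟨M, hM⟩ := s.exists_nat_subset_range
    refine (Finset.sum_le_sum_of_subset_of_nonneg hM fun _ _ _ => abs_nonneg _).trans ?_
    have h1 : ∑ i ∈ Finset.range M, |(dE 0).fn (x - y) (Sum.inr i)| =
        ∑ i ∈ Finset.Ico N M, |dL1.fn (snd x) i| := by
      rw [← Finset.sum_filter_add_sum_filter_not (Finset.range M) (fun i => i < N)]
      have h2 : ∑ i ∈ (Finset.range M).filter (fun i => i < N),
          |(dE 0).fn (x - y) (Sum.inr i)| = 0 := by
        refine Finset.sum_eq_zero fun i hi => ?_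
        rw [KData.fn_sub, hy2, if_pos (Finset.mem_filter.mp hi).2, sub_self, abs_zero]
      rw [h2, zero_add]
      have h3 : (Finset.range M).filter (fun i => ¬ i < N) = Finset.Ico N M := by
        ext i; simp; omega
      rw [h3]
      refine Finset.sum_congr rfl fun i hi => ?_
      have := (Finset.mem_Ico.mp hi).1
      rw [KData.fn_sub, hy2, if_neg (by omega), sub_zero, fn_snd]
    rw [h1]
    exact (hN2 N M (le_max_right _ _)).le
  refine ⟨y, ?_, ?_⟩
  · refine Submodule.add_mem _ (Submodule.add_mem _ ?_ ?_) ?_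
    · exact Submodule.sum_mem _ fun k _ => Submodule.smul_mem _ _ (Submodule.sub_mem _
        (Submodule.subset_span (Or.inl ⟨k, rfl⟩)) (Submodule.subset_span (Or.inl ⟨k + 1, rfl⟩)))
    · exact Submodule.smul_mem _ _ (Submodule.subset_span (Or.inl ⟨N, rfl⟩))
    · exact Submodule.sum_mem _ fun k _ => Submodule.smul_mem _ _
        (Submodule.subset_span (Or.inr ⟨k, rfl⟩))
  · rw [dist_eq_norm]
    refine lt_of_le_of_lt (E_norm_le _ (half_pos hε).le ?_ ?_) (half_lt_self hε)
    · intro k m
      have h1 : |(dE 0).fn (x - y) (Sum.inl k)| ≤ ε / 4 := by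
        rw [KData.fn_sub, hy1]
        split_ifs with h
        · rw [sub_self, abs_zero]; positivity
        · have h3 : N1 ≤ N := le_max_left _ _
          have := hN1 k (by omega)
          rw [Real.dist_eq] at this
          exact this.le
      linarith [htail (Finset.Ico (0 + k) m)]
    · intro m
      linarith [htail (Finset.range m)]

theorem not_semiprojective : ¬ Semiprojective.{0, 0} (ℝ × l1) := by
  intro h
  obtain ⟨n, hn⟩ := h (E 0) E (ℝ × l1) shiftE (Qn 0) shiftE_isQuot (Qn_isQuot 0) ker_mono ker_eq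
    (ContinuousLinearMap.id ℝ _) (fun x y => rfl) ContinuousLinearMap.norm_id_le
  obtain ⟨ψ, hψ, hψn, hψQ⟩ := hn (1 / 2) (by norm_num)
  refine no_lift ψ hψ (fun a => ?_) (hψn.trans (by norm_num))
  obtain ⟨x, hx, -⟩ := (shiftE_isQuot n).lift (ψ a) 1 one_pos
  have := hψQ a x hx
  rw [← hx, Qn_shift, this]; rfl

end Pool.Agent.Q195.BL
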