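import Mathlib
import Pool.Agent.Q195.BL5

set_option autoImplicit false
set_option linter.unusedSectionVars false

/-! `ℓ`-open Banach lattices are semiprojective. -/

namespace Pool.Agent.Q195.BL

open Topology Filter TopologicalSpace

/-- The set `Hom₁(A, C)` of lattice homomorphisms of norm at most `1`. -/
def Hom1 (A C : Type*) [NormedAddCommGroup A] [NormedSpace ℝ A] [Lattice A]
    [NormedAddCommGroup C] [NormedSpace ℝ C] [Lattice C] : Type _ :=
  {φ : A →L[ℝ] C // IsLatHom φ ∧ ‖φ‖ ≤ 1}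

/-- The point-norm topology on `Hom₁(A, C)`. -/
instance (A C : Type*) [NormedAddCommGroup A] [NormedSpace ℝ A] [Lattice A]
    [NormedAddCommGroup C] [NormedSpace ℝ C] [Lattice C] : TopologicalSpace (Hom1 A C) :=
  TopologicalSpace.induced (fun φ a => φ.1 a) Pi.topologicalSpace

/-- `φ : A → C` is `1⁺`-liftable through the quotient map `Q : B → C`. -/
def Liftable {A B C : Type*} [NormedAddCommGroup A] [NormedSpace ℝ A] [Lattice A]
    [NormedAddCommGroup B] [NormedSpace ℝ B] [Lattice B]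
    [NormedAddCommGroup C] [NormedSpace ℝ C] [Lattice C] (Q : B →L[ℝ] C) (φ : Hom1 A C) : Prop :=
  ∀ ε : ℝ, 0 < ε → ∃ ψ : A →L[ℝ] B, IsLatHom ψ ∧ (∀ a, Q (ψ a) = φ.1 a) ∧ ‖ψ‖ ≤ 1 + ε

/-- `A` is `ℓ`-open. -/
def LOpen.{a, b} (A : Type b) [NormedAddCommGroup A] [NormedSpace ℝ A] [Lattice A] : Prop :=
  ∀ (B C : Type a) [NormedAddCommGroup B] [NormedSpace ℝ B] [Lattice B] [IsBanachLattice B]
    [SeparableSpace B]
    [NormedAddCommGroup C] [NormedSpace ℝ C] [Lattice C] [IsBanachLattice C]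
    (Q : B →L[ℝ] C), IsQuot Q → IsOpen {φ : Hom1 A C | Liftable Q φ}

section

variable {A B C : Type*} [NormedAddCommGroup A] [NormedSpace ℝ A] [Lattice A] [IsBanachLattice A]
  [NormedAddCommGroup B] [NormedSpace ℝ B] [Lattice B] [IsBanachLattice B]
  [NormedAddCommGroup C] [NormedSpace ℝ C] [Lattice C] [IsBanachLattice C]

lemma latHom_smul {c : ℝ} (hc : 0 ≤ c) {T : A →L[ℝ] C} (h : IsLatHom T) : IsLatHom (c • T) := by
  intro x y
  rw [ContinuousLinearMap.smul_apply, h, smul_sup hc]; rfl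

/-- the path `t ↦ t φ` -/
noncomputable def path (φ : Hom1 A C) (t : Set.Icc (0 : ℝ) 1) : Hom1 A C :=
  ⟨t.1 • φ.1, latHom_smul t.2.1 φ.2.1, by
    rw [norm_smul, Real.norm_eq_abs, abs_of_nonneg t.2.1]
    exact mul_le_one₀ t.2.2 (norm_nonneg _) φ.2.2⟩

lemma continuous_path (φ : Hom1 A C) : Continuous (path φ) := by
  rw [continuous_induced_rng]
  refine continuous_pi fun a => ?_
  show Continuous fun t : Set.Icc (0 : ℝ) 1 => t.1 • φ.1 a
  exact continuous_subtype_val.smul continuous_const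

lemma scale {Q : B →L[ℝ] C} (φ : Hom1 A C) {s t : Set.Icc (0 : ℝ) 1} (hs : 0 < s.1)
    (h : Liftable Q (path φ s)) (ε : ℝ) (hε : 0 < ε) :
    ∃ ψ : A →L[ℝ] B, IsLatHom ψ ∧ (∀ a, Q (ψ a) = (path φ t).1 a) ∧
      ‖ψ‖ ≤ t.1 / s.1 * (1 + ε) := by
  obtain ⟨ψ, h1, h2, h3⟩ := h ε hε
  have hr : 0 ≤ t.1 / s.1 := div_nonneg t.2.1 hs.le
  refine ⟨(t.1 / s.1) • ψ, latHom_smul hr h1, fun a => ?_, ?_⟩
  · rw [ContinuousLinearMap.smul_apply, map_smul, h2]
    show (t.1 / s.1) • (s.1 • φ.1 a) = t.1 • φ.1 a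
    rw [smul_smul, div_mul_cancel₀ _ hs.ne']
  · rw [norm_smul, Real.norm_eq_abs, abs_of_nonneg hr]
    exact mul_le_mul_of_nonneg_left h3 hr

/-- if the liftable elements form an open set, every element is liftable -/
theorem liftable_of_open {Q : B →L[ℝ] C} (ho : IsOpen {φ : Hom1 A C | Liftable Q φ})
    (φ : Hom1 A C) : Liftable Q φ := by
  set S : Set (Set.Icc (0 : ℝ) 1) := path φ ⁻¹' {φ : Hom1 A C | Liftable Q φ} with hS
  have h1 : IsOpen S := ho.preimage (continuous_path φ)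
  have h0 : (⟨0, by simp⟩ : Set.Icc (0 : ℝ) 1) ∈ S := by
    intro ε hε
    refine ⟨0, fun x y => by simp, fun a => ?_, by simp; positivity⟩
    show Q 0 = (0 : ℝ) • φ.1 a
    simp
  have h2 : IsClosed S := by
    rw [← isOpen_compl_iff, isOpen_iff_mem_nhds]
    intro t ht
    by_contra hcon
    apply ht
    -- points of `S` near `t`
    have h3 : t ∈ closure S := by
      rw [mem_closure_iff_nhds]
      intro U hU
      by_contra h4
      apply hcon
      rw [Set.not_nonempty_iff_eq_empty] at h4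
      refine Filter.mem_of_superset hU fun x hx hxS => ?_
      have : x ∈ U ∩ S := ⟨hx, hxS⟩
      rw [h4] at this; exact this
    have ht0 : 0 < t.1 := by
      rcases t.2.1.eq_or_lt with h | h
      · exfalso; apply ht
        have : t = ⟨0, by simp⟩ := Subtype.ext h.symm
        rw [this]; exact h0
      · exact h
    intro ε hε
    -- choose `s ∈ S` with `t / s * (1 + ε / 3) ≤ 1 + ε`
    have hc : ContinuousAt (fun s : Set.Icc (0 : ℝ) 1 => t.1 / s.1 * (1 + ε / 3)) t := by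
      refine ContinuousAt.mul (ContinuousAt.div continuousAt_const
        continuous_subtype_val.continuousAt ht0.ne') continuousAt_const
    have hlt : t.1 / t.1 * (1 + ε / 3) < 1 + ε := by
      rw [div_self ht0.ne']; linarith
    have hev := (hc.eventually (gt_mem_nhds hlt)).and
      (continuous_subtype_val.continuousAt.eventually (lt_mem_nhds ht0))
    obtain ⟨s, ⟨hs1, hs2⟩, hsS⟩ := mem_closure_iff_nhds.mp h3 _ hev
    obtain ⟨ψ, h5, h6, h7⟩ := scale (t := t) φ hs2 hsS (ε / 3) (by positivity)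
    exact ⟨ψ, h5, h6, h7.trans hs1.le⟩
  have h3 : S = Set.univ := IsClopen.eq_univ ⟨h2, h1⟩ ⟨_, h0⟩
  have h4 : (⟨1, by simp⟩ : Set.Icc (0 : ℝ) 1) ∈ S := by rw [h3]; trivial
  have h5 : path φ ⟨1, by simp⟩ = φ := by
    refine Subtype.ext ?_
    show (1 : ℝ) • φ.1 = φ.1
    rw [one_smul]
  have h6 : Liftable Q (path φ ⟨1, by simp⟩) := h4
  rwa [h5] at h6

end

theorem LOpen.semiprojective.{a, b} {A : Type b} [NormedAddCommGroup A] [NormedSpace ℝ A]
    [Lattice A] [IsBanachLattice A] (h : LOpen.{a, b} A) : Semiprojective.{a, b} A := by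
  intro E _ _ _ _ _ F _ _ _ _ G _ _ _ _ q Q hq hQ hk hker φ hφ hn
  refine ⟨0, fun ε hε => ?_⟩
  obtain ⟨S, hS, hQS, hSn⟩ := liftable_of_open (h E G Q hQ) (⟨φ, hφ, hn⟩ : Hom1 A G) ε hε
  refine ⟨(q 0).comp S, latHom_comp (hq 0).hom hS, ?_, fun a x hx => ?_⟩
  · refine ContinuousLinearMap.opNorm_le_bound _ (by positivity) fun a => ?_
    refine ((hq 0).norm_le _).trans ((S.le_opNorm a).trans ?_)
    exact mul_le_mul_of_nonneg_right hSn (norm_nonneg _)
  · have h1 : q 0 (x - S a) = 0 := by rw [map_sub, hx]; simp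
    have h2 : x - S a ∈ {x | Q x = 0} := by
      rw [hker]; exact subset_closure ⟨0, h1⟩
    have h3 : Q (x - S a) = 0 := h2
    rw [map_sub, sub_eq_zero] at h3
    rw [h3, hQS]

end Pool.Agent.Q195.BL
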