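import Mathlib
import Pool.Agent.Q195.BL3

set_option autoImplicit false
set_option linter.unusedSectionVars false

/-! A Dedekind complete projective Banach lattice that is not an `ℓ₁`-sum of finite-dimensional
Banach lattices. -/

namespace Pool.Agent.Q195.BL

open Topology Filter

universe u v w

/-- `P` is isometrically lattice isomorphic to the `ℓ₁`-sum of a sequence of finite-dimensional
Banach lattices. -/
def IsL1SumFD (P : Type) [NormedAddCommGroup P] [NormedSpace ℝ P] [Lattice P] : Prop :=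
  ∃ (F : ℕ → Type) (_ : ∀ n, NormedAddCommGroup (F n)) (_ : ∀ n, NormedSpace ℝ (F n))
    (_ : ∀ n, Lattice (F n)) (_ : ∀ n, IsBanachLattice (F n))
    (_ : ∀ n, FiniteDimensional ℝ (F n)) (Φ : P ≃ₗᵢ[ℝ] lp F 1),
    ∀ x y n, (Φ (x ⊔ y) : ∀ n, F n) n = (Φ x : ∀ n, F n) n ⊔ (Φ y : ∀ n, F n) n

/-- Dedekind completeness. -/
def DedekindComplete (P : Type) [Lattice P] : Prop :=
  ∀ S : Set P, S.Nonempty → BddAbove S → ∃ s, IsLUB S s

section FD

variable {X : Type u} [NormedAddCommGroup X] [NormedSpace ℝ X] [Lattice X] [IsBanachLattice X]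
variable {Y : Type v} [NormedAddCommGroup Y] [NormedSpace ℝ Y] [Lattice Y] [IsBanachLattice Y]

lemma add_sub_pos_le {a b j : X} (hj : 0 ≤ j) (ha : 0 ≤ a) (hb : 0 ≤ b) (h : a ⊓ b = 0) :
    (a - j) ⊔ 0 + (b - j) ⊔ 0 ≤ (a + b - j) ⊔ 0 := by
  have h1 : ((a - j) ⊔ 0) ⊓ ((b - j) ⊔ 0) = 0 :=
    inf_eq_zero_of_le le_sup_right le_sup_right (sup_le (sub_le_self _ hj) ha)
      (sup_le (sub_le_self _ hj) hb) h
  have h2 := inf_add_sup ((a - j) ⊔ 0) ((b - j) ⊔ 0)
  rw [h1, zero_add] at h2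
  rw [← h2]
  refine sup_le (sup_le_sup_right ?_ _) (sup_le_sup_right ?_ _)
  · exact sub_le_sub_right (le_add_of_nonneg_right hb) _
  · exact sub_le_sub_right (le_add_of_nonneg_left ha) _

lemma sum_sub_pos_le {ι : Type*} (s : Finset ι) (a : ι → X) (j : X) (hj : 0 ≤ j)
    (ha : ∀ i, 0 ≤ a i) (h : ∀ i k, i ≠ k → a i ⊓ a k = 0) :
    ∑ i ∈ s, ((a i - j) ⊔ 0) ≤ (∑ i ∈ s, a i - j) ⊔ 0 := by
  classical
  induction s using Finset.induction_on with
  | empty => simp
  | insert i s hi ih =>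
    rw [Finset.sum_insert hi, Finset.sum_insert hi]
    refine (add_le_add le_rfl ih).trans (add_sub_pos_le hj (ha i)
      (Finset.sum_nonneg fun k _ => ha k) ?_)
    exact inf_sum_of_inf (ha i) s a (fun k _ => ha k) fun k hk => h i k (by
      rintro rfl; exact hi hk)

/-- Finite-dimensional Banach lattices are projective: the form needed here. -/
theorem finite_lift {Q : X →L[ℝ] Y} (hQ : IsQuot Q) (x : ℕ → X) (hx0 : ∀ i, 0 ≤ x i)
    (hxd : ∀ i j, i ≠ j → x i ⊓ x j = 0) {κ : Type*} (K : Finset κ) (N : ℕ) (c : κ → ℕ → ℝ)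
    {δ : ℝ} (hδ : 0 < δ) (hc : ∀ k ∈ K, ∀ i, δ ≤ c k i) {η : ℝ} (hη : 0 < η) :
    ∃ w : X, 0 ≤ w ∧ Q w = 0 ∧ ∀ k ∈ K,
      ‖∑ i ∈ Finset.range N, c k i • ((x i - w) ⊔ 0)‖ ≤
        ‖∑ i ∈ Finset.range N, c k i • Q (x i)‖ + η := by
  classical
  have h1 : ∀ k, ∃ z, Q z = ∑ i ∈ Finset.range N, c k i • Q (x i) ∧
      ‖z‖ < ‖∑ i ∈ Finset.range N, c k i • Q (x i)‖ + η := fun k => hQ.lift _ η hη
  choose z hz hzn using h1
  let s : κ → X := fun k => ∑ i ∈ Finset.range N, c k i • x i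
  have hQs : ∀ k, Q (s k) = Q (z k) := fun k => by
    rw [hz, map_sum]; exact Finset.sum_congr rfl fun i _ => map_smul _ _ _
  have hs0 : ∀ k ∈ K, 0 ≤ s k := fun k hk => Finset.sum_nonneg fun i _ =>
    IsBanachLattice.smul_nonneg _ _ (hδ.le.trans (hc k hk i)) (hx0 i)
  let j : κ → X := fun k => s k - s k ⊓ |z k|
  have hj0 : ∀ k, 0 ≤ j k := fun k => sub_nonneg.mpr inf_le_left
  have hQj : ∀ k ∈ K, Q (j k) = 0 := by
    intro k hk
    have h2 := latHom_nonneg hQ.hom (hs0 k hk)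
    simp only [j]
    rw [map_sub, latHom_inf hQ.hom, latHom_abs hQ.hom, ← hQs, abs_of_nonneg h2, inf_idem, sub_self]
  have hw0 : 0 ≤ ∑ k ∈ K, j k := Finset.sum_nonneg fun k _ => hj0 k
  refine ⟨δ⁻¹ • ∑ k ∈ K, j k, IsBanachLattice.smul_nonneg _ _ (inv_nonneg.mpr hδ.le) hw0, ?_,
    fun k hk => ?_⟩
  · rw [map_smul, map_sum, Finset.sum_eq_zero fun k hk => hQj k hk, smul_zero]
  · set w := δ⁻¹ • ∑ k ∈ K, j k with hw
    have hjw : ∀ i, j k ≤ c k i • w := by
      intro i
      have h3 : j k ≤ ∑ k ∈ K, j k := Finset.single_le_sum (fun k _ => hj0 k) hk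
      refine h3.trans ?_
      rw [hw, smul_smul]
      have h4 : (1 : ℝ) ≤ c k i * δ⁻¹ := by
        rw [← div_eq_mul_inv, le_div_iff₀ hδ, one_mul]; exact hc k hk i
      have := smul_mono_left (X := X) h4 hw0
      rwa [one_smul] at this
    have h5 : ∑ i ∈ Finset.range N, c k i • ((x i - w) ⊔ 0) ≤ s k ⊓ |z k| := by
      calc ∑ i ∈ Finset.range N, c k i • ((x i - w) ⊔ 0)
          ≤ ∑ i ∈ Finset.range N, ((c k i • x i - j k) ⊔ 0) := by
            refine Finset.sum_le_sum fun i _ => ?_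
            rw [smul_sup (hδ.le.trans (hc k hk i)), smul_zero, smul_sub]
            exact sup_le_sup_right (sub_le_sub_left (hjw i) _) _
        _ ≤ (∑ i ∈ Finset.range N, c k i • x i - j k) ⊔ 0 := by
            refine sum_sub_pos_le _ _ _ (hj0 k) (fun i => IsBanachLattice.smul_nonneg _ _
              (hδ.le.trans (hc k hk i)) (hx0 i)) fun i l hil => ?_
            refine inf_smul_of_inf (IsBanachLattice.smul_nonneg _ _
              (hδ.le.trans (hc k hk i)) (hx0 i)) (hx0 l) ?_ (hδ.le.trans (hc k hk l))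
            rw [inf_comm]
            refine inf_smul_of_inf (hx0 l) (hx0 i) ?_ (hδ.le.trans (hc k hk i))
            rw [inf_comm]; exact hxd i l hil
        _ = s k ⊓ |z k| := by
            have : ∑ i ∈ Finset.range N, c k i • x i - j k = s k ⊓ |z k| := by
              simp only [j, s]; abel
            rw [this, sup_eq_left.mpr (le_inf (hs0 k hk) (abs_nonneg _))]
    have h6 : 0 ≤ ∑ i ∈ Finset.range N, c k i • ((x i - w) ⊔ 0) :=
      Finset.sum_nonneg fun i _ => IsBanachLattice.smul_nonneg _ _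
        (hδ.le.trans (hc k hk i)) le_sup_right
    have h7 : ‖∑ i ∈ Finset.range N, c k i • ((x i - w) ⊔ 0)‖ ≤ ‖z k‖ := by
      rw [← norm_abs_eq_norm (z k)]
      refine norm_le_norm_of_abs_le_abs ?_
      rw [abs_of_nonneg h6, abs_abs]
      exact h5.trans inf_le_right
    exact h7.trans (hzn k).le

end FD

/-- the two weight sequences -/
noncomputable def al (i : ℕ) : ℝ := if i = 0 then 1 else 1 - 1 / (i + 1)
noncomputable def be (i : ℕ) : ℝ := if i = 0 then 1 / 2 else 1

lemma al_le (i : ℕ) : al i ≤ 1 := by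
  unfold al; split_ifs
  · exact le_rfl
  · have : (0 : ℝ) < 1 / ((i : ℝ) + 1) := by positivity
    linarith
lemma be_le (i : ℕ) : be i ≤ 1 := by unfold be; split_ifs <;> norm_num
lemma al_ge (i : ℕ) : 1 / 2 ≤ al i := by
  unfold al; split_ifs with h
  · norm_num
  · have h1 : (1 : ℝ) ≤ i := by exact_mod_cast Nat.one_le_iff_ne_zero.mpr h
    have h2 : 1 / ((i : ℝ) + 1) ≤ 1 / 2 := one_div_le_one_div_of_le (by norm_num) (by linarith)
    linarith
lemma be_pos (i : ℕ) : 0 < be i := by unfold be; split_ifs <;> norm_num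
lemma al_pos (i : ℕ) : 0 < al i := by linarith [al_ge i]

noncomputable def wsum (a : ℕ → ℝ) (m : ℕ) : ℕ →₀ ℝ := ∑ i ∈ Finset.range m, Finsupp.single i (a i)

lemma wsum_apply (a : ℕ → ℝ) (m i : ℕ) : wsum a m i = if i < m then a i else 0 := by
  unfold wsum
  rw [Finsupp.finsetSum_apply]
  simp only [Finsupp.single_apply]
  rw [Finset.sum_ite_eq']
  simp

lemma val_wsum (a : ℕ → ℝ) (m : ℕ) (x : ℕ → ℝ) : val (wsum a m) x =
    ∑ i ∈ Finset.range m, a i * |x i| := by
  rw [val_eq x (Finset.range m)]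
  · refine Finset.sum_congr rfl fun i hi => ?_
    rw [wsum_apply, if_pos (Finset.mem_range.mp hi)]
  · intro i hi
    rw [wsum_apply] at hi
    by_contra h
    rw [Finset.mem_range] at h
    rw [if_neg h] at hi
    exact hi rfl

/-- the data of the lattice `P` -/
noncomputable def dP : KData ℕ where
  W := {w | (∃ m, w = wsum al m) ∨ ∃ m, w = wsum be m}
  nonneg := by
    rintro w (⟨m, rfl⟩ | ⟨m, rfl⟩) i <;> rw [wsum_apply] <;> split_ifs
    · exact (al_pos i).le
    · exact le_rfl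
    · exact (be_pos i).le
    · exact le_rfl
  cover := fun i => ⟨_, Or.inl ⟨i + 1, rfl⟩, by rw [wsum_apply, if_pos (by omega)]; exact al_pos i⟩
  R := ⊤
  sup_mem := fun _ _ _ _ => trivial
  closed := fun _ _ => trivial

/-- the Banach lattice `P` -/
abbrev PP : Type := dP.Sp

lemma PP_al (x : PP) (m : ℕ) : ∑ i ∈ Finset.range m, al i * |dP.fn x i| ≤ ‖x‖ := by
  rw [← val_wsum]; exact KData.val_le_norm x (Or.inl ⟨m, rfl⟩)
lemma PP_be (x : PP) (m : ℕ) : ∑ i ∈ Finset.range m, be i * |dP.fn x i| ≤ ‖x‖ := by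
  rw [← val_wsum]; exact KData.val_le_norm x (Or.inr ⟨m, rfl⟩)

theorem P_like : L1Like dP 2 where
  R_top := rfl
  le_one := by
    rintro w (⟨m, rfl⟩ | ⟨m, rfl⟩) i <;> rw [wsum_apply] <;> split_ifs
    · exact al_le i
    · norm_num
    · exact be_le i
    · norm_num
  sum_le := fun x m => by
    have h1 : ∑ i ∈ Finset.range m, |dP.fn x i| ≤
        ∑ i ∈ Finset.range m, 2 * (al i * |dP.fn x i|) := by
      refine Finset.sum_le_sum fun i _ => ?_
      nlinarith [al_ge i, abs_nonneg (dP.fn x i)]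
    rw [← Finset.mul_sum] at h1
    linarith [PP_al x m]

lemma PP_norm_le (x : PP) {C : ℝ} (hC : 0 ≤ C)
    (h1 : ∀ m, ∑ i ∈ Finset.range m, al i * |dP.fn x i| ≤ C)
    (h2 : ∀ m, ∑ i ∈ Finset.range m, be i * |dP.fn x i| ≤ C) : ‖x‖ ≤ C := by
  refine KData.norm_le' x hC ?_
  rintro w (⟨m, rfl⟩ | ⟨m, rfl⟩) <;> rw [val_wsum]
  · exact h1 m
  · exact h2 m

lemma norm_e0 : ‖P_like.e 0‖ = 1 := by
  refine le_antisymm (P_like.norm_e_le 0) ?_
  have := PP_al (P_like.e 0) 1
  rw [Finset.sum_range_one, P_like.fn_e, if_pos rfl] at this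
  simpa [al] using this

lemma norm_ei {i : ℕ} (hi : i ≠ 0) : ‖P_like.e i‖ = 1 := by
  refine le_antisymm (P_like.norm_e_le i) ?_
  refine le_trans ?_ (PP_be (P_like.e i) (i + 1))
  rw [Finset.sum_eq_single i]
  · rw [P_like.fn_e, if_pos rfl]; simp [be, hi]
  · intro j _ hj; rw [P_like.fn_e, if_neg hj]; simp
  · simp

lemma norm_e0i {i : ℕ} (hi : i ≠ 0) : ‖P_like.e 0 + P_like.e i‖ < 2 := by
  have hi' : (0 : ℝ) < 1 / ((i : ℝ) + 1) := by positivity
  have key : ∀ (a : ℕ → ℝ), (∀ i, 0 ≤ a i) → ∀ m, ∑ j ∈ Finset.range m,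
      a j * |dP.fn (P_like.e 0 + P_like.e i) j| ≤ a 0 + a i := by
    intro a ha m
    have h1 : ∀ j, a j * |dP.fn (P_like.e 0 + P_like.e i) j| =
        (if j = 0 then a j else 0) + if j = i then a j else 0 := by
      intro j
      rw [KData.fn_add, P_like.fn_e, P_like.fn_e]
      by_cases h0 : j = 0
      · subst h0
        rw [if_pos rfl, if_neg (Ne.symm hi), if_pos rfl, if_neg (Ne.symm hi)]; simp
      · rw [if_neg h0, if_neg h0]
        split_ifs <;> simp
    simp only [h1, Finset.sum_add_distrib, Finset.sum_ite_eq']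
    split_ifs <;> linarith [ha 0, ha i]
  have h2 : ‖P_like.e 0 + P_like.e i‖ ≤ max (al 0 + al i) (be 0 + be i) := by
    refine PP_norm_le _ (le_max_of_le_left ?_) (fun m => ?_) (fun m => ?_)
    · linarith [al_pos 0, al_pos i]
    · exact (key al (fun j => (al_pos j).le) m).trans (le_max_left _ _)
    · exact (key be (fun j => (be_pos j).le) m).trans (le_max_right _ _)
  refine h2.trans_lt (max_lt ?_ ?_)
  · unfold al; rw [if_pos rfl, if_neg hi]; linarith
  · unfold be; rw [if_pos rfl, if_neg hi]; norm_num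

/-- `P` is Dedekind complete. -/
theorem P_dedekind : DedekindComplete PP := by
  intro S hS hb
  obtain ⟨a, ha⟩ := hS
  obtain ⟨b, hb⟩ := hb
  have hbd : ∀ i, BddAbove (Set.range fun z : S => dP.fn z.1 i) := fun i =>
    ⟨dP.fn b i, by rintro _ ⟨z, rfl⟩; exact hb z.2 i⟩
  have h1 : ∀ i, dP.fn a i ≤ ⨆ z : S, dP.fn z.1 i := fun i => le_ciSup (hbd i) ⟨a, ha⟩
  have : Nonempty S := ⟨⟨a, ha⟩⟩
  have h2 : ∀ i, (⨆ z : S, dP.fn z.1 i) ≤ dP.fn b i := fun i =>
    ciSup_le fun z => hb z.2 i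
  let s : PP := KData.el (fun i => ⨆ z : S, dP.fn z.1 i) trivial
    (KData.bound_of a b _ fun i => by
      rw [abs_le]
      constructor
      · linarith [h1 i, neg_abs_le (dP.fn a i), abs_nonneg (dP.fn b i)]
      · linarith [h2 i, le_abs_self (dP.fn b i), abs_nonneg (dP.fn a i)])
  refine ⟨s, fun z hz i => le_ciSup (hbd i) ⟨z, hz⟩, fun c hc i => ?_⟩
  exact ciSup_le fun z => hc z.2 i

/-- `P` is not an `ℓ₁`-sum of finite-dimensional lattices -/
theorem P_not_l1sum : ¬ IsL1SumFD PP := by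
  rintro ⟨F, i1, i2, i3, i4, i5, Φ, hΦ⟩
  classical
  have H := P_like
  have hpos : ∀ z : PP, 0 ≤ z → ∀ n, 0 ≤ (Φ z : ∀ n, F n) n := by
    intro z hz n
    have := hΦ z 0 n
    rw [sup_eq_left.mpr hz, map_zero] at this
    rw [this]; exact le_sup_right
  have hle : ∀ z z' : PP, (∀ n, (Φ z : ∀ n, F n) n ≤ (Φ z' : ∀ n, F n) n) → z ≤ z' := by
    intro z z' h
    rw [← sup_eq_right]
    apply Φ.injective
    ext n
    rw [hΦ, sup_eq_right.mpr (h n)]
  -- each `Φ (e i)` lives in one block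
  have hone : ∀ i n m, n ≠ m → (Φ (H.e i) : ∀ n, F n) n ≠ 0 →
      (Φ (H.e i) : ∀ n, F n) m = 0 := by
    intro i n m hnm hn
    by_contra hm
    let u : PP := Φ.symm (lp.single 1 n ((Φ (H.e i) : ∀ n, F n) n))
    have hu : ∀ k, (Φ u : ∀ n, F n) k = if h : k = n then h ▸ (Φ (H.e i) : ∀ n, F n) n else 0 := by
      intro k
      simp only [u, LinearIsometryEquiv.apply_symm_apply]
      rw [lp.coeFn_single]
      by_cases h : k = n
      · subst h; simp
      · rw [dif_neg h, Pi.single_eq_of_ne h]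
    have hun : (Φ u : ∀ n, F n) n = (Φ (H.e i) : ∀ n, F n) n := by rw [hu]; simp
    have huk : ∀ k, k ≠ n → (Φ u : ∀ n, F n) k = 0 := fun k hk => by rw [hu, dif_neg hk]
    have h0 : 0 ≤ u := by
      refine hle 0 u fun k => ?_
      rw [map_zero]
      by_cases h : k = n
      · subst h; rw [hun]; exact hpos _ (H.e_nonneg i) _
      · rw [huk k h]; exact le_rfl
    have h1 : u ≤ H.e i := by
      refine hle _ _ fun k => ?_
      by_cases h : k = n
      · subst h; rw [hun]
      · rw [huk k h]; exact hpos _ (H.e_nonneg i) _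
    have h2 : u = dP.fn u i • H.e i := by
      ext j
      rw [KData.fn_smul, H.fn_e]
      by_cases hj : j = i
      · subst hj; rw [if_pos rfl, mul_one]
      · rw [if_neg hj, mul_zero]
        have h3 := h0 j
        have h4 := h1 j
        have h5 : dP.fn u j ≤ dP.fn (H.e i) j := h4
        rw [H.fn_e, if_neg hj] at h5
        exact le_antisymm h5 h3
    have h6 : (Φ u : ∀ n, F n) m = dP.fn u i • (Φ (H.e i) : ∀ n, F n) m := by
      conv_lhs => rw [h2]
      rw [map_smul]; rfl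
    rw [huk m (Ne.symm hnm)] at h6
    have h7 : dP.fn u i = 0 := by
      rcases smul_eq_zero.mp h6.symm with h | h
      · exact h
      · exact absurd h hm
    rw [h7, zero_smul] at h2
    rw [h2, map_zero] at hun
    exact hn hun.symm
  have hex : ∀ i, ∃ n, (Φ (H.e i) : ∀ n, F n) n ≠ 0 := by
    intro i
    by_contra h
    push Not at h
    have h1 : Φ (H.e i) = 0 := by ext n; exact h n
    have h2 : H.e i = 0 := by
      have := congrArg Φ.symm h1
      simpa using this
    have h3 := congrArg (fun z => dP.fn z i) h2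
    simp only [H.fn_e, if_true, KData.fn_zero] at h3
    exact one_ne_zero h3
  obtain ⟨n0, hn0⟩ := hex 0
  by_cases hall : ∀ i, ∀ n, n ≠ n0 → (Φ (H.e i) : ∀ n, F n) n = 0
  · -- infinitely many independent vectors in a finite-dimensional space
    have hli : LinearIndependent ℝ (fun i => (Φ (H.e i) : ∀ n, F n) n0) := by
      rw [linearIndependent_iff']
      intro s g hg i hi
      have h1 : Φ (∑ i ∈ s, g i • H.e i) = 0 := by
        ext n
        rw [map_sum, lp.coeFn_sum, Finset.sum_apply]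
        by_cases h : n = n0
        · subst h
          refine Eq.trans (Finset.sum_congr rfl fun i _ => ?_) hg
          rw [map_smul]; rfl
        · refine Finset.sum_eq_zero fun i _ => ?_
          rw [map_smul]
          show g i • (Φ (H.e i) : ∀ n, F n) n = 0
          rw [hall i n h, smul_zero]
      have h2 : ∑ i ∈ s, g i • H.e i = 0 := by
        have := congrArg Φ.symm h1
        simpa using this
      have h3 := congrArg (fun z => dP.fn z i) h2
      simp only [KData.fn_zero] at h3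
      rw [H.fn_sum] at h3
      simp only [KData.fn_smul, H.fn_e, mul_ite, mul_one, mul_zero] at h3
      rw [Finset.sum_ite_eq, if_pos hi] at h3
      exact h3
    have := hli.finite_of_isNoetherian
    exact not_finite ℕ
  · push Not at hall
    obtain ⟨i, n, hn, hin⟩ := hall
    have hi0 : i ≠ 0 := by
      rintro rfl
      exact hin (hone 0 n0 n (Ne.symm hn) hn0)
    have h1 : ‖Φ (H.e 0 + H.e i)‖ = ‖Φ (H.e 0)‖ + ‖Φ (H.e i)‖ := by
      have e1 := lp.hasSum_norm (p := 1) (by simp) (Φ (H.e 0 + H.e i))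
      have e2 := lp.hasSum_norm (p := 1) (by simp) (Φ (H.e 0))
      have e3 := lp.hasSum_norm (p := 1) (by simp) (Φ (H.e i))
      simp only [ENNReal.toReal_one, Real.rpow_one] at e1 e2 e3
      refine e1.unique ?_
      convert e2.add e3 using 1
      funext k
      rw [map_add]
      show ‖(Φ (H.e 0) : ∀ n, F n) k + (Φ (H.e i) : ∀ n, F n) k‖ = _
      by_cases hk : k = n0
      · have : (Φ (H.e i) : ∀ n, F n) k = 0 := hone i n k (by rw [hk]; exact hn) hin
        rw [this]; simp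
      · have : (Φ (H.e 0) : ∀ n, F n) k = 0 := hone 0 n0 k (Ne.symm hk) hn0
        rw [this]; simp
    rw [Φ.norm_map, Φ.norm_map, Φ.norm_map, norm_e0, norm_ei hi0] at h1
    have := norm_e0i hi0
    linarith

end Pool.Agent.Q195.BL
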