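import Mathlib
import Pool.Agent.Q195.BL7

set_option autoImplicit false
set_option linter.unusedSectionVars false

/-! The Banach lattice `P` of `BL7` is projective. -/

namespace Pool.Agent.Q195.BL

open Topology Filter

universe u v w

section Op

variable {D : KData ℕ} {C : ℝ} (H : L1Like D C)
variable {X : Type u} [NormedAddCommGroup X] [NormedSpace ℝ X] [Lattice X] [IsBanachLattice X]

lemma L1Like.op_norm_le (a : ℕ → X) (M : ℝ) (ha : ∀ i, ‖a i‖ ≤ M) (x : D.Sp) :
    ‖H.op a M ha x‖ ≤ (∑' i, |D.fn x i|) * M := by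
  rw [H.op_apply, ← tsum_mul_right]
  refine tsum_of_norm_bounded ((H.summable x).mul_right M).hasSum fun i => ?_
  rw [norm_smul, Real.norm_eq_abs]
  exact mul_le_mul_of_nonneg_left (ha i) (abs_nonneg _)

lemma L1Like.op_e (a : ℕ → X) (M : ℝ) (ha : ∀ i, ‖a i‖ ≤ M) (i : ℕ) :
    H.op a M ha (H.e i) = a i := by
  rw [H.op_apply, tsum_eq_single i]
  · rw [H.fn_e, if_pos rfl, one_smul]
  · intro j hj; rw [H.fn_e, if_neg hj, zero_smul]

end Op

lemma al_mono {N i : ℕ} (hN : 1 ≤ N) (h : N ≤ i) : al N ≤ al i := by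
  unfold al
  rw [if_neg (by omega), if_neg (by omega)]
  have : (N : ℝ) ≤ i := by exact_mod_cast h
  have h2 : 1 / ((i : ℝ) + 1) ≤ 1 / ((N : ℝ) + 1) :=
    one_div_le_one_div_of_le (by positivity) (by linarith)
  linarith

lemma split_bound (x p r : PP) {N : ℕ} (hN : 1 ≤ N)
    (hp : ∀ i, |dP.fn p i| = if i < N then |dP.fn x i| else 0)
    (hr : ∀ i, |dP.fn r i| = if i < N then 0 else |dP.fn x i|) :
    ‖p‖ + al N * ∑' i, |dP.fn r i| ≤ ‖x‖ := by
  have haN : 0 < al N := al_pos N
  -- the pointwise estimate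
  have key : ∀ (a : ℕ → ℝ), (∀ i, 0 < a i) → (∀ i, N ≤ i → al N ≤ a i) →
      (∀ m, ∑ i ∈ Finset.range m, a i * |dP.fn x i| ≤ ‖x‖) →
      ∀ m, ∑ i ∈ Finset.range m, a i * |dP.fn p i| + al N * ∑' i, |dP.fn r i| ≤ ‖x‖ := by
    intro a ha hal hx m
    have h1 : ∀ M, ∑ i ∈ Finset.range M, |dP.fn r i| ≤
        (‖x‖ - ∑ i ∈ Finset.range m, a i * |dP.fn p i|) / al N := by
      intro M
      rw [le_div_iff₀ haN, mul_comm, Finset.mul_sum]
      have h2 : ∑ i ∈ Finset.range m, a i * |dP.fn p i| ≤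
          ∑ i ∈ Finset.range (max m M), a i * |dP.fn p i| :=
        Finset.sum_le_sum_of_subset_of_nonneg
          (Finset.range_subset_range.mpr (le_max_left _ _))
          fun i _ _ => mul_nonneg (ha i).le (abs_nonneg _)
      have h3 : ∑ i ∈ Finset.range M, al N * |dP.fn r i| ≤
          ∑ i ∈ Finset.range (max m M), al N * |dP.fn r i| :=
        Finset.sum_le_sum_of_subset_of_nonneg
          (Finset.range_subset_range.mpr (le_max_right _ _))
          fun i _ _ => mul_nonneg haN.le (abs_nonneg _)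
      have h4 : ∑ i ∈ Finset.range (max m M), a i * |dP.fn p i| +
          ∑ i ∈ Finset.range (max m M), al N * |dP.fn r i| ≤ ‖x‖ := by
        refine le_trans ?_ (hx (max m M))
        rw [← Finset.sum_add_distrib]
        refine Finset.sum_le_sum fun i _ => ?_
        rw [hp, hr]
        split_ifs with h
        · simp
        · rw [mul_zero, zero_add]
          exact mul_le_mul_of_nonneg_right (hal i (by omega)) (abs_nonneg _)
      linarith
    have h5 := (P_like.summable r).tsum_le_of_sum_range_le h1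
    rw [le_div_iff₀ haN] at h5
    linarith
  have k1 := key al al_pos (fun i hi => al_mono hN hi) (PP_al x)
  have k2 := key be be_pos (fun i hi => by
    unfold be; rw [if_neg (by omega)]; exact al_le N) (PP_be x)
  have h0 : 0 ≤ ‖x‖ - al N * ∑' i, |dP.fn r i| := by
    have := k1 0
    rw [Finset.range_zero, Finset.sum_empty, zero_add] at this
    linarith
  have := PP_norm_le p h0 (fun m => by linarith [k1 m]) (fun m => by linarith [k2 m])
  linarith

theorem P_projective : Projective.{u, 0} PP := by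
  intro X Y _ _ _ _ _ _ _ _ Q hQ T hT ε hε
  rcases eq_or_ne T 0 with rfl | hT0
  · exact ⟨0, fun x y => by simp, fun p => by simp, by simp⟩
  have ht : 0 < ‖T‖ := norm_pos_iff.mpr hT0
  have H := P_like
  set t := ‖T‖ with htdef
  set η := ε / 8 with hη
  have hη0 : 0 < η := by positivity
  obtain ⟨N', hN'⟩ := exists_nat_gt (1 / η)
  set N := N' + 1 with hN
  have hN1 : 1 ≤ N := by omega
  have hal : 1 - al N ≤ η := by
    unfold al
    rw [if_neg (by omega), sub_sub_cancel, div_le_iff₀ (by positivity)]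
    have h2 : (N : ℝ) = N' + 1 := by rw [hN]; push_cast; ring
    rw [div_lt_iff₀ hη0] at hN'
    rw [h2]; nlinarith
  set δ := η / N with hδ
  have hNpos : (0 : ℝ) < N := by exact_mod_cast hN1
  have hδ0 : 0 < δ := div_pos hη0 hNpos
  have hy : ∀ i, 0 ≤ T (H.e i) := fun i => latHom_nonneg hT (H.e_nonneg i)
  choose x0 hx00 hx0Q hx0n using fun i => hQ.lift_nonneg (hy i) (mul_pos hη0 ht)
  obtain ⟨x, hx, hxle, hxQ, hxd⟩ := lift_disjoint hQ.hom (fun i => T (H.e i))
    (fun i j hij => by rw [← latHom_inf hT, H.e_inf i j hij, map_zero]) x0 hx00 hx0Q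
  have hxM : ∀ i, ‖x i‖ ≤ (1 + η) * t := by
    intro i
    have h1 : ‖x i‖ ≤ ‖x0 i‖ := norm_le_norm_of_abs_le_abs (by
      rw [abs_of_nonneg (hx i), abs_of_nonneg (hx00 i)]; exact hxle i)
    have h2 : ‖T (H.e i)‖ ≤ t :=
      (T.le_opNorm _).trans (mul_le_of_le_one_right (norm_nonneg _) (H.norm_e_le i))
    linarith [hx0n i]
  -- the net
  set M := ⌊2 / δ⌋₊ + 1 with hM
  let c : (Fin N → Fin M) → ℕ → ℝ := fun k i =>
    if h : i < N then (((k ⟨i, h⟩ : ℕ) : ℝ) + 1) * δ else δ
  have hc : ∀ k ∈ (Finset.univ : Finset (Fin N → Fin M)), ∀ i, δ ≤ c k i := by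
    intro k _ i
    simp only [c]
    split_ifs with h
    · have : (0 : ℝ) ≤ ((k ⟨i, h⟩ : ℕ) : ℝ) := Nat.cast_nonneg _
      nlinarith
    · exact le_rfl
  obtain ⟨w, hw0, hQw, hw⟩ := finite_lift hQ x hx hxd Finset.univ N c hδ0 hc (mul_pos hη0 ht)
  let x' : ℕ → X := fun i => if i < N then (x i - w) ⊔ 0 else x i
  have hx'0 : ∀ i, 0 ≤ x' i := by
    intro i; simp only [x']; split_ifs
    · exact le_sup_right
    · exact hx i
  have hx'le : ∀ i, x' i ≤ x i := by
    intro i; simp only [x']; split_ifs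
    · exact sup_le (sub_le_self _ hw0) (hx i)
    · exact le_rfl
  have hx'd : ∀ i j, i ≠ j → x' i ⊓ x' j = 0 := fun i j hij =>
    inf_eq_zero_of_le (hx'0 i) (hx'0 j) (hx'le i) (hx'le j) (hxd i j hij)
  have hx'Q : ∀ i, Q (x' i) = T (H.e i) := by
    intro i; simp only [x']; split_ifs
    · rw [hQ.hom, map_sub, hQw, map_zero, sub_zero, hxQ]
      exact sup_eq_left.mpr (hy i)
    · exact hxQ i
  have hx'M : ∀ i, ‖x' i‖ ≤ (1 + η) * t := fun i =>
    (norm_le_norm_of_abs_le_abs (by
      rw [abs_of_nonneg (hx'0 i), abs_of_nonneg (hx i)]; exact hx'le i)).trans (hxM i)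
  have hS := H.op_latHom x' _ hx'M hx'0 hx'd
  refine ⟨H.op x' _ hx'M, hS, H.op_lift T x' _ hx'M hx'Q, ?_⟩
  refine ContinuousLinearMap.opNorm_le_of_unit_norm (by positivity) fun z hz => ?_
  have hzabs : ‖H.op x' _ hx'M z‖ = ‖H.op x' _ hx'M |z|‖ := by
    rw [latHom_abs hS, norm_abs_eq_norm]
  rw [hzabs]
  -- split `|z| = p + r`
  let p : PP := ∑ i ∈ Finset.range N, |dP.fn z i| • H.e i
  have hpf : ∀ i, dP.fn p i = if i < N then |dP.fn z i| else 0 := by
    intro i
    simp only [p]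
    rw [H.fn_sum]
    simp only [KData.fn_smul, H.fn_e, mul_ite, mul_one, mul_zero]
    rw [Finset.sum_ite_eq]; simp
  let r : PP := |z| - p
  have hrf : ∀ i, dP.fn r i = if i < N then 0 else |dP.fn z i| := by
    intro i
    simp only [r]
    rw [KData.fn_sub, hpf, KData.fn_abs]; split_ifs <;> simp
  have hsplit := split_bound z p r hN1
    (fun i => by rw [hpf]; split_ifs <;> simp) (fun i => by rw [hrf]; split_ifs <;> simp)
  rw [hz] at hsplit
  set τ := ∑' i, |dP.fn r i| with hτ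
  have hτ0 : 0 ≤ τ := tsum_nonneg fun _ => abs_nonneg _
  have hτ2 : τ ≤ 2 := by
    have h1 := al_ge N
    nlinarith [norm_nonneg p]
  have hpt : ‖p‖ + τ ≤ 1 + 2 * η := by nlinarith
  -- the first part
  have hci : ∀ i, |dP.fn z i| ≤ 2 := by
    intro i
    have h1 := H.sum_le z (i + 1)
    rw [hz, mul_one] at h1
    refine le_trans ?_ h1
    exact Finset.single_le_sum (f := fun i => |dP.fn z i|) (fun _ _ => abs_nonneg _)
      (Finset.mem_range.mpr (Nat.lt_succ_self i))
  have hk : ∀ i : Fin N, ⌊|dP.fn z i| / δ⌋₊ < M := by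
    intro i
    rw [hM, Nat.lt_succ_iff]
    exact Nat.floor_le_floor (div_le_div_of_nonneg_right (hci i) hδ0.le)
  let k : Fin N → Fin M := fun i => ⟨_, hk i⟩
  have hck : ∀ i, i < N → |dP.fn z i| ≤ c k i ∧ c k i ≤ |dP.fn z i| + δ := by
    intro i hi
    simp only [c, k]
    rw [dif_pos hi]
    have h1 := Nat.lt_floor_add_one (|dP.fn z i| / δ)
    have h2 := Nat.floor_le (div_nonneg (abs_nonneg (dP.fn z i)) hδ0.le)
    rw [div_lt_iff₀ hδ0] at h1
    rw [le_div_iff₀ hδ0] at h2
    constructor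
    · exact h1.le
    · linarith
  have hfirst : ‖H.op x' _ hx'M p‖ ≤ t * (‖p‖ + 2 * η) := by
    have h1 : H.op x' _ hx'M p = ∑ i ∈ Finset.range N, |dP.fn z i| • ((x i - w) ⊔ 0) := by
      simp only [p]
      rw [map_sum]
      refine Finset.sum_congr rfl fun i hi => ?_
      rw [map_smul, H.op_e]
      simp only [x']
      rw [if_pos (Finset.mem_range.mp hi)]
    have h2 : ‖∑ i ∈ Finset.range N, |dP.fn z i| • ((x i - w) ⊔ 0)‖ ≤
        ‖∑ i ∈ Finset.range N, c k i • ((x i - w) ⊔ 0)‖ := by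
      refine norm_le_norm_of_abs_le_abs ?_
      rw [abs_of_nonneg (Finset.sum_nonneg fun i _ =>
        IsBanachLattice.smul_nonneg _ _ (abs_nonneg _) le_sup_right)]
      refine le_trans ?_ (le_abs_self _)
      exact Finset.sum_le_sum fun i hi =>
        smul_mono_left (hck i (Finset.mem_range.mp hi)).1 le_sup_right
    have h3 := hw k (Finset.mem_univ _)
    have h4 : ∑ i ∈ Finset.range N, c k i • Q (x i) =
        T (∑ i ∈ Finset.range N, c k i • H.e i) := by
      rw [map_sum]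
      exact Finset.sum_congr rfl fun i _ => by rw [map_smul, hxQ]
    have h5 : ‖∑ i ∈ Finset.range N, c k i • H.e i‖ ≤ ‖p‖ + η := by
      have h6 : ∑ i ∈ Finset.range N, c k i • H.e i =
          p + ∑ i ∈ Finset.range N, (c k i - |dP.fn z i|) • H.e i := by
        simp only [p]
        rw [← Finset.sum_add_distrib]
        exact Finset.sum_congr rfl fun i _ => by rw [← add_smul]; congr 1; ring
      rw [h6]
      refine (norm_add_le _ _).trans (add_le_add le_rfl ?_)
      refine (norm_sum_le _ _).trans ?_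
      have h7 : ∀ i ∈ Finset.range N, ‖(c k i - |dP.fn z i|) • H.e i‖ ≤ δ := by
        intro i hi
        have h8 := hck i (Finset.mem_range.mp hi)
        rw [norm_smul, Real.norm_eq_abs, abs_of_nonneg (sub_nonneg.mpr h8.1)]
        exact (mul_le_of_le_one_right (sub_nonneg.mpr h8.1) (H.norm_e_le i)).trans
          (by linarith [h8.2])
      refine (Finset.sum_le_sum h7).trans ?_
      rw [Finset.sum_const, Finset.card_range, nsmul_eq_mul, hδ, mul_div_cancel₀ _ hNpos.ne']
    rw [h1]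
    refine h2.trans (h3.trans ?_)
    rw [h4]
    have h9 : ‖T (∑ i ∈ Finset.range N, c k i • H.e i)‖ ≤ t * (‖p‖ + η) :=
      (T.le_opNorm _).trans (mul_le_mul_of_nonneg_left h5 ht.le)
    nlinarith
  have hsecond : ‖H.op x' _ hx'M r‖ ≤ τ * ((1 + η) * t) := H.op_norm_le x' _ hx'M r
  have hzz : |z| = p + r := by simp only [r]; abel
  rw [hzz, map_add]
  refine (norm_add_le _ _).trans ((add_le_add hfirst hsecond).trans ?_)
  have h1 : t * (‖p‖ + 2 * η) + τ * ((1 + η) * t) = t * (‖p‖ + τ + 2 * η + τ * η) := by ring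
  rw [h1, mul_comm]
  refine mul_le_mul_of_nonneg_right ?_ ht.le
  have h2 : τ * η ≤ 2 * η := mul_le_mul_of_nonneg_right hτ2 hη0.le
  have h3 : ε = 8 * η := by rw [hη]; ring
  linarith

end Pool.Agent.Q195.BL
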