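import Mathlib

set_option autoImplicit false

/-! `ℓ_p`, `1 < p < ∞`, is not sequentially Buo-complete. -/

namespace Pool.Agent.Q195.BU

open Filter Topology

/-- the tent -/
noncomputable def ψ (u : ℝ) : ℝ := max 0 (1 - |2 * u - 1|)

lemma ψ_nonneg (u : ℝ) : 0 ≤ ψ u := le_max_left _ _

lemma ψ_le (u : ℝ) : ψ u ≤ 1 := max_le zero_le_one (by linarith [abs_nonneg (2 * u - 1)])

lemma ψ_zero (u : ℝ) (h : u ≤ 0 ∨ 1 ≤ u) : ψ u = 0 := by
  apply max_eq_left
  rcases h with h | h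
  · rw [abs_of_nonpos (by linarith)]; linarith
  · rw [abs_of_nonneg (by linarith)]; linarith

lemma ψ_half : ψ (1 / 2) = 1 := by
  unfold ψ; norm_num

lemma ψ_lip (u v : ℝ) : |ψ u - ψ v| ≤ 2 * |u - v| := by
  unfold ψ
  refine (abs_max_sub_max_le_max 0 (1 - |2 * u - 1|) 0 (1 - |2 * v - 1|)).trans ?_
  rw [sub_self, abs_zero, max_eq_right (abs_nonneg _)]
  have e : (1 - |2 * u - 1|) - (1 - |2 * v - 1|) = |2 * v - 1| - |2 * u - 1| := by ring
  rw [e]
  refine (abs_abs_sub_abs_le _ _).trans ?_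
  have e2 : 2 * v - 1 - (2 * u - 1) = -(2 * (u - v)) := by ring
  rw [e2, abs_neg, abs_mul, abs_of_pos (by norm_num : (0:ℝ) < 2)]

lemma ψ_diff (u v : ℝ) : |ψ u - ψ v| ≤ min 1 (2 * |u - v|) := by
  apply le_min _ (ψ_lip u v)
  rw [abs_le]
  constructor <;> linarith [ψ_nonneg u, ψ_nonneg v, ψ_le u, ψ_le v]

lemma ψ_floor (u : ℝ) (s : ℕ) (h : (s : ℤ) ≠ ⌊u⌋) : ψ (u - s) = 0 := by
  apply ψ_zero
  rcases lt_or_gt_of_ne h with h | h
  · right
    have h1 : ((s : ℤ) + 1 : ℤ) ≤ ⌊u⌋ := h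
    have h2 : (((s : ℤ) + 1 : ℤ) : ℝ) ≤ u := Int.le_floor.mp h1
    push_cast at h2
    linarith
  · left
    have h2 := Int.floor_lt.mp h
    push_cast at h2
    linarith

lemma sum_ind (N : ℕ) (a : ℤ) (M : ℝ) (hM : 0 ≤ M) :
    ∑ s ∈ Finset.range N, (if (s : ℤ) = a then M else 0) ≤ M := by
  by_cases ha : 0 ≤ a
  · have : ∀ s ∈ Finset.range N, (if (s : ℤ) = a then M else 0) = if s = a.toNat then M else 0 := by
      intro s _
      have : ((s : ℤ) = a) ↔ s = a.toNat := by omega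
      simp only [this]
    rw [Finset.sum_congr rfl this, Finset.sum_ite_eq']
    split_ifs
    · exact le_rfl
    · exact hM
  · rw [Finset.sum_eq_zero]
    · exact hM
    · intro s _
      rw [if_neg (by omega)]

variable {p : ℝ}

/-- one level -/
lemma level (hp : 1 < p) (N : ℕ) (u v : ℝ) :
    ∑ s ∈ Finset.range N, |ψ (u - s) - ψ (v - s)| ^ p ≤ 2 * (min 1 (2 * |u - v|)) ^ p := by
  have hp0 : 0 < p := by linarith
  set M := (min 1 (2 * |u - v|)) ^ p with hMd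
  have hm : 0 ≤ min 1 (2 * |u - v|) := le_min zero_le_one (by positivity)
  have hM : 0 ≤ M := Real.rpow_nonneg hm _
  have h1 : ∀ s ∈ Finset.range N, |ψ (u - s) - ψ (v - s)| ^ p ≤
      (if (s : ℤ) = ⌊u⌋ then M else 0) + (if (s : ℤ) = ⌊v⌋ then M else 0) := by
    intro s _
    have h2 : |ψ (u - s) - ψ (v - s)| ^ p ≤ M := by
      apply Real.rpow_le_rpow (abs_nonneg _) _ hp0.le
      have := ψ_diff (u - s) (v - s)
      rwa [sub_sub_sub_cancel_right] at this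
    by_cases hu : (s : ℤ) = ⌊u⌋
    · rw [if_pos hu]
      split_ifs <;> linarith
    · by_cases hv : (s : ℤ) = ⌊v⌋
      · rw [if_neg hu, if_pos hv]; linarith
      · rw [if_neg hu, if_neg hv, ψ_floor u s hu, ψ_floor v s hv]
        simp [Real.zero_rpow hp0.ne']
  refine (Finset.sum_le_sum h1).trans ?_
  rw [Finset.sum_add_distrib]
  have h3 := sum_ind N ⌊u⌋ M hM
  have h4 := sum_ind N ⌊v⌋ M hM
  linarith

/-- all levels -/
lemma levels (hp : 1 < p) (b : ℕ) (h : ℝ) (h0 : 0 ≤ h) (h1 : h ≤ 1) :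
    ∑ l ∈ Finset.range b, (1 / 2 : ℝ) ^ l * (min 1 (2 * (2 ^ l * h))) ^ p ≤
      (4 + 2 * (2 * 2 ^ p / (2 ^ p - 2))) * h - (2 * 2 ^ p / (2 ^ p - 2)) * h ^ p := by
  have hp0 : 0 < p := by linarith
  set c : ℝ := (2:ℝ) ^ p with hc
  have hc2 : 2 < c := by
    have : (2:ℝ) ^ (1:ℝ) < 2 ^ p := Real.rpow_lt_rpow_of_exponent_lt (by norm_num) hp
    rwa [Real.rpow_one] at this
  set B : ℝ := 2 * c / (c - 2) with hB
  have hB0 : 0 < B := div_pos (by linarith) (by linarith)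
  have hBc : B * (c / 2 - 1) = c := by
    rw [hB]
    have : c - 2 ≠ 0 := by linarith
    field_simp
  induction b generalizing h with
  | zero =>
    rw [Finset.sum_range_zero]
    have h2 : h ^ p ≤ h := by
      calc h ^ p ≤ h ^ (1:ℝ) := Real.rpow_le_rpow_of_exponent_ge' h0 h1 (by norm_num) hp.le
        _ = h := Real.rpow_one h
    nlinarith
  | succ b ih =>
    rcases le_or_gt h (1 / 2) with hh | hh
    · rw [Finset.sum_range_succ']
      have e1 : ∑ l ∈ Finset.range b, (1 / 2 : ℝ) ^ (l + 1) * (min 1 (2 * (2 ^ (l + 1) * h))) ^ p =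
          1 / 2 * ∑ l ∈ Finset.range b, (1 / 2 : ℝ) ^ l * (min 1 (2 * (2 ^ l * (2 * h)))) ^ p := by
        rw [Finset.mul_sum]
        apply Finset.sum_congr rfl
        intro l _
        have : 2 * ((2:ℝ) ^ (l + 1) * h) = 2 * (2 ^ l * (2 * h)) := by ring
        rw [this]
        ring
      rw [e1]
      have h2 := ih (2 * h) (by linarith) (by linarith)
      have e2 : (2 * h) ^ p = c * h ^ p := Real.mul_rpow (by norm_num) h0
      have e3 : (min 1 (2 * (2 ^ 0 * h))) ^ p = c * h ^ p := by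
        rw [pow_zero, one_mul, min_eq_right (by linarith), e2]
      rw [e3, pow_zero, one_mul]
      rw [e2] at h2
      have h3 : 0 ≤ h ^ p := Real.rpow_nonneg h0 _
      have h4 : B * (c / 2 - 1) * h ^ p = c * h ^ p := by rw [hBc]
      nlinarith
    · have h2 : ∑ l ∈ Finset.range (b + 1), (1 / 2 : ℝ) ^ l * (min 1 (2 * (2 ^ l * h))) ^ p ≤ 2 := by
        calc ∑ l ∈ Finset.range (b + 1), (1 / 2 : ℝ) ^ l * (min 1 (2 * (2 ^ l * h))) ^ p ≤
            ∑ l ∈ Finset.range (b + 1), (1 / 2 : ℝ) ^ l := by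
              apply Finset.sum_le_sum
              intro l _
              have h5 : (min 1 (2 * (2 ^ l * h))) ^ p ≤ 1 :=
                Real.rpow_le_one (le_min zero_le_one (by positivity)) (min_le_left _ _) hp0.le
              have h6 : (0:ℝ) ≤ (1 / 2) ^ l := by positivity
              nlinarith
          _ ≤ 2 := by
              have := sum_geometric_two_le (b + 1)
              simpa using this
      have h3 : h ^ p ≤ h := by
        calc h ^ p ≤ h ^ (1:ℝ) := Real.rpow_le_rpow_of_exponent_ge' h0 h1 (by norm_num) hp.le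
          _ = h := Real.rpow_one h
      have h4 : B * h ^ p ≤ B * h := mul_le_mul_of_nonneg_left h3 hB0.le
      nlinarith

/-- the Hölder estimate for a block -/
lemma block (hp : 1 < p) : ∃ A : ℝ, 0 ≤ A ∧ ∀ (b N : ℕ) (τ σ : ℝ), |τ - σ| ≤ 1 →
    ∑ l ∈ Finset.range b, (1 / 2 : ℝ) ^ l *
      ∑ s ∈ Finset.range N, |ψ (2 ^ l * τ - s) - ψ (2 ^ l * σ - s)| ^ p ≤ A * |τ - σ| := by
  have hc2 : (2:ℝ) < 2 ^ p := by
    have : (2:ℝ) ^ (1:ℝ) < 2 ^ p := Real.rpow_lt_rpow_of_exponent_lt (by norm_num) hp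
    rwa [Real.rpow_one] at this
  have hB0 : (0:ℝ) ≤ 2 * 2 ^ p / (2 ^ p - 2) := (div_pos (by positivity) (by linarith)).le
  refine ⟨2 * (4 + 2 * (2 * 2 ^ p / (2 ^ p - 2))), by positivity, fun b N τ σ hτ => ?_⟩
  have h1 := levels hp b |τ - σ| (abs_nonneg _) hτ
  have h2 : ∑ l ∈ Finset.range b, (1 / 2 : ℝ) ^ l *
      ∑ s ∈ Finset.range N, |ψ (2 ^ l * τ - s) - ψ (2 ^ l * σ - s)| ^ p ≤
      ∑ l ∈ Finset.range b, 2 * ((1 / 2 : ℝ) ^ l * (min 1 (2 * (2 ^ l * |τ - σ|))) ^ p) := by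
    apply Finset.sum_le_sum
    intro l _
    have h3 := level hp N (2 ^ l * τ) (2 ^ l * σ)
    have e : |(2:ℝ) ^ l * τ - 2 ^ l * σ| = 2 ^ l * |τ - σ| := by
      rw [← mul_sub, abs_mul, abs_of_pos (by positivity)]
    rw [e] at h3
    have h4 : (0:ℝ) ≤ (1 / 2) ^ l := by positivity
    have h5 := mul_le_mul_of_nonneg_left h3 h4
    linarith
  rw [← Finset.mul_sum] at h2
  have h3 : 0 ≤ (2 * 2 ^ p / (2 ^ p - 2)) * |τ - σ| ^ p :=
    mul_nonneg hB0 (Real.rpow_nonneg (abs_nonneg _) _)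
  linarith

end Pool.Agent.Q195.BU
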