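import Pool.Agent.Q195.BU1

set_option autoImplicit false

/-! `ℓ_p`, `1 < p < ∞`, is not sequentially Buo-complete: the sequence. -/

namespace Pool.Agent.Q195.BU

open Filter Topology

/-- membership in `ℓ_p` -/
def InLp (p : ℝ) (a : ℕ → ℝ) : Prop := Summable fun j => |a j| ^ p

/-- order convergence of a sequence in `ℓ_p` -/
def OrderConv (p : ℝ) (d : ℕ → ℕ → ℝ) (l : ℕ → ℝ) : Prop :=
  ∃ z : ℕ → ℕ → ℝ, (∀ m, InLp p (z m)) ∧ (∀ m, z (m + 1) ≤ z m) ∧ (∀ m, 0 ≤ z m) ∧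
    (∀ w, InLp p w → (∀ m, w ≤ z m) → w ≤ 0) ∧
    ∀ m, ∃ N, ∀ k, N ≤ k → ∀ j, |d k j - l j| ≤ z m j

lemma orderConv_zero (p : ℝ) (hp : 0 < p) (d : ℕ → ℕ → ℝ) (y : ℕ → ℝ) (hy : InLp p y)
    (hy0 : ∀ j, 0 ≤ y j) (hd : ∀ k j, |d k j| ≤ y j) (hz : ∀ j, ∃ K, ∀ k, K ≤ k → d k j = 0) :
    OrderConv p d 0 := by
  choose K hK using hz
  refine ⟨fun m j => if m < K j then y j else 0, fun m => ?_, fun m j => ?_, fun m j => ?_,
    fun w _ hw j => ?_, fun m => ⟨m, fun k hk j => ?_⟩⟩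
  · refine Summable.of_nonneg_of_le (fun j => Real.rpow_nonneg (abs_nonneg _) _) (fun j => ?_) hy
    dsimp only
    split_ifs
    · exact le_rfl
    · rw [abs_zero, Real.zero_rpow hp.ne']; exact Real.rpow_nonneg (abs_nonneg _) _
  · dsimp only
    split_ifs with h1 h2
    · exact le_rfl
    · omega
    · exact hy0 j
    · exact le_rfl
  · dsimp only [Pi.zero_apply]
    split_ifs
    · exact hy0 j
    · exact le_rfl
  · have := hw (K j) j
    dsimp only at this
    rwa [if_neg (lt_irrefl _)] at this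
  · rw [Pi.zero_apply, sub_zero]
    dsimp only
    split_ifs with h
    · exact hd k j
    · rw [hK j k (by omega), abs_zero]

/-- block times -/
noncomputable def τ (b n : ℕ) : ℝ := max 0 (min 1 ((n : ℝ) / 2 ^ b - 1))

lemma τ_nonneg (b n : ℕ) : 0 ≤ τ b n := le_max_left _ _

lemma τ_le (b n : ℕ) : τ b n ≤ 1 := max_le zero_le_one (min_le_left _ _)

lemma τ_mono (b : ℕ) {n m : ℕ} (h : n ≤ m) : τ b n ≤ τ b m := by
  unfold τ
  apply max_le_max le_rfl
  apply min_le_min le_rfl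
  have : (n:ℝ) ≤ m := by exact_mod_cast h
  have h2 : (n:ℝ) / 2 ^ b ≤ m / 2 ^ b := by gcongr
  linarith

lemma τ_low (b n : ℕ) (h : n ≤ 2 ^ b) : τ b n = 0 := by
  unfold τ
  apply max_eq_left
  apply (min_le_right _ _).trans
  have : (n:ℝ) ≤ 2 ^ b := by exact_mod_cast h
  have h2 : (n:ℝ) / 2 ^ b ≤ 1 := by rw [div_le_one (by positivity)]; exact this
  linarith

lemma τ_high (b n : ℕ) (h : 2 ^ (b + 1) ≤ n) : τ b n = 1 := by
  unfold τ
  have : (2:ℝ) ^ (b + 1) ≤ n := by exact_mod_cast h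
  have h2 : (2:ℝ) ≤ n / 2 ^ b := by
    rw [le_div_iff₀ (by positivity)]
    calc (2:ℝ) * 2 ^ b = 2 ^ (b + 1) := by ring
      _ ≤ n := this
  rw [min_eq_left (by linarith)]
  exact max_eq_right zero_le_one

lemma τ_peak (b l s : ℕ) (hl : l < b) (hs : s < 2 ^ l) :
    2 ^ l * τ b (2 ^ b + s * 2 ^ (b - l) + 2 ^ (b - l - 1)) - s = 1 / 2 := by
  have hb : (2:ℝ) ^ b = 2 ^ l * 2 ^ (b - l) := by rw [← pow_add]; congr 1; omega
  have hb2 : (2:ℝ) ^ (b - l) = 2 * 2 ^ (b - l - 1) := by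
    rw [← pow_succ']; congr 1; omega
  have e : (((2 ^ b + s * 2 ^ (b - l) + 2 ^ (b - l - 1) : ℕ)) : ℝ) / 2 ^ b - 1 =
      (s + 1 / 2) / 2 ^ l := by
    push_cast
    rw [hb, hb2]
    field_simp
    ring
  have hs' : (s:ℝ) + 1 ≤ 2 ^ l := by exact_mod_cast hs
  unfold τ
  rw [e, min_eq_right, max_eq_right]
  · field_simp
    ring
  · positivity
  · rw [div_le_one (by positivity)]; linarith

lemma ψ_end (b n l s : ℕ) (h : n ≤ 2 ^ b ∨ 2 ^ (b + 1) ≤ n) : ψ (2 ^ l * τ b n - s) = 0 := by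
  apply ψ_zero
  rcases h with h | h
  · rw [τ_low b n h]
    left
    have : (0:ℝ) ≤ s := Nat.cast_nonneg s
    linarith
  · rw [τ_high b n h, mul_one]
    rcases Nat.lt_or_ge s (2 ^ l) with hs | hs
    · right
      have : (s:ℝ) + 1 ≤ 2 ^ l := by exact_mod_cast hs
      linarith
    · left
      have : (2:ℝ) ^ l ≤ s := by exact_mod_cast hs
      linarith

/-- amplitude, to the power `p` -/
noncomputable def am (b l : ℕ) : ℝ := 1 / ((b:ℝ) + 1) ^ 2 * (1 / 2) ^ l

lemma am_pos (b l : ℕ) : 0 < am b l := by unfold am; positivity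

/-- the sequence, indexed by triples -/
noncomputable def X (p : ℝ) (n : ℕ) (i : ℕ × (ℕ × ℕ)) : ℝ :=
  if i.2.1 < i.1 then (am i.1 i.2.1) ^ (1 / p) * ψ (2 ^ i.2.1 * τ i.1 n - i.2.2) else 0

lemma X_low (p : ℝ) (n : ℕ) (i : ℕ × (ℕ × ℕ)) (h : n ≤ 2 ^ i.1 ∨ 2 ^ (i.1 + 1) ≤ n) :
    X p n i = 0 := by
  unfold X
  rw [ψ_end _ _ _ _ h, mul_zero, ite_self]

lemma X_diff (p : ℝ) (hp : 0 < p) (n m : ℕ) (i : ℕ × (ℕ × ℕ)) : |X p n i - X p m i| ^ p =
    if i.2.1 < i.1 then am i.1 i.2.1 * |ψ (2 ^ i.2.1 * τ i.1 n - i.2.2) -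
      ψ (2 ^ i.2.1 * τ i.1 m - i.2.2)| ^ p else 0 := by
  unfold X
  split_ifs
  · rw [← mul_sub, abs_mul, abs_of_nonneg (Real.rpow_nonneg (am_pos _ _).le _),
      Real.mul_rpow (Real.rpow_nonneg (am_pos _ _).le _) (abs_nonneg _), ← Real.rpow_mul (am_pos _ _).le,
      one_div_mul_cancel hp.ne', Real.rpow_one]
  · rw [sub_zero, abs_zero, Real.zero_rpow hp.ne']

lemma X_zero_of (p : ℝ) (n : ℕ) (i : ℕ × (ℕ × ℕ)) (h : i.2.2 ∉ Finset.range (2 ^ i.1)) :
    X p n i = 0 := by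
  unfold X
  split_ifs with hl
  · have h1 : 2 ^ i.1 ≤ i.2.2 := by simpa using h
    have h2 : (2:ℝ) ^ i.2.1 ≤ i.2.2 := by
      calc (2:ℝ) ^ i.2.1 ≤ 2 ^ i.1 := pow_le_pow_right₀ (by norm_num) hl.le
        _ ≤ i.2.2 := by exact_mod_cast h1
    have h3 := τ_le i.1 n
    rw [ψ_zero, mul_zero]
    left
    have : (2:ℝ) ^ i.2.1 * τ i.1 n ≤ 2 ^ i.2.1 * 1 := mul_le_mul_of_nonneg_left h3 (by positivity)
    linarith
  · rfl

/-- The elements of the sequence have finite support. -/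
lemma X_summable (p : ℝ) (hp : 0 < p) (n : ℕ) : Summable fun i => |X p n i| ^ p := by
  apply summable_of_ne_finset_zero (s := (Finset.range n) ×ˢ ((Finset.range n) ×ˢ (Finset.range (2 ^ n))))
  intro i hi
  rw [Finset.mem_product, Finset.mem_product] at hi
  have : X p n i = 0 := by
    by_cases h1 : i.1 < n
    · by_cases h2 : i.2.1 < i.1
      · apply X_zero_of
        intro h3
        apply hi
        refine ⟨Finset.mem_range.mpr h1, Finset.mem_range.mpr (by omega), Finset.mem_range.mpr ?_⟩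
        exact lt_of_lt_of_le (Finset.mem_range.mp h3) (Nat.pow_le_pow_right (by norm_num) h1.le)
      · unfold X; rw [if_neg h2]
    · apply X_low
      left
      have : i.1 < 2 ^ i.1 := Nat.lt_two_pow_self
      omega
  rw [this, abs_zero, Real.zero_rpow hp.ne']

/-- the dominating function of a subsequence -/
noncomputable def Y (p : ℝ) (ν : ℕ → ℕ) (i : ℕ × (ℕ × ℕ)) : ℝ :=
  ∑ k ∈ Finset.range (2 ^ (i.1 + 1)), |X p (ν (k + 1)) i - X p (ν k) i| ^ p

lemma Y_nonneg (p : ℝ) (ν : ℕ → ℕ) (i : ℕ × (ℕ × ℕ)) : 0 ≤ Y p ν i :=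
  Finset.sum_nonneg fun _ _ => Real.rpow_nonneg (abs_nonneg _) _

lemma Y_summable (p : ℝ) (hp : 1 < p) (ν : ℕ → ℕ) (hν : StrictMono ν) : Summable (Y p ν) := by
  have hp0 : 0 < p := by linarith
  obtain ⟨A, hA0, hA⟩ := block hp
  have hY0 : ∀ b q, q ∉ (Finset.range b) ×ˢ (Finset.range (2 ^ b)) → Y p ν (b, q) = 0 := by
    intro b q hq
    unfold Y
    apply Finset.sum_eq_zero
    intro k _
    rw [X_diff p hp0]
    by_cases h1 : q.1 < b
    · have h2 : q.2 ∉ Finset.range (2 ^ b) := by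
        intro h3
        exact hq (Finset.mem_product.mpr ⟨Finset.mem_range.mpr h1, h3⟩)
      rw [← X_diff p hp0 (ν (k + 1)) (ν k) (b, q), X_zero_of p _ (b, q) h2,
        X_zero_of p _ (b, q) h2, sub_zero, abs_zero, Real.zero_rpow hp0.ne']
    · rw [if_neg h1]
  rw [summable_prod_of_nonneg (fun i => Y_nonneg p ν i)]
  refine ⟨fun b => summable_of_ne_finset_zero (hY0 b), ?_⟩
  have hb : ∀ b, ∑' q, Y p ν (b, q) ≤ 1 / ((b:ℝ) + 1) ^ 2 * A := by
    intro b
    rw [tsum_eq_sum (hY0 b), Finset.sum_product]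
    have e1 : ∑ l ∈ Finset.range b, ∑ s ∈ Finset.range (2 ^ b), Y p ν (b, (l, s)) =
        1 / ((b:ℝ) + 1) ^ 2 * ∑ k ∈ Finset.range (2 ^ (b + 1)),
          ∑ l ∈ Finset.range b, (1 / 2 : ℝ) ^ l * ∑ s ∈ Finset.range (2 ^ b),
            |ψ (2 ^ l * τ b (ν (k + 1)) - s) - ψ (2 ^ l * τ b (ν k) - s)| ^ p := by
      unfold Y
      rw [Finset.mul_sum]
      have : ∀ l ∈ Finset.range b, ∑ s ∈ Finset.range (2 ^ b), ∑ k ∈ Finset.range (2 ^ (b + 1)),
          |X p (ν (k + 1)) (b, (l, s)) - X p (ν k) (b, (l, s))| ^ p =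
          ∑ k ∈ Finset.range (2 ^ (b + 1)), 1 / ((b:ℝ) + 1) ^ 2 * ((1 / 2 : ℝ) ^ l *
            ∑ s ∈ Finset.range (2 ^ b),
            |ψ (2 ^ l * τ b (ν (k + 1)) - s) - ψ (2 ^ l * τ b (ν k) - s)| ^ p) := by
        intro l hl
        rw [Finset.sum_comm]
        apply Finset.sum_congr rfl
        intro k _
        rw [Finset.mul_sum, Finset.mul_sum]
        apply Finset.sum_congr rfl
        intro s _
        rw [X_diff p hp0, if_pos (Finset.mem_range.mp hl)]
        unfold am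
        ring
      rw [Finset.sum_congr rfl this, Finset.sum_comm]
      apply Finset.sum_congr rfl
      intro k _
      rw [Finset.mul_sum]
    rw [e1]
    apply mul_le_mul_of_nonneg_left _ (by positivity)
    have e2 : ∀ k ∈ Finset.range (2 ^ (b + 1)), ∑ l ∈ Finset.range b, (1 / 2 : ℝ) ^ l *
        ∑ s ∈ Finset.range (2 ^ b),
          |ψ (2 ^ l * τ b (ν (k + 1)) - s) - ψ (2 ^ l * τ b (ν k) - s)| ^ p ≤
        A * (τ b (ν (k + 1)) - τ b (ν k)) := by
      intro k _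
      have h1 := τ_mono b (hν (Nat.lt_succ_self k)).le
      have h2 := τ_nonneg b (ν k)
      have h3 := τ_le b (ν (k + 1))
      have e3 : |τ b (ν (k + 1)) - τ b (ν k)| = τ b (ν (k + 1)) - τ b (ν k) :=
        abs_of_nonneg (by linarith)
      have h4 := hA b (2 ^ b) (τ b (ν (k + 1))) (τ b (ν k)) (by rw [e3]; linarith)
      rwa [e3] at h4
    refine (Finset.sum_le_sum e2).trans ?_
    rw [← Finset.mul_sum, Finset.sum_range_sub (fun k => τ b (ν k))]
    have h2 := τ_nonneg b (ν 0)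
    have h3 := τ_le b (ν (2 ^ (b + 1)))
    calc A * (τ b (ν (2 ^ (b + 1))) - τ b (ν 0)) ≤ A * 1 :=
          mul_le_mul_of_nonneg_left (by linarith) hA0
      _ = A := mul_one A
  refine Summable.of_nonneg_of_le (fun b => tsum_nonneg fun q => Y_nonneg p ν _) hb ?_
  apply Summable.mul_right
  have h1 : Summable fun n : ℕ => 1 / (n:ℝ) ^ 2 := Real.summable_one_div_nat_pow.mpr (by norm_num)
  have h2 := (summable_nat_add_iff 1).mpr h1
  simpa using h2

/-- The sequence is not order bounded. -/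
lemma not_bdd (p : ℝ) (hp : 0 < p) (w : ℕ × (ℕ × ℕ) → ℝ) (hw : Summable fun i => |w i| ^ p)
    (N : ℕ) (h : ∀ n, N ≤ n → ∀ i, |X p n i| ≤ w i) : False := by
  rw [summable_prod_of_nonneg (fun i => Real.rpow_nonneg (abs_nonneg _) _)] at hw
  obtain ⟨hw1, hw2⟩ := hw
  have key : ∀ b, N ≤ b → 1 ≤ b → 1 / 4 * (1 / (b:ℝ)) ≤ ∑' q, |w (b, q)| ^ p := by
    intro b hb hb1
    have h1 : ∀ l, l < b → ∀ s, s < 2 ^ l → am b l ≤ |w (b, (l, s))| ^ p := by
      intro l hl s hs
      have hN2 : N ≤ 2 ^ b + s * 2 ^ (b - l) + 2 ^ (b - l - 1) := by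
        have h0 : b < 2 ^ b := Nat.lt_two_pow_self
        rw [add_assoc]
        exact hb.trans (h0.le.trans (Nat.le_add_right _ _))
      have h2 := h (2 ^ b + s * 2 ^ (b - l) + 2 ^ (b - l - 1)) hN2 (b, (l, s))
      have h3 : X p (2 ^ b + s * 2 ^ (b - l) + 2 ^ (b - l - 1)) (b, (l, s)) = (am b l) ^ (1 / p) := by
        unfold X
        rw [if_pos hl, τ_peak b l s hl hs, ψ_half, mul_one]
      rw [h3, abs_of_nonneg (Real.rpow_nonneg (am_pos _ _).le _)] at h2
      have h4 := Real.rpow_le_rpow (Real.rpow_nonneg (am_pos b l).le _) (h2.trans (le_abs_self _)) hp.le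
      rwa [← Real.rpow_mul (am_pos _ _).le, one_div_mul_cancel hp.ne', Real.rpow_one] at h4
    have h5 := (hw1 b).sum_le_tsum ((Finset.range b) ×ˢ (Finset.range (2 ^ b)))
      (fun q _ => Real.rpow_nonneg (abs_nonneg _) _)
    refine le_trans ?_ h5
    rw [Finset.sum_product]
    have h6 : ∀ l ∈ Finset.range b, 1 / ((b:ℝ) + 1) ^ 2 ≤
        ∑ s ∈ Finset.range (2 ^ b), |w (b, (l, s))| ^ p := by
      intro l hl
      have hl' := Finset.mem_range.mp hl
      have h7 : ∑ s ∈ Finset.range (2 ^ l), |w (b, (l, s))| ^ p ≤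
          ∑ s ∈ Finset.range (2 ^ b), |w (b, (l, s))| ^ p := by
        apply Finset.sum_le_sum_of_subset_of_nonneg
        · intro s hs
          rw [Finset.mem_range] at hs ⊢
          exact lt_of_lt_of_le hs (Nat.pow_le_pow_right (by norm_num) hl'.le)
        · intro s _ _
          exact Real.rpow_nonneg (abs_nonneg _) _
      have h8 : ∑ s ∈ Finset.range (2 ^ l), am b l ≤ ∑ s ∈ Finset.range (2 ^ l), |w (b, (l, s))| ^ p :=
        Finset.sum_le_sum fun s hs => h1 l hl' s (Finset.mem_range.mp hs)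
      rw [Finset.sum_const, Finset.card_range, nsmul_eq_mul] at h8
      have h9 : ((2 ^ l : ℕ) : ℝ) * am b l = 1 / ((b:ℝ) + 1) ^ 2 := by
        unfold am
        push_cast
        rw [one_div, one_div, inv_pow]
        field_simp
      linarith
    have h10 := Finset.sum_le_sum h6
    rw [Finset.sum_const, Finset.card_range, nsmul_eq_mul] at h10
    refine le_trans ?_ h10
    have hbr : (1:ℝ) ≤ b := by exact_mod_cast hb1
    rw [mul_one_div, mul_one_div, div_le_div_iff₀ (by linarith) (by positivity)]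
    nlinarith
  apply Real.not_summable_one_div_natCast
  have h2 : Summable fun b : ℕ => 1 / 4 * (1 / (b:ℝ)) := by
    refine Summable.of_norm_bounded_eventually_nat hw2 ?_
    filter_upwards [eventually_ge_atTop (max N 1)] with b hb
    rw [Real.norm_eq_abs, abs_of_nonneg (by positivity)]
    exact key b ((le_max_left _ _).trans hb) ((le_max_right _ _).trans hb)
  have h3 := h2.mul_left 4
  refine h3.congr fun b => ?_
  ring

/-- an enumeration of the triples -/
noncomputable def en : ℕ ≃ ℕ × (ℕ × ℕ) := (Denumerable.eqv (ℕ × (ℕ × ℕ))).symm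

/-- The main theorem. -/
theorem main (p : ℝ) (hp : 1 < p) : ∃ x : ℕ → ℕ → ℝ, (∀ n, InLp p (x n)) ∧
    (∀ ν : ℕ → ℕ, StrictMono ν → OrderConv p (fun k j => x (ν (k + 1)) j - x (ν k) j) 0) ∧
    (∀ w, InLp p w → ∀ N, ¬ ∀ n, N ≤ n → ∀ j, |x n j| ≤ w j) ∧
    ∀ a, ¬ OrderConv p x a := by
  have hp0 : 0 < p := by linarith
  have hbd : ∀ w, InLp p w → ∀ N, ¬ ∀ n, N ≤ n → ∀ j, |X p n (en j)| ≤ w j := by
    intro w hw N h
    refine not_bdd p hp0 (fun i => w (en.symm i)) ?_ N fun n hn i => ?_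
    · rw [← en.summable_iff]
      unfold InLp at hw
      simpa [Function.comp_def] using hw
    · have := h n hn (en.symm i)
      rwa [Equiv.apply_symm_apply] at this
  refine ⟨fun n j => X p n (en j), fun n => ?_, fun ν hν => ?_, hbd, fun a ha => ?_⟩
  · exact en.summable_iff.mpr (X_summable p hp0 n)
  · apply orderConv_zero p hp0 _ (fun j => (Y p ν (en j)) ^ (1 / p))
    · have h1 := en.summable_iff.mpr (Y_summable p hp ν hν)
      refine h1.congr fun j => ?_
      rw [Function.comp_apply, abs_of_nonneg (Real.rpow_nonneg (Y_nonneg _ _ _) _),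
        ← Real.rpow_mul (Y_nonneg _ _ _), one_div_mul_cancel hp0.ne', Real.rpow_one]
    · intro j
      exact Real.rpow_nonneg (Y_nonneg _ _ _) _
    · intro k j
      by_cases hk : k < 2 ^ ((en j).1 + 1)
      · have h1 : |X p (ν (k + 1)) (en j) - X p (ν k) (en j)| ^ p ≤ Y p ν (en j) :=
          Finset.single_le_sum (f := fun k => |X p (ν (k + 1)) (en j) - X p (ν k) (en j)| ^ p)
            (fun _ _ => Real.rpow_nonneg (abs_nonneg _) _) (Finset.mem_range.mpr hk)
        have h2 := Real.rpow_le_rpow (Real.rpow_nonneg (abs_nonneg _) _) h1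
          (show 0 ≤ 1 / p by positivity)
        rwa [← Real.rpow_mul (abs_nonneg _), mul_one_div_cancel hp0.ne', Real.rpow_one] at h2
      · have h1 : k ≤ ν k := hν.le_apply
        have h2 : k + 1 ≤ ν (k + 1) := hν.le_apply
        change |X p (ν (k + 1)) (en j) - X p (ν k) (en j)| ≤ _
        rw [X_low p (ν k) (en j) (Or.inr (by omega)), X_low p (ν (k + 1)) (en j) (Or.inr (by omega)),
          sub_zero, abs_zero]
        exact Real.rpow_nonneg (Y_nonneg _ _ _) _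
    · intro j
      refine ⟨2 ^ ((en j).1 + 1), fun k hk => ?_⟩
      have h1 : k ≤ ν k := hν.le_apply
      have h2 : k + 1 ≤ ν (k + 1) := hν.le_apply
      change X p (ν (k + 1)) (en j) - X p (ν k) (en j) = 0
      rw [X_low p (ν k) (en j) (Or.inr (by omega)), X_low p (ν (k + 1)) (en j) (Or.inr (by omega)),
        sub_zero]
  · obtain ⟨z, hz1, -, hz3, -, hz5⟩ := ha
    obtain ⟨N, hN⟩ := hz5 0
    have ha0 : ∀ j, |a j| ≤ z 0 j := by
      intro j
      have h1 := hN (max N (2 ^ ((en j).1 + 1))) (le_max_left _ _) j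
      dsimp only at h1
      rw [X_low p _ (en j) (Or.inr (le_max_right _ _)), zero_sub, abs_neg] at h1
      exact h1
    refine hbd (fun j => 2 * z 0 j) ?_ N fun n hn j => ?_
    · have h1 := (hz1 0).mul_left ((2:ℝ) ^ p)
      refine h1.congr fun j => ?_
      rw [abs_mul, abs_of_pos (by norm_num : (0:ℝ) < 2), Real.mul_rpow (by norm_num) (abs_nonneg _)]
    · have h1 := hN n hn j
      have h2 := ha0 j
      have h3 : |X p n (en j)| ≤ |X p n (en j) - a j| + |a j| := by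
        have := abs_add_le (X p n (en j) - a j) (a j)
        rwa [sub_add_cancel] at this
      linarith

end Pool.Agent.Q195.BU
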