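import Pool.Agent.Q195.MB1

set_option autoImplicit false

namespace Pool.Agent.Q195.CE

open Filter Topology Pool.Agent.Q195.MB

/-- Basic sequence: a Schauder basis of its closed linear span. -/
def IsBasic {V : Type} [NormedAddCommGroup V] [NormedSpace ℝ V] (u : ℕ → V) : Prop :=
  ∀ v ∈ (Submodule.span ℝ (Set.range u)).topologicalClosure, ∃! a : ℕ → ℝ,
    Tendsto (fun N => ∑ n ∈ Finset.range N, a n • u n) atTop (𝓝 v)

/-- Equivalence of sequences: the same coefficient sequences give convergent series. -/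
def Equivalent {V W : Type} [NormedAddCommGroup V] [NormedSpace ℝ V] [NormedAddCommGroup W]
    [NormedSpace ℝ W] (u : ℕ → V) (w : ℕ → W) : Prop :=
  ∀ a : ℕ → ℝ, (∃ v, Tendsto (fun N => ∑ n ∈ Finset.range N, a n • u n) atTop (𝓝 v)) ↔
    (∃ z, Tendsto (fun N => ∑ n ∈ Finset.range N, a n • w n) atTop (𝓝 z))

lemma span_eventually {V : Type} [NormedAddCommGroup V] [NormedSpace ℝ V] (u : ℕ → V)
    (φ : ℕ → V →L[ℝ] ℝ) (hbi : ∀ i j, φ i (u j) = if i = j then 1 else 0) :
    ∀ w ∈ Submodule.span ℝ (Set.range u), ∃ N0, ∀ N ≥ N0,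
      ∑ n ∈ Finset.range N, φ n w • u n = w := by
  intro w hw
  induction hw using Submodule.span_induction with
  | mem w hw =>
    obtain ⟨m, rfl⟩ := hw
    refine ⟨m + 1, fun N hN => ?_⟩
    rw [Finset.sum_eq_single m]
    · rw [hbi, if_pos rfl, one_smul]
    · intro n _ hn; rw [hbi, if_neg hn, zero_smul]
    · intro h; exact absurd (Finset.mem_range.mpr (by omega)) h
  | zero => exact ⟨0, fun N _ => by simp⟩
  | add a b _ _ h1 h2 =>
    obtain ⟨N1, h1⟩ := h1
    obtain ⟨N2, h2⟩ := h2
    refine ⟨max N1 N2, fun N hN => ?_⟩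
    simp only [map_add, add_smul, Finset.sum_add_distrib]
    rw [h1 N (le_of_max_le_left hN), h2 N (le_of_max_le_right hN)]
  | smul t a _ h1 =>
    obtain ⟨N1, h1⟩ := h1
    refine ⟨N1, fun N hN => ?_⟩
    simp only [map_smul, smul_assoc, ← Finset.smul_sum]
    rw [h1 N hN]

lemma basic_of {V : Type} [NormedAddCommGroup V] [NormedSpace ℝ V] (u : ℕ → V)
    (φ : ℕ → V →L[ℝ] ℝ) (hbi : ∀ i j, φ i (u j) = if i = j then 1 else 0) (K : ℝ)
    (hK : ∀ N, ∀ v ∈ (Submodule.span ℝ (Set.range u)).topologicalClosure,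
      ‖∑ n ∈ Finset.range N, φ n v • u n‖ ≤ K * ‖v‖) : IsBasic u := by
  intro v hv
  have hspan := span_eventually u φ hbi
  refine ⟨fun n => φ n v, ?_, ?_⟩
  · show Tendsto (fun N => ∑ n ∈ Finset.range N, φ n v • u n) atTop (𝓝 v)
    rw [Metric.tendsto_atTop]
    intro ε hε
    obtain ⟨w, hw, hdist⟩ := Metric.mem_closure_iff.mp hv (ε / (|K| + 1)) (by positivity)
    obtain ⟨N0, hN0⟩ := hspan w hw
    refine ⟨N0, fun N hN => ?_⟩
    have hwc : w ∈ (Submodule.span ℝ (Set.range u)).topologicalClosure :=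
      Submodule.le_topologicalClosure _ hw
    have h1 := hK N (v - w) (Submodule.sub_mem _ hv hwc)
    have h2 : ∑ n ∈ Finset.range N, φ n v • u n - v =
        ∑ n ∈ Finset.range N, φ n (v - w) • u n - (v - w) := by
      simp only [map_sub, sub_smul, Finset.sum_sub_distrib]
      rw [hN0 N hN]; abel
    rw [dist_eq_norm, h2]
    rw [dist_eq_norm] at hdist
    have h3 := norm_sub_le (∑ n ∈ Finset.range N, φ n (v - w) • u n) (v - w)
    have h4 : K * ‖v - w‖ ≤ |K| * ‖v - w‖ :=
      mul_le_mul_of_nonneg_right (le_abs_self K) (norm_nonneg _)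
    have h5 : (|K| + 1) * ‖v - w‖ < ε := by
      rw [lt_div_iff₀ (by positivity)] at hdist
      linarith
    linarith
  · intro b hb
    funext m
    have h1 : Tendsto (fun N => φ m (∑ n ∈ Finset.range N, b n • u n)) atTop (𝓝 (φ m v)) :=
      ((φ m).continuous.tendsto v).comp hb
    have h2 : Tendsto (fun N => φ m (∑ n ∈ Finset.range N, b n • u n)) atTop (𝓝 (b m)) := by
      apply tendsto_const_nhds.congr'
      filter_upwards [eventually_gt_atTop m] with N hN
      rw [map_sum, Finset.sum_eq_single m]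
      · rw [map_smul, hbi, if_pos rfl]; simp
      · intro n _ hn; rw [map_smul, hbi, if_neg (Ne.symm hn), smul_zero]
      · intro h; exact absurd (Finset.mem_range.mpr hN) h
    exact tendsto_nhds_unique h2 h1

/-- the sign matrix -/
noncomputable def rr (k n : ℕ) : ℝ :=
  if (if n < k then k.testBit n else n.testBit k) = true then 1 else -1

lemma rr_abs (k n : ℕ) : |rr k n| = 1 := by
  unfold rr
  by_cases h : (if n < k then k.testBit n else n.testBit k) = true
  · rw [if_pos h]; simp
  · rw [if_neg h]; simp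

/-- every sign pattern is a binary expansion, arbitrarily far away -/
lemma exists_bits (N M : ℕ) (p : ℕ → Bool) : ∃ k, M ≤ k ∧ N ≤ k ∧ ∀ n < N, k.testBit n = p n := by
  let L := N + M
  let q : ℕ := Nat.ofBits (fun i : Fin N => p i)
  refine ⟨2 ^ L + q, ?_, ?_, ?_⟩
  · have : L < 2 ^ L := Nat.lt_two_pow_self
    omega
  · have : L < 2 ^ L := Nat.lt_two_pow_self
    omega
  · intro n hn
    have h1 : (2 ^ L + q).testBit n = q.testBit n := by
      apply Nat.testBit_two_pow_add_gt
      omega
    rw [h1]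
    simp only [q]
    rw [Nat.testBit_ofBits_lt _ _ hn]

lemma pattern_row (N : ℕ) (b : ℕ → ℝ) : ∃ k, ∀ n < N, b n * rr k n = |b n| := by
  classical
  obtain ⟨k, _, hk, hbit⟩ := exists_bits N 0 (fun n => decide (0 ≤ b n))
  refine ⟨k, fun n hn => ?_⟩
  unfold rr
  rw [if_pos (show n < k by omega), hbit n hn]
  by_cases h : 0 ≤ b n
  · simp [h, abs_of_nonneg h]
  · simp [h, abs_of_neg (not_le.mp h)]

lemma pattern_col (K M : ℕ) (b : ℕ → ℝ) : ∃ n, M ≤ n ∧ ∀ k < K, b k * rr k n = |b k| := by
  classical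
  obtain ⟨n, hM, hn, hbit⟩ := exists_bits K M (fun k => decide (0 ≤ b k))
  refine ⟨n, hM, fun k hk => ?_⟩
  unfold rr
  rw [if_neg (show ¬ n < k by omega), hbit k hk]
  by_cases h : 0 ≤ b k
  · simp [h, abs_of_nonneg h]
  · simp [h, abs_of_neg (not_le.mp h)]

/-- the space -/
abbrev E2 : Type := lp (fun _ : ℕ => ℝ) 2
abbrev E1 : Type := lp (fun _ : ℕ => ℝ) 1

/-- the vectors -/
noncomputable def xx (n : ℕ) : E2 × E1 := (lp.single 2 n 1, 0)

lemma exists_ff : ∃ f : ℕ → (E2 × E1) →L[ℝ] ℝ, ∀ n (z : E2 × E1),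
    HasSum (fun k => z.2 k * rr k n) (f n z - z.1 n) := by
  choose φ hφ using fun n => exists_pairing (𝕜 := ℝ) (fun k : ℕ => rr k n) 1
    (fun k => by rw [Real.norm_eq_abs, rr_abs])
  refine ⟨fun n => (lp.evalCLM ℝ (fun _ : ℕ => ℝ) 2 n).comp (ContinuousLinearMap.fst ℝ _ _) +
        (φ n).comp (ContinuousLinearMap.snd ℝ _ _), ?_⟩
  intro n z
  have h1 : ((lp.evalCLM ℝ (fun _ : ℕ => ℝ) 2 n).comp (ContinuousLinearMap.fst ℝ E2 E1) +
        (φ n).comp (ContinuousLinearMap.snd ℝ E2 E1)) z - z.1 n = φ n z.2 := by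
    show z.1 n + φ n z.2 - z.1 n = φ n z.2
    ring
  rw [h1]
  exact hφ n z.2

lemma trunc_norm (z : E2) (N : ℕ) : ‖∑ n ∈ Finset.range N, z n • (lp.single 2 n (1:ℝ) : E2)‖ ≤ ‖z‖ := by
  have h0 : ∀ n, z n • (lp.single 2 n (1:ℝ) : E2) = lp.single 2 n (z n) := by
    intro n; rw [← lp.single_smul, smul_eq_mul, mul_one]
  simp only [h0]
  have h1 := lp.norm_sum_single (E := fun _ : ℕ => ℝ) (p := 2) (by norm_num) z (Finset.range N)
  have h2 := lp.sum_rpow_le_norm_rpow (E := fun _ : ℕ => ℝ) (p := 2) (by norm_num) z (Finset.range N)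
  rw [← h1] at h2
  simp only [ENNReal.toReal_ofNat] at h2
  exact (Real.rpow_le_rpow_iff (norm_nonneg _) (norm_nonneg _) (by norm_num : (0:ℝ) < 2)).mp h2

/-- The example. -/
theorem main : ∃ f : ℕ → (E2 × E1) →L[ℝ] ℝ, (∀ i j, f i (xx j) = if i = j then 1 else 0) ∧
    IsBasic xx ∧ IsBasic f ∧
    IsClosed (((Submodule.span ℝ (Set.range xx)).topologicalClosure ⊔
      ⨅ n, LinearMap.ker (f n).toLinearMap : Submodule ℝ (E2 × E1)) : Set (E2 × E1)) ∧
    ¬ Equivalent f (fun n => (f n).comp
      ((Submodule.span ℝ (Set.range xx)).topologicalClosure).subtypeL) := by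
  obtain ⟨f, hf⟩ := exists_ff
  set X := (Submodule.span ℝ (Set.range xx)).topologicalClosure with hX
  -- values
  have hfE2 : ∀ n (z : E2), f n (z, 0) = z n := by
    intro n z
    have h1 := hf n (z, 0)
    have h2 : HasSum (fun k => ((z, 0) : E2 × E1).2 k * rr k n) 0 := by
      have h3 : (fun k => ((z, 0) : E2 × E1).2 k * rr k n) = fun _ => 0 := by
        funext k
        show (0 : E1) k * rr k n = 0
        have : (0 : E1) k = 0 := rfl
        rw [this, zero_mul]
      rw [h3]; exact hasSum_zero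
    have h4 := h1.unique h2
    have h5 : ((z, 0) : E2 × E1).1 n = z n := rfl
    rw [h5] at h4
    linarith
  have hfE1 : ∀ n k, f n (0, lp.single 1 k 1) = rr k n := by
    intro n k
    have h1 := hf n (0, lp.single 1 k 1)
    have h2 : HasSum (fun k' => ((0, lp.single 1 k 1) : E2 × E1).2 k' * rr k' n)
        (((0, lp.single 1 k 1) : E2 × E1).2 k * rr k n) := by
      apply hasSum_single k
      intro k' hk'
      show (lp.single 1 k (1:ℝ) : E1) k' * rr k' n = 0
      rw [lp.single_apply_ne _ _ _ hk', zero_mul]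
    have h4 := h1.unique h2
    have h5 : ((0, lp.single 1 k 1) : E2 × E1).2 k = 1 := by
      show (lp.single 1 k (1:ℝ) : E1) k = 1
      rw [lp.single_apply_self]
    have h6 : ((0, lp.single 1 k 1) : E2 × E1).1 n = 0 := rfl
    rw [h5, h6, sub_zero, one_mul] at h4
    exact h4
  have hbi : ∀ i j, f i (xx j) = if i = j then 1 else 0 := by
    intro i j
    unfold xx
    rw [hfE2]
    by_cases h : i = j
    · subst h; rw [lp.single_apply_self]; simp
    · rw [lp.single_apply_ne _ _ _ h, if_neg h]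
  have hfn : ∀ n, ‖f n‖ ≤ 2 := by
    intro n
    apply ContinuousLinearMap.opNorm_le_bound _ (by norm_num)
    intro z
    have h1 := hf n z
    have hn : HasSum (fun k => ‖z.2 k‖) ‖z.2‖ := by
      have := lp.hasSum_norm (E := fun _ : ℕ => ℝ) (p := 1) (by norm_num) z.2
      simpa using this
    have h2 : ‖f n z - z.1 n‖ ≤ ‖z.2‖ := by
      rw [← h1.tsum_eq]
      apply tsum_of_norm_bounded hn
      intro k
      rw [norm_mul, Real.norm_eq_abs (rr k n), rr_abs, mul_one]
    have h3 : ‖z.1 n‖ ≤ ‖z.1‖ := lp.norm_apply_le_norm (by norm_num) z.1 n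
    have h4 : ‖z.1‖ ≤ ‖z‖ := norm_fst_le z
    have h5 : ‖z.2‖ ≤ ‖z‖ := norm_snd_le z
    have h6 := norm_add_le (f n z - z.1 n) (z.1 n)
    rw [sub_add_cancel] at h6
    linarith
  -- lower estimate on the span
  have hbi' : ∀ i j, (ContinuousLinearMap.apply ℝ ℝ (xx i)) (f j) = if i = j then 1 else 0 := by
    intro i j
    show f j (xx i) = _
    rw [hbi]
    by_cases h : i = j
    · rw [if_pos h, if_pos h.symm]
    · rw [if_neg h, if_neg (Ne.symm h)]
  have hlow : ∀ w ∈ Submodule.span ℝ (Set.range f), ∀ N, ∑ n ∈ Finset.range N, |w (xx n)| ≤ ‖w‖ := by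
    intro w hw N
    obtain ⟨N0, hN0⟩ := span_eventually f (fun n => ContinuousLinearMap.apply ℝ ℝ (xx n)) hbi' w hw
    have h1 := hN0 (max N N0) (le_max_right _ _)
    obtain ⟨k, hk⟩ := pattern_row (max N N0) (fun n => w (xx n))
    have h2 : w (0, lp.single 1 k 1) = ∑ n ∈ Finset.range (max N N0), |w (xx n)| := by
      conv_lhs => rw [← h1]
      rw [sum_apply]
      apply Finset.sum_congr rfl
      intro n hn
      show w (xx n) * f n (0, lp.single 1 k 1) = _
      rw [hfE1]
      exact hk n (by simpa using hn)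
    have h3 : ‖((0, lp.single 1 k 1) : E2 × E1)‖ ≤ 1 := by
      rw [Prod.norm_mk, norm_zero, lp.norm_single (by norm_num), norm_one]
      simp
    have h4 := w.le_opNorm (0, lp.single 1 k 1)
    rw [h2] at h4
    have h5 : ∑ n ∈ Finset.range N, |w (xx n)| ≤ ∑ n ∈ Finset.range (max N N0), |w (xx n)| := by
      apply Finset.sum_le_sum_of_subset_of_nonneg
      · intro n hn
        simp only [Finset.mem_range] at hn ⊢
        exact lt_of_lt_of_le hn (le_max_left _ _)
      · intro _ _ _; exact abs_nonneg _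
    have h6 : ‖w‖ * ‖((0, lp.single 1 k 1) : E2 × E1)‖ ≤ ‖w‖ * 1 :=
      mul_le_mul_of_nonneg_left h3 (norm_nonneg _)
    rw [Real.norm_eq_abs] at h4
    have h7 := le_abs_self (∑ n ∈ Finset.range (max N N0), |w (xx n)|)
    linarith
  have hlowc : ∀ w ∈ (Submodule.span ℝ (Set.range f)).topologicalClosure, ∀ N,
      ∑ n ∈ Finset.range N, |w (xx n)| ≤ ‖w‖ := by
    intro w hw N
    have hcl : IsClosed {w : (E2 × E1) →L[ℝ] ℝ | ∑ n ∈ Finset.range N, |w (xx n)| ≤ ‖w‖} := by
      apply isClosed_le _ continuous_norm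
      apply continuous_finsetSum
      intro n _
      exact ((ContinuousLinearMap.apply ℝ ℝ (xx n)).continuous).abs
    exact closure_minimal (fun w hw => hlow w hw N) hcl hw
  refine ⟨f, hbi, ?_, ?_, ?_, ?_⟩
  · -- xx is basic
    apply basic_of xx (fun n => (lp.evalCLM ℝ (fun _ : ℕ => ℝ) 2 n).comp
      (ContinuousLinearMap.fst ℝ E2 E1)) _ 1
    · intro N v _
      have h1 : ∑ n ∈ Finset.range N, ((lp.evalCLM ℝ (fun _ : ℕ => ℝ) 2 n).comp
          (ContinuousLinearMap.fst ℝ E2 E1)) v • xx n =
          (∑ n ∈ Finset.range N, v.1 n • (lp.single 2 n (1:ℝ) : E2), 0) := by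
        apply Prod.ext
        · rw [Prod.fst_sum]; rfl
        · rw [Prod.snd_sum]
          apply Finset.sum_eq_zero
          intro n _
          show (((lp.evalCLM ℝ (fun _ : ℕ => ℝ) 2 n).comp
          (ContinuousLinearMap.fst ℝ E2 E1)) v) • (0 : E1) = 0
          rw [smul_zero]
      rw [h1, Prod.norm_mk, norm_zero, max_eq_left (norm_nonneg _), one_mul]
      exact (trunc_norm v.1 N).trans (norm_fst_le v)
    · intro i j
      show (lp.single 2 j (1:ℝ) : E2) i = _
      by_cases h : i = j
      · subst h; rw [lp.single_apply_self]; simp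
      · rw [lp.single_apply_ne _ _ _ h, if_neg h]
  · -- f is basic
    apply basic_of f (fun n => ContinuousLinearMap.apply ℝ ℝ (xx n)) hbi' 2
    intro N v hv
    calc ‖∑ n ∈ Finset.range N, (ContinuousLinearMap.apply ℝ ℝ (xx n)) v • f n‖
        ≤ ∑ n ∈ Finset.range N, ‖(ContinuousLinearMap.apply ℝ ℝ (xx n)) v • f n‖ := norm_sum_le _ _
      _ ≤ ∑ n ∈ Finset.range N, |v (xx n)| * 2 := by
          apply Finset.sum_le_sum
          intro n _
          rw [norm_smul]
          exact mul_le_mul_of_nonneg_left (hfn n) (norm_nonneg _)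
      _ = 2 * ∑ n ∈ Finset.range N, |v (xx n)| := by rw [← Finset.sum_mul]; ring
      _ ≤ 2 * ‖v‖ := mul_le_mul_of_nonneg_left (hlowc v hv N) (by norm_num)
  · -- the sum is closed: the kernel is trivial
    have hker : (⨅ n, LinearMap.ker (f n).toLinearMap : Submodule ℝ (E2 × E1)) = ⊥ := by
      rw [eq_bot_iff]
      rintro ⟨z, w⟩ hzw
      have hz0 : ∀ n, f n (z, w) = 0 := by
        intro n
        exact (Submodule.mem_iInf _).mp hzw n
      have hs : ∀ n, HasSum (fun k => w k * rr k n) (- z n) := by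
        intro n
        have := hf n (z, w)
        rw [hz0 n, zero_sub] at this
        exact this
      have hzlim : Tendsto (fun n => z n) atTop (𝓝 0) := by
        have h1 := lp.hasSum_norm (E := fun _ : ℕ => ℝ) (p := 2) (by norm_num) z
        have h2 := h1.summable.tendsto_atTop_zero
        simp only [ENNReal.toReal_ofNat] at h2
        have h3 : Tendsto (fun n => ‖z n‖) atTop (𝓝 0) := by
          have h4 := h2.rpow_const (p := 1/2) (Or.inr (by norm_num))
          have h5 : ∀ n, (‖z n‖ ^ (2:ℝ)) ^ (1/2:ℝ) = ‖z n‖ := by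
            intro n
            rw [← Real.rpow_mul (norm_nonneg _)]; norm_num
          simp only [h5] at h4
          rwa [Real.zero_rpow (by norm_num)] at h4
        exact tendsto_zero_iff_norm_tendsto_zero.mpr h3
      have hn : HasSum (fun k => |w k|) ‖w‖ := by
        have := lp.hasSum_norm (E := fun _ : ℕ => ℝ) (p := 1) (by norm_num) w
        simpa using this
      have hw : w = 0 := by
        by_contra hw0
        have hpos : 0 < ‖w‖ := norm_pos_iff.mpr hw0
        -- choose K
        have hev := hn.tendsto_sum_nat.eventually (lt_mem_nhds (show 3/4 * ‖w‖ < ‖w‖ by linarith))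
        obtain ⟨K, hK⟩ := hev.exists
        obtain ⟨M, hM⟩ := Metric.tendsto_atTop.mp hzlim (‖w‖/4) (by linarith)
        obtain ⟨n, hnM, hpat⟩ := pattern_col K M (fun k => w k)
        have h1 := hs n
        have h2 := (hasSum_nat_add_iff' K).mpr h1
        have h3 : ∑ k ∈ Finset.range K, w k * rr k n = ∑ k ∈ Finset.range K, |w k| :=
          Finset.sum_congr rfl (fun k hk => hpat k (by simpa using hk))
        have h4 := (hasSum_nat_add_iff' K).mpr hn
        have h5 : ‖- z n - ∑ k ∈ Finset.range K, w k * rr k n‖ ≤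
            ‖w‖ - ∑ k ∈ Finset.range K, |w k| := by
          rw [← h2.tsum_eq]
          apply tsum_of_norm_bounded h4
          intro k
          rw [norm_mul, Real.norm_eq_abs (rr _ n), rr_abs, mul_one, Real.norm_eq_abs]
        rw [h3] at h5
        have h6 := hM n hnM
        rw [dist_zero_right, Real.norm_eq_abs] at h6
        rw [Real.norm_eq_abs] at h5
        have h7 := (abs_le.mp h5).1
        have h8 := (abs_lt.mp h6)
        linarith
      subst hw
      have hz : z = 0 := by
        apply lp.ext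
        funext n
        have := hz0 n
        rw [hfE2] at this
        exact this
      rw [hz]; rfl
    rw [hker, sup_bot_eq]
    exact Submodule.isClosed_topologicalClosure _
  · -- not equivalent
    intro heq
    -- the coefficient sequence
    have hmem : Memℓp (fun n : ℕ => (1:ℝ) / ((n:ℝ) + 1)) 2 := by
      apply memℓp_gen
      have h1 : Summable (fun n : ℕ => 1 / ((n:ℝ) + 1) ^ 2) := by
        have := (summable_nat_add_iff 1).mpr (Real.summable_one_div_nat_pow.mpr (by norm_num : 1 < 2))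
        simpa using this
      refine h1.congr (fun n => ?_)
      simp only [ENNReal.toReal_ofNat]
      rw [Real.norm_of_nonneg (by positivity), Real.rpow_two]
      rw [div_pow, one_pow]
    let A : E2 := ⟨fun n : ℕ => (1:ℝ) / ((n:ℝ) + 1), hmem⟩
    have hA : ∀ n, A n = 1 / ((n:ℝ) + 1) := fun n => rfl
    have hXsub : ∀ v ∈ X, v.2 = 0 := by
      intro v hv
      have hcl : IsClosed {v : E2 × E1 | v.2 = 0} := isClosed_eq continuous_snd continuous_const
      have hsub : (Submodule.span ℝ (Set.range xx) : Set (E2 × E1)) ⊆ {v : E2 × E1 | v.2 = 0} := by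
        have : Submodule.span ℝ (Set.range xx) ≤
            LinearMap.ker (ContinuousLinearMap.snd ℝ E2 E1).toLinearMap := by
          rw [Submodule.span_le]
          rintro _ ⟨n, rfl⟩
          rfl
        intro v hv
        exact this hv
      exact closure_minimal hsub hcl hv
    have hfX : ∀ n (v : X), f n v = (v : E2 × E1).1 n := by
      intro n v
      have h1 : (v : E2 × E1) = ((v : E2 × E1).1, 0) := Prod.ext rfl (hXsub v v.2)
      conv_lhs => rw [h1]
      rw [hfE2]
    have hconv : ∃ φ, Tendsto (fun N => ∑ n ∈ Finset.range N, A n • (f n).comp X.subtypeL)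
        atTop (𝓝 φ) := by
      refine ⟨((innerSL ℝ A).comp (ContinuousLinearMap.fst ℝ E2 E1)).comp X.subtypeL, ?_⟩
      refine (tendsto_iff_norm_sub_tendsto_zero (E := X →L[ℝ] ℝ)).mpr ?_
      have hAs : Tendsto (fun N => ∑ n ∈ Finset.range N, (lp.single 2 n (A n) : E2)) atTop (𝓝 A) :=
        (lp.hasSum_single (by norm_num) A).tendsto_sum_nat
      rw [tendsto_iff_norm_sub_tendsto_zero] at hAs
      refine squeeze_zero (fun _ => ContinuousLinearMap.opNorm_nonneg _) (fun N => ?_) hAs
      apply ContinuousLinearMap.opNorm_le_bound _ (norm_nonneg _)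
      intro v
      have h1 : (∑ n ∈ Finset.range N, A n • (f n).comp X.subtypeL -
          ((innerSL ℝ A).comp (ContinuousLinearMap.fst ℝ E2 E1)).comp X.subtypeL) v =
          inner ℝ (∑ n ∈ Finset.range N, (lp.single 2 n (A n) : E2) - A) (v : E2 × E1).1 := by
        rw [inner_sub_left, sum_inner]
        show (∑ n ∈ Finset.range N, A n • (f n).comp X.subtypeL) v - inner ℝ A (v : E2 × E1).1 = _
        congr 1
        rw [sum_apply]
        apply Finset.sum_congr rfl
        intro n _
        rw [lp.inner_single_left]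
        show A n * f n v = _
        rw [hfX]
        simp [mul_comm]
      rw [h1]
      refine (norm_inner_le_norm _ _).trans ?_
      exact mul_le_mul_of_nonneg_left (norm_fst_le _) (norm_nonneg _)
    obtain ⟨v, hv⟩ := (heq (fun n => A n)).mpr hconv
    have hbdd := hv.norm
    have hlarge : ∀ N, ∑ n ∈ Finset.range N, 1 / ((n:ℝ) + 1) ≤
        ‖∑ n ∈ Finset.range N, A n • f n‖ := by
      intro N
      have h1 := hlow (∑ n ∈ Finset.range N, A n • f n) (Submodule.sum_mem _ (fun n _ =>
        Submodule.smul_mem _ _ (Submodule.subset_span ⟨n, rfl⟩))) N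
      refine le_trans (le_of_eq ?_) h1
      apply Finset.sum_congr rfl
      intro m hm
      rw [sum_apply, Finset.sum_eq_single m]
      · show _ = |A m * f m (xx m)|
        rw [hbi, if_pos rfl, mul_one, hA, abs_of_nonneg (by positivity)]
      · intro n _ hn
        show A n * f n (xx m) = 0
        rw [hbi, if_neg hn, mul_zero]
      · intro h; exact absurd hm h
    have hdiv : Tendsto (fun N => ∑ n ∈ Finset.range N, 1 / ((n:ℝ) + 1)) atTop atTop :=
      Real.tendsto_sum_range_one_div_nat_succ_atTop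
    exact not_tendsto_nhds_of_tendsto_atTop (tendsto_atTop_mono hlarge hdiv) _ hbdd

end Pool.Agent.Q195.CE
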