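import Pool.Agent.Q195.LS1

set_option autoImplicit false

namespace Pool.Agent.Q195.CH

open Finset Filter Topology Pool.Agent.Q195.LS

/-- the abstract chain estimate -/
lemma chain_step (s : ℕ → ℝ) (k r : ℕ) :
    |s (k + r)| ≤ (1/2:ℝ)^r * |s k| + ∑ j ∈ Finset.Ico k (k+r), |s (j+1) - s j / 2| := by
  induction r with
  | zero => simp
  | succ r ih =>
    have h1 : |s (k + (r+1))| ≤ |s (k+r+1) - s (k+r) / 2| + |s (k+r)| / 2 := by
      have h2 : s (k + (r+1)) = (s (k+r+1) - s (k+r)/2) + s (k+r)/2 := by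
        rw [show k + (r+1) = k + r + 1 by ring]; ring
      have h3 := abs_add_le (s (k+r+1) - s (k+r)/2) (s (k+r)/2)
      rw [← h2] at h3
      have h4 : |s (k+r)/2| = |s (k+r)|/2 := by
        rw [abs_div]; norm_num
      rw [h4] at h3
      exact h3
    have h5 : ∑ j ∈ Finset.Ico k (k+(r+1)), |s (j+1) - s j / 2| =
        ∑ j ∈ Finset.Ico k (k+r), |s (j+1) - s j / 2| + |s (k+r+1) - s (k+r) / 2| := by
      rw [show k + (r+1) = k + r + 1 by ring, Finset.sum_Ico_succ_top (by omega)]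
    rw [h5, pow_succ]
    have h6 : 0 ≤ ∑ j ∈ Finset.Ico k (k+r), |s (j+1) - s j / 2| :=
      Finset.sum_nonneg (fun _ _ => abs_nonneg _)
    nlinarith [abs_nonneg (s (k+r))]

lemma geo_le (S : ℕ → Prop) [DecidablePred S] (M : ℝ) (hM : 0 ≤ M) (J : ℕ)
    (h : ∀ k < J, S k → (4:ℝ)^k ≤ M) :
    ∑ k ∈ Finset.range J, (if S k then (4:ℝ)^k else 0) ≤ 2 * M := by
  have hg : ∀ J : ℕ, ∑ k ∈ Finset.range J, (if S k then (4:ℝ)^k else 0) ≤ 4^J := by
    intro J
    induction J with
    | zero => simp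
    | succ J ih =>
      rw [Finset.sum_range_succ, pow_succ]
      have h4 : (0:ℝ) ≤ 4^J := by positivity
      split_ifs <;> linarith
  induction J with
  | zero => simpa using hM
  | succ J ih =>
    rw [Finset.sum_range_succ]
    by_cases hS : S J
    · rw [if_pos hS]
      have := h J (Nat.lt_succ_self J) hS
      have := hg J
      linarith
    · rw [if_neg hS, add_zero]
      exact ih (fun k hk => h k (Nat.lt_succ_of_lt hk))

/-- constant of the near-unconditionality estimate -/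
theorem chain (a : ℝ) (ha : 0 < a) :
    ∃ C : ℝ, 0 ≤ C ∧ ∀ (J : ℕ) (s n D : ℕ → ℝ), (∀ k, |s k| ≤ 1) → (∀ k, n k ≤ 4^k) →
      (∀ k < J + 1, |s k| ≤ a/2 → n k * (a/2) ≤ D k) → (∀ k, 0 ≤ D k) →
      ∑ k ∈ Finset.range (J+1), n k ≤
        C * (|s 0| + ∑ k ∈ Finset.range J, 4^(k+1) * |s (k+1) - s k / 2|
          + ∑ k ∈ Finset.range (J+1), D k) := by
  obtain ⟨r, hr⟩ := exists_pow_lt_of_lt_one (show (0:ℝ) < a/4 by linarith)
    (show (1/2:ℝ) < 1 by norm_num)
  refine ⟨2/a + 2 * (4/a*4^r), by positivity, ?_⟩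
  intro J s n D hs hn hD hD0
  set T := |s 0| + ∑ k ∈ Finset.range J, 4^(k+1) * |s (k+1) - s k / 2| with hT
  have hsum0 : 0 ≤ ∑ k ∈ Finset.range J, (4:ℝ)^(k+1) * |s (k+1) - s k / 2| :=
    Finset.sum_nonneg (fun _ _ => mul_nonneg (by positivity) (abs_nonneg _))
  have hT0 : 0 ≤ T := add_nonneg (abs_nonneg _) hsum0
  have hpart : ∀ k r, k + r ≤ J →
      4^(k) * ∑ j ∈ Finset.Ico k (k+r), |s (j+1) - s j / 2| ≤
      ∑ k ∈ Finset.range J, (4:ℝ)^(k+1) * |s (k+1) - s k / 2| := by
    intro k r hkr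
    rw [Finset.mul_sum]
    calc ∑ j ∈ Finset.Ico k (k+r), (4:ℝ)^k * |s (j+1) - s j / 2|
        ≤ ∑ j ∈ Finset.Ico k (k+r), (4:ℝ)^(j+1) * |s (j+1) - s j / 2| := by
          apply Finset.sum_le_sum
          intro j hj
          apply mul_le_mul_of_nonneg_right _ (abs_nonneg _)
          apply pow_le_pow_right₀ (by norm_num)
          have := (Finset.mem_Ico.mp hj).1; omega
      _ ≤ _ := by
          apply Finset.sum_le_sum_of_subset_of_nonneg
          · intro j hj
            have := (Finset.mem_Ico.mp hj).2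
            simp only [Finset.mem_range]; omega
          · intro _ _ _; exact mul_nonneg (by positivity) (abs_nonneg _)
  have hK : ∀ K < J + 1, ¬ (|s K| ≤ a/2) → (4:ℝ)^K ≤ 4/a*4^r * T := by
    intro K hKJ hsK
    push Not at hsK
    rcases le_or_gt r K with hrK | hrK
    · obtain ⟨k, rfl⟩ := Nat.exists_eq_add_of_le' hrK
      have h1 := chain_step s k r
      have h2 := hpart k r (by omega)
      have h3 : (1/2:ℝ)^r * |s k| ≤ a/4 := by
        calc (1/2:ℝ)^r * |s k| ≤ (1/2:ℝ)^r * 1 :=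
              mul_le_mul_of_nonneg_left (hs k) (by positivity)
          _ ≤ a/4 := by linarith
      have h4 : (4:ℝ)^k * (a/4) ≤ T := by
        have h5 : a/4 ≤ ∑ j ∈ Finset.Ico k (k+r), |s (j+1) - s j / 2| := by linarith
        calc (4:ℝ)^k * (a/4) ≤ 4^k * ∑ j ∈ Finset.Ico k (k+r), |s (j+1) - s j / 2| :=
              mul_le_mul_of_nonneg_left h5 (by positivity)
          _ ≤ T := by have := abs_nonneg (s 0); linarith
      rw [pow_add]
      have h6 : 4/a*4^r*T = (4:ℝ)^r * (T * (4/a)) := by ring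
      rw [h6, mul_comm ((4:ℝ)^k)]
      apply mul_le_mul_of_nonneg_left _ (by positivity)
      have h7 : (4:ℝ)^k = (4^k * (a/4)) * (4/a) := by field_simp
      rw [h7]
      exact mul_le_mul_of_nonneg_right h4 (by positivity)
    · have h1 := chain_step s 0 K
      have h2 := hpart 0 K (by omega)
      simp only [zero_add, pow_zero, one_mul] at h1 h2
      have h3 : (1/2:ℝ)^K * |s 0| ≤ |s 0| := by
        calc (1/2:ℝ)^K * |s 0| ≤ 1 * |s 0| :=
              mul_le_mul_of_nonneg_right (pow_le_one₀ (by norm_num) (by norm_num)) (abs_nonneg _)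
          _ = |s 0| := one_mul _
      have h4 : a/2 ≤ T := by linarith
      have h5 : (4:ℝ)^K ≤ 4^r := pow_le_pow_right₀ (by norm_num) hrK.le
      calc (4:ℝ)^K ≤ 4^r * 1 := by linarith
        _ ≤ 4^r * (T * (4/a)) := by
            apply mul_le_mul_of_nonneg_left _ (by positivity)
            rw [mul_div_assoc', le_div_iff₀ ha]; linarith
        _ = _ := by ring
  classical
  have h1 : ∑ k ∈ Finset.range (J+1), n k ≤
      ∑ k ∈ Finset.range (J+1), (2/a * D k + (if ¬ (|s k| ≤ a/2) then (4:ℝ)^k else 0)) := by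
    apply Finset.sum_le_sum
    intro k hk
    have hk' : k < J + 1 := by simpa using hk
    by_cases h : |s k| ≤ a/2
    · rw [if_neg (by simpa using h), add_zero]
      have h2 := hD k hk' h
      rw [div_mul_eq_mul_div, le_div_iff₀ ha]; linarith
    · rw [if_pos h]
      have h2 := hn k
      have h3 : 0 ≤ 2/a * D k := mul_nonneg (by positivity) (hD0 k)
      linarith
  have h2 := geo_le (fun k => ¬ (|s k| ≤ a/2)) (4/a*4^r * T) (by positivity) (J+1) hK
  rw [Finset.sum_add_distrib, ← Finset.mul_sum] at h1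
  have h3 : 0 ≤ ∑ k ∈ Finset.range (J+1), D k := Finset.sum_nonneg (fun k _ => hD0 k)
  have h4 : 0 ≤ 2/a*T := by positivity
  have h5 : 0 ≤ 2*(4/a*4^r) * ∑ k ∈ Finset.range (J+1), D k := by positivity
  calc ∑ k ∈ Finset.range (J+1), n k ≤ 2/a * ∑ k ∈ Finset.range (J+1), D k
        + 2 * (4/a*4^r*T) := by
        refine h1.trans ?_
        linarith
    _ ≤ 2/a * ∑ k ∈ Finset.range (J+1), D k + 2 * (4/a*4^r*T) + 2/a*T
        + 2*(4/a*4^r) * ∑ k ∈ Finset.range (J+1), D k := by linarith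
    _ = _ := by ring

end Pool.Agent.Q195.CH
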