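import Pool.Agent.Q195.CH1

set_option autoImplicit false

namespace Pool.Agent.Q195.CH

open Finset Filter Topology Pool.Agent.Q195.LS

/-- index set of the `J`-th block -/
abbrev Ix (J : ℕ) : Type := Σ k : Fin (J+1), Fin (4^(k:ℕ))

/-- level averages -/
noncomputable def av (J : ℕ) (f : Ix J → ℝ) (k : ℕ) : ℝ :=
  if h : k < J+1 then (∑ i : Fin (4^k), f ⟨⟨k,h⟩, i⟩) / 4^k else 0

/-- level deviation -/
noncomputable def Dv (J : ℕ) (f : Ix J → ℝ) (k : ℕ) : ℝ :=
  if h : k < J+1 then ∑ i : Fin (4^k), |f ⟨⟨k,h⟩,i⟩ - av J f k| else 0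

/-- level `l_1` norms -/
noncomputable def Lv (J : ℕ) (f : Ix J → ℝ) (k : ℕ) : ℝ :=
  if h : k < J+1 then ∑ i : Fin (4^k), |f ⟨⟨k,h⟩,i⟩| else 0

/-- the block norm -/
noncomputable def NN (J : ℕ) (f : Ix J → ℝ) : ℝ :=
  |av J f 0| + ∑ k ∈ Finset.range J, 4^(k+1) * |av J f (k+1) - av J f k / 2|
    + ∑ k ∈ Finset.range (J+1), Dv J f k

variable {J : ℕ}

lemma av_add (f g : Ix J → ℝ) (k : ℕ) : av J (f + g) k = av J f k + av J g k := by
  unfold av
  split_ifs with h
  · simp only [Pi.add_apply, Finset.sum_add_distrib]; ring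
  · simp

lemma av_smul (t : ℝ) (f : Ix J → ℝ) (k : ℕ) : av J (t • f) k = t * av J f k := by
  unfold av
  split_ifs with h
  · simp only [Pi.smul_apply, smul_eq_mul, ← Finset.mul_sum]; ring
  · simp

lemma Dv_nonneg (f : Ix J → ℝ) (k : ℕ) : 0 ≤ Dv J f k := by
  unfold Dv; split_ifs
  · exact Finset.sum_nonneg (fun _ _ => abs_nonneg _)
  · exact le_rfl

lemma Lv_nonneg (f : Ix J → ℝ) (k : ℕ) : 0 ≤ Lv J f k := by
  unfold Lv; split_ifs
  · exact Finset.sum_nonneg (fun _ _ => abs_nonneg _)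
  · exact le_rfl

lemma NN_add_le (f g : Ix J → ℝ) : NN J (f + g) ≤ NN J f + NN J g := by
  unfold NN
  have h1 : |av J (f+g) 0| ≤ |av J f 0| + |av J g 0| := by rw [av_add]; exact abs_add_le _ _
  have h2 : ∑ k ∈ Finset.range J, (4:ℝ)^(k+1) * |av J (f+g) (k+1) - av J (f+g) k / 2| ≤
      ∑ k ∈ Finset.range J, (4:ℝ)^(k+1) * |av J f (k+1) - av J f k / 2| +
      ∑ k ∈ Finset.range J, (4:ℝ)^(k+1) * |av J g (k+1) - av J g k / 2| := by
    rw [← Finset.sum_add_distrib]
    apply Finset.sum_le_sum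
    intro k _
    rw [← mul_add]
    apply mul_le_mul_of_nonneg_left _ (by positivity)
    rw [av_add, av_add]
    have : av J f (k+1) + av J g (k+1) - (av J f k + av J g k)/2
      = (av J f (k+1) - av J f k / 2) + (av J g (k+1) - av J g k / 2) := by ring
    rw [this]; exact abs_add_le _ _
  have h3 : ∑ k ∈ Finset.range (J+1), Dv J (f+g) k ≤
      ∑ k ∈ Finset.range (J+1), Dv J f k + ∑ k ∈ Finset.range (J+1), Dv J g k := by
    rw [← Finset.sum_add_distrib]
    apply Finset.sum_le_sum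
    intro k hk
    have hk' : k < J+1 := by simpa using hk
    unfold Dv
    rw [dif_pos hk', dif_pos hk', dif_pos hk', ← Finset.sum_add_distrib]
    apply Finset.sum_le_sum
    intro i _
    rw [av_add, Pi.add_apply]
    have : f ⟨⟨k,hk'⟩,i⟩ + g ⟨⟨k,hk'⟩,i⟩ - (av J f k + av J g k)
      = (f ⟨⟨k,hk'⟩,i⟩ - av J f k) + (g ⟨⟨k,hk'⟩,i⟩ - av J g k) := by ring
    rw [this]; exact abs_add_le _ _
  linarith

lemma NN_smul (t : ℝ) (f : Ix J → ℝ) : NN J (t • f) = |t| * NN J f := by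
  unfold NN
  have h1 : |av J (t • f) 0| = |t| * |av J f 0| := by rw [av_smul, abs_mul]
  have h2 : ∑ k ∈ Finset.range J, (4:ℝ)^(k+1) * |av J (t • f) (k+1) - av J (t • f) k / 2| =
      |t| * ∑ k ∈ Finset.range J, (4:ℝ)^(k+1) * |av J f (k+1) - av J f k / 2| := by
    rw [Finset.mul_sum]
    apply Finset.sum_congr rfl
    intro k _
    rw [av_smul, av_smul]
    have : t * av J f (k+1) - t * av J f k / 2 = t * (av J f (k+1) - av J f k / 2) := by ring
    rw [this, abs_mul]; ring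
  have h3 : ∑ k ∈ Finset.range (J+1), Dv J (t • f) k =
      |t| * ∑ k ∈ Finset.range (J+1), Dv J f k := by
    rw [Finset.mul_sum]
    apply Finset.sum_congr rfl
    intro k hk
    have hk' : k < J+1 := by simpa using hk
    unfold Dv
    rw [dif_pos hk', dif_pos hk', Finset.mul_sum]
    apply Finset.sum_congr rfl
    intro i _
    rw [av_smul, Pi.smul_apply, smul_eq_mul, ← mul_sub, abs_mul]
  rw [h1, h2, h3]; ring

lemma abs_av_le (f : Ix J → ℝ) (k : ℕ) (hk : k ≤ J) :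
    |av J f k| ≤ |av J f 0| + ∑ k ∈ Finset.range J, 4^(k+1) * |av J f (k+1) - av J f k / 2| := by
  have h1 := chain_step (av J f) 0 k
  simp only [zero_add] at h1
  have h2 : (1/2:ℝ)^k * |av J f 0| ≤ |av J f 0| := by
    calc (1/2:ℝ)^k * |av J f 0| ≤ 1 * |av J f 0| :=
          mul_le_mul_of_nonneg_right (pow_le_one₀ (by norm_num) (by norm_num)) (abs_nonneg _)
      _ = _ := one_mul _
  have h3 : ∑ j ∈ Finset.Ico 0 k, |av J f (j+1) - av J f j / 2| ≤
      ∑ k ∈ Finset.range J, (4:ℝ)^(k+1) * |av J f (k+1) - av J f k / 2| := by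
    calc ∑ j ∈ Finset.Ico 0 k, |av J f (j+1) - av J f j / 2|
        ≤ ∑ j ∈ Finset.Ico 0 k, (4:ℝ)^(j+1) * |av J f (j+1) - av J f j / 2| := by
          apply Finset.sum_le_sum
          intro j _
          have : (1:ℝ) ≤ 4^(j+1) := one_le_pow₀ (by norm_num)
          nlinarith [abs_nonneg (av J f (j+1) - av J f j / 2)]
      _ ≤ _ := by
          apply Finset.sum_le_sum_of_subset_of_nonneg
          · intro j hj
            have := (Finset.mem_Ico.mp hj).2
            simp only [Finset.mem_range]; omega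
          · intro _ _ _; exact mul_nonneg (by positivity) (abs_nonneg _)
  linarith

lemma abs_le_NN (f : Ix J → ℝ) (p : Ix J) : |f p| ≤ NN J f := by
  obtain ⟨⟨k, hk⟩, i⟩ := p
  have h1 := abs_av_le f k (by omega)
  have h2 : |f ⟨⟨k,hk⟩,i⟩ - av J f k| ≤ ∑ k ∈ Finset.range (J+1), Dv J f k := by
    calc |f ⟨⟨k,hk⟩,i⟩ - av J f k| ≤ Dv J f k := by
          unfold Dv
          rw [dif_pos hk]
          exact Finset.single_le_sum (f := fun i : Fin (4^k) => |f ⟨⟨k,hk⟩,i⟩ - av J f k|)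
            (fun _ _ => abs_nonneg _) (Finset.mem_univ i)
      _ ≤ _ := Finset.single_le_sum (f := fun k => Dv J f k) (fun k _ => Dv_nonneg f k)
          (by simpa using hk)
  unfold NN
  have h3 : f ⟨⟨k,hk⟩,i⟩ = av J f k + (f ⟨⟨k,hk⟩,i⟩ - av J f k) := by ring
  rw [h3]
  have h4 := abs_add_le (av J f k) (f ⟨⟨k,hk⟩,i⟩ - av J f k)
  linarith

/-- the block norm as a `BN` -/
noncomputable def bn (J : ℕ) : BN (Ix J) where
  N := NN J
  add_le := NN_add_le
  smul := NN_smul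
  coord := abs_le_NN

lemma sum_Lv (f : Ix J → ℝ) : ∑ k ∈ Finset.range (J+1), Lv J f k = ∑ p, |f p| := by
  rw [Finset.sum_range, Fintype.sum_sigma]
  apply Finset.sum_congr rfl
  intro k _
  unfold Lv
  rw [dif_pos k.2]

lemma av_le_Lv (f : Ix J → ℝ) (k : ℕ) : 4^k * |av J f k| ≤ Lv J f k := by
  unfold av Lv
  split_ifs with h
  · rw [abs_div, abs_of_pos (show (0:ℝ) < 4^k by positivity), mul_div_cancel₀ _ (by positivity)]
    exact Finset.abs_sum_le_sum_abs _ _
  · simp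

lemma Dv_le_Lv (f : Ix J → ℝ) (k : ℕ) : Dv J f k ≤ 2 * Lv J f k := by
  have h0 := av_le_Lv f k
  by_cases h : k < J+1
  · have h1 : Dv J f k ≤ ∑ i : Fin (4^k), (|f ⟨⟨k,h⟩,i⟩| + |av J f k|) := by
      unfold Dv
      rw [dif_pos h]
      apply Finset.sum_le_sum
      intro i _
      exact abs_sub _ _
    rw [Finset.sum_add_distrib] at h1
    simp only [Finset.sum_const, Finset.card_univ, Fintype.card_fin, nsmul_eq_mul] at h1
    have h2 : ∑ i : Fin (4^k), |f ⟨⟨k,h⟩,i⟩| = Lv J f k := by unfold Lv; rw [dif_pos h]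
    rw [h2] at h1
    push_cast at h1
    linarith
  · unfold Dv; rw [dif_neg h]
    have := Lv_nonneg f k; linarith

lemma NN_le (f : Ix J → ℝ) : NN J f ≤ 5 * ∑ p, |f p| := by
  rw [← sum_Lv]
  unfold NN
  have h1 : |av J f 0| ≤ Lv J f 0 := by simpa using av_le_Lv f 0
  have h2 : ∑ k ∈ Finset.range J, (4:ℝ)^(k+1) * |av J f (k+1) - av J f k / 2| ≤
      ∑ k ∈ Finset.range J, (Lv J f (k+1) + 2 * Lv J f k) := by
    apply Finset.sum_le_sum
    intro k _
    have h3 := av_le_Lv f (k+1)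
    have h4 := av_le_Lv f k
    have h5 : |av J f (k+1) - av J f k / 2| ≤ |av J f (k+1)| + |av J f k| / 2 := by
      have h6 : |av J f k / 2| = |av J f k| / 2 := by rw [abs_div]; norm_num
      rw [← h6]; exact abs_sub _ _
    calc (4:ℝ)^(k+1) * |av J f (k+1) - av J f k / 2|
        ≤ 4^(k+1) * (|av J f (k+1)| + |av J f k| / 2) :=
          mul_le_mul_of_nonneg_left h5 (by positivity)
      _ = 4^(k+1) * |av J f (k+1)| + 2 * (4^k * |av J f k|) := by rw [pow_succ]; ring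
      _ ≤ _ := by linarith
  have h3 : ∑ k ∈ Finset.range (J+1), Dv J f k ≤ 2 * ∑ k ∈ Finset.range (J+1), Lv J f k := by
    rw [Finset.mul_sum]
    exact Finset.sum_le_sum (fun k _ => Dv_le_Lv f k)
  have h4 : ∑ k ∈ Finset.range J, Lv J f (k+1) + Lv J f 0 = ∑ k ∈ Finset.range (J+1), Lv J f k :=
    (Finset.sum_range_succ' _ _).symm
  have h5 : ∑ k ∈ Finset.range J, Lv J f k ≤ ∑ k ∈ Finset.range (J+1), Lv J f k := by
    rw [Finset.sum_range_succ]; have := Lv_nonneg f J; linarith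
  rw [Finset.sum_add_distrib, ← Finset.mul_sum] at h2
  linarith

/-- counting large coordinates -/
theorem card_le (a : ℝ) (ha : 0 < a) : ∃ C : ℝ, 0 ≤ C ∧ ∀ (J : ℕ) (f : Ix J → ℝ),
    (∀ p, |f p| ≤ 1) → ((Finset.univ.filter (fun p => a ≤ |f p|)).card : ℝ) ≤ C * NN J f := by
  obtain ⟨C, hC0, hC⟩ := chain a ha
  refine ⟨C, hC0, ?_⟩
  intro J f hf
  classical
  let n : ℕ → ℝ := fun k => if h : k < J+1 then
    ∑ i : Fin (4^k), (if a ≤ |f ⟨⟨k,h⟩,i⟩| then (1:ℝ) else 0) else 0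
  have hcard : ((Finset.univ.filter (fun p => a ≤ |f p|)).card : ℝ)
      = ∑ k ∈ Finset.range (J+1), n k := by
    rw [Finset.card_filter]
    push_cast
    rw [Finset.sum_range, Fintype.sum_sigma]
    apply Finset.sum_congr rfl
    intro k _
    simp only [n]
    rw [dif_pos k.2]
  rw [hcard]
  apply hC J (av J f) n (Dv J f)
  · intro k
    have h1 := av_le_Lv f k
    have h2 : Lv J f k ≤ 4^k := by
      unfold Lv
      split_ifs with h
      · calc ∑ i : Fin (4^k), |f ⟨⟨k,h⟩,i⟩| ≤ ∑ i : Fin (4^k), (1:ℝ) :=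
              Finset.sum_le_sum (fun i _ => hf _)
          _ = 4^k := by simp
      · positivity
    have h3 : (0:ℝ) < 4^k := by positivity
    nlinarith
  · intro k
    simp only [n]
    split_ifs with h
    · calc ∑ i : Fin (4^k), (if a ≤ |f ⟨⟨k,h⟩,i⟩| then (1:ℝ) else 0)
          ≤ ∑ i : Fin (4^k), (1:ℝ) := Finset.sum_le_sum (fun i _ => by split_ifs <;> norm_num)
        _ = 4^k := by simp
    · positivity
  · intro k hk hs
    simp only [n]
    unfold Dv
    rw [dif_pos hk, dif_pos hk, Finset.sum_mul]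
    apply Finset.sum_le_sum
    intro i _
    split_ifs with h
    · have h1 : |f ⟨⟨k,hk⟩,i⟩| ≤ |f ⟨⟨k,hk⟩,i⟩ - av J f k| + |av J f k| := by
        have := abs_add_le (f ⟨⟨k,hk⟩,i⟩ - av J f k) (av J f k)
        rwa [sub_add_cancel] at this
      linarith
    · rw [zero_mul]; exact abs_nonneg _
  · exact Dv_nonneg f

/-- the witness -/
noncomputable def wit (J : ℕ) : Ix J → ℝ := fun p => (1/2:ℝ)^(p.1:ℕ)

lemma av_wit (k : ℕ) (hk : k < J+1) : av J (wit J) k = (1/2:ℝ)^k := by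
  unfold av wit
  rw [dif_pos hk]
  simp only [Finset.sum_const, Finset.card_univ, Fintype.card_fin, nsmul_eq_mul]
  push_cast
  field_simp

lemma NN_wit : NN J (wit J) = 1 := by
  unfold NN
  rw [av_wit 0 (by omega)]
  have h1 : ∑ k ∈ Finset.range J, (4:ℝ)^(k+1) * |av J (wit J) (k+1) - av J (wit J) k / 2| = 0 := by
    apply Finset.sum_eq_zero
    intro k hk
    have hk' : k < J := by simpa using hk
    have h5 : (1/2:ℝ)^(k+1) - (1/2:ℝ)^k / 2 = 0 := by rw [pow_succ]; ring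
    rw [av_wit (k+1) (by omega), av_wit k (by omega), h5, abs_zero, mul_zero]
  have h2 : ∑ k ∈ Finset.range (J+1), Dv J (wit J) k = 0 := by
    apply Finset.sum_eq_zero
    intro k hk
    have hk' : k < J+1 := by simpa using hk
    unfold Dv
    rw [dif_pos hk']
    apply Finset.sum_eq_zero
    intro i _
    rw [av_wit k hk']
    simp [wit]
  rw [h1, h2]; simp

lemma le_NN_one (f : Ix (J+1) → ℝ) (hf : ∀ p, f p = 1) : (4:ℝ)^(J+1) / 2 ≤ NN (J+1) f := by
  have hav : ∀ k < J+2, av (J+1) f k = 1 := by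
    intro k hk
    unfold av
    rw [dif_pos (by omega)]
    simp [hf]
  unfold NN
  have h1 : (4:ℝ)^(J+1) * |av (J+1) f (J+1) - av (J+1) f J / 2| ≤
      ∑ k ∈ Finset.range (J+1), (4:ℝ)^(k+1) * |av (J+1) f (k+1) - av (J+1) f k / 2| :=
    Finset.single_le_sum (f := fun k => (4:ℝ)^(k+1) * |av (J+1) f (k+1) - av (J+1) f k / 2|)
      (fun _ _ => mul_nonneg (by positivity) (abs_nonneg _)) (by simp)
  rw [hav (J+1) (by omega), hav J (by omega)] at h1
  have h2 : 0 ≤ ∑ k ∈ Finset.range (J+1+1), Dv (J+1) f k :=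
    Finset.sum_nonneg (fun k _ => Dv_nonneg f k)
  have h3 : |(1:ℝ) - 1/2| = 1/2 := by norm_num
  rw [h3] at h1
  have := abs_nonneg (av (J+1) f 0)
  linarith

end Pool.Agent.Q195.CH
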