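import Pool.Agent.Q195.CH2

set_option autoImplicit false

namespace Pool.Agent.Q195.CH

open Finset Filter Topology Pool.Agent.Q195.LS

/-- The space: a real Banach space with a basis indexed by the blocks. -/
theorem space : ∃ (X : Type) (_ : NormedAddCommGroup X) (_ : NormedSpace ℝ X) (_ : CompleteSpace X)
      (x : (Σ J, Ix J) → X) (xs : (Σ J, Ix J) → X →L[ℝ] ℝ),
      (∀ p q, xs p (x q) = if p = q then 1 else 0) ∧
      (∀ f : X, HasSum (fun J => NN J (fun i => xs ⟨J, i⟩ f)) ‖f‖) ∧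
      (∀ f : X, f ∈ closure (Submodule.span ℝ (Set.range x) : Set X)) :=
  exists_l1sum Ix bn

lemma NN_single_le (J : ℕ) (i : Ix J) (t : ℝ) : NN J (fun j => if j = i then t else 0) ≤ 5 * |t| := by
  refine (NN_le _).trans ?_
  apply mul_le_mul_of_nonneg_left _ (by norm_num)
  rw [Finset.sum_eq_single i]
  · simp
  · intro j _ hj; simp [hj]
  · simp

instance : Infinite (Σ J, Ix J) := by
  apply Infinite.of_injective (fun J : ℕ => (⟨J, ⟨⟨0, by omega⟩, ⟨0, by simp⟩⟩⟩ : Σ J, Ix J))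
  intro a b h
  exact congrArg Sigma.fst h

theorem final :
    ∃ (𝕂 : Type) (_ : RCLike 𝕂) (X : Type) (_ : AddCommGroup X) (_ : Module 𝕂 X)
      (q : X → ℝ) (κ : ℝ) (x : ℕ → X) (xs : ℕ → X →ₗ[𝕂] 𝕂),
      (∀ f : X, 0 ≤ q f) ∧
      (∀ f : X, q f = 0 → f = 0) ∧
      (∀ (c : 𝕂) (f : X), q (c • f) = ‖c‖ * q f) ∧
      (∀ f g : X, q (f + g) ≤ κ * (q f + q g)) ∧
      (∀ u : ℕ → X, (∀ ε : ℝ, 0 < ε → ∃ N : ℕ, ∀ m ≥ N, ∀ n ≥ N, q (u m - u n) < ε) →
        ∃ f : X, ∀ ε : ℝ, 0 < ε → ∃ N : ℕ, ∀ n ≥ N, q (u n - f) < ε) ∧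
      (∃ B : ℝ, ∀ n : ℕ, q (x n) ≤ B) ∧
      (∃ M : ℝ, ∀ (n : ℕ) (f : X), ‖xs n f‖ ≤ M * q f) ∧
      (∀ m n : ℕ, xs m (x n) = if m = n then 1 else 0) ∧
      (∀ f : X, ∀ ε : ℝ, 0 < ε → ∃ g ∈ Submodule.span 𝕂 (Set.range x), q (f - g) < ε) ∧
      (∀ a : ℝ, 0 < a → a ≤ 1 → ∃ C : ℝ, ∀ f : X, (∀ n : ℕ, ‖xs n f‖ ≤ 1) →
        ∀ A : Finset ℕ, (∀ n ∈ A, a ≤ ‖xs n f‖) →
          q (∑ n ∈ A, xs n f • x n) ≤ C * q f) ∧
      ¬ (∃ C : ℝ, ∀ f : X, ∀ A : Finset ℕ, A.Nonempty →
          (∀ n ∈ A, ∀ k : ℕ, k ∉ A → ‖xs k f‖ ≤ ‖xs n f‖) →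
          ∀ t : ℝ, (∀ n ∈ A, t ≤ ‖xs n f‖) →
            t * q (∑ n ∈ A, (xs n f / ((‖xs n f‖ : ℝ) : 𝕂)) • x n) ≤ C * q f) := by
  classical
  obtain ⟨X, i1, i2, i3, y, ys, hbi, hnorm, hdense⟩ := space
  obtain ⟨e⟩ := nonempty_equiv_of_countable (α := ℕ) (β := Σ J, Ix J)
  have hys : ∀ p f, |ys p f| ≤ ‖f‖ := by
    intro p f
    refine (abs_le_NN (fun i => ys ⟨p.1, i⟩ f) p.2).trans ?_
    exact le_hasSum (hnorm f) p.1 (fun J _ => (bn J).nonneg _)
  have hcoef : ∀ (A : Finset ℕ) (c : ℕ → ℝ) (p : Σ J, Ix J),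
      ys p (∑ n ∈ A, c n • y (e n)) = if e.symm p ∈ A then c (e.symm p) else 0 := by
    intro A c p
    rw [map_sum]
    simp only [map_smul, hbi, smul_eq_mul, mul_ite, mul_one, mul_zero]
    have h1 : ∀ n, (if p = e n then c n else 0) = if e.symm p = n then c n else 0 := by
      intro n
      by_cases h : p = e n
      · subst h; simp
      · rw [if_neg h, if_neg]
        intro h2; apply h; rw [← h2]; simp
    simp only [h1]
    rw [Finset.sum_ite_eq]
  have hy5 : ∀ p, ‖y p‖ ≤ 5 := by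
    intro p
    have h1 := hnorm (y p)
    have h2 : ∀ J, J ≠ p.1 → NN J (fun i => ys ⟨J, i⟩ (y p)) = 0 := by
      intro J hJ
      have h3 : (fun i => ys ⟨J, i⟩ (y p)) = 0 := by
        funext i
        rw [hbi, if_neg]; · rfl
        intro h; apply hJ; rw [← h]
      rw [h3]; exact (bn J).zero
    have h4 := h1.unique (hasSum_single p.1 h2)
    rw [h4]
    obtain ⟨J, j⟩ := p
    have h5 : (fun i => ys ⟨J, i⟩ (y ⟨J, j⟩)) = fun i => if i = j then (1:ℝ) else 0 := by
      funext i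
      rw [hbi]
      by_cases h : i = j
      · subst h; simp
      · rw [if_neg h, if_neg]; intro h2; apply h; simpa using h2
    simp only [h5]
    refine (NN_single_le J j 1).trans ?_
    norm_num
  refine ⟨ℝ, inferInstance, X, inferInstance, inferInstance, fun f => ‖f‖, 1, fun n => y (e n),
    fun n => (ys (e n)).toLinearMap, fun f => norm_nonneg f, fun f h => norm_eq_zero.mp h,
    fun c f => norm_smul c f, fun f g => by simpa using norm_add_le f g, ?_, ⟨5, fun n => hy5 _⟩,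
    ⟨1, fun n f => by simpa using hys (e n) f⟩, ?_, ?_, ?_, ?_⟩
  · intro u hu
    have hc : CauchySeq u := by
      rw [Metric.cauchySeq_iff]
      intro ε hε
      obtain ⟨N, hN⟩ := hu ε hε
      exact ⟨N, fun m hm n hn => by rw [dist_eq_norm]; exact hN m hm n hn⟩
    obtain ⟨f, hf⟩ := cauchySeq_tendsto_of_complete hc
    refine ⟨f, fun ε hε => ?_⟩
    obtain ⟨N, hN⟩ := Metric.tendsto_atTop.mp hf ε hε
    exact ⟨N, fun n hn => by have := hN n hn; rwa [dist_eq_norm] at this⟩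
  · intro m n
    show ys (e m) (y (e n)) = _
    rw [hbi]
    simp only [EmbeddingLike.apply_eq_iff_eq]
  · intro f ε hε
    obtain ⟨g, hg, hgd⟩ := Metric.mem_closure_iff.mp (hdense f) ε hε
    refine ⟨g, ?_, by rwa [dist_eq_norm] at hgd⟩
    have : Set.range (fun n => y (e n)) = Set.range y := by
      ext z; constructor
      · rintro ⟨n, rfl⟩; exact ⟨e n, rfl⟩
      · rintro ⟨p, rfl⟩; exact ⟨e.symm p, by simp⟩
    rw [this]; exact hg
  · intro a ha ha1
    obtain ⟨C, hC0, hC⟩ := card_le a ha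
    refine ⟨5 * C, ?_⟩
    intro f hf A hA
    have hf' : ∀ p, |ys p f| ≤ 1 := by
      intro p
      have := hf (e.symm p)
      simpa using this
    have hA' : ∀ n ∈ A, a ≤ |ys (e n) f| := fun n hn => hA n hn
    show ‖∑ n ∈ A, ys (e n) f • y (e n)‖ ≤ 5 * C * ‖f‖
    have h1 : ‖∑ n ∈ A, ys (e n) f • y (e n)‖ ≤ 5 * A.card := by
      calc ‖∑ n ∈ A, ys (e n) f • y (e n)‖ ≤ ∑ n ∈ A, ‖ys (e n) f • y (e n)‖ := norm_sum_le _ _
        _ ≤ ∑ n ∈ A, (5:ℝ) := by
          apply Finset.sum_le_sum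
          intro n _
          rw [norm_smul, Real.norm_eq_abs]
          calc |ys (e n) f| * ‖y (e n)‖ ≤ 1 * 5 :=
                mul_le_mul (hf' _) (hy5 _) (norm_nonneg _) zero_le_one
            _ = 5 := by norm_num
        _ = 5 * A.card := by simp; ring
    have h2 : (A.card : ℝ) ≤ C * ‖f‖ := by
      let T : Finset ℕ := A.image (fun n => (e n).1)
      have h3 : (A.card : ℝ) ≤ ∑ J ∈ T,
          ((Finset.univ.filter (fun i : Ix J => a ≤ |ys ⟨J, i⟩ f|)).card : ℝ) := by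
        have h4 : A.card ≤ (T.sigma (fun J => Finset.univ.filter
            (fun i : Ix J => a ≤ |ys ⟨J, i⟩ f|))).card := by
          apply Finset.card_le_card_of_injOn e
          · intro n hn
            rw [Finset.mem_coe, Finset.mem_sigma]
            refine ⟨Finset.mem_image_of_mem _ hn, ?_⟩
            rw [Finset.mem_filter]
            exact ⟨Finset.mem_univ _, hA' n hn⟩
          · exact e.injective.injOn
        rw [Finset.card_sigma] at h4
        exact_mod_cast h4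
      calc (A.card : ℝ) ≤ _ := h3
        _ ≤ ∑ J ∈ T, C * NN J (fun i => ys ⟨J, i⟩ f) :=
            Finset.sum_le_sum (fun J _ => hC J _ (fun i => hf' _))
        _ = C * ∑ J ∈ T, NN J (fun i => ys ⟨J, i⟩ f) := by rw [Finset.mul_sum]
        _ ≤ C * ‖f‖ := by
            apply mul_le_mul_of_nonneg_left _ hC0
            exact sum_le_hasSum T (fun J _ => (bn J).nonneg _) (hnorm f)
    linarith
  · rintro ⟨C, hC⟩
    -- choose J with 2^J > C
    obtain ⟨J, hJ⟩ := pow_unbounded_of_one_lt C (show (1:ℝ) < 2 by norm_num)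
    let A : Finset ℕ := (Finset.univ : Finset (Ix (J+1))).image (fun i => e.symm ⟨J+1, i⟩)
    have hmemA : ∀ n, n ∈ A ↔ (e n).1 = J+1 := by
      intro n
      simp only [A, Finset.mem_image, Finset.mem_univ, true_and]
      constructor
      · rintro ⟨i, rfl⟩; simp
      · intro h
        have h1 : ∀ p : Σ J, Ix J, p.1 = J+1 → ∃ i : Ix (J+1), (⟨J+1, i⟩ : Σ J, Ix J) = p := by
          rintro ⟨K, i⟩ h
          simp only at h
          subst h
          exact ⟨i, rfl⟩
        obtain ⟨i, hi⟩ := h1 (e n) h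
        exact ⟨i, by rw [hi]; simp⟩
    let v : (Σ J, Ix J) → ℝ := fun p => if p.1 = J+1 then (1/2:ℝ)^(p.2.1:ℕ) else 0
    let f : X := ∑ n ∈ A, v (e n) • y (e n)
    have hf : ∀ p, ys p f = if p.1 = J+1 then (1/2:ℝ)^(p.2.1:ℕ) else 0 := by
      intro p
      have h0 := hcoef A (fun n => v (e n)) p
      simp only [Equiv.apply_symm_apply] at h0
      rw [show ys p f = _ from h0]
      by_cases hp : p.1 = J+1
      · have h1 : e.symm p ∈ A := by rw [hmemA]; simpa using hp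
        rw [if_pos h1]
      · have h1 : e.symm p ∉ A := by rw [hmemA]; simpa using hp
        rw [if_neg h1, if_neg hp]
    have hblock : ∀ g : X, (∀ p : Σ J, Ix J, p.1 ≠ J+1 → ys p g = 0) →
        ‖g‖ = NN (J+1) (fun i => ys ⟨J+1, i⟩ g) := by
      intro g hg
      refine (hnorm g).unique (hasSum_single (J+1) ?_)
      intro K hK
      have h3 : (fun i => ys ⟨K, i⟩ g) = 0 := by
        funext i
        exact hg ⟨K, i⟩ hK
      rw [h3]; exact (bn K).zero
    have hfnorm : ‖f‖ = 1 := by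
      rw [hblock f (fun p hp => by rw [hf, if_neg hp])]
      have : (fun i => ys ⟨J+1, i⟩ f) = wit (J+1) := by
        funext i
        rw [hf]; simp [wit]
      rw [this]; exact NN_wit
    have hAne : A.Nonempty :=
      ⟨e.symm ⟨J+1, ⟨⟨0, by omega⟩, ⟨0, by simp⟩⟩⟩, by rw [hmemA]; simp⟩
    have hpos : ∀ p : Σ J, Ix J, p.1 = J+1 → (1/2:ℝ)^(J+1) ≤ ys p f := by
      intro p hp
      rw [hf, if_pos hp]
      apply pow_le_pow_of_le_one (by norm_num) (by norm_num)
      obtain ⟨K, i⟩ := p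
      simp only at hp
      subst hp
      have := i.1.2
      show (i.1:ℕ) ≤ J+1
      omega
    have key := hC f A hAne ?_ ((1/2:ℝ)^(J+1)) ?_
    · -- contradiction
      have hg : ∀ p, ys p (∑ n ∈ A, (ys (e n) f / |ys (e n) f|) • y (e n))
          = if p.1 = J+1 then 1 else 0 := by
        intro p
        rw [hcoef A (fun n => ys (e n) f / |ys (e n) f|) p]
        by_cases hp : p.1 = J+1
        · have h1 : e.symm p ∈ A := by rw [hmemA]; simpa using hp
          rw [if_pos h1, if_pos hp]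
          simp only [Equiv.apply_symm_apply]
          have h2 := hpos p hp
          have h3 : (0:ℝ) < (1/2:ℝ)^(J+1) := by positivity
          have h4 : 0 < ys p f := lt_of_lt_of_le h3 h2
          rw [abs_of_pos h4, div_self h4.ne']
        · have h1 : e.symm p ∉ A := by rw [hmemA]; simpa using hp
          rw [if_neg h1, if_neg hp]
      have key2 : (1/2:ℝ)^(J+1) * ‖∑ n ∈ A, (ys (e n) f / |ys (e n) f|) • y (e n)‖ ≤ C * ‖f‖ := key
      rw [hfnorm, mul_one, hblock _ (fun p hp => by rw [hg, if_neg hp])] at key2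
      have h5 := le_NN_one (J := J) (fun i => ys ⟨J+1, i⟩
        (∑ n ∈ A, (ys (e n) f / |ys (e n) f|) • y (e n))) (fun i => by rw [hg]; simp)
      have h6 : (1/2:ℝ)^(J+1) * (4^(J+1)/2) ≤ C :=
        (mul_le_mul_of_nonneg_left h5 (by positivity)).trans key2
      have h7 : (1/2:ℝ)^(J+1) * (4^(J+1)/2) = 2^J := by
        rw [show (4:ℝ) = 2 * 2 by norm_num, mul_pow, div_pow, one_pow, pow_succ]
        field_simp
      rw [h7] at h6
      linarith
    · intro n hn k hk
      have hk' : (e k).1 ≠ J+1 := by rw [hmemA] at hk; exact hk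
      show ‖ys (e k) f‖ ≤ ‖ys (e n) f‖
      rw [hf (e k), if_neg hk', norm_zero]
      exact norm_nonneg _
    · intro n hn
      have hn' : (e n).1 = J+1 := (hmemA n).mp hn
      exact (hpos (e n) hn').trans (le_abs_self _)

end Pool.Agent.Q195.CH
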