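import Mathlib

set_option autoImplicit false

/-! Every ccs Delta-point is a super Delta-point. -/

namespace Pool.Agent.Q195.CS

open RCLike

variable {𝕜 : Type*} [RCLike 𝕜] {X : Type*} [NormedAddCommGroup X] [NormedSpace 𝕜 X]

/-- The slice `S(f, α)` of the closed unit ball. -/
def slice (f : StrongDual 𝕜 X) (α : ℝ) : Set X := {z | ‖z‖ ≤ 1 ∧ 1 - α < re (f z)}

variable (𝕜) in
/-- `C` is a convex combination of slices of the closed unit ball of `X`. -/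
def IsCcs (C : Set X) : Prop :=
  ∃ (n : ℕ) (l : Fin n → ℝ) (f : Fin n → StrongDual 𝕜 X) (α : Fin n → ℝ),
    (∀ i, 0 < l i) ∧ ∑ i, l i = 1 ∧ (∀ i, ‖f i‖ = 1) ∧ (∀ i, 0 < α i) ∧
    C = {x | ∃ z : Fin n → X, (∀ i, z i ∈ slice (f i) (α i)) ∧ x = ∑ i, ((l i : ℝ) : 𝕜) • z i}

/-- a nearly arbitrary half space is a slice -/
lemma slice_norm (g : StrongDual 𝕜 X) (τ : ℝ) (hτ : 0 < τ) (hg : 1 ≤ ‖g‖) :
    ∃ (f : StrongDual 𝕜 X) (α : ℝ), ‖f‖ = 1 ∧ 0 < α ∧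
      slice f α = {z | ‖z‖ ≤ 1 ∧ 1 - τ < re (g z)} := by
  have hg0 : 0 < ‖g‖ := by linarith
  refine ⟨((‖g‖⁻¹ : ℝ) : 𝕜) • g, 1 - (1 - τ) / ‖g‖, ?_, ?_, ?_⟩
  · rw [norm_smul, RCLike.norm_ofReal, abs_of_pos (inv_pos.mpr hg0), inv_mul_cancel₀ hg0.ne']
  · rw [sub_pos, div_lt_one hg0]; linarith
  · ext z
    simp only [slice, Set.mem_ofPred_eq]
    have : re ((((‖g‖⁻¹ : ℝ) : 𝕜) • g) z) = re (g z) / ‖g‖ := by
      change re (((‖g‖⁻¹ : ℝ) : 𝕜) * g z) = _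
      rw [RCLike.re_ofReal_mul, div_eq_inv_mul]
    rw [this, sub_sub_cancel, div_lt_div_iff_of_pos_right hg0]

/-- finite nets in the dual sphere, containing zero -/
lemma exists_net (k : ℕ) (θ : ℝ) (hθ : 0 < θ) :
    ∃ s : Finset (StrongDual 𝕜 (Fin k → 𝕜)), s.Nonempty ∧ (∀ φ ∈ s, ‖φ‖ ≤ 1) ∧
      ∀ φ : StrongDual 𝕜 (Fin k → 𝕜), ‖φ‖ = 1 → ∃ ψ ∈ s, ‖φ - ψ‖ < θ := by
  classical
  have : FiniteDimensional 𝕜 (StrongDual 𝕜 (Fin k → 𝕜)) := inferInstance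
  have : ProperSpace (StrongDual 𝕜 (Fin k → 𝕜)) := FiniteDimensional.proper 𝕜 _
  obtain ⟨t, hts, htf, hcov⟩ := (isCompact_sphere (0 : StrongDual 𝕜 (Fin k → 𝕜)) 1).finite_cover_balls hθ
  refine ⟨insert 0 htf.toFinset, ⟨0, Finset.mem_insert_self _ _⟩, ?_, ?_⟩
  · intro φ hφ
    rw [Finset.mem_insert] at hφ
    rcases hφ with rfl | hφ
    · simp
    · have := hts (htf.mem_toFinset.mp hφ)
      rw [mem_sphere_zero_iff_norm] at this
      exact this.le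
  · intro φ hφ
    have h1 : φ ∈ Metric.sphere (0 : StrongDual 𝕜 (Fin k → 𝕜)) 1 := by
      rw [mem_sphere_zero_iff_norm]; exact hφ
    have h2 := hcov h1
    rw [Set.mem_iUnion₂] at h2
    obtain ⟨ψ, hψ, h3⟩ := h2
    refine ⟨ψ, Finset.mem_insert_of_mem (htf.mem_toFinset.mpr hψ), ?_⟩
    rwa [Metric.mem_ball, dist_eq_norm] at h3

/-- separation of a convex set from a ball -/
lemma exists_sep (k : ℕ) (K : Set (Fin k → 𝕜)) (hK : Convex ℝ K) (hne : K.Nonempty) (r : ℝ)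
    (hr : 0 < r) (hdis : ∀ z ∈ K, r ≤ ‖z‖) :
    ∃ φ : StrongDual 𝕜 (Fin k → 𝕜), ‖φ‖ = 1 ∧ ∀ z ∈ K, r ≤ re (φ z) := by
  have hd : Disjoint (Metric.ball (0 : Fin k → 𝕜) r) K := by
    rw [Set.disjoint_left]
    intro z hz hzK
    rw [mem_ball_zero_iff] at hz
    exact absurd (hdis z hzK) (not_le.mpr hz)
  obtain ⟨φ, u, h1, h2⟩ := RCLike.geometric_hahn_banach_open (𝕜 := 𝕜) (convex_ball 0 r)
    Metric.isOpen_ball hK hd
  have hu : 0 < u := by
    have := h1 0 (Metric.mem_ball_self hr)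
    simpa using this
  have hφ0 : 0 < ‖φ‖ := by
    rw [norm_pos_iff]
    rintro rfl
    obtain ⟨z, hz⟩ := hne
    have := h2 z hz
    simp at this
    linarith
  have h3 : r * ‖φ‖ ≤ u := by
    by_contra hc
    push Not at hc
    have h4 : u / r < ‖φ‖ := by rw [div_lt_iff₀ hr]; linarith
    obtain ⟨a, ha1, ha2⟩ := φ.exists_lt_apply_of_lt_opNorm h4
    obtain ⟨c, hc1, hc2⟩ := RCLike.exists_norm_eq_mul_self (φ a)
    have h5 : ((r : ℝ) : 𝕜) • c • a ∈ Metric.ball (0 : Fin k → 𝕜) r := by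
      rw [mem_ball_zero_iff, norm_smul, norm_smul, hc1, one_mul, RCLike.norm_ofReal,
        abs_of_pos hr]
      nlinarith
    have h6 := h1 _ h5
    have e : φ (((r : ℝ) : 𝕜) • c • a) = ((r : ℝ) : 𝕜) * (c * φ a) := by
      rw [φ.map_smul, φ.map_smul, smul_eq_mul, smul_eq_mul]
    rw [e, ← hc2, RCLike.re_ofReal_mul, RCLike.ofReal_re] at h6
    rw [div_lt_iff₀ hr] at ha2
    linarith
  refine ⟨((‖φ‖⁻¹ : ℝ) : 𝕜) • φ, ?_, fun z hz => ?_⟩
  · rw [norm_smul, RCLike.norm_ofReal, abs_of_pos (inv_pos.mpr hφ0), inv_mul_cancel₀ hφ0.ne']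
  · change r ≤ re (((‖φ‖⁻¹ : ℝ) : 𝕜) * φ z)
    rw [RCLike.re_ofReal_mul, ← div_eq_inv_mul, le_div_iff₀ hφ0]
    linarith [h2 z hz]

lemma conv_lt (a b p q t : ℝ) (ha : 0 ≤ a) (hb : 0 ≤ b) (hab : a + b = 1) (hp : p < t)
    (hq : q < t) : a * p + b * q < t := by
  rcases ha.eq_or_lt with h0 | h0
  · have : b = 1 := by linarith
    subst this
    rw [← h0]; linarith
  · have h1 : a * p < a * t := mul_lt_mul_of_pos_left hp h0
    have h2 : b * q ≤ b * t := mul_le_mul_of_nonneg_left hq.le hb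
    have h3 : a * t + b * t = t := by rw [← add_mul, hab, one_mul]
    linarith

/-- the main construction -/
lemma core (x : X) (hx : ‖x‖ = 1)
    (hccs : ∀ C : Set X, IsCcs 𝕜 C → x ∈ C → ∀ ε : ℝ, 0 < ε → ∃ y ∈ C, 2 - ε < ‖x - y‖)
    (k : ℕ) (A : X →L[𝕜] (Fin k → 𝕜)) (ε : ℝ) (hε : 0 < ε) (δ : ℝ) (hδ : 0 < δ) :
    ∃ y, ‖y‖ ≤ 1 ∧ ‖A y - A x‖ < ε ∧ 2 - δ < ‖x - y‖ := by
  classical
  by_contra hcon
  push Not at hcon
  obtain ⟨f, hf1, hfx⟩ := exists_dual_vector 𝕜 x (by rw [hx]; norm_num)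
  rw [hx, RCLike.ofReal_one] at hfx
  have hfle : ∀ y, ‖y‖ ≤ 1 → ‖f y‖ ≤ 1 := by
    intro y hy
    have := f.le_opNorm y
    rw [hf1, one_mul] at this
    exact this.trans hy
  let A' : X →L[𝕜] (Fin k → 𝕜) := A - f.smulRight (A x)
  have hA'def : ∀ y, A' y = A y - f y • A x := fun y => rfl
  have hA'x : A' x = 0 := by rw [hA'def, hfx, one_smul, sub_self]
  let M : ℝ := ‖A'‖ + ε
  have hM : 0 < M := by positivity
  have hA'le : ∀ y, ‖y‖ ≤ 1 → ‖A' y‖ ≤ M := by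
    intro y hy
    have h1 := A'.le_opNorm y
    have h2 : ‖A'‖ * ‖y‖ ≤ ‖A'‖ * 1 := mul_le_mul_of_nonneg_left hy (norm_nonneg _)
    simp only [M]; linarith
  -- the constant `η`
  let B : ℝ := ‖A x‖ + 1
  have hB : 0 < B := by positivity
  let η : ℝ := (ε / (2 * B)) ^ 2 / 2
  have hη : 0 < η := by positivity
  have hW : ∀ y, ‖y‖ ≤ 1 → ‖A' y‖ < ε / 2 → 1 - η < re (f y) → ‖A y - A x‖ < ε := by
    intro y hy h1 h2
    have h3 : ‖f y - 1‖ ^ 2 ≤ 2 * η := by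
      have e : ‖f y - 1‖ ^ 2 = ‖f y‖ ^ 2 - 2 * re (f y) + 1 := by
        rw [RCLike.norm_sq_eq_def, RCLike.norm_sq_eq_def, map_sub, map_sub, RCLike.one_re,
          RCLike.one_im]
        ring
      have h4 := hfle y hy
      have h5 : ‖f y‖ ^ 2 ≤ 1 := by nlinarith [norm_nonneg (f y)]
      rw [e]; linarith
    have h4 : ‖f y - 1‖ ≤ ε / (2 * B) := by
      have h5 : 2 * η = (ε / (2 * B)) ^ 2 := by simp only [η]; ring
      rw [h5] at h3
      exact (pow_le_pow_iff_left₀ (norm_nonneg _) (by positivity) two_ne_zero).mp h3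
    have e : A y - A x = A' y + (f y - 1) • A x := by
      rw [hA'def, sub_smul, one_smul]; abel
    rw [e]
    refine lt_of_le_of_lt (norm_add_le _ _) ?_
    rw [norm_smul]
    have h5 : ‖f y - 1‖ * ‖A x‖ ≤ ε / (2 * B) * B :=
      mul_le_mul h4 (by simp only [B]; linarith) (norm_nonneg _) (by positivity)
    have h6 : ε / (2 * B) * B = ε / 2 := by field_simp
    linarith
  let κ : ℝ := η / (2 * M)
  have hκ : 0 < κ := by positivity
  let τ : ℝ := κ * ε / 8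
  have hτ : 0 < τ := by positivity
  have hκM : κ * M = η / 2 := by simp only [κ]; field_simp
  have hεM : ε ≤ M := by simp only [M]; linarith [norm_nonneg A']
  have hτη : τ + κ * M ≤ η := by
    have : κ * ε ≤ κ * M := mul_le_mul_of_nonneg_left hεM hκ.le
    simp only [τ]
    linarith
  obtain ⟨s, hsne, hs1, hs2⟩ := exists_net (𝕜 := 𝕜) k (ε / (8 * M)) (by positivity)
  let n : ℕ := s.card
  have hn : 0 < n := Finset.card_pos.mpr hsne
  have hnr : (0:ℝ) < n := by exact_mod_cast hn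
  let e : Fin n ≃ s := s.equivFin.symm
  let ψ : Fin n → StrongDual 𝕜 (Fin k → 𝕜) := fun i => (e i).1
  have hψ1 : ∀ i, ‖ψ i‖ ≤ 1 := fun i => hs1 _ (e i).2
  let g : Fin n → StrongDual 𝕜 X := fun i => f - ((κ : ℝ) : 𝕜) • (ψ i).comp A'
  have hg : ∀ i y, re (g i y) = re (f y) - κ * re (ψ i (A' y)) := by
    intro i y
    change re (f y - ((κ : ℝ) : 𝕜) * ψ i (A' y)) = _
    rw [map_sub, RCLike.re_ofReal_mul]
  have hgx : ∀ i, re (g i x) = 1 := by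
    intro i
    rw [hg, hA'x, map_zero, hfx]; simp
  have hgn : ∀ i, 1 ≤ ‖g i‖ := by
    intro i
    have h1 := (g i).le_opNorm x
    rw [hx, mul_one] at h1
    have h2 := RCLike.re_le_norm (g i x)
    rw [hgx] at h2
    linarith
  have hsl : ∀ i, ∃ (F : StrongDual 𝕜 X) (α : ℝ), ‖F‖ = 1 ∧ 0 < α ∧
      slice F α = {z | ‖z‖ ≤ 1 ∧ 1 - τ < re (g i z)} := fun i => slice_norm (g i) τ hτ (hgn i)
  choose F α hF hα hFs using hsl
  have hsum : ∑ _i : Fin n, (1 / (n:ℝ)) = 1 := by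
    rw [Finset.sum_const, Finset.card_univ, Fintype.card_fin, nsmul_eq_mul]
    field_simp
  let C : Set X := {y | ∃ z : Fin n → X, (∀ i, z i ∈ slice (F i) (α i)) ∧
    y = ∑ i, (((1 / (n:ℝ) : ℝ)) : 𝕜) • z i}
  have hC : IsCcs 𝕜 C := ⟨n, fun _ => 1 / (n:ℝ), F, α, fun _ => by positivity, hsum, hF, hα, rfl⟩
  have hxC : x ∈ C := by
    refine ⟨fun _ => x, fun i => ?_, ?_⟩
    · rw [hFs i]
      refine ⟨hx.le, ?_⟩
      rw [hgx]; linarith
    · rw [← Finset.sum_smul, ← RCLike.ofReal_sum, hsum, RCLike.ofReal_one, one_smul]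
  let ρ : ℝ := δ / (n + 1)
  have hρ : 0 < ρ := by positivity
  obtain ⟨y, ⟨z, hz, rfl⟩, hy⟩ := hccs C hC hxC ρ hρ
  have hz' : ∀ i, ‖z i‖ ≤ 1 ∧ 1 - τ < re (f (z i)) - κ * re (ψ i (A' (z i))) := by
    intro i
    have := hz i
    rw [hFs i] at this
    refine ⟨this.1, ?_⟩
    rw [← hg]
    exact this.2
  obtain ⟨h, hh1, hhy⟩ := exists_dual_vector'' 𝕜 (x - ∑ i, (((1 / (n:ℝ) : ℝ)) : 𝕜) • z i)
  have hhle : ∀ y, ‖y‖ ≤ 1 → |re (h y)| ≤ 1 := by
    intro y hy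
    refine (RCLike.abs_re_le_norm _).trans ((h.le_opNorm y).trans ?_)
    calc ‖h‖ * ‖y‖ ≤ 1 * 1 := mul_le_mul hh1 hy (norm_nonneg _) zero_le_one
      _ = 1 := one_mul 1
  have hre : re (h x) - ∑ i, 1 / (n:ℝ) * re (h (z i)) =
      ‖x - ∑ i, (((1 / (n:ℝ) : ℝ)) : 𝕜) • z i‖ := by
    have h1 := congrArg re hhy
    rw [RCLike.ofReal_re, map_sub, map_sub, map_sum, map_sum] at h1
    rw [← h1]
    congr 1
    apply Finset.sum_congr rfl
    intro i _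
    rw [h.map_smul, smul_eq_mul, RCLike.re_ofReal_mul]
  have hhx := (abs_le.mp (hhle x hx.le)).2
  have hgap : ∑ i, 1 / (n:ℝ) * (re (h (z i)) + 1) < ρ := by
    simp only [mul_add, mul_one, Finset.sum_add_distrib, hsum]
    linarith
  have hzi : ∀ i, re (h (z i)) < -1 + n * ρ := by
    intro i
    have h1 : 1 / (n:ℝ) * (re (h (z i)) + 1) ≤ ∑ i, 1 / (n:ℝ) * (re (h (z i)) + 1) := by
      apply Finset.single_le_sum (f := fun i => 1 / (n:ℝ) * (re (h (z i)) + 1)) _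
        (Finset.mem_univ i)
      intro j _
      have := (abs_le.mp (hhle (z j) (hz' j).1)).1
      apply mul_nonneg (by positivity)
      linarith
    have h2 : 1 / (n:ℝ) * (re (h (z i)) + 1) < ρ := lt_of_le_of_lt h1 hgap
    rw [one_div, inv_mul_lt_iff₀ hnr] at h2
    linarith
  have hhx2 : 1 - ρ < re (h x) := by
    have h1 : -1 ≤ ∑ i, 1 / (n:ℝ) * re (h (z i)) := by
      have h2 : ∑ i : Fin n, 1 / (n:ℝ) * (-1) ≤ ∑ i, 1 / (n:ℝ) * re (h (z i)) := by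
        apply Finset.sum_le_sum
        intro j _
        exact mul_le_mul_of_nonneg_left (abs_le.mp (hhle (z j) (hz' j).1)).1 (by positivity)
      rw [← Finset.sum_mul, hsum] at h2
      linarith
    linarith
  -- the convex set
  let D : Set X := {w | ‖w‖ ≤ 1 ∧ re (h w) < -1 + n * ρ ∧ 1 - η < re (f w)}
  have hψle : ∀ i y, ‖y‖ ≤ 1 → |re (ψ i (A' y))| ≤ M := by
    intro i y hy
    refine (RCLike.abs_re_le_norm _).trans (((ψ i).le_opNorm _).trans ?_)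
    calc ‖ψ i‖ * ‖A' y‖ ≤ 1 * M := mul_le_mul (hψ1 i) (hA'le y hy) (norm_nonneg _) zero_le_one
      _ = M := one_mul M
  have hzD : ∀ i, z i ∈ D := by
    intro i
    refine ⟨(hz' i).1, hzi i, ?_⟩
    have h1 := (hz' i).2
    have h2 := mul_le_mul_of_nonneg_left (abs_le.mp (hψle i (z i) (hz' i).1)).1 hκ.le
    linarith
  let K : Set (Fin k → 𝕜) := A' '' D
  have hKconv : Convex ℝ K := by
    rintro _ ⟨u, hu, rfl⟩ _ ⟨w, hw, rfl⟩ a b ha hb hab
    refine ⟨((a : ℝ) : 𝕜) • u + ((b : ℝ) : 𝕜) • w, ⟨?_, ?_, ?_⟩, ?_⟩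
    · refine (norm_add_le _ _).trans ?_
      rw [norm_smul, norm_smul, RCLike.norm_ofReal, RCLike.norm_ofReal, abs_of_nonneg ha,
        abs_of_nonneg hb]
      nlinarith [hu.1, hw.1]
    · rw [map_add, map_add, h.map_smul, h.map_smul, smul_eq_mul, smul_eq_mul,
        RCLike.re_ofReal_mul, RCLike.re_ofReal_mul]
      exact conv_lt a b _ _ _ ha hb hab hu.2.1 hw.2.1
    · rw [map_add, map_add, f.map_smul, f.map_smul, smul_eq_mul, smul_eq_mul,
        RCLike.re_ofReal_mul, RCLike.re_ofReal_mul]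
      have h1 := conv_lt a b (-re (f u)) (-re (f w)) (-(1 - η)) ha hb hab
        (by linarith [hu.2.2]) (by linarith [hw.2.2])
      linarith
    · rw [map_add, map_smul, map_smul, RCLike.real_smul_eq_coe_smul (K := 𝕜),
        RCLike.real_smul_eq_coe_smul (K := 𝕜)]
  have hKne : K.Nonempty := ⟨_, z ⟨0, hn⟩, hzD _, rfl⟩
  have hKfar : ∀ w ∈ K, ε / 2 ≤ ‖w‖ := by
    rintro _ ⟨w, hw, rfl⟩
    by_contra hc
    push Not at hc
    have h1 := hcon w hw.1 (hW w hw.1 hc hw.2.2)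
    have h2 : re (h (x - w)) ≤ ‖x - w‖ := by
      refine (RCLike.re_le_norm _).trans ((h.le_opNorm _).trans ?_)
      calc ‖h‖ * ‖x - w‖ ≤ 1 * ‖x - w‖ := mul_le_mul_of_nonneg_right hh1 (norm_nonneg _)
        _ = ‖x - w‖ := one_mul _
    rw [map_sub, map_sub] at h2
    have h3 := hw.2.1
    have h4 : (n + 1) * ρ = δ := by simp only [ρ]; field_simp
    linarith
  obtain ⟨φ, hφ1, hφ⟩ := exists_sep k K hKconv hKne (ε / 2) (by positivity) hKfar
  obtain ⟨χ, hχs, hχ⟩ := hs2 φ hφ1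
  let i : Fin n := e.symm ⟨χ, hχs⟩
  have hi : ψ i = χ := by simp only [ψ, i, Equiv.apply_symm_apply]
  have h1 := hφ _ ⟨z i, hzD i, rfl⟩
  have h2 : re (φ (A' (z i))) - re (χ (A' (z i))) ≤ ε / 8 := by
    rw [← map_sub]
    change re ((φ - χ) (A' (z i))) ≤ ε / 8
    refine (RCLike.re_le_norm _).trans (((φ - χ).le_opNorm _).trans ?_)
    calc ‖φ - χ‖ * ‖A' (z i)‖ ≤ ε / (8 * M) * M :=
          mul_le_mul hχ.le (hA'le _ (hz' i).1) (norm_nonneg _) (by positivity)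
      _ = ε / 8 := by field_simp
  have h3 := (hz' i).2
  rw [hi] at h3
  have h4 : re (f (z i)) ≤ 1 := (RCLike.re_le_norm _).trans (hfle _ (hz' i).1)
  have h5 : κ * re (χ (A' (z i))) < κ * (ε / 8) := by
    have : τ = κ * (ε / 8) := by simp only [τ]; ring
    linarith
  have h6 := lt_of_mul_lt_mul_left h5 hκ.le
  linarith

end Pool.Agent.Q195.CS
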