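import Pool.Agent.Q195.CS1

set_option autoImplicit false

/-! Every ccs Delta-point is a super Delta-point: conclusion. -/

namespace Pool.Agent.Q195.CS

open RCLike Filter Topology

variable {𝕜 : Type*} [RCLike 𝕜] {X : Type*} [NormedAddCommGroup X] [NormedSpace 𝕜 X]

variable (𝕜) in
/-- `x` is a ccs `Δ`-point. -/
def IsCcsDelta (x : X) : Prop :=
  ‖x‖ = 1 ∧ ∀ C : Set X, IsCcs 𝕜 C → x ∈ C → sSup {r : ℝ | ∃ y ∈ C, r = ‖x - y‖} = 2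

variable (𝕜) in
/-- `x` is a super `Δ`-point. -/
def IsSuperDelta (x : X) : Prop :=
  ‖x‖ = 1 ∧ ∀ U : Set (WeakSpace 𝕜 X), IsOpen U → toWeakSpace 𝕜 X x ∈ U →
    sSup {r : ℝ | ∃ y : X, ‖y‖ ≤ 1 ∧ toWeakSpace 𝕜 X y ∈ U ∧ r = ‖x - y‖} = 2

lemma weak_nhd (U : Set (WeakSpace 𝕜 X)) (hU : IsOpen U) (x : X) (hx : toWeakSpace 𝕜 X x ∈ U) :
    ∃ (k : ℕ) (A : X →L[𝕜] (Fin k → 𝕜)) (ε : ℝ), 0 < ε ∧
      ∀ y, ‖A y - A x‖ < ε → toWeakSpace 𝕜 X y ∈ U := by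
  classical
  obtain ⟨V, hV, hVU⟩ := isOpen_induced_iff.mp hU
  have hxV : (fun f : StrongDual 𝕜 X => f x) ∈ V := by
    rw [← hVU] at hx
    exact hx
  obtain ⟨I, u, hu, hIV⟩ := isOpen_pi_iff.mp hV _ hxV
  have h1 : ∀ f ∈ I, ∃ r > 0, Metric.ball (f x) r ⊆ u f :=
    fun f hf => Metric.isOpen_iff.mp (hu f hf).1 _ (hu f hf).2
  choose! r hr hball using h1
  have h2 : ∀ᶠ ε in 𝓝[>] (0:ℝ), ∀ f ∈ I, ε < r f := by
    rw [Finset.eventually_all]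
    intro f hf
    exact nhdsWithin_le_nhds (gt_mem_nhds (hr f hf))
  obtain ⟨ε, hε, hε0⟩ := (h2.and self_mem_nhdsWithin).exists
  refine ⟨I.card, ContinuousLinearMap.pi fun i => (I.equivFin.symm i).1, ε, hε0, fun y hy => ?_⟩
  rw [← hVU]
  refine hIV ?_
  intro f hf
  apply hball f hf
  rw [Metric.mem_ball, dist_eq_norm]
  let A : X →L[𝕜] (Fin I.card → 𝕜) := ContinuousLinearMap.pi fun i => (I.equivFin.symm i).1
  have h3 := norm_le_pi_norm (A y - A x) (I.equivFin ⟨f, hf⟩)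
  have h4 : (A y - A x) (I.equivFin ⟨f, hf⟩) = f y - f x := by
    change (I.equivFin.symm (I.equivFin ⟨f, hf⟩)).1 y - (I.equivFin.symm (I.equivFin ⟨f, hf⟩)).1 x = _
    rw [Equiv.symm_apply_apply]
  rw [h4] at h3
  exact lt_of_le_of_lt h3 (lt_trans hy (hε f hf))

lemma ccs_norm_le {C : Set X} (hC : IsCcs 𝕜 C) {x : X} (hx : x ∈ C) : ‖x‖ ≤ 1 := by
  obtain ⟨n, l, f, α, hl, hs, -, -, rfl⟩ := hC
  obtain ⟨z, hz, rfl⟩ := hx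
  refine (norm_sum_le _ _).trans ?_
  rw [← hs]
  apply Finset.sum_le_sum
  intro i _
  rw [norm_smul, RCLike.norm_ofReal, abs_of_nonneg (hl i).le]
  have := (hz i).1
  nlinarith [hl i]

/-- Every ccs `Δ`-point satisfies the approximate condition. -/
lemma IsCcsDelta.approx {x : X} (h : IsCcsDelta 𝕜 x) (C : Set X) (hC : IsCcs 𝕜 C) (hx : x ∈ C)
    (ε : ℝ) (hε : 0 < ε) : ∃ y ∈ C, 2 - ε < ‖x - y‖ := by
  have h1 := h.2 C hC hx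
  have hne : {r : ℝ | ∃ y ∈ C, r = ‖x - y‖}.Nonempty := ⟨_, x, hx, rfl⟩
  have h2 : 2 - ε < sSup {r : ℝ | ∃ y ∈ C, r = ‖x - y‖} := by rw [h1]; linarith
  obtain ⟨r, ⟨y, hy, rfl⟩, hr⟩ := exists_lt_of_lt_csSup hne h2
  exact ⟨y, hy, hr⟩

/-- The weak-neighbourhood form. -/
lemma IsCcsDelta.weak {x : X} (h : IsCcsDelta 𝕜 x) (U : Set (WeakSpace 𝕜 X)) (hU : IsOpen U)
    (hx : toWeakSpace 𝕜 X x ∈ U) (δ : ℝ) (hδ : 0 < δ) :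
    ∃ y : X, ‖y‖ ≤ 1 ∧ toWeakSpace 𝕜 X y ∈ U ∧ 2 - δ < ‖x - y‖ := by
  obtain ⟨k, A, ε, hε, hA⟩ := weak_nhd U hU x hx
  obtain ⟨y, hy1, hy2, hy3⟩ := core (𝕜 := 𝕜) x h.1 h.approx k A ε hε δ hδ
  exact ⟨y, hy1, hA y hy2, hy3⟩

lemma sSup_eq_two {x : X} (hx : ‖x‖ = 1) (P : X → Prop)
    (hP : ∀ δ : ℝ, 0 < δ → ∃ y, ‖y‖ ≤ 1 ∧ P y ∧ 2 - δ < ‖x - y‖) :
    sSup {r : ℝ | ∃ y : X, ‖y‖ ≤ 1 ∧ P y ∧ r = ‖x - y‖} = 2 := by
  have hb : ∀ r ∈ {r : ℝ | ∃ y : X, ‖y‖ ≤ 1 ∧ P y ∧ r = ‖x - y‖}, r ≤ 2 := by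
    rintro r ⟨y, hy, -, rfl⟩
    refine (norm_sub_le _ _).trans ?_
    linarith
  have hne : {r : ℝ | ∃ y : X, ‖y‖ ≤ 1 ∧ P y ∧ r = ‖x - y‖}.Nonempty := by
    obtain ⟨y, hy1, hy2, -⟩ := hP 1 one_pos
    exact ⟨_, y, hy1, hy2, rfl⟩
  apply le_antisymm (csSup_le hne hb)
  refine le_of_forall_pos_le_add fun δ hδ => ?_
  obtain ⟨y, hy1, hy2, hy3⟩ := hP δ hδ
  have := le_csSup ⟨2, hb⟩ (show ‖x - y‖ ∈ {r : ℝ | ∃ y : X, ‖y‖ ≤ 1 ∧ P y ∧ r = ‖x - y‖} from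
    ⟨y, hy1, hy2, rfl⟩)
  linarith

theorem ccs_super (x : X) (h : IsCcsDelta 𝕜 x) : IsSuperDelta 𝕜 x :=
  ⟨h.1, fun U hU hx => sSup_eq_two h.1 _ fun δ hδ => h.weak U hU hx δ hδ⟩

/-- Finite rank approximations exclude ccs `Δ`-points. -/
theorem no_ccs (𝒜 : Set (X →L[𝕜] X)) (hfin : ∀ T ∈ 𝒜, FiniteDimensional 𝕜 (LinearMap.range (T : X →ₗ[𝕜] X)))
    (c : ℝ) (hc : c < 2) (hcn : ∀ T ∈ 𝒜, ‖ContinuousLinearMap.id 𝕜 X - T‖ ≤ c)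
    (happ : ∀ ε : ℝ, 0 < ε → ∀ x : X, ∃ T ∈ 𝒜, ‖x - T x‖ < ε) (x : X) : ¬ IsCcsDelta 𝕜 x := by
  intro h
  have hε : 0 < (2 - c) / 4 := by linarith
  obtain ⟨T, hT, hTx⟩ := happ _ hε x
  have := hfin T hT
  -- coordinates on the range
  let R := LinearMap.range (T : X →ₗ[𝕜] X)
  let T' : X →L[𝕜] R := T.codRestrict R fun y => ⟨y, rfl⟩
  let b := Module.finBasis 𝕜 R
  let L : R ≃L[𝕜] (Fin (Module.finrank 𝕜 R) → 𝕜) := b.equivFun.toContinuousLinearEquiv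
  let A : X →L[𝕜] (Fin (Module.finrank 𝕜 R) → 𝕜) := (L : R →L[𝕜] _).comp T'
  let Cn : ℝ := ‖(L.symm : (Fin (Module.finrank 𝕜 R) → 𝕜) →L[𝕜] R)‖ + 1
  have hCn : 0 < Cn := by positivity
  have hAT : ∀ y z, ‖T y - T z‖ ≤ Cn * ‖A y - A z‖ := by
    intro y z
    have e : T y - T z = ((L.symm (A y - A z) : R) : X) := by
      rw [map_sub]
      change T y - T z = (((L.symm (L (T' y))) - (L.symm (L (T' z))) : R) : X)
      rw [L.symm_apply_apply, L.symm_apply_apply]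
      rfl
    rw [e]
    change ‖(L.symm (A y - A z) : R)‖ ≤ _
    refine ((L.symm : (Fin (Module.finrank 𝕜 R) → 𝕜) →L[𝕜] R).le_opNorm _).trans ?_
    apply mul_le_mul_of_nonneg_right _ (norm_nonneg _)
    simp only [Cn]; linarith
  obtain ⟨y, hy1, hy2, hy3⟩ := core (𝕜 := 𝕜) x h.1 h.approx _ A ((2 - c) / 4 / Cn) (by positivity)
    ((2 - c) / 4) hε
  have h1 : ‖T y - T x‖ < (2 - c) / 4 := by
    refine lt_of_le_of_lt (hAT y x) ?_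
    rw [lt_div_iff₀ hCn] at hy2
    linarith
  have h2 : ‖y - T y‖ ≤ c := by
    have h3 := (ContinuousLinearMap.id 𝕜 X - T).le_opNorm y
    have h4 : ‖ContinuousLinearMap.id 𝕜 X - T‖ * ‖y‖ ≤ c * 1 :=
      mul_le_mul (hcn T hT) hy1 (norm_nonneg _) ((norm_nonneg _).trans (hcn T hT))
    change ‖y - T y‖ ≤ _ at h3
    linarith
  have h5 : x - y = (x - T x) - (T y - T x) - (y - T y) := by abel
  rw [h5] at hy3
  have h6 := norm_sub_le ((x - T x) - (T y - T x)) (y - T y)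
  have h7 := norm_sub_le (x - T x) (T y - T x)
  linarith

end Pool.Agent.Q195.CS
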