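import Pool.Agent.Q195.CW1

set_option autoImplicit false

namespace Pool.Agent.Q195.CW

open Finset Filter Topology

/-- index set of the `J`-th block -/
abbrev Ix (W J : ℕ) : Type := Σ k : Fin (J+1), Fin (W^(k:ℕ))

variable {W J : ℕ}

/-- level averages -/
noncomputable def av (f : Ix W J → ℝ) (k : ℕ) : ℝ :=
  if h : k < J+1 then (∑ i : Fin (W^k), f ⟨⟨k,h⟩, i⟩) / (W:ℝ)^k else 0

/-- level deviation -/
noncomputable def Dv (f : Ix W J → ℝ) (k : ℕ) : ℝ :=
  if h : k < J+1 then ∑ i : Fin (W^k), |f ⟨⟨k,h⟩,i⟩ - av f k| else 0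

/-- level `l_1` norms -/
noncomputable def Lv (f : Ix W J → ℝ) (k : ℕ) : ℝ :=
  if h : k < J+1 then ∑ i : Fin (W^k), |f ⟨⟨k,h⟩,i⟩| else 0

/-- the block norm -/
noncomputable def NN (f : Ix W J → ℝ) : ℝ :=
  |av f 0| + ∑ k ∈ Finset.range J, (W:ℝ)^(k+1) * |av f (k+1) - av f k / 2|
    + ∑ k ∈ Finset.range (J+1), Dv f k

lemma av_add (f g : Ix W J → ℝ) (k : ℕ) : av (f + g) k = av f k + av g k := by
  unfold av
  split_ifs with h
  · simp only [Pi.add_apply, Finset.sum_add_distrib]; ring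
  · simp

lemma av_smul (t : ℝ) (f : Ix W J → ℝ) (k : ℕ) : av (t • f) k = t * av f k := by
  unfold av
  split_ifs with h
  · simp only [Pi.smul_apply, smul_eq_mul, ← Finset.mul_sum]; ring
  · simp

lemma Dv_nonneg (f : Ix W J → ℝ) (k : ℕ) : 0 ≤ Dv f k := by
  unfold Dv; split_ifs
  · exact Finset.sum_nonneg (fun _ _ => abs_nonneg _)
  · exact le_rfl

lemma Lv_nonneg (f : Ix W J → ℝ) (k : ℕ) : 0 ≤ Lv f k := by
  unfold Lv; split_ifs
  · exact Finset.sum_nonneg (fun _ _ => abs_nonneg _)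
  · exact le_rfl

lemma abs_av_le (hW : 2 ≤ W) (f : Ix W J → ℝ) (k : ℕ) (hk : k ≤ J) :
    |av f k| ≤ |av f 0| + ∑ k ∈ Finset.range J, (W:ℝ)^(k+1) * |av f (k+1) - av f k / 2| := by
  have hW' : (2:ℝ) ≤ W := by exact_mod_cast hW
  have h1 := chain_step (av f) 0 k
  simp only [zero_add] at h1
  have h2 : (1/2:ℝ)^k * |av f 0| ≤ |av f 0| := by
    calc (1/2:ℝ)^k * |av f 0| ≤ 1 * |av f 0| :=
          mul_le_mul_of_nonneg_right (pow_le_one₀ (by norm_num) (by norm_num)) (abs_nonneg _)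
      _ = _ := one_mul _
  have h3 : ∑ j ∈ Finset.Ico 0 k, |av f (j+1) - av f j / 2| ≤
      ∑ k ∈ Finset.range J, (W:ℝ)^(k+1) * |av f (k+1) - av f k / 2| := by
    calc ∑ j ∈ Finset.Ico 0 k, |av f (j+1) - av f j / 2|
        ≤ ∑ j ∈ Finset.Ico 0 k, (W:ℝ)^(j+1) * |av f (j+1) - av f j / 2| := by
          apply Finset.sum_le_sum
          intro j _
          have : (1:ℝ) ≤ (W:ℝ)^(j+1) := one_le_pow₀ (by linarith)
          nlinarith [abs_nonneg (av f (j+1) - av f j / 2)]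
      _ ≤ _ := by
          apply Finset.sum_le_sum_of_subset_of_nonneg
          · intro j hj
            have := (Finset.mem_Ico.mp hj).2
            simp only [Finset.mem_range]; omega
          · intro _ _ _; exact mul_nonneg (by positivity) (abs_nonneg _)
  linarith

lemma abs_le_NN (hW : 2 ≤ W) (f : Ix W J → ℝ) (p : Ix W J) : |f p| ≤ NN f := by
  obtain ⟨⟨k, hk⟩, i⟩ := p
  have h1 := abs_av_le hW f k (by omega)
  have h2 : |f ⟨⟨k,hk⟩,i⟩ - av f k| ≤ ∑ k ∈ Finset.range (J+1), Dv f k := by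
    calc |f ⟨⟨k,hk⟩,i⟩ - av f k| ≤ Dv f k := by
          unfold Dv
          rw [dif_pos hk]
          exact Finset.single_le_sum (f := fun i : Fin (W^k) => |f ⟨⟨k,hk⟩,i⟩ - av f k|)
            (fun _ _ => abs_nonneg _) (Finset.mem_univ i)
      _ ≤ _ := Finset.single_le_sum (f := fun k => Dv f k) (fun k _ => Dv_nonneg f k)
          (by simpa using hk)
  unfold NN
  have h3 : f ⟨⟨k,hk⟩,i⟩ = av f k + (f ⟨⟨k,hk⟩,i⟩ - av f k) := by ring
  rw [h3]
  have h4 := abs_add_le (av f k) (f ⟨⟨k,hk⟩,i⟩ - av f k)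
  linarith

lemma sum_Lv (f : Ix W J → ℝ) : ∑ k ∈ Finset.range (J+1), Lv f k = ∑ p, |f p| := by
  rw [Finset.sum_range, Fintype.sum_sigma]
  apply Finset.sum_congr rfl
  intro k _
  unfold Lv
  rw [dif_pos k.2]

lemma av_le_Lv (hW : 2 ≤ W) (f : Ix W J → ℝ) (k : ℕ) : (W:ℝ)^k * |av f k| ≤ Lv f k := by
  have hW' : (0:ℝ) < W := by exact_mod_cast (by omega : 0 < W)
  unfold av Lv
  split_ifs with h
  · rw [abs_div, abs_of_pos (show (0:ℝ) < (W:ℝ)^k by positivity),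
      mul_div_cancel₀ _ (by positivity)]
    exact Finset.abs_sum_le_sum_abs _ _
  · simp

lemma Dv_le_Lv (hW : 2 ≤ W) (f : Ix W J → ℝ) (k : ℕ) : Dv f k ≤ 2 * Lv f k := by
  have h0 := av_le_Lv hW f k
  by_cases h : k < J+1
  · have h1 : Dv f k ≤ ∑ i : Fin (W^k), (|f ⟨⟨k,h⟩,i⟩| + |av f k|) := by
      unfold Dv
      rw [dif_pos h]
      apply Finset.sum_le_sum
      intro i _
      exact abs_sub _ _
    rw [Finset.sum_add_distrib] at h1
    simp only [Finset.sum_const, Finset.card_univ, Fintype.card_fin, nsmul_eq_mul] at h1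
    have h2 : ∑ i : Fin (W^k), |f ⟨⟨k,h⟩,i⟩| = Lv f k := by unfold Lv; rw [dif_pos h]
    rw [h2] at h1
    push_cast at h1
    linarith
  · unfold Dv; rw [dif_neg h]
    have := Lv_nonneg f k; linarith

lemma NN_le (hW : 2 ≤ W) (f : Ix W J → ℝ) : NN f ≤ (3 + W) * ∑ p, |f p| := by
  rw [← sum_Lv]
  unfold NN
  have hW' : (2:ℝ) ≤ W := by exact_mod_cast hW
  have h1 : |av f 0| ≤ Lv f 0 := by simpa using av_le_Lv hW f 0
  have h2 : ∑ k ∈ Finset.range J, (W:ℝ)^(k+1) * |av f (k+1) - av f k / 2| ≤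
      ∑ k ∈ Finset.range J, (Lv f (k+1) + W * Lv f k) := by
    apply Finset.sum_le_sum
    intro k _
    have h3 := av_le_Lv hW f (k+1)
    have h4 := av_le_Lv hW f k
    have h5 : |av f (k+1) - av f k / 2| ≤ |av f (k+1)| + |av f k| := by
      have h6 : |av f k / 2| = |av f k| / 2 := by rw [abs_div]; norm_num
      have h7 : |av f (k+1) - av f k / 2| ≤ |av f (k+1)| + |av f k / 2| := abs_sub _ _
      have := abs_nonneg (av f k)
      linarith
    calc (W:ℝ)^(k+1) * |av f (k+1) - av f k / 2|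
        ≤ (W:ℝ)^(k+1) * (|av f (k+1)| + |av f k|) :=
          mul_le_mul_of_nonneg_left h5 (by positivity)
      _ = (W:ℝ)^(k+1) * |av f (k+1)| + W * ((W:ℝ)^k * |av f k|) := by rw [pow_succ]; ring
      _ ≤ Lv f (k+1) + W * Lv f k := by
          have := mul_le_mul_of_nonneg_left h4 (by linarith : (0:ℝ) ≤ W)
          linarith
  have h3 : ∑ k ∈ Finset.range (J+1), Dv f k ≤ 2 * ∑ k ∈ Finset.range (J+1), Lv f k := by
    rw [Finset.mul_sum]
    exact Finset.sum_le_sum (fun k _ => Dv_le_Lv hW f k)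
  have h4 : ∑ k ∈ Finset.range J, Lv f (k+1) + Lv f 0 = ∑ k ∈ Finset.range (J+1), Lv f k :=
    (Finset.sum_range_succ' _ _).symm
  have h5 : ∑ k ∈ Finset.range J, Lv f k ≤ ∑ k ∈ Finset.range (J+1), Lv f k := by
    rw [Finset.sum_range_succ]; have := Lv_nonneg f J; linarith
  rw [Finset.sum_add_distrib, ← Finset.mul_sum] at h2
  have h6 := mul_le_mul_of_nonneg_left h5 (by linarith : (0:ℝ) ≤ W)
  linarith

/-- counting large coordinates -/
theorem card_le (hW : 2 ≤ W) (a : ℝ) (ha : 0 < a) : ∃ C : ℝ, 0 ≤ C ∧ ∀ (J : ℕ) (f : Ix W J → ℝ),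
    (∀ p, |f p| ≤ 1) → ((Finset.univ.filter (fun p => a ≤ |f p|)).card : ℝ) ≤ C * NN f := by
  have hW' : (2:ℝ) ≤ W := by exact_mod_cast hW
  obtain ⟨C, hC0, hC⟩ := chain W hW' a ha
  refine ⟨C, hC0, ?_⟩
  intro J f hf
  classical
  let n : ℕ → ℝ := fun k => if h : k < J+1 then
    ∑ i : Fin (W^k), (if a ≤ |f ⟨⟨k,h⟩,i⟩| then (1:ℝ) else 0) else 0
  have hcard : ((Finset.univ.filter (fun p => a ≤ |f p|)).card : ℝ)
      = ∑ k ∈ Finset.range (J+1), n k := by
    rw [Finset.card_filter]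
    push_cast
    rw [Finset.sum_range, Fintype.sum_sigma]
    apply Finset.sum_congr rfl
    intro k _
    simp only [n]
    rw [dif_pos k.2]
  rw [hcard]
  apply hC J (av f) n (Dv f)
  · intro k
    have h1 := av_le_Lv hW f k
    have h2 : Lv f k ≤ (W:ℝ)^k := by
      unfold Lv
      split_ifs with h
      · calc ∑ i : Fin (W^k), |f ⟨⟨k,h⟩,i⟩| ≤ ∑ i : Fin (W^k), (1:ℝ) :=
              Finset.sum_le_sum (fun i _ => hf _)
          _ = (W:ℝ)^k := by simp
      · positivity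
    have h3 : (0:ℝ) < (W:ℝ)^k := by positivity
    nlinarith
  · intro k
    simp only [n]
    split_ifs with h
    · calc ∑ i : Fin (W^k), (if a ≤ |f ⟨⟨k,h⟩,i⟩| then (1:ℝ) else 0)
          ≤ ∑ i : Fin (W^k), (1:ℝ) := Finset.sum_le_sum (fun i _ => by split_ifs <;> norm_num)
        _ = (W:ℝ)^k := by simp
    · positivity
  · intro k hk hs
    simp only [n]
    unfold Dv
    rw [dif_pos hk, dif_pos hk, Finset.sum_mul]
    apply Finset.sum_le_sum
    intro i _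
    split_ifs with h
    · have h1 : |f ⟨⟨k,hk⟩,i⟩| ≤ |f ⟨⟨k,hk⟩,i⟩ - av f k| + |av f k| := by
        have := abs_add_le (f ⟨⟨k,hk⟩,i⟩ - av f k) (av f k)
        rwa [sub_add_cancel] at this
      linarith
    · rw [zero_mul]; exact abs_nonneg _
  · exact Dv_nonneg f

/-- the indicator of the first `K+1` levels -/
noncomputable def ind (W J K : ℕ) : Ix W J → ℝ := fun p => if (p.1:ℕ) ≤ K then 1 else 0

/-- the witness -/
noncomputable def wit (W J : ℕ) : Ix W J → ℝ := fun p => (1/2:ℝ)^(p.1:ℕ)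

lemma av_const (hW : 2 ≤ W) (f : Ix W J → ℝ) (k : ℕ) (hk : k < J+1) (c : ℝ)
    (hf : ∀ i, f ⟨⟨k,hk⟩,i⟩ = c) : av f k = c := by
  have hW' : (0:ℝ) < W := by exact_mod_cast (by omega : 0 < W)
  unfold av
  rw [dif_pos hk]
  simp only [hf, Finset.sum_const, Finset.card_univ, Fintype.card_fin, nsmul_eq_mul]
  push_cast
  field_simp

lemma NN_wit (hW : 2 ≤ W) : NN (wit W J) = 1 := by
  have hav : ∀ k < J+1, av (wit W J) k = (1/2:ℝ)^k := fun k hk =>
    av_const hW _ k hk _ (fun i => rfl)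
  unfold NN
  rw [hav 0 (by omega)]
  have h1 : ∑ k ∈ Finset.range J, (W:ℝ)^(k+1) * |av (wit W J) (k+1) - av (wit W J) k / 2| = 0 := by
    apply Finset.sum_eq_zero
    intro k hk
    have hk' : k < J := by simpa using hk
    have h5 : (1/2:ℝ)^(k+1) - (1/2:ℝ)^k / 2 = 0 := by rw [pow_succ]; ring
    rw [hav (k+1) (by omega), hav k (by omega), h5, abs_zero, mul_zero]
  have h2 : ∑ k ∈ Finset.range (J+1), Dv (wit W J) k = 0 := by
    apply Finset.sum_eq_zero
    intro k hk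
    have hk' : k < J+1 := by simpa using hk
    unfold Dv
    rw [dif_pos hk']
    apply Finset.sum_eq_zero
    intro i _
    rw [hav k hk']
    simp [wit]
  rw [h1, h2]; simp

lemma le_NN_one (hW : 2 ≤ W) (f : Ix W (J+1) → ℝ) (hf : ∀ p, f p = 1) :
    (W:ℝ)^(J+1) / 2 ≤ NN f := by
  have hav : ∀ k < J+1+1, av f k = 1 := fun k hk => av_const hW _ k hk _ (fun i => hf _)
  unfold NN
  have h1 : (W:ℝ)^(J+1) * |av f (J+1) - av f J / 2| ≤
      ∑ k ∈ Finset.range (J+1), (W:ℝ)^(k+1) * |av f (k+1) - av f k / 2| :=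
    Finset.single_le_sum (f := fun k => (W:ℝ)^(k+1) * |av f (k+1) - av f k / 2|)
      (fun _ _ => mul_nonneg (by positivity) (abs_nonneg _)) (by simp)
  rw [hav (J+1) (by omega), hav J (by omega)] at h1
  have h2 : 0 ≤ ∑ k ∈ Finset.range (J+1+1), Dv f k :=
    Finset.sum_nonneg (fun k _ => Dv_nonneg f k)
  have h3 : |(1:ℝ) - 1/2| = 1/2 := by norm_num
  rw [h3] at h1
  have := abs_nonneg (av f 0)
  linarith

/-- the linear map giving `l_1`-coordinates -/
noncomputable def Psi (W J : ℕ) : (Ix W J → ℝ) →ₗ[ℝ] (Ix W J → ℝ) where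
  toFun := fun f p => if (p.2:ℕ) = 0 then
      (if (p.1:ℕ) = 0 then av f 0 else (W:ℝ)^(p.1:ℕ) * (av f (p.1:ℕ) - av f ((p.1:ℕ)-1) / 2))
    else f p - av f (p.1:ℕ)
  map_add' := by
    intro f g
    funext p
    simp only [av_add, Pi.add_apply]
    split_ifs <;> ring
  map_smul' := by
    intro t f
    funext p
    simp only [av_smul, Pi.smul_apply, smul_eq_mul, RingHom.id_apply]
    split_ifs <;> ring

lemma Psi_apply (f : Ix W J → ℝ) (p : Ix W J) : Psi W J f p = if (p.2:ℕ) = 0 then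
      (if (p.1:ℕ) = 0 then av f 0 else (W:ℝ)^(p.1:ℕ) * (av f (p.1:ℕ) - av f ((p.1:ℕ)-1) / 2))
    else f p - av f (p.1:ℕ) := rfl

/-- the first term at each level -/
noncomputable def Tv (f : Ix W J → ℝ) (k : ℕ) : ℝ :=
  if k = 0 then |av f 0| else (W:ℝ)^k * |av f k - av f (k-1) / 2|

/-- the reduced deviation -/
noncomputable def Dr (f : Ix W J → ℝ) (k : ℕ) : ℝ :=
  if h : k < J+1 then ∑ i ∈ Finset.univ.filter (fun i : Fin (W^k) => (i:ℕ) ≠ 0),
    |f ⟨⟨k,h⟩,i⟩ - av f k| else 0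

lemma sum_Psi (hW : 2 ≤ W) (f : Ix W J → ℝ) :
    ∑ p, |Psi W J f p| = ∑ k ∈ Finset.range (J+1), (Tv f k + Dr f k) := by
  rw [Finset.sum_range, Fintype.sum_sigma]
  apply Finset.sum_congr rfl
  rintro ⟨k, hk⟩ _
  have hpos : 0 < W^k := by positivity
  unfold Tv Dr
  rw [dif_pos hk]
  rw [← Finset.sum_filter_add_sum_filter_not Finset.univ (fun i : Fin (W^k) => (i:ℕ) = 0)]
  congr 1
  · have h1 : (Finset.univ.filter (fun i : Fin (W^k) => (i:ℕ) = 0)) = {⟨0, hpos⟩} := by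
      ext i
      simp [Fin.ext_iff]
    rw [h1, Finset.sum_singleton, Psi_apply, if_pos rfl]
    by_cases h0 : k = 0
    · subst h0; simp
    · simp only [h0, if_false]
      rw [abs_mul, abs_of_nonneg (by positivity)]
  · apply Finset.sum_congr rfl
    intro i hi
    rw [Psi_apply, if_neg]
    simpa using hi

lemma sum_Tv (f : Ix W J → ℝ) : ∑ k ∈ Finset.range (J+1), Tv f k =
    |av f 0| + ∑ k ∈ Finset.range J, (W:ℝ)^(k+1) * |av f (k+1) - av f k / 2| := by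
  rw [Finset.sum_range_succ', add_comm]
  congr 1

lemma Dr_le (f : Ix W J → ℝ) (k : ℕ) : Dr f k ≤ Dv f k := by
  unfold Dr Dv
  split_ifs with h
  · exact Finset.sum_le_sum_of_subset_of_nonneg (Finset.filter_subset _ _)
      (fun _ _ _ => abs_nonneg _)
  · exact le_rfl

lemma Dv_le_Dr (hW : 2 ≤ W) (f : Ix W J → ℝ) (k : ℕ) : Dv f k ≤ 2 * Dr f k := by
  have hW' : (0:ℝ) < W := by exact_mod_cast (by omega : 0 < W)
  have hpos : 0 < W^k := by positivity
  by_cases h : k < J+1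
  · have h0 : ∑ i : Fin (W^k), (f ⟨⟨k,h⟩,i⟩ - av f k) = 0 := by
      rw [Finset.sum_sub_distrib]
      simp only [Finset.sum_const, Finset.card_univ, Fintype.card_fin, nsmul_eq_mul]
      unfold av
      rw [dif_pos h]
      push_cast
      field_simp
      ring
    rw [← Finset.sum_filter_add_sum_filter_not Finset.univ (fun i : Fin (W^k) => (i:ℕ) = 0)] at h0
    have h1 : (Finset.univ.filter (fun i : Fin (W^k) => (i:ℕ) = 0)) = {⟨0, hpos⟩} := by
      ext i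
      simp [Fin.ext_iff]
    rw [h1, Finset.sum_singleton] at h0
    have h2 : |f ⟨⟨k,h⟩,⟨0,hpos⟩⟩ - av f k| ≤ Dr f k := by
      unfold Dr
      rw [dif_pos h]
      have h3 : f ⟨⟨k,h⟩,⟨0,hpos⟩⟩ - av f k =
          -∑ i ∈ Finset.univ.filter (fun i : Fin (W^k) => ¬ (i:ℕ) = 0),
            (f ⟨⟨k,h⟩,i⟩ - av f k) := by linarith
      rw [h3, abs_neg]
      exact Finset.abs_sum_le_sum_abs _ _
    have h4 : Dv f k = |f ⟨⟨k,h⟩,⟨0,hpos⟩⟩ - av f k| + Dr f k := by
      unfold Dr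
      conv_lhs => unfold Dv
      rw [dif_pos h, dif_pos h,
        ← Finset.sum_filter_add_sum_filter_not Finset.univ (fun i : Fin (W^k) => (i:ℕ) = 0), h1,
        Finset.sum_singleton]
    linarith
  · unfold Dr Dv; rw [dif_neg h, dif_neg h]; simp

lemma Psi_le_NN (hW : 2 ≤ W) (f : Ix W J → ℝ) : ∑ p, |Psi W J f p| ≤ NN f := by
  rw [sum_Psi hW, Finset.sum_add_distrib, sum_Tv]
  unfold NN
  have := Finset.sum_le_sum (fun k (_ : k ∈ Finset.range (J+1)) => Dr_le f k)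
  linarith

lemma NN_le_Psi (hW : 2 ≤ W) (f : Ix W J → ℝ) : NN f ≤ 2 * ∑ p, |Psi W J f p| := by
  rw [sum_Psi hW, Finset.sum_add_distrib, sum_Tv]
  unfold NN
  have h1 := Finset.sum_le_sum (fun k (_ : k ∈ Finset.range (J+1)) => Dv_le_Dr hW f k)
  rw [← Finset.mul_sum] at h1
  have h2 : 0 ≤ ∑ k ∈ Finset.range J, (W:ℝ)^(k+1) * |av f (k+1) - av f k / 2| :=
    Finset.sum_nonneg (fun _ _ => mul_nonneg (by positivity) (abs_nonneg _))
  have := abs_nonneg (av f 0)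
  linarith

end Pool.Agent.Q195.CW
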