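import Mathlib

set_option autoImplicit false

namespace Pool.Agent.Q195.CW

open Finset Filter Topology

/-- Bases of `l_1` from block-diagonal isomorphisms. -/
theorem l1basis (ι : ℕ → Type) [∀ J, Fintype (ι J)] [∀ J, DecidableEq (ι J)]
    (Ψ : ∀ J, (ι J → ℝ) →ₗ[ℝ] (ι J → ℝ)) (M : ℝ)
    (hM : ∀ J f p, |f p| ≤ M * ∑ q, |Ψ J f q|) (e : ℕ ≃ Σ J, ι J) :
    ∃ (x : (Σ J, ι J) → lp (fun _ : ℕ => ℝ) 1)
      (xs : (Σ J, ι J) → (lp (fun _ : ℕ => ℝ) 1 →L[ℝ] ℝ)),
      (∀ p q, xs p (x q) = if p = q then 1 else 0) ∧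
      (∀ f, HasSum (fun J => ∑ q, |Ψ J (fun i => xs ⟨J, i⟩ f) q|) ‖f‖) ∧
      (∀ f, f ∈ closure (Submodule.span ℝ (Set.range x) : Set (lp (fun _ : ℕ => ℝ) 1))) := by
  classical
  have hinj : ∀ J, Function.Injective (Ψ J) := by
    intro J
    rw [← LinearMap.ker_eq_bot, LinearMap.ker_eq_bot']
    intro f hf
    funext p
    have h := hM J f p
    rw [hf] at h
    simp only [Pi.zero_apply, abs_zero, Finset.sum_const_zero, mul_zero] at h
    exact abs_eq_zero.mp (le_antisymm h (abs_nonneg _))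
  let Θ : ∀ J, (ι J → ℝ) ≃ₗ[ℝ] (ι J → ℝ) := fun J =>
    LinearEquiv.ofInjectiveEndo (Ψ J) (hinj J)
  have hΘ : ∀ J f, Θ J f = Ψ J f := fun J f => rfl
  have hΘ' : ∀ J g, Ψ J ((Θ J).symm g) = g := by
    intro J g
    rw [← hΘ, LinearEquiv.apply_symm_apply]
  let re : ∀ J, lp (fun _ : ℕ => ℝ) 1 →ₗ[ℝ] (ι J → ℝ) := fun J =>
    { toFun := fun f q => f (e.symm ⟨J, q⟩)
      map_add' := fun f g => rfl
      map_smul' := fun t f => rfl }
  have hre : ∀ J f q, re J f q = f (e.symm ⟨J, q⟩) := fun J f q => rfl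
  have hnorm0 : ∀ f : lp (fun _ : ℕ => ℝ) 1, HasSum (fun J => ∑ q, |re J f q|) ‖f‖ := by
    intro f
    have h1 : HasSum (fun n => |f n|) ‖f‖ := by
      have := lp.hasSum_norm (E := fun _ : ℕ => ℝ) (p := 1) (by norm_num) f
      simpa using this
    have h2 : HasSum (fun p : Σ J, ι J => |f (e.symm p)|) ‖f‖ :=
      (Equiv.hasSum_iff e.symm (f := fun n => |f n|)).mpr h1
    exact h2.sigma (fun J => hasSum_fintype _)
  let xl : (Σ J, ι J) → lp (fun _ : ℕ => ℝ) 1 →ₗ[ℝ] ℝ := fun p =>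
    (LinearMap.proj p.2).comp (((Θ p.1).symm.toLinearMap).comp (re p.1))
  have hxl : ∀ p f, xl p f = (Θ p.1).symm (re p.1 f) p.2 := fun p f => rfl
  have hbd : ∀ p f, ‖xl p f‖ ≤ |M| * ‖f‖ := by
    intro p f
    rw [hxl]
    have h1 := hM p.1 ((Θ p.1).symm (re p.1 f)) p.2
    rw [hΘ'] at h1
    have h2 : ∑ q, |re p.1 f q| ≤ ‖f‖ := by
      have := le_hasSum (hnorm0 f) p.1 (fun J _ => Finset.sum_nonneg (fun q _ => abs_nonneg _))
      exact this
    refine h1.trans ?_
    calc M * ∑ q, |re p.1 f q| ≤ |M| * ∑ q, |re p.1 f q| :=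
          mul_le_mul_of_nonneg_right (le_abs_self M) (Finset.sum_nonneg (fun q _ => abs_nonneg _))
      _ ≤ |M| * ‖f‖ := mul_le_mul_of_nonneg_left h2 (abs_nonneg _)
  let xs : (Σ J, ι J) → (lp (fun _ : ℕ => ℝ) 1 →L[ℝ] ℝ) := fun p =>
    (xl p).mkContinuous (|M|) (hbd p)
  have hxs : ∀ p f, xs p f = (Θ p.1).symm (re p.1 f) p.2 := fun p f => rfl
  let x : (Σ J, ι J) → lp (fun _ : ℕ => ℝ) 1 := fun p =>
    ∑ q, (Ψ p.1 (Pi.single p.2 1)) q • lp.single 1 (e.symm ⟨p.1, q⟩) (1:ℝ)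
  have hsing : ∀ (J : ℕ) (q : ι J) (J' : ℕ) (q' : ι J'),
      re J' (lp.single 1 (e.symm ⟨J, q⟩) (1:ℝ)) q' = if (⟨J', q'⟩ : Σ J, ι J) = ⟨J, q⟩ then 1 else 0 := by
    intro J q J' q'
    rw [hre]
    by_cases h : (⟨J', q'⟩ : Σ J, ι J) = ⟨J, q⟩
    · rw [if_pos h, h, lp.single_apply_self]
    · rw [if_neg h, lp.single_apply_ne]
      intro h2; exact h (e.symm.injective h2)
  have hrex : ∀ (J : ℕ) (i : ι J) (J' : ℕ) (q' : ι J'),
      re J' (x ⟨J, i⟩) q' = ∑ q, (Ψ J (Pi.single i 1)) q * (if (⟨J', q'⟩ : Σ J, ι J) = ⟨J, q⟩ then 1 else 0) := by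
    intro J i J' q'
    simp only [x]
    rw [map_sum, Finset.sum_apply]
    apply Finset.sum_congr rfl
    intro q _
    rw [map_smul, Pi.smul_apply, hsing, smul_eq_mul]
  have hsame : ∀ (J : ℕ) (i : ι J), re J (x ⟨J, i⟩) = Ψ J (Pi.single i 1) := by
    intro J i
    funext q'
    rw [hrex, Finset.sum_eq_single q']
    · simp
    · intro q _ hq
      rw [if_neg, mul_zero]
      intro h; apply hq; simpa using h.symm
    · simp
  have hdiff : ∀ (J : ℕ) (i : ι J) (J' : ℕ), J' ≠ J → re J' (x ⟨J, i⟩) = 0 := by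
    intro J i J' hJ
    funext q'
    rw [hrex]
    apply Finset.sum_eq_zero
    intro q _
    rw [if_neg, mul_zero]
    intro h; exact hJ (congrArg Sigma.fst h)
  refine ⟨x, xs, ?_, ?_, ?_⟩
  · rintro ⟨J', i'⟩ ⟨J, i⟩
    rw [hxs]
    by_cases hJ : J' = J
    · subst hJ
      simp only
      rw [hsame, ← hΘ, LinearEquiv.symm_apply_apply]
      by_cases hi : i' = i
      · subst hi; simp
      · rw [Pi.single_eq_of_ne hi, if_neg]
        intro h; apply hi; simpa using h
    · simp only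
      rw [hdiff J i J' hJ, map_zero, if_neg]
      · rfl
      · intro h; exact hJ (congrArg Sigma.fst h)
  · intro f
    have h1 : ∀ J, (fun i => xs ⟨J, i⟩ f) = (Θ J).symm (re J f) := fun J => rfl
    simp only [h1, hΘ']
    exact hnorm0 f
  · intro f
    have hunit : ∀ n : ℕ, lp.single 1 n (1:ℝ) ∈ Submodule.span ℝ (Set.range x) := by
      intro n
      obtain ⟨⟨J, q⟩, rfl⟩ := e.symm.surjective n
      have h1 : lp.single 1 (e.symm ⟨J, q⟩) (1:ℝ) =
          ∑ i, ((Θ J).symm (Pi.single q 1) i) • x ⟨J, i⟩ := by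
        apply lp.ext
        funext m
        obtain ⟨⟨J', q'⟩, rfl⟩ := e.symm.surjective m
        have h2 : ∀ g : lp (fun _ : ℕ => ℝ) 1, g (e.symm ⟨J', q'⟩) = re J' g q' := fun g => rfl
        rw [h2, h2, map_sum, hsing]
        by_cases hJ : J' = J
        · subst hJ
          have h3 : ∀ i, re J' (((Θ J').symm (Pi.single q 1) i) • x ⟨J', i⟩)
              = ((Θ J').symm (Pi.single q 1) i) • Ψ J' (Pi.single i 1) := by
            intro i; rw [map_smul, hsame]
          simp only [h3]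
          have h4 : ∑ i, ((Θ J').symm (Pi.single q 1) i) • Ψ J' (Pi.single i 1)
              = Ψ J' ((Θ J').symm (Pi.single q 1)) := by
            conv_rhs => rw [show (Θ J').symm (Pi.single q 1) =
              ∑ i, ((Θ J').symm (Pi.single q 1) i) • (Pi.single i 1 : ι J' → ℝ) from by
                funext i
                rw [Finset.sum_apply]
                simp [Pi.single_apply]]
            rw [map_sum]
            simp only [map_smul]
          rw [h4, hΘ']
          by_cases hq : q' = q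
          · subst hq; simp
          · rw [Pi.single_eq_of_ne hq, if_neg]
            intro h; apply hq; simpa using h
        · rw [if_neg (fun h => hJ (congrArg Sigma.fst h))]
          rw [Finset.sum_apply]
          symm
          apply Finset.sum_eq_zero
          intro i _
          rw [map_smul, hdiff J i J' hJ]
          simp
      rw [h1]
      exact Submodule.sum_mem _ (fun i _ => Submodule.smul_mem _ _ (Submodule.subset_span ⟨_, rfl⟩))
    have hs : HasSum (fun n => (lp.single 1 n (f n) : lp (fun _ : ℕ => ℝ) 1)) f :=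
      lp.hasSum_single ENNReal.one_ne_top f
    apply mem_closure_of_tendsto hs
    filter_upwards with s
    apply Submodule.sum_mem
    intro n _
    have h1 : (lp.single 1 n (f n) : lp (fun _ : ℕ => ℝ) 1) = f n • lp.single 1 n (1:ℝ) := by
      rw [← lp.single_smul, smul_eq_mul, mul_one]
    rw [h1]
    exact Submodule.smul_mem _ _ (hunit n)

end Pool.Agent.Q195.CW
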