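import Mathlib

set_option autoImplicit false

namespace Pool.Agent.Q195.QD

variable {X : Type*} [NormedAddCommGroup X] [NormedSpace ℝ X]

/-- A basis in the sense of greedy approximation theory: a norm-bounded sequence with dense linear
span, together with a norm-bounded biorthogonal sequence of functionals. -/
structure IsBasis (x : ℕ → X) (xs : ℕ → X →L[ℝ] ℝ) : Prop where
  bdd : ∃ B : ℝ, ∀ n, ‖x n‖ ≤ B
  bddDual : ∃ B : ℝ, ∀ n, ‖xs n‖ ≤ B
  biorth : ∀ m n, xs m (x n) = if m = n then 1 else 0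
  dense : (Submodule.span ℝ (Set.range x)).topologicalClosure = ⊤

/-- Near unconditionality: for each `a` in `(0,1]` the coordinates of modulus at least `a` of vectors
with all coordinates of modulus at most one can be projected with norm control. -/
def NearlyUncond (x : ℕ → X) (xs : ℕ → X →L[ℝ] ℝ) : Prop :=
  ∀ a : ℝ, 0 < a → a ≤ 1 → ∃ C : ℝ, ∀ f : X, (∀ n, |xs n f| ≤ 1) →
    ∀ A : Finset ℕ, (∀ n ∈ A, a ≤ |xs n f|) → ‖∑ n ∈ A, xs n f • x n‖ ≤ C * ‖f‖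

/-- The `L`-QGLC inequality measured with the function `p` (a norm on `X`). -/
def QGLC (L : ℝ) (x : ℕ → X) (xs : ℕ → X →L[ℝ] ℝ) (p : X → ℝ) : Prop :=
  ∀ (A : Finset ℕ) (ε : ℕ → ℝ), (∀ n ∈ A, |ε n| = 1) → ∀ f : X, (∀ n, |xs n f| ≤ 1) →
    (∀ n ∈ A, xs n f = 0) →
    p (∑ n ∈ A, ε n • x n) ≤ L * p (∑ n ∈ A, ε n • x n + f)

/-- `p` is a norm on `X` equivalent to the given one. -/
def EquivNorm (p : Seminorm ℝ X) : Prop :=
  ∃ c C : ℝ, 0 < c ∧ ∀ f : X, c * ‖f‖ ≤ p f ∧ p f ≤ C * ‖f‖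

/-- Some nearly unconditional basis of `X` is not `L`-QGLC under any equivalent norm. -/
def FailsRenorming (X : Type) [NormedAddCommGroup X] [NormedSpace ℝ X] (L : ℝ) : Prop :=
  ∃ (x : ℕ → X) (xs : ℕ → X →L[ℝ] ℝ), IsBasis x xs ∧ NearlyUncond x xs ∧
    ∀ p : Seminorm ℝ X, EquivNorm p → ¬ QGLC L x xs p

end Pool.Agent.Q195.QD
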