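import Pool.Agent.Q195.CW2
import Pool.Agent.Q195.CW3
import Pool.Agent.Q195.QDefs

set_option autoImplicit false

namespace Pool.Agent.Q195.CW

open Finset Filter Topology Pool.Agent.Q195.QD

variable {W J : ℕ}

/-- truncations of the witness -/
noncomputable def Tr (W J K : ℕ) : Ix W J → ℝ :=
  fun p => if (p.1:ℕ) ≤ K then (1/2:ℝ)^K else (1/2:ℝ)^(p.1:ℕ)

/-- tails -/
noncomputable def Tl (W J K : ℕ) : Ix W J → ℝ :=
  fun p => if (p.1:ℕ) ≤ K then 0 else 2^K * (1/2:ℝ)^(p.1:ℕ)

lemma Tr_zero : Tr W J 0 = wit W J := by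
  funext p
  unfold Tr wit
  split_ifs with h
  · have : (p.1:ℕ) = 0 := by omega
    rw [this]
  · rfl

lemma Tr_succ (K : ℕ) : Tr W J (K+1) = Tr W J K + (-(1/2:ℝ)^(K+1)) • ind W J K := by
  funext p
  simp only [Tr, ind, Pi.add_apply, Pi.smul_apply, smul_eq_mul]
  by_cases h1 : (p.1:ℕ) ≤ K
  · rw [if_pos (by omega), if_pos h1, if_pos h1, pow_succ]; ring
  · by_cases h2 : (p.1:ℕ) = K+1
    · rw [if_pos (by omega), if_neg h1, if_neg h1, h2]; ring
    · rw [if_neg (by omega), if_neg h1, if_neg h1]; ring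

lemma ind_add_Tl (K : ℕ) : ind W J K + Tl W J K = (2:ℝ)^K • Tr W J K := by
  funext p
  simp only [Tr, ind, Tl, Pi.add_apply, Pi.smul_apply, smul_eq_mul]
  have h2 : (2:ℝ)^K * (1/2)^K = 1 := by rw [← mul_pow]; norm_num
  by_cases h1 : (p.1:ℕ) ≤ K
  · rw [if_pos h1, if_pos h1, if_pos h1, h2, add_zero]
  · rw [if_neg h1, if_neg h1, if_neg h1, zero_add]

lemma Tl_le (K : ℕ) (p : Ix W J) : |Tl W J K p| ≤ 1 := by
  unfold Tl
  split_ifs with h
  · simp
  · rw [abs_of_nonneg (by positivity)]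
    calc (2:ℝ)^K * (1/2)^(p.1:ℕ) ≤ 2^K * (1/2)^K := by
          apply mul_le_mul_of_nonneg_left _ (by positivity)
          exact pow_le_pow_of_le_one (by norm_num) (by norm_num) (by omega)
      _ = 1 := by rw [← mul_pow]; norm_num

/-- the growth estimate under the QGLC inequality -/
lemma growth (P : (Ix W J → ℝ) → ℝ) (L : ℝ) (hL : 0 ≤ L)
    (hadd : ∀ u v, P (u + v) ≤ P u + P v) (hsm : ∀ (t : ℝ) u, P (t • u) = |t| * P u)
    (hq : ∀ K, P (ind W J K) ≤ L * P (ind W J K + Tl W J K)) (K : ℕ) :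
    P (ind W J K) ≤ L * (2 + L)^K * P (wit W J) := by
  have h1 : ∀ K, P (ind W J K) ≤ L * 2^K * P (Tr W J K) := by
    intro K
    have := hq K
    rw [ind_add_Tl, hsm, abs_of_nonneg (by positivity)] at this
    linarith
  have h2 : ∀ K, P (Tr W J K) ≤ (1 + L/2)^K * P (wit W J) := by
    intro K
    induction K with
    | zero => rw [Tr_zero]; simp
    | succ K ih =>
      rw [Tr_succ]
      have h3 := hadd (Tr W J K) ((-(1/2:ℝ)^(K+1)) • ind W J K)
      rw [hsm, abs_neg, abs_of_nonneg (by positivity)] at h3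
      have h4 : (1/2:ℝ)^(K+1) * P (ind W J K) ≤ L/2 * P (Tr W J K) := by
        calc (1/2:ℝ)^(K+1) * P (ind W J K) ≤ (1/2:ℝ)^(K+1) * (L * 2^K * P (Tr W J K)) :=
              mul_le_mul_of_nonneg_left (h1 K) (by positivity)
          _ = ((1/2:ℝ)^K * 2^K) * (L/2 * P (Tr W J K)) := by rw [pow_succ]; ring
          _ = _ := by rw [← mul_pow]; norm_num
      calc P (Tr W J K + (-(1/2:ℝ)^(K+1)) • ind W J K)
          ≤ (1 + L/2) * P (Tr W J K) := by linarith
        _ ≤ (1 + L/2) * ((1 + L/2)^K * P (wit W J)) :=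
            mul_le_mul_of_nonneg_left ih (by positivity)
        _ = _ := by rw [pow_succ]; ring
  calc P (ind W J K) ≤ L * 2^K * P (Tr W J K) := h1 K
    _ ≤ L * 2^K * ((1 + L/2)^K * P (wit W J)) :=
        mul_le_mul_of_nonneg_left (h2 K) (by positivity)
    _ = L * (2 * (1 + L/2))^K * P (wit W J) := by rw [mul_pow]; ring
    _ = _ := by congr 2; ring

theorem final (L : ℝ) : ∃ (x : ℕ → lp (fun _ : ℕ => ℝ) 1)
    (xs : ℕ → (lp (fun _ : ℕ => ℝ) 1 →L[ℝ] ℝ)), IsBasis x xs ∧ NearlyUncond x xs ∧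
      ∀ p : Seminorm ℝ (lp (fun _ : ℕ => ℝ) 1), EquivNorm p → ¬ QGLC L x xs p := by
  classical
  -- choose W
  obtain ⟨W0, hW0⟩ := exists_nat_gt (|L| + 3)
  set L' := |L| + 1 with hL'
  have hL0 : 0 ≤ |L| := abs_nonneg L
  obtain ⟨W, hW2, hWL⟩ : ∃ W : ℕ, 2 ≤ W ∧ 2 + L' < W := by
    refine ⟨W0, ?_, by linarith⟩
    have h1 : (2:ℝ) ≤ W0 := by linarith
    exact_mod_cast h1
  have : Infinite (Σ J, Ix W J) := by
    apply Infinite.of_injective (fun J : ℕ => (⟨J, ⟨⟨0, by omega⟩, ⟨0, by simp⟩⟩⟩ : Σ J, Ix W J))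
    intro a b h
    exact congrArg Sigma.fst h
  obtain ⟨e⟩ := nonempty_equiv_of_countable (α := ℕ) (β := Σ J, Ix W J)
  obtain ⟨y, ys, hbi, hnorm, hdense⟩ := l1basis (fun J => Ix W J) (fun J => Psi W J) 2
    (fun J f p => (abs_le_NN hW2 f p).trans (NN_le_Psi hW2 f)) e
  have hNN : ∀ J f, NN (fun i : Ix W J => ys ⟨J, i⟩ f) ≤ 2 * ‖f‖ := by
    intro J f
    refine (NN_le_Psi hW2 _).trans ?_
    apply mul_le_mul_of_nonneg_left _ (by norm_num)
    exact le_hasSum (hnorm f) J (fun J _ => Finset.sum_nonneg (fun _ _ => abs_nonneg _))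
  have hys : ∀ p f, |ys p f| ≤ 2 * ‖f‖ := fun p f =>
    (abs_le_NN hW2 (fun i => ys ⟨p.1, i⟩ f) p.2).trans (hNN p.1 f)
  have hblock : ∀ (J : ℕ) (g : lp (fun _ : ℕ => ℝ) 1), (∀ p : Σ J, Ix W J, p.1 ≠ J → ys p g = 0) →
      ‖g‖ = ∑ q, |Psi W J (fun i => ys ⟨J, i⟩ g) q| := by
    intro J g hg
    refine (hnorm g).unique (hasSum_single J ?_)
    intro K hK
    have h3 : (fun i => ys ⟨K, i⟩ g) = 0 := by
      funext i
      exact hg ⟨K, i⟩ hK
    rw [h3, map_zero]; simp
  have hyW : ∀ p, ‖y p‖ ≤ 3 + W := by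
    rintro ⟨J, j⟩
    rw [hblock J (y ⟨J, j⟩)]
    · refine (Psi_le_NN hW2 _).trans ((NN_le hW2 _).trans ?_)
      have h1 : ∑ i, |ys ⟨J, i⟩ (y ⟨J, j⟩)| = 1 := by
        rw [Finset.sum_eq_single j]
        · rw [hbi]; simp
        · intro i _ hi
          rw [hbi, if_neg, abs_zero]
          intro h; apply hi; simpa using h
        · simp
      rw [h1, mul_one]
    · intro p hp
      rw [hbi, if_neg]
      intro h; apply hp; rw [h]
  refine ⟨fun n => y (e n), fun n => ys (e n), ⟨⟨3 + W, fun n => hyW _⟩, ⟨2, fun n => ?_⟩, ?_, ?_⟩,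
    ?_, ?_⟩
  · exact ContinuousLinearMap.opNorm_le_bound _ (by norm_num) (fun f => hys (e n) f)
  · intro m n
    rw [hbi]
    simp only [EmbeddingLike.apply_eq_iff_eq]
  · have : Set.range (fun n => y (e n)) = Set.range y := by
      ext z; constructor
      · rintro ⟨n, rfl⟩; exact ⟨e n, rfl⟩
      · rintro ⟨p, rfl⟩; exact ⟨e.symm p, by simp⟩
    rw [this, eq_top_iff]
    intro f _
    exact hdense f
  · intro a ha ha1
    obtain ⟨C, hC0, hC⟩ := card_le hW2 a ha
    refine ⟨(3 + W) * (C * 2), ?_⟩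
    intro f hf A hA
    have hf' : ∀ p, |ys p f| ≤ 1 := by
      intro p
      have := hf (e.symm p)
      simpa using this
    have h1 : ‖∑ n ∈ A, ys (e n) f • y (e n)‖ ≤ (3 + W) * A.card := by
      calc ‖∑ n ∈ A, ys (e n) f • y (e n)‖ ≤ ∑ n ∈ A, ‖ys (e n) f • y (e n)‖ := norm_sum_le _ _
        _ ≤ ∑ n ∈ A, (3 + W : ℝ) := by
          apply Finset.sum_le_sum
          intro n _
          rw [norm_smul, Real.norm_eq_abs]
          calc |ys (e n) f| * ‖y (e n)‖ ≤ 1 * (3 + W) :=
                mul_le_mul (hf' _) (hyW _) (norm_nonneg _) zero_le_one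
            _ = 3 + W := by ring
        _ = (3 + W) * A.card := by simp; ring
    have h2 : (A.card : ℝ) ≤ C * (2 * ‖f‖) := by
      let T : Finset ℕ := A.image (fun n => (e n).1)
      have h3 : (A.card : ℝ) ≤ ∑ J ∈ T,
          ((Finset.univ.filter (fun i : Ix W J => a ≤ |ys ⟨J, i⟩ f|)).card : ℝ) := by
        have h4 : A.card ≤ (T.sigma (fun J => Finset.univ.filter
            (fun i : Ix W J => a ≤ |ys ⟨J, i⟩ f|))).card := by
          apply Finset.card_le_card_of_injOn e
          · intro n hn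
            rw [Finset.mem_coe, Finset.mem_sigma]
            refine ⟨Finset.mem_image_of_mem _ hn, ?_⟩
            rw [Finset.mem_filter]
            exact ⟨Finset.mem_univ _, hA n hn⟩
          · exact e.injective.injOn
        rw [Finset.card_sigma] at h4
        exact_mod_cast h4
      calc (A.card : ℝ) ≤ _ := h3
        _ ≤ ∑ J ∈ T, C * NN (fun i => ys ⟨J, i⟩ f) :=
            Finset.sum_le_sum (fun J _ => hC J _ (fun i => hf' _))
        _ ≤ ∑ J ∈ T, C * (2 * ∑ q, |Psi W J (fun i => ys ⟨J, i⟩ f) q|) :=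
            Finset.sum_le_sum (fun J _ => mul_le_mul_of_nonneg_left (NN_le_Psi hW2 _) hC0)
        _ = C * (2 * ∑ J ∈ T, ∑ q, |Psi W J (fun i => ys ⟨J, i⟩ f) q|) := by
            simp only [Finset.mul_sum]
        _ ≤ C * (2 * ‖f‖) := by
            apply mul_le_mul_of_nonneg_left _ hC0
            apply mul_le_mul_of_nonneg_left _ (by norm_num)
            exact sum_le_hasSum T (fun J _ => Finset.sum_nonneg (fun _ _ => abs_nonneg _)) (hnorm f)
    calc ‖∑ n ∈ A, ys (e n) f • y (e n)‖ ≤ (3 + W) * A.card := h1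
      _ ≤ (3 + W) * (C * (2 * ‖f‖)) := mul_le_mul_of_nonneg_left h2 (by positivity)
      _ = _ := by ring
  · rintro p ⟨c, C, hc, hp⟩ hQ
    have hratio : ∃ J : ℕ, 4 * L' * |C| / c < ((W:ℝ)/(2+L'))^(J+1) := by
      obtain ⟨J, hJ⟩ := pow_unbounded_of_one_lt (4 * L' * |C| / c)
        (show (1:ℝ) < (W:ℝ)/(2+L') by rw [one_lt_div (by positivity)]; exact hWL)
      refine ⟨J, hJ.trans_le ?_⟩
      apply pow_le_pow_right₀ _ (Nat.le_succ J)
      rw [le_div_iff₀ (by positivity)]; linarith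
    obtain ⟨J, hJ⟩ := hratio
    let emb : (Ix W (J+1) → ℝ) → lp (fun _ : ℕ => ℝ) 1 := fun u => ∑ i, u i • y ⟨J+1, i⟩
    have hemb_add : ∀ u v, emb (u + v) = emb u + emb v := by
      intro u v
      simp only [emb, Pi.add_apply, add_smul, Finset.sum_add_distrib]
    have hemb_smul : ∀ (t : ℝ) u, emb (t • u) = t • emb u := by
      intro t u
      simp only [emb, Pi.smul_apply, smul_assoc, Finset.smul_sum]
    have hcoef : ∀ (u : Ix W (J+1) → ℝ) (i : Ix W (J+1)), ys ⟨J+1, i⟩ (emb u) = u i := by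
      intro u i
      simp only [emb]
      rw [map_sum, Finset.sum_eq_single i]
      · rw [map_smul, hbi]; simp
      · intro j _ hj
        rw [map_smul, hbi, if_neg, smul_zero]
        intro h; apply hj; simpa using h.symm
      · simp
    have hcoef0 : ∀ (u : Ix W (J+1) → ℝ) (p : Σ J, Ix W J), p.1 ≠ J+1 → ys p (emb u) = 0 := by
      intro u p hp
      simp only [emb]
      rw [map_sum]
      apply Finset.sum_eq_zero
      intro j _
      rw [map_smul, hbi, if_neg, smul_zero]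
      intro h; apply hp; rw [h]
    have hembn : ∀ u, ‖emb u‖ = ∑ q, |Psi W (J+1) u q| := by
      intro u
      rw [hblock (J+1) (emb u) (fun p hp => hcoef0 u p hp)]
      simp only [hcoef]
    let P : (Ix W (J+1) → ℝ) → ℝ := fun u => p (emb u)
    have hPadd : ∀ u v, P (u + v) ≤ P u + P v := by
      intro u v
      simp only [P, hemb_add]
      exact map_add_le_add p _ _
    have hPsm : ∀ (t : ℝ) u, P (t • u) = |t| * P u := by
      intro t u
      simp only [P, hemb_smul, map_smul_eq_mul, Real.norm_eq_abs]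
    have hPq : ∀ K, P (ind W (J+1) K) ≤ L' * P (ind W (J+1) K + Tl W (J+1) K) := by
      intro K
      let A : Finset ℕ := (Finset.univ.filter (fun i : Ix W (J+1) => (i.1:ℕ) ≤ K)).image
        (fun i => e.symm ⟨J+1, i⟩)
      have hsum : ∑ n ∈ A, (fun _ : ℕ => (1:ℝ)) n • y (e n) = emb (ind W (J+1) K) := by
        simp only [A]
        rw [Finset.sum_image]
        · simp only [Equiv.apply_symm_apply, one_smul, emb, ind]
          rw [Finset.sum_filter]
          apply Finset.sum_congr rfl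
          intro i _
          split_ifs <;> simp
        · intro i _ j _ h
          simpa using h
      have h1 := hQ A (fun _ => 1) (fun _ _ => by simp) (emb (Tl W (J+1) K)) ?_ ?_
      · rw [hsum, ← hemb_add] at h1
        refine h1.trans ?_
        apply mul_le_mul_of_nonneg_right _ (apply_nonneg p _)
        have := le_abs_self L
        linarith
      · intro n
        by_cases hn : (e n).1 = J+1
        · obtain ⟨i, hi⟩ : ∃ i : Ix W (J+1), e n = ⟨J+1, i⟩ := by
            generalize hen : e n = q at hn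
            obtain ⟨K', i⟩ := q
            simp only at hn
            subst hn
            exact ⟨i, rfl⟩
          show |ys (e n) _| ≤ 1
          rw [hi, hcoef]
          exact Tl_le K i
        · show |ys (e n) _| ≤ 1
          rw [hcoef0 _ _ hn]; simp
      · intro n hn
        simp only [A, Finset.mem_image, Finset.mem_filter, Finset.mem_univ, true_and] at hn
        obtain ⟨i, hi, rfl⟩ := hn
        show ys (e (e.symm ⟨J+1, i⟩)) _ = 0
        rw [Equiv.apply_symm_apply, hcoef]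
        simp [Tl, hi]
    have hgr := growth P L' (by positivity) hPadd hPsm hPq (J+1)
    have h1 : P (wit W (J+1)) ≤ |C| := by
      have h2 := (hp (emb (wit W (J+1)))).2
      have h3 : ‖emb (wit W (J+1))‖ ≤ 1 := by
        rw [hembn]
        exact (Psi_le_NN hW2 _).trans (NN_wit hW2).le
      calc P (wit W (J+1)) ≤ C * ‖emb (wit W (J+1))‖ := h2
        _ ≤ |C| * ‖emb (wit W (J+1))‖ :=
            mul_le_mul_of_nonneg_right (le_abs_self C) (norm_nonneg _)
        _ ≤ |C| * 1 := mul_le_mul_of_nonneg_left h3 (abs_nonneg _)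
        _ = |C| := mul_one _
    have h4 : c * ((W:ℝ)^(J+1)/4) ≤ P (ind W (J+1) (J+1)) := by
      have h2 := (hp (emb (ind W (J+1) (J+1)))).1
      refine le_trans ?_ h2
      apply mul_le_mul_of_nonneg_left _ hc.le
      rw [hembn]
      have h5 := NN_le_Psi hW2 (ind W (J+1) (J+1))
      have h6 := le_NN_one hW2 (ind W (J+1) (J+1)) (fun q => by
        unfold ind
        rw [if_pos]
        have := q.1.2; omega)
      linarith
    have h5 : c * ((W:ℝ)^(J+1)/4) ≤ L' * (2+L')^(J+1) * |C| :=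
      h4.trans (hgr.trans (mul_le_mul_of_nonneg_left h1 (by positivity)))
    rw [div_pow, div_lt_div_iff₀ hc (by positivity)] at hJ
    nlinarith

end Pool.Agent.Q195.CW
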