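import Pool.Agent.Q195.EP1
import Pool.Agent.Q195.CS2

set_option autoImplicit false

/-! An extreme Delta-point which is not a super Delta-point. -/

namespace Pool.Agent.Q195.EP

open Filter Topology

/-- index set -/
inductive Ix
  | x : Ix
  | e (k : ℕ) : Ix
  | b (n i : ℕ) (s : Bool) : Ix
  deriving DecidableEq

/-- signs -/
def sg : Bool → ℝ
  | true => 1
  | false => -1

lemma sg_abs (s : Bool) : |sg s| = 1 := by cases s <;> simp [sg]

/-- small numbers -/
noncomputable def ep (n : ℕ) : ℝ := 1 / (100 * (n + 1))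

lemma ep_pos (n : ℕ) : 0 < ep n := by unfold ep; positivity

lemma ep_le (n : ℕ) : ep n ≤ 1 / 100 := by
  unfold ep
  apply one_div_le_one_div_of_le (by norm_num)
  have : (0:ℝ) ≤ n := Nat.cast_nonneg n
  linarith

lemma ep_anti {n m : ℕ} (h : n ≤ m) : ep m ≤ ep n := by
  unfold ep
  apply one_div_le_one_div_of_le (by positivity)
  have : (n:ℝ) ≤ m := by exact_mod_cast h
  linarith

/-- the generators close to `x` -/
noncomputable def y (n i : ℕ) (s : Bool) : Ix →₀ ℝ :=
  (1 - ep n) • Finsupp.single Ix.x 1 +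
    (sg s * (1 - ep n)) • (∑ k ∈ Finset.range (n + 1), Finsupp.single (Ix.e k) 1) -
    (2 - ep n) • Finsupp.single (Ix.b n i s) 1

lemma sum_e_apply (n : ℕ) (j : Ix) :
    (∑ k ∈ Finset.range (n + 1), Finsupp.single (Ix.e k) (1:ℝ)) j =
      match j with
      | Ix.e k => if k ≤ n then 1 else 0
      | _ => 0 := by
  rw [Finsupp.finsetSum_apply]
  cases j with
  | x => apply Finset.sum_eq_zero; intro k _; rw [Finsupp.single_apply, if_neg (by simp)]
  | b m i s => apply Finset.sum_eq_zero; intro k _; rw [Finsupp.single_apply, if_neg (by simp)]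
  | e k =>
    simp only [Finsupp.single_apply, Ix.e.injEq]
    rw [Finset.sum_ite_eq']
    simp

lemma y_x (n i : ℕ) (s : Bool) : y n i s Ix.x = 1 - ep n := by
  unfold y
  rw [Finsupp.sub_apply, Finsupp.add_apply, Finsupp.smul_apply, Finsupp.smul_apply,
    Finsupp.smul_apply, sum_e_apply, Finsupp.single_apply, Finsupp.single_apply, if_pos rfl,
    if_neg (by simp)]
  simp

lemma y_e (n i : ℕ) (s : Bool) (k : ℕ) :
    y n i s (Ix.e k) = if k ≤ n then sg s * (1 - ep n) else 0 := by
  unfold y
  rw [Finsupp.sub_apply, Finsupp.add_apply, Finsupp.smul_apply, Finsupp.smul_apply,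
    Finsupp.smul_apply, sum_e_apply, Finsupp.single_apply, Finsupp.single_apply, if_neg (by simp),
    if_neg (by simp)]
  simp

lemma y_b (n i : ℕ) (s : Bool) (m j : ℕ) (t : Bool) :
    y n i s (Ix.b m j t) = if n = m ∧ i = j ∧ s = t then -(2 - ep n) else 0 := by
  unfold y
  rw [Finsupp.sub_apply, Finsupp.add_apply, Finsupp.smul_apply, Finsupp.smul_apply,
    Finsupp.smul_apply, sum_e_apply, Finsupp.single_apply, Finsupp.single_apply, if_neg (by simp)]
  simp only [Ix.b.injEq]
  split_ifs <;> simp

/-- the flat part of the generators -/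
def G2 : Set (Ix →₀ ℝ) := {w | w Ix.x = 0 ∧ ∀ j, |w j| ≤ 1}

/-- all generators -/
def G : Set (Ix →₀ ℝ) :=
  {w | w = Finsupp.single Ix.x 1 ∨ w ∈ G2 ∨ ∃ n i s, w = y n i s}

lemma G_le (g : Ix →₀ ℝ) (hg : g ∈ G) (j : Ix) : |g j| ≤ 2 := by
  rcases hg with rfl | hg | ⟨n, i, s, rfl⟩
  · rw [Finsupp.single_apply]
    split_ifs <;> norm_num
  · exact (hg.2 j).trans (by norm_num)
  · have h1 := ep_pos n
    have h2 := ep_le n
    cases j with
    | x => rw [y_x, abs_le]; constructor <;> linarith
    | e k =>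
      rw [y_e]
      split_ifs
      · rw [abs_mul, sg_abs, one_mul, abs_le]; constructor <;> linarith
      · norm_num
    | b m j t =>
      rw [y_b]
      split_ifs
      · rw [abs_le]; constructor <;> linarith
      · norm_num

lemma single_mem (j : Ix) : Finsupp.single j (1:ℝ) ∈ G := by
  cases j with
  | x => exact Or.inl rfl
  | e k =>
    refine Or.inr (Or.inl ⟨?_, fun j => ?_⟩)
    · rw [Finsupp.single_apply, if_neg (by simp)]
    · rw [Finsupp.single_apply]; split_ifs <;> norm_num
  | b n i s =>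
    refine Or.inr (Or.inl ⟨?_, fun j => ?_⟩)
    · rw [Finsupp.single_apply, if_neg (by simp)]
    · rw [Finsupp.single_apply]; split_ifs <;> norm_num

/-- The abstract situation. -/
structure Sit (X : Type) [NormedAddCommGroup X] [NormedSpace ℝ X] (v : (Ix →₀ ℝ) →ₗ[ℝ] X)
    (c : Ix → X →L[ℝ] ℝ) : Prop where
  cv : ∀ k w, c k (v w) = w k
  le : ∀ g ∈ G, ‖v g‖ ≤ 1
  op : ∀ (f : X →L[ℝ] ℝ) (C : ℝ), 0 ≤ C → (∀ g ∈ G, |f (v g)| ≤ C) → ‖f‖ ≤ C
  inj : ∀ x, (∀ k, c k x = 0) → x = 0

variable {X : Type} [NormedAddCommGroup X] [NormedSpace ℝ X] {v : (Ix →₀ ℝ) →ₗ[ℝ] X}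
    {c : Ix → X →L[ℝ] ℝ}

lemma app_le (f : X →L[ℝ] ℝ) (C : ℝ) (hf : ‖f‖ ≤ C) (a : X) (ha : ‖a‖ ≤ 1) : |f a| ≤ C := by
  have h1 := f.le_opNorm a
  have h2 : ‖f‖ * ‖a‖ ≤ ‖f‖ * 1 := mul_le_mul_of_nonneg_left ha (norm_nonneg f)
  rw [Real.norm_eq_abs] at h1
  linarith

lemma Sit.f_norm (h : Sit X v c) : ‖c Ix.x‖ ≤ 1 := by
  refine h.op _ _ zero_le_one fun g hg => ?_
  rw [h.cv]
  rcases hg with rfl | hg | ⟨n, i, s, rfl⟩
  · simp
  · rw [hg.1]; simp
  · rw [y_x, abs_le]
    constructor <;> linarith [ep_pos n, ep_le n]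

lemma Sit.x_norm (h : Sit X v c) : ‖v (Finsupp.single Ix.x 1)‖ = 1 := by
  apply le_antisymm (h.le _ (single_mem _))
  have h1 := (c Ix.x).le_opNorm (v (Finsupp.single Ix.x 1))
  rw [h.cv, Finsupp.single_eq_same, norm_one] at h1
  have h2 : ‖c Ix.x‖ * ‖v (Finsupp.single Ix.x 1)‖ ≤ 1 * ‖v (Finsupp.single Ix.x 1)‖ :=
    mul_le_mul_of_nonneg_right h.f_norm (norm_nonneg _)
  linarith

/-- elements of the ball at which `c x = 1` -/
lemma Sit.expose (h : Sit X v c) (a : X) (ha : ‖a‖ ≤ 1) (ha1 : c Ix.x a = 1) :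
    a = v (Finsupp.single Ix.x 1) := by
  classical
  have hb : ∀ n i s, c (Ix.b n i s) a = 0 := by
    intro n i s
    have key : ∀ t : ℝ, |t| = 1 → t * c (Ix.b n i s) a ≤ 0 := by
      intro t ht
      have hn : ‖(2 / ep n) • c Ix.x + t • c (Ix.b n i s)‖ ≤ 2 / ep n := by
        have hep := ep_pos n
        have h2 : 2 ≤ 2 / ep n := by
          rw [le_div_iff₀ hep]; linarith [ep_le n]
        refine h.op _ _ (by positivity) fun g hg => ?_
        change |2 / ep n * c Ix.x (v g) + t * c (Ix.b n i s) (v g)| ≤ _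
        rw [h.cv, h.cv]
        rcases hg with rfl | hg | ⟨m, j, s', rfl⟩
        · rw [Finsupp.single_eq_same, Finsupp.single_apply, if_neg (by simp), mul_zero, add_zero,
            mul_one, abs_of_pos (by positivity)]
        · rw [hg.1, mul_zero, zero_add, abs_mul, ht, one_mul]
          exact (hg.2 _).trans (by linarith)
        · rw [y_x, y_b]
          split_ifs with hc
          · obtain ⟨rfl, rfl, rfl⟩ := hc
            refine (abs_add_le _ _).trans ?_
            rw [abs_mul, abs_mul, ht, one_mul, abs_of_pos (show 0 < 2 / ep m by positivity), abs_neg,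
              abs_of_pos (by linarith [ep_le m]), abs_of_pos (by linarith [ep_le m])]
            have : 2 / ep m * (1 - ep m) = 2 / ep m - 2 := by field_simp
            rw [this]; linarith
          · rw [mul_zero, add_zero, abs_mul, abs_of_pos (show 0 < 2 / ep n by positivity),
              abs_of_pos (by linarith [ep_le m])]
            have := ep_pos m
            have h3 : 2 / ep n * (1 - ep m) ≤ 2 / ep n * 1 :=
              mul_le_mul_of_nonneg_left (by linarith) (by positivity)
            linarith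
      have h1 := (abs_le.mp (app_le _ _ hn a ha)).2
      change 2 / ep n * c Ix.x a + t * c (Ix.b n i s) a ≤ _ at h1
      rw [ha1] at h1
      linarith
    have h1 := key 1 (by simp)
    have h2 := key (-1) (by simp)
    linarith
  have he : ∀ k, c (Ix.e k) a = c (Ix.e 0) a := by
    intro k
    have key : ∀ t : ℝ, |t| = 1 → t * (c (Ix.e k) a - c (Ix.e 0) a) ≤ 0 := by
      intro t ht
      have hep := ep_pos k
      have h2 : 2 ≤ 1 / ep k := by
        rw [le_div_iff₀ hep]; linarith [ep_le k]
      have hn : ‖(1 / ep k) • c Ix.x + t • (c (Ix.e k) - c (Ix.e 0))‖ ≤ 1 / ep k := by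
        refine h.op _ _ (by positivity) fun g hg => ?_
        change |1 / ep k * c Ix.x (v g) + t * (c (Ix.e k) (v g) - c (Ix.e 0) (v g))| ≤ _
        rw [h.cv, h.cv, h.cv]
        rcases hg with rfl | hg | ⟨m, j, s', rfl⟩
        · rw [Finsupp.single_eq_same, Finsupp.single_apply, Finsupp.single_apply, if_neg (by simp),
            if_neg (by simp), sub_zero, mul_zero, add_zero, mul_one, abs_of_pos (by positivity)]
        · rw [hg.1, mul_zero, zero_add, abs_mul, ht, one_mul]
          refine (abs_sub _ _).trans ?_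
          linarith [hg.2 (Ix.e k), hg.2 (Ix.e 0)]
        · rw [y_x, y_e, y_e, if_pos (Nat.zero_le m)]
          have hm := ep_pos m
          have hm2 := ep_le m
          split_ifs with hc
          · rw [sub_self, mul_zero, add_zero, abs_mul, abs_of_pos (show 0 < 1 / ep k by positivity),
              abs_of_pos (by linarith)]
            have h3 : 1 / ep k * (1 - ep m) ≤ 1 / ep k * 1 :=
              mul_le_mul_of_nonneg_left (by linarith) (by positivity)
            linarith
          · have hmk : ep k ≤ ep m := ep_anti (by omega)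
            refine (abs_add_le _ _).trans ?_
            rw [abs_mul, abs_mul, ht, one_mul, abs_of_pos (show 0 < 1 / ep k by positivity), zero_sub,
              abs_neg, abs_mul, sg_abs, one_mul, abs_of_pos (show 0 < 1 - ep m by linarith)]
            have h3 : 1 / ep k * (1 - ep m) ≤ 1 / ep k * (1 - ep k) :=
              mul_le_mul_of_nonneg_left (by linarith) (by positivity)
            have h4 : 1 / ep k * (1 - ep k) = 1 / ep k - 1 := by field_simp
            linarith
      have h1 := (abs_le.mp (app_le _ _ hn a ha)).2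
      change 1 / ep k * c Ix.x a + t * (c (Ix.e k) a - c (Ix.e 0) a) ≤ _ at h1
      rw [ha1] at h1
      linarith
    have h1 := key 1 (by simp)
    have h2 := key (-1) (by simp)
    linarith
  -- density of the range
  have hdense : ∀ δ : ℝ, 0 < δ → ∃ w, ‖a - v w‖ < δ := by
    intro δ hδ
    let R := LinearMap.range v
    have hR : R.topologicalClosure = ⊤ := by
      by_contra hne
      obtain ⟨z, hz⟩ : ∃ z, z ∉ R.topologicalClosure := by
        by_contra hc
        push Not at hc
        exact hne (Submodule.eq_top_iff'.mpr hc)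
      obtain ⟨f, u, hf1, hf2⟩ := geometric_hahn_banach_point_closed
        (R.topologicalClosure.convex) (Submodule.isClosed_topologicalClosure R) hz
      have hfR : ∀ w, f (v w) = 0 := by
        intro w
        by_contra hne
        have h1 := hf2 (((u - 1) / f (v w)) • v w)
          (Submodule.smul_mem _ _ (Submodule.le_topologicalClosure R ⟨w, rfl⟩))
        rw [map_smul, smul_eq_mul, div_mul_cancel₀ _ hne] at h1
        linarith
      have hf0 : ‖f‖ ≤ 0 := h.op f 0 le_rfl fun g _ => by rw [hfR]; simp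
      have hf0' : f = 0 := norm_le_zero_iff.mp hf0
      have h1 := hf2 0 (Submodule.zero_mem _)
      rw [hf0'] at hf1 h1
      simp at hf1 h1
      linarith
    have ha2 : a ∈ R.topologicalClosure := by rw [hR]; trivial
    have ha3 : a ∈ closure (R : Set X) := ha2
    rw [Metric.mem_closure_iff] at ha3
    obtain ⟨z, ⟨w, rfl⟩, hw⟩ := ha3 δ hδ
    exact ⟨w, by rwa [← dist_eq_norm]⟩
  have he_norm : ∀ k, ‖c (Ix.e k)‖ ≤ 1 := by
    intro k
    refine h.op _ _ zero_le_one fun g hg => ?_
    rw [h.cv]
    rcases hg with rfl | hg | ⟨n, i, s, rfl⟩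
    · simp
    · exact hg.2 _
    · rw [y_e]
      split_ifs
      · rw [abs_mul, sg_abs, one_mul, abs_le]
        constructor <;> linarith [ep_pos n, ep_le n]
      · simp
  have he0 : c (Ix.e 0) a = 0 := by
    rw [← abs_eq_zero]
    apply le_antisymm _ (abs_nonneg _)
    refine le_of_forall_pos_le_add fun δ hδ => ?_
    obtain ⟨w, hw⟩ := hdense δ hδ
    obtain ⟨k, hk⟩ : ∃ k, w (Ix.e k) = 0 := by
      by_contra hc
      push Not at hc
      have : Function.Injective (fun k => (⟨Ix.e k, Finsupp.mem_support_iff.mpr (hc k)⟩ : w.support)) := by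
        intro k l hkl
        simpa using hkl
      exact not_injective_infinite_finite _ this
    rw [← he k]
    have h1 := (c (Ix.e k)).le_opNorm (a - v w)
    rw [map_sub, h.cv, hk, sub_zero, Real.norm_eq_abs] at h1
    have h2 : ‖c (Ix.e k)‖ * ‖a - v w‖ ≤ 1 * ‖a - v w‖ :=
      mul_le_mul_of_nonneg_right (he_norm k) (norm_nonneg _)
    linarith
  rw [← sub_eq_zero]
  apply h.inj
  intro k
  rw [map_sub, h.cv]
  cases k with
  | x => rw [ha1]; simp
  | e k => rw [he, he0]; simp
  | b n i s => rw [hb]; simp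

end Pool.Agent.Q195.EP
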