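import Pool.Agent.Q195.EP2

set_option autoImplicit false

/-! An extreme Delta-point which is not a super Delta-point: conclusion. -/

namespace Pool.Agent.Q195.EP

open Filter Topology

variable {X : Type} [NormedAddCommGroup X] [NormedSpace ℝ X] {v : (Ix →₀ ℝ) →ₗ[ℝ] X}
    {c : Ix → X →L[ℝ] ℝ}

lemma Sit.far (h : Sit X v c) (n i : ℕ) (s : Bool) :
    2 ≤ ‖v (Finsupp.single Ix.x 1) - v (y n i s)‖ := by
  have hn : ‖c Ix.x + c (Ix.b n i s)‖ ≤ 1 := by
    refine h.op _ _ zero_le_one fun g hg => ?_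
    change |c Ix.x (v g) + c (Ix.b n i s) (v g)| ≤ _
    rw [h.cv, h.cv]
    rcases hg with rfl | hg | ⟨m, j, s', rfl⟩
    · rw [Finsupp.single_eq_same, Finsupp.single_apply, if_neg (by simp)]; simp
    · rw [hg.1, zero_add]; exact hg.2 _
    · rw [y_x, y_b]
      have hm := ep_pos m
      have hm2 := ep_le m
      split_ifs
      · rw [abs_le]; constructor <;> linarith
      · rw [abs_le]; constructor <;> linarith
  have h1 := (c Ix.x + c (Ix.b n i s)).le_opNorm (v (Finsupp.single Ix.x 1) - v (y n i s))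
  have h2 : (c Ix.x + c (Ix.b n i s)) (v (Finsupp.single Ix.x 1) - v (y n i s)) = 2 := by
    change c Ix.x (v (Finsupp.single Ix.x 1) - v (y n i s)) +
      c (Ix.b n i s) (v (Finsupp.single Ix.x 1) - v (y n i s)) = 2
    rw [map_sub, map_sub, h.cv, h.cv, h.cv, h.cv, y_x, y_b, Finsupp.single_eq_same,
      Finsupp.single_apply, if_neg (by simp), if_pos ⟨rfl, rfl, rfl⟩]
    ring
  rw [h2] at h1
  have h3 : ‖c Ix.x + c (Ix.b n i s)‖ * ‖v (Finsupp.single Ix.x 1) - v (y n i s)‖ ≤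
      1 * ‖v (Finsupp.single Ix.x 1) - v (y n i s)‖ :=
    mul_le_mul_of_nonneg_right hn (norm_nonneg _)
  rw [Real.norm_eq_abs, abs_of_pos (by norm_num : (0:ℝ) < 2)] at h1
  linarith

/-- the sum of the corrections -/
lemma sum_y (n N : ℕ) : ∑ i ∈ Finset.range N, (y n i true + y n i false) =
    (2 * (N:ℝ) * (1 - ep n)) • Finsupp.single Ix.x 1 -
      (2 - ep n) • ∑ i ∈ Finset.range N, (Finsupp.single (Ix.b n i true) 1 +
        Finsupp.single (Ix.b n i false) 1) := by
  rw [Finset.smul_sum, eq_sub_iff_add_eq, ← Finset.sum_add_distrib]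
  have : ∀ i ∈ Finset.range N, y n i true + y n i false + (2 - ep n) •
      (Finsupp.single (Ix.b n i true) (1:ℝ) + Finsupp.single (Ix.b n i false) 1) =
      (2 * (1 - ep n)) • Finsupp.single Ix.x 1 := by
    intro i _
    unfold y sg
    simp only
    module
  rw [Finset.sum_congr rfl this, Finset.sum_const, Finset.card_range, ← Nat.cast_smul_eq_nsmul ℝ,
    smul_smul]
  congr 1
  ring

lemma corr_mem (n N : ℕ) : ∑ i ∈ Finset.range N, (Finsupp.single (Ix.b n i true) (1:ℝ) +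
    Finsupp.single (Ix.b n i false) 1) ∈ G := by
  refine Or.inr (Or.inl ⟨?_, fun j => ?_⟩)
  · rw [Finsupp.finsetSum_apply]
    apply Finset.sum_eq_zero
    intro i _
    rw [Finsupp.add_apply, Finsupp.single_apply, Finsupp.single_apply, if_neg (by simp),
      if_neg (by simp), add_zero]
  · rw [Finsupp.finsetSum_apply]
    cases j with
    | x =>
      rw [Finset.sum_eq_zero]
      · simp
      intro i _
      rw [Finsupp.add_apply, Finsupp.single_apply, Finsupp.single_apply, if_neg (by simp),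
        if_neg (by simp), add_zero]
    | e k =>
      rw [Finset.sum_eq_zero]
      · simp
      intro i _
      rw [Finsupp.add_apply, Finsupp.single_apply, Finsupp.single_apply, if_neg (by simp),
        if_neg (by simp), add_zero]
    | b m j t =>
      have : ∀ i ∈ Finset.range N, (Finsupp.single (Ix.b n i true) (1:ℝ) +
          Finsupp.single (Ix.b n i false) 1 : Ix →₀ ℝ) (Ix.b m j t) =
            if i = j then (if n = m then 1 else 0) else 0 := by
        intro i _
        rw [Finsupp.add_apply, Finsupp.single_apply, Finsupp.single_apply]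
        simp only [Ix.b.injEq]
        cases t <;> by_cases h1 : i = j <;> by_cases h2 : n = m <;> simp [h1, h2]
      rw [Finset.sum_congr rfl this, Finset.sum_ite_eq']
      split_ifs <;> simp

/-- The `Δ`-point property. -/
lemma Sit.delta (h : Sit X v c) (g : X →L[ℝ] ℝ) (α : ℝ)
    (hx : ‖g‖ - α < g (v (Finsupp.single Ix.x 1))) :
    ∃ n i s, ‖g‖ - α < g (v (y n i s)) := by
  by_contra hc
  push Not at hc
  set gx := g (v (Finsupp.single Ix.x 1)) with hgx
  obtain ⟨n, hn⟩ := exists_nat_gt (2 * (‖g‖ + 1) / (gx - (‖g‖ - α)))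
  have hgap : 0 < gx - (‖g‖ - α) := by linarith
  have hn1 : 2 * (‖g‖ + 1) < (n + 1) * (gx - (‖g‖ - α)) := by
    rw [div_lt_iff₀ hgap] at hn
    linarith
  have h1 : ∑ i ∈ Finset.range (n + 1), (g (v (y n i true)) + g (v (y n i false))) ≤
      ∑ i ∈ Finset.range (n + 1), (2 * (‖g‖ - α)) := by
    apply Finset.sum_le_sum
    intro i _
    linarith [hc n i true, hc n i false]
  rw [Finset.sum_const, Finset.card_range, nsmul_eq_mul] at h1
  have h2 : ∑ i ∈ Finset.range (n + 1), (g (v (y n i true)) + g (v (y n i false))) =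
      2 * ((n + 1 : ℕ):ℝ) * (1 - ep n) * gx - (2 - ep n) * g (v (∑ i ∈ Finset.range (n + 1),
        (Finsupp.single (Ix.b n i true) 1 + Finsupp.single (Ix.b n i false) 1))) := by
    have h3 := congrArg (fun w => g (v w)) (sum_y n (n + 1))
    simp only [map_sum, map_add, map_sub, map_smul, smul_eq_mul] at h3 ⊢
    exact h3
  rw [h2] at h1
  have h3 := abs_le.mp (app_le g ‖g‖ le_rfl _ (h.le _ (corr_mem n (n + 1))))
  have h4 := abs_le.mp (app_le g ‖g‖ le_rfl _ h.x_norm.le)
  rw [← hgx] at h4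
  have h5 := ep_pos n
  have h6 := ep_le n
  have h7 : ep n * (n + 1) = 1 / 100 := by
    unfold ep; field_simp
  push_cast at h1
  have h8 : (2 - ep n) * g (v (∑ i ∈ Finset.range (n + 1),
        (Finsupp.single (Ix.b n i true) 1 + Finsupp.single (Ix.b n i false) 1))) ≤ 2 * ‖g‖ := by
    have h9 : (2 - ep n) * g (v (∑ i ∈ Finset.range (n + 1),
        (Finsupp.single (Ix.b n i true) 1 + Finsupp.single (Ix.b n i false) 1))) ≤
        (2 - ep n) * ‖g‖ := mul_le_mul_of_nonneg_left h3.2 (by linarith)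
    nlinarith [norm_nonneg g]
  have h10 : 2 * ((n:ℝ) + 1) * (1 - ep n) * gx = 2 * (n + 1) * gx - 2 * (ep n * (n + 1)) * gx := by
    ring
  rw [h10, h7] at h1
  nlinarith [norm_nonneg g]

/-- A functional close to `1` at `x` and close to `-1` at a point in the relevant weakly open set is
close to `-1` at some generator. -/
lemma Sit.find (h : Sit X v c) (φ : X →L[ℝ] ℝ) (hφ : ‖φ‖ ≤ 1) (s : Bool) (a : X) (ha : ‖a‖ ≤ 1)
    (h1 : 7 / 8 < c Ix.x a) (h2 : -(1 / 4) < sg s * c (Ix.e 0) a)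
    (h3 : φ a < -1 + 2 / 100) (hx : 0 ≤ φ (v (Finsupp.single Ix.x 1))) :
    ∃ n i, φ (v (y n i s)) ≤ -1 + 1 / 10 := by
  by_contra hc
  push Not at hc
  have hn : ‖(-1 : ℝ) • φ + (1 / 10 : ℝ) • c Ix.x + (sg s / 20) • c (Ix.e 0)‖ ≤ 1 + 1 / 20 := by
    refine h.op _ _ (by norm_num) fun g hg => ?_
    change |-1 * φ (v g) + 1 / 10 * c Ix.x (v g) + sg s / 20 * c (Ix.e 0) (v g)| ≤ _
    rw [h.cv, h.cv]
    have hφg := abs_le.mp (app_le φ 1 hφ _ (h.le g hg))
    rcases hg with rfl | hg | ⟨m, j, s', rfl⟩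
    · rw [Finsupp.single_eq_same, Finsupp.single_apply, if_neg (by simp), abs_le]
      constructor <;> linarith
    · rw [hg.1]
      have h4 : |sg s / 20 * g (Ix.e 0)| ≤ 1 / 20 := by
        rw [abs_mul, abs_div, sg_abs]
        have := hg.2 (Ix.e 0)
        norm_num
        linarith
      have h5 := abs_le.mp h4
      rw [abs_le]
      constructor <;> linarith
    · rw [y_x, y_e, if_pos (Nat.zero_le m)]
      have hm := ep_pos m
      have hm2 := ep_le m
      have hcs := hc m j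
      cases s <;> cases s' <;> simp only [sg] <;> rw [abs_le] <;> constructor <;> linarith
  have h4 := (abs_le.mp (app_le _ _ hn a ha)).2
  change -1 * φ a + 1 / 10 * c Ix.x a + sg s / 20 * c (Ix.e 0) a ≤ _ at h4
  have h5 : sg s / 20 * c (Ix.e 0) a = (sg s * c (Ix.e 0) a) / 20 := by ring
  rw [h5] at h4
  linarith

lemma Sit.close (h : Sit X v c) (a a' : X) (ha : ‖a‖ ≤ 1) (ha' : ‖a'‖ ≤ 1)
    (h1 : 7 / 8 < c Ix.x a) (h2 : -(1 / 4) < c (Ix.e 0) a)
    (h1' : 7 / 8 < c Ix.x a') (h2' : c (Ix.e 0) a' < 1 / 4) :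
    ‖v (Finsupp.single Ix.x 1) - (1 / 2 : ℝ) • (a + a')‖ ≤ 2 - 1 / 100 := by
  by_contra hc
  push Not at hc
  obtain ⟨φ, hφ1, hφ2⟩ := exists_dual_vector'' ℝ
    (v (Finsupp.single Ix.x 1) - (1 / 2 : ℝ) • (a + a'))
  have hφ3 : φ (v (Finsupp.single Ix.x 1)) - 1 / 2 * (φ a + φ a') =
      ‖v (Finsupp.single Ix.x 1) - (1 / 2 : ℝ) • (a + a')‖ := by
    rw [map_sub, map_smul, map_add, smul_eq_mul] at hφ2
    simpa using hφ2
  have hx := abs_le.mp (app_le φ 1 hφ1 _ h.x_norm.le)
  have hA := abs_le.mp (app_le φ 1 hφ1 _ ha)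
  have hA' := abs_le.mp (app_le φ 1 hφ1 _ ha')
  have hx1 : 1 - 1 / 100 < φ (v (Finsupp.single Ix.x 1)) := by linarith
  obtain ⟨n, i, hn⟩ := h.find φ hφ1 true a ha h1 (by simpa [sg] using h2) (by linarith)
    (by linarith)
  obtain ⟨m, j, hm⟩ := h.find φ hφ1 false a' ha' h1' (by simp only [sg]; linarith) (by linarith)
    (by linarith)
  -- notation
  set W : ℕ → Ix →₀ ℝ := fun n => ∑ k ∈ Finset.range (n + 1), Finsupp.single (Ix.e k) (1:ℝ) with hW
  have ey : ∀ n i s, φ (v (y n i s)) = (1 - ep n) * φ (v (Finsupp.single Ix.x 1)) +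
      sg s * (1 - ep n) * φ (v (W n)) - (2 - ep n) * φ (v (Finsupp.single (Ix.b n i s) 1)) := by
    intro n i s
    unfold y
    rw [map_sub, map_add, map_smul, map_smul, map_smul, map_sub, map_add, map_smul, map_smul,
      map_smul, smul_eq_mul, smul_eq_mul, smul_eq_mul]
  rw [ey] at hn hm
  simp only [sg] at hn hm
  have hWG : ∀ n, W n ∈ G := by
    intro n
    refine Or.inr (Or.inl ⟨?_, fun l => ?_⟩)
    · rw [hW]; simp only; rw [sum_e_apply]
    · rw [hW]; simp only; rw [sum_e_apply]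
      cases l with
      | x => simp
      | b _ _ _ => simp
      | e k => simp only; split_ifs <;> simp
  have hDG : W n - W m ∈ G := by
    refine Or.inr (Or.inl ⟨?_, fun l => ?_⟩)
    · rw [hW]; simp only; rw [Finsupp.sub_apply, sum_e_apply, sum_e_apply]; simp
    · rw [hW]; simp only; rw [Finsupp.sub_apply, sum_e_apply, sum_e_apply]
      cases l with
      | x => simp
      | b _ _ _ => simp
      | e k => simp only; split_ifs <;> simp
  have hTG : W m - W n + Finsupp.single (Ix.b n i true) 1 + Finsupp.single (Ix.b m j false) 1 ∈ G := by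
    refine Or.inr (Or.inl ⟨?_, fun l => ?_⟩)
    · rw [hW]; simp only
      rw [Finsupp.add_apply, Finsupp.add_apply, Finsupp.sub_apply, sum_e_apply, sum_e_apply,
        Finsupp.single_apply, Finsupp.single_apply, if_neg (by simp), if_neg (by simp)]; simp
    · rw [hW]; simp only
      rw [Finsupp.add_apply, Finsupp.add_apply, Finsupp.sub_apply, sum_e_apply, sum_e_apply,
        Finsupp.single_apply, Finsupp.single_apply]
      cases l with
      | x => simp
      | b p q t =>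
        simp only [Ix.b.injEq]
        cases t <;> split_ifs <;> simp_all
      | e k => simp only [reduceCtorEq, if_false]; split_ifs <;> simp
  have b1 := abs_le.mp (app_le φ 1 hφ1 _ (h.le _ (hWG n)))
  have b2 := abs_le.mp (app_le φ 1 hφ1 _ (h.le _ (hWG m)))
  have b3 := abs_le.mp (app_le φ 1 hφ1 _ (h.le _ (single_mem (Ix.b n i true))))
  have b4 := abs_le.mp (app_le φ 1 hφ1 _ (h.le _ (single_mem (Ix.b m j false))))
  have b5 := abs_le.mp (app_le φ 1 hφ1 _ (h.le _ hDG))
  have b6 := abs_le.mp (app_le φ 1 hφ1 _ (h.le _ hTG))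
  simp only [map_sub] at b5
  simp only [map_add, map_sub] at b6
  have e1 := ep_pos n
  have e2 := ep_le n
  have e3 := ep_pos m
  have e4 := ep_le m
  set p := φ (v (Finsupp.single Ix.x 1))
  set q1 := φ (v (W n))
  set q2 := φ (v (W m))
  set r1 := φ (v (Finsupp.single (Ix.b n i true) 1))
  set r2 := φ (v (Finsupp.single (Ix.b m j false) 1))
  have c1 : ep n * (p + q1 - r1) ≤ 1 / 100 * 3 := by
    have : p + q1 - r1 ≤ 3 := by linarith
    have h9 : ep n * (p + q1 - r1) ≤ ep n * 3 := mul_le_mul_of_nonneg_left this e1.le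
    linarith
  have c2 : ep m * (p - q2 - r2) ≤ 1 / 100 * 3 := by
    have : p - q2 - r2 ≤ 3 := by linarith
    have h9 : ep m * (p - q2 - r2) ≤ ep m * 3 := mul_le_mul_of_nonneg_left this e3.le
    linarith
  have hn' : p + q1 - 2 * r1 - ep n * (p + q1 - r1) ≤ -1 + 1 / 10 := by
    have : p + q1 - 2 * r1 - ep n * (p + q1 - r1) =
        (1 - ep n) * p + 1 * (1 - ep n) * q1 - (2 - ep n) * r1 := by ring
    rw [this]; exact hn
  have hm' : p - q2 - 2 * r2 - ep m * (p - q2 - r2) ≤ -1 + 1 / 10 := by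
    have : p - q2 - 2 * r2 - ep m * (p - q2 - r2) =
        (1 - ep m) * p + -1 * (1 - ep m) * q2 - (2 - ep m) * r2 := by ring
    rw [this]; exact hm
  linarith

lemma Sit.extreme (h : Sit X v c) :
    v (Finsupp.single Ix.x 1) ∈ Set.extremePoints ℝ (Metric.closedBall (0 : X) 1) := by
  rw [mem_extremePoints_iff_left]
  refine ⟨by rw [mem_closedBall_zero_iff]; exact h.x_norm.le, fun a ha b hb hab => ?_⟩
  rw [mem_closedBall_zero_iff] at ha hb
  apply h.expose a ha
  obtain ⟨s, t, hs, ht, hst, hx⟩ := hab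
  have h1 := congrArg (c Ix.x) hx
  rw [map_add, map_smul, map_smul, smul_eq_mul, smul_eq_mul, h.cv, Finsupp.single_eq_same] at h1
  have h2 := (abs_le.mp (app_le _ 1 h.f_norm a ha)).2
  have h3 := (abs_le.mp (app_le _ 1 h.f_norm b hb)).2
  by_contra hne
  have h4 : c Ix.x a < 1 := lt_of_le_of_ne h2 hne
  nlinarith

lemma Sit.not_super (h : Sit X v c) : ¬ CS.IsSuperDelta ℝ (v (Finsupp.single Ix.x 1)) := by
  intro hs
  let U : Set (WeakSpace ℝ X) := {z | 7 / 8 < c Ix.x ((toWeakSpace ℝ X).symm z) ∧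
    |c (Ix.e 0) ((toWeakSpace ℝ X).symm z)| < 1 / 4}
  have hcont : ∀ k, Continuous fun z : WeakSpace ℝ X => c k ((toWeakSpace ℝ X).symm z) := by
    intro k
    exact WeakBilin.eval_continuous _ (c k)
  have hU : IsOpen U :=
    (isOpen_lt continuous_const (hcont _)).inter (isOpen_lt (hcont _).abs continuous_const)
  have hxU : toWeakSpace ℝ X (v (Finsupp.single Ix.x 1)) ∈ U := by
    change 7 / 8 < c Ix.x (v (Finsupp.single Ix.x 1)) ∧ |c (Ix.e 0) (v (Finsupp.single Ix.x 1))| < 1 / 4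
    rw [h.cv, h.cv, Finsupp.single_eq_same, Finsupp.single_apply, if_neg (by simp)]
    norm_num
  have h1 := hs.2 U hU hxU
  have h2 : sSup {r : ℝ | ∃ y : X, ‖y‖ ≤ 1 ∧ toWeakSpace ℝ X y ∈ U ∧
      r = ‖v (Finsupp.single Ix.x 1) - y‖} ≤ 2 - 1 / 100 := by
    apply csSup_le
    · exact ⟨_, _, h.x_norm.le, hxU, rfl⟩
    · rintro r ⟨y, hy1, hy2, rfl⟩
      have hy3 : 7 / 8 < c Ix.x y := hy2.1
      have hy4 : |c (Ix.e 0) y| < 1 / 4 := hy2.2
      have hy5 := abs_lt.mp hy4
      have h3 := h.close y y hy1 hy1 hy3 hy5.1 hy3 hy5.2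
      have e : (1 / 2 : ℝ) • (y + y) = y := by module
      rwa [e] at h3
  rw [h1] at h2
  linarith

/-- The example. -/
theorem main : ∃ (X : Type) (_ : NormedAddCommGroup X) (_ : NormedSpace ℝ X) (_ : CompleteSpace X)
    (x : X), x ∈ Set.extremePoints ℝ (Metric.closedBall (0 : X) 1) ∧ ‖x‖ = 1 ∧
      (∀ (f : StrongDual ℝ X) (α : ℝ), ‖f‖ - α < f x → ∃ y, ‖y‖ ≤ 1 ∧ ‖f‖ - α < f y ∧ 2 ≤ ‖x - y‖) ∧
      ¬ CS.IsSuperDelta ℝ x := by
  obtain ⟨X, i1, i2, i3, v, c, h1, h2, h3, h4⟩ := exists_hull G (fun _ => 2)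
    (fun g hg k => G_le g hg k) single_mem
  have h : Sit X v c := ⟨h1, h2, h3, h4⟩
  refine ⟨X, i1, i2, i3, v (Finsupp.single Ix.x 1), h.extreme, h.x_norm, fun f α hf => ?_,
    h.not_super⟩
  obtain ⟨n, i, s, hn⟩ := h.delta f α hf
  exact ⟨v (y n i s), h.le _ (Or.inr (Or.inr ⟨n, i, s, rfl⟩)), hn, h.far n i s⟩

end Pool.Agent.Q195.EP
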