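import Mathlib

set_option autoImplicit false

/-! Banach spaces with a basis whose norm is given by a norming family of finitely supported
functionals. -/

namespace Pool.Agent.Q195.FS

open Filter Topology
open scoped ENNReal

/-- value of a finitely supported functional on a coefficient sequence -/
noncomputable def val {𝕜 : Type} [RCLike 𝕜] (f : ℕ →₀ 𝕜) (a : ℕ → 𝕜) : 𝕜 :=
  ∑ i ∈ f.support, f i * a i

variable {𝕜 : Type} [RCLike 𝕜]

lemma val_eq (f : ℕ →₀ 𝕜) (a : ℕ → 𝕜) (D : Finset ℕ) (h : ∀ i, f i ≠ 0 → i ∈ D) :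
    val f a = ∑ i ∈ D, f i * a i := by
  unfold val
  refine Finset.sum_subset (fun i hi => h i (by simpa using hi)) fun i _ hi => ?_
  have : f i = 0 := by simpa using hi
  rw [this, zero_mul]

lemma val_single (i : ℕ) (a : ℕ → 𝕜) : val (Finsupp.single i 1) a = a i := by
  rw [val_eq _ _ {i} (fun j hj => by
    by_contra h
    apply hj
    rw [Finsupp.single_apply, if_neg]
    intro h2; exact h (by simp [h2]))]
  simp

/-- construction of the space -/
theorem exists_space (Γ : Type) (φ : Γ → ℕ →₀ 𝕜) (K : ℕ → ℝ) (hK : ∀ γ i, ‖φ γ i‖ ≤ K i)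
    (hs : ∀ i, ∃ γ, φ γ = Finsupp.single i 1) :
    ∃ (X : Type) (_ : NormedAddCommGroup X) (_ : NormedSpace 𝕜 X) (_ : CompleteSpace X)
      (x : ℕ → X) (xs : ℕ → X →L[𝕜] 𝕜),
      (∀ i j, xs i (x j) = if i = j then 1 else 0) ∧
      (Submodule.span 𝕜 (Set.range x)).topologicalClosure = ⊤ ∧
      (∀ z γ, ‖val (φ γ) (fun i => xs i z)‖ ≤ ‖z‖) ∧
      (∀ z C, 0 ≤ C → (∀ γ, ‖val (φ γ) (fun i => xs i z)‖ ≤ C) → ‖z‖ ≤ C) := by
  classical
  choose g hg using hs
  let L := lp (fun _ : Γ => 𝕜) ∞
  let y : ℕ → L := fun i => ⟨fun γ => φ γ i, memℓp_infty ⟨K i, by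
    rintro _ ⟨γ, rfl⟩; exact hK γ i⟩⟩
  have hy : ∀ i γ, (y i : Γ → 𝕜) γ = φ γ i := fun _ _ => rfl
  let W : Submodule 𝕜 L := (Submodule.span 𝕜 (Set.range y)).topologicalClosure
  have hWc : IsClosed (W : Set L) := Submodule.isClosed_topologicalClosure _
  have hyW : ∀ i, y i ∈ W := fun i =>
    Submodule.le_topologicalClosure _ (Submodule.subset_span ⟨i, rfl⟩)
  let ev : Γ → L →L[𝕜] 𝕜 := fun γ => lp.evalCLM 𝕜 (fun _ : Γ => 𝕜) ∞ γ
  have hev : ∀ γ z, ev γ z = (z : Γ → 𝕜) γ := fun _ _ => rfl
  let x : ℕ → W := fun i => ⟨y i, hyW i⟩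
  let xs : ℕ → W →L[𝕜] 𝕜 := fun i => (ev (g i)).comp W.subtypeL
  have hxs : ∀ i (z : W), xs i z = ((z : L) : Γ → 𝕜) (g i) := fun _ _ => rfl
  have key : ∀ (z : W) γ, ((z : L) : Γ → 𝕜) γ = val (φ γ) (fun i => xs i z) := by
    intro z γ
    have hcl : IsClosed {w : L | ev γ w = val (φ γ) (fun i => ev (g i) w)} := by
      refine isClosed_eq (ev γ).continuous ?_
      unfold val
      exact continuous_finsetSum _ fun i _ => continuous_const.mul (ev (g i)).continuous
    have hsub : (Submodule.span 𝕜 (Set.range y) : Set L) ⊆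
        {w : L | ev γ w = val (φ γ) (fun i => ev (g i) w)} := by
      intro w hw
      refine Submodule.span_induction (p := fun w _ =>
        ev γ w = val (φ γ) (fun i => ev (g i) w)) ?_ ?_ ?_ ?_ hw
      · rintro _ ⟨j, rfl⟩
        have h1 : ∀ i, ev (g i) (y j) = if i = j then 1 else 0 := by
          intro i
          rw [hev, hy, hg, Finsupp.single_apply]
        rw [hev, hy]
        unfold val
        simp only [h1, mul_ite, mul_one, mul_zero]
        rw [Finset.sum_ite_eq']
        split_ifs with h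
        · rfl
        · simpa using h
      · unfold val; simp
      · intro u v _ _ hu hv
        rw [map_add, hu, hv]
        unfold val
        rw [← Finset.sum_add_distrib]
        exact Finset.sum_congr rfl fun i _ => by simp only [map_add]; ring
      · intro c u _ hu
        rw [map_smul, hu, smul_eq_mul]
        unfold val
        rw [Finset.mul_sum]
        exact Finset.sum_congr rfl fun i _ => by simp only [map_smul, smul_eq_mul]; ring
    have := closure_minimal hsub hcl z.2
    exact this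
  have : CompleteSpace W := hWc.completeSpace_coe
  refine ⟨W, inferInstance, inferInstance, inferInstance, x, xs, ?_, ?_, ?_, ?_⟩
  · intro i j
    rw [hxs]
    show φ (g i) j = _
    rw [hg, Finsupp.single_apply]
  · rw [Submodule.eq_top_iff']
    intro w
    rw [← SetLike.mem_coe, Submodule.topologicalClosure_coe, Metric.mem_closure_iff]
    intro ε hε
    have hw : (w : L) ∈ closure (Submodule.span 𝕜 (Set.range y) : Set L) := w.2
    obtain ⟨u, hu, hd⟩ := Metric.mem_closure_iff.mp hw ε hε
    have hmap : (Submodule.span 𝕜 (Set.range x)).map W.subtype =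
        Submodule.span 𝕜 (Set.range y) := by
      rw [Submodule.map_span, ← Set.range_comp]
      rfl
    have hu' : u ∈ (Submodule.span 𝕜 (Set.range x)).map W.subtype := by rw [hmap]; exact hu
    obtain ⟨u', hu', rfl⟩ := hu'
    exact ⟨u', hu', hd⟩
  · intro z γ
    rw [← key]
    exact lp.norm_apply_le_norm (by simp) (z : L) γ
  · intro z C hC h
    have h1 : ‖(z : L)‖ ≤ C := lp.norm_le_of_forall_le hC fun γ => by
      rw [key z γ]; exact h γ
    exact h1

end Pool.Agent.Q195.FS
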