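import Mathlib

/-!
# Periodic sequences generated by self-maps of a finite set, and recursions modulo an ideal
-/

set_option autoImplicit false

namespace Pool.Agent.Q195.HD

open Function

lemma seq_iter {X : Type*} {n : ℕ} (s : ZMod n → X) (φ : X → X)
    (h : ∀ t, s (t + 1) = φ (s t)) (k : ℕ) (t : ZMod n) : s (t + (k : ZMod n)) = φ^[k] (s t) := by
  induction k with
  | zero => simp
  | succ k ih =>
    rw [iterate_succ_apply', ← ih, ← h]
    congr 1
    push_cast
    ring

lemma seq_period {X : Type*} [Finite X] {n : ℕ} [NeZero n] (s : ZMod n → X) (φ : X → X)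
    (h : ∀ t, s (t + 1) = φ (s t)) (c : ℕ) (hc : Nat.card X ≤ c) (t : ZMod n) :
    s (t + ((c.factorial : ℕ) : ZMod n)) = s t := by
  classical
  haveI := Fintype.ofFinite X
  rw [seq_iter s φ h]
  have hp : IsPeriodicPt φ n (s t) := by
    have := seq_iter s φ h n t
    rw [ZMod.natCast_self, add_zero] at this
    exact this.symm
  have hpos : 0 < n := Nat.pos_of_ne_zero (NeZero.ne n)
  have hmem : s t ∈ periodicPts φ := ⟨n, hpos, hp⟩
  have hle : minimalPeriod φ (s t) ≤ c := by
    refine le_trans ?_ hc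
    rw [Nat.card_eq_fintype_card]
    exact minimalPeriod_le_card
  have hdvd : minimalPeriod φ (s t) ∣ c.factorial :=
    Nat.dvd_factorial (minimalPeriod_pos_of_mem_periodicPts hmem) hle
  exact (isPeriodicPt_minimalPeriod φ (s t)).trans_dvd hdvd

/-- composition of `k` consecutive maps -/
def cmp {X : Type*} {n : ℕ} (T : ZMod n → X → X) : ℕ → ZMod n → X → X
  | 0, _ => id
  | k + 1, t => T (t + (k : ZMod n)) ∘ cmp T k t

lemma cmp_apply {X : Type*} {n : ℕ} (V : ZMod n → X) (T : ZMod n → X → X)
    (hV : ∀ t, V (t + 1) = T t (V t)) (k : ℕ) (t : ZMod n) :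
    V (t + (k : ZMod n)) = cmp T k t (V t) := by
  induction k with
  | zero => simp [cmp]
  | succ k ih =>
    show _ = T (t + (k : ZMod n)) (cmp T k t (V t))
    rw [← ih, ← hV]
    congr 1
    push_cast
    ring

lemma cmp_shift {X : Type*} {n : ℕ} (T : ZMod n → X → X) (m : ZMod n)
    (hT : ∀ t, T (t + m) = T t) (k : ℕ) (t : ZMod n) : cmp T k (t + m) = cmp T k t := by
  induction k with
  | zero => rfl
  | succ k ih =>
    show T (t + m + (k : ZMod n)) ∘ cmp T k (t + m) = T (t + (k : ZMod n)) ∘ cmp T k t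
    rw [ih, show t + m + (k : ZMod n) = (t + (k : ZMod n)) + m by ring, hT]

lemma seq_period2 {X : Type*} [Finite X] {n : ℕ} [NeZero n] (V : ZMod n → X)
    (T : ZMod n → X → X) (hV : ∀ t, V (t + 1) = T t (V t)) (m : ℕ)
    (hT : ∀ t, T (t + (m : ZMod n)) = T t) (c : ℕ) (hc : Nat.card X ≤ c) (t : ZMod n) :
    V (t + ((m * c.factorial : ℕ) : ZMod n)) = V t := by
  classical
  haveI := Fintype.ofFinite X
  have hper : ∀ (j : ℕ) (t : ZMod n), cmp T m (t + ((j * m : ℕ) : ZMod n)) = cmp T m t := by
    intro j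
    induction j with
    | zero => intro t; simp
    | succ j ih =>
      intro t
      have : t + (((j + 1) * m : ℕ) : ZMod n) = (t + ((j * m : ℕ) : ZMod n)) + (m : ZMod n) := by
        push_cast; ring
      rw [this, cmp_shift T (m : ZMod n) hT, ih]
  have hiter : ∀ j : ℕ, V (t + ((j * m : ℕ) : ZMod n)) = (cmp T m t)^[j] (V t) := by
    intro j
    induction j with
    | zero => simp
    | succ j ih =>
      rw [iterate_succ_apply', ← ih, ← hper j t, ← cmp_apply V T hV]
      congr 1
      push_cast; ring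
  have hp : IsPeriodicPt (cmp T m t) n (V t) := by
    have := hiter n
    have e : ((n * m : ℕ) : ZMod n) = 0 := by push_cast; simp
    rw [e, add_zero] at this
    exact this.symm
  have hpos : 0 < n := Nat.pos_of_ne_zero (NeZero.ne n)
  have hmem : V t ∈ periodicPts (cmp T m t) := ⟨n, hpos, hp⟩
  have hle : minimalPeriod (cmp T m t) (V t) ≤ c := by
    refine le_trans ?_ hc
    rw [Nat.card_eq_fintype_card]
    exact minimalPeriod_le_card
  have hdvd : minimalPeriod (cmp T m t) (V t) ∣ c.factorial :=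
    Nat.dvd_factorial (minimalPeriod_pos_of_mem_periodicPts hmem) hle
  rw [mul_comm m, hiter]
  exact (isPeriodicPt_minimalPeriod _ (V t)).trans_dvd hdvd

/-- A relation of length `ℓ` along multiples of a period. -/
lemma sum_shift {A : Type*} [AddCommGroup A] {n : ℕ} (u : ZMod n → A) (m : ZMod n) (ℓ : ℕ)
    (t : ZMod n) : ∑ i ∈ Finset.range ℓ, (u (t + (i : ZMod n) * m + m) - u (t + (i : ZMod n) * m)) =
      u (t + (ℓ : ZMod n) * m) - u t := by
  induction ℓ with
  | zero => simp
  | succ ℓ ih =>
    rw [Finset.sum_range_succ, ih]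
    have : t + ((ℓ + 1 : ℕ) : ZMod n) * m = t + (ℓ : ZMod n) * m + m := by push_cast; ring
    rw [this]
    abel

end Pool.Agent.Q195.HD
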