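import Mathlib

/-!
# Finite quotients of the ring of integers of a nonarchimedean absolute value on a number field
-/

set_option autoImplicit false

namespace Pool.Agent.Q195.HD

open Module

variable {L : Type*} [Field L] {w : AbsoluteValue L ℝ}

lemma w_one : w (1 : L) = 1 := map_one w

lemma w_neg (x : L) : w (-x) = w x := w.map_neg x

lemma w_sub_le (hna : IsNonarchimedean w) (x y : L) : w (x - y) ≤ max (w x) (w y) := by
  rw [sub_eq_add_neg]
  exact (hna x (-y)).trans (by rw [w_neg])

lemma w_nat (hna : IsNonarchimedean w) (n : ℕ) : w (n : L) ≤ 1 := by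
  induction n with
  | zero => simp
  | succ n ih =>
    push_cast
    exact (hna _ _).trans (max_le ih w_one.le)

lemma w_int (hna : IsNonarchimedean w) (n : ℤ) : w (n : L) ≤ 1 := by
  obtain ⟨m, rfl | rfl⟩ := n.eq_nat_or_neg
  · simpa using w_nat hna m
  · push_cast
    rw [w_neg]
    exact w_nat hna m

lemma w_sum_le (hna : IsNonarchimedean w) {ι : Type*} (s : Finset ι) (f : ι → L) (r : ℝ) (hr : 0 ≤ r)
    (h : ∀ i ∈ s, w (f i) ≤ r) : w (∑ i ∈ s, f i) ≤ r := by
  classical
  induction s using Finset.induction_on with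
  | empty => simpa using hr
  | insert a s ha ih =>
    rw [Finset.sum_insert ha]
    exact (hna _ _).trans (max_le (h a (Finset.mem_insert_self _ _))
      (ih fun i hi => h i (Finset.mem_insert_of_mem hi)))

lemma w_add_eq (hna : IsNonarchimedean w) {x y : L} (h : w x < w y) : w (x + y) = w y := by
  apply le_antisymm
  · exact (hna x y).trans (max_le h.le le_rfl)
  · by_contra hcon
    push Not at hcon
    have h1 : w y ≤ max (w (x + y)) (w x) := by
      have : y = (x + y) - x := by ring
      calc w y = w ((x + y) - x) := by rw [← this]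
        _ ≤ _ := w_sub_le hna _ _
    exact absurd h1 (not_le.2 (max_lt hcon h))

lemma w_sub_eq (hna : IsNonarchimedean w) {x y : L} (h : w x < w y) : w (y - x) = w y := by
  rw [sub_eq_add_neg, add_comm]
  exact w_add_eq hna (by rwa [w_neg])

/-- An integer prime to `p` is a unit. -/
lemma w_coprime (hna : IsNonarchimedean w) {p m : ℕ} (hp : w (p : L) < 1) (h : Nat.Coprime m p) :
    w (m : L) = 1 := by
  apply le_antisymm (w_nat hna m)
  by_contra hcon
  push Not at hcon
  obtain ⟨a, b, hab⟩ : ∃ a b : ℤ, a * m + b * p = 1 := by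
    have := Nat.isCoprime_iff_coprime.2 h
    obtain ⟨a, b, hab⟩ := this
    exact ⟨a, b, hab⟩
  have h1 : ((a : L) * m + (b : L) * p) = 1 := by
    have := congrArg (Int.cast : ℤ → L) hab
    push_cast at this
    exact this
  have h2 : w ((a : L) * m + (b : L) * p) < 1 := by
    refine lt_of_le_of_lt (hna _ _) (max_lt ?_ ?_)
    · rw [map_mul]
      calc w (a : L) * w (m : L) ≤ 1 * w (m : L) :=
            mul_le_mul_of_nonneg_right (w_int hna a) (w.nonneg _)
        _ < 1 := by rwa [one_mul]
    · rw [map_mul]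
      calc w (b : L) * w (p : L) ≤ 1 * w (p : L) :=
            mul_le_mul_of_nonneg_right (w_int hna b) (w.nonneg _)
        _ < 1 := by rwa [one_mul]
  rw [h1, w_one] at h2
  exact lt_irrefl _ h2

lemma card_le_of_incongruent (hna : IsNonarchimedean w) [CharZero L] [Algebra ℚ L]
    [FiniteDimensional ℚ L] (N : ℕ) (hN : finrank ℚ L ≤ N) (q : ℕ) (hq : 1 ≤ q) (S : Finset L)
    (hS : ∀ x ∈ S, w x ≤ 1) (hS2 : ∀ x ∈ S, ∀ y ∈ S, x ≠ y → w (q : L) < w (x - y)) :
    S.card ≤ q ^ N := by
  classical
  let Λ : Submodule ℤ L := Submodule.span ℤ (S : Set L)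
  have : Module.Finite ℤ Λ := Module.Finite.iff_fg.2 ⟨S, rfl⟩
  have : Module.Free ℤ Λ := Module.free_of_finite_type_torsion_free'
  let b := Module.Free.chooseBasis ℤ Λ
  have : Fintype (Module.Free.ChooseBasisIndex ℤ Λ) := Fintype.ofFinite _
  have hint : ∀ z ∈ Λ, w z ≤ 1 := by
    intro z hz
    refine Submodule.span_induction (p := fun z _ => w z ≤ 1) ?_ ?_ ?_ ?_ hz
    · intro x hx
      exact hS x hx
    · simp
    · intro x y _ _ hx hy
      exact (hna x y).trans (max_le hx hy)
    · intro a x _ hx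
      rw [zsmul_eq_mul, map_mul]
      calc w (a : L) * w x ≤ 1 * 1 := mul_le_mul (w_int hna a) hx (w.nonneg _) zero_le_one
        _ = 1 := one_mul 1
  have hli : LinearIndependent ℤ (fun i => (b i : L)) :=
    b.linearIndependent.map' Λ.subtype (Submodule.ker_subtype Λ)
  have hli2 : LinearIndependent ℚ (fun i => (b i : L)) :=
    (LinearIndependent.iff_fractionRing ℤ ℚ).1 hli
  have hcard : Fintype.card (Module.Free.ChooseBasisIndex ℤ Λ) ≤ N :=
    (hli2.fintype_card_le_finrank).trans hN
  have : NeZero q := ⟨by omega⟩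
  let φ : L → (Module.Free.ChooseBasisIndex ℤ Λ → ZMod q) := fun x i =>
    if h : x ∈ Λ then ((b.repr ⟨x, h⟩ i : ℤ) : ZMod q) else 0
  have hinj : Set.InjOn φ (S : Set L) := by
    intro x hx y hy hxy
    by_contra hne
    have hx' : x ∈ Λ := Submodule.subset_span hx
    have hy' : y ∈ Λ := Submodule.subset_span hy
    have h1 : ∀ i, (q : ℤ) ∣ b.repr ⟨x, hx'⟩ i - b.repr ⟨y, hy'⟩ i := by
      intro i
      have h2 := congrFun hxy i
      simp only [φ, hx', hy', dif_pos] at h2
      rw [← ZMod.intCast_zmod_eq_zero_iff_dvd] 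
      push_cast
      rw [h2, sub_self]
    choose c hc using h1
    have h3 : (⟨x, hx'⟩ : Λ) - ⟨y, hy'⟩ = (q : ℤ) • ∑ i, c i • b i := by
      apply b.repr.injective
      ext i
      rw [map_sub, map_smul, Finsupp.sub_apply, hc i, Finsupp.smul_apply]
      congr 1
      have := b.repr_sum_self c
      rw [this]
    have h4 : x - y = (q : L) * ((∑ i, c i • b i : Λ) : L) := by
      have := congrArg (fun z : Λ => (z : L)) h3
      simp only [Submodule.coe_sub, Submodule.coe_smul] at this
      rw [this, zsmul_eq_mul]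
      push_cast
      rfl
    have h5 : w (x - y) ≤ w (q : L) := by
      rw [h4, map_mul]
      calc w (q : L) * w ((∑ i, c i • b i : Λ) : L) ≤ w (q : L) * 1 :=
            mul_le_mul_of_nonneg_left (hint _ (Subtype.mem _)) (w.nonneg _)
        _ = _ := mul_one _
    exact absurd h5 (not_le.2 (hS2 x hx y hy hne))
  have := Finset.card_le_card_of_injOn (t := Finset.univ) φ (fun _ _ => Finset.mem_univ _) hinj
  refine this.trans ?_
  rw [Finset.card_univ, Fintype.card_fun, ZMod.card]
  exact Nat.pow_le_pow_right hq hcard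

end Pool.Agent.Q195.HD
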