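import Pool.Agent.Q195.HD1
import Pool.Agent.Q195.HD2

/-!
# The period of an integral recursion over a number field
-/

set_option autoImplicit false

namespace Pool.Agent.Q195.HD

open Module Polynomial

variable {L : Type*} [Field L] {w : AbsoluteValue L ℝ}

/-- the ring of the elements of absolute value at most one -/
def OO (w : AbsoluteValue L ℝ) (hna : IsNonarchimedean w) : Subring L where
  carrier := {x | w x ≤ 1}
  mul_mem' := by
    intro a b ha hb
    show w (a * b) ≤ 1
    rw [map_mul]
    calc w a * w b ≤ 1 * 1 := mul_le_mul ha hb (w.nonneg _) zero_le_one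
      _ = 1 := one_mul 1
  one_mem' := w_one.le
  add_mem' := by
    intro a b ha hb
    exact (hna a b).trans (max_le ha hb)
  zero_mem' := by
    show w 0 ≤ 1
    simp
  neg_mem' := by
    intro a ha
    show w (-a) ≤ 1
    rw [w_neg]; exact ha

lemma mem_OO (hna : IsNonarchimedean w) {x : L} : x ∈ OO w hna ↔ w x ≤ 1 := Iff.rfl

/-- membership in a principal ideal of `OO` -/
lemma mem_span_iff (hna : IsNonarchimedean w) (q : OO w hna) (hq : (q : L) ≠ 0) (x : OO w hna) :
    x ∈ Ideal.span {q} ↔ w (x : L) ≤ w (q : L) := by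
  rw [Ideal.mem_span_singleton]
  have hq0 : 0 < w (q : L) := w.pos hq
  constructor
  · rintro ⟨c, rfl⟩
    push_cast
    rw [map_mul]
    calc w (q : L) * w (c : L) ≤ w (q : L) * 1 := mul_le_mul_of_nonneg_left c.2 (w.nonneg _)
      _ = _ := mul_one _
  · intro h
    refine ⟨⟨(x : L) / q, ?_⟩, ?_⟩
    · show w ((x : L) / q) ≤ 1
      rw [map_div₀, div_le_one hq0]
      exact h
    · apply Subtype.ext
      push_cast
      field_simp

lemma quot_card (hna : IsNonarchimedean w) [CharZero L] [Algebra ℚ L]
    [FiniteDimensional ℚ L] (N : ℕ) (hN : finrank ℚ L ≤ N) (q : ℕ) (hq : 1 ≤ q) :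
    Finite (OO w hna ⧸ Ideal.span {(q : OO w hna)}) ∧
      Nat.card (OO w hna ⧸ Ideal.span {(q : OO w hna)}) ≤ q ^ N := by
  classical
  have hq0 : ((q : OO w hna) : L) ≠ 0 := by
    push_cast
    exact_mod_cast (by omega : q ≠ 0)
  have key : ∀ T : Finset (OO w hna ⧸ Ideal.span {(q : OO w hna)}), T.card ≤ q ^ N := by
    intro T
    let g : (OO w hna ⧸ Ideal.span {(q : OO w hna)}) → L := fun s =>
      ((Ideal.Quotient.mk_surjective s).choose : L)
    have hg : ∀ s : OO w hna ⧸ Ideal.span {(q : OO w hna)},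
        Ideal.Quotient.mk (Ideal.span {(q : OO w hna)}) (Ideal.Quotient.mk_surjective s).choose = s :=
      fun s =>
      (Ideal.Quotient.mk_surjective s).choose_spec
    have hne : ∀ s t, s ≠ t → w (q : L) < w (g s - g t) := by
      intro s t hst
      by_contra hcon
      push Not at hcon
      apply hst
      rw [← hg s, ← hg t, Ideal.Quotient.eq, mem_span_iff hna _ hq0]
      push_cast
      exact hcon
    have hinj : Set.InjOn g T := by
      intro s _ t _ hst
      by_contra h
      have := hne s t h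
      rw [hst, sub_self, map_zero] at this
      exact absurd this (not_lt.2 (w.nonneg _))
    rw [← Finset.card_image_of_injOn hinj]
    refine card_le_of_incongruent hna N hN q hq _ ?_ ?_
    · intro x hx
      rw [Finset.mem_image] at hx
      obtain ⟨s, _, rfl⟩ := hx
      exact (Ideal.Quotient.mk_surjective s).choose.2
    · intro x hx y hy hxy
      rw [Finset.mem_image] at hx hy
      obtain ⟨s, _, rfl⟩ := hx
      obtain ⟨t, _, rfl⟩ := hy
      exact hne s t (by rintro rfl; exact hxy rfl)
  have hfin : Finite (OO w hna ⧸ Ideal.span {(q : OO w hna)}) := by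
    by_contra hinf
    rw [not_finite_iff_infinite] at hinf
    obtain ⟨T, hT⟩ := Infinite.exists_subset_card_eq (OO w hna ⧸ Ideal.span {(q : OO w hna)}) (q ^ N + 1)
    have := key T
    omega
  refine ⟨hfin, ?_⟩
  have := Fintype.ofFinite (OO w hna ⧸ Ideal.span {(q : OO w hna)})
  rw [Nat.card_eq_fintype_card]
  exact key Finset.univ

/-- the absolute value of a prime number is at least that of `p` -/
lemma prime_ge (hna : IsNonarchimedean w) {p ℓ : ℕ} (hp : p.Prime) (hwp : w (p : L) < 1)
    (hℓ : ℓ.Prime) : w (p : L) ≤ w (ℓ : L) := by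
  by_cases h : ℓ = p
  · rw [h]
  · rw [w_coprime hna hwp ((Nat.coprime_primes hℓ hp).2 h)]
    exact hwp.le

/-- The main step: two period shifts. -/
theorem no_prime_shift [CharZero L] (hna : IsNonarchimedean w) {p : ℕ} (hp : p.Prime)
    (hwp : w (p : L) < 1) [Finite (OO w hna ⧸ Ideal.span {((p ^ 2 : ℕ) : OO w hna)})] (c : ℕ)
    (hc : Nat.card (OO w hna ⧸ Ideal.span {((p ^ 2 : ℕ) : OO w hna)}) ^ 2 ≤ c)
    (G : (OO w hna)[X]) (δ : OO w hna) {n : ℕ} [NeZero n] (u : ZMod n → OO w hna)
    (hrec : ∀ t, u (t + 1) + δ * u (t - 1) = G.eval (u t)) (j ℓ : ℕ) (hℓ : ℓ.Prime)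
    (hper : ∀ t, u (t + (ℓ : ZMod n) * ((c.factorial * c.factorial * j : ℕ) : ZMod n)) = u t) :
    ∀ t, u (t + ((c.factorial * c.factorial * j : ℕ) : ZMod n)) = u t := by
  classical
  set S := OO w hna ⧸ Ideal.span {((p ^ 2 : ℕ) : OO w hna)} with hS
  let π : OO w hna →+* S := Ideal.Quotient.mk _
  have hcard2 : Nat.card (S × S) ≤ c := by
    rw [Nat.card_prod, ← pow_two]; exact hc
  have hp0 : (((p ^ 2 : ℕ) : OO w hna) : L) ≠ 0 := by
    push_cast
    exact pow_ne_zero 2 (by exact_mod_cast hp.ne_zero)
  have hwp0 : 0 < w (p : L) := w.pos (by exact_mod_cast hp.ne_zero)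
  set m0 := c.factorial with hm0
  -- first step: congruence of the sequence
  have h1 : ∀ t, π (u (t + (m0 : ZMod n))) = π (u t) := by
    intro t
    have := seq_period (X := S × S) (fun t => (π (u (t - 1)), π (u t)))
      (fun P => (P.2, (G.map π).eval P.2 - π δ * P.1)) ?_ c hcard2 t
    · exact congrArg Prod.snd this
    · intro t
      simp only [add_sub_cancel_right, Prod.mk.injEq, true_and]
      rw [Polynomial.eval_map, Polynomial.eval₂_hom, ← hrec, map_add, map_mul]
      ring
  have h1' : ∀ (k : ℕ) (t : ZMod n), π (u (t + ((m0 * k : ℕ) : ZMod n))) = π (u t) := by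
    intro k
    induction k with
    | zero => intro t; simp
    | succ k ih =>
      intro t
      have : t + ((m0 * (k + 1) : ℕ) : ZMod n) = (t + (m0 : ZMod n)) + ((m0 * k : ℕ) : ZMod n) := by
        push_cast; ring
      rw [this, ih, h1]
  set m' : ZMod n := ((m0 * m0 * j : ℕ) : ZMod n) with hm'
  let h : ZMod n → OO w hna := fun t => u (t + m') - u t
  have hmod : ∀ t, π (h t) = 0 := by
    intro t
    show π (u (t + m') - u t) = 0
    rw [map_sub, hm', show m0 * m0 * j = m0 * (m0 * j) by ring, h1', sub_self]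
  have hle : ∀ t, w (h t : L) ≤ w (p : L) ^ 2 := by
    intro t
    have := Ideal.Quotient.eq_zero_iff_mem.1 (hmod t)
    rw [mem_span_iff hna _ hp0] at this
    push_cast at this
    rwa [map_pow] at this
  by_contra hcon
  push Not at hcon
  obtain ⟨t1, ht1⟩ := hcon
  obtain ⟨t0, ht0⟩ := Finite.exists_max fun t : ZMod n => w (h t : L)
  have hH : 0 < w (h t0 : L) := by
    refine lt_of_lt_of_le ?_ (ht0 t1)
    apply w.pos
    intro h0
    apply ht1
    have h2 : h t1 = 0 := by exact_mod_cast h0
    exact sub_eq_zero.1 h2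
  have hH0 : (h t0 : L) ≠ 0 := w.pos_iff.1 hH
  let g : ZMod n → OO w hna := fun t => ⟨(h t : L) / (h t0 : L), by
    show w ((h t : L) / (h t0 : L)) ≤ 1
    rw [map_div₀, div_le_one hH]
    exact ht0 t⟩
  have hg : ∀ t, h t = h t0 * g t := by
    intro t
    apply Subtype.ext
    push_cast
    show (h t : L) = (h t0 : L) * ((h t : L) / (h t0 : L))
    field_simp
  have hH0' : h t0 ≠ 0 := by
    intro h0; apply hH0; rw [h0]; rfl
  -- the recursion of the differences
  have hgrec : ∀ t, ∃ k : OO w hna,
      g (t + 1) = G.derivative.eval (u t) * g t + k * g t * h t - δ * g (t - 1) := by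
    intro t
    obtain ⟨k, hk⟩ := Polynomial.binomExpansion G (u t) (h t)
    refine ⟨k, ?_⟩
    have e1 : h (t + 1) = G.derivative.eval (u t) * h t + k * h t ^ 2 - δ * h (t - 1) := by
      have a1 := hrec (t + m')
      have a2 := hrec t
      have a3 : u t + h t = u (t + m') := by show u t + (u (t + m') - u t) = _; ring
      rw [a3] at hk
      show u (t + 1 + m') - u (t + 1) = _
      have e2 : t + 1 + m' = t + m' + 1 := by ring
      have e3 : h (t - 1) = u (t + m' - 1) - u (t - 1) := by
        show u (t - 1 + m') - u (t - 1) = _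
        rw [show t - 1 + m' = t + m' - 1 by ring]
      rw [e2, e3]
      linear_combination a1 - a2 + hk
    have e2 : h t0 * (g (t + 1)) = h t0 *
        (G.derivative.eval (u t) * g t + k * g t * h t - δ * g (t - 1)) := by
      rw [← hg, e1]
      have b1 := hg t
      have b2 := hg (t - 1)
      linear_combination (G.derivative.eval (u t) + k * h t) * b1 - δ * b2
    exact mul_left_cancel₀ hH0' e2
  have hV : ∀ t, π (g (t + 1)) = π (G.derivative.eval (u t)) * π (g t) - π δ * π (g (t - 1)) := by
    intro t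
    obtain ⟨k, hk⟩ := hgrec t
    rw [hk, map_sub, map_add, map_mul, map_mul, map_mul, hmod t, mul_zero, add_zero, map_mul]
  have h2 : ∀ t, π (g (t + ((m0 * m0 : ℕ) : ZMod n))) = π (g t) := by
    intro t
    have := seq_period2 (X := S × S) (fun t => (π (g (t - 1)), π (g t)))
      (fun t P => (P.2, (G.derivative.map π).eval (π (u t)) * P.2 - π δ * P.1)) ?_ m0 ?_ c hcard2 t
    · exact congrArg Prod.snd this
    · intro t
      simp only [add_sub_cancel_right, Prod.mk.injEq, true_and]
      rw [hV, Polynomial.eval_map, Polynomial.eval₂_hom]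
    · intro t
      funext P
      rw [h1]
  have h2' : ∀ (k : ℕ) (t : ZMod n), π (g (t + ((m0 * m0 * k : ℕ) : ZMod n))) = π (g t) := by
    intro k
    induction k with
    | zero => intro t; simp
    | succ k ih =>
      intro t
      have : t + ((m0 * m0 * (k + 1) : ℕ) : ZMod n) =
          (t + ((m0 * m0 : ℕ) : ZMod n)) + ((m0 * m0 * k : ℕ) : ZMod n) := by
        push_cast; ring
      rw [this, ih, h2]
  have h3 : ∀ (i : ℕ), π (g (t0 + (i : ZMod n) * m')) = π (g t0) := by
    intro i
    have : (i : ZMod n) * m' = ((m0 * m0 * (j * i) : ℕ) : ZMod n) := by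
      rw [hm']; push_cast; ring
    rw [this, h2']
  have hsum : ∑ i ∈ Finset.range ℓ, h (t0 + (i : ZMod n) * m') = 0 := by
    have := sum_shift u m' ℓ t0
    rw [hper, sub_self] at this
    exact this
  have hsum2 : ∑ i ∈ Finset.range ℓ, g (t0 + (i : ZMod n) * m') = 0 := by
    have : h t0 * ∑ i ∈ Finset.range ℓ, g (t0 + (i : ZMod n) * m') = 0 := by
      rw [Finset.mul_sum, ← hsum]
      exact Finset.sum_congr rfl fun i _ => (hg _).symm
    exact (mul_eq_zero.1 this).resolve_left hH0'
  have h4 : π ((ℓ : OO w hna) * g t0) = 0 := by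
    have := congrArg π hsum2
    rw [map_sum, map_zero, Finset.sum_congr rfl fun i _ => h3 i, Finset.sum_const,
      Finset.card_range, nsmul_eq_mul] at this
    rw [map_mul, map_natCast]
    exact this
  have h5 : g t0 = 1 := by
    apply Subtype.ext
    show (h t0 : L) / (h t0 : L) = 1
    exact div_self hH0
  rw [h5, mul_one] at h4
  have h6 := Ideal.Quotient.eq_zero_iff_mem.1 h4
  rw [mem_span_iff hna _ hp0] at h6
  push_cast at h6
  rw [map_pow] at h6
  have h7 := prime_ge hna hp hwp hℓ
  have h8 : w (p : L) ^ 2 < w (p : L) := by nlinarith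
  linarith

end Pool.Agent.Q195.HD
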