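import Pool.Agent.Q195.HD3

/-!
# Periodic sequences with large members
-/

set_option autoImplicit false

namespace Pool.Agent.Q195.HD

open Module Polynomial

variable {L : Type*} [Field L] {w : AbsoluteValue L ℝ}

/-- roots of unity of order prime to all `p ^ f - 1` are trivial in the residue field -/
lemma one_root (hna : IsNonarchimedean w) [CharZero L] [Algebra ℚ L] [FiniteDimensional ℚ L]
    (N : ℕ) (hN : finrank ℚ L ≤ N) {p : ℕ} (hp : p.Prime) (hwp : w (p : L) < 1) (d : ℕ)
    (hcop : ∀ f, 1 ≤ f → f ≤ N → Nat.Coprime d (p ^ f - 1)) (u : L) (hu : w u = 1)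
    (h : w (u ^ d - 1) < 1) : w (u - 1) < 1 := by
  classical
  let m : Ideal (OO w hna) :=
    { carrier := {x | w (x : L) < 1}
      add_mem' := by
        intro a b ha hb
        exact lt_of_le_of_lt (hna _ _) (max_lt ha hb)
      zero_mem' := by
        show w ((0 : OO w hna) : L) < 1
        simp
      smul_mem' := by
        intro c x hx
        show w ((c * x : OO w hna) : L) < 1
        push_cast
        rw [map_mul]
        calc w (c : L) * w (x : L) ≤ 1 * w (x : L) := mul_le_mul_of_nonneg_right c.2 (w.nonneg _)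
          _ < 1 := by rw [one_mul]; exact hx }
  have hmem : ∀ x : OO w hna, x ∈ m ↔ w (x : L) < 1 := fun x => Iff.rfl
  have hmax : m.IsMaximal := by
    rw [Ideal.isMaximal_iff]
    constructor
    · rw [hmem]
      simp
    · intro J x hJ hx hxJ
      rw [hmem, not_lt] at hx
      have hx1 : w (x : L) = 1 := le_antisymm x.2 hx
      have hx0 : (x : L) ≠ 0 := by
        intro h0; rw [h0, map_zero] at hx1; exact zero_ne_one hx1
      let y : OO w hna := ⟨(x : L)⁻¹, by
        show w ((x : L)⁻¹) ≤ 1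
        rw [map_inv₀, hx1, inv_one]⟩
      have : (1 : OO w hna) = y * x := by
        apply Subtype.ext
        push_cast
        show (1 : L) = (x : L)⁻¹ * x
        field_simp
      rw [this]
      exact J.mul_mem_left _ hxJ
  let _ : Field (OO w hna ⧸ m) := Ideal.Quotient.field m
  have hq : ∀ x y : OO w hna, Ideal.Quotient.mk m x = Ideal.Quotient.mk m y ↔
      w ((x : L) - y) < 1 := by
    intro x y
    rw [Ideal.Quotient.eq, hmem]
    push_cast
    rfl
  have key : ∀ T : Finset (OO w hna ⧸ m), T.card ≤ p ^ N := by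
    intro T
    let g : (OO w hna ⧸ m) → L := fun s => ((Ideal.Quotient.mk_surjective s).choose : L)
    have hg : ∀ s : OO w hna ⧸ m,
        Ideal.Quotient.mk m (Ideal.Quotient.mk_surjective s).choose = s :=
      fun s => (Ideal.Quotient.mk_surjective s).choose_spec
    have hne : ∀ s t, s ≠ t → w (p : L) < w (g s - g t) := by
      intro s t hst
      by_contra hcon
      push Not at hcon
      apply hst
      rw [← hg s, ← hg t, hq]
      exact lt_of_le_of_lt hcon hwp
    have hinj : Set.InjOn g T := by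
      intro s _ t _ hst
      by_contra h
      have := hne s t h
      rw [hst, sub_self, map_zero] at this
      exact absurd this (not_lt.2 (w.nonneg _))
    rw [← Finset.card_image_of_injOn hinj]
    refine card_le_of_incongruent hna N hN p hp.one_lt.le _ ?_ ?_
    · intro x hx
      rw [Finset.mem_image] at hx
      obtain ⟨s, _, rfl⟩ := hx
      exact (Ideal.Quotient.mk_surjective s).choose.2
    · intro x hx y hy hxy
      rw [Finset.mem_image] at hx hy
      obtain ⟨s, _, rfl⟩ := hx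
      obtain ⟨t, _, rfl⟩ := hy
      exact hne s t (by rintro rfl; exact hxy rfl)
  have hfin : Finite (OO w hna ⧸ m) := by
    by_contra hinf
    rw [not_finite_iff_infinite] at hinf
    obtain ⟨T, hT⟩ := Infinite.exists_subset_card_eq (OO w hna ⧸ m) (p ^ N + 1)
    have := key T
    omega
  let _ := Fintype.ofFinite (OO w hna ⧸ m)
  have hpz : ((p : ℕ) : OO w hna ⧸ m) = 0 := by
    have : Ideal.Quotient.mk m ((p : ℕ) : OO w hna) = 0 := by
      rw [Ideal.Quotient.eq_zero_iff_mem, hmem]
      push_cast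
      exact hwp
    simpa using this
  obtain ⟨p', hp'⟩ := CharP.exists (OO w hna ⧸ m)
  have hdvd : p' ∣ p := (CharP.cast_eq_zero_iff _ p' p).1 hpz
  have hpp : p' = p := by
    rcases (Nat.dvd_prime hp).1 hdvd with h1 | h1
    · exact absurd h1 (CharP.char_ne_one (OO w hna ⧸ m) p')
    · exact h1
  subst hpp
  obtain ⟨f, -, hf⟩ := FiniteField.card (OO w hna ⧸ m) p'
  have hfN : (f : ℕ) ≤ N := by
    have h1 : Fintype.card (OO w hna ⧸ m) ≤ p' ^ N := key Finset.univ
    rw [hf] at h1
    exact (Nat.pow_le_pow_iff_right hp.one_lt).1 h1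
  have hc := hcop f f.2 hfN
  let U : OO w hna := ⟨u, hu.le⟩
  have hU0 : Ideal.Quotient.mk m U ≠ 0 := by
    rw [Ne, Ideal.Quotient.eq_zero_iff_mem, hmem]
    show ¬ w u < 1
    rw [hu]; exact lt_irrefl _
  have hU1 : Ideal.Quotient.mk m U ^ d = 1 := by
    rw [← map_pow, ← map_one (Ideal.Quotient.mk m), hq]
    push_cast
    exact h
  have hU2 : Ideal.Quotient.mk m U ^ (p' ^ (f : ℕ) - 1) = 1 := by
    rw [← hf]
    exact FiniteField.pow_card_sub_one_eq_one _ hU0
  have hord : orderOf (Ideal.Quotient.mk m U) ∣ 1 := by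
    have := Nat.dvd_gcd (orderOf_dvd_of_pow_eq_one hU1) (orderOf_dvd_of_pow_eq_one hU2)
    rwa [hc.gcd_eq_one] at this
  have hU3 : Ideal.Quotient.mk m U = 1 := orderOf_eq_one_iff.1 (Nat.dvd_one.1 hord)
  rw [← map_one (Ideal.Quotient.mk m), hq] at hU3
  push_cast at hU3
  exact hU3

/-- The middle coefficients are dominated by the leading coefficient and the Jacobian. -/
def Mid (w : AbsoluteValue L ℝ) (F : L[X]) (δ : L) : Prop :=
  ∀ k, 1 ≤ k → k < F.natDegree → w (F.coeff k) ^ (F.natDegree - 1) ≤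
    max 1 (w δ) ^ (F.natDegree - k) * w F.leadingCoeff ^ (k - 1)

lemma w_sum_lt (hna : IsNonarchimedean w) {ι : Type*} (s : Finset ι) (f : ι → L) (r : ℝ)
    (hr : 0 < r) (h : ∀ i ∈ s, w (f i) < r) : w (∑ i ∈ s, f i) < r := by
  classical
  induction s using Finset.induction_on with
  | empty => simpa using hr
  | insert a s ha ih =>
    rw [Finset.sum_insert ha]
    exact lt_of_le_of_lt (hna _ _) (max_lt (h a (Finset.mem_insert_self _ _))
      (ih fun i hi => h i (Finset.mem_insert_of_mem hi)))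

lemma dom_lt {F : L[X]} {δ : L} (hmid : Mid w F δ) {M : ℝ} (hM0 : 0 < M)
    (hM : max 1 (w δ) < w F.leadingCoeff * M ^ (F.natDegree - 1)) (k : ℕ) (hk : 1 ≤ k)
    (hkd : k < F.natDegree) :
    w (F.coeff k) * M ^ (k - 1) < w F.leadingCoeff * M ^ (F.natDegree - 1) := by
  set d := F.natDegree with hd
  set A := w F.leadingCoeff
  have hA : 0 ≤ A := w.nonneg _
  have hD : (1 : ℝ) ≤ max 1 (w δ) := le_max_left _ _
  have hA0 : 0 < A := by
    rcases hA.lt_or_eq with h | h
    · exact h
    · rw [← h, zero_mul] at hM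
      linarith
  refine lt_of_pow_lt_pow_left₀ (d - 1) (by positivity) ?_
  calc (w (F.coeff k) * M ^ (k - 1)) ^ (d - 1) =
        w (F.coeff k) ^ (d - 1) * (M ^ (k - 1)) ^ (d - 1) := mul_pow _ _ _
    _ ≤ (max 1 (w δ) ^ (d - k) * A ^ (k - 1)) * (M ^ (k - 1)) ^ (d - 1) := by
        gcongr
        exact hmid k hk hkd
    _ < ((A * M ^ (d - 1)) ^ (d - k) * A ^ (k - 1)) * (M ^ (k - 1)) ^ (d - 1) := by
        gcongr
        omega
    _ = (A * M ^ (d - 1)) ^ (d - 1) := by
        have e1 : d - 1 = (d - k) + (k - 1) := by omega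
        rw [mul_pow, mul_pow]
        have e2 : (M ^ (d - 1)) ^ (d - k) * (M ^ (k - 1)) ^ (d - 1) = (M ^ (d - 1)) ^ (d - 1) := by
          rw [← pow_mul, ← pow_mul, ← pow_mul, ← pow_add]
          congr 1
          rw [mul_comm (k - 1), ← mul_add, ← e1]
        have e3 : A ^ (d - k) * A ^ (k - 1) = A ^ (d - 1) := by rw [← pow_add, ← e1]
        rw [← e3, ← e2]
        ring

lemma dom_le {F : L[X]} {δ : L} (hmid : Mid w F δ) (hd2 : 2 ≤ F.natDegree) {M : ℝ} (hM0 : 0 ≤ M)
    (hM : w F.leadingCoeff * M ^ (F.natDegree - 1) ≤ max 1 (w δ)) (k : ℕ) (hk : 1 ≤ k)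
    (hkd : k ≤ F.natDegree) : w (F.coeff k) * M ^ (k - 1) ≤ max 1 (w δ) := by
  set d := F.natDegree with hd
  set A := w F.leadingCoeff with hA'
  have hA : 0 ≤ A := w.nonneg _
  have hD : (1 : ℝ) ≤ max 1 (w δ) := le_max_left _ _
  rcases hkd.lt_or_eq with hlt | heq
  · refine le_of_pow_le_pow_left₀ (n := d - 1) (by omega) (by positivity) ?_
    have e1 : d - 1 = (d - k) + (k - 1) := by omega
    calc (w (F.coeff k) * M ^ (k - 1)) ^ (d - 1) =
          w (F.coeff k) ^ (d - 1) * (M ^ (k - 1)) ^ (d - 1) := mul_pow _ _ _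
      _ ≤ (max 1 (w δ) ^ (d - k) * A ^ (k - 1)) * (M ^ (k - 1)) ^ (d - 1) := by
          gcongr
          exact hmid k hk hlt
      _ = max 1 (w δ) ^ (d - k) * (A * M ^ (d - 1)) ^ (k - 1) := by
          rw [mul_pow, ← pow_mul, ← pow_mul, mul_comm (k - 1)]
          ring
      _ ≤ max 1 (w δ) ^ (d - k) * max 1 (w δ) ^ (k - 1) := by gcongr
      _ = max 1 (w δ) ^ (d - 1) := by rw [← pow_add, ← e1]
  · rw [heq]
    exact hM

lemma pow_sub_le (hna : IsNonarchimedean w) {M : ℝ} {x y : L} (hx : w x ≤ M) (hy : w y ≤ M)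
    (k : ℕ) : w (x ^ k - y ^ k) ≤ M ^ (k - 1) * w (x - y) := by
  have hM0 : 0 ≤ M := (w.nonneg x).trans hx
  rw [← (Commute.all x y).geom_sum₂_mul, map_mul]
  refine mul_le_mul_of_nonneg_right ?_ (w.nonneg _)
  refine w_sum_le hna _ _ _ (by positivity) fun i hi => ?_
  rw [Finset.mem_range] at hi
  rw [map_mul, map_pow, map_pow]
  calc w x ^ i * w y ^ (k - 1 - i) ≤ M ^ i * M ^ (k - 1 - i) := by
        gcongr
    _ = M ^ (k - 1) := by rw [← pow_add]; congr 1; omega

lemma pow_sub_eq (hna : IsNonarchimedean w) {M : ℝ} (hM0 : 0 < M) {x y : L} (hx : w x = M)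
    (hy : w y = M) (hxy : w (x - y) < M) (d : ℕ) (hd : 1 ≤ d) (hwd : w (d : L) = 1) :
    w (x ^ d - y ^ d) = M ^ (d - 1) * w (x - y) := by
  rw [← (Commute.all x y).geom_sum₂_mul, map_mul]
  congr 1
  have e : ∑ i ∈ Finset.range d, x ^ i * y ^ (d - 1 - i) =
      (∑ i ∈ Finset.range d, (x ^ i - y ^ i) * y ^ (d - 1 - i)) + (d : L) * y ^ (d - 1) := by
    have e1 : (d : L) * y ^ (d - 1) = ∑ i ∈ Finset.range d, y ^ i * y ^ (d - 1 - i) := by
      rw [Finset.sum_congr rfl (g := fun _ => y ^ (d - 1))]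
      · rw [Finset.sum_const, Finset.card_range, nsmul_eq_mul]
      · intro i hi
        rw [Finset.mem_range] at hi
        rw [← pow_add]; congr 1; omega
    rw [e1, ← Finset.sum_add_distrib]
    exact Finset.sum_congr rfl fun i _ => by ring
  have h1 : w ((d : L) * y ^ (d - 1)) = M ^ (d - 1) := by
    rw [map_mul, hwd, one_mul, map_pow, hy]
  rw [e, ← h1]
  apply w_add_eq hna
  rw [h1]
  refine w_sum_lt hna _ _ _ (by positivity) fun i hi => ?_
  rw [Finset.mem_range] at hi
  rw [map_mul, map_pow, hy]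
  rcases Nat.eq_zero_or_pos i with h0 | h0
  · subst h0
    simp
    positivity
  · calc w (x ^ i - y ^ i) * M ^ (d - 1 - i) ≤ (M ^ (i - 1) * w (x - y)) * M ^ (d - 1 - i) := by
          gcongr
          exact pow_sub_le hna hx.le hy.le i
      _ < (M ^ (i - 1) * M) * M ^ (d - 1 - i) := by gcongr
      _ = M ^ (d - 1) := by
          rw [← pow_succ, ← pow_add]; congr 1; omega

lemma eval_sub {F : L[X]} (x y : L) : F.eval x - F.eval y =
    F.leadingCoeff * (x ^ F.natDegree - y ^ F.natDegree) +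
      ∑ k ∈ Finset.range F.natDegree, F.coeff k * (x ^ k - y ^ k) := by
  rw [eval_eq_sum_range, eval_eq_sum_range, ← Finset.sum_sub_distrib, Finset.sum_range_succ,
    add_comm]
  congr 1
  · rw [leadingCoeff]; ring
  · exact Finset.sum_congr rfl fun k _ => by ring

lemma rest_lt (hna : IsNonarchimedean w) {F : L[X]} {δ : L} (hmid : Mid w F δ) {M : ℝ}
    (hM0 : 0 < M) (hM : max 1 (w δ) < w F.leadingCoeff * M ^ (F.natDegree - 1)) {x y : L}
    (hx : w x ≤ M) (hy : w y ≤ M) {E : ℝ} (hE : 0 < E) (hxy : w (x - y) ≤ E) :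
    w (F.eval x - F.eval y - F.leadingCoeff * (x ^ F.natDegree - y ^ F.natDegree)) <
      w F.leadingCoeff * M ^ (F.natDegree - 1) * E := by
  have hpos : 0 < w F.leadingCoeff * M ^ (F.natDegree - 1) :=
    lt_of_lt_of_le (lt_of_lt_of_le one_pos (le_max_left _ _)) hM.le
  rw [eval_sub, add_sub_cancel_left]
  refine w_sum_lt hna _ _ _ (by positivity) fun k hk => ?_
  rw [Finset.mem_range] at hk
  rcases Nat.eq_zero_or_pos k with h0 | h0
  · subst h0
    simp only [pow_zero, sub_self, mul_zero, map_zero]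
    positivity
  · rw [map_mul]
    calc w (F.coeff k) * w (x ^ k - y ^ k) ≤ w (F.coeff k) * (M ^ (k - 1) * w (x - y)) := by
          have := w.nonneg (F.coeff k)
          gcongr
          exact pow_sub_le hna hx hy k
      _ ≤ w (F.coeff k) * (M ^ (k - 1) * E) := by
          have := w.nonneg (F.coeff k)
          gcongr
      _ = (w (F.coeff k) * M ^ (k - 1)) * E := by ring
      _ < _ := by
          have := dom_lt hmid hM0 hM k h0 hk
          gcongr

lemma eval_sub_le (hna : IsNonarchimedean w) {F : L[X]} {δ : L} (hmid : Mid w F δ)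
    (hd2 : 2 ≤ F.natDegree) {M : ℝ}
    (hM : w F.leadingCoeff * M ^ (F.natDegree - 1) ≤ max 1 (w δ)) {x y : L}
    (hx : w x ≤ M) (hy : w y ≤ M) : w (F.eval x - F.eval y) ≤ max 1 (w δ) * w (x - y) := by
  have hM0 : 0 ≤ M := (w.nonneg x).trans hx
  have hterm : ∀ k, 1 ≤ k → k ≤ F.natDegree →
      w (F.coeff k * (x ^ k - y ^ k)) ≤ max 1 (w δ) * w (x - y) := by
    intro k h1 h2
    rw [map_mul]
    calc w (F.coeff k) * w (x ^ k - y ^ k) ≤ w (F.coeff k) * (M ^ (k - 1) * w (x - y)) := by
          have := w.nonneg (F.coeff k)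
          gcongr
          exact pow_sub_le hna hx hy k
      _ = (w (F.coeff k) * M ^ (k - 1)) * w (x - y) := by ring
      _ ≤ _ := by
          have := w.nonneg (x - y)
          have := dom_le hmid hd2 hM0 hM k h1 h2
          gcongr
  have hnn : 0 ≤ max 1 (w δ) * w (x - y) := by
    have := w.nonneg (x - y)
    positivity
  rw [eval_sub]
  refine (hna _ _).trans (max_le (hterm F.natDegree (by omega) le_rfl) ?_)
  refine w_sum_le hna _ _ _ hnn fun k hk => ?_
  rw [Finset.mem_range] at hk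
  rcases Nat.eq_zero_or_pos k with h0 | h0
  · subst h0
    simp only [pow_zero, sub_self, mul_zero, map_zero]
    exact hnn
  · exact hterm k h0 hk.le

section seq

variable {n : ℕ} [NeZero n]

lemma rhs_le (hna : IsNonarchimedean w) (δ a b : L) {E : ℝ} (ha : w a ≤ E) (hb : w b ≤ E) :
    w (a + δ * b) ≤ max 1 (w δ) * E := by
  have hE : 0 ≤ E := (w.nonneg a).trans ha
  refine (hna _ _).trans (max_le ?_ ?_)
  · calc w a ≤ 1 * E := by rw [one_mul]; exact ha
      _ ≤ _ := by gcongr; exact le_max_left _ _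
  · rw [map_mul]
    calc w δ * w b ≤ max 1 (w δ) * E := by
          have := w.nonneg b
          gcongr
          exact le_max_right _ _

lemma large_const (hna : IsNonarchimedean w) {F : L[X]} {δ : L} (hmid : Mid w F δ)
    (hd2 : 2 ≤ F.natDegree) (y : ZMod n → L) (hrec : ∀ t, y (t + 1) + δ * y (t - 1) = F.eval (y t))
    (t1 : ZMod n) (ht1 : max 1 (w δ) < w F.leadingCoeff * w (y t1) ^ (F.natDegree - 1)) :
    ∃ M : ℝ, 0 < M ∧ max 1 (w δ) < w F.leadingCoeff * M ^ (F.natDegree - 1) ∧
      (∀ t, w (y t) = M) ∧ w (F.eval 0) = w F.leadingCoeff * M ^ F.natDegree := by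
  obtain ⟨t0, ht0⟩ := Finite.exists_max fun t : ZMod n => w (y t)
  set M := w (y t0) with hMdef
  have hA : 0 ≤ w F.leadingCoeff := w.nonneg _
  have hD : (1 : ℝ) ≤ max 1 (w δ) := le_max_left _ _
  have hM : max 1 (w δ) < w F.leadingCoeff * M ^ (F.natDegree - 1) := by
    refine lt_of_lt_of_le ht1 ?_
    have := w.nonneg (y t1)
    have := ht0 t1
    gcongr
  have hM0 : 0 < M := by
    rcases (w.nonneg (y t0)).lt_or_eq with h | h
    · exact h
    · rw [hMdef, ← h, zero_pow (by omega), mul_zero] at hM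
      linarith
  have hA0 : 0 < w F.leadingCoeff := by
    rcases hA.lt_or_eq with h | h
    · exact h
    · rw [← h, zero_mul] at hM; linarith
  have hpd : M ^ (F.natDegree - 1) * M = M ^ F.natDegree := by
    rw [← pow_succ]; congr 1; omega
  have hsmall : ∀ t, w (F.eval (y t)) < w F.leadingCoeff * M ^ F.natDegree := by
    intro t
    rw [← hrec]
    calc w (y (t + 1) + δ * y (t - 1)) ≤ max 1 (w δ) * M := rhs_le hna δ _ _ (ht0 _) (ht0 _)
      _ < w F.leadingCoeff * M ^ (F.natDegree - 1) * M := by gcongr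
      _ = _ := by rw [mul_assoc, hpd]
  have hrest : ∀ t, w (F.eval (y t) - F.eval 0 -
      F.leadingCoeff * (y t ^ F.natDegree - 0 ^ F.natDegree)) <
        w F.leadingCoeff * M ^ F.natDegree := by
    intro t
    have := rest_lt hna hmid hM0 hM (ht0 t) (by simpa using hM0.le : w (0 : L) ≤ M) hM0
      (by rw [sub_zero]; exact ht0 t)
    rwa [mul_assoc, hpd] at this
  have hz : (0 : L) ^ F.natDegree = 0 := zero_pow (by omega)
  have hb : w (F.eval 0) = w F.leadingCoeff * M ^ F.natDegree := by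
    have h1 := hrest t0
    have h2 := hsmall t0
    rw [hz, sub_zero] at h1
    have e : F.eval 0 = (F.eval (y t0) - (F.eval (y t0) - F.eval 0 -
      F.leadingCoeff * y t0 ^ F.natDegree)) - F.leadingCoeff * y t0 ^ F.natDegree := by ring
    have h3 : w (F.leadingCoeff * y t0 ^ F.natDegree) = w F.leadingCoeff * M ^ F.natDegree := by
      rw [map_mul, map_pow]
    have h4 : w (F.eval (y t0) - (F.eval (y t0) - F.eval 0 -
      F.leadingCoeff * y t0 ^ F.natDegree)) < w (F.leadingCoeff * y t0 ^ F.natDegree) := by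
      rw [h3]
      exact lt_of_le_of_lt (w_sub_le hna _ _) (max_lt h2 h1)
    rw [e, ← w_neg, neg_sub, w_sub_eq hna h4, h3]
  refine ⟨M, hM0, hM, fun t => ?_, hb⟩
  have h1 := hrest t
  have h2 := hsmall t
  rw [hz, sub_zero] at h1
  have h3 : w (F.leadingCoeff * y t ^ F.natDegree) = w F.leadingCoeff * M ^ F.natDegree := by
    have e : F.leadingCoeff * y t ^ F.natDegree = (F.eval (y t) - (F.eval (y t) - F.eval 0 -
      F.leadingCoeff * y t ^ F.natDegree)) - F.eval 0 := by ring
    have h4 : w (F.eval (y t) - (F.eval (y t) - F.eval 0 -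
      F.leadingCoeff * y t ^ F.natDegree)) < w (F.eval 0) := by
      rw [hb]
      exact lt_of_le_of_lt (w_sub_le hna _ _) (max_lt h2 h1)
    rw [e, ← w_neg, neg_sub, w_sub_eq hna h4, hb]
  rw [map_mul, map_pow] at h3
  have h5 := mul_left_cancel₀ hA0.ne' h3
  exact (pow_left_inj₀ (w.nonneg _) hM0.le (by omega)).1 h5

/-- Two periodic sequences, one of which has a large member, coincide. -/
theorem large_unique (hna : IsNonarchimedean w) {F : L[X]} {δ : L} (hmid : Mid w F δ)
    (hd2 : 2 ≤ F.natDegree) (hwd : w (F.natDegree : L) = 1)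
    (hroot : ∀ u : L, w u = 1 → w (u ^ F.natDegree - 1) < 1 → w (u - 1) < 1)
    (y z : ZMod n → L) (hy : ∀ t, y (t + 1) + δ * y (t - 1) = F.eval (y t))
    (hz : ∀ t, z (t + 1) + δ * z (t - 1) = F.eval (z t))
    (t1 : ZMod n) (ht1 : max 1 (w δ) < w F.leadingCoeff * w (y t1) ^ (F.natDegree - 1)) :
    y = z := by
  obtain ⟨M, hM0, hM, hyM, hb⟩ := large_const hna hmid hd2 y hy t1 ht1
  have hA : 0 ≤ w F.leadingCoeff := w.nonneg _
  have hD : (1 : ℝ) ≤ max 1 (w δ) := le_max_left _ _
  have hA0 : 0 < w F.leadingCoeff := by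
    rcases hA.lt_or_eq with h | h
    · exact h
    · rw [← h, zero_mul] at hM; linarith
  have hpd : M ^ (F.natDegree - 1) * M = M ^ F.natDegree := by
    rw [← pow_succ]; congr 1; omega
  -- `z` has a large member
  obtain ⟨t0, ht0⟩ := Finite.exists_max fun t : ZMod n => w (z t)
  have hzl : max 1 (w δ) < w F.leadingCoeff * w (z t0) ^ (F.natDegree - 1) := by
    by_contra hcon
    push Not at hcon
    have h1 : w (F.eval (z t0) - F.eval 0) ≤ max 1 (w δ) * w (z t0 - 0) :=
      eval_sub_le hna hmid hd2 hcon le_rfl (by simp)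
    rw [sub_zero] at h1
    have h2 : w (F.eval (z t0)) ≤ max 1 (w δ) * w (z t0) := by
      rw [← hz]
      exact rhs_le hna δ _ _ (ht0 _) (ht0 _)
    have h3 : w (F.eval 0) ≤ max 1 (w δ) * w (z t0) := by
      have e : F.eval 0 = F.eval (z t0) - (F.eval (z t0) - F.eval 0) := by ring
      rw [e]
      exact (w_sub_le hna _ _).trans (max_le h2 h1)
    rw [hb, ← hpd, ← mul_assoc] at h3
    have h4 : max 1 (w δ) * M < max 1 (w δ) * w (z t0) := by
      refine lt_of_lt_of_le ?_ h3
      gcongr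
    have h5 : M < w (z t0) := lt_of_mul_lt_mul_left h4 (by linarith)
    have h6 : w F.leadingCoeff * M ^ (F.natDegree - 1) ≤
        w F.leadingCoeff * w (z t0) ^ (F.natDegree - 1) := by gcongr
    linarith
  obtain ⟨M', hM0', hM', hzM, hb'⟩ := large_const hna hmid hd2 z hz t0 hzl
  have hMM : M' = M := by
    rw [hb] at hb'
    have := mul_left_cancel₀ hA0.ne' hb'
    exact ((pow_left_inj₀ hM0.le hM0'.le (by omega)).1 this).symm
  subst hMM
  -- `y t` and `z t` are close
  have hclose : ∀ t, w (y t - z t) < M' := by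
    intro t
    have h1 : w (y t - z t) ≤ M' := (w_sub_le hna _ _).trans (max_le (hyM t).le (hzM t).le)
    have h2 := rest_lt hna hmid hM0 hM (hyM t).le (hzM t).le hM0 h1
    rw [mul_assoc, hpd] at h2
    have h3 : w (F.eval (y t) - F.eval (z t)) < w F.leadingCoeff * M' ^ F.natDegree := by
      rw [← hy, ← hz]
      have e : y (t + 1) + δ * y (t - 1) - (z (t + 1) + δ * z (t - 1)) =
          (y (t + 1) - z (t + 1)) + δ * (y (t - 1) - z (t - 1)) := by ring
      rw [e]
      calc _ ≤ max 1 (w δ) * M' := rhs_le hna δ _ _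
            ((w_sub_le hna _ _).trans (max_le (hyM _).le (hzM _).le))
            ((w_sub_le hna _ _).trans (max_le (hyM _).le (hzM _).le))
        _ < w F.leadingCoeff * M' ^ (F.natDegree - 1) * M' := by gcongr
        _ = _ := by rw [mul_assoc, hpd]
    have h4 : w (F.leadingCoeff * (y t ^ F.natDegree - z t ^ F.natDegree)) <
        w F.leadingCoeff * M' ^ F.natDegree := by
      have e : F.leadingCoeff * (y t ^ F.natDegree - z t ^ F.natDegree) =
          (F.eval (y t) - F.eval (z t)) - (F.eval (y t) - F.eval (z t) -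
            F.leadingCoeff * (y t ^ F.natDegree - z t ^ F.natDegree)) := by ring
      rw [e]
      exact lt_of_le_of_lt (w_sub_le hna _ _) (max_lt h3 h2)
    rw [map_mul] at h4
    have h5 : w (y t ^ F.natDegree - z t ^ F.natDegree) < M' ^ F.natDegree :=
      lt_of_mul_lt_mul_left h4 hA
    have hz0 : z t ≠ 0 := by
      intro h0
      have := hzM t
      rw [h0, map_zero] at this
      exact hM0.ne this
    have h6 : w ((y t / z t) ^ F.natDegree - 1) < 1 := by
      have e : (y t / z t) ^ F.natDegree - 1 =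
          (y t ^ F.natDegree - z t ^ F.natDegree) / z t ^ F.natDegree := by
        rw [div_pow]
        field_simp
      rw [e, map_div₀, map_pow, hzM t, div_lt_one (by positivity)]
      exact h5
    have h7 := hroot (y t / z t) (by rw [map_div₀, hyM, hzM, div_self hM0.ne']) h6
    have e : y t - z t = (y t / z t - 1) * z t := by field_simp
    rw [e, map_mul, hzM]
    calc w (y t / z t - 1) * M' < 1 * M' := by gcongr
      _ = M' := one_mul _
  obtain ⟨t2, ht2⟩ := Finite.exists_max fun t : ZMod n => w (y t - z t)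
  have hE : w (y t2 - z t2) = 0 := by
    by_contra hne
    have hE0 : 0 < w (y t2 - z t2) := lt_of_le_of_ne (w.nonneg _) (Ne.symm hne)
    set E := w (y t2 - z t2) with hEdef
    have h1 := rest_lt hna hmid hM0 hM (hyM t2).le (hzM t2).le hE0 hEdef.symm.le
    have h2 : w (F.eval (y t2) - F.eval (z t2)) < w F.leadingCoeff * M' ^ (F.natDegree - 1) * E := by
      rw [← hy, ← hz]
      have e : y (t2 + 1) + δ * y (t2 - 1) - (z (t2 + 1) + δ * z (t2 - 1)) =
          (y (t2 + 1) - z (t2 + 1)) + δ * (y (t2 - 1) - z (t2 - 1)) := by ring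
      rw [e]
      calc _ ≤ max 1 (w δ) * E := rhs_le hna δ _ _ (ht2 _) (ht2 _)
        _ < _ := by gcongr
    have h3 : w (F.leadingCoeff * (y t2 ^ F.natDegree - z t2 ^ F.natDegree)) <
        w F.leadingCoeff * M' ^ (F.natDegree - 1) * E := by
      have e : F.leadingCoeff * (y t2 ^ F.natDegree - z t2 ^ F.natDegree) =
          (F.eval (y t2) - F.eval (z t2)) - (F.eval (y t2) - F.eval (z t2) -
            F.leadingCoeff * (y t2 ^ F.natDegree - z t2 ^ F.natDegree)) := by ring
      rw [e]
      exact lt_of_le_of_lt (w_sub_le hna _ _) (max_lt h2 h1)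
    rw [map_mul, pow_sub_eq hna hM0 (hyM t2) (hzM t2) (hclose t2) F.natDegree (by omega) hwd,
      ← mul_assoc] at h3
    exact lt_irrefl _ h3
  funext t
  have h1 : w (y t - z t) ≤ 0 := hE ▸ ht2 t
  have h2 : w (y t - z t) = 0 := le_antisymm h1 (w.nonneg _)
  exact sub_eq_zero.1 ((map_eq_zero w).1 h2)

end seq

end Pool.Agent.Q195.HD
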