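import Pool.Agent.Q195.HD5

/-!
# Preperiodic points of polynomials with dominated middle coefficients
-/

set_option autoImplicit false

namespace Pool.Agent.Q195.HD

open Module Polynomial Function

variable {L : Type*} [Field L] {w : AbsoluteValue L ℝ}

/-- the point has a finite orbit -/
def PP (F : L[X]) (x : L) : Prop :=
  ∃ s t : ℕ, s < t ∧ (fun y => F.eval y)^[s] x = (fun y => F.eval y)^[t] x

lemma PP.succ {F : L[X]} {x : L} (h : PP F x) : PP F (F.eval x) := by
  obtain ⟨s, t, hst, h⟩ := h
  refine ⟨s, t, hst, ?_⟩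
  rw [← iterate_succ_apply, ← iterate_succ_apply, iterate_succ_apply', iterate_succ_apply', h]

lemma PP.iter {F : L[X]} {x : L} (h : PP F x) (i : ℕ) : PP F ((fun y => F.eval y)^[i] x) := by
  induction i with
  | zero => exact h
  | succ i ih => rw [iterate_succ_apply']; exact ih.succ

lemma PP.not_grow {F : L[X]} {x : L} (h : PP F x) (g : L → ℝ) :
    ¬ ∀ i : ℕ, g ((fun y => F.eval y)^[i] x) < g ((fun y => F.eval y)^[i + 1] x) := by
  intro hg
  obtain ⟨s, t, hst, h⟩ := h
  have hm : StrictMono fun i : ℕ => g ((fun y => F.eval y)^[i] x) := strictMono_nat_of_lt_succ hg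
  have := hm hst
  simp only [h] at this
  exact lt_irrefl _ this

/-- eventually periodic form -/
lemma PP.per {F : L[X]} {x : L} (h : PP F x) : ∃ s n : ℕ, 0 < n ∧ ∀ k, s ≤ k → ∀ r,
    (fun y => F.eval y)^[k + n * r] x = (fun y => F.eval y)^[k] x := by
  obtain ⟨s, t, hst, h⟩ := h
  refine ⟨s, t - s, by omega, fun k hk r => ?_⟩
  obtain ⟨j, rfl⟩ := Nat.exists_eq_add_of_le hk
  have h1 : IsPeriodicPt (fun y => F.eval y) (t - s) ((fun y => F.eval y)^[s] x) := by
    show (fun y => F.eval y)^[t - s] ((fun y => F.eval y)^[s] x) = _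
    rw [← iterate_add_apply, show t - s + s = t by omega, h]
  have h2 := h1.mul_const r
  have h3 : (fun y => F.eval y)^[(t - s) * r] ((fun y => F.eval y)^[s] x) =
      (fun y => F.eval y)^[s] x := h2
  rw [show s + j + (t - s) * r = j + ((t - s) * r + s) by ring, iterate_add_apply,
    iterate_add_apply _ _ s, h3, ← iterate_add_apply, add_comm j s]

section est

variable {F : L[X]}

lemma m10 : max 1 (w (0 : L)) = 1 := by simp

lemma big_pos (hF : 1 ≤ F.natDegree - 1) {x : L} (hx : 1 < w F.leadingCoeff * w x ^ (F.natDegree - 1)) :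
    0 < w x ∧ 0 < w F.leadingCoeff := by
  have h0 := w.nonneg x
  have h1 := w.nonneg F.leadingCoeff
  constructor
  · rcases h0.lt_or_eq with h | h
    · exact h
    · rw [← h, zero_pow (by omega), mul_zero] at hx
      linarith
  · rcases h1.lt_or_eq with h | h
    · exact h
    · rw [← h, zero_mul] at hx
      linarith

lemma big_rest (hna : IsNonarchimedean w) (hmid : Mid w F 0) (hd2 : 2 ≤ F.natDegree) {x : L}
    (hx : 1 < w F.leadingCoeff * w x ^ (F.natDegree - 1)) :
    w (F.eval x - F.eval 0 - F.leadingCoeff * x ^ F.natDegree) <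
      w F.leadingCoeff * w x ^ F.natDegree := by
  have h0 := (big_pos (by omega) hx).1
  have h := rest_lt hna hmid h0 (by rw [m10]; exact hx) (x := x) (y := 0) le_rfl (by simp) h0
    (by simp)
  rw [zero_pow (by omega), sub_zero, mul_assoc, ← pow_succ] at h
  rwa [show F.natDegree - 1 + 1 = F.natDegree by omega] at h

/-- the leading term dominates: the absolute value grows -/
lemma big_a (hna : IsNonarchimedean w) (hmid : Mid w F 0) (hd2 : 2 ≤ F.natDegree) {x : L}
    (hx : 1 < w F.leadingCoeff * w x ^ (F.natDegree - 1))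
    (h0 : w (F.eval 0) < w F.leadingCoeff * w x ^ F.natDegree) :
    w (F.eval x) = w F.leadingCoeff * w x ^ F.natDegree := by
  have h := big_rest hna hmid hd2 hx
  have e : F.eval x = ((F.eval x - F.eval 0 - F.leadingCoeff * x ^ F.natDegree) + F.eval 0) +
      F.leadingCoeff * x ^ F.natDegree := by ring
  have e2 : w (F.leadingCoeff * x ^ F.natDegree) = w F.leadingCoeff * w x ^ F.natDegree := by
    rw [map_mul, map_pow]
  rw [e, w_add_eq hna, e2]
  rw [e2]
  exact lt_of_le_of_lt (hna _ _) (max_lt h h0)

lemma grow (hna : IsNonarchimedean w) (hmid : Mid w F 0) (hd2 : 2 ≤ F.natDegree) {x : L}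
    (hx : 1 < w F.leadingCoeff * w x ^ (F.natDegree - 1))
    (h0 : w (F.eval 0) < w F.leadingCoeff * w x ^ F.natDegree) : ¬ PP F x := by
  intro hpp
  have step : ∀ y : L, 1 < w F.leadingCoeff * w y ^ (F.natDegree - 1) →
      w (F.eval 0) < w F.leadingCoeff * w y ^ F.natDegree →
      w y < w (F.eval y) ∧ 1 < w F.leadingCoeff * w (F.eval y) ^ (F.natDegree - 1) ∧
        w (F.eval 0) < w F.leadingCoeff * w (F.eval y) ^ F.natDegree := by
    intro y hy hy0
    obtain ⟨p1, p2⟩ := big_pos (by omega) hy
    have h1 := big_a hna hmid hd2 hy hy0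
    have h2 : w y < w (F.eval y) := by
      rw [h1]
      calc w y = 1 * w y := (one_mul _).symm
        _ < (w F.leadingCoeff * w y ^ (F.natDegree - 1)) * w y := by gcongr
        _ = w F.leadingCoeff * w y ^ F.natDegree := by
            rw [mul_assoc, ← pow_succ]; congr 2; omega
    refine ⟨h2, ?_, ?_⟩
    · refine hy.trans ?_
      gcongr
      omega
    · refine hy0.trans ?_
      gcongr
  have hall : ∀ i : ℕ, 1 < w F.leadingCoeff * w ((fun y => F.eval y)^[i] x) ^ (F.natDegree - 1) ∧
      w (F.eval 0) < w F.leadingCoeff * w ((fun y => F.eval y)^[i] x) ^ F.natDegree := by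
    intro i
    induction i with
    | zero => exact ⟨hx, h0⟩
    | succ i ih =>
      rw [iterate_succ_apply']
      exact (step _ ih.1 ih.2).2
  refine hpp.not_grow w fun i => ?_
  rw [iterate_succ_apply']
  exact (step _ (hall i).1 (hall i).2).1

lemma small_diff (hna : IsNonarchimedean w) (hmid : Mid w F 0) (hd2 : 2 ≤ F.natDegree) {M : ℝ}
    (hM : w F.leadingCoeff * M ^ (F.natDegree - 1) ≤ 1) {x y : L} (hx : w x ≤ M) (hy : w y ≤ M) :
    w (F.eval x - F.eval y) ≤ w (x - y) := by
  have := eval_sub_le hna hmid hd2 (M := M) (by rw [m10]; exact hM) hx hy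
  rwa [m10, one_mul] at this

/-- a point of a set where the constant term is larger than everything escapes -/
lemma escape (hna : IsNonarchimedean w) (hmid : Mid w F 0) (hd2 : 2 ≤ F.natDegree) {z : L}
    (hz : w F.leadingCoeff * w z ^ (F.natDegree - 1) ≤ 1)
    (h0 : 1 < w F.leadingCoeff * w (F.eval 0) ^ (F.natDegree - 1)) : ¬ PP F z := by
  intro hpp
  obtain ⟨p1, p2⟩ := big_pos (by omega) h0
  have hlt : w z < w (F.eval 0) := by
    by_contra hcon
    push Not at hcon
    have : w F.leadingCoeff * w (F.eval 0) ^ (F.natDegree - 1) ≤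
        w F.leadingCoeff * w z ^ (F.natDegree - 1) := by gcongr
    linarith
  have h1 : w (F.eval z) = w (F.eval 0) := by
    have e : F.eval z = (F.eval z - F.eval 0) + F.eval 0 := by ring
    rw [e]
    apply w_add_eq hna
    have := small_diff hna hmid hd2 hz (x := z) (y := 0) le_rfl (by simp)
    rw [sub_zero] at this
    exact lt_of_le_of_lt this hlt
  refine grow hna hmid hd2 (x := F.eval z) (by rw [h1]; exact h0) ?_ hpp.succ
  rw [h1]
  calc w (F.eval 0) = 1 * w (F.eval 0) := (one_mul _).symm
    _ < (w F.leadingCoeff * w (F.eval 0) ^ (F.natDegree - 1)) * w (F.eval 0) := by gcongr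
    _ = _ := by rw [mul_assoc, ← pow_succ]; congr 2; omega

/-- a large preperiodic point has the absolute value prescribed by the constant term -/
lemma big_const (hna : IsNonarchimedean w) (hmid : Mid w F 0) (hd2 : 2 ≤ F.natDegree) {x : L}
    (hx : 1 < w F.leadingCoeff * w x ^ (F.natDegree - 1)) (hpp : PP F x) :
    w (F.eval 0) = w F.leadingCoeff * w x ^ F.natDegree ∧
      1 < w F.leadingCoeff * w (F.eval 0) ^ (F.natDegree - 1) := by
  obtain ⟨p1, p2⟩ := big_pos (by omega) hx
  have hxx : w x < w F.leadingCoeff * w x ^ F.natDegree := by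
    calc w x = 1 * w x := (one_mul _).symm
      _ < (w F.leadingCoeff * w x ^ (F.natDegree - 1)) * w x := by gcongr
      _ = w F.leadingCoeff * w x ^ F.natDegree := by
          rw [mul_assoc, ← pow_succ]; congr 2; omega
  have hle : w F.leadingCoeff * w x ^ F.natDegree ≤ w (F.eval 0) := by
    by_contra hcon
    push Not at hcon
    exact grow hna hmid hd2 hx hcon hpp
  have hbig : 1 < w F.leadingCoeff * w (F.eval 0) ^ (F.natDegree - 1) := by
    refine hx.trans ?_
    have : w x < w (F.eval 0) := lt_of_lt_of_le hxx hle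
    gcongr
    omega
  refine ⟨le_antisymm ?_ hle, hbig⟩
  by_contra hcon
  push Not at hcon
  have h := big_rest hna hmid hd2 hx
  have h1 : w (F.eval x) = w (F.eval 0) := by
    have e : F.eval x = ((F.eval x - F.eval 0 - F.leadingCoeff * x ^ F.natDegree) +
      F.leadingCoeff * x ^ F.natDegree) + F.eval 0 := by ring
    rw [e]
    apply w_add_eq hna
    have e2 : w (F.leadingCoeff * x ^ F.natDegree) = w F.leadingCoeff * w x ^ F.natDegree := by
      rw [map_mul, map_pow]
    exact lt_of_le_of_lt (hna _ _) (max_lt (h.trans hcon) (e2 ▸ hcon))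
  have p3 : 0 < w (F.eval 0) := lt_of_lt_of_le (p1.trans hxx) hle
  refine grow hna hmid hd2 (x := F.eval x) (by rw [h1]; exact hbig) ?_ hpp.succ
  rw [h1]
  calc w (F.eval 0) = 1 * w (F.eval 0) := (one_mul _).symm
    _ < (w F.leadingCoeff * w (F.eval 0) ^ (F.natDegree - 1)) * w (F.eval 0) := by gcongr
    _ = _ := by rw [mul_assoc, ← pow_succ]; congr 2; omega

/-- **At most one preperiodic point** if the constant term is large. -/
theorem big_unique (hna : IsNonarchimedean w) (hmid : Mid w F 0) (hd2 : 2 ≤ F.natDegree)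
    (hwd : w (F.natDegree : L) = 1)
    (hroot : ∀ u : L, w u = 1 → w (u ^ F.natDegree - 1) < 1 → w (u - 1) < 1)
    (h0 : 1 < w F.leadingCoeff * w (F.eval 0) ^ (F.natDegree - 1)) {x z : L} (hx : PP F x)
    (hz : PP F z) : x = z := by
  have hbig : ∀ y : L, PP F y → 1 < w F.leadingCoeff * w y ^ (F.natDegree - 1) := by
    intro y hy
    by_contra hcon
    push Not at hcon
    exact escape hna hmid hd2 hcon h0 hy
  obtain ⟨p1, p2⟩ := big_pos (by omega) (hbig x hx)
  set M := w x with hM
  have hMbig := hbig x hx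
  have hMM : ∀ y : L, PP F y → w y = M := by
    intro y hy
    have h1 := (big_const hna hmid hd2 (hbig y hy) hy).1
    have h2 := (big_const hna hmid hd2 (hbig x hx) hx).1
    rw [h1] at h2
    have := mul_left_cancel₀ p2.ne' h2
    exact (pow_left_inj₀ (w.nonneg _) p1.le (by omega)).1 this
  have hpd : M ^ (F.natDegree - 1) * M = M ^ F.natDegree := by
    rw [← pow_succ]; congr 1; omega
  have hMbig' : max 1 (w (0 : L)) < w F.leadingCoeff * M ^ (F.natDegree - 1) := by
    rw [m10]; exact hMbig
  -- close
  have hclose : ∀ a b : L, PP F a → PP F b → w (a - b) < M := by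
    intro a b ha hb
    have wa := hMM a ha
    have wb := hMM b hb
    have h1 : w (a - b) ≤ M := (w_sub_le hna _ _).trans (max_le wa.le wb.le)
    have h2 := rest_lt hna hmid p1 hMbig' wa.le wb.le p1 h1
    rw [mul_assoc, hpd] at h2
    have h3 : w (F.eval a - F.eval b) < w F.leadingCoeff * M ^ F.natDegree := by
      calc w (F.eval a - F.eval b) ≤ M :=
            (w_sub_le hna _ _).trans (max_le (hMM _ ha.succ).le (hMM _ hb.succ).le)
        _ = 1 * M := (one_mul _).symm
        _ < (w F.leadingCoeff * M ^ (F.natDegree - 1)) * M := by gcongr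
        _ = _ := by rw [mul_assoc, hpd]
    have h4 : w (F.leadingCoeff * (a ^ F.natDegree - b ^ F.natDegree)) <
        w F.leadingCoeff * M ^ F.natDegree := by
      have e : F.leadingCoeff * (a ^ F.natDegree - b ^ F.natDegree) =
          (F.eval a - F.eval b) - (F.eval a - F.eval b -
            F.leadingCoeff * (a ^ F.natDegree - b ^ F.natDegree)) := by ring
      rw [e]
      exact lt_of_le_of_lt (w_sub_le hna _ _) (max_lt h3 h2)
    rw [map_mul] at h4
    have h5 : w (a ^ F.natDegree - b ^ F.natDegree) < M ^ F.natDegree :=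
      lt_of_mul_lt_mul_left h4 p2.le
    have hb0 : b ≠ 0 := by
      intro h0
      rw [h0, map_zero] at wb
      exact p1.ne wb
    have h6 : w ((a / b) ^ F.natDegree - 1) < 1 := by
      have e : (a / b) ^ F.natDegree - 1 =
          (a ^ F.natDegree - b ^ F.natDegree) / b ^ F.natDegree := by
        rw [div_pow]
        field_simp
      rw [e, map_div₀, map_pow, wb, div_lt_one (by positivity)]
      exact h5
    have h7 := hroot (a / b) (by rw [map_div₀, wa, wb, div_self p1.ne']) h6
    have e : a - b = (a / b - 1) * b := by field_simp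
    rw [e, map_mul, wb]
    calc w (a / b - 1) * M < 1 * M := by gcongr
      _ = M := one_mul _
  -- expansion
  have hexp : ∀ a b : L, PP F a → PP F b → a ≠ b → w (a - b) < w (F.eval a - F.eval b) := by
    intro a b ha hb hab
    have hE0 : 0 < w (a - b) := w.pos (sub_ne_zero.2 hab)
    have h1 := rest_lt hna hmid p1 hMbig' (hMM a ha).le (hMM b hb).le hE0 le_rfl
    have h2 : w (F.leadingCoeff * (a ^ F.natDegree - b ^ F.natDegree)) =
        w F.leadingCoeff * M ^ (F.natDegree - 1) * w (a - b) := by
      rw [map_mul, pow_sub_eq hna p1 (hMM a ha) (hMM b hb) (hclose a b ha hb) F.natDegree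
        (by omega) hwd, ← mul_assoc]
    have e : F.eval a - F.eval b = (F.eval a - F.eval b -
        F.leadingCoeff * (a ^ F.natDegree - b ^ F.natDegree)) +
        F.leadingCoeff * (a ^ F.natDegree - b ^ F.natDegree) := by ring
    have h3 : w (F.eval a - F.eval b) = w F.leadingCoeff * M ^ (F.natDegree - 1) * w (a - b) := by
      rw [e, w_add_eq hna, h2]
      rw [h2]; exact h1
    rw [h3]
    calc w (a - b) = 1 * w (a - b) := (one_mul _).symm
      _ < _ := by gcongr
  by_contra hne
  obtain ⟨s1, n1, hn1, h1⟩ := hx.per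
  obtain ⟨s2, n2, hn2, h2⟩ := hz.per
  have hnei : ∀ i : ℕ, (fun y => F.eval y)^[i] x ≠ (fun y => F.eval y)^[i] z := by
    intro i
    induction i with
    | zero => exact hne
    | succ i ih =>
      rw [iterate_succ_apply', iterate_succ_apply']
      intro hcon
      have := hexp _ _ (hx.iter i) (hz.iter i) ih
      rw [hcon, sub_self, map_zero] at this
      exact absurd (w.nonneg _) (not_le.2 this)
  have hmono : StrictMono fun i : ℕ => w ((fun y => F.eval y)^[i] x - (fun y => F.eval y)^[i] z) := by
    apply strictMono_nat_of_lt_succ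
    intro i
    rw [iterate_succ_apply', iterate_succ_apply']
    exact hexp _ _ (hx.iter i) (hz.iter i) (hnei i)
  have h3 := hmono (show s1 + s2 < s1 + s2 + n1 * n2 by
    have := Nat.mul_pos hn1 hn2
    omega)
  simp only at h3
  rw [h1 (s1 + s2) (by omega) n2] at h3
  rw [mul_comm n1 n2, h2 (s1 + s2) (by omega) n1] at h3
  exact lt_irrefl _ h3

end est

section small

variable {F : L[X]}

lemma taylor_pow (hna : IsNonarchimedean w) {M : ℝ} (hM : 0 < M) {x y : L} (hx : w x ≤ M)
    (hy : w y ≤ M) (k : ℕ) : w (x ^ k - y ^ k - (k : L) * y ^ (k - 1) * (x - y)) * M ≤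
      M ^ (k - 1) * w (x - y) ^ 2 := by
  have e : x ^ k - y ^ k - (k : L) * y ^ (k - 1) * (x - y) =
      (∑ i ∈ Finset.range k, (x ^ i - y ^ i) * y ^ (k - 1 - i)) * (x - y) := by
    have e1 : (k : L) * y ^ (k - 1) = ∑ i ∈ Finset.range k, y ^ i * y ^ (k - 1 - i) := by
      rw [Finset.sum_congr rfl (g := fun _ => y ^ (k - 1))]
      · rw [Finset.sum_const, Finset.card_range, nsmul_eq_mul]
      · intro i hi
        rw [Finset.mem_range] at hi
        rw [← pow_add]; congr 1; omega
    rw [e1, ← (Commute.all x y).geom_sum₂_mul, ← sub_mul, ← Finset.sum_sub_distrib]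
    congr 1
    exact Finset.sum_congr rfl fun i _ => by ring
  have hb : w (∑ i ∈ Finset.range k, (x ^ i - y ^ i) * y ^ (k - 1 - i)) ≤
      M ^ (k - 1) / M * w (x - y) := by
    refine w_sum_le hna _ _ _ (by have := w.nonneg (x - y); positivity) fun i hi => ?_
    rw [Finset.mem_range] at hi
    rw [map_mul, map_pow]
    rcases Nat.eq_zero_or_pos i with h0 | h0
    · subst h0
      simp only [pow_zero, sub_self, map_zero, zero_mul]
      have := w.nonneg (x - y)
      positivity
    · calc w (x ^ i - y ^ i) * w y ^ (k - 1 - i) ≤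
            (M ^ (i - 1) * w (x - y)) * M ^ (k - 1 - i) := by
            have := w.nonneg (x - y)
            gcongr
            exact pow_sub_le hna hx hy i
        _ = M ^ (k - 1) / M * w (x - y) := by
            have e2 : M ^ (k - 1) = M ^ (i - 1) * M ^ (k - 1 - i) * M := by
              rw [← pow_add, ← pow_succ]; congr 1; omega
            rw [e2]
            field_simp
  rw [e, map_mul]
  calc w (∑ i ∈ Finset.range k, (x ^ i - y ^ i) * y ^ (k - 1 - i)) * w (x - y) * M ≤
        (M ^ (k - 1) / M * w (x - y)) * w (x - y) * M := by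
        have := w.nonneg (x - y)
        gcongr
    _ = _ := by field_simp

/-- local isometry -/
lemma isom (hna : IsNonarchimedean w) (hmid : Mid w F 0) (hd2 : 2 ≤ F.natDegree) {M : ℝ}
    (hM0 : 0 < M) (hM : w F.leadingCoeff * M ^ (F.natDegree - 1) ≤ 1) {x y : L} (hx : w x ≤ M)
    (hy : w y ≤ M) (hxy : w (x - y) < M) (hder : 1 ≤ w (F.derivative.eval y)) :
    w (x - y) ≤ w (F.eval x - F.eval y) := by
  by_cases hne : x = y
  · rw [hne]; simp
  have hE : 0 < w (x - y) := w.pos (sub_ne_zero.2 hne)
  by_contra hcon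
  push Not at hcon
  have key : w (F.eval x - F.eval y - F.derivative.eval y * (x - y)) < w (x - y) := by
    have e : F.eval x - F.eval y - F.derivative.eval y * (x - y) =
        ∑ k ∈ Finset.range (F.natDegree + 1),
          F.coeff k * (x ^ k - y ^ k - (k : L) * y ^ (k - 1) * (x - y)) := by
      rw [derivative_eval, eval_eq_sum_range, eval_eq_sum_range, Polynomial.sum_over_range _ (by
        intro n; simp), ← Finset.sum_sub_distrib, Finset.sum_mul, ← Finset.sum_sub_distrib]
      exact Finset.sum_congr rfl fun k _ => by ring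
    rw [e]
    refine w_sum_lt hna _ _ _ hE fun k hk => ?_
    rw [Finset.mem_range] at hk
    rcases Nat.eq_zero_or_pos k with h0 | h0
    · subst h0
      simpa using hE
    · have h1 := taylor_pow hna hM0 hx hy k
      have h2 := dom_le hmid hd2 hM0.le (by rw [m10]; exact hM) k h0 (by omega)
      rw [m10] at h2
      rw [map_mul]
      have h3 : w (F.coeff k) * w (x ^ k - y ^ k - (k : L) * y ^ (k - 1) * (x - y)) * M <
          w (x - y) * M := by
        calc w (F.coeff k) * w (x ^ k - y ^ k - (k : L) * y ^ (k - 1) * (x - y)) * M =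
              w (F.coeff k) * (w (x ^ k - y ^ k - (k : L) * y ^ (k - 1) * (x - y)) * M) := by ring
          _ ≤ w (F.coeff k) * (M ^ (k - 1) * w (x - y) ^ 2) := by
              have := w.nonneg (F.coeff k)
              gcongr
          _ = (w (F.coeff k) * M ^ (k - 1)) * (w (x - y) * w (x - y)) := by ring
          _ ≤ 1 * (w (x - y) * w (x - y)) := by gcongr
          _ < w (x - y) * M := by rw [one_mul]; gcongr
      exact lt_of_mul_lt_mul_right h3 hM0.le
  have h4 : w (F.derivative.eval y * (x - y)) < w (x - y) := by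
    have e : F.derivative.eval y * (x - y) = (F.eval x - F.eval y) -
        (F.eval x - F.eval y - F.derivative.eval y * (x - y)) := by ring
    rw [e]
    exact lt_of_le_of_lt (w_sub_le hna _ _) (max_lt hcon key)
  rw [map_mul] at h4
  have h5 : 1 * w (x - y) ≤ w (F.derivative.eval y) * w (x - y) := by gcongr
  linarith

/-- The universal equation for the preperiodic points. -/
theorem tail_bound (hna : IsNonarchimedean w) [CharZero L] [Algebra ℚ L] [FiniteDimensional ℚ L]
    (N : ℕ) (hN : finrank ℚ L ≤ N) {p : ℕ} (hp : p.Prime) (hwp : w (p : L) < 1)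
    (hmid : Mid w F 0) (hd2 : 2 ≤ F.natDegree)
    (hder : ∀ y : L, w F.leadingCoeff * w y ^ (F.natDegree - 1) ≤ 1 →
      1 ≤ w (F.derivative.eval y)) {x : L} (hx : PP F x)
    (hsm : ∀ i : ℕ, w F.leadingCoeff * w ((fun y => F.eval y)^[i] x) ^ (F.natDegree - 1) ≤ 1) :
    ∃ n : ℕ, 0 < n ∧ (fun y => F.eval y)^[n] ((fun y => F.eval y)^[p ^ N] x) =
      (fun y => F.eval y)^[p ^ N] x := by
  classical
  set f : L → L := fun y => F.eval y with hf
  obtain ⟨s, n, hn, hper⟩ := hx.per
  -- an element of the orbit of the largest absolute value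
  obtain ⟨t0, -, ht0⟩ := Finset.exists_max_image (Finset.range (s + n)) (fun i => w (f^[i] x))
    ⟨0, by simp; omega⟩
  have hmax : ∀ i : ℕ, w (f^[i] x) ≤ w (f^[t0] x) := by
    intro i
    rcases lt_or_ge i (s + n) with h | h
    · exact ht0 i (Finset.mem_range.2 h)
    · have h1 : i = (s + (i - s) % n) + n * ((i - s) / n) := by
        have := Nat.mod_add_div (i - s) n
        omega
      rw [h1, hper _ (by omega)]
      apply ht0
      rw [Finset.mem_range]
      have := Nat.mod_lt (i - s) hn
      omega
  set M := w (f^[t0] x) with hM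
  rcases (w.nonneg (f^[t0] x)).lt_or_eq with hM0 | hM0
  swap
  · -- the orbit is zero
    have hz : ∀ i, f^[i] x = 0 := by
      intro i
      have h1 := hmax i
      rw [hM, ← hM0] at h1
      exact (map_eq_zero w).1 (le_antisymm h1 (w.nonneg _))
    refine ⟨1, one_pos, ?_⟩
    rw [← iterate_add_apply, hz, hz]
  have hMs := hsm t0
  -- two close members of the orbit
  have hpig : ∃ i j : ℕ, i < j ∧ j ≤ p ^ N ∧ w (f^[i] x - f^[j] x) < M := by
    by_contra hcon
    push Not at hcon
    let g : ℕ → L := fun i => f^[i] x / f^[t0] x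
    have hc0 : f^[t0] x ≠ 0 := by
      intro h
      rw [h, map_zero] at hM0
      exact lt_irrefl _ hM0
    have hg : ∀ i j : ℕ, i < j → j ≤ p ^ N → 1 ≤ w (g i - g j) := by
      intro i j hij hj
      have : g i - g j = (f^[i] x - f^[j] x) / f^[t0] x := by
        simp only [g]; field_simp
      rw [this, map_div₀, one_le_div hM0]
      exact hcon i j hij hj
    have hg' : ∀ i j : ℕ, i ≤ p ^ N → j ≤ p ^ N → i ≠ j → 1 ≤ w (g i - g j) := by
      intro i j hi hj hij
      rcases lt_or_gt_of_ne hij with h | h
      · exact hg i j h hj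
      · have := hg j i h hi
        rwa [← neg_sub, w_neg] at this
    have hinj : Set.InjOn g (Finset.range (p ^ N + 1) : Set ℕ) := by
      intro i hi j hj hij
      by_contra hne
      rw [Finset.mem_coe, Finset.mem_range] at hi hj
      have := hg' i j (by omega) (by omega) hne
      rw [hij, sub_self, map_zero] at this
      linarith
    have hcard := card_le_of_incongruent hna N hN p hp.one_lt.le
      ((Finset.range (p ^ N + 1)).image g) (by
        intro y hy
        obtain ⟨i, -, rfl⟩ := Finset.mem_image.1 hy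
        simp only [g]
        rw [map_div₀, div_le_one hM0]
        exact hmax i) (by
        intro y hy z hz hyz
        obtain ⟨i, hi, rfl⟩ := Finset.mem_image.1 hy
        obtain ⟨j, hj, rfl⟩ := Finset.mem_image.1 hz
        rw [Finset.mem_range] at hi hj
        refine lt_of_lt_of_le hwp (hg' i j (by omega) (by omega) ?_)
        rintro rfl
        exact hyz rfl)
    rw [Finset.card_image_of_injOn hinj, Finset.card_range] at hcard
    omega
  obtain ⟨i, j, hij, hjN, hclose⟩ := hpig
  have hne : ∀ a b : ℕ, w (f^[a + 1] x - f^[b + 1] x) ≤ w (f^[a] x - f^[b] x) := by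
    intro a b
    rw [iterate_succ_apply', iterate_succ_apply']
    exact small_diff hna hmid hd2 hMs (hmax a) (hmax b)
  have hcl1 : ∀ l : ℕ, w (f^[i + l] x - f^[j + l] x) < M := by
    intro l
    induction l with
    | zero => exact hclose
    | succ l ih => exact lt_of_le_of_lt (hne _ _) ih
  have hcl2 : ∀ r l : ℕ, w (f^[i + l] x - f^[i + l + (j - i) * r] x) < M := by
    intro r
    induction r with
    | zero => intro l; simp; exact hM0
    | succ r ih =>
      intro l
      have h1 := ih l
      have h2 := hcl1 (l + (j - i) * r)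
      have e1 : i + (l + (j - i) * r) = i + l + (j - i) * r := by ring
      have e2 : j + (l + (j - i) * r) = i + l + (j - i) * (r + 1) := by
        obtain ⟨q, rfl⟩ := Nat.exists_eq_add_of_lt hij
        rw [show i + q + 1 - i = q + 1 by omega]
        ring
      rw [e1, e2] at h2
      have e3 : f^[i + l] x - f^[i + l + (j - i) * (r + 1)] x =
          (f^[i + l] x - f^[i + l + (j - i) * r] x) +
            (f^[i + l + (j - i) * r] x - f^[i + l + (j - i) * (r + 1)] x) := by ring
      rw [e3]
      exact lt_of_le_of_lt (hna _ _) (max_lt h1 h2)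
  -- the differences at distance `T`
  set T := (j - i) * n with hT
  have hT0 : 0 < T := Nat.mul_pos (by omega) hn
  have hstep : ∀ l : ℕ, w (f^[i + l + T] x - f^[i + l] x) ≤
      w (f^[i + (l + 1) + T] x - f^[i + (l + 1)] x) := by
    intro l
    have e1 : i + (l + 1) + T = (i + l + T) + 1 := by ring
    have e2 : i + (l + 1) = (i + l) + 1 := by ring
    rw [e1, e2, iterate_succ_apply', iterate_succ_apply' f (i + l)]
    refine isom hna hmid hd2 hM0 hMs (hmax _) (hmax _) ?_ (hder _ (hsm _))
    have := hcl2 n l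
    rw [← w_neg, neg_sub] at this
    exact this
  have hmono : ∀ l : ℕ, w (f^[i + T] x - f^[i] x) ≤ w (f^[i + l + T] x - f^[i + l] x) := by
    intro l
    induction l with
    | zero => exact le_rfl
    | succ l ih => exact ih.trans (hstep l)
  have hfin := hmono s
  have e4 : f^[i + s + T] x = f^[i + s] x := by
    rw [hT, mul_comm (j - i) n]
    exact hper _ (by omega) _
  rw [e4, sub_self, map_zero] at hfin
  have h0 : f^[i + T] x = f^[i] x :=
    sub_eq_zero.1 ((map_eq_zero w).1 (le_antisymm hfin (w.nonneg _)))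
  refine ⟨T, hT0, ?_⟩
  obtain ⟨q, hq⟩ := Nat.exists_eq_add_of_le (show i ≤ p ^ N by omega)
  rw [← iterate_add_apply, hq, show T + (i + q) = q + (i + T) by ring, iterate_add_apply, h0,
    ← iterate_add_apply, add_comm q i]

/-- The universal period of the periodic points. -/
theorem per_bound (hna : IsNonarchimedean w) [CharZero L] [Algebra ℚ L] [FiniteDimensional ℚ L]
    (N : ℕ) (hN : finrank ℚ L ≤ N) {p : ℕ} (hp : p.Prime) (hwp : w (p : L) < 1)
    (hmid : Mid w F 0) (hd2 : 2 ≤ F.natDegree) {x : L} {n : ℕ} (hn : 0 < n)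
    (hx : (fun y => F.eval y)^[n] x = x)
    (hsm : ∀ i : ℕ, w F.leadingCoeff * w ((fun y => F.eval y)^[i] x) ^ (F.natDegree - 1) ≤ 1) :
    (fun y => F.eval y)^[per p N] x = x := by
  have hnz : NeZero n := ⟨hn.ne'⟩
  set f : L → L := fun y => F.eval y with hf
  have hP : IsPeriodicPt f n x := hx
  let y : ZMod n → L := fun t => f^[t.val] x
  have hy : ∀ i : ℕ, y (i : ZMod n) = f^[i] x := by
    intro i
    simp only [y]
    rw [ZMod.val_natCast, hP.iterate_mod_apply]
  have h := small_period hna N hN hp hwp hmid hd2 y (fun t => by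
    rw [zero_mul, add_zero]
    have e : t + 1 = ((t.val + 1 : ℕ) : ZMod n) := by
      push_cast
      rw [ZMod.natCast_zmod_val]
    rw [e, hy, iterate_succ_apply']) (fun t => by rw [m10]; exact hsm _)
  have h0 := h ((0 : ℕ) : ZMod n)
  rw [← Nat.cast_add, hy, hy, zero_add] at h0
  exact h0

end small

end Pool.Agent.Q195.HD
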