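import Pool.Agent.Q195.HD6
import Pool.Agent.Q195.HD7

/-!
# Preperiodic points of bounded degree of polynomials with dominated middle coefficients
-/

set_option autoImplicit false

namespace Pool.Agent.Q195.HD

open Module Polynomial Function

lemma count_roots {k : Type*} [Field k] (F : k[X]) {d : ℕ} (hd : 2 ≤ d) (hF : F.natDegree = d)
    (S : Finset k) (a b : ℕ) (hba : b < a)
    (hS : ∀ x ∈ S, (fun y => F.eval y)^[a] x = (fun y => F.eval y)^[b] x) : S.card ≤ d ^ a := by
  classical
  have hit : ∀ n : ℕ, ∀ x : k, (F.comp^[n] X).eval x = (fun y => F.eval y)^[n] x := by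
    intro n
    induction n with
    | zero => intro x; simp
    | succ n ih =>
      intro x
      rw [iterate_succ_apply', iterate_succ_apply', eval_comp, ih]
  have hdeg : ∀ n : ℕ, (F.comp^[n] X).natDegree = d ^ n := by
    intro n
    induction n with
    | zero => simp
    | succ n ih => rw [iterate_succ_apply', natDegree_comp, ih, hF, pow_succ, mul_comm]
  set Q : k[X] := F.comp^[a] X - F.comp^[b] X with hQ
  have hlt : (F.comp^[b] X).natDegree < (F.comp^[a] X).natDegree := by
    rw [hdeg, hdeg]
    exact Nat.pow_lt_pow_right (by omega) hba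
  have hQdeg : Q.natDegree = d ^ a := by
    rw [hQ, natDegree_sub_eq_left_of_natDegree_lt hlt, hdeg]
  have hQ0 : Q ≠ 0 := by
    intro h
    rw [h, natDegree_zero] at hQdeg
    have : 0 < d ^ a := pow_pos (by omega) a
    omega
  have hsub : S ⊆ Q.roots.toFinset := by
    intro x hx
    rw [Multiset.mem_toFinset, mem_roots hQ0, IsRoot.def, hQ, Polynomial.eval_sub, hit, hit, hS x hx, sub_self]
  calc S.card ≤ Q.roots.toFinset.card := Finset.card_le_card hsub
    _ ≤ Multiset.card Q.roots := Multiset.toFinset_card_le _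
    _ ≤ Q.natDegree := card_roots' _
    _ = d ^ a := hQdeg

section

variable (K Ω : Type) [Field K] [NumberField K] [Field Ω] [Algebra K Ω]

omit [NumberField K] in
lemma map_iter (L : IntermediateField K Ω) (F : K[X]) (x : L) (i : ℕ) :
    algebraMap L Ω ((fun y => (F.map (algebraMap K L)).eval y)^[i] x) =
      (fun y => (F.map (algebraMap K Ω)).eval y)^[i] (algebraMap L Ω x) := by
  induction i with
  | zero => rfl
  | succ i ih =>
    rw [iterate_succ_apply', iterate_succ_apply', ← ih]
    have : F.map (algebraMap K Ω) = (F.map (algebraMap K L)).map (algebraMap L Ω) := by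
      rw [Polynomial.map_map]; rfl
    simp only [this, eval_map, eval₂_at_apply]

end

section

variable {K Ω : Type} [Field K] [NumberField K] [Field Ω] [Algebra K Ω]

lemma PP_down (L : IntermediateField K Ω) (F : K[X]) (x : L)
    (h : PP (F.map (algebraMap K Ω)) (algebraMap L Ω x)) : PP (F.map (algebraMap K L)) x := by
  obtain ⟨s, t, hst, h⟩ := h
  refine ⟨s, t, hst, (algebraMap L Ω).injective ?_⟩
  rw [map_iter, map_iter]
  exact h

omit [NumberField K] in
lemma lead_down (L : IntermediateField K Ω) (F : K[X]) (w : AbsoluteValue Ω ℝ) :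
    res w (algebraMap L Ω) (F.map (algebraMap K L)).leadingCoeff =
      w (F.map (algebraMap K Ω)).leadingCoeff := by
  rw [res_apply, leadingCoeff_map, leadingCoeff_map]
  rfl

variable {D B d p : ℕ}

/-- the point of small height in the disc of the local filled Julia set -/
theorem glob_unique (hd : 2 ≤ d) (hp : p.Prime) (hpd : Nat.Coprime d p)
    (hcop : ∀ f, 1 ≤ f → f ≤ D * B ^ 2 → Nat.Coprime d (p ^ f - 1))
    (hK : finrank ℚ K ≤ D) [Algebra.IsAlgebraic K Ω] (w : AbsoluteValue Ω ℝ)
    (hna : IsNonarchimedean w) (hwp : w (p : Ω) < 1) (F : K[X]) (hF : F.natDegree = d)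
    (hmid : Mid w (F.map (algebraMap K Ω)) 0)
    (h0 : 1 < w (F.map (algebraMap K Ω)).leadingCoeff *
      w ((F.map (algebraMap K Ω)).eval 0) ^ (d - 1)) {x z : Ω}
    (hx : PP (F.map (algebraMap K Ω)) x) (hz : PP (F.map (algebraMap K Ω)) z)
    (hxB : finrank K (IntermediateField.adjoin K {x}) ≤ B)
    (hzB : finrank K (IntermediateField.adjoin K {z}) ≤ B) : x = z := by
  have hfd : ∀ x : Ω, FiniteDimensional K (IntermediateField.adjoin K ({x} : Set Ω)) := fun x =>
    IntermediateField.adjoin.finiteDimensional (Algebra.IsIntegral.isIntegral x)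
  let L : IntermediateField K Ω := IntermediateField.adjoin K ({x} : Set Ω) ⊔
    IntermediateField.adjoin K ({z} : Set Ω)
  have hLfd : FiniteDimensional K L := by
    have := hfd x
    have := hfd z
    infer_instance
  have hLQ : FiniteDimensional ℚ L := FiniteDimensional.trans ℚ K L
  have hLdeg : finrank ℚ L ≤ D * B ^ 2 := by
    rw [← Module.finrank_mul_finrank ℚ K L]
    refine Nat.mul_le_mul hK ?_
    calc finrank K L ≤ _ := IntermediateField.finrank_sup_le _ _
      _ ≤ B * B := Nat.mul_le_mul hxB hzB
      _ = B ^ 2 := (pow_two B).symm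
  have hxL : x ∈ L := (le_sup_left : _ ≤ L) (IntermediateField.subset_adjoin K _ (by simp))
  have hzL : z ∈ L := (le_sup_right : _ ≤ L) (IntermediateField.subset_adjoin K _ (by simp))
  have hFL : (F.map (algebraMap K L)).map (algebraMap L Ω) = F.map (algebraMap K Ω) := by
    rw [Polynomial.map_map]; rfl
  have hdegL : (F.map (algebraMap K L)).natDegree = d := by rw [natDegree_map, hF]
  have hmidL : Mid (res w (algebraMap L Ω)) (F.map (algebraMap K L)) 0 := by
    apply res_mid
    rw [hFL, map_zero]
    exact hmid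
  have hwpL : res w (algebraMap L Ω) (p : L) < 1 := by
    rw [res_apply, map_natCast]; exact hwp
  have hnaL := res_na (algebraMap L Ω) hna
  have h0L : 1 < res w (algebraMap L Ω) (F.map (algebraMap K L)).leadingCoeff *
      res w (algebraMap L Ω) ((F.map (algebraMap K L)).eval 0) ^
        ((F.map (algebraMap K L)).natDegree - 1) := by
    rw [lead_down, hdegL, res_apply]
    have e : algebraMap L Ω ((F.map (algebraMap K L)).eval 0) =
        (F.map (algebraMap K Ω)).eval 0 := by
      rw [← hFL, eval_map (algebraMap L Ω), ← map_zero (algebraMap L Ω), eval₂_at_apply]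
    rw [e]
    exact h0
  have := big_unique hnaL hmidL (by rw [hdegL]; exact hd)
    (w_coprime hnaL hwpL (by rw [hdegL]; exact hpd))
    (by
      rw [hdegL]
      exact one_root hnaL (D * B ^ 2) hLdeg hp hwpL d hcop) h0L
    (x := ⟨x, hxL⟩) (z := ⟨z, hzL⟩) (PP_down L F _ hx) (PP_down L F _ hz)
  exact congrArg Subtype.val this

/-- periodic points of bounded degree with a small orbit -/
theorem glob_per (hd : 2 ≤ d) (hp : p.Prime) (hK : finrank ℚ K ≤ D) [Algebra.IsAlgebraic K Ω]
    (w : AbsoluteValue Ω ℝ) (hna : IsNonarchimedean w) (hwp : w (p : Ω) < 1) (F : K[X])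
    (hF : F.natDegree = d) (hmid : Mid w (F.map (algebraMap K Ω)) 0) {x : Ω} {n : ℕ} (hn : 0 < n)
    (hx : (fun y => (F.map (algebraMap K Ω)).eval y)^[n] x = x)
    (hxB : finrank K (IntermediateField.adjoin K {x}) ≤ B)
    (hsm : ∀ i : ℕ, w (F.map (algebraMap K Ω)).leadingCoeff *
      w ((fun y => (F.map (algebraMap K Ω)).eval y)^[i] x) ^ (d - 1) ≤ 1) :
    (fun y => (F.map (algebraMap K Ω)).eval y)^[per p (D * B)] x = x := by
  let L : IntermediateField K Ω := IntermediateField.adjoin K ({x} : Set Ω)
  have hLfd : FiniteDimensional K L :=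
    IntermediateField.adjoin.finiteDimensional (Algebra.IsIntegral.isIntegral x)
  have hLQ : FiniteDimensional ℚ L := FiniteDimensional.trans ℚ K L
  have hLdeg : finrank ℚ L ≤ D * B := by
    rw [← Module.finrank_mul_finrank ℚ K L]
    exact Nat.mul_le_mul hK hxB
  have hxL : x ∈ L := IntermediateField.subset_adjoin K _ (by simp)
  have hFL : (F.map (algebraMap K L)).map (algebraMap L Ω) = F.map (algebraMap K Ω) := by
    rw [Polynomial.map_map]; rfl
  have hdegL : (F.map (algebraMap K L)).natDegree = d := by rw [natDegree_map, hF]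
  have hmidL : Mid (res w (algebraMap L Ω)) (F.map (algebraMap K L)) 0 := by
    apply res_mid
    rw [hFL, map_zero]
    exact hmid
  have := per_bound (res_na (algebraMap L Ω) hna) (D * B) hLdeg hp
    (by rw [res_apply, map_natCast]; exact hwp) hmidL (by rw [hdegL]; exact hd)
    (x := ⟨x, hxL⟩) hn (by
      apply (algebraMap L Ω).injective
      rw [map_iter]
      exact hx) (by
      intro i
      rw [lead_down, hdegL, res_apply, map_iter]
      exact hsm i)
  have h2 := congrArg (algebraMap L Ω) this
  rw [map_iter] at h2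
  exact h2

/-- preperiodic points of bounded degree with a small orbit -/
theorem glob_tail (hd : 2 ≤ d) (hp : p.Prime) (hK : finrank ℚ K ≤ D) [Algebra.IsAlgebraic K Ω]
    (w : AbsoluteValue Ω ℝ) (hna : IsNonarchimedean w) (hwp : w (p : Ω) < 1) (F : K[X])
    (hF : F.natDegree = d) (hmid : Mid w (F.map (algebraMap K Ω)) 0) {x : Ω}
    (hx : PP (F.map (algebraMap K Ω)) x)
    (hxB : finrank K (IntermediateField.adjoin K {x}) ≤ B)
    (hder : ∀ y : Ω, finrank K (IntermediateField.adjoin K {y}) ≤ B →
      w (F.map (algebraMap K Ω)).leadingCoeff * w y ^ (d - 1) ≤ 1 →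
      1 ≤ w ((F.map (algebraMap K Ω)).derivative.eval y))
    (hsm : ∀ i : ℕ, w (F.map (algebraMap K Ω)).leadingCoeff *
      w ((fun y => (F.map (algebraMap K Ω)).eval y)^[i] x) ^ (d - 1) ≤ 1) :
    (fun y => (F.map (algebraMap K Ω)).eval y)^[per p (D * B) + p ^ (D * B)] x =
      (fun y => (F.map (algebraMap K Ω)).eval y)^[p ^ (D * B)] x := by
  let L : IntermediateField K Ω := IntermediateField.adjoin K ({x} : Set Ω)
  have hLfd : FiniteDimensional K L :=
    IntermediateField.adjoin.finiteDimensional (Algebra.IsIntegral.isIntegral x)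
  have hLQ : FiniteDimensional ℚ L := FiniteDimensional.trans ℚ K L
  have hLdeg : finrank ℚ L ≤ D * B := by
    rw [← Module.finrank_mul_finrank ℚ K L]
    exact Nat.mul_le_mul hK hxB
  have hxL : x ∈ L := IntermediateField.subset_adjoin K _ (by simp)
  have hFL : (F.map (algebraMap K L)).map (algebraMap L Ω) = F.map (algebraMap K Ω) := by
    rw [Polynomial.map_map]; rfl
  have hdegL : (F.map (algebraMap K L)).natDegree = d := by rw [natDegree_map, hF]
  have hmidL : Mid (res w (algebraMap L Ω)) (F.map (algebraMap K L)) 0 := by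
    apply res_mid
    rw [hFL, map_zero]
    exact hmid
  have hnaL := res_na (algebraMap L Ω) hna
  have hwpL : res w (algebraMap L Ω) (p : L) < 1 := by
    rw [res_apply, map_natCast]; exact hwp
  have hder' : ∀ y : L, res w (algebraMap L Ω) (F.map (algebraMap K L)).leadingCoeff *
      res w (algebraMap L Ω) y ^ ((F.map (algebraMap K L)).natDegree - 1) ≤ 1 →
      1 ≤ res w (algebraMap L Ω) ((F.map (algebraMap K L)).derivative.eval y) := by
    intro y hy
    rw [lead_down, hdegL, res_apply] at hy
    rw [res_apply]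
    have e : algebraMap L Ω ((F.map (algebraMap K L)).derivative.eval y) =
        (F.map (algebraMap K Ω)).derivative.eval (algebraMap L Ω y) := by
      rw [← hFL, derivative_map (F.map (algebraMap K L)), eval_map (algebraMap L Ω),
        eval₂_at_apply]
    rw [e]
    refine hder _ ?_ hy
    have hle : IntermediateField.adjoin K {algebraMap L Ω y} ≤ L := by
      rw [IntermediateField.adjoin_le_iff, Set.singleton_subset_iff]
      exact y.2
    calc finrank K (IntermediateField.adjoin K {algebraMap L Ω y}) ≤ finrank K L :=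
          LinearMap.finrank_le_finrank_of_injective
            (f := (IntermediateField.inclusion hle).toLinearMap)
            (IntermediateField.inclusion hle).toRingHom.injective
      _ ≤ B := hxB
  have hsm' : ∀ i : ℕ, res w (algebraMap L Ω) (F.map (algebraMap K L)).leadingCoeff *
      res w (algebraMap L Ω) ((fun y => (F.map (algebraMap K L)).eval y)^[i] (⟨x, hxL⟩ : L)) ^
        ((F.map (algebraMap K L)).natDegree - 1) ≤ 1 := by
    intro i
    rw [lead_down, hdegL, res_apply, map_iter]
    exact hsm i
  obtain ⟨n, hn, h1⟩ := tail_bound hnaL (D * B) hLdeg hp hwpL hmidL (by rw [hdegL]; exact hd)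
    hder' (PP_down L F ⟨x, hxL⟩ hx) hsm'
  have h2 := per_bound hnaL (D * B) hLdeg hp hwpL hmidL (by rw [hdegL]; exact hd) hn h1
    (fun i => by rw [← iterate_add_apply]; exact hsm' _)
  rw [← iterate_add_apply] at h2
  have h3 := congrArg (algebraMap L Ω) h2
  rw [map_iter, map_iter] at h3
  exact h3

/-- **The bounds over an algebraic extension of a number field.** -/
theorem global1 (hd : 2 ≤ d) (hp : p.Prime) (hpd : Nat.Coprime d p)
    (hcop : ∀ f, 1 ≤ f → f ≤ D * B ^ 2 → Nat.Coprime d (p ^ f - 1))
    (hK : finrank ℚ K ≤ D) [Algebra.IsAlgebraic K Ω] (w : AbsoluteValue Ω ℝ)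
    (hna : IsNonarchimedean w) (hwp : w (p : Ω) < 1) (F : K[X]) (hF : F.natDegree = d)
    (hmid : Mid w (F.map (algebraMap K Ω)) 0) (S : Finset Ω)
    (hSB : ∀ x ∈ S, finrank K (IntermediateField.adjoin K {x}) ≤ B)
    (hS : (∀ x ∈ S, ∃ n : ℕ, 0 < n ∧ (fun y => (F.map (algebraMap K Ω)).eval y)^[n] x = x) ∨
      ((∀ x ∈ S, PP (F.map (algebraMap K Ω)) x) ∧
        ∀ y : Ω, finrank K (IntermediateField.adjoin K {y}) ≤ B →
          w (F.map (algebraMap K Ω)).leadingCoeff * w y ^ (d - 1) ≤ 1 →
          1 ≤ w ((F.map (algebraMap K Ω)).derivative.eval y))) :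
    S.card ≤ d ^ (per p (D * B) + p ^ (D * B)) := by
  classical
  have hdegΩ : (F.map (algebraMap K Ω)).natDegree = d := by rw [natDegree_map, hF]
  have hpp : ∀ x ∈ S, PP (F.map (algebraMap K Ω)) x := by
    rcases hS with hS | hS
    · intro x hx
      obtain ⟨n, hn, h⟩ := hS x hx
      exact ⟨0, n, hn, h.symm⟩
    · exact hS.1
  have hpow : 0 < d ^ (per p (D * B) + p ^ (D * B)) := pow_pos (by omega) _
  by_cases h0 : 1 < w (F.map (algebraMap K Ω)).leadingCoeff *
      w ((F.map (algebraMap K Ω)).eval 0) ^ (d - 1)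
  · have h1 : S.card ≤ 1 := by
      rw [Finset.card_le_one]
      intro a ha b hb
      exact glob_unique hd hp hpd hcop hK w hna hwp F hF hmid h0 (hpp a ha) (hpp b hb) (hSB a ha)
        (hSB b hb)
    omega
  · have hsm : ∀ x ∈ S, ∀ i : ℕ, w (F.map (algebraMap K Ω)).leadingCoeff *
        w ((fun y => (F.map (algebraMap K Ω)).eval y)^[i] x) ^ (d - 1) ≤ 1 := by
      intro x hx i
      by_contra hcon
      push Not at hcon
      have := (big_const hna hmid (by rw [hdegΩ]; exact hd) (by rw [hdegΩ]; exact hcon)
        ((hpp x hx).iter i)).2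
      rw [hdegΩ] at this
      exact h0 this
    have hq : 0 < p ^ (D * B) := pow_pos hp.pos _
    rcases hS with hS | hS
    · have := count_roots (F.map (algebraMap K Ω)) hd hdegΩ S (per p (D * B)) 0 (per_pos _ _) (by
        intro x hx
        obtain ⟨n, hn, h⟩ := hS x hx
        exact glob_per hd hp hK w hna hwp F hF hmid hn h (hSB x hx) (hsm x hx))
      exact this.trans (Nat.pow_le_pow_right (by omega) (by omega))
    · refine count_roots (F.map (algebraMap K Ω)) hd hdegΩ S _ (p ^ (D * B)) ?_ (fun x hx =>
        glob_tail hd hp hK w hna hwp F hF hmid (hpp x hx) (hSB x hx) hS.2 (hsm x hx))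
      have := per_pos p (D * B)
      omega

end

end Pool.Agent.Q195.HD
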