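import Pool.Agent.Q195.HR2

/-!
# Perturbed power maps in several variables with a large constant vector
-/

set_option autoImplicit false

namespace Pool.Agent.Q195.HP

open Module Function Pool.Agent.Q195.HD Pool.Agent.Q195.HR

variable {L : Type*} [Field L] {w : AbsoluteValue L ℝ} {ι : Type*} [Fintype ι]

/-- `|x_i^a - y_i^a| M ≤ M^a E` -/
lemma pow_diff (hna : IsNonarchimedean w) {M E : ℝ} (hM : 1 ≤ M) {x y : L} (hx : w x ≤ M)
    (hy : w y ≤ M) (hE : w (x - y) ≤ E) (a : ℕ) : w (x ^ a - y ^ a) * M ≤ M ^ a * E := by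
  have hE0 : 0 ≤ E := (w.nonneg _).trans hE
  rcases Nat.eq_zero_or_pos a with h0 | h0
  · subst h0
    simpa using hE0
  · calc w (x ^ a - y ^ a) * M ≤ (M ^ (a - 1) * w (x - y)) * M := by
          gcongr
          exact pow_sub_le hna hx hy a
      _ ≤ (M ^ (a - 1) * E) * M := by gcongr
      _ = M ^ (a - 1 + 1) * E := by rw [pow_succ]; ring
      _ = M ^ a * E := by rw [show a - 1 + 1 = a by omega]

lemma prod_le {M : ℝ} (hM : 1 ≤ M) (x : ι → L) (hx : ∀ i, w (x i) ≤ M) (a : ι → ℕ)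
    (s : Finset ι) : w (∏ i ∈ s, x i ^ a i) ≤ M ^ (∑ i ∈ s, a i) := by
  classical
  induction s using Finset.induction_on with
  | empty => simp
  | insert j s hj ih =>
    rw [Finset.prod_insert hj, Finset.sum_insert hj, map_mul, map_pow, pow_add]
    have := w.nonneg (∏ i ∈ s, x i ^ a i)
    have h1 : w (x j) ^ a j ≤ M ^ a j := pow_le_pow_left₀ (w.nonneg _) (hx j) _
    exact mul_le_mul h1 ih this (by positivity)

lemma prod_diff (hna : IsNonarchimedean w) {M E : ℝ} (hM : 1 ≤ M) (x y : ι → L)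
    (hx : ∀ i, w (x i) ≤ M) (hy : ∀ i, w (y i) ≤ M) (hE0 : 0 ≤ E)
    (hE : ∀ i, w (x i - y i) ≤ E) (a : ι → ℕ) (s : Finset ι) :
    w (∏ i ∈ s, x i ^ a i - ∏ i ∈ s, y i ^ a i) * M ≤ M ^ (∑ i ∈ s, a i) * E := by
  classical
  induction s using Finset.induction_on with
  | empty => simpa using hE0
  | insert j s hj ih =>
    rw [Finset.prod_insert hj, Finset.prod_insert hj, Finset.sum_insert hj]
    have e : x j ^ a j * ∏ i ∈ s, x i ^ a i - y j ^ a j * ∏ i ∈ s, y i ^ a i =
        (x j ^ a j - y j ^ a j) * ∏ i ∈ s, x i ^ a i +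
          y j ^ a j * (∏ i ∈ s, x i ^ a i - ∏ i ∈ s, y i ^ a i) := by ring
    rw [e]
    have hM0 : 0 < M := by linarith
    have h1 : w ((x j ^ a j - y j ^ a j) * ∏ i ∈ s, x i ^ a i) * M ≤
        M ^ (a j + ∑ i ∈ s, a i) * E := by
      rw [map_mul]
      calc w (x j ^ a j - y j ^ a j) * w (∏ i ∈ s, x i ^ a i) * M =
            (w (x j ^ a j - y j ^ a j) * M) * w (∏ i ∈ s, x i ^ a i) := by ring
        _ ≤ (M ^ a j * E) * M ^ (∑ i ∈ s, a i) := by
            refine mul_le_mul (pow_diff hna hM (hx j) (hy j) (hE j) _) (prod_le hM x hx a s)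
              (w.nonneg _) (by positivity)
        _ = _ := by rw [pow_add]; ring
    have h2 : w (y j ^ a j * (∏ i ∈ s, x i ^ a i - ∏ i ∈ s, y i ^ a i)) * M ≤
        M ^ (a j + ∑ i ∈ s, a i) * E := by
      rw [map_mul, map_pow]
      calc w (y j) ^ a j * w (∏ i ∈ s, x i ^ a i - ∏ i ∈ s, y i ^ a i) * M =
            w (y j) ^ a j * (w (∏ i ∈ s, x i ^ a i - ∏ i ∈ s, y i ^ a i) * M) := by ring
        _ ≤ M ^ a j * (M ^ (∑ i ∈ s, a i) * E) := by
            refine mul_le_mul (pow_le_pow_left₀ (w.nonneg _) (hy j) _) ih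
              (mul_nonneg (w.nonneg _) hM0.le) (by positivity)
        _ = _ := by rw [pow_add]; ring
    rcases le_max_iff.1 (hna ((x j ^ a j - y j ^ a j) * ∏ i ∈ s, x i ^ a i)
      (y j ^ a j * (∏ i ∈ s, x i ^ a i - ∏ i ∈ s, y i ^ a i))) with h | h
    · exact (mul_le_mul_of_nonneg_right h hM0.le).trans h1
    · exact (mul_le_mul_of_nonneg_right h hM0.le).trans h2

/-- a polynomial with integral coefficients, of degree at most `m` -/
def IntP (w : AbsoluteValue L ℝ) (m : ℕ) (F : MvPolynomial ι L) : Prop :=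
  F.totalDegree ≤ m ∧ ∀ a, w (F.coeff a) ≤ 1

omit [Fintype ι] in
lemma sum_le_deg [Fintype ι] {F : MvPolynomial ι L} {m : ℕ} (hF : F.totalDegree ≤ m) {a : ι →₀ ℕ}
    (ha : a ∈ F.support) : ∑ i, a i ≤ m := by
  have h := MvPolynomial.le_totalDegree ha
  rw [Finsupp.sum_fintype _ _ (fun _ => rfl)] at h
  exact h.trans hF

lemma IntP.le (hna : IsNonarchimedean w) {m : ℕ} {F : MvPolynomial ι L} (hF : IntP w m F) {M : ℝ}
    (hM : 1 ≤ M) (x : ι → L) (hx : ∀ i, w (x i) ≤ M) : w (MvPolynomial.eval x F) ≤ M ^ m := by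
  rw [MvPolynomial.eval_eq']
  refine w_sum_le hna _ _ _ (by positivity) fun a ha => ?_
  rw [map_mul]
  calc w (F.coeff a) * w (∏ i, x i ^ a i) ≤ 1 * M ^ (∑ i, a i) :=
        mul_le_mul (hF.2 a) (prod_le hM x hx _ _) (w.nonneg _) zero_le_one
    _ ≤ M ^ m := by
        rw [one_mul]
        exact pow_le_pow_right₀ hM (sum_le_deg hF.1 ha)

lemma IntP.diff (hna : IsNonarchimedean w) {m : ℕ} {F : MvPolynomial ι L} (hF : IntP w m F)
    {M E : ℝ} (hM : 1 ≤ M) (x y : ι → L) (hx : ∀ i, w (x i) ≤ M) (hy : ∀ i, w (y i) ≤ M)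
    (hE0 : 0 ≤ E) (hE : ∀ i, w (x i - y i) ≤ E) :
    w (MvPolynomial.eval x F - MvPolynomial.eval y F) * M ≤ M ^ m * E := by
  have hM0 : 0 < M := by linarith
  rw [← le_div_iff₀ hM0, MvPolynomial.eval_eq', MvPolynomial.eval_eq', ← Finset.sum_sub_distrib]
  refine w_sum_le hna _ _ _ (by positivity) fun a ha => ?_
  rw [← mul_sub, map_mul, le_div_iff₀ hM0]
  calc w (F.coeff a) * w (∏ i, x i ^ a i - ∏ i, y i ^ a i) * M =
        w (F.coeff a) * (w (∏ i, x i ^ a i - ∏ i, y i ^ a i) * M) := by ring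
    _ ≤ 1 * (M ^ (∑ i, a i) * E) :=
        mul_le_mul (hF.2 a) (prod_diff hna hM x y hx hy hE0 hE _ _)
          (mul_nonneg (w.nonneg _) hM0.le) zero_le_one
    _ ≤ M ^ m * E := by
        rw [one_mul]
        have := pow_le_pow_right₀ hM (sum_le_deg hF.1 ha)
        gcongr

/-- the map `A x^[d] + H(x) + c` -/
noncomputable def pmap (A : Matrix ι ι L) (d : ℕ) (H : ι → MvPolynomial ι L) (c : ι → L)
    (x : ι → L) : ι → L :=
  fun i => ∑ j, A i j * x j ^ d + MvPolynomial.eval x (H i) + c i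

/-- the hypotheses -/
structure Hyp (w : AbsoluteValue L ℝ) (A B : Matrix ι ι L) (d : ℕ) (H : ι → MvPolynomial ι L)
    (c : ι → L) (ρ : ℝ) : Prop where
  hd : 2 ≤ d
  iA : ∀ i j, w (A i j) ≤ 1
  iB : ∀ i j, w (B i j) ≤ 1
  inv : ∀ (y : ι → L) (i : ι), ∑ j, B i j * (∑ l, A j l * y l) = y i
  iH : ∀ i, IntP w (d - 1) (H i)
  ρ1 : 1 < ρ
  gen : ∀ i, w (∑ j, B i j * c j) = ρ

section main

variable {A B : Matrix ι ι L} {d : ℕ} {H : ι → MvPolynomial ι L} {c : ι → L} {ρ : ℝ}

/-- `B f(x)` -/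
noncomputable def gm (A B : Matrix ι ι L) (d : ℕ) (H : ι → MvPolynomial ι L) (c : ι → L)
    (x : ι → L) (i : ι) : L := ∑ j, B i j * pmap A d H c x j

lemma gm_eq (hH : Hyp w A B d H c ρ) (x : ι → L) (i : ι) : gm A B d H c x i =
    x i ^ d + (∑ j, B i j * MvPolynomial.eval x (H j)) + ∑ j, B i j * c j := by
  unfold gm pmap
  have h := hH.inv (fun l => x l ^ d) i
  rw [← h, ← Finset.sum_add_distrib, ← Finset.sum_add_distrib]
  exact Finset.sum_congr rfl fun j _ => by ring

lemma mat_le (hna : IsNonarchimedean w) {B : Matrix ι ι L} (iB : ∀ i j, w (B i j) ≤ 1)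
    (y : ι → L) {r : ℝ} (hr : 0 ≤ r) (hy : ∀ j, w (y j) ≤ r) (i : ι) :
    w (∑ j, B i j * y j) ≤ r := by
  refine w_sum_le hna _ _ _ hr fun j _ => ?_
  rw [map_mul]
  calc w (B i j) * w (y j) ≤ 1 * r := mul_le_mul (iB i j) (hy j) (w.nonneg _) zero_le_one
    _ = r := one_mul r

/-- the maximum norm -/
noncomputable def nm (w : AbsoluteValue L ℝ) [Nonempty ι] (x : ι → L) : ℝ :=
  Finset.univ.sup' Finset.univ_nonempty fun i => w (x i)

variable [Nonempty ι]

lemma le_nm (x : ι → L) (i : ι) : w (x i) ≤ nm w x :=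
  Finset.le_sup' (fun i => w (x i)) (Finset.mem_univ i)

lemma nm_le {x : ι → L} {r : ℝ} (h : ∀ i, w (x i) ≤ r) : nm w x ≤ r :=
  Finset.sup'_le _ _ fun i _ => h i

lemma exists_nm (x : ι → L) : ∃ i, w (x i) = nm w x := by
  obtain ⟨i, -, hi⟩ := Finset.exists_mem_eq_sup' (Finset.univ_nonempty (α := ι)) fun i => w (x i)
  exact ⟨i, hi.symm⟩

lemma nm_nonneg (x : ι → L) : 0 ≤ nm w x := (w.nonneg _).trans (le_nm x (Classical.arbitrary ι))

/-- `B` preserves the norm -/
lemma nm_gm (hna : IsNonarchimedean w) (hH : Hyp w A B d H c ρ) (x : ι → L) (i : ι) :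
    w (gm A B d H c x i) ≤ nm w (pmap A d H c x) :=
  mat_le hna hH.iB _ (nm_nonneg _) (fun j => le_nm _ j) i

lemma nm_gm_sub (hna : IsNonarchimedean w) (hH : Hyp w A B d H c ρ) (x y : ι → L) (i : ι) :
    w (gm A B d H c x i - gm A B d H c y i) ≤
      nm w (fun j => pmap A d H c x j - pmap A d H c y j) := by
  unfold gm
  rw [← Finset.sum_sub_distrib]
  have := mat_le hna hH.iB (fun j => pmap A d H c x j - pmap A d H c y j) (nm_nonneg _)
    (fun j => le_nm (w := w) (fun j => pmap A d H c x j - pmap A d H c y j) j) i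
  simpa only [mul_sub] using this

lemma rest_le (hna : IsNonarchimedean w) (hH : Hyp w A B d H c ρ) {M : ℝ} (hM : 1 ≤ M)
    (x : ι → L) (hx : ∀ i, w (x i) ≤ M) (i : ι) :
    w (∑ j, B i j * MvPolynomial.eval x (H j)) ≤ M ^ (d - 1) :=
  mat_le hna hH.iB _ (by positivity) (fun j => (hH.iH j).le hna hM x hx) i

/-- lower bounds for the norm of the image -/
lemma grow_big (hna : IsNonarchimedean w) (hH : Hyp w A B d H c ρ) {x : ι → L}
    (h1 : 1 < nm w x) (h2 : ρ < nm w x ^ d) : nm w x < nm w (pmap A d H c x) := by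
  obtain ⟨i, hi⟩ := exists_nm (w := w) x
  refine lt_of_lt_of_le ?_ (nm_gm hna hH x i)
  have hd := hH.hd
  have hlow : nm w x < nm w x ^ d := by
    calc nm w x = nm w x ^ 1 := (pow_one _).symm
      _ < nm w x ^ d := pow_lt_pow_right₀ h1 (by omega)
  have hr := rest_le hna hH h1.le x (fun i => le_nm x i) i
  have hr' : nm w x ^ (d - 1) < nm w x ^ d := pow_lt_pow_right₀ h1 (by omega)
  have e : w (gm A B d H c x i) = nm w x ^ d := by
    rw [gm_eq hH, add_assoc, add_comm, ← hi, ← map_pow]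
    apply w_add_eq hna
    rw [map_pow, hi]
    refine lt_of_le_of_lt (hna _ _) (max_lt (lt_of_le_of_lt hr hr') ?_)
    rw [hH.gen]
    exact h2
  rw [e]
  exact hlow

lemma esc_big (hna : IsNonarchimedean w) (hH : Hyp w A B d H c ρ) {x : ι → L}
    (h1 : 1 < nm w x) (h2 : ρ < nm w x ^ d) : ¬ PF (pmap A d H c) x := by
  intro h
  have key : ∀ i : ℕ, 1 < nm w ((pmap A d H c)^[i] x) ∧ ρ < nm w ((pmap A d H c)^[i] x) ^ d := by
    intro i
    induction i with
    | zero => exact ⟨h1, h2⟩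
    | succ i ih =>
      rw [iterate_succ_apply']
      have h3 := grow_big hna hH ih.1 ih.2
      refine ⟨ih.1.trans h3, ih.2.trans_le ?_⟩
      exact pow_le_pow_left₀ (nm_nonneg _) h3.le _
  refine h.not_grow (nm w) fun i => ?_
  rw [iterate_succ_apply']
  exact grow_big hna hH (key i).1 (key i).2

lemma esc_low (hna : IsNonarchimedean w) (hH : Hyp w A B d H c ρ) {x : ι → L}
    (h2 : nm w x ^ d < ρ) : ¬ PF (pmap A d H c) x := by
  intro h
  have hd := hH.hd
  have hρ := hH.ρ1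
  set i : ι := Classical.arbitrary ι
  have hM : 1 ≤ max 1 (nm w x) := le_max_left _ _
  have hr := rest_le hna hH hM x (fun i => (le_nm x i).trans (le_max_right _ _)) i
  have hr2 : max 1 (nm w x) ^ (d - 1) < ρ := by
    rcases le_total 1 (nm w x) with h3 | h3
    · rw [max_eq_right h3]
      exact lt_of_le_of_lt (pow_le_pow_right₀ h3 (by omega)) h2
    · rw [max_eq_left h3, one_pow]; exact hρ
  have e : w (gm A B d H c x i) = ρ := by
    rw [gm_eq hH, ← hH.gen i]
    apply w_add_eq hna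
    rw [hH.gen]
    refine lt_of_le_of_lt (hna _ _) (max_lt ?_ (lt_of_le_of_lt hr hr2))
    rw [map_pow]
    exact lt_of_le_of_lt (pow_le_pow_left₀ (w.nonneg _) (le_nm x i) _) h2
  have h3 : ρ ≤ nm w (pmap A d H c x) := by rw [← e]; exact nm_gm hna hH x i
  refine esc_big hna hH (x := pmap A d H c x) (lt_of_lt_of_le hρ h3) ?_ h.succ
  calc ρ = ρ ^ 1 := (pow_one _).symm
    _ < ρ ^ d := pow_lt_pow_right₀ hρ (by omega)
    _ ≤ _ := pow_le_pow_left₀ (by linarith) h3 _

lemma sphere (hna : IsNonarchimedean w) (hH : Hyp w A B d H c ρ) {x : ι → L}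
    (h : PF (pmap A d H c) x) : 1 < nm w x ∧ nm w x ^ d = ρ := by
  have hρ := hH.ρ1
  rcases lt_trichotomy (nm w x ^ d) ρ with h2 | h2 | h2
  · exact absurd h (esc_low hna hH h2)
  · refine ⟨?_, h2⟩
    by_contra hcon
    push Not at hcon
    have := pow_le_one₀ (n := d) (nm_nonneg x) hcon
    linarith
  · have h1 : 1 < nm w x := by
      by_contra hcon
      push Not at hcon
      have := pow_le_one₀ (n := d) (nm_nonneg x) hcon
      linarith
    exact absurd h (esc_big hna hH h1 h2)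

/-- expansion on the sphere -/
lemma expand (hna : IsNonarchimedean w) [CharZero L] [Algebra ℚ L] [FiniteDimensional ℚ L]
    (N : ℕ) (hN : finrank ℚ L ≤ N) {p : ℕ} (hp : p.Prime) (hwp : w (p : L) < 1)
    (hdp : Nat.Coprime d p) (hcop : ∀ f, 1 ≤ f → f ≤ N → Nat.Coprime d (p ^ f - 1))
    (hH : Hyp w A B d H c ρ) {r : ℝ} (hr : 1 < r) (hrρ : r ^ d = ρ) {x y : ι → L}
    (hx : nm w x = r) (hy : nm w y = r) (hfx : nm w (pmap A d H c x) ≤ r)
    (hfy : nm w (pmap A d H c y) ≤ r) (hne : x ≠ y) :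
    nm w (fun i => x i - y i) < nm w (fun i => pmap A d H c x i - pmap A d H c y i) := by
  have hd := hH.hd
  have hr0 : 0 < r := by linarith
  -- all coordinates have the same absolute value
  have hbal : ∀ z : ι → L, nm w z = r → nm w (pmap A d H c z) ≤ r → ∀ i,
      w (z i ^ d + ∑ j, B i j * c j) < r ^ d := by
    intro z hz hfz i
    have h1 : w (gm A B d H c z i) < r ^ d := by
      refine lt_of_le_of_lt ((nm_gm hna hH z i).trans hfz) ?_
      calc r = r ^ 1 := (pow_one _).symm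
        _ < r ^ d := pow_lt_pow_right₀ hr (by omega)
    have h2 : w (∑ j, B i j * MvPolynomial.eval z (H j)) < r ^ d := by
      refine lt_of_le_of_lt (rest_le hna hH hr.le z (fun i => by rw [← hz]; exact le_nm z i) i) ?_
      exact pow_lt_pow_right₀ hr (by omega)
    have e : z i ^ d + ∑ j, B i j * c j =
        gm A B d H c z i - ∑ j, B i j * MvPolynomial.eval z (H j) := by
      rw [gm_eq hH]; ring
    rw [e]
    exact lt_of_le_of_lt (w_sub_le hna _ _) (max_lt h1 h2)
  have habs : ∀ z : ι → L, nm w z = r → nm w (pmap A d H c z) ≤ r → ∀ i, w (z i) = r := by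
    intro z hz hfz i
    have h1 := hbal z hz hfz i
    have h2 : w (z i ^ d) = r ^ d := by
      have e : z i ^ d = (z i ^ d + ∑ j, B i j * c j) + -(∑ j, B i j * c j) := by ring
      have h3 : w (-(∑ j, B i j * c j)) = r ^ d := by rw [w_neg, hH.gen, hrρ]
      rw [e, w_add_eq hna (by rw [h3]; exact h1), h3]
    rw [map_pow] at h2
    exact (pow_left_inj₀ (w.nonneg _) hr0.le (by omega)).1 h2
  have hxi := habs x hx hfx
  have hyi := habs y hy hfy
  have hclose : ∀ i, w (x i - y i) < r := by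
    intro i
    have hy0 : y i ≠ 0 := by
      intro h
      have := hyi i
      rw [h, map_zero] at this
      linarith
    have h1 : w ((x i / y i) ^ d - 1) < 1 := by
      have e : (x i / y i) ^ d - 1 = (x i ^ d - y i ^ d) / y i ^ d := by
        rw [div_pow, sub_div, div_self (pow_ne_zero d hy0)]
      rw [e, map_div₀, map_pow, hyi, div_lt_one (by positivity)]
      have e2 : x i ^ d - y i ^ d =
          (x i ^ d + ∑ j, B i j * c j) - (y i ^ d + ∑ j, B i j * c j) := by ring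
      rw [e2]
      exact lt_of_le_of_lt (w_sub_le hna _ _) (max_lt (hbal x hx hfx i) (hbal y hy hfy i))
    have h2 := one_root hna N hN hp hwp d hcop (x i / y i) (by
      rw [map_div₀, hxi, hyi, div_self hr0.ne']) h1
    have e : x i / y i - 1 = (x i - y i) / y i := by field_simp
    rw [e, map_div₀, hyi, div_lt_one hr0] at h2
    exact h2
  have hwd : w (d : L) = 1 := w_coprime hna hwp hdp
  obtain ⟨i, hi⟩ := exists_nm (w := w) (fun i => x i - y i)
  set E := nm w (fun i => x i - y i) with hE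
  have hE0 : 0 < E := by
    rcases (nm_nonneg (w := w) (fun i => x i - y i)).lt_or_eq with h | h
    · exact h
    · exfalso
      apply hne
      funext j
      have h1 : w (x j - y j) ≤ E := le_nm (w := w) (fun i => x i - y i) j
      rw [hE, ← h] at h1
      exact sub_eq_zero.1 ((map_eq_zero w).1 (le_antisymm h1 (w.nonneg _)))
  refine lt_of_lt_of_le ?_ (nm_gm_sub hna hH x y i)
  have e : gm A B d H c x i - gm A B d H c y i =
      (∑ j, B i j * (MvPolynomial.eval x (H j) - MvPolynomial.eval y (H j))) +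
        (x i ^ d - y i ^ d) := by
    rw [gm_eq hH, gm_eq hH]
    simp only [mul_sub, Finset.sum_sub_distrib]
    ring
  have h1 : w (x i ^ d - y i ^ d) = r ^ (d - 1) * E := by
    rw [pow_sub_eq hna hr0 (hxi i) (hyi i) (hclose i) d (by omega) hwd, ← hi]
  have h2 : w (∑ j, B i j * (MvPolynomial.eval x (H j) - MvPolynomial.eval y (H j))) <
      r ^ (d - 1) * E := by
    have h3 : w (∑ j, B i j * (MvPolynomial.eval x (H j) - MvPolynomial.eval y (H j))) ≤
        r ^ (d - 1) * E / r := by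
      refine mat_le hna hH.iB _ (by positivity) (fun j => ?_) i
      rw [le_div_iff₀ hr0]
      exact (hH.iH j).diff hna hr.le x y (fun i => (hxi i).le) (fun i => (hyi i).le) hE0.le
        (fun i => le_nm (w := w) (fun i => x i - y i) i)
    refine lt_of_le_of_lt h3 ?_
    rw [div_lt_iff₀ hr0]
    have : 0 < r ^ (d - 1) * E := by positivity
    nlinarith
  rw [e, w_add_eq hna (by rw [h1]; exact h2), h1]
  have h4 : 1 < r ^ (d - 1) := one_lt_pow₀ hr (by omega)
  nlinarith

/-- **At most one preperiodic point.** -/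
theorem unique (hna : IsNonarchimedean w) [CharZero L] [Algebra ℚ L] [FiniteDimensional ℚ L]
    (N : ℕ) (hN : finrank ℚ L ≤ N) {p : ℕ} (hp : p.Prime) (hwp : w (p : L) < 1)
    (hdp : Nat.Coprime d p) (hcop : ∀ f, 1 ≤ f → f ≤ N → Nat.Coprime d (p ^ f - 1))
    (hH : Hyp w A B d H c ρ) {x y : ι → L} (hx : PF (pmap A d H c) x)
    (hy : PF (pmap A d H c) y) : x = y := by
  by_contra hne
  obtain ⟨hx1, hxk⟩ := sphere hna hH hx
  have hd := hH.hd
  have hrad : ∀ z, PF (pmap A d H c) z → nm w z = nm w x := by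
    intro z hz
    have h1 := sphere hna hH hz
    exact (pow_left_inj₀ (nm_nonneg _) (nm_nonneg _) (by omega)).1 (h1.2.trans hxk.symm)
  set f := pmap A d H c with hf
  have hexp : ∀ a b, PF f a → PF f b → a ≠ b →
      nm w (fun i => a i - b i) < nm w (fun i => f a i - f b i) := by
    intro a b ha hb hab
    exact expand hna N hN hp hwp hdp hcop hH hx1 hxk (hrad a ha) (hrad b hb)
      (hrad _ ha.succ).le (hrad _ hb.succ).le hab
  have hnei : ∀ i : ℕ, f^[i] x ≠ f^[i] y := by
    intro i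
    induction i with
    | zero => exact hne
    | succ i ih =>
      intro h
      rw [iterate_succ_apply', iterate_succ_apply'] at h
      have h1 := hexp _ _ (hx.iter i) (hy.iter i) ih
      rw [h] at h1
      have h2 : nm w (fun j => f (f^[i] y) j - f (f^[i] y) j) ≤ 0 := nm_le fun j => by simp
      have h3 := nm_nonneg (w := w) (fun j => (f^[i] x) j - (f^[i] y) j)
      linarith
  obtain ⟨s1, n1, hn1, h1⟩ := hx.per
  obtain ⟨s2, n2, hn2, h2⟩ := hy.per
  have hmono : StrictMono fun i : ℕ => nm w (fun j => (f^[i] x) j - (f^[i] y) j) := by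
    apply strictMono_nat_of_lt_succ
    intro i
    rw [iterate_succ_apply', iterate_succ_apply']
    exact hexp _ _ (hx.iter i) (hy.iter i) (hnei i)
  have h3 := hmono (show s1 + s2 < s1 + s2 + n1 * n2 by
    have := Nat.mul_pos hn1 hn2
    omega)
  simp only at h3
  rw [h1 (s1 + s2) (by omega) n2] at h3
  rw [mul_comm n1 n2, h2 (s1 + s2) (by omega) n1] at h3
  exact lt_irrefl _ h3

end main

end Pool.Agent.Q195.HP
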