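import Pool.Agent.Q195.HP1
import Pool.Agent.Q195.HD6

/-!
# Descent of the preperiodic points of bounded degree to a number field
-/

set_option autoImplicit false

namespace Pool.Agent.Q195.HP

open Module Function Pool.Agent.Q195.HD Pool.Agent.Q195.HR

variable {ι : Type} [Fintype ι]

lemma pmap_map {L Ω : Type} [Field L] [Field Ω] (φ : L →+* Ω) (A : Matrix ι ι L) (d : ℕ)
    (H : ι → MvPolynomial ι L) (c : ι → L) (x : ι → L) :
    pmap (A.map φ) d (fun i => MvPolynomial.map φ (H i)) (fun i => φ (c i)) (fun i => φ (x i)) =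
      fun i => φ (pmap A d H c x i) := by
  funext i
  unfold pmap
  rw [map_add, map_add, map_sum, MvPolynomial.eval_map]
  have e : MvPolynomial.eval₂ φ (fun i => φ (x i)) (H i) = φ (MvPolynomial.eval x (H i)) := by
    have h := MvPolynomial.eval₂_comp_left φ (RingHom.id L) x (H i)
    rw [RingHom.comp_id] at h
    exact h.symm
  rw [e]
  congr 2
  exact Finset.sum_congr rfl fun j _ => by rw [map_mul, map_pow, Matrix.map_apply]

lemma iter_map {L Ω : Type} [Field L] [Field Ω] (φ : L →+* Ω) (A : Matrix ι ι L) (d : ℕ)
    (H : ι → MvPolynomial ι L) (c : ι → L) (x : ι → L) (n : ℕ) :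
    (pmap (A.map φ) d (fun i => MvPolynomial.map φ (H i)) (fun i => φ (c i)))^[n]
      (fun i => φ (x i)) = fun i => φ ((pmap A d H c)^[n] x i) := by
  induction n with
  | zero => rfl
  | succ n ih => rw [iterate_succ_apply', ih, pmap_map, iterate_succ_apply']

/-- The theorem over an algebraic extension of a number field. -/
theorem global {K Ω : Type} [Field K] [NumberField K] [Field Ω] [Algebra K Ω]
    [Algebra.IsAlgebraic K Ω] [Nonempty ι] [DecidableEq ι] {D B d p : ℕ} (hp : p.Prime) (hdp : Nat.Coprime d p)
    (hcop : ∀ f, 1 ≤ f → f ≤ D * B ^ 2 → Nat.Coprime d (p ^ f - 1)) (hK : finrank ℚ K ≤ D)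
    (w : AbsoluteValue Ω ℝ) (hna : IsNonarchimedean w) (hwp : w (p : Ω) < 1)
    (A A' : Matrix ι ι K) (H : ι → MvPolynomial ι K) (c : ι → K) {ρ : ℝ}
    (hd : 2 ≤ d) (hA : ∀ i j, w (algebraMap K Ω (A i j)) ≤ 1)
    (hA' : ∀ i j, w (algebraMap K Ω (A' i j)) ≤ 1) (hAA : A' * A = 1)
    (hH : ∀ i, (H i).totalDegree ≤ d - 1)
    (hHi : ∀ i a, w (algebraMap K Ω ((H i).coeff a)) ≤ 1) (hρ : 1 < ρ)
    (hc : ∀ i, w (algebraMap K Ω (∑ j, A' i j * c j)) = ρ) {x y : ι → Ω}
    (hx : PF (pmap (A.map (algebraMap K Ω)) d (fun i => MvPolynomial.map (algebraMap K Ω) (H i))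
      (fun i => algebraMap K Ω (c i))) x)
    (hy : PF (pmap (A.map (algebraMap K Ω)) d (fun i => MvPolynomial.map (algebraMap K Ω) (H i))
      (fun i => algebraMap K Ω (c i))) y)
    (hxB : finrank K (IntermediateField.adjoin K (Set.range x)) ≤ B)
    (hyB : finrank K (IntermediateField.adjoin K (Set.range y)) ≤ B) : x = y := by
  have hfd : ∀ x : ι → Ω, FiniteDimensional K (IntermediateField.adjoin K (Set.range x)) := by
    intro x
    have : Finite (Set.range x) := Set.finite_range x
    exact IntermediateField.finiteDimensional_adjoin fun z _ => Algebra.IsIntegral.isIntegral z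
  let L : IntermediateField K Ω := IntermediateField.adjoin K (Set.range x) ⊔
    IntermediateField.adjoin K (Set.range y)
  have hLfd : FiniteDimensional K L := by
    have := hfd x
    have := hfd y
    infer_instance
  have hLQ : FiniteDimensional ℚ L := FiniteDimensional.trans ℚ K L
  have hLdeg : finrank ℚ L ≤ D * B ^ 2 := by
    rw [← Module.finrank_mul_finrank ℚ K L]
    refine Nat.mul_le_mul hK ?_
    calc finrank K L ≤ _ := IntermediateField.finrank_sup_le _ _
      _ ≤ B * B := Nat.mul_le_mul hxB hyB
      _ = B ^ 2 := (pow_two B).symm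
  have hxL : ∀ i, x i ∈ L := fun i => (le_sup_left : _ ≤ L)
    (IntermediateField.subset_adjoin K _ (Set.mem_range_self i))
  have hyL : ∀ i, y i ∈ L := fun i => (le_sup_right : _ ≤ L)
    (IntermediateField.subset_adjoin K _ (Set.mem_range_self i))
  set φ : L →+* Ω := algebraMap L Ω with hφ
  let AL : Matrix ι ι L := A.map (algebraMap K L)
  let BL : Matrix ι ι L := A'.map (algebraMap K L)
  let HL : ι → MvPolynomial ι L := fun i => MvPolynomial.map (algebraMap K L) (H i)
  let cL : ι → L := fun i => algebraMap K L (c i)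
  have hcomp : ∀ a : K, φ (algebraMap K L a) = algebraMap K Ω a := fun a => rfl
  have hres : ∀ a : K, res w φ (algebraMap K L a) = w (algebraMap K Ω a) := fun a => rfl
  have eA : AL.map φ = A.map (algebraMap K Ω) := by
    ext i j
    simp only [AL, Matrix.map_apply, hcomp]
  have eH : (fun i => MvPolynomial.map φ (HL i)) =
      fun i => MvPolynomial.map (algebraMap K Ω) (H i) := by
    funext i
    simp only [HL]
    rw [MvPolynomial.map_map]
    rfl
  have ec : (fun i => φ (cL i)) = fun i => algebraMap K Ω (c i) := rfl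
  have hdown : ∀ z : ι → L, PF (pmap (A.map (algebraMap K Ω)) d
      (fun i => MvPolynomial.map (algebraMap K Ω) (H i)) (fun i => algebraMap K Ω (c i)))
      (fun i => φ (z i)) → PF (pmap AL d HL cL) z := by
    rintro z ⟨s, t, hst, h⟩
    refine ⟨s, t, hst, ?_⟩
    rw [← eA, ← eH, ← ec, iter_map, iter_map] at h
    funext i
    exact φ.injective (congrFun h i)
  have hHyp : Hyp (res w φ) AL BL d HL cL ρ :=
    { hd := hd
      iA := fun i j => by
        show res w φ (algebraMap K L (A i j)) ≤ 1
        rw [hres]; exact hA i j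
      iB := fun i j => by
        show res w φ (algebraMap K L (A' i j)) ≤ 1
        rw [hres]; exact hA' i j
      inv := by
        intro y i
        have h1 : BL * AL = 1 := by
          have := congrArg (fun M : Matrix ι ι K => M.map (algebraMap K L)) hAA
          simp only [Matrix.map_mul] at this
          rw [Matrix.map_one _ (map_zero _) (map_one _)] at this
          exact this
        have h2 : BL.mulVec (AL.mulVec y) = y := by
          rw [Matrix.mulVec_mulVec, h1, Matrix.one_mulVec]
        exact congrFun h2 i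
      iH := fun i => by
        refine ⟨(Finset.sup_mono (MvPolynomial.support_map_subset _ _)).trans (hH i),
          fun a => ?_⟩
        simp only [HL]
        rw [MvPolynomial.coeff_map, hres]
        exact hHi i a
      ρ1 := hρ
      gen := fun i => by
        have : ∑ j, BL i j * cL j = algebraMap K L (∑ j, A' i j * c j) := by
          rw [map_sum]
          exact Finset.sum_congr rfl fun j _ => by rw [map_mul]; rfl
        rw [this, hres]
        exact hc i }
  have := unique (res_na φ hna) (D * B ^ 2) hLdeg hp (by rw [res_apply, map_natCast]; exact hwp)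
    hdp hcop hHyp (x := fun i => ⟨x i, hxL i⟩) (y := fun i => ⟨y i, hyL i⟩)
    (hdown _ hx) (hdown _ hy)
  funext i
  exact congrArg Subtype.val (congrFun this i)

end Pool.Agent.Q195.HP
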