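import Pool.Agent.Q195.HD5

/-!
# The period of an integral sequence generated by a rational function
-/

set_option autoImplicit false

namespace Pool.Agent.Q195.HR

open Module Polynomial Pool.Agent.Q195.HD

variable {L : Type*} [Field L] {w : AbsoluteValue L ℝ}

/-- The main step: two period shifts. -/
theorem no_prime_shift1 [CharZero L] (hna : IsNonarchimedean w) {p : ℕ} (hp : p.Prime)
    (hwp : w (p : L) < 1) [Finite (OO w hna ⧸ Ideal.span {((p ^ 2 : ℕ) : OO w hna)})] (c : ℕ)
    (hc : Nat.card (OO w hna ⧸ Ideal.span {((p ^ 2 : ℕ) : OO w hna)}) ≤ c)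
    {n : ℕ} [NeZero n] (u D : ZMod n → OO w hna)
    (hA : ∀ s t, w ((u (s + 1) : L) - u (t + 1)) ≤ w ((u s : L) - u t))
    (hB : ∀ s t, w ((D s : L) - D t) ≤ w ((u s : L) - u t))
    (hC : ∀ s t, w ((u (s + 1) : L) - u (t + 1) - D t * (u s - u t)) ≤ w ((u s : L) - u t) ^ 2)
    (j ℓ : ℕ) (hℓ : ℓ.Prime)
    (hper : ∀ t, u (t + (ℓ : ZMod n) * ((c.factorial * c.factorial * j : ℕ) : ZMod n)) = u t) :
    ∀ t, u (t + ((c.factorial * c.factorial * j : ℕ) : ZMod n)) = u t := by
  classical
  set S := OO w hna ⧸ Ideal.span {((p ^ 2 : ℕ) : OO w hna)} with hS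
  let π : OO w hna →+* S := Ideal.Quotient.mk _
  have hp0 : (((p ^ 2 : ℕ) : OO w hna) : L) ≠ 0 := by
    push_cast
    exact pow_ne_zero 2 (by exact_mod_cast hp.ne_zero)
  have hwp0 : 0 < w (p : L) := w.pos (by exact_mod_cast hp.ne_zero)
  have hπ : ∀ a b : OO w hna, π a = π b ↔ w ((a : L) - b) ≤ w (p : L) ^ 2 := by
    intro a b
    show Ideal.Quotient.mk _ a = Ideal.Quotient.mk _ b ↔ _
    rw [Ideal.Quotient.eq, mem_span_iff hna _ hp0]
    push_cast
    rw [map_pow]
  set m0 := c.factorial with hm0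
  -- first step: congruence of the sequence
  let φ : S → S := fun x => if h : ∃ s, π (u s) = x then π (u (h.choose + 1)) else x
  have hφ : ∀ t, π (u (t + 1)) = φ (π (u t)) := by
    intro t
    have h : ∃ s, π (u s) = π (u t) := ⟨t, rfl⟩
    show _ = dite _ _ _
    rw [dif_pos h, hπ]
    refine (hA _ _).trans ?_
    have := (hπ _ _).1 h.choose_spec
    rwa [← w_neg, neg_sub]
  have h1 : ∀ t, π (u (t + (m0 : ZMod n))) = π (u t) := by
    intro t
    exact seq_period (X := S) (fun t => π (u t)) φ hφ c hc t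
  have h1' : ∀ (k : ℕ) (t : ZMod n), π (u (t + ((m0 * k : ℕ) : ZMod n))) = π (u t) := by
    intro k
    induction k with
    | zero => intro t; simp
    | succ k ih =>
      intro t
      have : t + ((m0 * (k + 1) : ℕ) : ZMod n) = (t + (m0 : ZMod n)) + ((m0 * k : ℕ) : ZMod n) := by
        push_cast; ring
      rw [this, ih, h1]
  set m' : ZMod n := ((m0 * m0 * j : ℕ) : ZMod n) with hm'
  let h : ZMod n → OO w hna := fun t => u (t + m') - u t
  have hmod : ∀ t, π (h t) = 0 := by
    intro t
    show π (u (t + m') - u t) = 0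
    rw [map_sub, hm', show m0 * m0 * j = m0 * (m0 * j) by ring, h1', sub_self]
  have hle : ∀ t, w (h t : L) ≤ w (p : L) ^ 2 := by
    intro t
    have := Ideal.Quotient.eq_zero_iff_mem.1 (hmod t)
    rw [mem_span_iff hna _ hp0] at this
    push_cast at this
    rwa [map_pow] at this
  by_contra hcon
  push Not at hcon
  obtain ⟨t1, ht1⟩ := hcon
  obtain ⟨t0, ht0⟩ := Finite.exists_max fun t : ZMod n => w (h t : L)
  have hH : 0 < w (h t0 : L) := by
    refine lt_of_lt_of_le ?_ (ht0 t1)
    apply w.pos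
    intro h0
    apply ht1
    have h2 : h t1 = 0 := by exact_mod_cast h0
    exact sub_eq_zero.1 h2
  have hH0 : (h t0 : L) ≠ 0 := w.pos_iff.1 hH
  let g : ZMod n → OO w hna := fun t => ⟨(h t : L) / (h t0 : L), by
    show w ((h t : L) / (h t0 : L)) ≤ 1
    rw [map_div₀, div_le_one hH]
    exact ht0 t⟩
  have hg : ∀ t, h t = h t0 * g t := by
    intro t
    apply Subtype.ext
    push_cast
    show (h t : L) = (h t0 : L) * ((h t : L) / (h t0 : L))
    field_simp
  have hH0' : h t0 ≠ 0 := by
    intro h0; apply hH0; rw [h0]; rfl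
  -- the recursion of the differences
  have hV : ∀ t, π (g (t + 1)) = π (D t) * π (g t) := by
    intro t
    rw [← map_mul, hπ]
    have h3 := hC (t + m') t
    have e2 : t + m' + 1 = t + 1 + m' := by ring
    rw [e2] at h3
    have e3 : ((u (t + 1 + m') : L) - u (t + 1) - D t * (u (t + m') - u t)) =
        (h t0 : L) * ((g (t + 1) : L) - D t * g t) := by
      have b1 := congrArg (Subtype.val) (hg t)
      have b2 := congrArg (Subtype.val) (hg (t + 1))
      push_cast at b1 b2
      have c1 : (h t : L) = u (t + m') - u t := by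
        show ((u (t + m') - u t : OO w hna) : L) = _
        push_cast; rfl
      have c2 : (h (t + 1) : L) = u (t + 1 + m') - u (t + 1) := by
        show ((u (t + 1 + m') - u (t + 1) : OO w hna) : L) = _
        push_cast; rfl
      rw [← c1, ← c2]
      linear_combination b2 - (D t : L) * b1
    have c1 : (h t : L) = u (t + m') - u t := by
      show ((u (t + m') - u t : OO w hna) : L) = _
      push_cast; rfl
    rw [e3, ← c1, map_mul] at h3
    have h4 : w (h t0 : L) * w ((g (t + 1) : L) - D t * g t) ≤ w (h t0 : L) * w (p : L) ^ 2 := by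
      refine h3.trans ?_
      rw [pow_two (w (h t : L))]
      exact mul_le_mul (ht0 t) (hle t) (w.nonneg _) (w.nonneg _)
    have h5 := le_of_mul_le_mul_left h4 hH
    push_cast
    exact h5
  have h2 : ∀ t, π (g (t + ((m0 * m0 : ℕ) : ZMod n))) = π (g t) := by
    intro t
    refine seq_period2 (X := S) (fun t => π (g t))
      (fun t P => π (D t) * P) hV m0 ?_ c hc t
    intro t
    funext P
    have : π (D (t + (m0 : ZMod n))) = π (D t) := by
      rw [hπ]
      exact (hB _ _).trans ((hπ _ _).1 (h1 t))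
    rw [this]
  have h2' : ∀ (k : ℕ) (t : ZMod n), π (g (t + ((m0 * m0 * k : ℕ) : ZMod n))) = π (g t) := by
    intro k
    induction k with
    | zero => intro t; simp
    | succ k ih =>
      intro t
      have : t + ((m0 * m0 * (k + 1) : ℕ) : ZMod n) =
          (t + ((m0 * m0 : ℕ) : ZMod n)) + ((m0 * m0 * k : ℕ) : ZMod n) := by
        push_cast; ring
      rw [this, ih, h2]
  have h3 : ∀ (i : ℕ), π (g (t0 + (i : ZMod n) * m')) = π (g t0) := by
    intro i
    have : (i : ZMod n) * m' = ((m0 * m0 * (j * i) : ℕ) : ZMod n) := by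
      rw [hm']; push_cast; ring
    rw [this, h2']
  have hsum : ∑ i ∈ Finset.range ℓ, h (t0 + (i : ZMod n) * m') = 0 := by
    have := sum_shift u m' ℓ t0
    rw [hper, sub_self] at this
    exact this
  have hsum2 : ∑ i ∈ Finset.range ℓ, g (t0 + (i : ZMod n) * m') = 0 := by
    have : h t0 * ∑ i ∈ Finset.range ℓ, g (t0 + (i : ZMod n) * m') = 0 := by
      rw [Finset.mul_sum, ← hsum]
      exact Finset.sum_congr rfl fun i _ => (hg _).symm
    exact (mul_eq_zero.1 this).resolve_left hH0'
  have h4 : π ((ℓ : OO w hna) * g t0) = 0 := by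
    have := congrArg π hsum2
    rw [map_sum, map_zero, Finset.sum_congr rfl fun i _ => h3 i, Finset.sum_const,
      Finset.card_range, nsmul_eq_mul] at this
    rw [map_mul, map_natCast]
    exact this
  have h5 : g t0 = 1 := by
    apply Subtype.ext
    show (h t0 : L) / (h t0 : L) = 1
    exact div_self hH0
  rw [h5, mul_one] at h4
  have h6 := Ideal.Quotient.eq_zero_iff_mem.1 h4
  rw [mem_span_iff hna _ hp0] at h6
  push_cast at h6
  rw [map_pow] at h6
  have h7 := prime_ge hna hp hwp hℓ
  have h8 : w (p : L) ^ 2 < w (p : L) := by nlinarith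
  linarith

/-- the universal period -/
def per1 (p N : ℕ) : ℕ := ((p ^ 2) ^ N).factorial * ((p ^ 2) ^ N).factorial

lemma per1_pos (p N : ℕ) : 0 < per1 p N := Nat.mul_pos (Nat.factorial_pos _) (Nat.factorial_pos _)

theorem period1 (hna : IsNonarchimedean w) [CharZero L] [Algebra ℚ L]
    [FiniteDimensional ℚ L] (N : ℕ) (hN : finrank ℚ L ≤ N) {p : ℕ} (hp : p.Prime)
    (hwp : w (p : L) < 1) {n : ℕ} [NeZero n] (u D : ZMod n → OO w hna)
    (hA : ∀ s t, w ((u (s + 1) : L) - u (t + 1)) ≤ w ((u s : L) - u t))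
    (hB : ∀ s t, w ((D s : L) - D t) ≤ w ((u s : L) - u t))
    (hC : ∀ s t, w ((u (s + 1) : L) - u (t + 1) - D t * (u s - u t)) ≤
      w ((u s : L) - u t) ^ 2) :
    ∀ t, u (t + ((per1 p N : ℕ) : ZMod n)) = u t := by
  classical
  obtain ⟨hfin, hcard⟩ := quot_card hna N hN (p ^ 2) (Nat.one_le_pow _ _ hp.pos)
  set c := (p ^ 2) ^ N with hc
  let P : ℕ → Prop := fun j => ∀ t, u (t + ((c.factorial * c.factorial * j : ℕ) : ZMod n)) = u t
  have hn : 0 < n := Nat.pos_of_ne_zero (NeZero.ne n)
  have hex : ∃ j, 0 < j ∧ P j := by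
    refine ⟨n, hn, fun t => ?_⟩
    have : ((c.factorial * c.factorial * n : ℕ) : ZMod n) = 0 := by push_cast; simp
    rw [this, add_zero]
  obtain ⟨hj0, hjP⟩ := Nat.find_spec hex
  set j := Nat.find hex with hj
  have hj1 : j = 1 := by
    by_contra hne
    have hℓ := Nat.minFac_prime hne
    set ℓ := j.minFac
    obtain ⟨i, hi⟩ := Nat.minFac_dvd j
    have hi' : j = ℓ * i := hi
    have hi0 : 0 < i := by
      rcases Nat.eq_zero_or_pos i with h | h
      · rw [h, mul_zero] at hi'; omega
      · exact h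
    have hij : i < j := by
      rw [hi']
      calc i = 1 * i := (one_mul i).symm
        _ < ℓ * i := Nat.mul_lt_mul_of_pos_right hℓ.one_lt hi0
    apply Nat.find_min hex hij
    refine ⟨hi0, ?_⟩
    refine no_prime_shift1 hna hp hwp c hcard u D hA hB hC i ℓ hℓ fun t => ?_
    have := hjP t
    rw [hi'] at this
    have e : (ℓ : ZMod n) * ((c.factorial * c.factorial * i : ℕ) : ZMod n) =
        ((c.factorial * c.factorial * (ℓ * i) : ℕ) : ZMod n) := by push_cast; ring
    rw [e]
    exact this
  intro t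
  have := hjP t
  rw [hj1, mul_one] at this
  exact this

end Pool.Agent.Q195.HR
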