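import Pool.Agent.Q195.HR1

/-!
# Rational maps with a large constant
-/

set_option autoImplicit false

namespace Pool.Agent.Q195.HR

open Module Polynomial Function Pool.Agent.Q195.HD

variable {L : Type*} [Field L] {w : AbsoluteValue L ℝ}

/-- the point has a finite orbit -/
def PF {X : Type*} (f : X → X) (x : X) : Prop := ∃ s t : ℕ, s < t ∧ f^[s] x = f^[t] x

lemma PF.succ {X : Type*} {f : X → X} {x : X} (h : PF f x) : PF f (f x) := by
  obtain ⟨s, t, hst, h⟩ := h
  refine ⟨s, t, hst, ?_⟩
  rw [← iterate_succ_apply, ← iterate_succ_apply, iterate_succ_apply', iterate_succ_apply', h]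

lemma PF.iter {X : Type*} {f : X → X} {x : X} (h : PF f x) (i : ℕ) : PF f (f^[i] x) := by
  induction i with
  | zero => exact h
  | succ i ih => rw [iterate_succ_apply']; exact ih.succ

lemma PF.not_grow {X : Type*} {f : X → X} {x : X} (h : PF f x) (g : X → ℝ) :
    ¬ ∀ i : ℕ, g (f^[i] x) < g (f^[i + 1] x) := by
  intro hg
  obtain ⟨s, t, hst, h⟩ := h
  have hm : StrictMono fun i : ℕ => g (f^[i] x) := strictMono_nat_of_lt_succ hg
  have := hm hst
  simp only [h] at this
  exact lt_irrefl _ this

/-- eventually periodic form -/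
lemma PF.per {X : Type*} {f : X → X} {x : X} (h : PF f x) : ∃ s n : ℕ, 0 < n ∧ ∀ k, s ≤ k → ∀ r,
    f^[k + n * r] x = f^[k] x := by
  obtain ⟨s, t, hst, h⟩ := h
  refine ⟨s, t - s, by omega, fun k hk r => ?_⟩
  obtain ⟨j, rfl⟩ := Nat.exists_eq_add_of_le hk
  have h1 : IsPeriodicPt f (t - s) (f^[s] x) := by
    show f^[t - s] (f^[s] x) = _
    rw [← iterate_add_apply, show t - s + s = t by omega, h]
  have h2 := h1.mul_const r
  have h3 : f^[(t - s) * r] (f^[s] x) = f^[s] x := h2
  rw [show s + j + (t - s) * r = j + ((t - s) * r + s) by ring, iterate_add_apply,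
    iterate_add_apply _ _ s, h3, ← iterate_add_apply, add_comm j s]

/-- integral coefficients -/
def Int' (w : AbsoluteValue L ℝ) (F : L[X]) : Prop := ∀ k, w (F.coeff k) ≤ 1

lemma eval_leM (hna : IsNonarchimedean w) {F : L[X]} (hF : Int' w F) {m : ℕ}
    (hm : F.natDegree ≤ m) {M : ℝ} (hM : 1 ≤ M) {x : L} (hx : w x ≤ M) : w (F.eval x) ≤ M ^ m := by
  rw [eval_eq_sum_range]
  refine w_sum_le hna _ _ _ (by positivity) fun k hk => ?_
  rw [Finset.mem_range] at hk
  rw [map_mul, map_pow]
  calc w (F.coeff k) * w x ^ k ≤ 1 * M ^ k := by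
        gcongr
        exact hF k
    _ ≤ M ^ m := by
        rw [one_mul]
        exact pow_le_pow_right₀ hM (by omega)

lemma diff_leM (hna : IsNonarchimedean w) {F : L[X]} (hF : Int' w F) {m : ℕ}
    (hm : F.natDegree ≤ m) {M : ℝ} (hM : 1 ≤ M) {x y : L} (hx : w x ≤ M) (hy : w y ≤ M) :
    w (F.eval x - F.eval y) ≤ M ^ (m - 1) * w (x - y) := by
  rw [eval_eq_sum_range, eval_eq_sum_range, ← Finset.sum_sub_distrib]
  have h0 := w.nonneg (x - y)
  refine w_sum_le hna _ _ _ (by positivity) fun k hk => ?_
  rw [Finset.mem_range] at hk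
  rw [← mul_sub, map_mul]
  rcases Nat.eq_zero_or_pos k with hk0 | hk0
  · subst hk0
    simp
    positivity
  calc w (F.coeff k) * w (x ^ k - y ^ k) ≤ 1 * (M ^ (k - 1) * w (x - y)) := by
        have := w.nonneg (x ^ k - y ^ k)
        gcongr
        · exact hF k
        · exact pow_sub_le hna hx hy k
    _ ≤ M ^ (m - 1) * w (x - y) := by
        rw [one_mul]
        have h1 : M ^ (k - 1) ≤ M ^ (m - 1) := pow_le_pow_right₀ hM (by omega)
        gcongr

lemma erase_int {F : L[X]} (hF : Int' w F) : Int' w F.eraseLead := by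
  intro k
  rw [eraseLead_coeff]
  split_ifs
  · simp
  · exact hF k

lemma eval_split (F : L[X]) (x : L) :
    F.eval x = F.eraseLead.eval x + F.leadingCoeff * x ^ F.natDegree := by
  have h := congrArg (fun G : L[X] => G.eval x) (eraseLead_add_C_mul_X_pow F)
  simp only [eval_add, eval_mul, eval_C, eval_pow, eval_X] at h
  exact h.symm

/-- for `|x| > 1` the leading term dominates -/
lemma eval_big (hna : IsNonarchimedean w) {F : L[X]} (hF : Int' w F)
    (hl : w F.leadingCoeff = 1) {x : L} (hx : 1 < w x) : w (F.eval x) = w x ^ F.natDegree := by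
  rcases Nat.eq_zero_or_pos F.natDegree with h0 | h0
  · rw [eval_split, h0, pow_zero, mul_one]
    have : F.eraseLead = 0 := by
      rw [eq_C_of_natDegree_eq_zero h0]
      exact eraseLead_C _
    rw [this]
    simpa using hl
  · rw [eval_split]
    have h1 : w (F.leadingCoeff * x ^ F.natDegree) = w x ^ F.natDegree := by
      rw [map_mul, hl, one_mul, map_pow]
    rw [← h1]
    apply w_add_eq hna
    rw [h1]
    calc w (F.eraseLead.eval x) ≤ w x ^ (F.natDegree - 1) :=
          eval_leM hna (erase_int hF) (eraseLead_natDegree_le F) hx.le le_rfl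
      _ < w x ^ F.natDegree := pow_lt_pow_right₀ hx (by omega)

section large

variable {P Q R : L[X]} {c : L} {d e j k : ℕ}

/-- the rational map `(P + c R) / Q` -/
noncomputable def rmap (P Q R : L[X]) (c : L) (x : L) : L := (P + C c * R).eval x / Q.eval x

lemma numE (x : L) : (P + C c * R).eval x = P.eval x + c * R.eval x := by simp

/-- the hypotheses: integral polynomials with unit leading coefficients -/
structure Hyp (w : AbsoluteValue L ℝ) (P Q R : L[X]) (d e j k : ℕ) : Prop where
  iP : Int' w P
  iQ : Int' w Q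
  iR : Int' w R
  lP : w P.leadingCoeff = 1
  lQ : w Q.leadingCoeff = 1
  lR : w R.leadingCoeff = 1
  dP : P.natDegree = d
  dQ : Q.natDegree = e
  dR : R.natDegree = j
  hk : d = j + k
  hk2 : 2 ≤ k
  he : e + 2 ≤ d
  uQ : ∀ x, w x ≤ 1 → w (Q.eval x) = 1
  uR : ∀ x, w x ≤ 1 → w (R.eval x) = 1

variable (H : Hyp w P Q R d e j k)

include H in
lemma Q_ne (hna : IsNonarchimedean w) (x : L) : Q.eval x ≠ 0 := by
  intro h
  rcases le_or_gt (w x) 1 with h1 | h1
  · have := H.uQ x h1
    rw [h, map_zero] at this
    exact zero_ne_one this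
  · have := eval_big hna H.iQ H.lQ h1
    rw [h, map_zero] at this
    have : 0 < w x ^ Q.natDegree := by positivity
    linarith

include H in
lemma val_small (hna : IsNonarchimedean w) (hc : 1 < w c) {x : L} (hx : w x ≤ 1) :
    w (rmap P Q R c x) = w c := by
  unfold rmap
  rw [map_div₀, H.uQ x hx, div_one, numE]
  have h1 : w (c * R.eval x) = w c := by rw [map_mul, H.uR x hx, mul_one]
  rw [← h1]
  apply w_add_eq hna
  rw [h1]
  calc w (P.eval x) ≤ 1 ^ d := eval_leM hna H.iP H.dP.le le_rfl hx
    _ < w c := by rwa [one_pow]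

include H in
lemma val_big (hna : IsNonarchimedean w) {x : L} (hx : 1 < w x) (hx2 : w c < w x ^ k) :
    w (rmap P Q R c x) * w x ^ e = w x ^ d := by
  unfold rmap
  have hQ := eval_big hna H.iQ H.lQ hx
  rw [H.dQ] at hQ
  have hpos : 0 < w x ^ e := by positivity
  rw [map_div₀, hQ, numE, div_mul_cancel₀ _ hpos.ne']
  have hP := eval_big hna H.iP H.lP hx
  rw [H.dP] at hP
  have hR := eval_big hna H.iR H.lR hx
  rw [H.dR] at hR
  rw [← hP, add_comm]
  apply w_add_eq hna
  rw [hP, map_mul, hR, H.hk, pow_add, mul_comm]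
  have : 0 < w x ^ j := by positivity
  gcongr

include H in
lemma val_mid (hna : IsNonarchimedean w) {x : L} (hx : 1 < w x) (hx2 : w x ^ k < w c) :
    w (rmap P Q R c x) * w x ^ e = w c * w x ^ j := by
  unfold rmap
  have hQ := eval_big hna H.iQ H.lQ hx
  rw [H.dQ] at hQ
  have hpos : 0 < w x ^ e := by positivity
  rw [map_div₀, hQ, numE, div_mul_cancel₀ _ hpos.ne']
  have hP := eval_big hna H.iP H.lP hx
  rw [H.dP] at hP
  have hR := eval_big hna H.iR H.lR hx
  rw [H.dR] at hR
  rw [← hR, ← map_mul]
  apply w_add_eq hna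
  rw [hP, map_mul, hR, H.hk, pow_add, mul_comm]
  have : 0 < w x ^ j := by positivity
  gcongr

include H in
/-- points outside escape -/
lemma grow_big (hna : IsNonarchimedean w) {x : L} (hx : 1 < w x) (hx2 : w c < w x ^ k) :
    w x < w (rmap P Q R c x) := by
  have h := val_big H hna hx hx2
  have hpos : 0 < w x ^ e := by positivity
  by_contra hcon
  push Not at hcon
  have h1 : w x ^ d ≤ w x * w x ^ e := by
    rw [← h]
    gcongr
  rw [← pow_succ'] at h1
  have h2 : w x ^ (e + 1) < w x ^ d := pow_lt_pow_right₀ hx (by have := H.he; omega)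
  linarith

include H in
lemma esc_big (hna : IsNonarchimedean w) {x : L} (hx : 1 < w x) (hx2 : w c < w x ^ k) :
    ¬ PF (rmap P Q R c) x := by
  intro h
  have key : ∀ i : ℕ, 1 < w ((rmap P Q R c)^[i] x) ∧ w c < w ((rmap P Q R c)^[i] x) ^ k := by
    intro i
    induction i with
    | zero => exact ⟨hx, hx2⟩
    | succ i ih =>
      rw [iterate_succ_apply']
      have h1 := grow_big H hna ih.1 ih.2
      refine ⟨ih.1.trans h1, ih.2.trans_le ?_⟩
      have := w.nonneg ((rmap P Q R c)^[i] x)
      gcongr
  refine h.not_grow w fun i => ?_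
  rw [iterate_succ_apply']
  exact grow_big H hna (key i).1 (key i).2

include H in
lemma esc_small (hna : IsNonarchimedean w) (hc : 1 < w c) {x : L} (hx : w x ≤ 1) :
    ¬ PF (rmap P Q R c) x := by
  intro h
  have h1 := val_small H hna hc hx
  refine esc_big H hna (x := rmap P Q R c x) (by rw [h1]; exact hc) ?_ h.succ
  rw [h1]
  calc w c = w c ^ 1 := (pow_one _).symm
    _ < w c ^ k := pow_lt_pow_right₀ hc (by have := H.hk2; omega)

include H in
lemma esc_mid (hna : IsNonarchimedean w) {x : L} (hx : 1 < w x) (hx2 : w x ^ k < w c) :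
    ¬ PF (rmap P Q R c) x := by
  intro h
  have hk2 := H.hk2
  have hkd := H.hk
  have he := H.he
  have hc : 1 < w c := lt_of_le_of_lt (one_le_pow₀ hx.le) hx2
  have h1 := val_mid H hna hx hx2
  set z := rmap P Q R c x with hz
  have hx0 : 0 < w x := by linarith
  -- `|z| > |x|`
  have hzk : w c < w z ^ k ∧ 1 < w z := by
    rcases Nat.lt_or_ge j e with hje | hje
    · have e1 : w z * w x ^ (e - j) = w c := by
        have : w z * w x ^ (e - j) * w x ^ j = w c * w x ^ j := by
          rw [← h1, mul_assoc, ← pow_add]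
          congr 2; omega
        exact mul_right_cancel₀ (by positivity) this
      have hz0 : 0 < w z := by
        rcases (w.nonneg z).lt_or_eq with h0 | h0
        · exact h0
        · rw [← h0, zero_mul] at e1; linarith
      have e2 : w z ^ k * (w x ^ k) ^ (e - j) = w c ^ k := by
        rw [← e1, mul_pow, ← pow_mul, ← pow_mul, mul_comm k]
      have h3 : w c < w z ^ k := by
        by_contra hcon
        push Not at hcon
        have a1 : w c ^ k < w c * w c ^ (e - j) := by
          rw [← e2]
          calc w z ^ k * (w x ^ k) ^ (e - j) ≤ w c * (w x ^ k) ^ (e - j) := by gcongr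
            _ < w c * w c ^ (e - j) := by
                have : (w x ^ k) ^ (e - j) < w c ^ (e - j) :=
                  pow_lt_pow_left₀ hx2 (by positivity) (by omega)
                gcongr
        rw [← pow_succ'] at a1
        have a2 : w c ^ (e - j + 1) ≤ w c ^ k := pow_le_pow_right₀ hc.le (by omega)
        linarith
      refine ⟨h3, ?_⟩
      by_contra hcon
      push Not at hcon
      have := pow_le_one₀ (n := k) (w.nonneg z) hcon
      linarith
    · have e1 : w z = w c * w x ^ (j - e) := by
        have : w z * w x ^ e = w c * w x ^ (j - e) * w x ^ e := by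
          rw [h1, mul_assoc, ← pow_add]
          congr 2; omega
        exact mul_right_cancel₀ (by positivity) this
      have h3 : w c ≤ w z := by
        rw [e1]
        have := one_le_pow₀ (n := j - e) hx.le
        nlinarith
      refine ⟨?_, lt_of_lt_of_le hc h3⟩
      calc w c = w c ^ 1 := (pow_one _).symm
        _ < w c ^ k := pow_lt_pow_right₀ hc (by omega)
        _ ≤ w z ^ k := by gcongr
  exact esc_big H hna hzk.2 hzk.1 h.succ

include H in
/-- finite orbits lie on one circle -/
lemma circle (hna : IsNonarchimedean w) (hc : 1 < w c) {x : L} (h : PF (rmap P Q R c) x) :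
    1 < w x ∧ w x ^ k = w c := by
  rcases le_or_gt (w x) 1 with h1 | h1
  · exact absurd h (esc_small H hna hc h1)
  · refine ⟨h1, ?_⟩
    rcases lt_trichotomy (w x ^ k) (w c) with h2 | h2 | h2
    · exact absurd h (esc_mid H hna h1 h2)
    · exact h2
    · exact absurd h (esc_big H hna h1 h2)

include H in
/-- expansion on the circle -/
lemma expand (hna : IsNonarchimedean w) [CharZero L] [Algebra ℚ L] [FiniteDimensional ℚ L]
    (N : ℕ) (hN : finrank ℚ L ≤ N) {p : ℕ} (hp : p.Prime) (hwp : w (p : L) < 1)
    (hkp : Nat.Coprime k p) (hcop : ∀ f, 1 ≤ f → f ≤ N → Nat.Coprime k (p ^ f - 1))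
    {r : ℝ} (hr : 1 < r) (hrc : r ^ k = w c)
    {x y : L} (hx : w x = r) (hy : w y = r) (hfx : w (rmap P Q R c x) ≤ r)
    (hfy : w (rmap P Q R c y) ≤ r) (hne : x ≠ y) :
    w (x - y) < w (rmap P Q R c x - rmap P Q R c y) := by
  have hk2 := H.hk2
  have hkd := H.hk
  have he := H.he
  have hr0 : 0 < r := by linarith
  have hE : 0 < w (x - y) := w.pos (sub_ne_zero.2 hne)
  have hx0 : x ≠ 0 := by
    rintro rfl; rw [map_zero] at hx; linarith
  have hy0 : y ≠ 0 := by
    rintro rfl; rw [map_zero] at hy; linarith
  -- the main congruence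
  have hbal : ∀ z : L, w z = r → w (rmap P Q R c z) ≤ r →
      w (P.leadingCoeff * z ^ k + c * R.leadingCoeff) < r ^ k := by
    intro z hz hfz
    have hQ := eval_big hna H.iQ H.lQ (x := z) (by rw [hz]; exact hr)
    rw [H.dQ, hz] at hQ
    have h1 : w ((P + C c * R).eval z) < r ^ d := by
      have : w ((P + C c * R).eval z) = w (rmap P Q R c z) * r ^ e := by
        unfold rmap
        rw [map_div₀, hQ, div_mul_cancel₀ _ (by positivity)]
      rw [this]
      calc w (rmap P Q R c z) * r ^ e ≤ r * r ^ e := by gcongr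
        _ = r ^ (e + 1) := (pow_succ' _ _).symm
        _ < r ^ d := pow_lt_pow_right₀ hr (by omega)
    rw [numE, eval_split P, eval_split R, H.dP, H.dR] at h1
    have h2 : w (P.eraseLead.eval z) < r ^ d := by
      calc w (P.eraseLead.eval z) ≤ r ^ (d - 1) :=
            eval_leM hna (erase_int H.iP) (by
              have := eraseLead_natDegree_le P
              rw [H.dP] at this; exact this) hr.le hz.le
        _ < r ^ d := pow_lt_pow_right₀ hr (by omega)
    have h3 : w (c * R.eraseLead.eval z) < r ^ d := by
      rw [map_mul, ← hrc]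
      rcases Nat.eq_zero_or_pos j with h0 | h0
      · have : R.eraseLead = 0 := by
          have hC : R = C (R.coeff 0) := eq_C_of_natDegree_eq_zero (by rw [H.dR]; exact h0)
          rw [hC]
          exact eraseLead_C _
        rw [this]
        simp
        positivity
      · calc r ^ k * w (R.eraseLead.eval z) ≤ r ^ k * r ^ (j - 1) := by
              gcongr
              exact eval_leM hna (erase_int H.iR) (by
                have := eraseLead_natDegree_le R
                rw [H.dR] at this; exact this) hr.le hz.le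
          _ = r ^ (k + (j - 1)) := (pow_add _ _ _).symm
          _ < r ^ d := pow_lt_pow_right₀ hr (by omega)
    have h4 : w ((P.leadingCoeff * z ^ k + c * R.leadingCoeff) * z ^ j) < r ^ d := by
      have e1 : (P.leadingCoeff * z ^ k + c * R.leadingCoeff) * z ^ j =
          ((P.eraseLead.eval z + P.leadingCoeff * z ^ d +
            c * (R.eraseLead.eval z + R.leadingCoeff * z ^ j)) - P.eraseLead.eval z) -
            c * R.eraseLead.eval z := by
        rw [hkd, pow_add]; ring
      rw [e1]
      refine lt_of_le_of_lt (w_sub_le hna _ _) (max_lt ?_ h3)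
      exact lt_of_le_of_lt (w_sub_le hna _ _) (max_lt h1 h2)
    rw [map_mul, map_pow, hz, hkd, pow_add, mul_comm (r ^ j)] at h4
    exact lt_of_mul_lt_mul_right h4 (by positivity)
  have hbx := hbal x hx hfx
  have hby := hbal y hy hfy
  have hpow : w (x ^ k - y ^ k) < r ^ k := by
    have e1 : P.leadingCoeff * (x ^ k - y ^ k) =
        (P.leadingCoeff * x ^ k + c * R.leadingCoeff) -
          (P.leadingCoeff * y ^ k + c * R.leadingCoeff) := by ring
    have h1 : w (P.leadingCoeff * (x ^ k - y ^ k)) < r ^ k := by
      rw [e1]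
      exact lt_of_le_of_lt (w_sub_le hna _ _) (max_lt hbx hby)
    rwa [map_mul, H.lP, one_mul] at h1
  have hclose : w (x - y) < r := by
    have h1 : w ((x / y) ^ k - 1) < 1 := by
      have : (x / y) ^ k - 1 = (x ^ k - y ^ k) / y ^ k := by
        rw [div_pow, sub_div, div_self (pow_ne_zero k hy0)]
      rw [this, map_div₀, map_pow, hy, div_lt_one (by positivity)]
      exact hpow
    have h2 := one_root hna N hN hp hwp k hcop (x / y) (by
      rw [map_div₀, hx, hy, div_self hr0.ne']) h1
    have : x / y - 1 = (x - y) / y := by field_simp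
    rw [this, map_div₀, hy, div_lt_one hr0] at h2
    exact h2
  have hwk : w (k : L) = 1 := w_coprime hna hwp hkp
  have hxr : w x ≤ r := hx.le
  have hyr : w y ≤ r := hy.le
  -- difference of the numerators
  have hnum : w ((P + C c * R).eval x - (P + C c * R).eval y) = r ^ (d - 1) * w (x - y) := by
    have e1 : (P + C c * R).eval x - (P + C c * R).eval y =
        ((P.eraseLead.eval x - P.eraseLead.eval y) +
          c * (R.eraseLead.eval x - R.eraseLead.eval y) +
          (P.leadingCoeff * y ^ k + c * R.leadingCoeff) * (x ^ j - y ^ j)) +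
        P.leadingCoeff * x ^ j * (x ^ k - y ^ k) := by
      rw [numE, numE, eval_split P x, eval_split R x, eval_split P y, eval_split R y, H.dP, H.dR,
        hkd, pow_add, pow_add]
      ring
    have hm : w (P.leadingCoeff * x ^ j * (x ^ k - y ^ k)) = r ^ (d - 1) * w (x - y) := by
      rw [map_mul, map_mul, H.lP, one_mul, map_pow, hx,
        pow_sub_eq hna hr0 hx hy hclose k (by omega) hwk, ← mul_assoc, ← pow_add]
      congr 2; omega
    rw [e1, ← hm]
    apply w_add_eq hna
    rw [hm]
    have b1 : w (P.eraseLead.eval x - P.eraseLead.eval y) < r ^ (d - 1) * w (x - y) := by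
      calc w (P.eraseLead.eval x - P.eraseLead.eval y) ≤ r ^ (d - 1 - 1) * w (x - y) :=
            diff_leM hna (erase_int H.iP) (by
              have := eraseLead_natDegree_le P
              rw [H.dP] at this; exact this) hr.le hxr hyr
        _ < r ^ (d - 1) * w (x - y) := by
            have : r ^ (d - 1 - 1) < r ^ (d - 1) := pow_lt_pow_right₀ hr (by omega)
            gcongr
    have b2 : w (c * (R.eraseLead.eval x - R.eraseLead.eval y)) < r ^ (d - 1) * w (x - y) := by
      rw [map_mul, ← hrc]
      rcases Nat.lt_or_ge j 2 with h0 | h0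
      · have hdeg : R.eraseLead.natDegree = 0 := by
          have := eraseLead_natDegree_le R
          rw [H.dR] at this
          omega
        have : R.eraseLead.eval x - R.eraseLead.eval y = 0 := by
          rw [eq_C_of_natDegree_eq_zero hdeg]
          simp
        rw [this]
        simp
        positivity
      · calc r ^ k * w (R.eraseLead.eval x - R.eraseLead.eval y) ≤
              r ^ k * (r ^ (j - 1 - 1) * w (x - y)) := by
              gcongr
              exact diff_leM hna (erase_int H.iR) (by
                have := eraseLead_natDegree_le R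
                rw [H.dR] at this; exact this) hr.le hxr hyr
          _ = r ^ (k + (j - 1 - 1)) * w (x - y) := by rw [pow_add]; ring
          _ < r ^ (d - 1) * w (x - y) := by
              have : r ^ (k + (j - 1 - 1)) < r ^ (d - 1) := pow_lt_pow_right₀ hr (by omega)
              gcongr
    have b3 : w ((P.leadingCoeff * y ^ k + c * R.leadingCoeff) * (x ^ j - y ^ j)) <
        r ^ (d - 1) * w (x - y) := by
      rw [map_mul]
      rcases Nat.eq_zero_or_pos j with h0 | h0
      · rw [h0]
        simp
        positivity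
      · calc w (P.leadingCoeff * y ^ k + c * R.leadingCoeff) * w (x ^ j - y ^ j) ≤
              w (P.leadingCoeff * y ^ k + c * R.leadingCoeff) * (r ^ (j - 1) * w (x - y)) := by
              have := w.nonneg (P.leadingCoeff * y ^ k + c * R.leadingCoeff)
              gcongr
              exact pow_sub_le hna hxr hyr j
          _ < r ^ k * (r ^ (j - 1) * w (x - y)) := by gcongr
          _ = r ^ (d - 1) * w (x - y) := by
              rw [← mul_assoc, ← pow_add]; congr 2; omega
    refine lt_of_le_of_lt (hna _ _) (max_lt ?_ b3)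
    exact lt_of_le_of_lt (hna _ _) (max_lt b1 b2)
  have hQx := eval_big hna H.iQ H.lQ (x := x) (by rw [hx]; exact hr)
  rw [H.dQ, hx] at hQx
  have hQx0 := Q_ne H hna x
  have hQy0 := Q_ne H hna y
  have e2 : rmap P Q R c x - rmap P Q R c y =
      rmap P Q R c y * (Q.eval y - Q.eval x) / Q.eval x +
      ((P + C c * R).eval x - (P + C c * R).eval y) / Q.eval x := by
    unfold rmap
    field_simp
    ring
  have hfirst : w (((P + C c * R).eval x - (P + C c * R).eval y) / Q.eval x) =
      r ^ (d - 1 - e) * w (x - y) := by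
    rw [map_div₀, hQx, hnum, div_eq_iff (by positivity)]
    rw [show r ^ (d - 1 - e) * w (x - y) * r ^ e = r ^ (d - 1 - e + e) * w (x - y) by
      rw [pow_add]; ring]
    congr 2; omega
  have hbig : w (x - y) < r ^ (d - 1 - e) * w (x - y) := by
    have : 1 < r ^ (d - 1 - e) := one_lt_pow₀ hr (by omega)
    nlinarith
  have hsecond : w (rmap P Q R c y * (Q.eval y - Q.eval x) / Q.eval x) ≤ w (x - y) := by
    rw [map_div₀, hQx, map_mul, div_le_iff₀ (by positivity)]
    rcases Nat.eq_zero_or_pos e with h0 | h0
    · have : Q.eval y - Q.eval x = 0 := by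
        have hC : Q = C (Q.coeff 0) := eq_C_of_natDegree_eq_zero (by rw [H.dQ]; exact h0)
        rw [hC]
        simp
      rw [this]
      simp
      positivity
    · calc w (rmap P Q R c y) * w (Q.eval y - Q.eval x) ≤ r * (r ^ (e - 1) * w (y - x)) := by
            gcongr
            exact diff_leM hna H.iQ H.dQ.le hr.le hyr hxr
        _ = w (x - y) * r ^ e := by
            rw [← mul_assoc, ← pow_succ', show e - 1 + 1 = e by omega, ← w_neg (x - y), neg_sub]
            ring
  rw [e2, w_add_eq hna (by rw [hfirst]; exact lt_of_le_of_lt hsecond hbig), hfirst]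
  exact hbig

include H in
/-- if the constant is large, there is at most one preperiodic point -/
theorem large_unique (hna : IsNonarchimedean w) [CharZero L] [Algebra ℚ L]
    [FiniteDimensional ℚ L]
    (N : ℕ) (hN : finrank ℚ L ≤ N) {p : ℕ} (hp : p.Prime) (hwp : w (p : L) < 1)
    (hkp : Nat.Coprime k p) (hcop : ∀ f, 1 ≤ f → f ≤ N → Nat.Coprime k (p ^ f - 1))
    (hc : 1 < w c) {x y : L} (hx : PF (rmap P Q R c) x) (hy : PF (rmap P Q R c) y) : x = y := by
  by_contra hne
  obtain ⟨hx1, hxk⟩ := circle H hna hc hx
  have hk2 := H.hk2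
  have hrad : ∀ z, PF (rmap P Q R c) z → w z = w x := by
    intro z hz
    have h1 := circle H hna hc hz
    exact (pow_left_inj₀ (w.nonneg _) (w.nonneg _) (by omega)).1 (h1.2.trans hxk.symm)
  set f := rmap P Q R c with hf
  have hexp : ∀ a b, PF f a → PF f b → a ≠ b → w (a - b) < w (f a - f b) := by
    intro a b ha hb hab
    exact expand H hna N hN hp hwp hkp hcop hx1 hxk (hrad a ha) (hrad b hb)
      (hrad _ ha.succ).le (hrad _ hb.succ).le hab
  have hnei : ∀ i : ℕ, f^[i] x ≠ f^[i] y := by
    intro i
    induction i with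
    | zero => exact hne
    | succ i ih =>
      intro h
      rw [iterate_succ_apply', iterate_succ_apply'] at h
      have := hexp _ _ (hx.iter i) (hy.iter i) ih
      rw [h, sub_self, map_zero] at this
      exact absurd this (not_lt.2 (w.nonneg _))
  obtain ⟨s1, n1, hn1, h1⟩ := hx.per
  obtain ⟨s2, n2, hn2, h2⟩ := hy.per
  have hmono : StrictMono fun i : ℕ => w (f^[i] x - f^[i] y) := by
    apply strictMono_nat_of_lt_succ
    intro i
    rw [iterate_succ_apply', iterate_succ_apply']
    exact hexp _ _ (hx.iter i) (hy.iter i) (hnei i)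
  have h3 := hmono (show s1 + s2 < s1 + s2 + n1 * n2 by
    have := Nat.mul_pos hn1 hn2
    omega)
  simp only at h3
  rw [h1 (s1 + s2) (by omega) n2] at h3
  rw [mul_comm n1 n2, h2 (s1 + s2) (by omega) n1] at h3
  exact lt_irrefl _ h3

end large

end Pool.Agent.Q195.HR
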