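import Pool.Agent.Q195.HR2
import Pool.Agent.Q195.HD7

/-!
# Rational maps with integral coefficients without poles in the unit disc
-/

set_option autoImplicit false

namespace Pool.Agent.Q195.HR

open Module Polynomial Function Pool.Agent.Q195.HD

variable {L : Type*} [Field L] {w : AbsoluteValue L ℝ}

/-- integral and not increasing distances on the unit disc -/
def Lip (w : AbsoluteValue L ℝ) (f : L → L) : Prop :=
  (∀ x, w x ≤ 1 → w (f x) ≤ 1) ∧ ∀ x y, w x ≤ 1 → w y ≤ 1 → w (f x - f y) ≤ w (x - y)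

lemma Lip.mul (hna : IsNonarchimedean w) {f g : L → L} (hf : Lip w f) (hg : Lip w g) :
    Lip w (fun x => f x * g x) := by
  refine ⟨fun x hx => ?_, fun x y hx hy => ?_⟩
  · rw [map_mul]
    exact mul_le_one₀ (hf.1 x hx) (w.nonneg _) (hg.1 x hx)
  · have e : f x * g x - f y * g y = (f x - f y) * g x + f y * (g x - g y) := by ring
    rw [e]
    refine (hna _ _).trans (max_le ?_ ?_)
    · rw [map_mul]
      calc w (f x - f y) * w (g x) ≤ w (x - y) * 1 :=
            mul_le_mul (hf.2 x y hx hy) (hg.1 x hx) (w.nonneg _) (w.nonneg _)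
        _ = w (x - y) := mul_one _
    · rw [map_mul]
      calc w (f y) * w (g x - g y) ≤ 1 * w (x - y) :=
            mul_le_mul (hf.1 y hy) (hg.2 x y hx hy) (w.nonneg _) zero_le_one
        _ = w (x - y) := one_mul _

lemma Lip.sub (hna : IsNonarchimedean w) {f g : L → L} (hf : Lip w f) (hg : Lip w g) :
    Lip w (fun x => f x - g x) := by
  refine ⟨fun x hx => ?_, fun x y hx hy => ?_⟩
  · exact (w_sub_le hna _ _).trans (max_le (hf.1 x hx) (hg.1 x hx))
  · have e : f x - g x - (f y - g y) = (f x - f y) - (g x - g y) := by ring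
    rw [e]
    exact (w_sub_le hna _ _).trans (max_le (hf.2 x y hx hy) (hg.2 x y hx hy))

lemma Lip.inv {f : L → L} (hf : Lip w f) (h1 : ∀ x, w x ≤ 1 → w (f x) = 1) :
    Lip w (fun x => (f x)⁻¹) := by
  refine ⟨fun x hx => ?_, fun x y hx hy => ?_⟩
  · rw [map_inv₀, h1 x hx, inv_one]
  · have hx0 : f x ≠ 0 := by
      intro h
      have := h1 x hx
      rw [h, map_zero] at this
      exact zero_ne_one this
    have hy0 : f y ≠ 0 := by
      intro h
      have := h1 y hy
      rw [h, map_zero] at this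
      exact zero_ne_one this
    have e : (f x)⁻¹ - (f y)⁻¹ = -(f x - f y) / (f x * f y) := by
      field_simp
      ring
    rw [e, map_div₀, map_mul, h1 x hx, h1 y hy, mul_one, div_one, w_neg]
    exact hf.2 x y hx hy

lemma lip_poly (hna : IsNonarchimedean w) {F : L[X]} (hF : Int' w F) :
    Lip w (fun x => F.eval x) := by
  refine ⟨fun x hx => ?_, fun x y hx hy => ?_⟩
  · have := eval_leM hna hF (m := F.natDegree) le_rfl le_rfl hx
    rwa [one_pow] at this
  · have := diff_leM hna hF (m := F.natDegree) le_rfl le_rfl hx hy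
    rwa [one_pow, one_mul] at this

lemma int_deriv (hna : IsNonarchimedean w) {F : L[X]} (hF : Int' w F) :
    Int' w F.derivative := by
  intro k
  rw [coeff_derivative, map_mul]
  have h1 : w ((k : L) + 1) ≤ 1 := by
    have := w_nat hna (L := L) (k + 1)
    push_cast at this
    exact this
  exact mul_le_one₀ (hF _) (w.nonneg _) h1

lemma taylor_int (hna : IsNonarchimedean w) {F : L[X]} (hF : Int' w F) {x y : L} (hx : w x ≤ 1)
    (hy : w y ≤ 1) : w (F.eval x - F.eval y - F.derivative.eval y * (x - y)) ≤ w (x - y) ^ 2 := by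
  have e : F.eval x - F.eval y - F.derivative.eval y * (x - y) =
      ∑ k ∈ Finset.range (F.natDegree + 1),
        F.coeff k * (x ^ k - y ^ k - (k : L) * y ^ (k - 1) * (x - y)) := by
    rw [derivative_eval, eval_eq_sum_range, eval_eq_sum_range, Polynomial.sum_over_range _ (by
      intro n; simp), ← Finset.sum_sub_distrib, Finset.sum_mul, ← Finset.sum_sub_distrib]
    exact Finset.sum_congr rfl fun k _ => by ring
  rw [e]
  refine w_sum_le hna _ _ _ (by positivity) fun k _ => ?_
  rw [map_mul]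
  have h1 := taylor_pow hna one_pos hx hy k
  rw [mul_one, one_pow, one_mul] at h1
  calc w (F.coeff k) * w (x ^ k - y ^ k - (k : L) * y ^ (k - 1) * (x - y)) ≤
        1 * w (x - y) ^ 2 := mul_le_mul (hF k) h1 (w.nonneg _) zero_le_one
    _ = _ := one_mul _

/-- integral numerator and denominator -/
structure HypI (w : AbsoluteValue L ℝ) (A Q : L[X]) (d : ℕ) : Prop where
  iA : Int' w A
  iQ : Int' w Q
  lA : w A.leadingCoeff = 1
  lQ : w Q.leadingCoeff = 1
  dA : A.natDegree = d
  he : Q.natDegree + 2 ≤ d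
  uQ : ∀ x, w x ≤ 1 → w (Q.eval x) = 1

/-- the rational map `A / Q` -/
noncomputable def rm (A Q : L[X]) (x : L) : L := A.eval x / Q.eval x

/-- its derivative -/
noncomputable def dv (A Q : L[X]) (x : L) : L :=
  (A.derivative.eval x * Q.eval x - A.eval x * Q.derivative.eval x) *
    ((Q.eval x)⁻¹ * (Q.eval x)⁻¹)

section integral

variable {A Q : L[X]} {d : ℕ} (H : HypI w A Q d)

include H in
lemma HypI.ne (hna : IsNonarchimedean w) (x : L) : Q.eval x ≠ 0 := by
  intro h
  rcases le_or_gt (w x) 1 with h1 | h1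
  · have := H.uQ x h1
    rw [h, map_zero] at this
    exact zero_ne_one this
  · have := eval_big hna H.iQ H.lQ h1
    rw [h, map_zero] at this
    have : 0 < w x ^ Q.natDegree := by positivity
    linarith

include H in
lemma HypI.grow (hna : IsNonarchimedean w) {x : L} (hx : 1 < w x) : w x < w (rm A Q x) := by
  unfold rm
  rw [map_div₀, eval_big hna H.iQ H.lQ hx, eval_big hna H.iA H.lA hx, H.dA,
    lt_div_iff₀ (by positivity), ← pow_succ']
  exact pow_lt_pow_right₀ hx (by have := H.he; omega)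

include H in
lemma HypI.esc (hna : IsNonarchimedean w) {x : L} (hx : 1 < w x) : ¬ PF (rm A Q) x := by
  intro h
  have key : ∀ i : ℕ, 1 < w ((rm A Q)^[i] x) := by
    intro i
    induction i with
    | zero => exact hx
    | succ i ih =>
      rw [iterate_succ_apply']
      exact ih.trans (H.grow hna ih)
  refine h.not_grow w fun i => ?_
  rw [iterate_succ_apply']
  exact H.grow hna (key i)

include H in
lemma HypI.lip (hna : IsNonarchimedean w) : Lip w (rm A Q) := by
  have e : rm A Q = fun x => A.eval x * (Q.eval x)⁻¹ := by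
    funext x
    exact div_eq_mul_inv _ _
  rw [e]
  exact (lip_poly hna H.iA).mul hna ((lip_poly hna H.iQ).inv H.uQ)

include H in
lemma HypI.lipD (hna : IsNonarchimedean w) : Lip w (dv A Q) := by
  have hA := lip_poly hna H.iA
  have hQ := lip_poly hna H.iQ
  have hA' := lip_poly hna (int_deriv hna H.iA)
  have hQ' := lip_poly hna (int_deriv hna H.iQ)
  have hi := hQ.inv H.uQ
  exact ((hA'.mul hna hQ).sub hna (hA.mul hna hQ')).mul hna (hi.mul hna hi)

include H in
lemma HypI.taylor (hna : IsNonarchimedean w) {x y : L} (hx : w x ≤ 1) (hy : w y ≤ 1) :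
    w (rm A Q x - rm A Q y - dv A Q y * (x - y)) ≤ w (x - y) ^ 2 := by
  have hx0 := H.ne hna x
  have hy0 := H.ne hna y
  have hA := lip_poly hna H.iA
  have hQ := lip_poly hna H.iQ
  have tA := taylor_int hna H.iA hx hy
  have tQ := taylor_int hna H.iQ hx hy
  have e : rm A Q x - rm A Q y - dv A Q y * (x - y) =
      ((A.eval x - A.eval y - A.derivative.eval y * (x - y)) * Q.eval y -
        A.eval y * (Q.eval x - Q.eval y - Q.derivative.eval y * (x - y))) /
          (Q.eval y * Q.eval y) -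
      ((A.eval x - A.eval y) * Q.eval y - A.eval y * (Q.eval x - Q.eval y)) *
        (Q.eval x - Q.eval y) / (Q.eval x * (Q.eval y * Q.eval y)) := by
    unfold rm dv
    field_simp
    ring
  have hsq : 0 ≤ w (x - y) ^ 2 := by positivity
  have h0 := w.nonneg (x - y)
  rw [e]
  refine (w_sub_le hna _ _).trans (max_le ?_ ?_)
  · rw [map_div₀, map_mul, H.uQ y hy, mul_one, div_one]
    refine (w_sub_le hna _ _).trans (max_le ?_ ?_)
    · rw [map_mul, H.uQ y hy, mul_one]
      exact tA
    · rw [map_mul]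
      calc _ ≤ 1 * w (x - y) ^ 2 := mul_le_mul (hA.1 y hy) tQ (w.nonneg _) zero_le_one
        _ = _ := one_mul _
  · rw [map_div₀, map_mul (w) (Q.eval x), map_mul w (Q.eval y), H.uQ y hy, H.uQ x hx, mul_one,
      mul_one, div_one, map_mul, pow_two]
    refine mul_le_mul ?_ (hQ.2 x y hx hy) (w.nonneg _) h0
    refine (w_sub_le hna _ _).trans (max_le ?_ ?_)
    · rw [map_mul, H.uQ y hy, mul_one]
      exact hA.2 x y hx hy
    · rw [map_mul]
      calc _ ≤ 1 * w (x - y) := mul_le_mul (hA.1 y hy) (hQ.2 x y hx hy) (w.nonneg _) zero_le_one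
        _ = _ := one_mul _

lemma lip_iter {f : L → L} (hf : Lip w f) {x : L} (hx : w x ≤ 1) (i : ℕ) : w (f^[i] x) ≤ 1 := by
  induction i with
  | zero => exact hx
  | succ i ih => rw [iterate_succ_apply']; exact hf.1 _ ih

include H in
/-- The universal period of the periodic points. -/
theorem HypI.per_bound (hna : IsNonarchimedean w) [CharZero L] [Algebra ℚ L]
    [FiniteDimensional ℚ L] (N : ℕ) (hN : finrank ℚ L ≤ N) {p : ℕ} (hp : p.Prime)
    (hwp : w (p : L) < 1) {x : L} {n : ℕ} (hn : 0 < n) (hx : (rm A Q)^[n] x = x) :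
    (rm A Q)^[per1 p N] x = x := by
  have hnz : NeZero n := ⟨hn.ne'⟩
  set f : L → L := rm A Q with hf
  have hP : IsPeriodicPt f n x := hx
  have hx1 : w x ≤ 1 := by
    by_contra hcon
    push Not at hcon
    exact H.esc hna hcon ⟨0, n, hn, by simpa using hx.symm⟩
  have hi := lip_iter (H.lip hna) hx1
  have hiD : ∀ i, w (dv A Q (f^[i] x)) ≤ 1 := fun i => (H.lipD hna).1 _ (hi i)
  let u : ZMod n → OO w hna := fun t => ⟨f^[t.val] x, hi _⟩
  let D : ZMod n → OO w hna := fun t => ⟨dv A Q (f^[t.val] x), hiD _⟩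
  have hu : ∀ i : ℕ, (u (i : ZMod n) : L) = f^[i] x := by
    intro i
    show f^[(i : ZMod n).val] x = _
    rw [ZMod.val_natCast, hP.iterate_mod_apply]
  have hu1 : ∀ t : ZMod n, (u (t + 1) : L) = f (u t : L) := by
    intro t
    have e : t + 1 = ((t.val + 1 : ℕ) : ZMod n) := by
      push_cast
      rw [ZMod.natCast_zmod_val]
    rw [e, hu, iterate_succ_apply']
  have h := period1 hna N hN hp hwp u D (fun s t => by
      rw [hu1, hu1]
      exact (H.lip hna).2 _ _ (u s).2 (u t).2) (fun s t => (H.lipD hna).2 _ _ (u s).2 (u t).2)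
      (fun s t => by
        rw [hu1, hu1]
        exact H.taylor hna (u s).2 (u t).2)
  have h0 := congrArg Subtype.val (h ((0 : ℕ) : ZMod n))
  rw [← Nat.cast_add] at h0
  have h1 : (u ((0 + per1 p N : ℕ) : ZMod n) : L) = u ((0 : ℕ) : ZMod n) := h0
  rw [hu, hu, zero_add] at h1
  exact h1

/-- two close members of a sequence in the unit disc -/
lemma close_pair (hna : IsNonarchimedean w) [CharZero L] [Algebra ℚ L]
    [FiniteDimensional ℚ L] (N : ℕ) (hN : finrank ℚ L ≤ N) {p : ℕ} (hp : p.Prime)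
    (hwp : w (p : L) < 1) (g : ℕ → L) (hg1 : ∀ i, w (g i) ≤ 1) :
    ∃ i j : ℕ, i < j ∧ j ≤ p ^ N ∧ w (g i - g j) < 1 := by
  classical
  by_contra hcon
  push Not at hcon
  have hg' : ∀ i j : ℕ, i ≤ p ^ N → j ≤ p ^ N → i ≠ j → 1 ≤ w (g i - g j) := by
    intro i j hi hj hij
    rcases lt_or_gt_of_ne hij with h | h
    · exact hcon i j h hj
    · have := hcon j i h hi
      rwa [← neg_sub, w_neg] at this
  have hinj : Set.InjOn g (Finset.range (p ^ N + 1) : Set ℕ) := by
    intro i hi j hj hij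
    by_contra hne
    rw [Finset.mem_coe, Finset.mem_range] at hi hj
    have := hg' i j (by omega) (by omega) hne
    rw [hij, sub_self, map_zero] at this
    linarith
  have hcard := card_le_of_incongruent hna N hN p hp.one_lt.le
    ((Finset.range (p ^ N + 1)).image g) (by
      intro y hy
      obtain ⟨i, -, rfl⟩ := Finset.mem_image.1 hy
      exact hg1 i) (by
      intro y hy z hz hyz
      obtain ⟨i, hi, rfl⟩ := Finset.mem_image.1 hy
      obtain ⟨j, hj, rfl⟩ := Finset.mem_image.1 hz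
      rw [Finset.mem_range] at hi hj
      refine lt_of_lt_of_le hwp (hg' i j (by omega) (by omega) ?_)
      rintro rfl
      exact hyz rfl)
  rw [Finset.card_image_of_injOn hinj, Finset.card_range] at hcard
  omega

/-- The universal equation for the preperiodic points of a local isometry. -/
theorem tail1 (hna : IsNonarchimedean w) [CharZero L] [Algebra ℚ L]
    [FiniteDimensional ℚ L] (N : ℕ) (hN : finrank ℚ L ≤ N) {p : ℕ} (hp : p.Prime)
    (hwp : w (p : L) < 1) {f : L → L} (hf : Lip w f)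
    (hiso : ∀ x y, w x ≤ 1 → w y ≤ 1 → w (x - y) < 1 → w (x - y) ≤ w (f x - f y))
    {x : L} (hx1 : w x ≤ 1) (hx : PF f x) :
    ∃ n : ℕ, 0 < n ∧ f^[n] (f^[p ^ N] x) = f^[p ^ N] x := by
  obtain ⟨s, n, hn, hper⟩ := hx.per
  have hi := lip_iter hf hx1
  obtain ⟨i, j, hij, hjN, hclose⟩ := close_pair hna N hN hp hwp (fun i => f^[i] x) hi
  have hne : ∀ a b : ℕ, w (f^[a + 1] x - f^[b + 1] x) ≤ w (f^[a] x - f^[b] x) := by
    intro a b
    rw [iterate_succ_apply', iterate_succ_apply']
    exact hf.2 _ _ (hi a) (hi b)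
  have hcl1 : ∀ l : ℕ, w (f^[i + l] x - f^[j + l] x) < 1 := by
    intro l
    induction l with
    | zero => exact hclose
    | succ l ih => exact lt_of_le_of_lt (hne _ _) ih
  have hcl2 : ∀ r l : ℕ, w (f^[i + l] x - f^[i + l + (j - i) * r] x) < 1 := by
    intro r
    induction r with
    | zero => intro l; simp
    | succ r ih =>
      intro l
      have h1 := ih l
      have h2 := hcl1 (l + (j - i) * r)
      have e1 : i + (l + (j - i) * r) = i + l + (j - i) * r := by ring
      have e2 : j + (l + (j - i) * r) = i + l + (j - i) * (r + 1) := by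
        obtain ⟨q, rfl⟩ := Nat.exists_eq_add_of_lt hij
        rw [show i + q + 1 - i = q + 1 by omega]
        ring
      rw [e1, e2] at h2
      have e3 : f^[i + l] x - f^[i + l + (j - i) * (r + 1)] x =
          (f^[i + l] x - f^[i + l + (j - i) * r] x) +
            (f^[i + l + (j - i) * r] x - f^[i + l + (j - i) * (r + 1)] x) := by ring
      rw [e3]
      exact lt_of_le_of_lt (hna _ _) (max_lt h1 h2)
  set T := (j - i) * n with hT
  have hT0 : 0 < T := Nat.mul_pos (by omega) hn
  have hstep : ∀ l : ℕ, w (f^[i + l + T] x - f^[i + l] x) ≤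
      w (f^[i + (l + 1) + T] x - f^[i + (l + 1)] x) := by
    intro l
    have e1 : i + (l + 1) + T = (i + l + T) + 1 := by ring
    have e2 : i + (l + 1) = (i + l) + 1 := by ring
    rw [e1, e2, iterate_succ_apply', iterate_succ_apply' f (i + l)]
    refine hiso _ _ (hi _) (hi _) ?_
    have := hcl2 n l
    rw [← w_neg, neg_sub] at this
    exact this
  have hmono : ∀ l : ℕ, w (f^[i + T] x - f^[i] x) ≤ w (f^[i + l + T] x - f^[i + l] x) := by
    intro l
    induction l with
    | zero => exact le_rfl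
    | succ l ih => exact ih.trans (hstep l)
  have hfin := hmono s
  have e4 : f^[i + s + T] x = f^[i + s] x := by
    rw [hT, mul_comm (j - i) n]
    exact hper _ (by omega) _
  rw [e4, sub_self, map_zero] at hfin
  have h0 : f^[i + T] x = f^[i] x :=
    sub_eq_zero.1 ((map_eq_zero w).1 (le_antisymm hfin (w.nonneg _)))
  refine ⟨T, hT0, ?_⟩
  obtain ⟨q, hq⟩ := Nat.exists_eq_add_of_le (show i ≤ p ^ N by omega)
  rw [← iterate_add_apply, hq, show T + (i + q) = q + (i + T) by ring, iterate_add_apply, h0,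
    ← iterate_add_apply, add_comm q i]

include H in
lemma HypI.iso (hna : IsNonarchimedean w) (hder : ∀ y, w y ≤ 1 → w (dv A Q y) = 1)
    {x y : L} (hx : w x ≤ 1) (hy : w y ≤ 1) (hxy : w (x - y) < 1) :
    w (x - y) ≤ w (rm A Q x - rm A Q y) := by
  by_cases hne : x = y
  · rw [hne]; simp
  have hE : 0 < w (x - y) := w.pos (sub_ne_zero.2 hne)
  have h1 := H.taylor hna hx hy
  have h2 : w (dv A Q y * (x - y)) = w (x - y) := by rw [map_mul, hder y hy, one_mul]
  have h3 : w (rm A Q x - rm A Q y - dv A Q y * (x - y)) < w (dv A Q y * (x - y)) := by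
    rw [h2]
    refine lt_of_le_of_lt h1 ?_
    rw [pow_two]
    nlinarith
  have h4 := w_add_eq hna h3
  rw [sub_add_cancel, h2] at h4
  exact h4.ge

end integral

section count

/-- numerators and denominators of the iterates -/
noncomputable def itr (A Q : L[X]) (d : ℕ) : ℕ → L[X] × L[X]
  | 0 => (X, 1)
  | n + 1 => (∑ k ∈ Finset.range (d + 1), C (A.coeff k) * (itr A Q d n).1 ^ k *
        (itr A Q d n).2 ^ (d - k),
      ∑ k ∈ Finset.range (d + 1), C (Q.coeff k) * (itr A Q d n).1 ^ k *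
        (itr A Q d n).2 ^ (d - k))

lemma hom_deg {F U V : L[X]} {d m : ℕ} (hU : U.natDegree ≤ m) (hV : V.natDegree ≤ m) :
    (∑ k ∈ Finset.range (d + 1), C (F.coeff k) * U ^ k * V ^ (d - k)).natDegree ≤ m * d := by
  refine natDegree_sum_le_of_forall_le _ _ fun k hk => ?_
  rw [Finset.mem_range] at hk
  refine (natDegree_mul_le).trans ?_
  have h1 : (C (F.coeff k) * U ^ k).natDegree ≤ m * k := by
    refine (natDegree_C_mul_le _ _).trans (natDegree_pow_le.trans ?_)
    rw [mul_comm m]
    exact Nat.mul_le_mul_left k hU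
  have h2 : (V ^ (d - k)).natDegree ≤ m * (d - k) := by
    refine natDegree_pow_le.trans ?_
    rw [mul_comm m]
    exact Nat.mul_le_mul_left _ hV
  calc _ ≤ m * k + m * (d - k) := add_le_add h1 h2
    _ = m * d := by rw [← mul_add]; congr 1; omega

lemma itr_deg (A Q : L[X]) (d n : ℕ) :
    (itr A Q d n).1.natDegree ≤ d ^ n ∧ (itr A Q d n).2.natDegree ≤ d ^ n := by
  induction n with
  | zero => simp [itr]
  | succ n ih =>
    rw [pow_succ]
    exact ⟨hom_deg ih.1 ih.2, hom_deg ih.1 ih.2⟩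

lemma hom_eval {F U V : L[X]} {d : ℕ} (hF : F.natDegree ≤ d) {x : L} (hV : V.eval x ≠ 0) :
    (∑ k ∈ Finset.range (d + 1), C (F.coeff k) * U ^ k * V ^ (d - k)).eval x =
      V.eval x ^ d * F.eval (U.eval x / V.eval x) := by
  rw [eval_eq_sum_range' (lt_of_le_of_lt hF (Nat.lt_succ_self d)), Finset.mul_sum, eval_finsetSum]
  refine Finset.sum_congr rfl fun k hk => ?_
  rw [Finset.mem_range] at hk
  simp only [eval_mul, eval_C, eval_pow, div_pow]
  have e : V.eval x ^ d = V.eval x ^ k * V.eval x ^ (d - k) := by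
    rw [← pow_add]; congr 1; omega
  rw [e]
  have := pow_ne_zero k hV
  field_simp

lemma itr_eval {A Q : L[X]} {d : ℕ} (hA : A.natDegree ≤ d) (hQd : Q.natDegree ≤ d)
    (hQ : ∀ x, Q.eval x ≠ 0) (n : ℕ) (x : L) : (itr A Q d n).2.eval x ≠ 0 ∧
      (itr A Q d n).1.eval x / (itr A Q d n).2.eval x = (rm A Q)^[n] x := by
  induction n with
  | zero => simp [itr]
  | succ n ih =>
    have h1 := hom_eval (U := (itr A Q d n).1) hA ih.1
    have h2 := hom_eval (U := (itr A Q d n).1) hQd ih.1
    have hv : (itr A Q d n).2.eval x ^ d ≠ 0 := pow_ne_zero d ih.1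
    rw [iterate_succ_apply', ← ih.2]
    simp only [itr]
    rw [h1, h2]
    refine ⟨mul_ne_zero hv (hQ _), ?_⟩
    rw [mul_div_mul_left _ _ hv]
    rfl

/-- solutions of `f^a(x) = f^b(x)` -/
lemma count_eq {A Q : L[X]} {d : ℕ} (hA : A.natDegree ≤ d) (hQd : Q.natDegree ≤ d)
    (hQ : ∀ x, Q.eval x ≠ 0) (a b : ℕ) (z : L) (hz : (rm A Q)^[a] z ≠ (rm A Q)^[b] z)
    (S : Finset L) (hS : ∀ x ∈ S, (rm A Q)^[a] x = (rm A Q)^[b] x) :
    S.card ≤ d ^ a + d ^ b := by
  classical
  set Z : L[X] := (itr A Q d a).1 * (itr A Q d b).2 - (itr A Q d b).1 * (itr A Q d a).2 with hZ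
  have hev : ∀ x, (Z.eval x = 0 ↔ (rm A Q)^[a] x = (rm A Q)^[b] x) := by
    intro x
    have ha := itr_eval hA hQd hQ a x
    have hb := itr_eval hA hQd hQ b x
    rw [← ha.2, ← hb.2, div_eq_div_iff ha.1 hb.1, hZ, Polynomial.eval_sub, eval_mul, eval_mul,
      sub_eq_zero]
  have hZ0 : Z ≠ 0 := by
    intro h
    apply hz
    rw [← hev, h, eval_zero]
  have hdeg : Z.natDegree ≤ d ^ a + d ^ b := by
    refine (natDegree_sub_le _ _).trans (max_le ?_ ?_)
    · exact natDegree_mul_le.trans (add_le_add (itr_deg A Q d a).1 (itr_deg A Q d b).2)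
    · refine natDegree_mul_le.trans ?_
      rw [add_comm]
      exact add_le_add (itr_deg A Q d a).2 (itr_deg A Q d b).1
  have hsub : S ⊆ Z.roots.toFinset := by
    intro x hx
    rw [Multiset.mem_toFinset, mem_roots hZ0, IsRoot.def, hev]
    exact hS x hx
  calc S.card ≤ Z.roots.toFinset.card := Finset.card_le_card hsub
    _ ≤ Multiset.card Z.roots := Multiset.toFinset_card_le _
    _ ≤ Z.natDegree := card_roots' _
    _ ≤ _ := hdeg

end count

section fin

variable {A Q : L[X]} {d : ℕ} (H : HypI w A Q d)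

include H in
lemma HypI.ne_iter (hna : IsNonarchimedean w) {z : L} (hz : 1 < w z) {a b : ℕ} (hab : b < a) :
    (rm A Q)^[a] z ≠ (rm A Q)^[b] z := by
  intro h
  exact H.esc hna hz ⟨b, a, hab, h.symm⟩

include H in
theorem HypI.count_per (hna : IsNonarchimedean w) [CharZero L] [Algebra ℚ L]
    [FiniteDimensional ℚ L] (N : ℕ) (hN : finrank ℚ L ≤ N) {p : ℕ} (hp : p.Prime)
    (hwp : w (p : L) < 1) (S : Finset L) (hS : ∀ x ∈ S, ∃ n : ℕ, 0 < n ∧ (rm A Q)^[n] x = x) :
    S.card ≤ d ^ per1 p N + d ^ 0 := by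
  have hz : 1 < w ((p : L)⁻¹) := by
    rw [map_inv₀]
    exact (one_lt_inv₀ (w.pos (by exact_mod_cast hp.ne_zero))).2 hwp
  refine count_eq H.dA.le (by have := H.he; omega) (H.ne hna) (per1 p N) 0 _
    (H.ne_iter hna hz (per1_pos p N)) S fun x hx => ?_
  obtain ⟨n, hn, hx⟩ := hS x hx
  exact H.per_bound hna N hN hp hwp hn hx

include H in
theorem HypI.count_pre (hna : IsNonarchimedean w) [CharZero L] [Algebra ℚ L]
    [FiniteDimensional ℚ L] (N : ℕ) (hN : finrank ℚ L ≤ N) {p : ℕ} (hp : p.Prime)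
    (hwp : w (p : L) < 1) (hder : ∀ y, w y ≤ 1 → w (dv A Q y) = 1)
    (S : Finset L) (hS : ∀ x ∈ S, PF (rm A Q) x) :
    S.card ≤ d ^ (per1 p N + p ^ N) + d ^ (p ^ N) := by
  have hz : 1 < w ((p : L)⁻¹) := by
    rw [map_inv₀]
    exact (one_lt_inv₀ (w.pos (by exact_mod_cast hp.ne_zero))).2 hwp
  refine count_eq H.dA.le (by have := H.he; omega) (H.ne hna) (per1 p N + p ^ N) (p ^ N) _
    (H.ne_iter hna hz (by have := per1_pos p N; omega)) S fun x hx => ?_
  have hx1 : w x ≤ 1 := by
    by_contra hcon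
    push Not at hcon
    exact H.esc hna hcon (hS x hx)
  obtain ⟨n, hn, hT⟩ := tail1 hna N hN hp hwp (H.lip hna)
    (fun a b ha hb hab => H.iso hna hder ha hb hab) hx1 (hS x hx)
  rw [iterate_add_apply]
  exact H.per_bound hna N hN hp hwp hn hT

end fin

end Pool.Agent.Q195.HR
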