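import Mathlib

set_option autoImplicit false

/-! An operator with a dense irregular manifold that is not densely uniformly Li-Yorke chaotic. -/

namespace Pool.Agent.Q195.IM

open Filter Topology
open scoped ENNReal

/-- `x` is irregular for `T`. -/
def Irregular {𝕜 X : Type*} [NontriviallyNormedField 𝕜] [NormedAddCommGroup X] [NormedSpace 𝕜 X]
    (T : X →L[𝕜] X) (x : X) : Prop :=
  (∀ ε : ℝ, 0 < ε → ∀ N : ℕ, ∃ n ≥ N, ‖(T ^ n) x‖ < ε) ∧ ∀ (C : ℝ) (N : ℕ), ∃ n ≥ N, C < ‖(T ^ n) x‖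

/-- `T` admits a dense irregular manifold. -/
def DenseIrregularManifold {𝕜 X : Type*} [NontriviallyNormedField 𝕜] [NormedAddCommGroup X]
    [NormedSpace 𝕜 X] (T : X →L[𝕜] X) : Prop :=
  ∃ Y : Submodule 𝕜 X, Dense (Y : Set X) ∧ ∀ y ∈ Y, y ≠ 0 → Irregular T y

/-- `S` is uniformly Li-Yorke scrambled for `T`. -/
def Scrambled {𝕜 X : Type*} [NontriviallyNormedField 𝕜] [NormedAddCommGroup X] [NormedSpace 𝕜 X]
    (T : X →L[𝕜] X) (S : Set X) : Prop :=
  S.Nontrivial ∧ ∃ p q : ℕ → ℕ, (∀ n, 0 < p n ∧ 0 < q n) ∧ ∀ x ∈ S, ∀ y ∈ S, x ≠ y →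
    Tendsto (fun n => ‖(T ^ p n) x - (T ^ p n) y‖) atTop (𝓝 0) ∧
    Tendsto (fun n => ‖(T ^ q n) x - (T ^ q n) y‖) atTop atTop

/-- `T` is densely uniformly Li-Yorke chaotic. -/
def DenselyULY {𝕜 X : Type*} [NontriviallyNormedField 𝕜] [NormedAddCommGroup X] [NormedSpace 𝕜 X]
    (T : X →L[𝕜] X) : Prop :=
  ∃ S : Set X, Dense S ∧ ¬ S.Countable ∧ Scrambled T S

/-- height in the blocks `[b², (b+1)²)` -/
def ht (n : ℕ) : ℕ := min (n - Nat.sqrt n ^ 2) (2 * Nat.sqrt n - (n - Nat.sqrt n ^ 2))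

/-- sign of the block -/
noncomputable def sg (A : Set ℕ) (b : ℕ) : ℤ :=
  open Classical in if b % 2 = 0 then 1 else if b / 2 ∈ A then -1 else 0

lemma sg_even (A : Set ℕ) (k : ℕ) : sg A (2 * k) = 1 := by
  simp [sg]

lemma sg_odd (A : Set ℕ) (k : ℕ) (hk : k ∈ A) : sg A (2 * k + 1) = -1 := by
  have h1 : (2 * k + 1) % 2 ≠ 0 := by omega
  have h2 : (2 * k + 1) / 2 = k := by omega
  simp only [sg]
  rw [if_neg h1, h2, if_pos hk]

lemma mem_of_sg_neg (A : Set ℕ) (b : ℕ) (h : sg A b < 0) : b / 2 ∈ A := by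
  classical
  unfold sg at h
  by_contra hb
  by_cases h1 : b % 2 = 0
  · rw [if_pos h1] at h; norm_num at h
  · rw [if_neg h1, if_neg hb] at h; norm_num at h

lemma sg_abs (A : Set ℕ) (b : ℕ) : sg A b ≤ 1 ∧ -1 ≤ sg A b := by
  unfold sg
  split_ifs <;> norm_num

/-- exponent -/
noncomputable def ex (A : Set ℕ) (n : ℕ) : ℤ := sg A (Nat.sqrt n) * ht n

lemma sqrt_eq_of (n b : ℕ) (h1 : b ^ 2 ≤ n) (h2 : n < (b + 1) ^ 2) : Nat.sqrt n = b := by
  have h3 : b ≤ Nat.sqrt n := Nat.le_sqrt'.mpr h1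
  have h4 : Nat.sqrt n < b + 1 := Nat.sqrt_lt'.mpr h2
  omega

lemma ex_step (A : Set ℕ) (n : ℕ) : ex A (n + 1) ≤ ex A n + 1 := by
  have hb1 : Nat.sqrt n ^ 2 ≤ n := Nat.sqrt_le' n
  have hb2 : n < (Nat.sqrt n + 1) ^ 2 := Nat.lt_succ_sqrt' n
  obtain ⟨b, hb⟩ : ∃ b, Nat.sqrt n = b := ⟨_, rfl⟩
  rw [hb] at hb1 hb2
  obtain ⟨h1, h2⟩ := sg_abs A b
  by_cases hlt : n + 1 < (b + 1) ^ 2
  · have hs : Nat.sqrt (n + 1) = b := sqrt_eq_of _ _ (by omega) hlt
    have hh : ((ht (n + 1) : ℕ) : ℤ) ≤ ht n + 1 ∧ (ht n : ℤ) ≤ ht (n + 1) + 1 := by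
      unfold ht
      rw [hs, hb]
      constructor
      · norm_cast; omega
      · norm_cast; omega
    unfold ex
    rw [hs, hb]
    nlinarith [hh.1, hh.2]
  · have he : n + 1 = (b + 1) ^ 2 := by omega
    have hs : Nat.sqrt (n + 1) = b + 1 := sqrt_eq_of _ _ (by omega) (by nlinarith)
    have hn : n = b ^ 2 + 2 * b := by nlinarith
    have h3 : ht (n + 1) = 0 := by
      unfold ht
      rw [hs, he]; simp
    have h4 : ht n = 0 := by
      unfold ht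
      rw [hb, hn]; omega
    unfold ex
    rw [h3, h4]; norm_num

lemma ex_mid (A : Set ℕ) (b j : ℕ) (hj : j ≤ b) : ex A (b ^ 2 + b + j) = sg A b * (b - j) := by
  have hs : Nat.sqrt (b ^ 2 + b + j) = b := sqrt_eq_of _ _ (by nlinarith) (by nlinarith)
  have hh : ((ht (b ^ 2 + b + j) : ℕ) : ℤ) = b - j := by
    unfold ht
    rw [hs]
    have : min (b ^ 2 + b + j - b ^ 2) (2 * b - (b ^ 2 + b + j - b ^ 2)) = b - j := by omega
    rw [this]
    push_cast [hj]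
    ring
  unfold ex
  rw [hs, hh]

/-- weights -/
noncomputable def W (A : Set ℕ) (n : ℕ) : ℝ := (2:ℝ) ^ (ex A n)

lemma W_pos (A : Set ℕ) (n : ℕ) : 0 < W A n := by unfold W; positivity

lemma W_step (A : Set ℕ) (n : ℕ) : W A (n + 1) ≤ 2 * W A n := by
  unfold W
  calc (2:ℝ) ^ (ex A (n + 1)) ≤ (2:ℝ) ^ (ex A n + 1) :=
        zpow_le_zpow_right₀ (by norm_num) (ex_step A n)
    _ = 2 * (2:ℝ) ^ (ex A n) := by
        rw [zpow_add₀ (by norm_num), zpow_one]; ring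

lemma mem_of_W_lt (A : Set ℕ) (n : ℕ) (h : W A n < 1) : Nat.sqrt n / 2 ∈ A := by
  apply mem_of_sg_neg
  by_contra hc
  push Not at hc
  have h1 : 0 ≤ ex A n := by
    unfold ex
    positivity
  have h2 : (1:ℝ) ≤ W A n := by
    unfold W
    exact one_le_zpow₀ (by norm_num) h1
  linarith

lemma W_even (A : Set ℕ) (k j : ℕ) (hj : j ≤ 2 * k) :
    W A ((2 * k) ^ 2 + 2 * k + j) = 2 ^ ((2 * (k:ℤ)) - j) := by
  unfold W
  rw [ex_mid A (2 * k) j hj, sg_even]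
  push_cast
  rw [one_mul]

lemma W_odd (A : Set ℕ) (k j : ℕ) (hj : j ≤ 2 * k + 1) (hk : k ∈ A) :
    W A ((2 * k + 1) ^ 2 + (2 * k + 1) + j) = 2 ^ ((j:ℤ) - (2 * k + 1)) := by
  unfold W
  rw [ex_mid A (2 * k + 1) j hj, sg_odd A k hk]
  push_cast
  congr 1; ring

/-- The index set. -/
abbrev Γ : Type := {A : Set ℕ // A ∈ hyperfilter ℕ}

variable (𝕜 : Type) [RCLike 𝕜]

/-- The space. -/
abbrev X : Type := lp (fun _ : Γ × ℕ => 𝕜) 1

variable {𝕜}

/-- The shift as a function. -/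
noncomputable def Tfun (x : Γ × ℕ → 𝕜) : Γ × ℕ → 𝕜 := fun p =>
  match p with
  | (_, 0) => 0
  | (A, j + 1) => ((W A.1 (j + 1) / W A.1 j : ℝ) : 𝕜) * x (A, j)

/-- The index shift. -/
def sh (p : Γ × ℕ) : Γ × ℕ := (p.1, p.2 + 1)

lemma sh_inj : Function.Injective sh := by
  rintro ⟨A, i⟩ ⟨B, j⟩ h
  simp only [sh, Prod.mk.injEq] at h
  ext1
  · exact h.1
  · simpa using h.2

lemma Tfun_off (x : Γ × ℕ → 𝕜) (p : Γ × ℕ) (hp : p ∉ Set.range sh) : Tfun x p = 0 := by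
  obtain ⟨A, i⟩ := p
  cases i with
  | zero => rfl
  | succ i => exact absurd ⟨(A, i), rfl⟩ hp

lemma Tfun_sh (x : Γ × ℕ → 𝕜) (p : Γ × ℕ) :
    Tfun x (sh p) = ((W p.1.1 (p.2 + 1) / W p.1.1 p.2 : ℝ) : 𝕜) * x p := rfl

lemma norm_Tfun_sh (x : Γ × ℕ → 𝕜) (p : Γ × ℕ) : ‖Tfun x (sh p)‖ ≤ 2 * ‖x p‖ := by
  rw [Tfun_sh, norm_mul]
  apply mul_le_mul_of_nonneg_right _ (norm_nonneg _)
  rw [RCLike.norm_ofReal, abs_of_pos (div_pos (W_pos _ _) (W_pos _ _)),
    div_le_iff₀ (W_pos _ _)]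
  exact W_step _ _

lemma hasSum_norm (x : X 𝕜) : HasSum (fun p => ‖x p‖) ‖x‖ := by
  have := lp.hasSum_norm (E := fun _ : Γ × ℕ => 𝕜) (p := 1) (by norm_num) x
  simpa using this

lemma memlp_of_summable (f : Γ × ℕ → 𝕜) (h : Summable fun p => ‖f p‖) : Memℓp f 1 := by
  apply memℓp_gen
  simpa using h

lemma Tfun_summable (x : X 𝕜) : Summable fun p => ‖Tfun (x : Γ × ℕ → 𝕜) p‖ := by
  have h1 : Summable ((fun p => ‖Tfun (x : Γ × ℕ → 𝕜) p‖) ∘ sh) := by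
    refine Summable.of_nonneg_of_le (fun p => norm_nonneg _) (fun p => norm_Tfun_sh _ p) ?_
    exact (hasSum_norm x).summable.mul_left 2
  refine (sh_inj.summable_iff ?_).mp h1
  intro p hp
  rw [Tfun_off _ p hp, norm_zero]

/-- The shift. -/
noncomputable def T : X 𝕜 →L[𝕜] X 𝕜 :=
  LinearMap.mkContinuous
    { toFun := fun x => ⟨Tfun (x : Γ × ℕ → 𝕜), memlp_of_summable _ (Tfun_summable x)⟩
      map_add' := by
        intro x y
        ext p
        obtain ⟨A, i⟩ := p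
        cases i with
        | zero => simp [Tfun]
        | succ i =>
          change ((W A.1 (i + 1) / W A.1 i : ℝ) : 𝕜) * (x (A, i) + y (A, i)) =
            ((W A.1 (i + 1) / W A.1 i : ℝ) : 𝕜) * x (A, i) +
            ((W A.1 (i + 1) / W A.1 i : ℝ) : 𝕜) * y (A, i)
          rw [← mul_add]
      map_smul' := by
        intro c x
        ext p
        obtain ⟨A, i⟩ := p
        cases i with
        | zero => simp [Tfun]
        | succ i =>
          change ((W A.1 (i + 1) / W A.1 i : ℝ) : 𝕜) * (c * x (A, i)) =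
            c * (((W A.1 (i + 1) / W A.1 i : ℝ) : 𝕜) * x (A, i))
          ring } 2 (by
    intro x
    have h1 := hasSum_norm (𝕜 := 𝕜) ⟨Tfun (x : Γ × ℕ → 𝕜), memlp_of_summable _ (Tfun_summable x)⟩
    have h2 : HasSum ((fun p => ‖Tfun (x : Γ × ℕ → 𝕜) p‖) ∘ sh)
      ‖(⟨Tfun (x : Γ × ℕ → 𝕜), memlp_of_summable _ (Tfun_summable x)⟩ : X 𝕜)‖ := by
      refine (sh_inj.hasSum_iff ?_).mpr h1
      intro p hp
      change ‖Tfun _ p‖ = 0
      rw [Tfun_off _ p hp, norm_zero]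
    exact hasSum_le (fun p => norm_Tfun_sh _ p) h2 ((hasSum_norm x).mul_left 2))

lemma T_zero (x : X 𝕜) (A : Γ) : (T x) (A, 0) = 0 := rfl

lemma T_succ (x : X 𝕜) (A : Γ) (j : ℕ) :
    (T x) (A, j + 1) = ((W A.1 (j + 1) / W A.1 j : ℝ) : 𝕜) * x (A, j) := rfl

lemma Tpow (n : ℕ) (x : X 𝕜) (A : Γ) (j : ℕ) :
    ((T ^ n) x) (A, j + n) = ((W A.1 (j + n) / W A.1 j : ℝ) : 𝕜) * x (A, j) := by
  induction n with
  | zero =>
    rw [pow_zero, add_zero, div_self (W_pos _ _).ne']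
    simp
  | succ n ih =>
    rw [pow_succ']
    change (T ((T ^ n) x)) (A, (j + n) + 1) = _
    rw [T_succ, ih, ← mul_assoc, ← RCLike.ofReal_mul]
    congr 2
    have h1 := (W_pos A.1 (j + n)).ne'
    have h2 := (W_pos A.1 j).ne'
    rw [← add_assoc]
    field_simp

lemma Tpow_lt (n : ℕ) (x : X 𝕜) (A : Γ) (i : ℕ) (hi : i < n) : ((T ^ n) x) (A, i) = 0 := by
  induction n generalizing i with
  | zero => omega
  | succ n ih =>
    rw [pow_succ']
    change (T ((T ^ n) x)) (A, i) = _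
    cases i with
    | zero => rfl
    | succ i => rw [T_succ, ih i (by omega), mul_zero]

lemma coord_le (x : X 𝕜) (p : Γ × ℕ) : ‖x p‖ ≤ ‖x‖ :=
  le_hasSum (hasSum_norm x) p (fun _ _ => norm_nonneg _)

/-- Lower bound. -/
lemma lower (n : ℕ) (x : X 𝕜) (A : Γ) (j : ℕ) :
    W A.1 (j + n) / W A.1 j * ‖x (A, j)‖ ≤ ‖(T ^ n) x‖ := by
  have h := coord_le ((T ^ n) x) (A, j + n)
  rw [Tpow, norm_mul, RCLike.norm_ofReal, abs_of_pos (div_pos (W_pos _ _) (W_pos _ _))] at h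
  exact h

/-- Unit vectors. -/
noncomputable def e (p : Γ × ℕ) : X 𝕜 :=
  open Classical in lp.single 1 p (1 : 𝕜)

lemma norm_e (p : Γ × ℕ) : ‖(e p : X 𝕜)‖ = 1 := by
  classical
  unfold e
  rw [lp.norm_single (by norm_num)]
  simp

lemma T_e (A : Γ) (j : ℕ) :
    T (e (A, j) : X 𝕜) = ((W A.1 (j + 1) / W A.1 j : ℝ) : 𝕜) • e (A, j + 1) := by
  classical
  ext p
  obtain ⟨B, i⟩ := p
  cases i with
  | zero =>
    rw [T_zero]
    change (0:𝕜) = _ * (e (A, j + 1) : X 𝕜) (B, 0)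
    unfold e
    rw [lp.single_apply_ne _ _ _ (by simp), mul_zero]
  | succ i =>
    rw [T_succ]
    change _ = _ * (e (A, j + 1) : X 𝕜) (B, i + 1)
    by_cases h : (B, i) = (A, j)
    · obtain ⟨rfl, rfl⟩ := Prod.mk.injEq _ _ _ _ ▸ h
      unfold e
      rw [lp.single_apply_self, lp.single_apply_self]
    · unfold e
      rw [lp.single_apply_ne _ _ _ h, lp.single_apply_ne _ _ _ (by
        intro h2
        apply h
        simp only [Prod.mk.injEq, add_left_inj] at h2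
        rw [h2.1, h2.2]), mul_zero, mul_zero]

lemma Tpow_e (n : ℕ) (A : Γ) (j : ℕ) :
    (T ^ n) (e (A, j) : X 𝕜) = ((W A.1 (j + n) / W A.1 j : ℝ) : 𝕜) • e (A, j + n) := by
  induction n with
  | zero =>
    rw [pow_zero, add_zero, div_self (W_pos _ _).ne']
    simp
  | succ n ih =>
    rw [pow_succ']
    change T ((T ^ n) (e (A, j) : X 𝕜)) = _
    rw [ih, map_smul, T_e, smul_smul, ← RCLike.ofReal_mul]
    congr 2
    have h1 := (W_pos A.1 (j + n)).ne'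
    have h2 := (W_pos A.1 j).ne'
    rw [← add_assoc]
    field_simp

lemma norm_Tpow_e (n : ℕ) (A : Γ) (j : ℕ) :
    ‖(T ^ n) (e (A, j) : X 𝕜)‖ = W A.1 (j + n) / W A.1 j := by
  rw [Tpow_e, norm_smul, norm_e, mul_one, RCLike.norm_ofReal,
    abs_of_pos (div_pos (W_pos _ _) (W_pos _ _))]

/-- good times -/
def tm (k : ℕ) : ℕ := (2 * k + 1) ^ 2 + (2 * k + 1)

lemma tendsto_e (p : Γ × ℕ) :
    Tendsto (fun k => (T ^ (tm k)) (e p : X 𝕜)) (hyperfilter ℕ) (𝓝 0) := by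
  obtain ⟨A, j⟩ := p
  rw [tendsto_zero_iff_norm_tendsto_zero]
  have h1 : (fun k => ‖(T ^ (tm k)) (e (A, j) : X 𝕜)‖) =ᶠ[(hyperfilter ℕ : Filter ℕ)]
      fun k => (2:ℝ) ^ ((j:ℤ) - (2 * k + 1)) / W A.1 j := by
    have hA : A.1 ∈ (hyperfilter ℕ : Filter ℕ) := A.2
    have hc : {k : ℕ | j ≤ k} ∈ (hyperfilter ℕ : Filter ℕ) := by
      apply Nat.hyperfilter_le_atTop
      exact mem_atTop j
    filter_upwards [hA, hc] with k hk hk2
    rw [norm_Tpow_e]
    congr 1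
    rw [add_comm, tm, W_odd A.1 k j (by change j ≤ k at hk2; omega) hk]
  rw [tendsto_congr' h1]
  have h2 : Tendsto (fun k : ℕ => (2:ℝ) ^ ((j:ℤ) - (2 * k + 1)) / W A.1 j) atTop (𝓝 0) := by
    have h3 : (fun k : ℕ => (2:ℝ) ^ ((j:ℤ) - (2 * k + 1)) / W A.1 j) =
        fun k : ℕ => ((2:ℝ) ^ ((j:ℤ) - 1) / W A.1 j) * ((1/4:ℝ)) ^ k := by
      funext k
      have h4 : (2:ℝ) ^ ((j:ℤ) - (2 * k + 1)) = (2:ℝ) ^ ((j:ℤ) - 1) * ((1/4:ℝ)) ^ k := by
        have : ((j:ℤ) - (2 * k + 1)) = ((j:ℤ) - 1) - ((2 * k : ℕ) : ℤ) := by push_cast; ring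
        rw [this, zpow_sub₀ (by norm_num), zpow_natCast, pow_mul]
        rw [one_div, inv_pow, div_eq_mul_inv]
        norm_num
      rw [h4]; ring
    rw [h3]
    have := (tendsto_pow_atTop_nhds_zero_of_lt_one (r := (1/4:ℝ)) (by norm_num) (by norm_num)).const_mul
      ((2:ℝ) ^ ((j:ℤ) - 1) / W A.1 j)
    simpa using this
  exact h2.mono_left Nat.hyperfilter_le_atTop

/-- The manifold. -/
noncomputable def Y (𝕜 : Type) [RCLike 𝕜] : Submodule 𝕜 (X 𝕜) := Submodule.span 𝕜 (Set.range e)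

lemma dense_Y : Dense (Y 𝕜 : Set (X 𝕜)) := by
  classical
  intro x
  have h := lp.hasSum_single (E := fun _ : Γ × ℕ => 𝕜) (p := 1) (by norm_num) x
  refine mem_closure_of_tendsto h (Eventually.of_forall fun s => ?_)
  refine Submodule.sum_mem _ fun i _ => ?_
  have : lp.single 1 i (x i) = (x i) • (e i : X 𝕜) := by
    unfold e
    rw [← lp.single_smul]
    simp
  rw [this]
  exact Submodule.smul_mem _ _ (Submodule.subset_span ⟨i, rfl⟩)

lemma tendsto_Y (y : X 𝕜) (hy : y ∈ Y 𝕜) :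
    Tendsto (fun k => (T ^ (tm k)) y) (hyperfilter ℕ) (𝓝 0) := by
  unfold Y at hy
  induction hy using Submodule.span_induction with
  | mem x hx =>
    obtain ⟨p, rfl⟩ := hx
    exact tendsto_e p
  | zero => simpa using tendsto_const_nhds
  | add x y _ _ hx hy =>
    have := hx.add hy
    simpa using this
  | smul c x _ hx =>
    have := hx.const_smul c
    simpa using this

lemma irregular_Y (y : X 𝕜) (hy : y ∈ Y 𝕜) (h0 : y ≠ 0) : Irregular (T : X 𝕜 →L[𝕜] X 𝕜) y := by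
  constructor
  · intro ε hε N
    have h1 := (tendsto_zero_iff_norm_tendsto_zero.mp (tendsto_Y y hy)).eventually (gt_mem_nhds hε)
    have hc : {k : ℕ | N ≤ k} ∈ (hyperfilter ℕ : Filter ℕ) := by
      apply Nat.hyperfilter_le_atTop
      exact mem_atTop N
    obtain ⟨k, hk1, hk2⟩ := (h1.and hc).exists
    refine ⟨tm k, ?_, hk1⟩
    change N ≤ k at hk2
    unfold tm
    nlinarith
  · intro C N
    obtain ⟨p, hp⟩ : ∃ p, y p ≠ 0 := by
      by_contra hc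
      push Not at hc
      apply h0
      ext p
      exact hc p
    obtain ⟨A, j⟩ := p
    have h1 : 0 < ‖y (A, j)‖ := norm_pos_iff.mpr hp
    have h2 := W_pos A.1 j
    have h3 : Tendsto (fun k : ℕ => (4:ℝ) ^ k * (2 ^ (-(j:ℤ)) / W A.1 j * ‖y (A, j)‖)) atTop atTop :=
      (tendsto_pow_atTop_atTop_of_one_lt (by norm_num : (1:ℝ) < 4)).atTop_mul_const (by positivity)
    obtain ⟨k, hk1, hk2⟩ := ((h3.eventually_gt_atTop C).and (eventually_ge_atTop (N + j))).exists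
    refine ⟨(2 * k) ^ 2 + 2 * k, by nlinarith, lt_of_lt_of_le hk1 ?_⟩
    refine le_trans (le_of_eq ?_) (lower ((2 * k) ^ 2 + 2 * k) y A j)
    rw [add_comm j, W_even A.1 k j (by omega)]
    have h4 : (2:ℝ) ^ ((2 * (k:ℤ)) - j) = 4 ^ k * 2 ^ (-(j:ℤ)) := by
      rw [sub_eq_add_neg, zpow_add₀ (by norm_num)]
      congr 1
      have : (2 * (k:ℤ)) = ((2 * k : ℕ) : ℤ) := by push_cast; ring
      rw [this, zpow_natCast, pow_mul]; norm_num
    rw [h4]; ring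

/-- No dense scrambled set. -/
lemma no_dense (S : Set (X 𝕜)) (hS : Dense S) : ¬ Scrambled (T : X 𝕜 →L[𝕜] X 𝕜) S := by
  rintro ⟨-, p, q, -, h⟩
  -- the block index tends to the ultrafilter
  have key : ∀ A ∈ hyperfilter ℕ, ∀ᶠ n in atTop, Nat.sqrt (p n) / 2 ∈ A := by
    intro A hA
    let A' : Γ := ⟨A, hA⟩
    obtain ⟨x, hx, hxS⟩ := Metric.dense_iff.mp hS (e (A', 0)) (1/2) (by norm_num)
    obtain ⟨y, hy, hyS⟩ := Metric.dense_iff.mp hS 0 (1/2) (by norm_num)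
    have h1 : ‖x (A', 0) - 1‖ < 1/2 := by
      have := coord_le (x - e (A', 0)) (A', 0)
      have h2 : (x - e (A', 0) : X 𝕜) (A', 0) = x (A', 0) - 1 := by
        classical
        change x (A', 0) - (e (A', 0) : X 𝕜) (A', 0) = _
        unfold e
        rw [lp.single_apply_self]
      rw [h2] at this
      exact lt_of_le_of_lt this (by simpa [dist_eq_norm] using hx)
    have h2 : ‖y (A', 0)‖ < 1/2 := by
      have := coord_le y (A', 0)
      exact lt_of_le_of_lt this (by simpa [dist_eq_norm] using hy)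
    have h3 : (x - y : X 𝕜) (A', 0) ≠ 0 := by
      intro hc
      change x (A', 0) - y (A', 0) = 0 at hc
      have h4 : ‖(1:𝕜)‖ ≤ ‖x (A', 0) - 1‖ + ‖y (A', 0)‖ := by
        have : (1:𝕜) = -(x (A', 0) - 1) + y (A', 0) := by
          rw [sub_eq_zero.mp hc]; ring
        calc ‖(1:𝕜)‖ = ‖-(x (A', 0) - 1) + y (A', 0)‖ := by rw [← this]
          _ ≤ ‖-(x (A', 0) - 1)‖ + ‖y (A', 0)‖ := norm_add_le _ _
          _ = _ := by rw [norm_neg]
      rw [norm_one] at h4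
      linarith
    have hne : x ≠ y := by
      rintro rfl
      apply h3
      simp
    obtain ⟨h4, -⟩ := h x hxS y hyS hne
    have h5 : 0 < ‖(x - y : X 𝕜) (A', 0)‖ := norm_pos_iff.mpr h3
    have h6 := W_pos A 0
    have h7 : ∀ᶠ n in atTop, ‖(T ^ p n) x - (T ^ p n) y‖ < ‖(x - y : X 𝕜) (A', 0)‖ / W A 0 :=
      h4.eventually (gt_mem_nhds (by positivity))
    filter_upwards [h7] with n hn
    apply mem_of_W_lt
    rw [← map_sub] at hn
    have h8 := lower (p n) (x - y) A' 0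
    rw [zero_add] at h8
    have h9 := lt_of_le_of_lt h8 hn
    change W A (p n) / W A 0 * _ < _ at h9
    rw [div_mul_eq_mul_div, div_lt_div_iff_of_pos_right h6] at h9
    by_contra hc
    push Not at hc
    nlinarith
  have hk : Tendsto (fun n => Nat.sqrt (p n) / 2) atTop atTop := by
    rw [tendsto_atTop]
    intro N
    exact key {k | N ≤ k} (Nat.hyperfilter_le_atTop (mem_atTop N))
  obtain ⟨φ, hφ, hφ2⟩ := strictMono_subseq_of_tendsto_atTop hk
  rcases (hyperfilter ℕ).mem_or_compl_mem (Set.range fun m => Nat.sqrt (p (φ (2 * m))) / 2) with hA | hA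
  · obtain ⟨N, hN⟩ := eventually_atTop.mp (hφ.tendsto_atTop.eventually (key _ hA))
    obtain ⟨m, hm⟩ := hN (2 * N + 1) (by omega)
    have := hφ2.injective hm
    omega
  · obtain ⟨N, hN⟩ := eventually_atTop.mp (hφ.tendsto_atTop.eventually (key _ hA))
    exact hN (2 * N) (by omega) ⟨N, rfl⟩

theorem main (𝕜 : Type) [RCLike 𝕜] :
    ∃ (X : Type) (_ : NormedAddCommGroup X) (_ : NormedSpace 𝕜 X) (_ : CompleteSpace X)
      (T : X →L[𝕜] X), DenseIrregularManifold T ∧ ¬ DenselyULY T :=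
  ⟨X 𝕜, inferInstance, inferInstance, inferInstance, T,
    ⟨Y 𝕜, dense_Y, fun y hy h0 => irregular_Y y hy h0⟩, fun ⟨S, hS, _, h⟩ => no_dense S hS h⟩

end Pool.Agent.Q195.IM
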