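import Pool.Agent.Q195.LG2
import Pool.Agent.W238.Leh.Canon

/-!
# Residue fields of finite places; canonical heights for forms with arbitrary coefficients
-/

set_option autoImplicit false

namespace Pool.Agent.Q195.LG

open Module Function NumberField MvPolynomial Filter Topology
open Pool.Agent.Q195.HD Pool.Agent.W238.Leh

section places

variable {L : Type*} [Field L] [NumberField L]

lemma w_int_lt (w : FinitePlace L) (a : 𝓞 L) : w (a : L) < 1 ↔ a ∈ w.maximalIdeal.asIdeal := by
  rw [← w.norm_embedding_eq]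
  exact FinitePlace.norm_lt_one_iff_mem (K := L) w.maximalIdeal a

lemma w_int_eq (w : FinitePlace L) (a : 𝓞 L) : w (a : L) = 1 ↔ a ∉ w.maximalIdeal.asIdeal := by
  rw [← w.norm_embedding_eq]
  exact FinitePlace.norm_eq_one_iff_notMem (K := L) w.maximalIdeal a

lemma frac (w : FinitePlace L) {u : L} (hu : w u = 1) :
    ∃ a b : 𝓞 L, w (a : L) = 1 ∧ w (b : L) = 1 ∧ u * (b : L) = a := by
  obtain ⟨n, d, h⟩ := w.maximalIdeal.exists_primeCompl_mul_eq_or_mul_eq (K := L) u
  have hd : w ((d : 𝓞 L) : L) = 1 := (w_int_eq w _).2 d.2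
  rcases h with h | h
  · refine ⟨n, d, ?_, hd, h⟩
    have h1 := congrArg w h
    rw [map_mul, hu, one_mul] at h1
    rw [← hd]
    exact h1.symm
  · refine ⟨d, n, hd, ?_, h⟩
    have h1 := congrArg w h
    rw [map_mul, hu, one_mul] at h1
    rw [← hd]
    exact h1

/-- the norm of the prime ideal of a finite place -/
noncomputable def qn (w : FinitePlace L) : ℕ := Ideal.absNorm w.maximalIdeal.asIdeal

lemma pow_int (w : FinitePlace L) (a : 𝓞 L) (ha : w (a : L) = 1) :
    w ((a : L) ^ (qn w - 1) - 1) < 1 := by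
  have hmax : w.maximalIdeal.asIdeal.IsMaximal := w.maximalIdeal.isMaximal
  let _ : Field (𝓞 L ⧸ w.maximalIdeal.asIdeal) := Ideal.Quotient.field _
  have hfin : Finite (𝓞 L ⧸ w.maximalIdeal.asIdeal) :=
    Ideal.finiteQuotientOfFreeOfNeBot _ w.maximalIdeal.ne_bot
  let _ : Fintype (𝓞 L ⧸ w.maximalIdeal.asIdeal) := Fintype.ofFinite _
  have hcard : Fintype.card (𝓞 L ⧸ w.maximalIdeal.asIdeal) = qn w := by
    rw [← Nat.card_eq_fintype_card]
    rfl
  have h1 : (Ideal.Quotient.mk w.maximalIdeal.asIdeal a) ≠ 0 := by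
    rw [Ne, Ideal.Quotient.eq_zero_iff_mem]
    exact (w_int_eq w a).1 ha
  have h2 := FiniteField.pow_card_sub_one_eq_one _ h1
  rw [hcard, ← map_pow, ← map_one (Ideal.Quotient.mk w.maximalIdeal.asIdeal),
    Ideal.Quotient.eq] at h2
  have h3 := (w_int_lt w _).2 h2
  have e : (((a ^ (qn w - 1) - 1 : 𝓞 L)) : L) = (a : L) ^ (qn w - 1) - 1 := by
    push_cast
    rfl
  rwa [e] at h3

lemma na (w : FinitePlace L) : IsNonarchimedean (w.val) := fun x y => w.add_le x y

lemma pow_unit (w : FinitePlace L) {u : L} (hu : w u = 1) : w (u ^ (qn w - 1) - 1) < 1 := by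
  obtain ⟨a, b, ha, hb, h⟩ := frac w hu
  have hb0 : (b : L) ≠ 0 := by
    intro h0
    rw [h0, map_zero] at hb
    exact zero_ne_one hb
  have e : u = (a : L) / b := by
    rw [← h]
    field_simp
  have e2 : u ^ (qn w - 1) - 1 = (((a : L) ^ (qn w - 1) - 1) - ((b : L) ^ (qn w - 1) - 1)) /
      (b : L) ^ (qn w - 1) := by
    rw [e, div_pow]
    field_simp
    ring
  rw [e2, map_div₀, map_pow, hb, one_pow, div_one]
  exact lt_of_le_of_lt (w_sub_le (na w) _ _) (max_lt (pow_int w a ha) (pow_int w b hb))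

lemma root (w : FinitePlace L) {d : ℕ} (hd : Nat.Coprime d (qn w - 1)) (u : L) (hu : w u = 1)
    (h : w (u ^ d - 1) < 1) : w (u - 1) < 1 :=
  root_of_coprime (na w) hu _ d (qn w - 1) le_rfl hd h (pow_unit w hu)

lemma wq_lt (w : FinitePlace L) : w ((qn w : ℕ) : L) < 1 := by
  have h : ((qn w : ℕ) : 𝓞 L) ∈ w.maximalIdeal.asIdeal := Ideal.absNorm_mem _
  have := (w_int_lt w _).2 h
  simpa using this

lemma wd (w : FinitePlace L) {d : ℕ} (hd : Nat.Coprime d (qn w)) : w ((d : ℕ) : L) = 1 :=
  w_coprime (na w) (wq_lt w) hd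

end places

lemma aeval_smul_hom {K M : Type*} [Field K] [Field M] [Algebra K M] {N : ℕ}
    {p : MvPolynomial (Fin (N + 1)) K} {m : ℕ} (hp : p.IsHomogeneous m)
    (b : M) (z : Fin (N + 1) → M) : aeval (b • z) p = b ^ m * aeval z p := by
  rw [p.as_sum, map_sum, map_sum, Finset.mul_sum]
  refine Finset.sum_congr rfl fun s hs => ?_
  have h1 : ∑ i, s i = m := by
    have := hp (mem_support_iff.mp hs)
    rw [← this]
    have h3 := Finsupp.degree_eq_sum (σ := Fin (N + 1)) s
    rw [← h3, Finsupp.degree_eq_weight_one]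
    rfl
  rw [aeval_monomial, aeval_monomial, Finsupp.prod_fintype _ _ (by simp),
    Finsupp.prod_fintype _ _ (by simp)]
  simp only [Pi.smul_apply, smul_eq_mul, mul_pow]
  rw [Finset.prod_mul_distrib, Finset.prod_pow_eq_pow_sum, h1]
  ring

lemma act_smul {K M : Type*} [Field K] [Field M] [Algebra K M] {N d : ℕ}
    {F : Fin (N + 1) → MvPolynomial (Fin (N + 1)) K} (hF : ∀ i, (F i).IsHomogeneous d)
    (b : M) (z : Fin (N + 1) → M) :
    act F (b • z) = b ^ d • act F z := by
  funext i
  simp only [act, Pi.smul_apply, smul_eq_mul]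
  exact aeval_smul_hom (hF i) b z

/-- canonical heights for forms with arbitrary coefficients -/
theorem exists_heights (K : Type) [Field K] [NumberField K] (N d : ℕ) (hd : 2 ≤ d)
    (F : Fin (N + 1) → MvPolynomial (Fin (N + 1)) K) (hF : ∀ i, (F i).IsHomogeneous d)
    (hmor : ∀ z : Fin (N + 1) → AlgebraicClosure K, (∀ i, aeval z (F i) = 0) → z = 0) :
    ∃ C : ℝ, 0 ≤ C ∧ ∀ (L : Type) [Field L] [NumberField L] [Algebra K L]
      (z : Fin (N + 1) → L), z ≠ 0 →
      (∀ n, (act F)^[n] z ≠ 0) ∧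
      Tendsto (fun n : ℕ => Height.logHeight ((act F)^[n] z) /
          ((finrank ℚ L : ℝ) * (d : ℝ) ^ n)) atTop (𝓝 (canH F d z)) ∧
      |Height.logHeight z / finrank ℚ L - canH F d z| ≤ C ∧
      (∀ n, canH F d ((act F)^[n] z) = d ^ n * canH F d z) ∧
      Height.logHeight (act F z) ≤ d * Height.logHeight z + finrank ℚ L * C := by
  classical
  -- integral forms
  set T : Finset K := Finset.univ.biUnion fun i => (F i).support.image (F i).coeff with hT
  obtain ⟨a, ha, haT⟩ := exists_denom T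
  have haK : (a : K) ≠ 0 := by
    have : a ≠ 0 := by omega
    exact_mod_cast this
  set F' : Fin (N + 1) → MvPolynomial (Fin (N + 1)) K := fun i => C (a : K) * F i with hF'
  have hhom : ∀ i, (F' i).IsHomogeneous d := by
    intro i
    have h7 := (isHomogeneous_C (Fin (N + 1)) (a : K)).mul (hF i)
    rwa [zero_add] at h7
  have hint : ∀ i s, IsIntegral ℤ ((F' i).coeff s) := by
    intro i s
    simp only [hF', coeff_C_mul]
    by_cases hs : s ∈ (F i).support
    · apply haT
      rw [hT]
      simp only [Finset.mem_biUnion, Finset.mem_image]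
      exact ⟨i, Finset.mem_univ _, s, hs, rfl⟩
    · rw [notMem_support_iff.mp hs, mul_zero]
      exact isIntegral_zero
  have hmor' : ∀ z : Fin (N + 1) → AlgebraicClosure K, (∀ i, aeval z (F' i) = 0) → z = 0 := by
    intro z hz
    apply hmor
    intro i
    have h1 := hz i
    simp only [hF', map_mul, aeval_C] at h1
    refine (mul_eq_zero.mp h1).resolve_left ?_
    rw [map_natCast]
    have : a ≠ 0 := by omega
    exact_mod_cast this
  obtain ⟨c, hc0⟩ := exists_mem_span hmor'
  have hc : ∀ m, c + d ≤ m → ∀ p : MvPolynomial (Fin (N + 1)) K, p.IsHomogeneous m →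
      p ∈ Ideal.span (Set.range F') := fun m hm p hp => hc0 m (by omega) p hp
  obtain ⟨A, b, hB⟩ := exists_bds (by omega) hhom hint hc
  refine ⟨hC A b, hB.hC_nonneg, fun L _ _ _ z hz => ?_⟩
  have haL : (a : L) ≠ 0 := by
    have : a ≠ 0 := by omega
    exact_mod_cast this
  have hact : ∀ z : Fin (N + 1) → L, act F' z = (a : L) • act F z := by
    intro z
    funext i
    simp only [act, hF', map_mul, map_natCast, Pi.smul_apply, smul_eq_mul]
  have hiter : ∀ (n : ℕ) (z : Fin (N + 1) → L), ∃ c : L, c ≠ 0 ∧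
      (act F')^[n] z = c • (act F)^[n] z := by
    intro n z
    induction n with
    | zero => exact ⟨1, one_ne_zero, by simp⟩
    | succ n ih =>
      obtain ⟨c, hc, h⟩ := ih
      refine ⟨a * c ^ d, mul_ne_zero haL (pow_ne_zero _ hc), ?_⟩
      rw [Function.iterate_succ_apply', Function.iterate_succ_apply', h, hact,
        act_smul hF, smul_smul]
  have hseq : ∀ z : Fin (N + 1) → L, (fun n : ℕ => Height.logHeight ((act F')^[n] z) /
      ((finrank ℚ L : ℝ) * (d : ℝ) ^ n)) = fun n : ℕ => Height.logHeight ((act F)^[n] z) /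
      ((finrank ℚ L : ℝ) * (d : ℝ) ^ n) := by
    intro z
    funext n
    obtain ⟨c, hc, h⟩ := hiter n z
    rw [h, Height.logHeight_smul_eq_logHeight _ hc]
  have hcan : ∀ z : Fin (N + 1) → L, canH F' d z = canH F d z := by
    intro z
    unfold canH
    rw [hseq]
  have hne : ∀ n, (act F)^[n] z ≠ 0 := by
    intro n h0
    obtain ⟨c, hc, h⟩ := hiter n z
    rw [h0, smul_zero] at h
    exact hB.iter_ne_zero hz n h
  refine ⟨hne, ?_, ?_, ?_, ?_⟩
  · have h1 := hB.canH_tendsto hd hz
    rw [hcan, hseq] at h1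
    exact h1
  · rw [← hcan]
    exact hB.abs_canH hd hz
  · intro n
    obtain ⟨c, hc, h⟩ := hiter n z
    have h1 := hB.canH_iter hd hz n
    rw [hcan, hcan, h] at h1
    rw [← h1]
    -- the canonical height is invariant under scaling
    have hsc : ∀ (k : ℕ) (y : Fin (N + 1) → L), ∃ e : L, e ≠ 0 ∧
        (act F)^[k] (c • y) = e • (act F)^[k] y := by
      intro k y
      induction k with
      | zero => exact ⟨c, hc, rfl⟩
      | succ k ih =>
        obtain ⟨e, he, h⟩ := ih
        refine ⟨e ^ d, pow_ne_zero _ he, ?_⟩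
        rw [Function.iterate_succ_apply', Function.iterate_succ_apply', h, act_smul hF]
    unfold canH
    congr 1
    funext k
    obtain ⟨e, he, h2⟩ := hsc k ((act F)^[n] z)
    rw [h2, Height.logHeight_smul_eq_logHeight _ he]
  · have h1 := hB.height_upper hz
    rw [hact, Height.logHeight_smul_eq_logHeight _ haL] at h1
    exact h1

end Pool.Agent.Q195.LG
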