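import Pool.Agent.Q195.HP1

/-!
# Local analysis of `A x^[d] + h(x) + c` with a large constant vector: quantitative form
-/

set_option autoImplicit false

namespace Pool.Agent.Q195.LG

open Module Function Pool.Agent.Q195.HD Pool.Agent.Q195.HR
open Pool.Agent.Q195.HP (nm le_nm nm_le exists_nm nm_nonneg mat_le)

variable {L : Type*} [Field L] {w : AbsoluteValue L ℝ} {ι : Type*} [Fintype ι]

/-- the map `A x^[d] + h(x) + c` -/
noncomputable def gmap (A : Matrix ι ι L) (d : ℕ) (h : ι → (ι → L) → L) (c : ι → L)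
    (x : ι → L) : ι → L :=
  fun i => ∑ j, A i j * x j ^ d + h i x + c i

/-- the hypotheses -/
structure Hyp (w : AbsoluteValue L ℝ) (A B : Matrix ι ι L) (d : ℕ) (h : ι → (ι → L) → L)
    (c : ι → L) (ρ : ℝ) : Prop where
  hd : 2 ≤ d
  iA : ∀ i j, w (A i j) ≤ 1
  iB : ∀ i j, w (B i j) ≤ 1
  inv : ∀ (y : ι → L) (i : ι), ∑ j, B i j * (∑ l, A j l * y l) = y i
  hle : ∀ (i : ι) (M : ℝ), 1 ≤ M → ∀ x : ι → L, (∀ i, w (x i) ≤ M) → w (h i x) ≤ M ^ (d - 1)
  hdiff : ∀ (i : ι) (M E : ℝ), 1 ≤ M → ∀ x y : ι → L, (∀ i, w (x i) ≤ M) → (∀ i, w (y i) ≤ M) →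
    0 ≤ E → (∀ i, w (x i - y i) ≤ E) → w (h i x - h i y) * M ≤ M ^ (d - 1) * E
  ρ1 : 1 < ρ
  gen : ∀ i, w (∑ j, B i j * c j) = ρ
  hwd : w (d : L) = 1
  root : ∀ u : L, w u = 1 → w (u ^ d - 1) < 1 → w (u - 1) < 1

section main

variable {A B : Matrix ι ι L} {d : ℕ} {h : ι → (ι → L) → L} {c : ι → L} {ρ : ℝ}

/-- `B f(x)` -/
noncomputable def gm (A B : Matrix ι ι L) (d : ℕ) (h : ι → (ι → L) → L) (c : ι → L)
    (x : ι → L) (i : ι) : L := ∑ j, B i j * gmap A d h c x j

lemma gm_eq (hH : Hyp w A B d h c ρ) (x : ι → L) (i : ι) : gm A B d h c x i =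
    x i ^ d + (∑ j, B i j * h j x) + ∑ j, B i j * c j := by
  unfold gm gmap
  have h := hH.inv (fun l => x l ^ d) i
  rw [← h, ← Finset.sum_add_distrib, ← Finset.sum_add_distrib]
  exact Finset.sum_congr rfl fun j _ => by ring

variable [Nonempty ι]

/-- `B` preserves the norm -/
lemma nm_gm (hna : IsNonarchimedean w) (hH : Hyp w A B d h c ρ) (x : ι → L) (i : ι) :
    w (gm A B d h c x i) ≤ nm w (gmap A d h c x) :=
  mat_le hna hH.iB _ (nm_nonneg _) (fun j => le_nm _ j) i

lemma nm_gm_sub (hna : IsNonarchimedean w) (hH : Hyp w A B d h c ρ) (x y : ι → L) (i : ι) :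
    w (gm A B d h c x i - gm A B d h c y i) ≤
      nm w (fun j => gmap A d h c x j - gmap A d h c y j) := by
  unfold gm
  rw [← Finset.sum_sub_distrib]
  have := mat_le hna hH.iB (fun j => gmap A d h c x j - gmap A d h c y j) (nm_nonneg _)
    (fun j => le_nm (w := w) (fun j => gmap A d h c x j - gmap A d h c y j) j) i
  simpa only [mul_sub] using this

lemma rest_le (hna : IsNonarchimedean w) (hH : Hyp w A B d h c ρ) {M : ℝ} (hM : 1 ≤ M)
    (x : ι → L) (hx : ∀ i, w (x i) ≤ M) (i : ι) :
    w (∑ j, B i j * h j x) ≤ M ^ (d - 1) :=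
  mat_le hna hH.iB _ (by positivity) (fun j => hH.hle j M hM x hx) i

/-- lower bounds for the norm of the image -/
lemma grow_big (hna : IsNonarchimedean w) (hH : Hyp w A B d h c ρ) {x : ι → L}
    (h1 : 1 < nm w x) (h2 : ρ < nm w x ^ d) : nm w x ^ d ≤ nm w (gmap A d h c x) := by
  obtain ⟨i, hi⟩ := exists_nm (w := w) x
  refine le_trans (le_of_eq ?_) (nm_gm hna hH x i)
  have hd := hH.hd
  have hr := rest_le hna hH h1.le x (fun i => le_nm x i) i
  have hr' : nm w x ^ (d - 1) < nm w x ^ d := pow_lt_pow_right₀ h1 (by omega)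
  symm
  rw [gm_eq hH, add_assoc, add_comm, ← hi, ← map_pow]
  apply w_add_eq hna
  rw [map_pow, hi]
  refine lt_of_le_of_lt (hna _ _) (max_lt (lt_of_le_of_lt hr hr') ?_)
  rw [hH.gen]
  exact h2

lemma grow_low (hna : IsNonarchimedean w) (hH : Hyp w A B d h c ρ) {x : ι → L}
    (h2 : nm w x ^ d < ρ) : ρ ≤ nm w (gmap A d h c x) := by
  have hd := hH.hd
  have hρ := hH.ρ1
  set i : ι := Classical.arbitrary ι
  have hM : 1 ≤ max 1 (nm w x) := le_max_left _ _
  have hr := rest_le hna hH hM x (fun i => (le_nm x i).trans (le_max_right _ _)) i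
  have hr2 : max 1 (nm w x) ^ (d - 1) < ρ := by
    rcases le_total 1 (nm w x) with h3 | h3
    · rw [max_eq_right h3]
      exact lt_of_le_of_lt (pow_le_pow_right₀ h3 (by omega)) h2
    · rw [max_eq_left h3, one_pow]; exact hρ
  have e : w (gm A B d h c x i) = ρ := by
    rw [gm_eq hH, ← hH.gen i]
    apply w_add_eq hna
    rw [hH.gen]
    refine lt_of_le_of_lt (hna _ _) (max_lt ?_ (lt_of_le_of_lt hr hr2))
    rw [map_pow]
    exact lt_of_le_of_lt (pow_le_pow_left₀ (w.nonneg _) (le_nm x i) _) h2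
  rw [← e]
  exact nm_gm hna hH x i

/-- expansion on the sphere -/
lemma expand (hna : IsNonarchimedean w) (hH : Hyp w A B d h c ρ) {r : ℝ} (hr : 1 < r)
    (hrρ : r ^ d = ρ) {x y : ι → L}
    (hx : nm w x = r) (hy : nm w y = r) (hfx : nm w (gmap A d h c x) ≤ r)
    (hfy : nm w (gmap A d h c y) ≤ r) :
    r ^ (d - 1) * nm w (fun i => x i - y i) ≤
      nm w (fun i => gmap A d h c x i - gmap A d h c y i) := by
  have hd := hH.hd
  have hr0 : 0 < r := by linarith
  -- all coordinates have the same absolute value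
  have hbal : ∀ z : ι → L, nm w z = r → nm w (gmap A d h c z) ≤ r → ∀ i,
      w (z i ^ d + ∑ j, B i j * c j) < r ^ d := by
    intro z hz hfz i
    have h1 : w (gm A B d h c z i) < r ^ d := by
      refine lt_of_le_of_lt ((nm_gm hna hH z i).trans hfz) ?_
      calc r = r ^ 1 := (pow_one _).symm
        _ < r ^ d := pow_lt_pow_right₀ hr (by omega)
    have h2 : w (∑ j, B i j * h j z) < r ^ d := by
      refine lt_of_le_of_lt (rest_le hna hH hr.le z (fun i => by rw [← hz]; exact le_nm z i) i) ?_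
      exact pow_lt_pow_right₀ hr (by omega)
    have e : z i ^ d + ∑ j, B i j * c j =
        gm A B d h c z i - ∑ j, B i j * h j z := by
      rw [gm_eq hH]; ring
    rw [e]
    exact lt_of_le_of_lt (w_sub_le hna _ _) (max_lt h1 h2)
  have habs : ∀ z : ι → L, nm w z = r → nm w (gmap A d h c z) ≤ r → ∀ i, w (z i) = r := by
    intro z hz hfz i
    have h1 := hbal z hz hfz i
    have h2 : w (z i ^ d) = r ^ d := by
      have e : z i ^ d = (z i ^ d + ∑ j, B i j * c j) + -(∑ j, B i j * c j) := by ring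
      have h3 : w (-(∑ j, B i j * c j)) = r ^ d := by rw [w_neg, hH.gen, hrρ]
      rw [e, w_add_eq hna (by rw [h3]; exact h1), h3]
    rw [map_pow] at h2
    exact (pow_left_inj₀ (w.nonneg _) hr0.le (by omega)).1 h2
  have hxi := habs x hx hfx
  have hyi := habs y hy hfy
  have hclose : ∀ i, w (x i - y i) < r := by
    intro i
    have hy0 : y i ≠ 0 := by
      intro h
      have := hyi i
      rw [h, map_zero] at this
      linarith
    have h1 : w ((x i / y i) ^ d - 1) < 1 := by
      have e : (x i / y i) ^ d - 1 = (x i ^ d - y i ^ d) / y i ^ d := by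
        rw [div_pow, sub_div, div_self (pow_ne_zero d hy0)]
      rw [e, map_div₀, map_pow, hyi, div_lt_one (by positivity)]
      have e2 : x i ^ d - y i ^ d =
          (x i ^ d + ∑ j, B i j * c j) - (y i ^ d + ∑ j, B i j * c j) := by ring
      rw [e2]
      exact lt_of_le_of_lt (w_sub_le hna _ _) (max_lt (hbal x hx hfx i) (hbal y hy hfy i))
    have h2 := hH.root (x i / y i) (by rw [map_div₀, hxi, hyi, div_self hr0.ne']) h1
    have e : x i / y i - 1 = (x i - y i) / y i := by field_simp
    rw [e, map_div₀, hyi, div_lt_one hr0] at h2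
    exact h2
  obtain ⟨i, hi⟩ := exists_nm (w := w) (fun i => x i - y i)
  set E := nm w (fun i => x i - y i) with hE
  rcases (nm_nonneg (w := w) (fun i => x i - y i)).lt_or_eq with hE0 | hE0
  swap
  · rw [hE, ← hE0, mul_zero]
    exact nm_nonneg _
  refine le_trans (le_of_eq ?_) (nm_gm_sub hna hH x y i)
  have e : gm A B d h c x i - gm A B d h c y i =
      (∑ j, B i j * (h j x - h j y)) + (x i ^ d - y i ^ d) := by
    rw [gm_eq hH, gm_eq hH]
    simp only [mul_sub, Finset.sum_sub_distrib]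
    ring
  have h1 : w (x i ^ d - y i ^ d) = r ^ (d - 1) * E := by
    rw [pow_sub_eq hna hr0 (hxi i) (hyi i) (hclose i) d (by omega) hH.hwd, ← hi]
  have h2 : w (∑ j, B i j * (h j x - h j y)) < r ^ (d - 1) * E := by
    have h3 : w (∑ j, B i j * (h j x - h j y)) ≤ r ^ (d - 1) * E / r := by
      refine mat_le hna hH.iB _ (by positivity) (fun j => ?_) i
      rw [le_div_iff₀ hr0]
      exact hH.hdiff j r E hr.le x y (fun i => (hxi i).le) (fun i => (hyi i).le) hE0.le
        (fun i => le_nm (w := w) (fun i => x i - y i) i)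
    refine lt_of_le_of_lt h3 ?_
    rw [div_lt_iff₀ hr0]
    have : 0 < r ^ (d - 1) * E := by positivity
    nlinarith
  rw [e, w_add_eq hna (by rw [h1]; exact h2), h1]

/-- a point all of whose iterates up to `m + 1` are small is close to a fixed point -/
lemma stay (hna : IsNonarchimedean w) (hH : Hyp w A B d h c ρ) {r : ℝ} (hr : 1 < r)
    (hrρ : r ^ d = ρ) (x : ι → L) (m : ℕ)
    (hx : ∀ j, j ≤ m + 1 → nm w ((gmap A d h c)^[j] x) ≤ r) :
    r ^ ((d - 1) * m) * nm w (fun i => x i - gmap A d h c x i) ≤ r := by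
  have hd := hH.hd
  have hr0 : 0 < r := by linarith
  set f := gmap A d h c with hf
  have heq : ∀ j, j ≤ m → nm w (f^[j] x) = r := by
    intro j hj
    refine le_antisymm (hx j (by omega)) ?_
    by_contra hcon
    push Not at hcon
    have h1 : nm w (f^[j] x) ^ d < ρ := by
      rw [← hrρ]
      exact pow_lt_pow_left₀ hcon (nm_nonneg _) (by omega)
    have h2 := grow_low hna hH h1
    rw [← hf, ← iterate_succ_apply' f] at h2
    have h3 := hx (j + 1) (by omega)
    have h4 : r < ρ := by
      rw [← hrρ]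
      calc r = r ^ 1 := (pow_one _).symm
        _ < r ^ d := pow_lt_pow_right₀ hr (by omega)
    linarith
  have key : ∀ k, k ≤ m → r ^ ((d - 1) * k) * nm w (fun i => x i - f x i) ≤
      nm w (fun i => (f^[k] x) i - (f^[k + 1] x) i) := by
    intro k
    induction k with
    | zero => intro _; simp
    | succ k ih =>
      intro hk
      have h1 := ih (by omega)
      have h2 := expand hna hH hr hrρ (heq k (by omega)) (heq (k + 1) hk)
        (by rw [← hf, ← iterate_succ_apply' f]; exact hx _ (by omega))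
        (by rw [← hf, ← iterate_succ_apply' f]; exact hx _ (by omega))
      rw [← hf, ← iterate_succ_apply' f, ← iterate_succ_apply' f] at h2
      calc r ^ ((d - 1) * (k + 1)) * nm w (fun i => x i - f x i) =
            r ^ (d - 1) * (r ^ ((d - 1) * k) * nm w (fun i => x i - f x i)) := by
              rw [mul_add, mul_one, pow_add]; ring
        _ ≤ r ^ (d - 1) * nm w (fun i => (f^[k] x) i - (f^[k + 1] x) i) := by gcongr
        _ ≤ _ := h2
  refine (key m le_rfl).trans (nm_le fun i => ?_)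
  refine (w_sub_le hna _ _).trans (max_le ?_ ?_)
  · exact (le_nm _ i).trans (hx m (by omega))
  · exact (le_nm _ i).trans (hx (m + 1) le_rfl)

/-- a point with a large iterate escapes -/
lemma escape (hna : IsNonarchimedean w) (hH : Hyp w A B d h c ρ) {r : ℝ} (hr : 1 < r)
    (hrρ : r ^ d = ρ) (x : ι → L) (j : ℕ) (hx : r < nm w ((gmap A d h c)^[j] x)) (k : ℕ) :
    ρ ^ (d ^ k) ≤ nm w ((gmap A d h c)^[j + 1 + k] x) := by
  have hd := hH.hd
  have hr0 : 0 < r := by linarith
  have hρ := hH.ρ1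
  set f := gmap A d h c with hf
  have step : ∀ y : ι → L, r < nm w y → nm w y ^ d ≤ nm w (f y) := by
    intro y hy
    refine grow_big hna hH (hr.trans hy) ?_
    rw [← hrρ]
    exact pow_lt_pow_left₀ hy hr0.le (by omega)
  have hrρ' : r < ρ := by
    rw [← hrρ]
    calc r = r ^ 1 := (pow_one _).symm
      _ < r ^ d := pow_lt_pow_right₀ hr (by omega)
  induction k with
  | zero =>
    rw [pow_zero, pow_one, add_zero, iterate_succ_apply']
    refine le_trans ?_ (step _ hx)
    rw [← hrρ]
    exact pow_le_pow_left₀ hr0.le hx.le _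
  | succ k ih =>
    rw [← add_assoc, iterate_succ_apply']
    have h1 : ρ ≤ ρ ^ (d ^ k) := by
      calc ρ = ρ ^ 1 := (pow_one _).symm
        _ ≤ ρ ^ (d ^ k) := pow_le_pow_right₀ hρ.le (Nat.one_le_pow _ _ (by omega))
    refine le_trans ?_ (step _ (lt_of_lt_of_le hrρ' (h1.trans ih)))
    rw [pow_succ, pow_mul]
    exact pow_le_pow_left₀ (by positivity) ih _

end main

/-- coprime exponents -/
lemma root_of_coprime (hna : IsNonarchimedean w) {u : L} (hu : w u = 1) :
    ∀ n a b : ℕ, a + b ≤ n → Nat.Coprime a b → w (u ^ a - 1) < 1 → w (u ^ b - 1) < 1 →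
      w (u - 1) < 1 := by
  intro n
  induction n with
  | zero =>
    intro a b hab hcop _ _
    have ha : a = 0 := by omega
    have hb : b = 0 := by omega
    subst ha
    subst hb
    simp at hcop
  | succ n ih =>
    have aux : ∀ a b : ℕ, a ≤ b → a + b ≤ n + 1 → Nat.Coprime a b → w (u ^ a - 1) < 1 →
        w (u ^ b - 1) < 1 → w (u - 1) < 1 := by
      intro a b hle hab hcop h1 h2
      rcases Nat.eq_zero_or_pos a with h0 | h0
      · subst h0
        rw [Nat.coprime_zero_left] at hcop
        subst hcop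
        simpa using h2
      · refine ih a (b - a) (by omega) ((Nat.coprime_sub_self_right hle).2 hcop) h1 ?_
        have e : u ^ (b - a) * (u ^ a - 1) = u ^ b - u ^ (b - a) := by
          rw [mul_sub, ← pow_add, Nat.sub_add_cancel hle, mul_one]
        have e2 : u ^ (b - a) - 1 = (u ^ b - 1) - u ^ (b - a) * (u ^ a - 1) := by
          rw [e]; ring
        rw [e2]
        refine lt_of_le_of_lt (w_sub_le hna _ _) (max_lt h2 ?_)
        rw [map_mul, map_pow, hu, one_pow, one_mul]
        exact h1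
    intro a b hab hcop h1 h2
    rcases le_total a b with hle | hle
    · exact aux a b hle hab hcop h1 h2
    · exact aux b a hle (by omega) hcop.symm h2 h1

end Pool.Agent.Q195.LG
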