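import Pool.Agent.Q195.LG1

/-!
# A uniform gap for the canonical heights of perturbed power maps with a large constant vector
-/

set_option autoImplicit false

namespace Pool.Agent.Q195.LG

open Module Function NumberField MvPolynomial Filter Topology
open Pool.Agent.Q195.HD Pool.Agent.W238.Leh
open Pool.Agent.Q195.HP (nm le_nm nm_le exists_nm nm_nonneg mat_le IntP)

variable {K : Type} [Field K] {N : ℕ}

/-- the forms `X_0^d` and `Σ_j A_ij X_j^d + X_0 H_i + c_i X_0^d` -/
noncomputable def forms (A : Matrix (Fin N) (Fin N) K) (d : ℕ)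
    (H : Fin N → MvPolynomial (Fin (N + 1)) K) (c : Fin N → K) :
    Fin (N + 1) → MvPolynomial (Fin (N + 1)) K :=
  Fin.cons (X 0 ^ d) fun i => ∑ j : Fin N, C (A i j) * X j.succ ^ d + X 0 * H i + C (c i) * X 0 ^ d

lemma forms_hom {A : Matrix (Fin N) (Fin N) K} {d : ℕ} (hd : 1 ≤ d)
    {H : Fin N → MvPolynomial (Fin (N + 1)) K} {c : Fin N → K}
    (hH : ∀ i, (H i).IsHomogeneous (d - 1)) (i : Fin (N + 1)) :
    (forms A d H c i).IsHomogeneous d := by
  refine Fin.cases ?_ (fun i => ?_) i
  · exact isHomogeneous_X_pow 0 d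
  · show (∑ j : Fin N, C (A i j) * X j.succ ^ d + X 0 * H i + C (c i) * X 0 ^ d).IsHomogeneous d
    refine ((IsHomogeneous.sum _ _ _ fun j _ => ?_).add ?_).add ?_
    · exact isHomogeneous_C_mul_X_pow _ _ _
    · have h := (isHomogeneous_X K (0 : Fin (N + 1))).mul (hH i)
      rwa [show 1 + (d - 1) = d by omega] at h
    · exact isHomogeneous_C_mul_X_pow _ _ _

lemma forms_mor {A : Matrix (Fin N) (Fin N) K} (hA : IsUnit A.det) {d : ℕ} (hd : 1 ≤ d)
    {H : Fin N → MvPolynomial (Fin (N + 1)) K} {c : Fin N → K}
    (z : Fin (N + 1) → AlgebraicClosure K) (hz : ∀ i, aeval z (forms A d H c i) = 0) : z = 0 := by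
  have h0 : z 0 = 0 := by
    have h := hz 0
    simp only [forms, Fin.cons_zero, map_pow, aeval_X] at h
    exact pow_eq_zero_iff (by omega) |>.1 h
  have h1 : ∀ i, ∑ j, algebraMap K (AlgebraicClosure K) (A i j) * z j.succ ^ d = 0 := by
    intro i
    have h := hz i.succ
    simp only [forms, Fin.cons_succ, map_add, map_sum, map_mul, map_pow, aeval_X, aeval_C, h0,
      zero_mul, add_zero] at h
    rw [zero_pow (by omega), mul_zero, add_zero] at h
    exact h
  have h2 : (A.map (algebraMap K (AlgebraicClosure K))).mulVec (fun j => z j.succ ^ d) = 0 := by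
    funext i
    exact h1 i
  have hdet : (A.map (algebraMap K (AlgebraicClosure K))).det ≠ 0 := by
    have e : (A.map (algebraMap K (AlgebraicClosure K))).det =
        algebraMap K (AlgebraicClosure K) A.det := (RingHom.map_det _ _).symm
    rw [e]
    exact (map_ne_zero _).2 hA.ne_zero
  have h3 := Matrix.eq_zero_of_mulVec_eq_zero hdet h2
  funext i
  refine Fin.cases h0 (fun j => ?_) i
  have := congrFun h3 j
  exact pow_eq_zero_iff (by omega) |>.1 this

section L

variable {L : Type} [Field L] [Algebra K L]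

/-- the lower terms -/
noncomputable def low (H : Fin N → MvPolynomial (Fin (N + 1)) K) (i : Fin N) (x : Fin N → L) : L :=
  aeval (Fin.cons 1 x : Fin (N + 1) → L) (H i)

/-- the affine map -/
noncomputable def aff (L : Type) [Field L] [Algebra K L] (A : Matrix (Fin N) (Fin N) K) (d : ℕ)
    (H : Fin N → MvPolynomial (Fin (N + 1)) K) (c : Fin N → K) : (Fin N → L) → Fin N → L :=
  gmap (A.map (algebraMap K L)) d (low H) (fun i => algebraMap K L (c i))

lemma act_cons (A : Matrix (Fin N) (Fin N) K) (d : ℕ)
    (H : Fin N → MvPolynomial (Fin (N + 1)) K) (c : Fin N → K) (x : Fin N → L) :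
    act (forms A d H c) (Fin.cons 1 x : Fin (N + 1) → L) =
      (Fin.cons 1 (aff L A d H c x) : Fin (N + 1) → L) := by
  funext i
  refine Fin.cases ?_ (fun i => ?_) i
  · simp [act, forms]
  · simp [act, forms, aff, gmap, low]

lemma iter_cons (A : Matrix (Fin N) (Fin N) K) (d : ℕ)
    (H : Fin N → MvPolynomial (Fin (N + 1)) K) (c : Fin N → K) (x : Fin N → L) (n : ℕ) :
    (act (forms A d H c))^[n] (Fin.cons 1 x : Fin (N + 1) → L) =
      (Fin.cons 1 ((aff L A d H c)^[n] x) : Fin (N + 1) → L) := by
  induction n with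
  | zero => rfl
  | succ n ih => rw [iterate_succ_apply', ih, act_cons, iterate_succ_apply']

/-- good places -/
structure Good [NumberField L] (A : Matrix (Fin N) (Fin N) K) (d : ℕ)
    (H : Fin N → MvPolynomial (Fin (N + 1)) K) (c : Fin N → K) (w : FinitePlace L) (ρ : ℝ) :
    Prop where
  intA : ∀ i j, w (algebraMap K L (A i j)) ≤ 1
  intB : ∀ i j, w (algebraMap K L (A⁻¹ i j)) ≤ 1
  intH : ∀ i s, w (algebraMap K L ((H i).coeff s)) ≤ 1
  big : 1 < ρ
  gen : ∀ i, w (algebraMap K L (A⁻¹.mulVec c i)) = ρ
  cop : Nat.Coprime d (qn w * (qn w - 1))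

lemma Good.hyp [NumberField L] {A : Matrix (Fin N) (Fin N) K} (hA : IsUnit A.det) {d : ℕ}
    (hd : 2 ≤ d) {H : Fin N → MvPolynomial (Fin (N + 1)) K} (hH : ∀ i, (H i).IsHomogeneous (d - 1))
    {c : Fin N → K} {w : FinitePlace L} {ρ : ℝ} (hw : Good A d H c w ρ) :
    Hyp w.val (A.map (algebraMap K L)) (A⁻¹.map (algebraMap K L)) d (low H)
      (fun i => algebraMap K L (c i)) ρ := by
  have hI : ∀ i, IntP w.val (d - 1) (MvPolynomial.map (algebraMap K L) (H i)) := by
    intro i
    refine ⟨?_, fun a => ?_⟩
    · refine (Finset.sup_mono (MvPolynomial.support_map_subset _ _)).trans ?_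
      exact (hH i).totalDegree_le
    · rw [MvPolynomial.coeff_map]
      exact hw.intH i a
  have hev : ∀ (i : Fin N) (x : Fin N → L), low H i x =
      MvPolynomial.eval (Fin.cons 1 x : Fin (N + 1) → L)
        (MvPolynomial.map (algebraMap K L) (H i)) := by
    intro i x
    unfold low
    rw [MvPolynomial.eval_map, MvPolynomial.aeval_def]
  have h1 : w.val (1 : L) = 1 := map_one _
  refine
    { hd := hd
      iA := fun i j => hw.intA i j
      iB := fun i j => hw.intB i j
      inv := ?_
      hle := ?_
      hdiff := ?_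
      ρ1 := hw.big
      gen := ?_
      hwd := wd w (Nat.Coprime.coprime_mul_right_right hw.cop)
      root := fun u hu h => root w (Nat.Coprime.coprime_mul_left_right hw.cop) u hu h }
  · intro y i
    have h1 : A⁻¹.map (algebraMap K L) * A.map (algebraMap K L) = 1 := by
      have := congrArg (fun M : Matrix (Fin N) (Fin N) K => M.map (algebraMap K L))
        (Matrix.nonsing_inv_mul A hA)
      simp only [Matrix.map_mul] at this
      rw [Matrix.map_one _ (map_zero _) (map_one _)] at this
      exact this
    have h2 : (A⁻¹.map (algebraMap K L)).mulVec ((A.map (algebraMap K L)).mulVec y) = y := by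
      rw [Matrix.mulVec_mulVec, h1, Matrix.one_mulVec]
    exact congrFun h2 i
  · intro i M hM x hx
    rw [hev]
    refine (hI i).le (na w) hM _ fun j => ?_
    refine Fin.cases ?_ (fun j => ?_) j
    · rw [Fin.cons_zero, h1]; exact hM
    · rw [Fin.cons_succ]; exact hx j
  · intro i M E hM x y hx hy hE0 hE
    rw [hev, hev]
    refine (hI i).diff (na w) hM _ _ (fun j => ?_) (fun j => ?_) hE0 fun j => ?_
    · refine Fin.cases ?_ (fun j => ?_) j
      · rw [Fin.cons_zero, h1]; exact hM
      · rw [Fin.cons_succ]; exact hx j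
    · refine Fin.cases ?_ (fun j => ?_) j
      · rw [Fin.cons_zero, h1]; exact hM
      · rw [Fin.cons_succ]; exact hy j
    · refine Fin.cases ?_ (fun j => ?_) j
      · rw [Fin.cons_zero, Fin.cons_zero, sub_self, map_zero]; exact hE0
      · rw [Fin.cons_succ, Fin.cons_succ]; exact hE j
  · intro i
    rw [← hw.gen i]
    show w.val _ = w.val _
    congr 1
    show ∑ j, A⁻¹.map (algebraMap K L) i j * algebraMap K L (c j) =
      algebraMap K L (∑ j, A⁻¹ i j * c j)
    rw [map_sum]
    exact Finset.sum_congr rfl fun j _ => by rw [map_mul]; rfl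

end L

section glob

variable {L : Type} [Field L] [NumberField L]

lemma cons_ne_zero (x : Fin N → L) : (Fin.cons 1 x : Fin (N + 1) → L) ≠ 0 := by
  intro h
  have := congrFun h 0
  simp at this

lemma one_le_nmi (w : InfinitePlace L) (x : Fin N → L) :
    1 ≤ nmi w (Fin.cons 1 x : Fin (N + 1) → L) := by
  have := le_nmi w (Fin.cons 1 x : Fin (N + 1) → L) 0
  simpa using this

lemma one_le_nmf (v : FinitePlace L) (x : Fin N → L) :
    1 ≤ nmf v (Fin.cons 1 x : Fin (N + 1) → L) := by
  have := le_nmf v (Fin.cons 1 x : Fin (N + 1) → L) 0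
  simpa using this

lemma coord_i (w : InfinitePlace L) (x : Fin N → L) (i : Fin N) :
    w (x i) ≤ nmi w (Fin.cons 1 x : Fin (N + 1) → L) := by
  have := le_nmi w (Fin.cons 1 x : Fin (N + 1) → L) i.succ
  simpa using this

lemma coord_f (v : FinitePlace L) (x : Fin N → L) (i : Fin N) :
    v (x i) ≤ nmf v (Fin.cons 1 x : Fin (N + 1) → L) := by
  have := le_nmf v (Fin.cons 1 x : Fin (N + 1) → L) i.succ
  simpa using this

open Classical in
/-- a finitely supported function on the finite places -/
lemma HasGS_ind (S : Finset (FinitePlace L)) (g : FinitePlace L → ℝ) :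
    HasGS (L := L) (fun _ => 0) (fun v => if v ∈ S then g v else 0) (∑ v ∈ S, g v) := by
  have hsup : (Function.support fun v : FinitePlace L => if v ∈ S then g v else 0) ⊆ S := by
    intro v hv
    rw [Function.mem_support] at hv
    by_contra hcon
    exact hv (if_neg hcon)
  refine ⟨S.finite_toSet.subset hsup, ?_⟩
  rw [finsum_eq_sum_of_support_subset _ hsup]
  simp only [mul_zero, Finset.sum_const_zero, zero_add]
  exact Finset.sum_congr rfl fun v hv => if_pos hv

/-- The product formula for a coordinate of `x - y`, with a gain at the places of `S`. -/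
lemma diff_height (x y : Fin N → L) (hxy : x ≠ y) (S : Finset (FinitePlace L))
    (g : FinitePlace L → ℝ)
    (hS : ∀ v ∈ S, ∀ i, x i ≠ y i → Real.log (v (x i - y i)) ≤ -g v) :
    ∑ v ∈ S, g v ≤ Height.logHeight (Fin.cons 1 x : Fin (N + 1) → L) +
      Height.logHeight (Fin.cons 1 y : Fin (N + 1) → L) + finrank ℚ L * Real.log 2 := by
  classical
  obtain ⟨i, hi⟩ := Function.ne_iff.1 hxy
  have hα : x i - y i ≠ 0 := sub_ne_zero.2 hi
  have h1 := (HasGS.prod hα).add (HasGS_ind S g)
  have h2 := (HasGS.height (cons_ne_zero x)).add (HasGS.height (cons_ne_zero y))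
  have h3 := h1.le h2 (c := Real.log 2) ?_ ?_
  · linarith
  · intro w
    have a1 := one_le_nmi w x
    have a2 := one_le_nmi w y
    have hpos : 0 < w (x i - y i) := InfinitePlace.pos_iff.2 hα
    rw [← Real.log_mul (by linarith) (by linarith), add_zero,
      ← Real.log_mul (by nlinarith) (by norm_num)]
    refine Real.log_le_log hpos ?_
    have h4 : w (x i - y i) ≤ w (x i) + w (y i) := by
      rw [← InfinitePlace.norm_embedding_eq, ← InfinitePlace.norm_embedding_eq,
        ← InfinitePlace.norm_embedding_eq, map_sub]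
      exact norm_sub_le _ _
    have h5 := coord_i w x i
    have h6 := coord_i w y i
    nlinarith
  · intro v
    have a1 := one_le_nmf v x
    have a2 := one_le_nmf v y
    have b1 := Real.log_nonneg a1
    have b2 := Real.log_nonneg a2
    have hpos : 0 < v (x i - y i) := FinitePlace.pos_iff.2 hα
    show Real.log (v (x i - y i)) + (if v ∈ S then g v else 0) ≤ _
    split_ifs with hv
    · have := hS v hv i hi
      linarith
    · rw [add_zero, ← Real.log_mul (by linarith) (by linarith)]
      refine Real.log_le_log hpos ?_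
      have h4 : v (x i - y i) ≤ max (v (x i)) (v (y i)) := w_sub_le (na v) _ _
      have h5 := coord_f v x i
      have h6 := coord_f v y i
      refine h4.trans (max_le ?_ ?_)
      · nlinarith
      · nlinarith

/-- a lower bound for the height from finitely many finite places -/
lemma height_ge (x : Fin N → L) (S : Finset (FinitePlace L)) (g : FinitePlace L → ℝ)
    (hS : ∀ v ∈ S, g v ≤ Real.log (nmf v (Fin.cons 1 x : Fin (N + 1) → L))) :
    ∑ v ∈ S, g v ≤ Height.logHeight (Fin.cons 1 x : Fin (N + 1) → L) := by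
  classical
  have h3 := (HasGS_ind S g).le (HasGS.height (cons_ne_zero x)) (c := 0) ?_ ?_
  · simpa using h3
  · intro w
    have a1 := Real.log_nonneg (one_le_nmi w x)
    linarith
  · intro v
    have a1 := Real.log_nonneg (one_le_nmf v x)
    show (if v ∈ S then g v else 0) ≤ _
    split_ifs with hv
    · exact hS v hv
    · exact a1

end glob

end Pool.Agent.Q195.LG
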