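import Pool.Agent.Q195.LG3

/-!
# The gap
-/

set_option autoImplicit false

namespace Pool.Agent.Q195.LG

open Module Function NumberField MvPolynomial Filter Topology
open Pool.Agent.Q195.HD Pool.Agent.W238.Leh
open Pool.Agent.Q195.HP (nm le_nm nm_le exists_nm nm_nonneg mat_le IntP)

variable {K : Type} [Field K] {N : ℕ}

/-- the local alternative at a good place -/
lemma local_alt {L : Type} [Field L] [Algebra K L] [NumberField L] [Nonempty (Fin N)]
    {A : Matrix (Fin N) (Fin N) K} (hA : IsUnit A.det) {d : ℕ} (hd : 2 ≤ d)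
    {H : Fin N → MvPolynomial (Fin (N + 1)) K} (hH : ∀ i, (H i).IsHomogeneous (d - 1))
    {c : Fin N → K} {w : FinitePlace L} {ρ : ℝ} (hw : Good A d H c w ρ) (x : Fin N → L)
    (m k : ℕ) :
    (∀ i, x i ≠ aff L A d H c x i → Real.log (w (x i - aff L A d H c x i)) ≤
      -((((d : ℝ) - 1) * m - 1) / d * Real.log ρ)) ∨
    (d : ℝ) ^ k * Real.log ρ ≤ Real.log (nmf w
      (Fin.cons 1 ((aff L A d H c)^[m + 2 + k] x) : Fin (N + 1) → L)) := by
  have hyp := hw.hyp hA hd hH
  have hρ := hw.big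
  have hρ0 : 0 < ρ := by linarith
  have hd0 : (0 : ℝ) < d := by
    have : 0 < d := by omega
    exact_mod_cast this
  set r : ℝ := ρ ^ ((d : ℝ)⁻¹) with hr
  have hr1 : 1 < r := Real.one_lt_rpow hρ (by positivity)
  have hr0 : 0 < r := by linarith
  have hrρ : r ^ d = ρ := by
    rw [hr, ← Real.rpow_natCast, ← Real.rpow_mul hρ0.le, inv_mul_cancel₀ hd0.ne', Real.rpow_one]
  have hlr : Real.log r = Real.log ρ / d := by
    rw [hr, Real.log_rpow hρ0]
    ring
  by_cases hst : ∀ j, j ≤ m + 1 → nm w.val ((aff L A d H c)^[j] x) ≤ r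
  · left
    intro i hi
    have h1 := stay (na w) hyp hr1 hrρ x m hst
    have h2 : w (x i - aff L A d H c x i) ≤ nm w.val (fun i => x i - aff L A d H c x i) :=
      le_nm (w := w.val) (fun i => x i - aff L A d H c x i) i
    have hpos : 0 < w (x i - aff L A d H c x i) := FinitePlace.pos_iff.2 (sub_ne_zero.2 hi)
    have h3 : r ^ ((d - 1) * m) * w (x i - aff L A d H c x i) ≤ r := by
      refine le_trans ?_ h1
      exact mul_le_mul_of_nonneg_left h2 (by positivity)
    have h4 := Real.log_le_log (by positivity) h3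
    rw [Real.log_mul (by positivity) hpos.ne', Real.log_pow, hlr] at h4
    have e : (((d - 1) * m : ℕ) : ℝ) = ((d : ℝ) - 1) * m := by
      rw [Nat.cast_mul, Nat.cast_sub (by omega)]
      simp
    rw [e] at h4
    have e2 : (((d : ℝ) - 1) * m - 1) / d * Real.log ρ =
        ((d : ℝ) - 1) * m * (Real.log ρ / d) - Real.log ρ / d := by ring
    rw [e2]
    linarith
  · right
    push Not at hst
    obtain ⟨j, hj, hx⟩ := hst
    have h1 := escape (na w) hyp hr1 hrρ x j hx (m + 1 - j + k)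
    have e : j + 1 + (m + 1 - j + k) = m + 2 + k := by omega
    have h2 : ρ ^ (d ^ k) ≤ nm w.val ((aff L A d H c)^[m + 2 + k] x) := by
      rw [← e]
      refine le_trans ?_ h1
      exact pow_le_pow_right₀ hρ.le (Nat.pow_le_pow_right (by omega) (by omega))
    obtain ⟨i, hi⟩ := exists_nm (w := w.val) ((aff L A d H c)^[m + 2 + k] x)
    rw [← hi] at h2
    have h3 := h2.trans (coord_f w ((aff L A d H c)^[m + 2 + k] x) i)
    have h4 := Real.log_le_log (by positivity) h3
    rw [Real.log_pow] at h4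
    push_cast at h4
    exact h4

theorem main [NumberField K] (hN : 1 ≤ N) {d : ℕ} (hd : 2 ≤ d)
    (A : Matrix (Fin N) (Fin N) K) (hA : IsUnit A.det)
    (H : Fin N → MvPolynomial (Fin (N + 1)) K) (hH : ∀ i, (H i).IsHomogeneous (d - 1))
    (c : Fin N → K) :
    ∃ C : ℝ, 0 < C ∧ ∀ δ : ℝ, 0 < δ → δ ≤ 1 →
      ∀ (L : Type) [Field L] [NumberField L] [Algebra K L] (T : Finset (FinitePlace L))
      (ρ : FinitePlace L → ℝ), (∀ w ∈ T, Good A d H c w (ρ w)) →
      δ * finrank ℚ L ≤ ∑ w ∈ T, Real.log (ρ w) →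
      ∀ x : Fin (N + 1) → L, x 0 = 1 → act (forms A d H c) x ≠ x →
      ∃ h : ℝ, Tendsto (fun n : ℕ => Height.logHeight ((act (forms A d H c))^[n] x) /
          ((finrank ℚ L : ℝ) * (d : ℝ) ^ n)) atTop (𝓝 h) ∧ Real.exp (-(C / δ)) ≤ h := by
  classical
  have hNe : Nonempty (Fin N) := ⟨⟨0, hN⟩⟩
  obtain ⟨C₀, hC₀, hts⟩ := exists_heights K N d hd (forms A d H c)
    (fun i => forms_hom (by omega) hH i) (forms_mor hA (by omega))
  have hd1 : (2 : ℝ) ≤ d := by exact_mod_cast hd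
  have hd0 : (0 : ℝ) < d := by linarith
  have hl2 : 0 < Real.log 2 := Real.log_pos (by norm_num)
  set C₁ : ℝ := (d + 1) * (C₀ + 1) + C₀ + Real.log 2 with hC₁
  have hC₁0 : 0 < C₁ := by positivity
  set C₂ : ℝ := 2 * d * C₁ + 2 * (C₀ + 1) + 5 with hC₂
  have hC₂0 : 0 < C₂ := by positivity
  have hld : 0 < Real.log d := Real.log_pos (by linarith)
  refine ⟨C₂ * Real.log d, by positivity, fun δ hδ hδ1 L _ _ _ T ρ hT hsum x hx0 hne => ?_⟩
  have hD := finrank_pos' (L := L)
  set D : ℝ := (finrank ℚ L : ℝ) with hDdef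
  -- the affine coordinates
  set y : Fin N → L := Fin.tail x with hy
  have hxy : x = (Fin.cons 1 y : Fin (N + 1) → L) := by
    rw [hy, ← hx0, Fin.cons_self_tail]
  set f := aff L A d H c with hf
  have hfy : y ≠ f y := by
    intro h
    apply hne
    rw [hxy, act_cons, ← hf, ← h]
  obtain ⟨-, hlim, habs, hit, -⟩ := hts L x (by rw [hxy]; exact cons_ne_zero y)
  refine ⟨canH (forms A d H c) d x, hlim, ?_⟩
  obtain ⟨-, -, -, -, hup⟩ := hts L x (by rw [hxy]; exact cons_ne_zero y)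
  -- the parameters
  set m : ℕ := ⌈2 * d * C₁ / δ⌉₊ + 1 with hm
  set k : ℕ := ⌈2 * (C₀ + 1) / δ⌉₊ with hk
  have hm1 : 2 * d * C₁ / δ + 1 ≤ m := by
    rw [hm]
    push_cast
    linarith [Nat.le_ceil (2 * (d : ℝ) * C₁ / δ)]
  have hm2 : (m : ℝ) ≤ 2 * d * C₁ / δ + 2 := by
    rw [hm]
    push_cast
    have := (Nat.ceil_lt_add_one (show 0 ≤ 2 * (d : ℝ) * C₁ / δ by positivity)).le
    linarith
  have hk1 : 2 * (C₀ + 1) / δ ≤ k := Nat.le_ceil _
  have hk2 : (k : ℝ) ≤ 2 * (C₀ + 1) / δ + 1 :=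
    (Nat.ceil_lt_add_one (show 0 ≤ 2 * (C₀ + 1) / δ by positivity)).le
  have hexp : Real.exp (-(C₂ * Real.log d / δ)) ≤ ((d : ℝ) ^ (m + 2 + k))⁻¹ := by
    have h1 : ((m + 2 + k : ℕ) : ℝ) ≤ C₂ / δ := by
      rw [le_div_iff₀ hδ]
      push_cast
      have h2 : ((m : ℝ) + 2 + k) * δ ≤ (2 * d * C₁ / δ + 2 + 2 + (2 * (C₀ + 1) / δ + 1)) * δ := by
        apply mul_le_mul_of_nonneg_right _ hδ.le
        linarith
      refine h2.trans ?_
      have e : (2 * d * C₁ / δ + 2 + 2 + (2 * (C₀ + 1) / δ + 1)) * δ =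
          2 * d * C₁ + 2 * (C₀ + 1) + 5 * δ := by
        field_simp
        ring
      rw [e]
      linarith
    have h3 : (d : ℝ) ^ (m + 2 + k) = Real.exp (((m + 2 + k : ℕ) : ℝ) * Real.log d) := by
      rw [mul_comm, ← Real.rpow_natCast, Real.rpow_def_of_pos hd0]
    rw [h3, ← Real.exp_neg]
    apply Real.exp_le_exp.2
    have h4 := mul_le_mul_of_nonneg_right h1 hld.le
    have e : C₂ * Real.log d / δ = C₂ / δ * Real.log d := by ring
    rw [e]
    linarith
  have hexp1 : ((d : ℝ) ^ (m + 2 + k))⁻¹ ≤ 1 := inv_le_one_of_one_le₀ (one_le_pow₀ (by linarith))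
  rw [abs_le] at habs
  -- the two sets of places
  set S₁ := T.filter fun w => ∀ i, y i ≠ f y i → Real.log (w (y i - f y i)) ≤
      -((((d : ℝ) - 1) * m - 1) / d * Real.log (ρ w)) with hS₁
  set S₂ := T.filter fun w => ¬ ∀ i, y i ≠ f y i → Real.log (w (y i - f y i)) ≤
      -((((d : ℝ) - 1) * m - 1) / d * Real.log (ρ w)) with hS₂
  have hsplit : ∑ w ∈ S₁, Real.log (ρ w) + ∑ w ∈ S₂, Real.log (ρ w) =
      ∑ w ∈ T, Real.log (ρ w) := Finset.sum_filter_add_sum_filter_not _ _ _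
  rcases le_or_gt (δ * D / 2) (∑ w ∈ S₁, Real.log (ρ w)) with hcase | hcase
  · -- the point is close to its image at many places
    have h1 := diff_height y (f y) hfy S₁
      (fun w => (((d : ℝ) - 1) * m - 1) / d * Real.log (ρ w))
      (fun w hw i hi => (Finset.mem_filter.1 hw).2 i hi)
    rw [← Finset.mul_sum] at h1
    rw [hxy, act_cons, ← hf, ← hDdef] at hup
    rw [hxy] at habs
    have h2 : (m : ℝ) - 1 ≤ ((d : ℝ) - 1) * m - 1 := by
      have : (0 : ℝ) ≤ m := by positivity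
      nlinarith
    have h3 : 2 * C₁ / δ ≤ (((d : ℝ) - 1) * m - 1) / d := by
      rw [le_div_iff₀ hd0]
      calc 2 * C₁ / δ * d = 2 * d * C₁ / δ := by ring
        _ ≤ _ := by linarith
    have h4 : C₁ * D ≤ (((d : ℝ) - 1) * m - 1) / d * ∑ w ∈ S₁, Real.log (ρ w) := by
      have h5 : 0 < 2 * C₁ / δ := by positivity
      calc C₁ * D = 2 * C₁ / δ * (δ * D / 2) := by field_simp
        _ ≤ _ := mul_le_mul h3 hcase (by positivity) (by linarith)
    have h6 : (C₀ + 1) * D ≤ Height.logHeight (Fin.cons 1 y : Fin (N + 1) → L) := by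
      have h7 : C₁ * D ≤ (d + 1) * Height.logHeight (Fin.cons 1 y : Fin (N + 1) → L) +
          D * (C₀ + Real.log 2) := by
        rw [← hDdef] at h1
        linarith
      rw [hC₁] at h7
      have h8 : ((d : ℝ) + 1) * ((C₀ + 1) * D) ≤
          (d + 1) * Height.logHeight (Fin.cons 1 y : Fin (N + 1) → L) := by linarith
      exact le_of_mul_le_mul_left h8 (by linarith)
    have h9 : C₀ + 1 ≤ Height.logHeight (Fin.cons 1 y : Fin (N + 1) → L) / D := by
      rw [le_div_iff₀ hD]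
      exact h6
    rw [hxy]
    linarith
  · -- the point escapes at many places
    have hcase2 : δ * D / 2 ≤ ∑ w ∈ S₂, Real.log (ρ w) := by linarith
    have h1 := height_ge (f^[m + 2 + k] y) S₂ (fun w => (d : ℝ) ^ k * Real.log (ρ w))
      (fun w hw => by
        have hw' := Finset.mem_filter.1 hw
        rcases local_alt hA hd hH (hT w hw'.1) y m k with h | h
        · exact absurd h hw'.2
        · exact h)
    rw [← Finset.mul_sum, hf, ← iter_cons] at h1
    have hz := cons_ne_zero y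
    obtain ⟨hne', -, -, -, -⟩ := hts L _ hz
    obtain ⟨-, -, habs2, -, -⟩ := hts L _ (hne' (m + 2 + k))
    obtain ⟨-, -, -, hit2, -⟩ := hts L _ hz
    rw [hit2] at habs2
    rw [abs_le] at habs2
    rw [hxy]
    set z : Fin (N + 1) → L := Fin.cons 1 y with hzdef
    have h2 : (k : ℝ) ≤ (d : ℝ) ^ k := by
      have : k < 2 ^ k := Nat.lt_two_pow_self
      have h3 : ((k : ℕ) : ℝ) ≤ (2 : ℝ) ^ k := by exact_mod_cast this.le
      exact h3.trans (pow_le_pow_left₀ (by norm_num) hd1 k)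
    have h4 : (C₀ + 1) * D ≤ Height.logHeight ((act (forms A d H c))^[m + 2 + k] z) := by
      refine le_trans ?_ h1
      have h5 : 2 * (C₀ + 1) / δ ≤ (d : ℝ) ^ k := hk1.trans h2
      calc (C₀ + 1) * D = 2 * (C₀ + 1) / δ * (δ * D / 2) := by field_simp
        _ ≤ _ := mul_le_mul h5 hcase2 (by positivity) (by positivity)
    have h6 : C₀ + 1 ≤ Height.logHeight ((act (forms A d H c))^[m + 2 + k] z) / D := by
      rw [le_div_iff₀ hD]
      exact h4
    have h7 : 1 ≤ (d : ℝ) ^ (m + 2 + k) * canH (forms A d H c) d z := by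
      have := habs2.2
      rw [← hDdef] at this
      linarith
    refine hexp.trans ?_
    rw [inv_le_iff_one_le_mul₀' (by positivity)]
    exact h7

end Pool.Agent.Q195.LG
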