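import Pool.Agent.Q195.LG4

/-!
# The gap, for arbitrary coordinate vectors
-/

set_option autoImplicit false

namespace Pool.Agent.Q195.LG

open Module Function NumberField MvPolynomial Filter Topology
open Pool.Agent.Q195.HD Pool.Agent.W238.Leh

variable {K : Type} [Field K] {N : ℕ}

lemma act_iter_smul {M : Type*} [Field M] [Algebra K M] {d : ℕ}
    {F : Fin (N + 1) → MvPolynomial (Fin (N + 1)) K} (hF : ∀ i, (F i).IsHomogeneous d)
    {b : M} (hb : b ≠ 0) (z : Fin (N + 1) → M) (n : ℕ) :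
    ∃ b' : M, b' ≠ 0 ∧ (act F)^[n] (b • z) = b' • (act F)^[n] z := by
  induction n with
  | zero => exact ⟨b, hb, rfl⟩
  | succ n ih =>
    obtain ⟨e, he, h⟩ := ih
    refine ⟨e ^ d, pow_ne_zero _ he, ?_⟩
    rw [Function.iterate_succ_apply', Function.iterate_succ_apply', h, act_smul hF]

theorem main_proj [NumberField K] (hN : 1 ≤ N) {d : ℕ} (hd : 2 ≤ d)
    (A : Matrix (Fin N) (Fin N) K) (hA : IsUnit A.det)
    (H : Fin N → MvPolynomial (Fin (N + 1)) K) (hH : ∀ i, (H i).IsHomogeneous (d - 1))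
    (c : Fin N → K) :
    ∃ C : ℝ, 0 < C ∧ ∀ δ : ℝ, 0 < δ → δ ≤ 1 →
      ∀ (L : Type) [Field L] [NumberField L] [Algebra K L] (T : Finset (FinitePlace L))
      (ρ : FinitePlace L → ℝ), (∀ w ∈ T, Good A d H c w (ρ w)) →
      δ * finrank ℚ L ≤ ∑ w ∈ T, Real.log (ρ w) →
      ∀ x : Fin (N + 1) → L, x 0 ≠ 0 → (¬ ∃ a : L, act (forms A d H c) x = a • x) →
      ∃ h : ℝ, Tendsto (fun n : ℕ => Height.logHeight ((act (forms A d H c))^[n] x) /
          ((finrank ℚ L : ℝ) * (d : ℝ) ^ n)) atTop (𝓝 h) ∧ Real.exp (-(C / δ)) ≤ h := by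
  obtain ⟨C, hC, h⟩ := main hN hd A hA H hH c
  refine ⟨C, hC, fun δ hδ hδ1 L _ _ _ T ρ hT hsum x hx0 hne => ?_⟩
  have hhom : ∀ i, (forms A d H c i).IsHomogeneous d := fun i => forms_hom (by omega) hH i
  have hb : (x 0)⁻¹ ≠ 0 := inv_ne_zero hx0
  obtain ⟨h0, hlim, hle⟩ := h δ hδ hδ1 L T ρ hT hsum ((x 0)⁻¹ • x)
    (by simp [hx0]) (by
      intro heq
      apply hne
      rw [act_smul hhom] at heq
      refine ⟨((x 0)⁻¹ ^ d)⁻¹ * (x 0)⁻¹, ?_⟩
      rw [mul_smul, ← heq, smul_smul, inv_mul_cancel₀ (pow_ne_zero _ hb), one_smul])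
  refine ⟨h0, hlim.congr fun n => ?_, hle⟩
  obtain ⟨e, he, h2⟩ := act_iter_smul hhom hb x n
  rw [h2, Height.logHeight_smul_eq_logHeight _ he]

end Pool.Agent.Q195.LG
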