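import Mathlib

set_option autoImplicit false

namespace Pool.Agent.Q195.LS

open Finset Filter Topology

/-- A norm on a finite coordinate space dominating all coordinates. -/
structure BN (ι : Type) where
  N : (ι → ℝ) → ℝ
  add_le : ∀ f g, N (f + g) ≤ N f + N g
  smul : ∀ (t : ℝ) (f : ι → ℝ), N (t • f) = |t| * N f
  coord : ∀ f i, |f i| ≤ N f

namespace BN

variable {ι : Type} (b : BN ι)

lemma zero : b.N 0 = 0 := by
  have := b.smul 0 0
  simpa using this

lemma neg (f : ι → ℝ) : b.N (-f) = b.N f := by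
  have := b.smul (-1) f
  simpa using this

lemma nonneg (f : ι → ℝ) : 0 ≤ b.N f := by
  have h := b.add_le f (-f)
  rw [b.neg, add_neg_cancel, b.zero] at h
  linarith

lemma sum_le {α : Type*} (s : Finset α) (F : α → (ι → ℝ)) :
    b.N (∑ a ∈ s, F a) ≤ ∑ a ∈ s, b.N (F a) := by
  classical
  induction s using Finset.induction_on with
  | empty => simp [b.zero]
  | insert a s ha ih =>
    rw [Finset.sum_insert ha, Finset.sum_insert ha]
    exact (b.add_le _ _).trans (by linarith)

/-- type synonym carrying the norm -/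
def E (_ : BN ι) : Type := ι → ℝ

instance : AddCommGroup b.E := inferInstanceAs (AddCommGroup (ι → ℝ))
instance : Module ℝ b.E := inferInstanceAs (Module ℝ (ι → ℝ))

/-- the identity as a linear equivalence -/
def toE : (ι → ℝ) ≃ₗ[ℝ] b.E := LinearEquiv.refl ℝ (ι → ℝ)

noncomputable instance : NormedAddCommGroup b.E :=
  AddGroupNorm.toNormedAddCommGroup
    { toFun := fun f : b.E => b.N (b.toE.symm f)
      map_zero' := b.zero
      add_le' := b.add_le
      neg' := b.neg
      eq_zero_of_map_eq_zero' := by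
        intro f hf
        funext i
        have h := b.coord f i
        have hf' : b.N f = 0 := hf
        rw [hf'] at h
        exact abs_eq_zero.mp (le_antisymm h (abs_nonneg _)) }

lemma norm_def (f : b.E) : ‖f‖ = b.N (b.toE.symm f) := rfl

lemma norm_toE (f : ι → ℝ) : ‖b.toE f‖ = b.N f := rfl

noncomputable instance : NormedSpace ℝ b.E where
  norm_smul_le := fun t f => by
    rw [norm_def, norm_def, Real.norm_eq_abs, map_smul]
    exact (b.smul t _).le

instance [Finite ι] : FiniteDimensional ℝ b.E :=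
  inferInstanceAs (FiniteDimensional ℝ (ι → ℝ))

instance [Finite ι] : CompleteSpace b.E := FiniteDimensional.complete ℝ b.E

/-- coordinate evaluation -/
noncomputable def ev (i : ι) : b.E →L[ℝ] ℝ :=
  LinearMap.mkContinuous ((LinearMap.proj i).comp b.toE.symm.toLinearMap) 1 (fun f => by
    rw [one_mul]
    exact b.coord _ i)

lemma ev_apply (i : ι) (f : b.E) : b.ev i f = b.toE.symm f i := rfl

lemma ev_toE (i : ι) (f : ι → ℝ) : b.ev i (b.toE f) = f i := rfl

lemma norm_eq_ev (f : b.E) : ‖f‖ = b.N (fun i => b.ev i f) := rfl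

lemma eq_sum [Fintype ι] [DecidableEq ι] (f : b.E) :
    f = ∑ i, b.ev i f • b.toE (Pi.single i 1) := by
  apply b.toE.symm.injective
  rw [map_sum]
  funext i
  rw [Finset.sum_apply]
  simp only [map_smul, LinearEquiv.symm_apply_apply, Pi.smul_apply, Pi.single_apply, smul_eq_mul,
    mul_ite, mul_one, mul_zero]
  rw [Finset.sum_ite_eq]
  simp [b.ev_apply]

end BN

/-- The `l_1`-sum of finite-dimensional spaces with coordinates. -/
theorem exists_l1sum (ι : ℕ → Type) [∀ J, Fintype (ι J)] [∀ J, DecidableEq (ι J)]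
    (b : ∀ J, BN (ι J)) :
    ∃ (X : Type) (_ : NormedAddCommGroup X) (_ : NormedSpace ℝ X) (_ : CompleteSpace X)
      (x : (Σ J, ι J) → X) (xs : (Σ J, ι J) → X →L[ℝ] ℝ),
      (∀ p q, xs p (x q) = if p = q then 1 else 0) ∧
      (∀ f : X, HasSum (fun J => (b J).N (fun i => xs ⟨J, i⟩ f)) ‖f‖) ∧
      (∀ f : X, f ∈ closure (Submodule.span ℝ (Set.range x) : Set X)) := by
  classical
  let xs : (Σ J, ι J) → lp (fun J => (b J).E) 1 →L[ℝ] ℝ := fun p =>
    ((b p.1).ev p.2).comp (lp.evalCLM ℝ (fun J => (b J).E) 1 p.1)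
  let x : (Σ J, ι J) → lp (fun J => (b J).E) 1 := fun p =>
    lp.single 1 p.1 ((b p.1).toE (Pi.single p.2 1))
  have hxs : ∀ p f, xs p f = (b p.1).ev p.2 (f p.1) := fun p f => rfl
  refine ⟨lp (fun J => (b J).E) 1, inferInstance, inferInstance, inferInstance, x, xs, ?_, ?_, ?_⟩
  · rintro ⟨J, i⟩ ⟨J', i'⟩
    rw [hxs]
    by_cases hJ : J = J'
    · subst hJ
      simp only [x]
      rw [lp.single_apply_self, BN.ev_toE]
      by_cases hi : i = i'
      · subst hi; simp
      · rw [Pi.single_eq_of_ne hi, if_neg]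
        intro h; apply hi; simpa using h
    · simp only [x]
      rw [lp.single_apply_ne _ _ _ hJ, if_neg, map_zero]
      intro h; apply hJ; exact congrArg Sigma.fst h
  · intro f
    have := lp.hasSum_norm (E := fun J => (b J).E) (p := 1) (by norm_num) f
    simp only [ENNReal.toReal_one, Real.rpow_one] at this
    exact this
  · intro f
    have hs : HasSum (fun J => (lp.single 1 J (f J) : lp (fun J => (b J).E) 1)) f :=
      lp.hasSum_single ENNReal.one_ne_top f
    apply mem_closure_of_tendsto hs
    filter_upwards with s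
    apply Submodule.sum_mem
    intro J _
    have : (lp.single 1 J (f J) : lp (fun J => (b J).E) 1) =
        ∑ i, ((b J).ev i (f J)) • x ⟨J, i⟩ := by
      conv_lhs => rw [(b J).eq_sum (f J)]
      rw [← lp.lsingle_apply (𝕜 := ℝ), map_sum]
      apply Finset.sum_congr rfl
      intro i _
      rw [map_smul, lp.lsingle_apply]
    rw [this]
    apply Submodule.sum_mem
    intro i _
    exact Submodule.smul_mem _ _ (Submodule.subset_span ⟨_, rfl⟩)

end Pool.Agent.Q195.LS
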