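import Pool.Agent.Q195.LTN
import Pool.Agent.Helper717.LT.Defs

/-!
# The constant in the symmetric Lieb-Thirring inequality
-/

set_option autoImplicit false

namespace Pool.Agent.Q195.LT

open Real MeasureTheory

/-- the volume of the unit ball -/
noncomputable def om (n : ℕ) : ℝ :=
  (volume (Metric.ball (0 : EuclideanSpace ℝ (Fin n)) 1)).toReal

lemma om_eq (n : ℕ) (hn : 1 ≤ n) : om n = √π ^ n / G n := by
  have : Nonempty (Fin n) := ⟨⟨0, hn⟩⟩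
  unfold om G
  rw [EuclideanSpace.volume_ball]
  simp only [ENNReal.ofReal_one, one_pow, one_mul, Fintype.card_fin]
  rw [ENNReal.toReal_ofReal]
  have : 0 < Gamma ((n : ℝ) / 2 + 1) := Gamma_pos_of_pos (by positivity)
  positivity

lemma om_pos (n : ℕ) (hn : 1 ≤ n) : 0 < om n := by
  rw [om_eq n hn]
  have := G_pos n
  positivity

lemma om_sq (n : ℕ) (hn : 1 ≤ n) : om n ^ 2 = π ^ n / G n ^ 2 := by
  rw [om_eq n hn, div_pow, ← pow_mul, mul_comm, pow_mul, sq_sqrt pi_pos.le]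

lemma Kcl_eq (n : ℕ) : LTd.Kcl n = n / (n + 2) * ((2 * π) ^ 2 / om n ^ ((2 : ℝ) / n)) := rfl

lemma Kcl_pos (n : ℕ) (hn : 1 ≤ n) : 0 < LTd.Kcl n := by
  rw [Kcl_eq]
  have := om_pos n hn
  have h0 : (0 : ℝ) < n := by exact_mod_cast hn
  positivity

lemma rpow_div_pow (x : ℝ) (hx : 0 ≤ x) (a d : ℕ) (hd : 1 ≤ d) :
    (x ^ ((a : ℝ) / d)) ^ d = x ^ a := by
  have h0 : (0 : ℝ) < d := by exact_mod_cast hd
  rw [← rpow_natCast, ← rpow_mul hx, div_mul_cancel₀ _ h0.ne', rpow_natCast]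

lemma Kcl_pow (n : ℕ) (hn : 1 ≤ n) :
    LTd.Kcl n ^ n = (n / (n + 2)) ^ n * (((2 * π) ^ 2) ^ n * G n ^ 2 / π ^ n) := by
  rw [Kcl_eq, mul_pow, div_pow ((2 * π) ^ 2)]
  have h := rpow_div_pow (om n) (om_pos n hn).le 2 n hn
  rw [show ((2 : ℕ) : ℝ) = 2 by norm_num] at h
  rw [h, om_sq n hn]
  have := G_pos n
  congr 1
  field_simp

/-- the constant of the symmetric inequality on `ℝ^(M+6) × ℝ^k` -/
noncomputable def cst (k M : ℕ) : ℝ :=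
  (((M + 6 : ℕ) : ℝ) * om (M + 6)) ^ ((2 : ℝ) / ((M + 6 + k : ℕ) : ℝ)) *
    ((3 / 4 : ℝ) ^ (1 / ((k : ℝ) + 1)) * LTd.Kcl (k + 1) *
      ((M + 6 + k : ℕ) : ℝ) / ((k + 1 : ℕ) : ℝ)) ^ (((k + 1 : ℕ) : ℝ) / ((M + 6 + k : ℕ) : ℝ)) *
    (((M : ℝ) + 3) / 4 * ((M + 6 + k : ℕ) : ℝ)) ^ (((M + 5 : ℕ) : ℝ) / ((M + 6 + k : ℕ) : ℝ))

theorem Kcl_le_cst (k M : ℕ) : LTd.Kcl (M + 6 + k) ≤ cst k M := by
  have hd : 1 ≤ M + 6 + k := by omega
  have hn : 1 ≤ k + 1 := by omega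
  have hm : 1 ≤ M + 6 := by omega
  have hd0 : (0 : ℝ) < ((M + 6 + k : ℕ) : ℝ) := by exact_mod_cast hd
  have hn0 : (0 : ℝ) < ((k + 1 : ℕ) : ℝ) := by exact_mod_cast hn
  have hK := Kcl_pos (k + 1) hn
  have hom := om_pos (M + 6) hm
  have hm0 : (0 : ℝ) < ((M + 6 : ℕ) : ℝ) := by exact_mod_cast hm
  have hc0 : 0 ≤ cst k M := by
    unfold cst
    positivity
  rw [← pow_le_pow_iff_left₀ (Kcl_pos _ hd).le hc0 (by omega : M + 6 + k ≠ 0)]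
  have h3 : ((3 / 4 : ℝ) ^ (1 / ((k : ℝ) + 1))) ^ (k + 1) = 3 / 4 := by
    have h := rpow_div_pow (3 / 4) (by norm_num) 1 (k + 1) hn
    push_cast at h
    rw [h, pow_one]
  have h2 := rpow_div_pow (((M + 6 : ℕ) : ℝ) * om (M + 6)) (by positivity) 2 (M + 6 + k) hd
  rw [show ((2 : ℕ) : ℝ) = 2 by norm_num] at h2
  have hB : cst k M ^ (M + 6 + k) = ((M + 6 : ℕ) : ℝ) ^ 2 * (π ^ (M + 6) / G (M + 6) ^ 2) *
      (3 / 4 * ((((k + 1 : ℕ) : ℝ) / (((k + 1 : ℕ) : ℝ) + 2)) ^ (k + 1) *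
        (((2 * π) ^ 2) ^ (k + 1) * G (k + 1) ^ 2 / π ^ (k + 1))) *
        ((M + 6 + k : ℕ) : ℝ) ^ (k + 1) / ((k + 1 : ℕ) : ℝ) ^ (k + 1)) *
      ((((M : ℝ) + 3) / 4) ^ (M + 5) * ((M + 6 + k : ℕ) : ℝ) ^ (M + 5)) := by
    unfold cst
    rw [mul_pow, mul_pow, rpow_div_pow _ (by positivity) (k + 1) (M + 6 + k) hd,
      rpow_div_pow _ (by positivity) (M + 5) (M + 6 + k) hd, h2, mul_pow _ (om (M + 6)),
      om_sq _ hm, div_pow _ (((k + 1 : ℕ) : ℝ)), mul_pow _ (((M + 6 + k : ℕ) : ℝ)),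
      mul_pow _ (LTd.Kcl (k + 1)), h3, Kcl_pow _ hn, mul_pow (((M : ℝ) + 3) / 4)]
  rw [Kcl_pow _ hd, hB]
  have hstar := star (k + 1) M hn
  unfold Star at hstar
  have e1 : k + 1 + M + 5 = M + 6 + k := by ring
  rw [e1] at hstar
  have hGn := G_pos (k + 1)
  have hGm := G_pos (M + 6)
  have hGd := G_pos (M + 6 + k)
  have hπ := pi_pos
  set d : ℝ := ((M + 6 + k : ℕ) : ℝ) with hdd
  set n : ℝ := ((k + 1 : ℕ) : ℝ) with hnn
  have ed : n + M + 7 = d + 2 := by rw [hdd, hnn]; push_cast; ring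
  rw [ed] at hstar
  have hM3 : (0 : ℝ) < (M : ℝ) + 3 := by positivity
  -- the common factor
  set W : ℝ := ((2 * π) ^ 2) ^ (k + 1) * π ^ (M + 5) / π ^ (k + 1) * d ^ (M + 6 + k) with hW
  have hW0 : 0 < W := by positivity
  have hL : (d / (d + 2)) ^ (M + 6 + k) * (((2 * π) ^ 2) ^ (M + 6 + k) * G (M + 6 + k) ^ 2 /
      π ^ (M + 6 + k)) = W * (4 ^ (M + 5) * G (M + 6 + k) ^ 2 / (d + 2) ^ (M + 6 + k)) := by
    rw [hW, show M + 6 + k = (M + 5) + (k + 1) by ring, pow_add (d / (d + 2)), div_pow, div_pow,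
      pow_add ((2 * π) ^ 2), pow_add π, pow_add d, pow_add (d + 2)]
    have e : ((2 * π) ^ 2) ^ (M + 5) = 4 ^ (M + 5) * π ^ (M + 5) * π ^ (M + 5) := by
      rw [mul_pow, mul_pow, pow_two π, mul_pow π π]
      norm_num
      ring
    rw [e]
    field_simp
    ring
  have hR : ((M + 6 : ℕ) : ℝ) ^ 2 * (π ^ (M + 6) / G (M + 6) ^ 2) *
      (3 / 4 * ((n / (n + 2)) ^ (k + 1) * (((2 * π) ^ 2) ^ (k + 1) * G (k + 1) ^ 2 /
        π ^ (k + 1))) * d ^ (k + 1) / n ^ (k + 1)) * ((((M : ℝ) + 3) / 4) ^ (M + 5) *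
          d ^ (M + 5)) =
      W * (3 * ((M : ℝ) + 6) ^ 2 * π * G (k + 1) ^ 2 * ((M : ℝ) + 3) ^ (M + 5) /
        (4 * G (M + 6) ^ 2 * (n + 2) ^ (k + 1) * 4 ^ (M + 5))) := by
    rw [hW, show M + 6 + k = (M + 5) + (k + 1) by ring, pow_add d, div_pow, div_pow,
      show M + 6 = (M + 5) + 1 by ring, pow_succ π (M + 5)]
    push_cast
    field_simp
    ring
  rw [hL, hR]
  refine mul_le_mul_of_nonneg_left ?_ hW0.le
  rw [div_le_div_iff₀ (by positivity) (by positivity)]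
  have e16 : (16 : ℝ) ^ (M + 5) = 4 ^ (M + 5) * 4 ^ (M + 5) := by
    rw [← mul_pow]; norm_num
  rw [e16] at hstar
  nlinarith [hstar]

end Pool.Agent.Q195.LT
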