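import Pool.Agent.Q195.LTP
import Pool.Agent.Helper717.LT.P_pd_basic

/-!
# Functions invariant under rotations of the first group of variables
-/

set_option autoImplicit false

namespace Pool.Agent.Q195.LT

open Real MeasureTheory Set Filter Topology LTd

variable {k M : ℕ}

/-- a unit vector -/
noncomputable def e0 (M : ℕ) : EE M := EuclideanSpace.single 0 1

lemma norm_e0 : ‖e0 M‖ = 1 := by simp [e0]

/-- the embedding of the half plane coordinates along the direction `a` -/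
noncomputable def emb (a : EE M) : (Fin (k + 1) → ℝ) →L[ℝ] EE M × (Fin k → ℝ) :=
  ((ContinuousLinearMap.proj (R := ℝ) (φ := fun _ : Fin (k + 1) => ℝ) 0).smulRight a).prod
    (ContinuousLinearMap.pi fun j : Fin k =>
      ContinuousLinearMap.proj (R := ℝ) (φ := fun _ : Fin (k + 1) => ℝ) j.succ)

lemma emb_apply (a : EE M) (z : Fin (k + 1) → ℝ) :
    emb a z = (z 0 • a, fun j => z j.succ) := rfl

lemma norm_emb (a : EE M) (ha : ‖a‖ = 1) (z : Fin (k + 1) → ℝ) : ‖z‖ ≤ ‖emb a z‖ := by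
  rw [emb_apply, Prod.norm_def]
  rw [pi_norm_le_iff_of_nonneg (le_max_of_le_left (norm_nonneg _))]
  intro i
  refine Fin.cases ?_ (fun j => ?_) i
  · refine le_max_of_le_left ?_
    simp [norm_smul, ha]
  · refine le_max_of_le_right ?_
    exact norm_le_pi_norm (fun j : Fin k => z j.succ) j

/-- the profile of an invariant function -/
noncomputable def prof (u : EE M × (Fin k → ℝ) → ℝ) : (Fin (k + 1) → ℝ) → ℝ :=
  fun z => u (emb (e0 M) z)

/-- invariance under rotations of the first group of variables -/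
def Inv {β : Type*} (u : EE M × (Fin k → ℝ) → β) : Prop :=
  ∀ x x' y, ‖x‖ = ‖x'‖ → u (x, y) = u (x', y)

lemma prof_contDiff {u : EE M × (Fin k → ℝ) → ℝ} (hu : ContDiff ℝ 1 u) :
    ContDiff ℝ 1 (prof u) := hu.comp (emb (e0 M)).contDiff

lemma prof_compact {u : EE M × (Fin k → ℝ) → ℝ} (hc : HasCompactSupport u) :
    HasCompactSupport (prof u) := by
  obtain ⟨R, hR⟩ := hc.isCompact.isBounded.exists_norm_le
  refine HasCompactSupport.intro (isCompact_closedBall (0 : Fin (k + 1) → ℝ) R) ?_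
  intro z hz
  rw [mem_closedBall_zero_iff, not_le] at hz
  by_contra h
  have := hR _ (subset_tsupport _ h)
  exact absurd (norm_emb (e0 M) norm_e0 z) (not_le.2 (lt_of_le_of_lt this hz))

lemma prof_eq {u : EE M × (Fin k → ℝ) → ℝ} (hi : Inv u) (a : EE M) (ha : ‖a‖ = 1) :
    (fun z => u (emb a z)) = prof u := by
  funext z
  unfold prof
  rw [emb_apply, emb_apply]
  exact hi _ _ _ (by simp [norm_smul, ha, norm_e0])

lemma emb_cn (x a : EE M) (y : Fin k → ℝ) (hx : x = ‖x‖ • a) : emb a (cn (x, y)) = (x, y) := by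
  rw [emb_apply]
  refine Prod.ext ?_ ?_
  · exact hx.symm
  · funext j
    rfl

lemma exists_dir (x : EE M) : ∃ a : EE M, ‖a‖ = 1 ∧ x = ‖x‖ • a := by
  by_cases h : x = 0
  · exact ⟨e0 M, norm_e0, by simp [h]⟩
  · have h0 : ‖x‖ ≠ 0 := norm_ne_zero_iff.2 h
    refine ⟨‖x‖⁻¹ • x, ?_, ?_⟩
    · rw [norm_smul, norm_inv, norm_norm, inv_mul_cancel₀ h0]
    · rw [smul_smul, mul_inv_cancel₀ h0, one_smul]

lemma prof_cn {u : EE M × (Fin k → ℝ) → ℝ} (hi : Inv u) (p : EE M × (Fin k → ℝ)) :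
    prof u (cn p) = u p := by
  obtain ⟨x, y⟩ := p
  obtain ⟨a, ha, hx⟩ := exists_dir x
  rw [← prof_eq hi a ha]
  show u (emb a (cn (x, y))) = _
  rw [emb_cn x a y hx]

/-- the density of the kinetic energy -/
noncomputable def en (u : EE M × (Fin k → ℝ) → ℝ) (p : EE M × (Fin k → ℝ)) : ℝ :=
  (∑ i : Fin (M + 6), (fderiv ℝ u p (EuclideanSpace.single i 1, 0)) ^ 2) +
    ∑ j : Fin k, (fderiv ℝ u p (0, Pi.single j 1)) ^ 2

lemma fderiv_prof {u : EE M × (Fin k → ℝ) → ℝ} (hu : ContDiff ℝ 1 u) (hi : Inv u) (a : EE M)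
    (ha : ‖a‖ = 1) (z v : Fin (k + 1) → ℝ) :
    fderiv ℝ (prof u) z v = fderiv ℝ u (emb a z) (emb a v) := by
  rw [← prof_eq hi a ha]
  have h1 : DifferentiableAt ℝ u (emb a z) := (hu.differentiable (by norm_num)) _
  have h2 := h1.hasFDerivAt.comp z (emb (k := k) a).hasFDerivAt
  have h3 : fderiv ℝ (fun z => u (emb a z)) z = (fderiv ℝ u (emb a z)).comp (emb a) := h2.fderiv
  rw [h3]
  rfl

lemma energy_le {u : EE M × (Fin k → ℝ) → ℝ} (hu : ContDiff ℝ 1 u) (hi : Inv u)
    (p : EE M × (Fin k → ℝ)) : ∑ l, (pd l (prof u) (cn p)) ^ 2 ≤ en u p := by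
  obtain ⟨x, y⟩ := p
  obtain ⟨a, ha, hx⟩ := exists_dir x
  rw [Fin.sum_univ_succ]
  unfold en
  refine add_le_add ?_ ?_
  · unfold pd
    rw [fderiv_prof hu hi a ha, emb_cn x a y hx]
    have e1 : emb a (Pi.single (0 : Fin (k + 1)) (1 : ℝ)) = (a, 0) := by
      rw [emb_apply]
      refine Prod.ext ?_ ?_
      · simp
      · funext j
        simp
    rw [e1]
    set L : EE M →L[ℝ] ℝ := (fderiv ℝ u (x, y)).comp (ContinuousLinearMap.inl ℝ (EE M) (Fin k → ℝ))
    have hL : ∀ b : EE M, fderiv ℝ u (x, y) (b, 0) = L b := fun b => rfl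
    simp only [hL]
    have ea : a = ∑ i, a i • EuclideanSpace.single i (1 : ℝ) := by
      ext i
      simp [Pi.single_apply]
    have h1 : L a = ∑ i, a i * L (EuclideanSpace.single i 1) := by
      conv_lhs => rw [ea]
      rw [map_sum]
      simp
    have h2 : ∑ i, a i ^ 2 = 1 := by
      have := EuclideanSpace.norm_sq_eq a
      rw [ha] at this
      simpa using this.symm
    rw [h1]
    have := Finset.sum_mul_sq_le_sq_mul_sq Finset.univ (fun i => a i)
      (fun i => L (EuclideanSpace.single i 1))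
    rw [h2, one_mul] at this
    exact this
  · refine Finset.sum_le_sum fun j _ => le_of_eq ?_
    unfold pd
    rw [fderiv_prof hu hi a ha, emb_cn x a y hx]
    congr 2
    rw [emb_apply]
    refine Prod.ext ?_ ?_
    · simp
    · funext i
      simp only [Pi.single_apply, Fin.succ_inj]

end Pool.Agent.Q195.LT
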