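import Pool.Agent.Q195.LTW
import Pool.Agent.Helper717.LT.P_core
import Pool.Agent.Helper717.LT.P_const_final

/-!
# The pointwise inequality and the derivatives of the weighted profiles
-/

set_option autoImplicit false

namespace Pool.Agent.Q195.LT

open Real MeasureTheory Set Filter Topology LTd

/-- the constant of the one dimensional building block -/
noncomputable def KP (k : ℕ) : ℝ := (3 / 4 : ℝ) ^ (1 / ((k : ℝ) + 1)) * LTd.Kcl (k + 1)

lemma KP_pos (k : ℕ) : 0 < KP k := by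
  unfold KP
  have := Kcl_pos (k + 1) (by omega)
  positivity

lemma amgm (k M : ℕ) (s q : ℝ) (hs : 0 ≤ s) (hq : 0 ≤ q) :
    cst k M * (sg M * (s ^ (M + 5) * q ^ (1 + 2 / ((M + 6 + k : ℕ) : ℝ)))) ≤
      KP k * (sg M * (s ^ (M + 5) * q)) ^ (1 + 2 / ((k + 1 : ℕ) : ℝ)) +
        sg M * (((M : ℝ) + 5) * ((M : ℝ) + 3) / 4) * (s ^ (M + 3) * q) := by
  have hσ := sg_pos M
  have hK := KP_pos k
  set d : ℝ := ((M + 6 + k : ℕ) : ℝ) with hd
  set n : ℝ := ((k + 1 : ℕ) : ℝ) with hn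
  have hd0 : 0 < d := by rw [hd]; positivity
  have hn0 : 0 < n := by rw [hn]; positivity
  rcases hs.eq_or_lt with h | hs0
  · rw [← h, zero_pow (by omega), zero_mul, mul_zero, mul_zero]
    positivity
  rcases hq.eq_or_lt with h | hq0
  · rw [← h, zero_rpow (by positivity), mul_zero, mul_zero, mul_zero]
    positivity
  set X : ℝ := sg M * (s ^ (M + 5) * q) with hX
  have hX0 : 0 < X := by positivity
  set c : ℝ := ((M : ℝ) + 5) * ((M : ℝ) + 3) / 4 with hc
  have hc0 : 0 < c := by positivity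
  have e1 : KP k * X ^ (1 + 2 / n) + sg M * c * (s ^ (M + 3) * q) =
      X * (KP k * X ^ (2 / n) + c / s ^ 2) := by
    rw [rpow_add hX0, rpow_one, hX]
    have : s ^ (M + 5) = s ^ (M + 3) * s ^ 2 := by ring
    rw [this]
    field_simp
  have e2 : cst k M * (sg M * (s ^ (M + 5) * q ^ (1 + 2 / d))) = X * (cst k M * q ^ (2 / d)) := by
    rw [rpow_add hq0, rpow_one, hX]
    ring
  rw [e1, e2]
  refine mul_le_mul_of_nonneg_left ?_ hX0.le
  have hw : n / d + ((M + 5 : ℕ) : ℝ) / d = 1 := by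
    rw [← add_div, div_eq_one_iff_eq hd0.ne', hn, hd]
    push_cast
    ring
  have hm0 : (0 : ℝ) < ((M + 5 : ℕ) : ℝ) := by positivity
  have key := geom_mean_le_arith_mean2_weighted (w₁ := n / d) (w₂ := ((M + 5 : ℕ) : ℝ) / d)
    (p₁ := KP k * X ^ (2 / n) / (n / d)) (p₂ := c / s ^ 2 / (((M + 5 : ℕ) : ℝ) / d))
    (by positivity) (by positivity) (by positivity) (by positivity) hw
  have e3 : n / d * (KP k * X ^ (2 / n) / (n / d)) +
      ((M + 5 : ℕ) : ℝ) / d * (c / s ^ 2 / (((M + 5 : ℕ) : ℝ) / d)) =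
      KP k * X ^ (2 / n) + c / s ^ 2 := by
    rw [mul_div_cancel₀ _ (by positivity), mul_div_cancel₀ _ (by positivity)]
  rw [e3] at key
  refine le_trans (le_of_eq ?_) key
  have e4 : KP k * X ^ (2 / n) / (n / d) = (KP k * d / n) * X ^ (2 / n) := by
    field_simp
  have e5 : c / s ^ 2 / (((M + 5 : ℕ) : ℝ) / d) = (((M : ℝ) + 3) / 4 * d) / s ^ 2 := by
    rw [hc]
    push_cast
    field_simp
  rw [e4, e5, mul_rpow (by positivity) (by positivity),
    div_rpow (x := ((M : ℝ) + 3) / 4 * d) (y := s ^ 2) (by positivity) (by positivity),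
    ← rpow_mul hX0.le]
  have e6 : 2 / n * (n / d) = 2 / d := by field_simp
  have e7 : X ^ (2 / d) = sg M ^ (2 / d) * ((s ^ 2) ^ (((M + 5 : ℕ) : ℝ) / d) * q ^ (2 / d)) := by
    rw [hX, mul_rpow hσ.le (by positivity), mul_rpow (by positivity) hq]
    congr 2
    rw [← rpow_natCast s (M + 5), ← rpow_mul hs, ← rpow_natCast s 2, ← rpow_mul hs]
    congr 1
    push_cast
    ring
  rw [e6, e7]
  have e8 : cst k M = sg M ^ (2 / d) * (KP k * d / n) ^ (n / d) *
      (((M : ℝ) + 3) / 4 * d) ^ (((M + 5 : ℕ) : ℝ) / d) := rfl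
  rw [e8]
  have h9 : (0 : ℝ) < (s ^ 2) ^ (((M + 5 : ℕ) : ℝ) / d) := by positivity
  generalize (KP k * d / n) ^ (n / d) = A1
  generalize (((M : ℝ) + 3) / 4 * d) ^ (((M + 5 : ℕ) : ℝ) / d) = A2
  generalize (s ^ 2) ^ (((M + 5 : ℕ) : ℝ) / d) = A3 at h9 ⊢
  field_simp

lemma pd_wt_mul {n : ℕ} {g : ℝ → ℝ} {g' : ℝ} {f : (Fin (n + 1) → ℝ) → ℝ} {z : Fin (n + 1) → ℝ}
    (hg : HasDerivAt g g' (z 0)) (hf : DifferentiableAt ℝ f z) (l : Fin (n + 1)) :
    pd l (fun z => g (z 0) * f z) z =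
      g (z 0) * pd l f z + (g' * (Pi.single l 1 : Fin (n + 1) → ℝ) 0) * f z := by
  have h1 : HasFDerivAt (fun z : Fin (n + 1) → ℝ => z 0)
      (ContinuousLinearMap.proj (R := ℝ) (φ := fun _ : Fin (n + 1) => ℝ) 0) z :=
    hasFDerivAt_apply 0 z
  have h2 : HasFDerivAt (fun z : Fin (n + 1) → ℝ => g (z 0))
      (g' • (ContinuousLinearMap.proj (R := ℝ) (φ := fun _ : Fin (n + 1) => ℝ) 0)) z :=
    hg.comp_hasFDerivAt z h1
  have h3 := h2.mul hf.hasFDerivAt
  have h4 : fderiv ℝ (fun z : Fin (n + 1) → ℝ => g (z 0) * f z) z = _ := h3.fderiv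
  unfold pd
  rw [h4]
  simp
  ring

lemma pd_const_mul {n : ℕ} (c : ℝ) {f : (Fin n → ℝ) → ℝ} {z : Fin n → ℝ}
    (hf : DifferentiableAt ℝ f z) (l : Fin n) :
    pd l (fun z => c * f z) z = c * pd l f z := by
  have h3 := hf.hasFDerivAt.const_mul c
  have h4 : fderiv ℝ (fun z : Fin n → ℝ => c * f z) z = _ := h3.fderiv
  unfold pd
  rw [h4]
  simp

lemma pd_sum_sq {n N : ℕ} (U : Fin N → (Fin n → ℝ) → ℝ) (z : Fin n → ℝ)
    (hf : ∀ i, DifferentiableAt ℝ (U i) z) (l : Fin n) :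
    pd l (fun z => ∑ i, U i z ^ 2) z = ∑ i, 2 * (U i z * pd l (U i) z) := by
  have h3 : HasFDerivAt (fun z => ∑ i, U i z ^ 2)
      (∑ i, (2 * U i z) • fderiv ℝ (U i) z) z := by
    refine HasFDerivAt.fun_sum fun i _ => ?_
    have := (hf i).hasFDerivAt.pow 2
    simpa using this
  unfold pd
  rw [h3.fderiv]
  simp [mul_assoc]

lemma int_pd {n : ℕ} {f : (Fin n → ℝ) → ℝ} (hf : ContDiff ℝ 1 f) (hc : HasCompactSupport f)
    (l : Fin n) : ∫ z, pd l f z = 0 := by
  have h := pd_basic hf hc l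
  have h1 := integral_mul_fderiv_eq_neg_fderiv_mul_of_integrable (μ := volume)
    (f := fun _ : Fin n → ℝ => (1 : ℝ)) (g := f) (v := Pi.single l 1) (𝕜 := ℝ)
    (by simp) (by
      simp only [one_mul]
      exact h.1.integrable_of_hasCompactSupport h.2)
    (by
      simp only [one_mul]
      exact hf.continuous.integrable_of_hasCompactSupport hc)
    (fun x _ => differentiableAt_const _) (fun x _ => hf.differentiable (by norm_num) x)
  simpa [pd] using h1

end Pool.Agent.Q195.LT
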