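import Mathlib

/-!
# The numerical inequality behind the symmetric Lieb-Thirring inequality
-/

set_option autoImplicit false

namespace Pool.Agent.Q195.LT

open Real

/-- `Γ(n/2 + 1)` -/
noncomputable def G (n : ℕ) : ℝ := Gamma ((n : ℝ) / 2 + 1)

lemma G_pos (n : ℕ) : 0 < G n := Gamma_pos_of_pos (by positivity)

lemma G_two (n : ℕ) : G (n + 2) = ((n : ℝ) + 2) / 2 * G n := by
  unfold G
  have e : (((n + 2 : ℕ) : ℝ) / 2 + 1) = ((n : ℝ) / 2 + 1) + 1 := by push_cast; ring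
  rw [e, Gamma_add_one (by positivity)]
  ring

lemma G_zero : G 0 = 1 := by
  unfold G
  simp

lemma G_one : G 1 = √π / 2 := by
  unfold G
  have e : (((1 : ℕ) : ℝ) / 2 + 1) = 1 / 2 + 1 := by norm_num
  rw [e, Gamma_add_one (by norm_num), Gamma_one_half_eq]
  ring

/-- second order Bernoulli -/
lemma bern (x : ℝ) (hx : 0 ≤ x) (n : ℕ) :
    1 + n * x + (n : ℝ) * (n - 1) / 2 * x ^ 2 ≤ (1 + x) ^ n := by
  induction n with
  | zero => simp
  | succ n ih =>
    rw [pow_succ]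
    push_cast
    have h1 : (0 : ℝ) ≤ n := by positivity
    rcases Nat.eq_zero_or_pos n with h0 | h0
    · subst h0
      norm_num
    · have h2 : (1 : ℝ) ≤ n := by exact_mod_cast h0
      have h3 : 0 ≤ (n : ℝ) * (n - 1) / 2 * x ^ 2 * x := by
        have : 0 ≤ (n : ℝ) - 1 := by linarith
        positivity
      calc 1 + ((n : ℝ) + 1) * x + ((n : ℝ) + 1) * (n + 1 - 1) / 2 * x ^ 2 ≤
            (1 + n * x + (n : ℝ) * (n - 1) / 2 * x ^ 2) * (1 + x) := by nlinarith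
        _ ≤ _ := mul_le_mul_of_nonneg_right ih (by linarith)

/-- `(1 + 2/a)^a` is increasing -/
lemma mono (a b : ℕ) (ha : 1 ≤ a) (hab : a ≤ b) :
    ((a : ℝ) + 2) ^ a * (b : ℝ) ^ b ≤ ((b : ℝ) + 2) ^ b * (a : ℝ) ^ a := by
  have ha0 : (0 : ℝ) < a := by exact_mod_cast ha
  have hb0 : (0 : ℝ) < b := by exact_mod_cast (by omega : 0 < b)
  have hab' : (a : ℝ) ≤ b := by exact_mod_cast hab
  have h1 := one_add_mul_self_le_rpow_one_add (s := 2 / (b : ℝ)) (p := (b : ℝ) / a)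
    (by have : 0 ≤ 2 / (b : ℝ) := by positivity
        linarith) ((one_le_div ha0).2 hab')
  have e1 : (b : ℝ) / a * (2 / b) = 2 / a := by field_simp
  rw [e1] at h1
  have h2 : (1 + 2 / (a : ℝ)) ^ a ≤ (1 + 2 / (b : ℝ)) ^ b := by
    calc (1 + 2 / (a : ℝ)) ^ a ≤ ((1 + 2 / (b : ℝ)) ^ ((b : ℝ) / a)) ^ a :=
          pow_le_pow_left₀ (by positivity) h1 a
      _ = (1 + 2 / (b : ℝ)) ^ b := by
          rw [← rpow_natCast, ← rpow_mul (by positivity), div_mul_cancel₀ _ ha0.ne', rpow_natCast]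
  have e2 : ((a : ℝ) + 2) ^ a = (1 + 2 / (a : ℝ)) ^ a * (a : ℝ) ^ a := by
    rw [← mul_pow]
    congr 1
    field_simp
  have e3 : ((b : ℝ) + 2) ^ b = (1 + 2 / (b : ℝ)) ^ b * (b : ℝ) ^ b := by
    rw [← mul_pow]
    congr 1
    field_simp
  rw [e2, e3]
  have : (0 : ℝ) ≤ (a : ℝ) ^ a * (b : ℝ) ^ b := by positivity
  nlinarith

/-- the inequality `(★)` for `m = M + 6` -/
def Star (n M : ℕ) : Prop :=
  4 * 16 ^ (M + 5) * ((n : ℝ) + 2) ^ n * (G (M + 6)) ^ 2 * (G (n + M + 5)) ^ 2 ≤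
    3 * π * ((M : ℝ) + 6) ^ 2 * ((M : ℝ) + 3) ^ (M + 5) * ((n : ℝ) + M + 7) ^ (n + M + 5) *
      (G n) ^ 2

lemma star_n {n M : ℕ} (h : Star n M) : Star (n + 2) M := by
  unfold Star at *
  have e1 : n + 2 + M + 5 = (n + M + 5) + 2 := by ring
  rw [e1, G_two (n + M + 5), G_two n]
  have hm := mono (n + 2) (n + M + 7) (by omega) (by omega)
  push_cast at hm ⊢
  have hG := G_pos n
  have hG6 := G_pos (M + 6)
  have hGd := G_pos (n + M + 5)
  have e2 : ((n : ℝ) + 2 + 2) = n + 4 := by ring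
  have e3 : ((n : ℝ) + M + 7 + 2) = n + M + 9 := by ring
  have e4 : ((n : ℝ) + 2 + M + 7) = n + M + 9 := by ring
  have e5 : ((n : ℝ) + M + 5 + 2) = n + M + 7 := by ring
  rw [e2, e3] at hm
  rw [e2, e4, e5]
  set a := (n : ℝ) + 2 with ha
  set b := (n : ℝ) + M + 7 with hb
  have ha0 : 0 < a := by positivity
  have hb0 : 0 < b := by positivity
  -- multiply
  have h0 : 0 ≤ 4 * 16 ^ (M + 5) * a ^ n * (G (M + 6)) ^ 2 * (G (n + M + 5)) ^ 2 := by positivity
  have h1 : (4 * 16 ^ (M + 5) * a ^ n * (G (M + 6)) ^ 2 * (G (n + M + 5)) ^ 2) *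
      (((n : ℝ) + 4) ^ (n + 2) * b ^ (n + M + 7)) ≤
      (3 * π * ((M : ℝ) + 6) ^ 2 * ((M : ℝ) + 3) ^ (M + 5) * b ^ (n + M + 5) * (G n) ^ 2) *
      (((n : ℝ) + M + 9) ^ (n + M + 7) * a ^ (n + 2)) :=
    mul_le_mul h hm (by positivity) (h0.trans h)
  have h2 : 0 < a ^ n * b ^ (n + M + 5) * 4 := by positivity
  refine le_of_mul_le_mul_right ?_ h2
  calc 4 * 16 ^ (M + 5) * ((n : ℝ) + 4) ^ (n + 2) * G (M + 6) ^ 2 * (b / 2 * G (n + M + 5)) ^ 2 *
        (a ^ n * b ^ (n + M + 5) * 4) =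
      (4 * 16 ^ (M + 5) * a ^ n * (G (M + 6)) ^ 2 * (G (n + M + 5)) ^ 2) *
        (((n : ℝ) + 4) ^ (n + 2) * b ^ (n + M + 7)) := by
        rw [show n + M + 7 = (n + M + 5) + 2 by ring, pow_add b]
        ring
    _ ≤ _ := h1
    _ = 3 * π * ((M : ℝ) + 6) ^ 2 * ((M : ℝ) + 3) ^ (M + 5) *
        ((n : ℝ) + M + 9) ^ (n + M + 5 + 2) * (a / 2 * G n) ^ 2 * (a ^ n * b ^ (n + M + 5) * 4) := by
        rw [show n + M + 5 + 2 = n + M + 7 by ring, pow_add a n 2]
        ring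

lemma star_m {n M : ℕ} (h : Star n M) : Star n (M + 2) := by
  unfold Star at *
  have e1 : n + (M + 2) + 5 = (n + M + 5) + 2 := by ring
  have e1' : M + 2 + 6 = (M + 6) + 2 := by ring
  rw [e1, e1', G_two (n + M + 5), G_two (M + 6)]
  push_cast
  have hG := G_pos n
  have hG6 := G_pos (M + 6)
  have hGd := G_pos (n + M + 5)
  -- the two powers
  set u := (M : ℝ) + 3 with hu
  set b := (n : ℝ) + M + 7 with hb
  have hu0 : 3 ≤ u := by
    have : (0 : ℝ) ≤ M := by positivity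
    linarith
  have hb0 : 7 ≤ b := by
    have : (0 : ℝ) ≤ M := by positivity
    have : (0 : ℝ) ≤ n := by positivity
    linarith
  have h5 : 5 * u ^ (M + 5) ≤ (u + 2) ^ (M + 5) := by
    have h := bern (2 / u) (by positivity) (M + 5)
    have e : (u + 2) ^ (M + 5) = (1 + 2 / u) ^ (M + 5) * u ^ (M + 5) := by
      rw [← mul_pow]
      congr 1
      field_simp
    rw [e]
    refine mul_le_mul_of_nonneg_right (le_trans ?_ h) (by positivity)
    push_cast
    have e2 : (M : ℝ) + 5 = u + 2 := by rw [hu]; ring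
    rw [e2]
    have h6 : (u + 2) * (2 / u) = 2 + 4 / u := by field_simp; ring
    have h7 : (u + 2) * (u + 2 - 1) / 2 * (2 / u) ^ 2 = 2 + 6 / u + 4 / u ^ 2 := by
      field_simp
      ring
    rw [h6, h7]
    have : 0 ≤ 4 / u := by positivity
    have : 0 ≤ 6 / u := by positivity
    have : 0 ≤ 4 / u ^ 2 := by positivity
    linarith
  have h47 : 33 / 7 * b ^ (n + M + 7) ≤ (b + 2) ^ (n + M + 7) := by
    have h := bern (2 / b) (by positivity) (n + M + 7)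
    have e : (b + 2) ^ (n + M + 7) = (1 + 2 / b) ^ (n + M + 7) * b ^ (n + M + 7) := by
      rw [← mul_pow]
      congr 1
      field_simp
    rw [e]
    refine mul_le_mul_of_nonneg_right (le_trans ?_ h) (by positivity)
    push_cast
    rw [← hb]
    have h6 : b * (2 / b) = 2 := by field_simp
    have h7 : b * (b - 1) / 2 * (2 / b) ^ 2 = 2 - 2 / b := by
      field_simp
    rw [h6, h7]
    have h8 : 2 / b ≤ 2 / 7 := div_le_div_of_nonneg_left (by norm_num) (by norm_num) hb0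
    linarith
  have h16 : 16 * ((M : ℝ) + 6) ^ 2 ≤ 5 * (33 / 7) * (u + 2) ^ 2 := by
    have e : (M : ℝ) + 6 = u + 3 := by rw [hu]; ring
    rw [e]
    nlinarith
  -- the factor inequality
  have hfac : 16 * ((M : ℝ) + 6) ^ 2 * u ^ (M + 5) * b ^ (n + M + 7) ≤
      (u + 2) ^ (M + 7) * (b + 2) ^ (n + M + 7) := by
    calc 16 * ((M : ℝ) + 6) ^ 2 * u ^ (M + 5) * b ^ (n + M + 7) ≤
          5 * (33 / 7) * (u + 2) ^ 2 * u ^ (M + 5) * b ^ (n + M + 7) := by gcongr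
      _ = (u + 2) ^ 2 * (5 * u ^ (M + 5)) * (33 / 7 * b ^ (n + M + 7)) := by ring
      _ ≤ (u + 2) ^ 2 * (u + 2) ^ (M + 5) * (b + 2) ^ (n + M + 7) := by gcongr
      _ = _ := by rw [← pow_add, show 2 + (M + 5) = M + 7 by ring]
  have h0 : 0 ≤ 4 * 16 ^ (M + 5) * ((n : ℝ) + 2) ^ n * (G (M + 6)) ^ 2 *
      (G (n + M + 5)) ^ 2 := by positivity
  have h1 := mul_le_mul h hfac (by positivity) (h0.trans h)
  have e6 : ((M : ℝ) + 2 + 6) = M + 8 := by ring
  have e7 : ((M : ℝ) + 2 + 3) = u + 2 := by rw [hu]; ring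
  have e8 : ((n : ℝ) + ((M : ℝ) + 2) + 7) = b + 2 := by rw [hb]; ring
  have e9 : ((M : ℝ) + 6 + 2) = M + 8 := by ring
  have e10 : ((n : ℝ) + M + 5 + 2) = b := by rw [hb]; ring
  rw [e6, e7, e8, e9, e10]
  have h2 : 0 < ((M : ℝ) + 6) ^ 2 * u ^ (M + 5) * b ^ (n + M + 5) := by positivity
  refine le_of_mul_le_mul_right ?_ h2
  calc 4 * 16 ^ (M + 2 + 5) * ((n : ℝ) + 2) ^ n * (((M : ℝ) + 8) / 2 * G (M + 6)) ^ 2 *
        (b / 2 * G (n + M + 5)) ^ 2 * (((M : ℝ) + 6) ^ 2 * u ^ (M + 5) * b ^ (n + M + 5)) =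
      ((M : ℝ) + 8) ^ 2 * ((4 * 16 ^ (M + 5) * ((n : ℝ) + 2) ^ n * (G (M + 6)) ^ 2 *
        (G (n + M + 5)) ^ 2) * (16 * ((M : ℝ) + 6) ^ 2 * u ^ (M + 5) * b ^ (n + M + 7))) := by
        rw [show n + M + 7 = (n + M + 5) + 2 by ring, pow_add b,
          show M + 2 + 5 = (M + 5) + 2 by ring, pow_add (16 : ℝ)]
        ring
    _ ≤ ((M : ℝ) + 8) ^ 2 * ((3 * π * ((M : ℝ) + 6) ^ 2 * u ^ (M + 5) *
        b ^ (n + M + 5) * (G n) ^ 2) * ((u + 2) ^ (M + 7) * (b + 2) ^ (n + M + 7))) :=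
        mul_le_mul_of_nonneg_left h1 (by positivity)
    _ = _ := by
        rw [show n + M + 5 + 2 = n + M + 7 by ring, show M + 2 + 5 = M + 7 by ring]
        ring

lemma star_base (n M : ℕ) (hn : n = 1 ∨ n = 2) (hM : M = 0 ∨ M = 1) : Star n M := by
  have hπ : 0 < π := pi_pos
  have hs : √π ^ 2 = π := sq_sqrt hπ.le
  have g2 : G 2 = 1 := (G_two 0).trans (by rw [G_zero]; norm_num)
  have g4 : G 4 = 2 := (G_two 2).trans (by rw [g2]; norm_num)
  have g6 : G 6 = 6 := (G_two 4).trans (by rw [g4]; norm_num)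
  have g8 : G 8 = 24 := (G_two 6).trans (by rw [g6]; norm_num)
  have g3 : G 3 = 3 / 4 * √π := (G_two 1).trans (by rw [G_one]; push_cast; ring)
  have g5 : G 5 = 15 / 8 * √π := (G_two 3).trans (by rw [g3]; push_cast; ring)
  have g7 : G 7 = 105 / 16 * √π := (G_two 5).trans (by rw [g5]; push_cast; ring)
  have hπ2 : 314 / 100 < π := by
    have := pi_gt_d2
    linarith
  unfold Star
  rcases hn with rfl | rfl <;> rcases hM with rfl | rfl
  · norm_num
    rw [g6, G_one, div_pow, hs]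
    nlinarith
  · norm_num
    rw [g7, G_one, div_pow, mul_pow, hs]
    nlinarith
  · norm_num
    rw [g6, g7, g2, mul_pow, hs]
    nlinarith
  · norm_num
    rw [g7, g8, g2, mul_pow, hs]
    nlinarith

theorem star (n M : ℕ) (hn : 1 ≤ n) : Star n M := by
  -- first in `n`, then in `M`
  have h1 : ∀ M : ℕ, M = 0 ∨ M = 1 → ∀ n : ℕ, 1 ≤ n → Star n M := by
    intro M hM n
    induction n using Nat.strong_induction_on with
    | _ n ih =>
      intro hn
      rcases Nat.lt_or_ge n 3 with h | h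
      · exact star_base n M (by omega) hM
      · have h2 := star_n (ih (n - 2) (by omega) (by omega))
        rwa [show n - 2 + 2 = n by omega] at h2
  induction M using Nat.strong_induction_on with
  | _ M ih =>
    rcases Nat.lt_or_ge M 2 with h | h
    · exact h1 M (by omega) n hn
    · have h2 := star_m (ih (M - 2) (by omega))
      rwa [show M - 2 + 2 = M by omega] at h2

end Pool.Agent.Q195.LT
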