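import Pool.Agent.Q195.LTC

/-!
# Integration in polar coordinates in the first group of variables
-/

set_option autoImplicit false

namespace Pool.Agent.Q195.LT

open Real MeasureTheory Set Filter Topology

/-- the space of the first group of variables -/
abbrev EE (M : ℕ) := EuclideanSpace ℝ (Fin (M + 6))

/-- the volume of the unit sphere -/
noncomputable def sg (M : ℕ) : ℝ := ((M + 6 : ℕ) : ℝ) * om (M + 6)

lemma sg_pos (M : ℕ) : 0 < sg M := by
  unfold sg
  have := om_pos (M + 6) (by omega)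
  positivity

/-- the point with coordinates `‖x‖` and `y` -/
noncomputable def cn {k M : ℕ} (p : EE M × (Fin k → ℝ)) : Fin (k + 1) → ℝ := Fin.cons ‖p.1‖ p.2

lemma continuous_cn {k M : ℕ} : Continuous (cn (k := k) (M := M)) := by
  rw [continuous_pi_iff]
  intro i
  refine Fin.cases ?_ (fun j => ?_) i
  · exact continuous_fst.norm
  · exact (continuous_apply j).comp continuous_snd

lemma norm_le_cn {k M : ℕ} (p : EE M × (Fin k → ℝ)) : ‖p‖ ≤ ‖cn p‖ := by
  rw [Prod.norm_def, sup_le_iff]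
  constructor
  · have := norm_le_pi_norm (cn p) 0
    have h : cn p 0 = ‖p.1‖ := rfl
    rw [h, norm_norm] at this
    exact this
  · rw [pi_norm_le_iff_of_nonneg (norm_nonneg _)]
    intro j
    exact norm_le_pi_norm (cn p) j.succ

lemma comp_cn {k M : ℕ} {Φ : (Fin (k + 1) → ℝ) → ℝ} (hf : Continuous Φ)
    (hc : HasCompactSupport Φ) :
    Continuous (fun p : EE M × (Fin k → ℝ) => Φ (cn p)) ∧
    HasCompactSupport (fun p : EE M × (Fin k → ℝ) => Φ (cn p)) := by
  refine ⟨hf.comp continuous_cn, ?_⟩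
  obtain ⟨R, hR⟩ := hc.isCompact.isBounded.exists_norm_le
  refine HasCompactSupport.intro (isCompact_closedBall (0 : EE M × (Fin k → ℝ)) R) ?_
  intro p hp
  rw [mem_closedBall_zero_iff, not_le] at hp
  by_contra h
  have := hR _ (subset_tsupport _ h)
  exact absurd (norm_le_cn p) (not_le.2 (lt_of_le_of_lt this hp))

lemma polar {k M : ℕ} {Φ : (Fin (k + 1) → ℝ) → ℝ} (hf : Continuous Φ)
    (hc : HasCompactSupport Φ) :
    ∫ p : EE M × (Fin k → ℝ), Φ (cn p) =
      sg M * ∫ z : Fin (k + 1) → ℝ, (max (z 0) 0) ^ (M + 5) * Φ z := by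
  obtain ⟨hf', hc'⟩ := comp_cn (M := M) hf hc
  have hi := hf'.integrable_of_hasCompactSupport (μ := volume) hc'
  rw [Measure.volume_eq_prod] at hi ⊢
  rw [integral_prod_symm _ hi]
  -- the right hand side
  have hΨ : Continuous (fun z : Fin (k + 1) → ℝ => (max (z 0) 0) ^ (M + 5) * Φ z) :=
    (((continuous_apply 0).max continuous_const).pow _).mul hf
  have hΨc : HasCompactSupport (fun z : Fin (k + 1) → ℝ => (max (z 0) 0) ^ (M + 5) * Φ z) :=
    hc.mul_left
  have h := (volume_preserving_piFinSuccAbove (fun _ : Fin (k + 1) => ℝ) 0).symm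
  have hi1 := hΨ.integrable_of_hasCompactSupport (μ := volume) hΨc
  rw [← h.integral_comp' (fun z : Fin (k + 1) → ℝ => (max (z 0) 0) ^ (M + 5) * Φ z)]
  have hi2 : Integrable (fun p : ℝ × (Fin k → ℝ) =>
      (fun z : Fin (k + 1) → ℝ => (max (z 0) 0) ^ (M + 5) * Φ z)
        ((MeasurableEquiv.piFinSuccAbove (fun _ : Fin (k + 1) => ℝ) 0).symm p)) :=
    (h.integrable_comp_emb (MeasurableEquiv.measurableEmbedding _)).2 hi1
  rw [Measure.volume_eq_prod] at hi2 ⊢
  rw [integral_prod_symm _ hi2, ← integral_const_mul]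
  refine integral_congr_ae (ae_of_all _ fun y => ?_)
  have hE := integral_fun_norm_addHaar (volume : Measure (EE M))
    (fun r : ℝ => Φ (Fin.cons r y : Fin (k + 1) → ℝ))
  have hfr : Module.finrank ℝ (EE M) = M + 6 := by simp
  rw [hfr] at hE
  show ∫ x : EE M, Φ (Fin.cons ‖x‖ y : Fin (k + 1) → ℝ) = _
  rw [hE]
  have hr : (volume : Measure (EE M)).real (Metric.ball 0 1) = om (M + 6) := rfl
  rw [hr]
  have hrhs : ∫ r : ℝ, (fun z : Fin (k + 1) → ℝ => (max (z 0) 0) ^ (M + 5) * Φ z)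
        ((MeasurableEquiv.piFinSuccAbove (fun _ : Fin (k + 1) => ℝ) 0).symm (r, y)) =
      ∫ r in Ioi (0 : ℝ), r ^ (M + 5) * Φ (Fin.cons r y : Fin (k + 1) → ℝ) := by
    rw [← integral_indicator measurableSet_Ioi]
    refine integral_congr_ae (ae_of_all _ fun r => ?_)
    have e1 : (MeasurableEquiv.piFinSuccAbove (fun _ : Fin (k + 1) => ℝ) 0).symm (r, y) =
        (Fin.cons r y : Fin (k + 1) → ℝ) := by
      show (Fin.insertNth 0 r y : Fin (k + 1) → ℝ) = _
      rw [Fin.insertNth_zero']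
    simp only [e1, Fin.cons_zero]
    by_cases h0 : 0 < r
    · rw [indicator_of_mem (mem_Ioi.2 h0), max_eq_left h0.le]
    · rw [indicator_of_notMem (by simpa using h0), max_eq_right (not_lt.1 h0)]
      simp
  beta_reduce
  rw [hrhs]
  simp only [smul_eq_mul, nsmul_eq_mul, sg]
  rw [show M + 6 - 1 = M + 5 from rfl]
  ring

end Pool.Agent.Q195.LT
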