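import Pool.Agent.Q195.LTM
import Pool.Agent.Helper717.LT.P_final_thm

/-!
# The symmetric inequality for real Bessel families
-/

set_option autoImplicit false

namespace Pool.Agent.Q195.LT

open Real MeasureTheory Set Filter Topology LTd

variable {k M N : ℕ}

/-- the exponent of the weight -/
noncomputable def aa (M : ℕ) : ℝ := ((M : ℝ) + 5) / 2

lemma one_lt_aa (M : ℕ) : 1 < aa M := by
  unfold aa
  have : (0 : ℝ) ≤ M := by positivity
  linarith

lemma wt_aa_sq (M : ℕ) (t : ℝ) : wt (aa M) t * wt (aa M) t = (max t 0) ^ (M + 5) := by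
  have := one_lt_aa M
  rw [wt_mul (by linarith) (by linarith) (by linarith), ← wt_nat]
  congr 1
  unfold aa
  push_cast
  ring

lemma wt_aa_mul (M : ℕ) (t : ℝ) : wt (aa M) t * wt (aa M - 1) t = (max t 0) ^ (M + 4) := by
  have := one_lt_aa M
  rw [wt_mul (by linarith) (by linarith) (by linarith), ← wt_nat]
  congr 1
  unfold aa
  push_cast
  ring

lemma wt_aa_sub (M : ℕ) (t : ℝ) : wt (aa M - 1) t * wt (aa M - 1) t = (max t 0) ^ (M + 3) := by
  have := one_lt_aa M
  rw [wt_mul (by linarith) (by linarith) (by linarith), ← wt_nat]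
  congr 1
  unfold aa
  push_cast
  ring

/-- the weighted profile -/
noncomputable def ww (M : ℕ) (U : (Fin (k + 1) → ℝ) → ℝ) (z : Fin (k + 1) → ℝ) : ℝ :=
  √(sg M) * (wt (aa M) (z 0) * U z)

lemma ww_contDiff {U : (Fin (k + 1) → ℝ) → ℝ} (hU : ContDiff ℝ 1 U) :
    ContDiff ℝ 1 (ww M U) :=
  contDiff_const.mul (((wt_contDiff (one_lt_aa M)).comp (contDiff_apply ℝ ℝ 0)).mul hU)

lemma ww_compact {U : (Fin (k + 1) → ℝ) → ℝ} (hc : HasCompactSupport U) :
    HasCompactSupport (ww M U) := (hc.mul_left).mul_left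

lemma ww_sq (U : (Fin (k + 1) → ℝ) → ℝ) (z : Fin (k + 1) → ℝ) :
    ww M U z ^ 2 = sg M * ((max (z 0) 0) ^ (M + 5) * U z ^ 2) := by
  unfold ww
  rw [mul_pow, sq_sqrt (sg_pos M).le, mul_pow, sq (wt (aa M) (z 0)), wt_aa_sq]

lemma pd_ww {U : (Fin (k + 1) → ℝ) → ℝ} (hU : ContDiff ℝ 1 U) (z : Fin (k + 1) → ℝ)
    (l : Fin (k + 1)) :
    pd l (ww M U) z = √(sg M) * (wt (aa M) (z 0) * pd l U z +
      (aa M * wt (aa M - 1) (z 0) * (Pi.single l 1 : Fin (k + 1) → ℝ) 0) * U z) := by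
  have h1 : DifferentiableAt ℝ U z := hU.differentiable (by norm_num) z
  have h2 : DifferentiableAt ℝ (fun z : Fin (k + 1) → ℝ => wt (aa M) (z 0) * U z) z := by
    have : ContDiff ℝ 1 (fun z : Fin (k + 1) → ℝ => wt (aa M) (z 0) * U z) :=
      ((wt_contDiff (one_lt_aa M)).comp (contDiff_apply ℝ ℝ 0)).mul hU
    exact this.differentiable (by norm_num) z
  have h3 := pd_const_mul (√(sg M)) h2 l
  have h4 := pd_wt_mul (wt_hasDeriv (one_lt_aa M) (z 0)) h1 l
  rw [h4] at h3
  exact h3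

lemma sum_pd_ww {U : (Fin (k + 1) → ℝ) → ℝ} (hU : ContDiff ℝ 1 U) (z : Fin (k + 1) → ℝ) :
    ∑ l, pd l (ww M U) z ^ 2 = sg M * ((max (z 0) 0) ^ (M + 5) * ∑ l, pd l U z ^ 2 +
      2 * aa M * (max (z 0) 0) ^ (M + 4) * (U z * pd 0 U z) +
      aa M ^ 2 * ((max (z 0) 0) ^ (M + 3) * U z ^ 2)) := by
  have h1 : ∀ l : Fin k, pd l.succ (ww M U) z ^ 2 =
      sg M * ((max (z 0) 0) ^ (M + 5) * pd l.succ U z ^ 2) := by
    intro l
    rw [pd_ww hU, mul_pow, sq_sqrt (sg_pos M).le]
    have : (Pi.single l.succ (1 : ℝ) : Fin (k + 1) → ℝ) 0 = 0 := by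
      rw [Pi.single_eq_of_ne (Fin.succ_ne_zero l).symm]
    rw [this, mul_zero, zero_mul, add_zero, mul_pow, sq (wt (aa M) (z 0)), wt_aa_sq]
  rw [Fin.sum_univ_succ, Fin.sum_univ_succ (fun l => pd l U z ^ 2)]
  simp only [h1]
  rw [← Finset.mul_sum, ← Finset.mul_sum, pd_ww hU, mul_pow, sq_sqrt (sg_pos M).le]
  rw [Pi.single_eq_same, mul_one]
  rw [← wt_aa_sq, ← wt_aa_mul, ← wt_aa_sub]
  ring

/-- the sum of the squares -/
noncomputable def qq (U : Fin N → (Fin (k + 1) → ℝ) → ℝ) (z : Fin (k + 1) → ℝ) : ℝ :=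
  ∑ i, U i z ^ 2

/-- the boundary term -/
noncomputable def BB (M : ℕ) (U : Fin N → (Fin (k + 1) → ℝ) → ℝ) (z : Fin (k + 1) → ℝ) : ℝ :=
  wt ((M : ℝ) + 4) (z 0) * qq U z

lemma qq_contDiff {U : Fin N → (Fin (k + 1) → ℝ) → ℝ} (hU : ∀ i, ContDiff ℝ 1 (U i)) :
    ContDiff ℝ 1 (qq U) := ContDiff.sum fun i _ => (hU i).pow 2

lemma qq_compact {U : Fin N → (Fin (k + 1) → ℝ) → ℝ} (hc : ∀ i, HasCompactSupport (U i)) :
    HasCompactSupport (qq U) := by
  have h : ∀ s : Finset (Fin N), HasCompactSupport (fun z => ∑ i ∈ s, U i z ^ 2) := by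
    intro s
    induction s using Finset.induction_on with
    | empty =>
      simp only [Finset.sum_empty]
      exact HasCompactSupport.zero
    | insert i s hi ih =>
      simp only [Finset.sum_insert hi]
      refine HasCompactSupport.add ?_ ih
      exact (hc i).comp_left (g := fun x : ℝ => x ^ 2) (by norm_num)
  exact h Finset.univ

lemma pd_BB {U : Fin N → (Fin (k + 1) → ℝ) → ℝ} (hU : ∀ i, ContDiff ℝ 1 (U i))
    (z : Fin (k + 1) → ℝ) :
    pd 0 (BB M U) z = (max (z 0) 0) ^ (M + 4) * (∑ i, 2 * (U i z * pd 0 (U i) z)) +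
      ((M : ℝ) + 4) * (max (z 0) 0) ^ (M + 3) * qq U z := by
  have h1 : DifferentiableAt ℝ (qq U) z := (qq_contDiff hU).differentiable (by norm_num) z
  have hM : (1 : ℝ) < (M : ℝ) + 4 := by
    have : (0 : ℝ) ≤ M := by positivity
    linarith
  have h4 := pd_wt_mul (wt_hasDeriv hM (z 0)) h1 0
  have h5 := pd_sum_sq U z (fun i => (hU i).differentiable (by norm_num) z) 0
  have h6 : pd 0 (qq U) z = ∑ i, 2 * (U i z * pd 0 (U i) z) := h5
  have h7 : pd 0 (BB M U) z = _ := h4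
  rw [h7, h6, Pi.single_eq_same, mul_one]
  have e1 : wt ((M : ℝ) + 4) (z 0) = (max (z 0) 0) ^ (M + 4) := by
    rw [← wt_nat]; push_cast; rfl
  have e2 : wt ((M : ℝ) + 4 - 1) (z 0) = (max (z 0) 0) ^ (M + 3) := by
    rw [← wt_nat]; congr 1; push_cast; ring
  rw [e1, e2]

lemma sum_all {U : Fin N → (Fin (k + 1) → ℝ) → ℝ} (hU : ∀ i, ContDiff ℝ 1 (U i))
    (z : Fin (k + 1) → ℝ) :
    ∑ l, ∑ i, pd l (ww M (U i)) z ^ 2 =
      sg M * ((max (z 0) 0) ^ (M + 5) * ∑ i, ∑ l, pd l (U i) z ^ 2) +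
      sg M * aa M * pd 0 (BB M U) z -
      sg M * (((M : ℝ) + 5) * ((M : ℝ) + 3) / 4) * ((max (z 0) 0) ^ (M + 3) * qq U z) := by
  rw [Finset.sum_comm]
  simp only [sum_pd_ww (hU _)]
  rw [pd_BB hU, ← Finset.mul_sum, Finset.sum_add_distrib, Finset.sum_add_distrib,
    ← Finset.mul_sum, ← Finset.mul_sum, ← Finset.mul_sum, ← Finset.mul_sum, ← Finset.mul_sum]
  have hq : ∑ i, U i z ^ 2 = qq U z := rfl
  rw [hq]
  generalize ∑ i, ∑ l, pd l (U i) z ^ 2 = A
  generalize ∑ i, U i z * pd 0 (U i) z = B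
  generalize qq U z = C
  unfold aa
  ring

lemma hasCompactSupport_sum {ι X : Type*} [TopologicalSpace X] (s : Finset ι) (f : ι → X → ℝ)
    (hf : ∀ i ∈ s, HasCompactSupport (f i)) : HasCompactSupport (fun x => ∑ i ∈ s, f i x) := by
  classical
  induction s using Finset.induction_on with
  | empty =>
    simp only [Finset.sum_empty]
    exact HasCompactSupport.zero
  | insert i s hi ih =>
    simp only [Finset.sum_insert hi]
    exact (hf i (Finset.mem_insert_self i s)).add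
      (ih fun j hj => hf j (Finset.mem_insert_of_mem hj))

lemma rpow_compact {q : (Fin (k + 1) → ℝ) → ℝ} (hc : HasCompactSupport q) {r : ℝ} (hr : r ≠ 0) :
    HasCompactSupport (fun z => q z ^ r) :=
  hc.comp_left (g := fun x : ℝ => x ^ r) (zero_rpow hr)

/-- the inequality for profiles -/
theorem profile_ineq (U : Fin N → (Fin (k + 1) → ℝ) → ℝ) (hU : ∀ i, ContDiff ℝ 1 (U i))
    (hc : ∀ i, HasCompactSupport (U i))
    (hG : ∀ v : Fin N → ℝ, sg M * ∫ z, (max (z 0) 0) ^ (M + 5) * (∑ i, v i * U i z) ^ 2 ≤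
      ∑ i, v i ^ 2) :
    cst k M * (sg M * ∫ z, (max (z 0) 0) ^ (M + 5) * qq U z ^ (1 + 2 / ((M + 6 + k : ℕ) : ℝ))) ≤
      sg M * ∫ z, (max (z 0) 0) ^ (M + 5) * ∑ i, ∑ l, pd l (U i) z ^ 2 := by
  have hq0 : ∀ z, 0 ≤ qq U z := fun z => Finset.sum_nonneg fun i _ => sq_nonneg _
  have hqC := (qq_contDiff hU).continuous
  have hqc := qq_compact hc
  have hs : ∀ n : ℕ, Continuous (fun z : Fin (k + 1) → ℝ => (max (z 0) 0) ^ n) := fun n =>
    (((continuous_apply 0).max continuous_const).pow _)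
  -- the application of the inequality for the weighted profiles
  have hcore := core k N (fun i => ww M (U i)) (fun i => ww_contDiff (hU i))
    (fun i => ww_compact (hc i)) (by
      intro v
      refine le_trans (le_of_eq ?_) (hG v)
      rw [← integral_const_mul]
      refine integral_congr_ae (ae_of_all _ fun z => ?_)
      beta_reduce
      have e1 : ∑ i, v i * ww M (U i) z = √(sg M) * (wt (aa M) (z 0) * ∑ i, v i * U i z) := by
        rw [Finset.mul_sum, Finset.mul_sum]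
        refine Finset.sum_congr rfl fun i _ => ?_
        unfold ww
        ring
      rw [e1, mul_pow, sq_sqrt (sg_pos M).le, mul_pow, sq (wt (aa M) (z 0)), wt_aa_sq])
  rw [const_final, final_thm_pp] at hcore
  -- the functions which occur
  set P : (Fin (k + 1) → ℝ) → ℝ := fun z =>
    (sg M * ((max (z 0) 0) ^ (M + 5) * qq U z)) ^ (1 + 2 / ((k + 1 : ℕ) : ℝ)) with hP
  have hFq : ∀ z, ∑ i, ww M (U i) z ^ 2 = sg M * ((max (z 0) 0) ^ (M + 5) * qq U z) := by
    intro z
    simp only [ww_sq]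
    rw [← Finset.mul_sum, ← Finset.mul_sum]
    rfl
  simp only [hFq] at hcore
  have hn : (0 : ℝ) < 1 + 2 / ((k + 1 : ℕ) : ℝ) := by positivity
  have hd : (0 : ℝ) < 1 + 2 / ((M + 6 + k : ℕ) : ℝ) := by positivity
  have hPc : Continuous P :=
    (continuous_const.mul ((hs _).mul hqC)).rpow_const (fun _ => Or.inr hn.le)
  have hPs : HasCompactSupport P := rpow_compact (k := k) ((hqc.mul_left).mul_left) hn.ne'
  have hPi := hPc.integrable_of_hasCompactSupport (μ := volume) hPs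
  set Q : (Fin (k + 1) → ℝ) → ℝ := fun z => (max (z 0) 0) ^ (M + 3) * qq U z with hQ
  have hQi : Integrable Q volume :=
    ((hs _).mul hqC).integrable_of_hasCompactSupport (hqc.mul_left)
  set R : (Fin (k + 1) → ℝ) → ℝ := fun z =>
    (max (z 0) 0) ^ (M + 5) * qq U z ^ (1 + 2 / ((M + 6 + k : ℕ) : ℝ)) with hR
  have hRi : Integrable R volume :=
    ((hs _).mul (hqC.rpow_const (fun _ => Or.inr hd.le))).integrable_of_hasCompactSupport
      ((rpow_compact hqc hd.ne').mul_left)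
  set T : (Fin (k + 1) → ℝ) → ℝ := fun z =>
    (max (z 0) 0) ^ (M + 5) * ∑ i, ∑ l, pd l (U i) z ^ 2 with hT
  have hTi : Integrable T volume := by
    refine ((hs _).mul ?_).integrable_of_hasCompactSupport (HasCompactSupport.mul_left ?_)
    · exact continuous_finsetSum _ fun i _ => continuous_finsetSum _ fun l _ =>
        ((pd_basic (hU i) (hc i) l).1).pow 2
    · refine hasCompactSupport_sum _ _ fun i _ => hasCompactSupport_sum _ _ fun l _ => ?_
      exact ((pd_basic (hU i) (hc i) l).2).comp_left (g := fun x : ℝ => x ^ 2) (by norm_num)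
  have hM : (1 : ℝ) < (M : ℝ) + 4 := by
    have : (0 : ℝ) ≤ M := by positivity
    linarith
  have hBB : ContDiff ℝ 1 (BB M U) :=
    ((wt_contDiff hM).comp (contDiff_apply ℝ ℝ 0)).mul (qq_contDiff hU)
  have hBs : HasCompactSupport (BB M U) := hqc.mul_left
  have hBi : Integrable (pd 0 (BB M U)) volume :=
    (pd_basic hBB hBs 0).1.integrable_of_hasCompactSupport (pd_basic hBB hBs 0).2
  have hrhs : ∫ z, ∑ l, ∑ i, pd l (ww M (U i)) z ^ 2 =
      sg M * (∫ z, T z) - sg M * (((M : ℝ) + 5) * ((M : ℝ) + 3) / 4) * ∫ z, Q z := by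
    simp only [sum_all hU]
    have e1 : ∫ z, (sg M * T z + sg M * aa M * pd 0 (BB M U) z -
        sg M * (((M : ℝ) + 5) * ((M : ℝ) + 3) / 4) * Q z) =
        (∫ z, sg M * T z) + (∫ z, sg M * aa M * pd 0 (BB M U) z) -
          ∫ z, sg M * (((M : ℝ) + 5) * ((M : ℝ) + 3) / 4) * Q z := by
      have i1 : Integrable (fun z => sg M * T z) volume := hTi.const_mul _
      have i2 : Integrable (fun z => sg M * aa M * pd 0 (BB M U) z) volume := hBi.const_mul _
      have i3 : Integrable (fun z => sg M * (((M : ℝ) + 5) * ((M : ℝ) + 3) / 4) * Q z) volume :=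
        hQi.const_mul _
      have i12 : Integrable (fun z => sg M * T z + sg M * aa M * pd 0 (BB M U) z) volume :=
        i1.add i2
      rw [integral_sub i12 i3, integral_add i1 i2]
    refine e1.trans ?_
    rw [integral_const_mul, integral_const_mul, integral_const_mul, int_pd hBB hBs 0]
    ring
  rw [hrhs] at hcore
  -- the pointwise inequality
  have hpt : ∫ z, cst k M * (sg M * R z) ≤ ∫ z, (KP k * P z +
      sg M * (((M : ℝ) + 5) * ((M : ℝ) + 3) / 4) * Q z) := by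
    refine integral_mono ((hRi.const_mul _).const_mul _)
      ((hPi.const_mul _).add (hQi.const_mul _)) fun z => ?_
    exact amgm k M _ _ (le_max_right _ _) (hq0 z)
  rw [integral_const_mul, integral_const_mul, integral_add (hPi.const_mul _) (hQi.const_mul _),
    integral_const_mul, integral_const_mul] at hpt
  have hfin : KP k * ∫ z, P z ≤ sg M * (∫ z, T z) -
      sg M * (((M : ℝ) + 5) * ((M : ℝ) + 3) / 4) * ∫ z, Q z := hcore
  linarith

/-- the inequality for real invariant Bessel families -/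
theorem real_main (u : Fin N → EE M × (Fin k → ℝ) → ℝ) (hu : ∀ i, ContDiff ℝ 1 (u i))
    (hc : ∀ i, HasCompactSupport (u i)) (hi : ∀ i, Inv (u i))
    (hG : ∀ v : Fin N → ℝ, ∫ p, (∑ i, v i * u i p) ^ 2 ≤ ∑ i, v i ^ 2) :
    cst k M * ∫ p, (∑ i, u i p ^ 2) ^ (1 + 2 / ((M + 6 + k : ℕ) : ℝ)) ≤
      ∫ p, ∑ i, en (u i) p := by
  set U : Fin N → (Fin (k + 1) → ℝ) → ℝ := fun i => prof (u i) with hU
  have hUd : ∀ i, ContDiff ℝ 1 (U i) := fun i => prof_contDiff (hu i)
  have hUc : ∀ i, HasCompactSupport (U i) := fun i => prof_compact (hc i)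
  have hUp : ∀ i p, u i p = U i (cn p) := fun i p => (prof_cn (hi i) p).symm
  have hd : (0 : ℝ) < 1 + 2 / ((M + 6 + k : ℕ) : ℝ) := by positivity
  have hqC := (qq_contDiff hUd).continuous
  have hqc := qq_compact hUc
  have h1 := profile_ineq (M := M) U hUd hUc (by
    intro v
    refine le_trans (le_of_eq ?_) (hG v)
    simp only [hUp]
    refine (polar (M := M) (Φ := fun z => (∑ i, v i * U i z) ^ 2) ?_ ?_).symm
    · exact (continuous_finsetSum _ fun i _ =>
        continuous_const.mul (hUd i).continuous).pow 2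
    · refine HasCompactSupport.comp_left (g := fun x : ℝ => x ^ 2) ?_ (by norm_num)
      exact hasCompactSupport_sum _ _ fun i _ => (hUc i).mul_left)
  rw [← polar (M := M) (Φ := fun z => qq U z ^ (1 + 2 / ((M + 6 + k : ℕ) : ℝ)))
    (hqC.rpow_const (fun _ => Or.inr hd.le)) (rpow_compact hqc hd.ne')] at h1
  have hT1 : Continuous (fun z => ∑ i, ∑ l, pd l (U i) z ^ 2) :=
    continuous_finsetSum _ fun i _ => continuous_finsetSum _ fun l _ =>
        ((pd_basic (hUd i) (hUc i) l).1).pow 2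
  have hT2 : HasCompactSupport (fun z => ∑ i, ∑ l, pd l (U i) z ^ 2) := by
    refine hasCompactSupport_sum _ _ fun i _ => hasCompactSupport_sum _ _ fun l _ => ?_
    exact ((pd_basic (hUd i) (hUc i) l).2).comp_left (g := fun x : ℝ => x ^ 2) (by norm_num)
  rw [← polar (M := M) (Φ := fun z => ∑ i, ∑ l, pd l (U i) z ^ 2) hT1 hT2] at h1
  have e1 : ∫ p : EE M × (Fin k → ℝ), qq U (cn p) ^ (1 + 2 / ((M + 6 + k : ℕ) : ℝ)) =
      ∫ p, (∑ i, u i p ^ 2) ^ (1 + 2 / ((M + 6 + k : ℕ) : ℝ)) := by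
    simp only [hUp]
    rfl
  rw [e1] at h1
  refine h1.trans ?_
  have hen : ∀ i, Continuous (en (u i)) ∧ HasCompactSupport (en (u i)) := by
    intro i
    have hF : Continuous (fderiv ℝ (u i)) := (hu i).continuous_fderiv (by norm_num)
    have hFc : HasCompactSupport (fderiv ℝ (u i)) := (hc i).fderiv (𝕜 := ℝ)
    have hv : ∀ v : EE M × (Fin k → ℝ), Continuous (fun p => (fderiv ℝ (u i) p v) ^ 2) ∧
        HasCompactSupport (fun p => (fderiv ℝ (u i) p v) ^ 2) := by
      intro v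
      refine ⟨(hF.clm_apply continuous_const).pow 2, ?_⟩
      exact hFc.comp_left (g := fun L : EE M × (Fin k → ℝ) →L[ℝ] ℝ => (L v) ^ 2) (by simp)
    refine ⟨?_, ?_⟩
    · exact (continuous_finsetSum _ fun j _ => (hv _).1).add
        (continuous_finsetSum _ fun j _ => (hv _).1)
    · exact (hasCompactSupport_sum _ _ fun j _ => (hv _).2).add
        (hasCompactSupport_sum _ _ fun j _ => (hv _).2)
  have hc2 := comp_cn (M := M) hT1 hT2
  refine integral_mono (hc2.1.integrable_of_hasCompactSupport hc2.2)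
    ((continuous_finsetSum _ fun i _ => (hen i).1).integrable_of_hasCompactSupport
      (hasCompactSupport_sum _ _ fun i _ => (hen i).2)) fun p => ?_
  exact Finset.sum_le_sum fun i _ => energy_le (hu i) (hi i) p

end Pool.Agent.Q195.LT
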