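import Pool.Agent.Q195.LTD

/-!
# The weight `r_+ ^ a`
-/

set_option autoImplicit false

namespace Pool.Agent.Q195.LT

open Real MeasureTheory Set Filter Topology LTd

/-- the positive part to the power `a` -/
noncomputable def wt (a : ℝ) (t : ℝ) : ℝ := (max t 0) ^ a

lemma wt_continuous {a : ℝ} (ha : 0 ≤ a) : Continuous (wt a) :=
  (continuous_id.max continuous_const).rpow_const (fun _ => Or.inr ha)

lemma wt_hasDeriv {a : ℝ} (ha : 1 < a) (t : ℝ) : HasDerivAt (wt a) (a * wt (a - 1) t) t := by
  rcases lt_trichotomy t 0 with h | h | h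
  · have h1 : wt (a - 1) t = 0 := by
      unfold wt
      rw [max_eq_right h.le, zero_rpow (by linarith)]
    rw [h1, mul_zero]
    refine (hasDerivAt_const t (0 : ℝ)).congr_of_eventuallyEq ?_
    filter_upwards [Iio_mem_nhds h] with s hs
    unfold wt
    rw [max_eq_right (le_of_lt hs), zero_rpow (by linarith)]
  · subst h
    have h1 : wt (a - 1) 0 = 0 := by
      unfold wt
      rw [max_self, zero_rpow (by linarith)]
    have h2 : wt a 0 = 0 := by
      unfold wt
      rw [max_self, zero_rpow (by linarith)]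
    rw [h1, mul_zero, hasDerivAt_iff_isLittleO_nhds_zero]
    have h3 : (fun h : ℝ => wt a (0 + h) - wt a 0 - h • (0 : ℝ)) = wt a := by
      funext h
      rw [h2]
      simp
    rw [h3]
    have h4 : wt a =O[𝓝 0] fun h : ℝ => |h| ^ a := by
      refine Asymptotics.IsBigO.of_bound 1 (Eventually.of_forall fun h => ?_)
      unfold wt
      rw [norm_of_nonneg (by positivity), norm_of_nonneg (by positivity), one_mul]
      exact rpow_le_rpow (le_max_right _ _) (max_le (le_abs_self h) (abs_nonneg h)) (by linarith)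
    refine h4.trans_isLittleO ?_
    have h5 : (fun h : ℝ => |h| ^ a) =ᶠ[𝓝 0] fun h => h * (SignType.sign h * |h| ^ (a - 1)) := by
      refine Eventually.of_forall fun h => ?_
      by_cases h0 : h = 0
      · simp [h0, zero_rpow (show a ≠ 0 by linarith)]
      · have h6 : 0 < |h| := abs_pos.2 h0
        beta_reduce
        rw [← mul_assoc, self_mul_sign, ← rpow_one_add' h6.le (by linarith)]
        congr 1
        ring
    refine h5.trans_isLittleO ?_
    have h7 : Tendsto (fun h : ℝ => (SignType.sign h : ℝ) * |h| ^ (a - 1)) (𝓝 0) (𝓝 0) := by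
      rw [tendsto_zero_iff_norm_tendsto_zero]
      have h8 : Tendsto (fun h : ℝ => |h| ^ (a - 1)) (𝓝 0) (𝓝 0) := by
        have : ContinuousAt (fun h : ℝ => |h| ^ (a - 1)) 0 :=
          (continuous_abs.rpow_const (fun _ => Or.inr (by linarith))).continuousAt
        have h9 := this.tendsto
        simpa [zero_rpow (show a - 1 ≠ 0 by linarith)] using h9
      refine squeeze_zero (fun _ => norm_nonneg _) (fun h => ?_) h8
      rw [norm_mul, norm_of_nonneg (show 0 ≤ |h| ^ (a - 1) by positivity)]
      refine mul_le_of_le_one_left (by positivity) ?_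
      rcases lt_trichotomy h 0 with h0 | h0 | h0
      · simp [sign_neg h0]
      · simp [h0]
      · simp [sign_pos h0]
    have := (Asymptotics.isBigO_refl (fun h : ℝ => h) (𝓝 0)).mul_isLittleO
      ((Asymptotics.isLittleO_one_iff ℝ).2 h7)
    simpa using this
  · have h1 : wt (a - 1) t = t ^ (a - 1) := by
      unfold wt
      rw [max_eq_left h.le]
    rw [h1]
    refine (hasDerivAt_rpow_const (Or.inl h.ne')).congr_of_eventuallyEq ?_
    filter_upwards [Ioi_mem_nhds h] with s hs
    unfold wt
    rw [max_eq_left (le_of_lt hs)]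

lemma wt_contDiff {a : ℝ} (ha : 1 < a) : ContDiff ℝ 1 (wt a) := by
  rw [contDiff_one_iff_deriv]
  refine ⟨fun t => (wt_hasDeriv ha t).differentiableAt, ?_⟩
  have : deriv (wt a) = fun t => a * wt (a - 1) t := by
    funext t
    exact (wt_hasDeriv ha t).deriv
  rw [this]
  exact continuous_const.mul (wt_continuous (by linarith))

lemma wt_mul {a b : ℝ} (ha : 0 ≤ a) (hb : 0 ≤ b) (hab : 0 < a + b) (t : ℝ) :
    wt a t * wt b t = wt (a + b) t := by
  unfold wt
  rw [rpow_add' (le_max_right _ _) hab.ne']

lemma wt_nat (n : ℕ) (t : ℝ) : wt (n : ℝ) t = (max t 0) ^ n := by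
  unfold wt
  rw [rpow_natCast]

end Pool.Agent.Q195.LT
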