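import Pool.Agent.Q195.LTR

/-!
# The symmetric inequality for complex orthonormal systems
-/

set_option autoImplicit false

namespace Pool.Agent.Q195.LT

open Real MeasureTheory Set Filter Topology LTd

theorem gram_complex' {α : Type*} [MeasurableSpace α] {μ : Measure α} {N : ℕ}
    (u : Fin N → α → ℂ) (hu : ∀ i, MemLp (u i) 2 μ)
    (ho : ∀ i j, ∫ x, (starRingEnd ℂ) (u i x) * u j x ∂μ = if i = j then 1 else 0)
    (a b : Fin N → ℝ) :
    ∫ x, (∑ i, (a i * (u i x).re + b i * (u i x).im)) ^ 2 ∂μ ≤ ∑ i, (a i ^ 2 + b i ^ 2) := by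
  have hint : ∀ i j, Integrable (fun x => (starRingEnd ℂ) (u i x) * u j x) μ := by
    intro i j
    have h1 : MemLp (fun x => (starRingEnd ℂ) (u i x)) 2 μ := (hu i).star
    exact h1.integrable_mul (hu j)
  let c : Fin N → ℂ := fun i => (a i : ℂ) - (b i : ℂ) * Complex.I
  let U : α → ℂ := fun x => ∑ i, c i * u i x
  have hU : ∀ x, ((‖U x‖ ^ 2 : ℝ) : ℂ) =
      ∑ i, ∑ j, ((starRingEnd ℂ) (c i) * c j) * ((starRingEnd ℂ) (u i x) * u j x) := by
    intro x
    have h1 : ((‖U x‖ ^ 2 : ℝ) : ℂ) = (starRingEnd ℂ) (U x) * U x := by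
      rw [Complex.conj_mul']
      push_cast
      rfl
    rw [h1]
    simp only [U, map_sum, map_mul, Finset.sum_mul_sum]
    exact Finset.sum_congr rfl fun i _ => Finset.sum_congr rfl fun j _ => by ring
  have hIntC : Integrable (fun x => ((‖U x‖ ^ 2 : ℝ) : ℂ)) μ := by
    simp only [hU]
    exact integrable_finsetSum _ fun i _ => integrable_finsetSum _ fun j _ => (hint i j).const_mul _
  have hInt : Integrable (fun x => ‖U x‖ ^ 2) μ := by
    have h := hIntC.re
    refine h.congr (Filter.Eventually.of_forall fun x => ?_)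
    exact Complex.ofReal_re _
  have hval : ∫ x, ‖U x‖ ^ 2 ∂μ = ∑ i, (a i ^ 2 + b i ^ 2) := by
    apply Complex.ofReal_injective
    rw [← integral_complex_ofReal]
    simp only [hU]
    rw [integral_finsetSum _ fun i _ => integrable_finsetSum _ fun j _ => (hint i j).const_mul _]
    push_cast
    refine Finset.sum_congr rfl fun i _ => ?_
    rw [integral_finsetSum _ fun j _ => (hint i j).const_mul _]
    simp only [integral_const_mul, ho]
    rw [Finset.sum_eq_single i]
    · rw [if_pos rfl, mul_one]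
      simp only [c, map_sub, map_mul, Complex.conj_ofReal, Complex.conj_I]
      ring_nf
      rw [Complex.I_sq]
      ring
    · intro j _ hj
      rw [if_neg (Ne.symm hj), mul_zero]
    · intro h
      exact absurd (Finset.mem_univ i) h
  rw [← hval]
  have hre : ∀ x, (∑ i, (a i * (u i x).re + b i * (u i x).im)) = (U x).re := by
    intro x
    simp only [U, c, Complex.re_sum]
    refine Finset.sum_congr rfl fun i _ => ?_
    simp [Complex.mul_re, Complex.sub_re, Complex.sub_im]
  have hle : ∀ x, (∑ i, (a i * (u i x).re + b i * (u i x).im)) ^ 2 ≤ ‖U x‖ ^ 2 := by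
    intro x
    rw [hre, sq_le_sq, abs_of_nonneg (norm_nonneg (U x))]
    exact Complex.abs_re_le_norm _
  refine integral_mono_of_nonneg (Filter.Eventually.of_forall fun x => sq_nonneg _) hInt
    (Filter.Eventually.of_forall hle)

variable {k M N : ℕ}

/-- the density of the kinetic energy of a complex function -/
noncomputable def enC (u : EE M × (Fin k → ℝ) → ℂ) (p : EE M × (Fin k → ℝ)) : ℝ :=
  (∑ i : Fin (M + 6), ‖fderiv ℝ u p (EuclideanSpace.single i 1, 0)‖ ^ 2) +
    ∑ j : Fin k, ‖fderiv ℝ u p (0, Pi.single j 1)‖ ^ 2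

lemma enC_eq {u : EE M × (Fin k → ℝ) → ℂ} (hu : ContDiff ℝ 1 u) (p : EE M × (Fin k → ℝ)) :
    enC u p = en (fun p => (u p).re) p + en (fun p => (u p).im) p := by
  have hsq : ∀ z : ℂ, ‖z‖ ^ 2 = z.re ^ 2 + z.im ^ 2 := by
    intro z
    rw [Complex.sq_norm, Complex.normSq_apply]; ring
  have hd := (hu.differentiable (by norm_num) p).hasFDerivAt
  have h1 : ∀ v, fderiv ℝ (fun p => (u p).re) p v = (fderiv ℝ u p v).re := by
    intro v
    have h : HasFDerivAt (fun p => (u p).re) (Complex.reCLM.comp (fderiv ℝ u p)) p :=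
      Complex.reCLM.hasFDerivAt.comp p hd
    rw [h.fderiv]
    rfl
  have h2 : ∀ v, fderiv ℝ (fun p => (u p).im) p v = (fderiv ℝ u p v).im := by
    intro v
    have h : HasFDerivAt (fun p => (u p).im) (Complex.imCLM.comp (fderiv ℝ u p)) p :=
      Complex.imCLM.hasFDerivAt.comp p hd
    rw [h.fderiv]
    rfl
  unfold enC en
  simp only [h1, h2, hsq, Finset.sum_add_distrib]
  ring

theorem complex_main (u : Fin N → EE M × (Fin k → ℝ) → ℂ) (hu : ∀ i, ContDiff ℝ 1 (u i))
    (hc : ∀ i, HasCompactSupport (u i)) (hi : ∀ i, Inv (u i))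
    (ho : ∀ i j, ∫ p, (starRingEnd ℂ) (u i p) * u j p = if i = j then 1 else 0) :
    cst k M * ∫ p, (∑ i, ‖u i p‖ ^ 2) ^ (1 + 2 / ((M + 6 + k : ℕ) : ℝ)) ≤
      ∫ p, ∑ i, enC (u i) p := by
  have hsq : ∀ z : ℂ, ‖z‖ ^ 2 = z.re ^ 2 + z.im ^ 2 := by
    intro z
    rw [Complex.sq_norm, Complex.normSq_apply]; ring
  let F : Fin (N + N) → EE M × (Fin k → ℝ) → ℝ :=
    Fin.append (fun i x => (u i x).re) (fun i x => (u i x).im)
  have hFl : ∀ i, F (Fin.castAdd N i) = fun x => (u i x).re := fun i => Fin.append_left _ _ i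
  have hFr : ∀ i, F (Fin.natAdd N i) = fun x => (u i x).im := fun i => Fin.append_right _ _ i
  have hF1 : ∀ i, ContDiff ℝ 1 (F i) := by
    intro i
    refine Fin.addCases (fun i => ?_) (fun i => ?_) i
    · rw [hFl]
      exact Complex.reCLM.contDiff.comp (hu i)
    · rw [hFr]
      exact Complex.imCLM.contDiff.comp (hu i)
  have hF2 : ∀ i, HasCompactSupport (F i) := by
    intro i
    refine Fin.addCases (fun i => ?_) (fun i => ?_) i
    · rw [hFl]
      exact (hc i).comp_left (g := Complex.re) (by simp)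
    · rw [hFr]
      exact (hc i).comp_left (g := Complex.im) (by simp)
  have hF3 : ∀ i, Inv (F i) := by
    intro i
    refine Fin.addCases (fun i => ?_) (fun i => ?_) i
    · rw [hFl]
      intro x x' y h
      show (u i (x, y)).re = (u i (x', y)).re
      rw [hi i x x' y h]
    · rw [hFr]
      intro x x' y h
      show (u i (x, y)).im = (u i (x', y)).im
      rw [hi i x x' y h]
  have hG : ∀ v : Fin (N + N) → ℝ, ∫ x, (∑ i, v i * F i x) ^ 2 ≤ ∑ i, v i ^ 2 := by
    intro v
    have h1 := gram_complex' u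
      (fun i => (hu i).continuous.memLp_of_hasCompactSupport (hc i)) ho
      (fun i => v (Fin.castAdd N i)) (fun i => v (Fin.natAdd N i))
    have h2 : ∀ x, ∑ i, v i * F i x = ∑ i : Fin N, (v (Fin.castAdd N i) * (u i x).re +
        v (Fin.natAdd N i) * (u i x).im) := by
      intro x
      rw [Fin.sum_univ_add, Finset.sum_add_distrib]
      simp only [hFl, hFr]
    have h3 : ∑ i, v i ^ 2 = ∑ i : Fin N, (v (Fin.castAdd N i) ^ 2 + v (Fin.natAdd N i) ^ 2) := by
      rw [Fin.sum_univ_add, Finset.sum_add_distrib]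
    simp only [h2]
    rw [h3]
    exact h1
  have hH := real_main F hF1 hF2 hF3 hG
  have hFs : ∀ x, ∑ i, F i x ^ 2 = ∑ i, ‖u i x‖ ^ 2 := by
    intro x
    rw [Fin.sum_univ_add, ← Finset.sum_add_distrib]
    simp only [hFl, hFr, hsq]
  have hGs : ∀ x, ∑ i, en (F i) x = ∑ i, enC (u i) x := by
    intro x
    rw [Fin.sum_univ_add, ← Finset.sum_add_distrib]
    refine Finset.sum_congr rfl fun i _ => ?_
    rw [hFl, hFr, enC_eq (hu i)]
  simp only [hFs, hGs] at hH
  exact hH

lemma en_integrable {u : EE M × (Fin k → ℝ) → ℝ} (hu : ContDiff ℝ 1 u)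
    (hc : HasCompactSupport u) : Integrable (en u) volume := by
  have hF : Continuous (fderiv ℝ u) := hu.continuous_fderiv (by norm_num)
  have hFc : HasCompactSupport (fderiv ℝ u) := hc.fderiv (𝕜 := ℝ)
  have hv : ∀ v : EE M × (Fin k → ℝ), Integrable (fun p => (fderiv ℝ u p v) ^ 2) volume := by
    intro v
    refine ((hF.clm_apply continuous_const).pow 2).integrable_of_hasCompactSupport ?_
    exact hFc.comp_left (g := fun L : EE M × (Fin k → ℝ) →L[ℝ] ℝ => (L v) ^ 2) (by simp)
  exact (integrable_finsetSum _ fun i _ => hv _).add (integrable_finsetSum _ fun i _ => hv _)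

lemma enC_integrable {u : EE M × (Fin k → ℝ) → ℂ} (hu : ContDiff ℝ 1 u)
    (hc : HasCompactSupport u) : Integrable (enC u) volume := by
  have h : enC u = fun p => en (fun p => (u p).re) p + en (fun p => (u p).im) p := by
    funext p
    exact enC_eq hu p
  rw [h]
  refine (en_integrable (Complex.reCLM.contDiff.comp hu) ?_).add
    (en_integrable (Complex.imCLM.contDiff.comp hu) ?_)
  · exact hc.comp_left (g := Complex.re) (by simp)
  · exact hc.comp_left (g := Complex.im) (by simp)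

theorem complex_main' (u : Fin N → EE M × (Fin k → ℝ) → ℂ) (hu : ∀ i, ContDiff ℝ 1 (u i))
    (hc : ∀ i, HasCompactSupport (u i)) (hi : ∀ i, Inv (u i))
    (ho : ∀ i j, ∫ p, (starRingEnd ℂ) (u i p) * u j p = if i = j then 1 else 0) :
    LTd.Kcl (M + 6 + k) * ∫ p, (∑ i, ‖u i p‖ ^ 2) ^ (1 + 2 / ((M + 6 + k : ℕ) : ℝ)) ≤
      ∑ i, ∫ p, enC (u i) p := by
  have h1 := complex_main u hu hc hi ho
  have h2 := Kcl_le_cst k M
  have h3 : 0 ≤ ∫ p, (∑ n, ‖u n p‖ ^ 2) ^ (1 + 2 / ((M + 6 + k : ℕ) : ℝ)) :=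
    integral_nonneg fun p => Real.rpow_nonneg (Finset.sum_nonneg fun n _ => sq_nonneg _) _
  have h4 : ∫ p, ∑ i, enC (u i) p = ∑ i, ∫ p, enC (u i) p :=
    integral_finsetSum _ fun n _ => enC_integrable (hu n) (hc n)
  have h5 := mul_le_mul_of_nonneg_right h2 h3
  rw [← h4]
  exact h5.trans h1

end Pool.Agent.Q195.LT
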