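import Pool.Agent.Q195.LU1

set_option autoImplicit false

namespace Pool.Agent.Q195.LU

open Finset Filter Topology

section defs
variable {𝕜 : Type} [RCLike 𝕜] {X : Type} [NormedAddCommGroup X] [NormedSpace 𝕜 X]

/-- basis: dense linear span and biorthogonal functionals; here with both sequences bounded -/
def IsBasis (𝕜 : Type) [RCLike 𝕜] {X : Type} [NormedAddCommGroup X] [NormedSpace 𝕜 X]
    (x : ℕ → X) : Prop :=
  (Submodule.span 𝕜 (Set.range x)).topologicalClosure = ⊤ ∧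
    ∃ xs : ℕ → X →L[𝕜] 𝕜, (∀ i j, xs i (x j) = if i = j then 1 else 0) ∧
      ∃ C : ℝ, ∀ n, ‖x n‖ ≤ C ∧ ‖xs n‖ ≤ C

/-- suppression unconditional for constant coefficients -/
def SUCC (𝕜 : Type) [RCLike 𝕜] {X : Type} [NormedAddCommGroup X] [NormedSpace 𝕜 X]
    (x : ℕ → X) : Prop :=
  ∃ C : ℝ, ∀ (A B : Finset ℕ) (ε : ℕ → 𝕜), B ⊆ A → (∀ n, ‖ε n‖ = 1) →
    ‖∑ n ∈ B, ε n • x n‖ ≤ C * ‖∑ n ∈ A, ε n • x n‖

/-- lower unconditional for constant coefficients -/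
def LUCC (𝕜 : Type) [RCLike 𝕜] {X : Type} [NormedAddCommGroup X] [NormedSpace 𝕜 X]
    (x : ℕ → X) : Prop :=
  ∃ C : ℝ, ∀ (A : Finset ℕ) (ε : ℕ → 𝕜) (a : ℕ → ℝ), (∀ n, ‖ε n‖ = 1) → (∀ n, 1 ≤ a n) →
    ‖∑ n ∈ A, ε n • x n‖ ≤ C * ‖∑ n ∈ A, (ε n * (a n : 𝕜)) • x n‖

end defs

variable {𝕜 : Type} [RCLike 𝕜]

/-- radial projection onto the unit ball -/
noncomputable def P (z : 𝕜) : 𝕜 := (((max 1 ‖z‖)⁻¹ : ℝ) : 𝕜) * z

lemma P_zero : P (0 : 𝕜) = 0 := by unfold P; simp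

lemma P_of_one_le (ε : 𝕜) (a : ℝ) (hε : ‖ε‖ = 1) (ha : 1 ≤ a) : P (ε * (a : 𝕜)) = ε := by
  unfold P
  rw [norm_mul, hε, one_mul, RCLike.norm_ofReal, abs_of_nonneg (by linarith), max_eq_right ha]
  have : (a : 𝕜) ≠ 0 := by
    have : a ≠ 0 := by linarith
    exact_mod_cast this
  push_cast
  field_simp

lemma P_sub_aux (z w : 𝕜) (h : ‖w‖ ≤ ‖z‖) : ‖P z - P w‖ ≤ 2 * ‖z - w‖ := by
  unfold P
  set a := (max 1 ‖z‖) with ha
  set b := (max 1 ‖w‖) with hb
  have ha1 : 1 ≤ a := le_max_left _ _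
  have hb1 : 1 ≤ b := le_max_left _ _
  have hab : b ≤ a := max_le_max le_rfl h
  have hd : a - b ≤ ‖z - w‖ := by
    have h1 := norm_sub_norm_le z w
    rcases le_total 1 ‖w‖ with h2 | h2
    · rw [ha, hb, max_eq_right h2, max_eq_right (h2.trans h)]; exact h1
    · rw [hb, max_eq_left h2]
      rcases le_total 1 ‖z‖ with h3 | h3
      · rw [ha, max_eq_right h3]; linarith
      · rw [ha, max_eq_left h3, sub_self]; exact norm_nonneg _
  have e1 : ((a⁻¹ : ℝ) : 𝕜) * z - ((b⁻¹ : ℝ) : 𝕜) * w =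
      ((a⁻¹ : ℝ) : 𝕜) * (z - w) - ((b⁻¹ - a⁻¹ : ℝ) : 𝕜) * w := by
    push_cast; ring
  rw [e1]
  refine (norm_sub_le _ _).trans ?_
  rw [norm_mul, norm_mul, RCLike.norm_ofReal, RCLike.norm_ofReal,
    abs_of_nonneg (inv_nonneg.mpr (by linarith))]
  have h2 : 0 ≤ b⁻¹ - a⁻¹ := by
    rw [sub_nonneg]; exact inv_anti₀ (by linarith) hab
  rw [abs_of_nonneg h2]
  have h3 : a⁻¹ * ‖z - w‖ ≤ ‖z - w‖ := by
    have : a⁻¹ ≤ 1 := inv_le_one_of_one_le₀ ha1
    nlinarith [norm_nonneg (z - w)]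
  have h4 : (b⁻¹ - a⁻¹) * ‖w‖ ≤ ‖z - w‖ := by
    have hwb : ‖w‖ ≤ b := le_max_right _ _
    have e2 : (b⁻¹ - a⁻¹) * b = (a - b) * a⁻¹ := by
      have : a ≠ 0 := by linarith
      have : b ≠ 0 := by linarith
      field_simp
    calc (b⁻¹ - a⁻¹) * ‖w‖ ≤ (b⁻¹ - a⁻¹) * b := mul_le_mul_of_nonneg_left hwb h2
      _ = (a - b) * a⁻¹ := e2
      _ ≤ (a - b) * 1 := mul_le_mul_of_nonneg_left (inv_le_one_of_one_le₀ ha1) (by linarith)
      _ ≤ _ := by linarith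
  linarith

lemma P_sub (z w : 𝕜) : ‖P z - P w‖ ≤ 2 * ‖z - w‖ := by
  rcases le_total ‖w‖ ‖z‖ with h | h
  · exact P_sub_aux z w h
  · rw [norm_sub_rev, norm_sub_rev z w]; exact P_sub_aux w z h

lemma norm_P_le (z : 𝕜) : ‖P z‖ ≤ ‖z‖ := by
  unfold P
  rw [norm_mul, RCLike.norm_ofReal, abs_of_nonneg (by positivity)]
  have : (max 1 ‖z‖)⁻¹ ≤ 1 := inv_le_one_of_one_le₀ (le_max_left _ _)
  nlinarith [norm_nonneg z]

/-- mean -/
noncomputable def mean (M : ℕ) (f : Fin M → 𝕜) : 𝕜 := (M : 𝕜)⁻¹ * ∑ i, f i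

lemma mean_add (M : ℕ) (f g : Fin M → 𝕜) : mean M (f + g) = mean M f + mean M g := by
  unfold mean
  rw [← mul_add, ← Finset.sum_add_distrib]; rfl

lemma mean_smul (M : ℕ) (t : 𝕜) (f : Fin M → 𝕜) : mean M (t • f) = t * mean M f := by
  unfold mean
  simp only [Pi.smul_apply, smul_eq_mul, ← Finset.mul_sum]
  ring

/-- the block norm -/
noncomputable def bn (𝕜 : Type) [RCLike 𝕜] (M : ℕ) : BN 𝕜 (Fin M) where
  N f := ∑ i, ‖f i - mean M f‖ + ‖mean M f‖
  add_le f g := by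
    rw [mean_add]
    have h1 : ∀ i, ‖(f + g) i - (mean M f + mean M g)‖ ≤
        ‖f i - mean M f‖ + ‖g i - mean M g‖ := by
      intro i
      have : (f + g) i - (mean M f + mean M g) = (f i - mean M f) + (g i - mean M g) := by
        rw [Pi.add_apply]; ring
      rw [this]; exact norm_add_le _ _
    have h2 := Finset.sum_le_sum fun i (_ : i ∈ Finset.univ) => h1 i
    rw [Finset.sum_add_distrib] at h2
    have h3 := norm_add_le (mean M f) (mean M g)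
    linarith
  smul t f := by
    rw [mean_smul, mul_add, Finset.mul_sum, norm_mul]
    congr 1
    refine Finset.sum_congr rfl fun i _ => ?_
    rw [Pi.smul_apply, smul_eq_mul, ← mul_sub, norm_mul]
  coord f i := by
    have h1 : ‖f i - mean M f‖ ≤ ∑ i, ‖f i - mean M f‖ :=
      Finset.single_le_sum (f := fun i => ‖f i - mean M f‖) (fun _ _ => norm_nonneg _)
        (Finset.mem_univ i)
    have h2 := norm_add_le (f i - mean M f) (mean M f)
    rw [sub_add_cancel] at h2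
    linarith

/-- distance of the mean to any point -/
lemma mean_dist (M : ℕ) (hM : 0 < M) (g : Fin M → 𝕜) (c : 𝕜) :
    (M : ℝ) * ‖mean M g - c‖ ≤ ∑ i, ‖g i - c‖ := by
  have hM' : (M : 𝕜) ≠ 0 := by exact_mod_cast hM.ne'
  have e1 : ((M : ℝ) : 𝕜) * (mean M g - c) = ∑ i, (g i - c) := by
    unfold mean
    rw [Finset.sum_sub_distrib, Finset.sum_const, Finset.card_univ, Fintype.card_fin, nsmul_eq_mul]
    push_cast
    field_simp
  have e2 : (M : ℝ) * ‖mean M g - c‖ = ‖((M : ℝ) : 𝕜) * (mean M g - c)‖ := by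
    rw [norm_mul, RCLike.norm_ofReal, abs_of_nonneg (Nat.cast_nonneg M)]
  rw [e2, e1]
  exact norm_sum_le _ _

/-- the radial projection acts boundedly on the block norm -/
lemma N_P (M : ℕ) (hM : 0 < M) (f : Fin M → 𝕜) :
    (bn 𝕜 M).N (fun i => P (f i)) ≤ 6 * (bn 𝕜 M).N f := by
  show ∑ i, ‖P (f i) - mean M (fun i => P (f i))‖ + ‖mean M (fun i => P (f i))‖ ≤
    6 * (∑ i, ‖f i - mean M f‖ + ‖mean M f‖)
  set s := mean M f with hs
  set t := mean M (fun i => P (f i)) with ht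
  have hM1 : (1 : ℝ) ≤ M := by exact_mod_cast hM
  have h1 : ∑ i, ‖P (f i) - P s‖ ≤ 2 * ∑ i, ‖f i - s‖ := by
    rw [Finset.mul_sum]
    exact Finset.sum_le_sum fun i _ => P_sub _ _
  have h2 : (M : ℝ) * ‖t - P s‖ ≤ ∑ i, ‖P (f i) - P s‖ := mean_dist M hM _ _
  have h3 : ∑ i, ‖P (f i) - t‖ ≤ ∑ i, ‖P (f i) - P s‖ + M * ‖t - P s‖ := by
    have : ∀ i, ‖P (f i) - t‖ ≤ ‖P (f i) - P s‖ + ‖t - P s‖ := by
      intro i
      have e : P (f i) - t = (P (f i) - P s) - (t - P s) := by ring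
      rw [e]; exact norm_sub_le _ _
    refine (Finset.sum_le_sum fun i _ => this i).trans ?_
    rw [Finset.sum_add_distrib, Finset.sum_const, Finset.card_univ, Fintype.card_fin, nsmul_eq_mul]
  have h4 : ‖t‖ ≤ ‖t - P s‖ + ‖s‖ := by
    have := norm_add_le (t - P s) (P s)
    rw [sub_add_cancel] at this
    linarith [norm_P_le s]
  have h5 : ‖t - P s‖ ≤ M * ‖t - P s‖ := by nlinarith [norm_nonneg (t - P s)]
  have h6 : 0 ≤ ∑ i, ‖f i - s‖ := Finset.sum_nonneg fun _ _ => norm_nonneg _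
  have h7 := norm_nonneg s
  linarith

lemma N_single_le (M : ℕ) (hM : 0 < M) (i : Fin M) : (bn 𝕜 M).N (Pi.single i 1) ≤ 3 := by
  show ∑ j, ‖(Pi.single i 1 : Fin M → 𝕜) j - mean M (Pi.single i 1)‖ +
    ‖mean M (Pi.single i (1 : 𝕜))‖ ≤ 3
  have hM1 : (1 : ℝ) ≤ M := by exact_mod_cast hM
  have h1 : mean M (Pi.single i (1 : 𝕜)) = (M : 𝕜)⁻¹ := by
    unfold mean
    rw [Finset.sum_pi_single']; simp
  have h2 : ‖(M : 𝕜)⁻¹‖ = (M : ℝ)⁻¹ := by
    rw [norm_inv, RCLike.norm_natCast]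
  have h3 : ∑ j, ‖(Pi.single i 1 : Fin M → 𝕜) j - mean M (Pi.single i 1)‖ ≤ 1 + M * (M : ℝ)⁻¹ := by
    have h4 : ∀ j, ‖(Pi.single i 1 : Fin M → 𝕜) j - mean M (Pi.single i 1)‖ ≤
        (Pi.single i 1 : Fin M → ℝ) j + (M : ℝ)⁻¹ := by
      intro j
      refine (norm_sub_le _ _).trans ?_
      rw [h1, h2]
      by_cases hj : j = i
      · subst hj; simp
      · rw [Pi.single_eq_of_ne hj, Pi.single_eq_of_ne hj]; simp
    refine (Finset.sum_le_sum fun j _ => h4 j).trans ?_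
    rw [Finset.sum_add_distrib, Finset.sum_pi_single', Finset.sum_const, Finset.card_univ,
      Fintype.card_fin, nsmul_eq_mul]
    simp
  have h5 : (M : ℝ) * (M : ℝ)⁻¹ = 1 := mul_inv_cancel₀ (by linarith)
  have h6 : (M : ℝ)⁻¹ ≤ 1 := inv_le_one_of_one_le₀ hM1
  rw [h5] at h3
  rw [h1, h2] at *
  linarith

lemma N_one (M : ℕ) (hM : 0 < M) : (bn 𝕜 M).N (fun _ => 1) = 1 := by
  show ∑ _j : Fin M, ‖(1 : 𝕜) - mean M (fun _ => (1 : 𝕜))‖ + ‖mean M (fun _ => (1 : 𝕜))‖ = 1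
  have hM' : (M : 𝕜) ≠ 0 := by exact_mod_cast hM.ne'
  have h1 : mean M (fun _ => (1 : 𝕜)) = 1 := by
    unfold mean
    rw [Finset.sum_const, Finset.card_univ, Fintype.card_fin, nsmul_eq_mul, mul_one]
    exact inv_mul_cancel₀ hM'
  rw [h1]; simp

lemma N_half (m : ℕ) : (m : ℝ) + 1 ≤
    (bn 𝕜 (2 * m + 1 + 1)).N (fun i => if (i : ℕ) < m + 1 then 1 else 0) := by
  set M := 2 * m + 1 + 1 with hM
  show (m : ℝ) + 1 ≤ ∑ j : Fin M, ‖(if (j : ℕ) < m + 1 then (1 : 𝕜) else 0) -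
    mean M (fun i : Fin M => if (i : ℕ) < m + 1 then (1 : 𝕜) else 0)‖ +
    ‖mean M (fun i : Fin M => if (i : ℕ) < m + 1 then (1 : 𝕜) else 0)‖
  have h0 : ∑ i : Fin M, (if (i : ℕ) < m + 1 then (1 : 𝕜) else 0) = m + 1 := by
    rw [Fin.sum_univ_eq_sum_range (fun i => if i < m + 1 then (1 : 𝕜) else 0) M,
      ← Finset.sum_filter]
    have : (Finset.range M).filter (fun i => i < m + 1) = Finset.range (m + 1) := by
      ext i; simp only [Finset.mem_filter, Finset.mem_range]; omega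
    rw [this]; simp
  have h1 : mean M (fun i : Fin M => if (i : ℕ) < m + 1 then (1 : 𝕜) else 0) = 1 / 2 := by
    unfold mean
    rw [h0, hM]
    have : ((m : 𝕜) + 1) ≠ 0 := by exact_mod_cast Nat.succ_ne_zero m
    push_cast
    have h2 : (2 * (m : 𝕜) + 1 + 1) = 2 * (m + 1) := by ring
    rw [h2]
    field_simp
  rw [h1]
  have h2 : ∀ j : Fin M, ‖(if (j : ℕ) < m + 1 then (1 : 𝕜) else 0) - 1 / 2‖ = 1 / 2 := by
    intro j
    split_ifs
    · have : (1 : 𝕜) - 1 / 2 = 1 / 2 := by norm_num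
      rw [this, norm_div, norm_one, RCLike.norm_ofNat]
    · rw [zero_sub, norm_neg, norm_div, norm_one, RCLike.norm_ofNat]
  rw [Finset.sum_congr rfl fun j _ => h2 j, Finset.sum_const, Finset.card_univ, Fintype.card_fin,
    nsmul_eq_mul, hM]
  push_cast
  have := norm_nonneg (1 / 2 : 𝕜)
  linarith

theorem main : ∃ (X : Type) (_ : NormedAddCommGroup X) (_ : NormedSpace 𝕜 X)
    (_ : CompleteSpace X) (x : ℕ → X), IsBasis 𝕜 x ∧ LUCC 𝕜 x ∧ ¬ SUCC 𝕜 x := by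
  classical
  obtain ⟨X, i1, i2, i3, x, xs, hbi, hnorm, hdense⟩ :=
    exists_l1sum (𝕜 := 𝕜) (fun J => Fin (J + 1)) (fun J => bn 𝕜 (J + 1))
  obtain ⟨φ⟩ : Nonempty (ℕ ≃ (Σ J : ℕ, Fin (J + 1))) := nonempty_equiv_of_countable
  have hcoef : ∀ (A : Finset ℕ) (a : ℕ → 𝕜) (n : ℕ),
      xs (φ n) (∑ k ∈ A, a k • x (φ k)) = if n ∈ A then a n else 0 := by
    intro A a n
    rw [map_sum]
    simp only [map_smul, hbi, smul_eq_mul]
    split_ifs with h
    · rw [Finset.sum_eq_single n]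
      · simp
      · intro b _ hb
        rw [if_neg (fun h => hb (φ.injective h).symm), mul_zero]
      · intro h'; exact absurd h h'
    · refine Finset.sum_eq_zero fun b hb => ?_
      rw [if_neg, mul_zero]
      intro h'; rw [φ.injective h'] at h; exact h hb
  have hblock : ∀ (f : X) (J : ℕ), (∀ J' i, J' ≠ J → xs ⟨J', i⟩ f = 0) →
      ‖f‖ = (bn 𝕜 (J + 1)).N (fun i => xs ⟨J, i⟩ f) := by
    intro f J h
    refine (hnorm f).unique (hasSum_single J fun J' hJ' => ?_)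
    have : (fun i => xs ⟨J', i⟩ f) = 0 := funext fun i => h J' i hJ'
    rw [this]; exact (bn 𝕜 (J' + 1)).zero
  refine ⟨X, i1, i2, i3, fun n => x (φ n), ⟨?_, fun n => xs (φ n), fun i j => ?_, 3, ?_⟩, ?_, ?_⟩
  · have : Set.range (fun n => x (φ n)) = Set.range x := φ.surjective.range_comp x
    rw [this, Submodule.eq_top_iff']
    exact hdense
  · rw [hbi]
    simp only [φ.injective.eq_iff]
  · intro n
    constructor
    · show ‖x (φ n)‖ ≤ 3
      rw [hblock (x (φ n)) (φ n).1]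
      · have : (fun i => xs ⟨(φ n).1, i⟩ (x (φ n))) = Pi.single (φ n).2 1 := by
          funext i
          rw [hbi, Pi.single_apply]
          congr 1
          rw [eq_iff_iff]
          constructor
          · intro h
            exact eq_of_heq (Sigma.mk.inj h).2
          · intro h; rw [h]
        rw [this]
        exact N_single_le _ (Nat.succ_pos _) _
      · intro J' i hJ'
        rw [hbi, if_neg]
        intro h; exact hJ' (congrArg Sigma.fst h)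
    · refine ContinuousLinearMap.opNorm_le_bound _ (by norm_num) fun f => ?_
      have h1 : ‖xs (φ n) f‖ ≤ (bn 𝕜 ((φ n).1 + 1)).N (fun i => xs ⟨(φ n).1, i⟩ f) :=
        (bn 𝕜 ((φ n).1 + 1)).coord (fun i => xs ⟨(φ n).1, i⟩ f) (φ n).2
      have h2 : (bn 𝕜 ((φ n).1 + 1)).N (fun i => xs ⟨(φ n).1, i⟩ f) ≤ ‖f‖ :=
        le_hasSum (hnorm f) (φ n).1 fun J _ => (bn 𝕜 (J + 1)).nonneg _
      have := norm_nonneg f
      linarith
  · refine ⟨6, fun A ε a hε ha => ?_⟩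
    set f := ∑ n ∈ A, (ε n * (a n : 𝕜)) • x (φ n) with hf
    set g := ∑ n ∈ A, ε n • x (φ n) with hg
    refine hasSum_le (fun J => ?_) (hnorm g) ((hnorm f).mul_left 6)
    have : (fun i => xs ⟨J, i⟩ g) = fun i => P (xs ⟨J, i⟩ f) := by
      funext i
      have h1 := hcoef A ε (φ.symm ⟨J, i⟩)
      have h2 := hcoef A (fun n => ε n * (a n : 𝕜)) (φ.symm ⟨J, i⟩)
      rw [Equiv.apply_symm_apply] at h1 h2
      rw [hf, hg, h1, h2]
      split_ifs
      · rw [P_of_one_le _ _ (hε _) (ha _)]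
      · rw [P_zero]
    rw [this]
    exact N_P (J + 1) (Nat.succ_pos J) _
  · rintro ⟨C, hC⟩
    obtain ⟨m, hm⟩ := exists_nat_gt C
    set J := 2 * m + 1 with hJ
    set A : Finset ℕ := Finset.univ.image (fun i : Fin (J + 1) => φ.symm ⟨J, i⟩) with hA
    set B : Finset ℕ := (Finset.univ.filter (fun i : Fin (J + 1) => (i : ℕ) < m + 1)).image
      (fun i : Fin (J + 1) => φ.symm ⟨J, i⟩) with hB
    have hBA : B ⊆ A := Finset.image_subset_image (Finset.filter_subset _ _)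
    have h1 := hC A B (fun _ => 1) hBA (fun _ => norm_one)
    have hco : ∀ (D : Finset ℕ) (J' : ℕ) (i : Fin (J' + 1)),
        xs ⟨J', i⟩ (∑ n ∈ D, (1 : 𝕜) • x (φ n)) = if φ.symm ⟨J', i⟩ ∈ D then 1 else 0 := by
      intro D J' i
      have := hcoef D (fun _ => 1) (φ.symm ⟨J', i⟩)
      rwa [Equiv.apply_symm_apply] at this
    have hmA : ∀ (J' : ℕ) (i : Fin (J' + 1)), φ.symm ⟨J', i⟩ ∈ A → J' = J := by
      intro J' i h
      obtain ⟨i', _, hi'⟩ := Finset.mem_image.mp h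
      exact (congrArg Sigma.fst (φ.symm.injective hi')).symm
    have e1 : ‖∑ n ∈ A, (1 : 𝕜) • x (φ n)‖ = 1 := by
      rw [hblock _ J]
      · have : (fun i : Fin (J + 1) => xs ⟨J, i⟩ (∑ n ∈ A, (1 : 𝕜) • x (φ n))) = fun _ => 1 := by
          funext i
          rw [hco, if_pos (Finset.mem_image_of_mem _ (Finset.mem_univ i))]
        rw [this, N_one _ (Nat.succ_pos J)]
      · intro J' i hJ'
        rw [hco, if_neg fun h => hJ' (hmA J' i h)]
    have e2 : (m : ℝ) + 1 ≤ ‖∑ n ∈ B, (1 : 𝕜) • x (φ n)‖ := by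
      rw [hblock _ J]
      · have : (fun i : Fin (J + 1) => xs ⟨J, i⟩ (∑ n ∈ B, (1 : 𝕜) • x (φ n))) =
            fun i : Fin (J + 1) => if (i : ℕ) < m + 1 then (1 : 𝕜) else 0 := by
          funext i
          rw [hco]
          congr 1
          rw [eq_iff_iff]
          constructor
          · intro h
            obtain ⟨i', hi', h2⟩ := Finset.mem_image.mp h
            have h3 : (⟨J, i'⟩ : Σ J : ℕ, Fin (J + 1)) = ⟨J, i⟩ := φ.symm.injective h2
            have h4 : i' = i := by simpa using h3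
            rw [← h4]
            exact (Finset.mem_filter.mp hi').2
          · intro h
            exact Finset.mem_image.mpr ⟨i, Finset.mem_filter.mpr ⟨Finset.mem_univ _, h⟩, rfl⟩
        rw [this]
        exact N_half m
      · intro J' i hJ'
        rw [hco, if_neg fun h => hJ' (hmA J' i (hBA h))]
    have h2 : ‖∑ n ∈ B, (1 : 𝕜) • x (φ n)‖ ≤ C * ‖∑ n ∈ A, (1 : 𝕜) • x (φ n)‖ := h1
    rw [e1] at h2
    linarith

end Pool.Agent.Q195.LU
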