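import Pool.Agent.Q195.BE2

set_option autoImplicit false

namespace Pool.Agent.Q195.LUR

open Filter Topology Pool.Agent.Q195.BE

/-- local uniform rotundity of a norm given as a function -/
def IsLUR {E : Type*} [AddCommGroup E] (p : E → ℝ) : Prop :=
  ∀ (x : E) (xs : ℕ → E), p x = 1 → (∀ n, p (xs n) = 1) →
    Tendsto (fun n => p (xs n + x)) atTop (𝓝 2) → Tendsto (fun n => p (xs n - x)) atTop (𝓝 0)

lemma IsLUR.use {𝕜 E : Type*} [RCLike 𝕜] [AddCommGroup E] [Module 𝕜 E] {p : Seminorm 𝕜 E}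
    (hp : IsLUR (fun x => p x)) {y : E} {z : ℕ → E} {ρ : ℝ} (hρ : 0 < ρ) (hy : p y = ρ)
    (hz0 : ∀ n, 0 < p (z n))
    (hz : Tendsto (fun n => p (z n)) atTop (𝓝 ρ))
    (hzy : Tendsto (fun n => p (z n + y)) atTop (𝓝 (2 * ρ))) :
    Tendsto (fun n => p (z n - y)) atTop (𝓝 0) := by
  have hnorm : ∀ (t : ℝ) (v : E), p ((t : 𝕜) • v) = |t| * p v := by
    intro t v
    rw [map_smul_eq_mul, RCLike.norm_ofReal]
  have habs : ∀ u v : E, |p u - p v| ≤ p (u - v) := fun u v => abs_sub_map_le_sub p u v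
  -- normalised vectors
  let x : E := ((ρ⁻¹ : ℝ) : 𝕜) • y
  let xs : ℕ → E := fun n => (((p (z n))⁻¹ : ℝ) : 𝕜) • z n
  have hx1 : p x = 1 := by
    simp only [x]; rw [hnorm, abs_of_pos (inv_pos.mpr hρ), hy, inv_mul_cancel₀ hρ.ne']
  have hxs1 : ∀ n, p (xs n) = 1 := by
    intro n
    simp only [xs]
    rw [hnorm, abs_of_pos (inv_pos.mpr (hz0 n)), inv_mul_cancel₀ (hz0 n).ne']
  -- error term
  have herr : Tendsto (fun n => p (xs n - ((ρ⁻¹ : ℝ) : 𝕜) • z n)) atTop (𝓝 0) := by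
    have h1 : ∀ n, p (xs n - ((ρ⁻¹ : ℝ) : 𝕜) • z n) = |(p (z n))⁻¹ - ρ⁻¹| * p (z n) := by
      intro n
      simp only [xs]
      rw [← sub_smul, ← RCLike.ofReal_sub, hnorm]
    simp only [h1]
    have h2 : Tendsto (fun n => |(p (z n))⁻¹ - ρ⁻¹| * p (z n)) atTop (𝓝 (|ρ⁻¹ - ρ⁻¹| * ρ)) :=
      (((hz.inv₀ hρ.ne').sub_const _).abs).mul hz
    simpa using h2
  have hplus : Tendsto (fun n => p (xs n + x)) atTop (𝓝 2) := by
    have h1 : Tendsto (fun n => p (((ρ⁻¹ : ℝ) : 𝕜) • (z n + y))) atTop (𝓝 2) := by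
      have h2 : ∀ n, p (((ρ⁻¹ : ℝ) : 𝕜) • (z n + y)) = ρ⁻¹ * p (z n + y) := by
        intro n; rw [hnorm, abs_of_pos (inv_pos.mpr hρ)]
      simp only [h2]
      have h3 := hzy.const_mul ρ⁻¹
      have h4 : ρ⁻¹ * (2 * ρ) = 2 := by field_simp
      rwa [h4] at h3
    have h5 : ∀ n, |p (xs n + x) - p (((ρ⁻¹ : ℝ) : 𝕜) • (z n + y))| ≤
        p (xs n - ((ρ⁻¹ : ℝ) : 𝕜) • z n) := by
      intro n
      refine (habs _ _).trans (le_of_eq ?_)
      congr 1
      simp only [x, smul_add]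
      abel
    have h6 : Tendsto (fun n => p (xs n + x) - p (((ρ⁻¹ : ℝ) : 𝕜) • (z n + y))) atTop (𝓝 0) :=
      squeeze_zero_norm (fun n => by rw [Real.norm_eq_abs]; exact h5 n) herr
    have h7 := h6.add h1
    simpa using h7
  have hminus := hp x xs hx1 hxs1 hplus
  have h8 : Tendsto (fun n => p (((ρ⁻¹ : ℝ) : 𝕜) • (z n - y))) atTop (𝓝 0) := by
    have h5 : ∀ n, |p (xs n - x) - p (((ρ⁻¹ : ℝ) : 𝕜) • (z n - y))| ≤
        p (xs n - ((ρ⁻¹ : ℝ) : 𝕜) • z n) := by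
      intro n
      refine (habs _ _).trans (le_of_eq ?_)
      congr 1
      simp only [x, smul_sub]
      abel
    have h6 : Tendsto (fun n => p (xs n - x) - p (((ρ⁻¹ : ℝ) : 𝕜) • (z n - y))) atTop (𝓝 0) :=
      squeeze_zero_norm (fun n => by rw [Real.norm_eq_abs]; exact h5 n) herr
    have h7 := hminus.sub h6
    simpa using h7
  have h9 : ∀ n, p (z n - y) = ρ * p (((ρ⁻¹ : ℝ) : 𝕜) • (z n - y)) := by
    intro n
    rw [hnorm, abs_of_pos (inv_pos.mpr hρ), ← mul_assoc, mul_inv_cancel₀ hρ.ne', one_mul]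
  simp only [h9]
  simpa using h8.const_mul ρ

variable {𝕜 : Type} [RCLike 𝕜]

/-- admissible pairs -/
def TT (y : lp (fun _ : ℕ => 𝕜) ⊤) (A : Set ℕ) : Prop :=
  ‖y‖ ≤ 1 ∧ A.Infinite ∧ ∀ n ∈ A, y n = 0

/-- the order on pairs -/
def LE' (y' : lp (fun _ : ℕ => 𝕜) ⊤) (A' : Set ℕ) (y : lp (fun _ : ℕ => 𝕜) ⊤) (A : Set ℕ) : Prop :=
  A' ⊆ A ∧ ∀ n, n ∉ A → y' n = y n

lemma LE'.trans {y1 y2 y3 : lp (fun _ : ℕ => 𝕜) ⊤} {A1 A2 A3 : Set ℕ} (h1 : LE' y1 A1 y2 A2)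
    (h2 : LE' y2 A2 y3 A3) : LE' y1 A1 y3 A3 :=
  ⟨h1.1.trans h2.1, fun n hn => by rw [h1.2 n (fun h => hn (h2.1 h)), h2.2 n hn]⟩

lemma norm_le_one_iff (y : lp (fun _ : ℕ => 𝕜) ⊤) : ‖y‖ ≤ 1 ↔ ∀ n, ‖y n‖ ≤ 1 := by
  constructor
  · intro h n
    exact (lp.norm_apply_le_norm (by simp) y n).trans h
  · intro h
    exact lp.norm_le_of_forall_le zero_le_one h

lemma exists_flat (p : Seminorm 𝕜 (lp (fun _ : ℕ => 𝕜) ⊤)) (C : ℝ) (hC : ∀ f, p f ≤ C * ‖f‖)
    (y : lp (fun _ : ℕ => 𝕜) ⊤) (A : Set ℕ) (hyA : TT y A) (ε : ℝ) (hε : 0 < ε) :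
    ∃ (y' : lp (fun _ : ℕ => 𝕜) ⊤) (A' : Set ℕ) (r : ℝ), TT y' A' ∧ LE' y' A' y A ∧
      ∀ z B, TT z B → LE' z B y' A' → |p z - r| ≤ ε := by
  let S : Set ℝ := {t | ∃ z B, TT z B ∧ LE' z B y A ∧ p z = t}
  have hSb : BddAbove S := by
    refine ⟨|C|, ?_⟩
    rintro _ ⟨z, B, hz, _, rfl⟩
    calc p z ≤ C * ‖z‖ := hC z
      _ ≤ |C| * ‖z‖ := mul_le_mul_of_nonneg_right (le_abs_self C) (norm_nonneg _)
      _ ≤ |C| * 1 := mul_le_mul_of_nonneg_left hz.1 (abs_nonneg _)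
      _ = |C| := mul_one _
  have hSn : S.Nonempty := ⟨p y, y, A, hyA, ⟨le_rfl, fun _ _ => rfl⟩, rfl⟩
  obtain ⟨_, ⟨y', A', hT, hL, rfl⟩, hlt⟩ := exists_lt_of_lt_csSup hSn
    (show sSup S - ε/2 < sSup S by linarith)
  refine ⟨y', A', sSup S, hT, hL, ?_⟩
  intro z B hz hzL
  have h1 : p z ≤ sSup S := le_csSup hSb ⟨z, B, hz, hzL.trans hL, rfl⟩
  -- the reflection
  let z' : lp (fun _ : ℕ => 𝕜) ⊤ := (2:𝕜) • y' - z
  have hz'n : ∀ n, z' n = 2 * y' n - z n := fun n => rfl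
  have hcase : ∀ n, z' n = z n ∨ z' n = - z n := by
    intro n
    rw [hz'n]
    by_cases hn : n ∈ A'
    · right; rw [hT.2.2 n hn]; ring
    · left; rw [hzL.2 n hn]; ring
  have hz'T : TT z' B := by
    refine ⟨?_, hz.2.1, ?_⟩
    · rw [norm_le_one_iff]
      intro n
      have := (norm_le_one_iff z).mp hz.1 n
      rcases hcase n with h | h
      · rw [h]; exact this
      · rw [h, norm_neg]; exact this
    · intro n hn
      have := hz.2.2 n hn
      rcases hcase n with h | h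
      · rw [h]; exact this
      · rw [h, this, neg_zero]
  have hz'L : LE' z' B y' A' := by
    refine ⟨hzL.1, ?_⟩
    intro n hn
    rw [hz'n, hzL.2 n hn]; ring
  have h2 : p z' ≤ sSup S := le_csSup hSb ⟨z', B, hz'T, hz'L.trans hL, rfl⟩
  have h3 : 2 * p y' ≤ p z + p z' := by
    have h4 : (2:𝕜) • y' = z + z' := by simp [z']
    have h5 := map_add_le_add p z z'
    rw [← h4, map_smul_eq_mul] at h5
    have h6 : ‖(2:𝕜)‖ = 2 := by simp
    rw [h6] at h5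
    exact h5
  rw [abs_le]
  constructor <;> linarith

/-- `l_infty` has no equivalent locally uniformly rotund norm. -/
theorem no_LUR (p : Seminorm 𝕜 (lp (fun _ : ℕ => 𝕜) ⊤)) (c C : ℝ) (hc : 0 < c)
    (hp : ∀ f, c * ‖f‖ ≤ p f ∧ p f ≤ C * ‖f‖) : ¬ IsLUR (fun x => p x) := by
  classical
  intro hLUR
  let e : ℕ → lp (fun _ : ℕ => 𝕜) ⊤ := fun n => lp.single ⊤ n (1:𝕜)
  have he : ∀ n m, e n m = if m = n then 1 else 0 := by
    intro n m
    by_cases h : m = n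
    · subst h; simp only [e]; rw [lp.single_apply_self]; simp
    · simp only [e]; rw [lp.single_apply_ne _ _ _ h, if_neg h]
  have hen : ∀ n, ‖e n‖ = 1 := by
    intro n; simp only [e]; rw [lp.norm_single (by simp)]; simp
  -- recursion
  let P : ℕ → (ℕ → lp (fun _ : ℕ => 𝕜) ⊤ × Set ℕ × ℕ × ℝ) →
      lp (fun _ : ℕ => 𝕜) ⊤ × Set ℕ × ℕ × ℝ → Prop := fun k s b =>
    TT b.1 b.2.1 ∧ b.2.2.1 ∈ b.2.1 ∧
    (∀ z B, TT z B → LE' z B b.1 b.2.1 → |p z - b.2.2.2| ≤ (1/2:ℝ)^k) ∧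
    LE' b.1 b.2.1 (e 0) {0}ᶜ ∧
    (∀ j, k = j + 1 → LE' b.1 b.2.1 (s j).1 ((s j).2.1 \ {(s j).2.2.1}))
  have hloc : ∀ k s s' a, (∀ i < k, s i = s' i) → P k s a → P k s' a := by
    intro k s s' b hss h
    refine ⟨h.1, h.2.1, h.2.2.1, h.2.2.2.1, ?_⟩
    intro j hj
    rw [← hss j (by omega)]
    exact h.2.2.2.2 j hj
  have hex : ∀ k s, (∀ i < k, P i s (s i)) → ∃ a, P k s a := by
    intro k s hs
    rcases k with _ | k
    · have hT0 : TT (e 0) ({0}ᶜ : Set ℕ) := by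
        refine ⟨(hen 0).le, (Set.finite_singleton 0).infinite_compl, ?_⟩
        intro n hn
        rw [he, if_neg (by simpa using hn)]
      obtain ⟨y', A', r, h1, h2, h3⟩ := exists_flat p C (fun f => (hp f).2) (e 0) _ hT0
        ((1/2:ℝ)^0) (by positivity)
      obtain ⟨a, ha⟩ := h1.2.1.nonempty
      exact ⟨(y', A', a, r), h1, ha, h3, h2, fun j hj => by omega⟩
    · obtain ⟨hT, ha, _, hL0, _⟩ := hs k (Nat.lt_succ_self k)
      have hT' : TT (s k).1 ((s k).2.1 \ {(s k).2.2.1}) :=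
        ⟨hT.1, hT.2.1.sdiff (Set.finite_singleton _), fun n hn => hT.2.2 n hn.1⟩
      obtain ⟨y', A', r, h1, h2, h3⟩ := exists_flat p C (fun f => (hp f).2) (s k).1 _ hT'
        ((1/2:ℝ)^(k+1)) (by positivity)
      obtain ⟨a, ha'⟩ := h1.2.1.nonempty
      refine ⟨(y', A', a, r), h1, ha', h3, ?_, ?_⟩
      · refine LE'.trans h2 ⟨fun n hn => hL0.1 hn.1, ?_⟩
        intro n hn
        exact hL0.2 n hn
      · intro j hj
        have : j = k := by omega
        subst this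
        exact h2
  obtain ⟨s, hs⟩ := exists_seq_strong P hloc hex
  let Y : ℕ → lp (fun _ : ℕ => 𝕜) ⊤ := fun k => (s k).1
  let A : ℕ → Set ℕ := fun k => (s k).2.1
  let a : ℕ → ℕ := fun k => (s k).2.2.1
  let r : ℕ → ℝ := fun k => (s k).2.2.2
  have hT : ∀ k, TT (Y k) (A k) := fun k => (hs k).1
  have haA : ∀ k, a k ∈ A k := fun k => (hs k).2.1
  have hr : ∀ k z B, TT z B → LE' z B (Y k) (A k) → |p z - r k| ≤ (1/2:ℝ)^k :=
    fun k => (hs k).2.2.1
  have h0 : ∀ k, LE' (Y k) (A k) (e 0) {0}ᶜ := fun k => (hs k).2.2.2.1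
  have hstep : ∀ k, LE' (Y (k+1)) (A (k+1)) (Y k) (A k \ {a k}) :=
    fun k => (hs (k+1)).2.2.2.2 k rfl
  have hstep' : ∀ k, LE' (Y (k+1)) (A (k+1)) (Y k) (A k) := by
    intro k
    refine ⟨fun n hn => ((hstep k).1 hn).1, ?_⟩
    intro n hn
    exact (hstep k).2 n (fun h => hn h.1)
  have hchain : ∀ k j, k ≤ j → LE' (Y j) (A j) (Y k) (A k) := by
    intro k j hkj
    induction j, hkj using Nat.le_induction with
    | base => exact ⟨le_rfl, fun _ _ => rfl⟩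
    | succ j _ ih => exact (hstep' j).trans ih
  -- the limit
  have hyex : ∀ n, ∃ t : 𝕜, ‖t‖ ≤ 1 ∧ (∀ k, n ∉ A k → t = Y k n) := by
    intro n
    by_cases h : ∃ k, n ∉ A k
    · obtain ⟨k, hk⟩ := h
      refine ⟨Y k n, (norm_le_one_iff _).mp (hT k).1 n, ?_⟩
      intro j hj
      rcases le_total k j with hkj | hkj
      · exact ((hchain k j hkj).2 n hk).symm
      · exact (hchain j k hkj).2 n hj
    · push Not at h
      exact ⟨0, by simp, fun k hk => absurd (h k) hk⟩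
  choose t ht1 ht2 using hyex
  let y : lp (fun _ : ℕ => 𝕜) ⊤ := ⟨t, memℓp_infty ⟨1, by rintro _ ⟨n, rfl⟩; exact ht1 n⟩⟩
  have hyn : ∀ n, y n = t n := fun n => rfl
  have hanot : ∀ k, a k ∉ A (k+1) := by
    intro k h
    exact ((hstep k).1 h).2 rfl
  have hya : ∀ k, y (a k) = 0 := by
    intro k
    rw [hyn, ht2 (a k) (k+1) (hanot k), (hstep k).2 (a k) (fun h => h.2 rfl)]
    exact (hT k).2.2 _ (haA k)
  have hainj : Function.Injective a := by
    intro i j hij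
    by_contra hne
    rcases lt_or_gt_of_ne hne with h | h
    · apply hanot i
      rw [hij]
      exact (hchain (i+1) j h).1 (haA j)
    · apply hanot j
      rw [← hij]
      exact (hchain (j+1) i h).1 (haA i)
  let B : ℕ → Set ℕ := fun k => a '' Set.Ici k
  have hBinf : ∀ k, (B k).Infinite := fun k => (Set.Ici_infinite k).image hainj.injOn
  have hBA : ∀ k, B k ⊆ A k := by
    rintro k _ ⟨j, hj, rfl⟩
    exact (hchain k j hj).1 (haA j)
  have key : ∀ k (τ : 𝕜), ‖τ‖ ≤ 1 → |p (y + τ • e (a k)) - r k| ≤ (1/2:ℝ)^k := by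
    intro k τ hτ
    have hval : ∀ n, (y + τ • e (a k)) n = t n + τ * (if n = a k then 1 else 0) := by
      intro n
      rw [← he]; rfl
    apply hr k _ (B (k+1))
    · refine ⟨?_, hBinf _, ?_⟩
      · rw [norm_le_one_iff]
        intro n
        rw [hval]
        by_cases h : n = a k
        · rw [if_pos h, h, ← hyn, hya, zero_add, mul_one]; exact hτ
        · rw [if_neg h, mul_zero, add_zero]; exact ht1 n
      · rintro _ ⟨j, hj, rfl⟩
        rw [hval, if_neg, mul_zero, add_zero, ← hyn, hya]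
        intro h
        have := hainj h
        have hj' : k + 1 ≤ j := hj
        omega
    · refine ⟨?_, ?_⟩
      · rintro _ ⟨j, hj, rfl⟩
        have hj' : k + 1 ≤ j := hj
        exact (hchain k j (by omega)).1 (haA j)
      · intro n hn
        rw [hval, if_neg, mul_zero, add_zero, ht2 n k hn]
        intro h; apply hn; rw [h]; exact haA k
  have hgeo : Tendsto (fun k : ℕ => (1/2:ℝ)^k) atTop (𝓝 0) :=
    tendsto_pow_atTop_nhds_zero_of_lt_one (by norm_num) (by norm_num)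
  have hclose : ∀ k (τ : 𝕜), ‖τ‖ ≤ 1 → |p (y + τ • e (a k)) - p y| ≤ 2 * (1/2:ℝ)^k := by
    intro k τ hτ
    have h1 := key k τ hτ
    have h2 := key k 0 (by simp)
    rw [zero_smul, add_zero] at h2
    have h3 := abs_sub_le (p (y + τ • e (a k))) (r k) (p y)
    rw [abs_sub_comm (r k) (p y)] at h3
    linarith
  have hlim : ∀ (τ : 𝕜), ‖τ‖ ≤ 1 → Tendsto (fun k => p (y + τ • e (a k))) atTop (𝓝 (p y)) := by
    intro τ hτ
    rw [tendsto_iff_dist_tendsto_zero]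
    apply squeeze_zero (fun _ => dist_nonneg) (fun k => hclose k τ hτ)
    simpa using hgeo.const_mul 2
  have hy0 : y 0 = 1 := by
    have h1 : (0:ℕ) ∉ A 0 := fun h => by simpa using (h0 0).1 h
    rw [hyn, ht2 0 0 h1, (h0 0).2 0 (by simp), he, if_pos rfl]
  have hρ : 0 < p y := by
    have h1 := (hp y).1
    have h2 : 1 ≤ ‖y‖ := by
      have := lp.norm_apply_le_norm (p := ⊤) (by simp) y 0
      rw [hy0, norm_one] at this
      exact this
    nlinarith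
  have hz0 : ∀ k, 0 < p (y + (1:𝕜) • e (a k)) := by
    intro k
    have h1 := (hp (y + (1:𝕜) • e (a k))).1
    have h2 : 1 ≤ ‖y + (1:𝕜) • e (a k)‖ := by
      have h3 := lp.norm_apply_le_norm (p := ⊤) (by simp) (y + (1:𝕜) • e (a k)) (a k)
      have h4 : (y + (1:𝕜) • e (a k)) (a k) = 1 := by
        show y (a k) + 1 * e (a k) (a k) = 1
        rw [hya, he, if_pos rfl]; ring
      rw [h4, norm_one] at h3
      exact h3
    nlinarith
  have hfin := hLUR.use hρ rfl hz0 (hlim 1 (by simp)) (by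
    have h1 := (hlim (1/2) (by simp; norm_num)).const_mul 2
    refine h1.congr (fun k => ?_)
    have h2 : y + (1:𝕜) • e (a k) + y = (2:𝕜) • (y + (1/2:𝕜) • e (a k)) := by
      rw [smul_add, smul_smul, two_smul]
      norm_num
      abel
    rw [h2, map_smul_eq_mul]
    simp)
  have hlow : ∀ k, c ≤ p (y + (1:𝕜) • e (a k) - y) := by
    intro k
    have h1 : y + (1:𝕜) • e (a k) - y = e (a k) := by
      rw [one_smul]; abel
    rw [h1]
    have h2 := (hp (e (a k))).1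
    rw [hen, mul_one] at h2
    exact h2
  have := ge_of_tendsto' hfin hlow
  linarith

end Pool.Agent.Q195.LUR
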