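import Mathlib

set_option autoImplicit false

namespace Pool.Agent.Q195.LZ

open Filter Topology
open scoped InnerProductSpace ComplexConjugate

section defs
variable {𝕜 : Type} [RCLike 𝕜] {H : Type} [NormedAddCommGroup H] [InnerProductSpace 𝕜 H]

/-- bounded biorthogonal system `(x, y)` (functionals represented by vectors) with `x` having
dense linear span and `y` separating points -/
def IsBasis (𝕜 : Type) [RCLike 𝕜] {H : Type} [NormedAddCommGroup H] [InnerProductSpace 𝕜 H]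
    (x y : ℕ → H) : Prop :=
  (∀ i j, inner 𝕜 (y i) (x j) = if i = j then (1 : 𝕜) else 0) ∧
    (Submodule.span 𝕜 (Set.range x)).topologicalClosure = ⊤ ∧
    (∀ z, (∀ i, inner 𝕜 (y i) z = (0 : 𝕜)) → z = 0) ∧
    ∃ C, ∀ n, ‖x n‖ ≤ C ∧ ‖y n‖ ≤ C

/-- bidemocratic: `φ_m φ*_m ≤ C m` -/
def IsBidemocratic (𝕜 : Type) [RCLike 𝕜] {H : Type} [NormedAddCommGroup H]
    [InnerProductSpace 𝕜 H] (x y : ℕ → H) : Prop :=
  ∃ C : ℝ, ∀ (m : ℕ) (A B : Finset ℕ) (ε δ : ℕ → 𝕜), A.card ≤ m → B.card ≤ m →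
    (∀ n, ‖ε n‖ = 1) → (∀ n, ‖δ n‖ = 1) →
    ‖∑ n ∈ A, ε n • x n‖ * ‖∑ n ∈ B, δ n • y n‖ ≤ C * m

/-- non-increasing rearrangement of `(|a_n|)`, indexed from `0` -/
noncomputable def rearr (a : ℕ →₀ 𝕜) (n : ℕ) : ℝ :=
  sInf {t : ℝ | 0 ≤ t ∧ (a.support.filter (fun i => t < ‖a i‖)).card ≤ n}

/-- the Lorentz quasi-norm of `ℓ_{2,s}` on finitely supported sequences -/
noncomputable def lor (s : ℝ) (a : ℕ →₀ 𝕜) : ℝ :=
  (∑' n : ℕ, (rearr a n) ^ s * ((n : ℝ) + 1) ^ (s / 2 - 1)) ^ (1 / s)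

/-- `ℓ_{2,q}` embeds in `H` via `x` -/
def EmbedsLow (q : ℝ) (x : ℕ → H) (𝕜 : Type) [RCLike 𝕜] [InnerProductSpace 𝕜 H] : Prop :=
  ∃ C : ℝ, ∀ a : ℕ →₀ 𝕜, ‖a.sum fun n c => c • x n‖ ≤ C * lor q a

end defs

/-- sum of `1/√(j+1)` over a finite set of cardinality `k` is at most `2√k` -/
lemma sum_inv_sqrt (B : Finset ℕ) : ∑ j ∈ B, 1 / √((j : ℝ) + 1) ≤ 2 * √(B.card : ℝ) := by
  classical
  induction B using Finset.induction_on_max with
  | empty => simp
  | insert a s ha ih =>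
    have has : a ∉ s := fun h => lt_irrefl _ (ha a h)
    rw [Finset.sum_insert has, Finset.card_insert_of_notMem has]
    have hk : s.card ≤ a := by
      have : s ⊆ Finset.range a := fun i hi => Finset.mem_range.mpr (ha i hi)
      simpa using Finset.card_le_card this
    have hk' : (s.card : ℝ) ≤ a := by exact_mod_cast hk
    push_cast
    set k : ℝ := (s.card : ℝ)
    have hk0 : 0 ≤ k := Nat.cast_nonneg _
    have h1 : 1 / √((a : ℝ) + 1) ≤ 1 / √(k + 1) :=
      one_div_le_one_div_of_le (Real.sqrt_pos.mpr (by linarith)) (Real.sqrt_le_sqrt (by linarith))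
    have h2 : 1 / √(k + 1) ≤ 2 * (√(k + 1) - √k) := by
      have hp : 0 < √(k + 1) := Real.sqrt_pos.mpr (by linarith)
      rw [div_le_iff₀ hp]
      have e1 : √(k + 1) * √(k + 1) = k + 1 := Real.mul_self_sqrt (by linarith)
      have e2 : √k * √k = k := Real.mul_self_sqrt hk0
      have e3 : √k ≤ √(k + 1) := Real.sqrt_le_sqrt (by linarith)
      nlinarith [Real.sqrt_nonneg k]
    linarith

section main
variable {𝕜 : Type} [RCLike 𝕜]

abbrev H (𝕜 : Type) [RCLike 𝕜] := lp (fun _ : ℕ => 𝕜) 2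

/-- unit vectors -/
noncomputable def e (i : ℕ) : H 𝕜 := lp.single 2 i (1 : 𝕜)

lemma e_apply (i j : ℕ) : (e i : H 𝕜) j = if j = i then 1 else 0 := by
  unfold e
  rw [lp.single_apply]
  by_cases h : j = i
  · subst h; simp
  · simp [h]

lemma inner_e (i : ℕ) (z : H 𝕜) : inner 𝕜 (e i) z = z i := by
  unfold e; rw [lp.inner_single_left]; simp

lemma e_orth : Orthonormal 𝕜 (e : ℕ → H 𝕜) := by
  rw [orthonormal_iff_ite]
  intro i j
  rw [inner_e, e_apply]

/-- the square of the norm of the coefficient vector in block `N` -/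
noncomputable def hh (N : ℕ) : ℝ := ∑ m ∈ Finset.range (N + 1), 1 / ((m : ℝ) + 1)

lemma hh_pos (N : ℕ) : 0 < hh N := Finset.sum_pos (fun _ _ => by positivity) (by simp)

/-- the coefficients -/
noncomputable def r (m : ℕ) : ℝ := 1 / √((m : ℝ) + 1)

lemma r_nonneg (m : ℕ) : 0 ≤ r m := by unfold r; positivity

lemma r_sq (m : ℕ) : r m * r m = 1 / ((m : ℝ) + 1) := by
  unfold r
  rw [div_mul_div_comm, Real.mul_self_sqrt (by positivity), one_mul]

/-- position of the `m`-th index of type `s` in block `N` -/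
def G (s : Bool) (N m : ℕ) : ℕ := Nat.pair N (if s then N + 1 + m else m)

lemma G_block (s : Bool) (N m : ℕ) : (Nat.unpair (G s N m)).1 = N := by
  unfold G; rw [Nat.unpair_pair]

lemma G_inj (s : Bool) (N : ℕ) {m m' : ℕ} (h : G s N m = G s N m') : m = m' := by
  unfold G at h
  rw [Nat.pair_eq_pair] at h
  cases s <;> simp at h <;> omega

lemma G_ne (N M m m' : ℕ) (hm : m ≤ N) : G false N m ≠ G true M m' := by
  intro h
  unfold G at h
  rw [Nat.pair_eq_pair] at h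
  obtain ⟨h1, h2⟩ := h
  simp at h2
  omega

/-- coefficient of type `s` at the index `i` -/
noncomputable def c (s : Bool) (i : ℕ) : ℝ :=
  ∑ m ∈ Finset.range ((Nat.unpair i).1 + 1), if i = G s (Nat.unpair i).1 m then r m else 0

/-- the unit vector of type `s` in block `N` -/
noncomputable def W (s : Bool) (N : ℕ) : H 𝕜 :=
  (((√(hh N))⁻¹ : ℝ) : 𝕜) • ∑ m ∈ Finset.range (N + 1), ((r m : ℝ) : 𝕜) • e (G s N m)

lemma W_apply (s : Bool) (N i : ℕ) :
    (W s N : H 𝕜) i = if (Nat.unpair i).1 = N then (((√(hh N))⁻¹ * c s i : ℝ) : 𝕜) else 0 := by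
  unfold W
  rw [lp.coeFn_smul, Pi.smul_apply, lp.coeFn_sum, Finset.sum_apply]
  simp only [lp.coeFn_smul, Pi.smul_apply, e_apply, smul_eq_mul]
  split_ifs with h
  · unfold c
    rw [h]
    push_cast
    congr 1
    refine Finset.sum_congr rfl fun m _ => ?_
    split_ifs <;> simp
  · rw [Finset.sum_eq_zero, mul_zero]
    intro m _
    rw [if_neg, mul_zero]
    intro h2
    apply h
    rw [h2, G_block]

lemma c_G (s s' : Bool) (N m : ℕ) (hm : m ≤ N) : c s (G s' N m) = if s = s' then r m else 0 := by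
  unfold c
  rw [G_block]
  split_ifs with h
  · subst h
    rw [Finset.sum_eq_single m]
    · simp
    · intro m' _ hm'
      rw [if_neg]
      intro h; exact hm' (G_inj s N h).symm
    · intro h; exact absurd (Finset.mem_range.mpr (by omega)) h
  · refine Finset.sum_eq_zero fun m' hm' => ?_
    rw [if_neg]
    intro h2
    have hm'' : m' ≤ N := by simpa [Nat.lt_succ_iff] using hm'
    cases s <;> cases s' <;> simp at h
    · exact G_ne N N m' m hm'' h2.symm
    · exact G_ne N N m m' hm h2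

lemma inner_W (s : Bool) (N : ℕ) (z : H 𝕜) : inner 𝕜 (W s N) z =
    (((√(hh N))⁻¹ : ℝ) : 𝕜) * ∑ m ∈ Finset.range (N + 1), ((r m : ℝ) : 𝕜) * z (G s N m) := by
  unfold W
  rw [inner_smul_left, sum_inner]
  simp only [inner_smul_left, RCLike.conj_ofReal, inner_e]

lemma inner_W_W (s s' : Bool) (N M : ℕ) :
    inner 𝕜 (W s N : H 𝕜) (W s' M) = if s = s' ∧ N = M then (1 : 𝕜) else 0 := by
  rw [inner_W]
  have h1 : ∀ m ∈ Finset.range (N + 1), ((r m : ℝ) : 𝕜) * (W s' M : H 𝕜) (G s N m) =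
      if s = s' ∧ N = M then (((√(hh N))⁻¹ * (1 / ((m : ℝ) + 1)) : ℝ) : 𝕜) else 0 := by
    intro m hm
    have hm' : m ≤ N := by simpa [Nat.lt_succ_iff] using hm
    rw [W_apply, G_block, c_G s' s N m hm']
    by_cases h : s = s' ∧ N = M
    · obtain ⟨h1, h2⟩ := h
      subst h1; subst h2
      simp only [if_true, and_self]
      rw [← r_sq]
      push_cast; ring
    · rw [if_neg h]
      by_cases h2 : N = M
      · have h3 : ¬ s' = s := fun h3 => h ⟨h3.symm, h2⟩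
        rw [if_pos h2, if_neg h3]; simp
      · rw [if_neg h2, mul_zero]
  rw [Finset.sum_congr rfl h1]
  split_ifs with h
  · rw [← RCLike.ofReal_sum, ← RCLike.ofReal_mul, ← Finset.mul_sum]
    have : (√(hh N))⁻¹ * ((√(hh N))⁻¹ * hh N) = 1 := by
      rw [← mul_assoc, ← mul_inv, Real.mul_self_sqrt (hh_pos N).le]
      exact inv_mul_cancel₀ (hh_pos N).ne'
    have h3 : ∑ m ∈ Finset.range (N + 1), 1 / ((m : ℝ) + 1) = hh N := rfl
    rw [h3, this, RCLike.ofReal_one]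
  · simp

lemma W_orth (s : Bool) : Orthonormal 𝕜 (W s : ℕ → H 𝕜) := by
  rw [orthonormal_iff_ite]
  intro N M
  rw [inner_W_W]
  simp

/-- the perturbed vectors -/
noncomputable def Z (σ : ℝ) (s : Bool) (i : ℕ) : H 𝕜 :=
  e i + ((σ * c s i : ℝ) : 𝕜) • W (!s) (Nat.unpair i).1

lemma norm_sum_orth {v : ℕ → H 𝕜} (hv : Orthonormal 𝕜 v) (s : Finset ℕ) (l : ℕ → 𝕜) :
    ‖∑ i ∈ s, l i • v i‖ ^ 2 = ∑ i ∈ s, ‖l i‖ ^ 2 := by
  have h := hv.inner_sum l l s
  rw [inner_self_eq_norm_sq_to_K] at h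
  have h2 : (((‖∑ i ∈ s, l i • v i‖ ^ 2 : ℝ)) : 𝕜) = ((∑ i ∈ s, ‖l i‖ ^ 2 : ℝ) : 𝕜) := by
    push_cast
    rw [h]
    refine Finset.sum_congr rfl fun i _ => ?_
    rw [RCLike.conj_mul]
  exact_mod_cast h2

lemma c_nonneg (s : Bool) (i : ℕ) : 0 ≤ c s i :=
  Finset.sum_nonneg fun m _ => by split_ifs; exacts [r_nonneg m, le_rfl]

/-- coefficients of a finite subset of a block -/
lemma sum_c (s : Bool) (N : ℕ) (A : Finset ℕ) (hA : ∀ i ∈ A, (Nat.unpair i).1 = N) :
    ∑ i ∈ A, c s i ≤ 2 * √(A.card : ℝ) := by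
  classical
  set B : Finset ℕ := (Finset.range (N + 1)).filter (fun m => G s N m ∈ A) with hB
  have h1 : ∑ i ∈ A, c s i = ∑ m ∈ B, r m := by
    have : ∀ i ∈ A, c s i = ∑ m ∈ Finset.range (N + 1), if i = G s N m then r m else 0 := by
      intro i hi
      unfold c
      rw [hA i hi]
    rw [Finset.sum_congr rfl this, Finset.sum_comm, hB, Finset.sum_filter]
    refine Finset.sum_congr rfl fun m _ => ?_
    rw [Finset.sum_ite_eq']
  have h2 : B.card ≤ A.card := by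
    refine Finset.card_le_card_of_injOn (G s N) (fun m hm => ?_) (fun m _ m' _ h => G_inj s N h)
    have := Finset.mem_filter.mp (Finset.mem_coe.mp hm)
    exact this.2
  rw [h1]
  refine (sum_inv_sqrt B).trans ?_
  have : √(B.card : ℝ) ≤ √(A.card : ℝ) := Real.sqrt_le_sqrt (by exact_mod_cast h2)
  linarith

/-- upper democracy of the perturbed vectors -/
lemma norm_Z_sum (σ : ℝ) (hσ : |σ| = 1) (s : Bool) (A : Finset ℕ) (ε : ℕ → 𝕜)
    (hε : ∀ n, ‖ε n‖ = 1) : ‖∑ i ∈ A, ε i • (Z σ s i : H 𝕜)‖ ≤ 3 * √(A.card : ℝ) := by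
  classical
  have e0 : ∑ i ∈ A, ε i • (Z σ s i : H 𝕜) = ∑ i ∈ A, ε i • (e i : H 𝕜) +
      ∑ i ∈ A, (ε i * ((σ * c s i : ℝ) : 𝕜)) • (W (!s) (Nat.unpair i).1 : H 𝕜) := by
    rw [← Finset.sum_add_distrib]
    refine Finset.sum_congr rfl fun i _ => ?_
    unfold Z
    rw [smul_add, smul_smul]
  have e1 : ‖∑ i ∈ A, ε i • (e i : H 𝕜)‖ = √(A.card : ℝ) := by
    have := norm_sum_orth (e_orth (𝕜 := 𝕜)) A ε
    simp only [hε, one_pow, Finset.sum_const, nsmul_eq_mul, mul_one] at this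
    rw [← this, Real.sqrt_sq (norm_nonneg _)]
  set D := A.image (fun i => (Nat.unpair i).1) with hD
  have e2 : ∑ i ∈ A, (ε i * ((σ * c s i : ℝ) : 𝕜)) • (W (!s) (Nat.unpair i).1 : H 𝕜) =
      ∑ N ∈ D, (∑ i ∈ A.filter (fun i => (Nat.unpair i).1 = N),
        ε i * ((σ * c s i : ℝ) : 𝕜)) • (W (!s) N : H 𝕜) := by
    rw [← Finset.sum_fiberwise_of_maps_to (s := A) (t := D) (g := fun i => (Nat.unpair i).1)
      (fun i hi => Finset.mem_image_of_mem _ hi)]
    refine Finset.sum_congr rfl fun N _ => ?_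
    rw [Finset.sum_smul]
    refine Finset.sum_congr rfl fun i hi => ?_
    rw [(Finset.mem_filter.mp hi).2]
  have e3 : ‖∑ i ∈ A, (ε i * ((σ * c s i : ℝ) : 𝕜)) • (W (!s) (Nat.unpair i).1 : H 𝕜)‖ ≤
      2 * √(A.card : ℝ) := by
    rw [e2]
    have h1 := norm_sum_orth (W_orth (𝕜 := 𝕜) (!s)) D
      (fun N => ∑ i ∈ A.filter (fun i => (Nat.unpair i).1 = N), ε i * ((σ * c s i : ℝ) : 𝕜))
    have h2 : ∀ N ∈ D, ‖∑ i ∈ A.filter (fun i => (Nat.unpair i).1 = N),
        ε i * ((σ * c s i : ℝ) : 𝕜)‖ ^ 2 ≤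
        4 * ((A.filter (fun i => (Nat.unpair i).1 = N)).card : ℝ) := by
      intro N _
      have h3 : ‖∑ i ∈ A.filter (fun i => (Nat.unpair i).1 = N),
          ε i * ((σ * c s i : ℝ) : 𝕜)‖ ≤
          2 * √((A.filter (fun i => (Nat.unpair i).1 = N)).card : ℝ) := by
        refine (norm_sum_le _ _).trans ?_
        refine le_trans (Finset.sum_le_sum fun i _ => ?_)
          (sum_c s N (A.filter (fun i => (Nat.unpair i).1 = N))
            (fun i hi => (Finset.mem_filter.mp hi).2))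
        rw [norm_mul, hε, one_mul, RCLike.norm_ofReal, abs_mul, hσ, one_mul,
          abs_of_nonneg (c_nonneg s i)]
      calc _ ≤ (2 * √((A.filter (fun i => (Nat.unpair i).1 = N)).card : ℝ)) ^ 2 :=
            pow_le_pow_left₀ (norm_nonneg _) h3 2
        _ = _ := by
          rw [mul_pow, Real.sq_sqrt (Nat.cast_nonneg _)]; norm_num
    have h4 : ∑ N ∈ D, ((A.filter (fun i => (Nat.unpair i).1 = N)).card : ℝ) = A.card := by
      rw [← Nat.cast_sum, ← Finset.card_eq_sum_card_fiberwise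
        (fun i hi => Finset.mem_image_of_mem _ hi)]
    have h5 : ‖∑ N ∈ D, (∑ i ∈ A.filter (fun i => (Nat.unpair i).1 = N),
        ε i * ((σ * c s i : ℝ) : 𝕜)) • (W (!s) N : H 𝕜)‖ ^ 2 ≤ (2 * √(A.card : ℝ)) ^ 2 := by
      rw [h1, mul_pow, Real.sq_sqrt (Nat.cast_nonneg _), ← h4]
      refine (Finset.sum_le_sum h2).trans ?_
      rw [← Finset.mul_sum]; norm_num
    exact le_of_sq_le_sq h5 (by positivity) |> fun h => h
  rw [e0]
  refine (norm_add_le _ _).trans ?_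
  rw [e1]; linarith

/-- the basis -/
noncomputable def x (i : ℕ) : H 𝕜 := Z 1 false i

/-- the biorthogonal vectors -/
noncomputable def y (i : ℕ) : H 𝕜 := Z (-1) true i

lemma x_def (i : ℕ) : (x i : H 𝕜) = e i + ((c false i : ℝ) : 𝕜) • W true (Nat.unpair i).1 := by
  unfold x Z; rw [one_mul]; rfl

lemma y_def (i : ℕ) : (y i : H 𝕜) = e i - ((c true i : ℝ) : 𝕜) • W false (Nat.unpair i).1 := by
  unfold y Z
  rw [neg_mul, one_mul, sub_eq_add_neg, ← neg_smul]
  simp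

lemma inner_e_right (z : H 𝕜) (i : ℕ) : inner 𝕜 z (e i) = conj (z i) := by
  rw [← inner_conj_symm, inner_e]

lemma biorth (i j : ℕ) : inner 𝕜 (y i : H 𝕜) (x j) = if i = j then (1 : 𝕜) else 0 := by
  rw [x_def, y_def, inner_add_right, inner_sub_left, inner_sub_left, inner_smul_right,
    inner_smul_left, inner_smul_left, inner_e, inner_e_right, inner_smul_right, inner_e, inner_W_W,
    e_apply, W_apply, W_apply]
  simp only [Bool.false_eq_true, false_and, if_false, mul_zero, sub_zero, RCLike.conj_ofReal]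
  by_cases h : (Nat.unpair i).1 = (Nat.unpair j).1
  · rw [if_pos h, if_pos h.symm, h]
    simp only [RCLike.conj_ofReal]
    push_cast
    ring
  · rw [if_neg h, if_neg (Ne.symm h)]
    simp

lemma e_mem_span (i : ℕ) : (e i : H 𝕜) ∈ Submodule.span 𝕜 (Set.range (x : ℕ → H 𝕜)) := by
  have hW : ∀ N, (W true N : H 𝕜) ∈ Submodule.span 𝕜 (Set.range (x : ℕ → H 𝕜)) := by
    intro N
    unfold W
    refine Submodule.smul_mem _ _ (Submodule.sum_mem _ fun m hm => Submodule.smul_mem _ _ ?_)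
    have hm' : m ≤ N := by simpa [Nat.lt_succ_iff] using hm
    have : (e (G true N m) : H 𝕜) = x (G true N m) := by
      rw [x_def, c_G false true N m hm']; simp
    rw [this]
    exact Submodule.subset_span ⟨_, rfl⟩
  have h : (e i : H 𝕜) = x i - ((c false i : ℝ) : 𝕜) • W true (Nat.unpair i).1 := by
    rw [x_def]; abel
  rw [h]
  exact Submodule.sub_mem _ (Submodule.subset_span ⟨_, rfl⟩) (Submodule.smul_mem _ _ (hW _))

lemma isBasis : IsBasis 𝕜 (x : ℕ → H 𝕜) y := by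
  refine ⟨biorth, ?_, ?_, 3, fun n => ⟨?_, ?_⟩⟩
  · rw [Submodule.eq_top_iff']
    intro z
    have h := (lp.hasSum_single (E := fun _ : ℕ => 𝕜) (p := 2) (by simp) z).tendsto_sum_nat
    refine mem_closure_of_tendsto h (Eventually.of_forall fun n => ?_)
    refine Submodule.sum_mem _ fun i _ => ?_
    have : (lp.single 2 i (z i) : H 𝕜) = z i • e i := by
      unfold e; rw [← lp.single_smul]; simp
    rw [this]
    exact Submodule.smul_mem _ _ (e_mem_span i)
  · intro z hz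
    have h1 : ∀ N, inner 𝕜 (W false N) z = (0 : 𝕜) := by
      intro N
      rw [inner_W, Finset.sum_eq_zero, mul_zero]
      intro m hm
      have hm' : m ≤ N := by simpa [Nat.lt_succ_iff] using hm
      have h2 := hz (G false N m)
      rw [y_def, c_G true false N m hm', if_neg (by simp)] at h2
      simp only [RCLike.ofReal_zero, zero_smul, sub_zero, inner_e] at h2
      rw [h2, mul_zero]
    refine lp.ext (funext fun i => ?_)
    have h2 := hz i
    rw [y_def, inner_sub_left, inner_smul_left, h1, inner_e, mul_zero, sub_zero] at h2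
    simpa using h2
  · have := norm_Z_sum (𝕜 := 𝕜) 1 (by norm_num) false {n} (fun _ => 1) (by simp)
    simpa [x] using this
  · have := norm_Z_sum (𝕜 := 𝕜) (-1) (by norm_num) true {n} (fun _ => 1) (by simp)
    simpa [y] using this

lemma isBidemocratic : IsBidemocratic 𝕜 (x : ℕ → H 𝕜) y := by
  refine ⟨9, fun m A B ε δ hA hB hε hδ => ?_⟩
  have h1 : ‖∑ n ∈ A, ε n • (x n : H 𝕜)‖ ≤ 3 * √(A.card : ℝ) :=
    norm_Z_sum (𝕜 := 𝕜) 1 (by norm_num) false A ε hε
  have h2 : ‖∑ n ∈ B, δ n • (y n : H 𝕜)‖ ≤ 3 * √(B.card : ℝ) :=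
    norm_Z_sum (𝕜 := 𝕜) (-1) (by norm_num) true B δ hδ
  have hA' : √(A.card : ℝ) ≤ √(m : ℝ) := Real.sqrt_le_sqrt (by exact_mod_cast hA)
  have hB' : √(B.card : ℝ) ≤ √(m : ℝ) := Real.sqrt_le_sqrt (by exact_mod_cast hB)
  calc _ ≤ (3 * √(m : ℝ)) * (3 * √(m : ℝ)) :=
        mul_le_mul (h1.trans (by linarith)) (h2.trans (by linarith)) (norm_nonneg _) (by positivity)
    _ = 9 * (√(m : ℝ) * √(m : ℝ)) := by ring
    _ = 9 * m := by rw [Real.mul_self_sqrt (Nat.cast_nonneg _)]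

/-- the test vector of block `N` -/
noncomputable def av (N : ℕ) : ℕ →₀ 𝕜 :=
  ∑ m ∈ Finset.range (N + 1), Finsupp.single (G false N m) ((r m : ℝ) : 𝕜)

lemma av_sum (N : ℕ) : (av N : ℕ →₀ 𝕜).sum (fun n c => c • (x n : H 𝕜)) =
    ∑ m ∈ Finset.range (N + 1), ((r m : ℝ) : 𝕜) • (x (G false N m) : H 𝕜) := by
  unfold av
  rw [← Finsupp.sum_finsetSum_index (h := fun n c => c • (x n : H 𝕜)) (fun _ => zero_smul _ _)
    (fun _ _ _ => add_smul _ _ _)]
  refine Finset.sum_congr rfl fun m _ => ?_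
  exact Finsupp.sum_single_index (h := fun n c => c • (x n : H 𝕜)) (zero_smul _ _)

lemma av_apply (N i : ℕ) : (av N : ℕ →₀ 𝕜) i =
    ∑ m ∈ Finset.range (N + 1), if G false N m = i then ((r m : ℝ) : 𝕜) else 0 := by
  unfold av
  rw [Finsupp.finsetSum_apply]
  refine Finset.sum_congr rfl fun m _ => ?_
  rw [Finsupp.single_apply]

lemma av_cases (N i : ℕ) : (av N : ℕ →₀ 𝕜) i = 0 ∨
    ∃ m ≤ N, i = G false N m ∧ (av N : ℕ →₀ 𝕜) i = ((r m : ℝ) : 𝕜) := by
  by_cases h : ∃ m ≤ N, i = G false N m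
  · obtain ⟨m, hm, hi⟩ := h
    refine Or.inr ⟨m, hm, hi, ?_⟩
    rw [av_apply, Finset.sum_eq_single m]
    · rw [if_pos hi.symm]
    · intro m' _ hm'
      rw [if_neg]
      intro h; rw [hi] at h; exact hm' (G_inj false N h)
    · intro h; exact absurd (Finset.mem_range.mpr (by omega)) h
  · left
    rw [av_apply]
    refine Finset.sum_eq_zero fun m hm => ?_
    rw [if_neg]
    intro h2
    exact h ⟨m, by simpa [Nat.lt_succ_iff] using hm, h2.symm⟩

lemma lower (N : ℕ) : hh N ≤ ‖(av N : ℕ →₀ 𝕜).sum (fun n c => c • (x n : H 𝕜))‖ := by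
  rw [av_sum]
  have h1 : inner 𝕜 (W true N : H 𝕜)
      (∑ m ∈ Finset.range (N + 1), ((r m : ℝ) : 𝕜) • (x (G false N m) : H 𝕜)) =
      ((hh N : ℝ) : 𝕜) := by
    rw [inner_sum]
    unfold hh
    rw [RCLike.ofReal_sum]
    refine Finset.sum_congr rfl fun m hm => ?_
    have hm' : m ≤ N := by simpa [Nat.lt_succ_iff] using hm
    rw [inner_smul_right, x_def, inner_add_right, inner_smul_right, inner_e_right, W_apply,
      G_block, if_pos rfl, c_G true false N m hm', c_G false false N m hm', inner_W_W]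
    simp only [Bool.true_eq_false, if_false, mul_zero, RCLike.ofReal_zero, map_zero, zero_add,
      if_true, and_self, mul_one]
    rw [← RCLike.ofReal_mul, r_sq]
  have h2 := norm_inner_le_norm (𝕜 := 𝕜) (W true N : H 𝕜)
    (∑ m ∈ Finset.range (N + 1), ((r m : ℝ) : 𝕜) • (x (G false N m) : H 𝕜))
  rw [h1, (W_orth true).norm_eq_one, one_mul, RCLike.norm_ofReal, abs_of_pos (hh_pos N)] at h2
  exact h2

lemma r_anti {m n : ℕ} (h : r n < r m) : m < n := by
  by_contra hcon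
  push Not at hcon
  refine absurd h (not_lt.mpr ?_)
  unfold r
  have : (n : ℝ) ≤ m := by exact_mod_cast hcon
  exact one_div_le_one_div_of_le (Real.sqrt_pos.mpr (by positivity))
    (Real.sqrt_le_sqrt (by linarith))

lemma rearr_nonneg (a : ℕ →₀ 𝕜) (n : ℕ) : 0 ≤ rearr a n := Real.sInf_nonneg fun _ h => h.1

lemma rearr_le {a : ℕ →₀ 𝕜} {n : ℕ} {t : ℝ} (ht : 0 ≤ t)
    (h : (a.support.filter (fun i => t < ‖a i‖)).card ≤ n) : rearr a n ≤ t :=
  csInf_le ⟨0, fun _ h => h.1⟩ ⟨ht, h⟩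

lemma rearr_av (N n : ℕ) : rearr (av N : ℕ →₀ 𝕜) n ≤ r n := by
  classical
  refine rearr_le (r_nonneg n) ?_
  have h1 : (av N : ℕ →₀ 𝕜).support.filter (fun i => r n < ‖(av N : ℕ →₀ 𝕜) i‖) ⊆
      (Finset.range n).image (G false N) := by
    intro i hi
    have h2 := (Finset.mem_filter.mp hi).2
    rcases av_cases (𝕜 := 𝕜) N i with h | ⟨m, hm, h3, h4⟩
    · rw [h, norm_zero] at h2
      exact absurd h2 (not_lt.mpr (r_nonneg n))
    · rw [h4, RCLike.norm_ofReal, abs_of_nonneg (r_nonneg m)] at h2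
      exact Finset.mem_image.mpr ⟨m, Finset.mem_range.mpr (r_anti h2), h3.symm⟩
  refine (Finset.card_le_card h1).trans (Finset.card_image_le.trans ?_)
  simp

lemma rearr_av_zero (N n : ℕ) (hn : N + 1 ≤ n) : rearr (av N : ℕ →₀ 𝕜) n = 0 := by
  classical
  refine le_antisymm (rearr_le le_rfl ?_) (rearr_nonneg _ _)
  have h1 : (av N : ℕ →₀ 𝕜).support.filter (fun i => 0 < ‖(av N : ℕ →₀ 𝕜) i‖) ⊆
      (Finset.range (N + 1)).image (G false N) := by
    intro i hi
    have h2 := (Finset.mem_filter.mp hi).2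
    rcases av_cases (𝕜 := 𝕜) N i with h | ⟨m, hm, h3, h4⟩
    · rw [h, norm_zero] at h2
      exact absurd h2 (lt_irrefl _)
    · exact Finset.mem_image.mpr ⟨m, Finset.mem_range.mpr (by omega), h3.symm⟩
  refine (Finset.card_le_card h1).trans (Finset.card_image_le.trans ?_)
  simpa using hn

lemma lor_av (q : ℝ) (hq : 1 < q) (N : ℕ) : lor q (av N : ℕ →₀ 𝕜) ≤ (hh N) ^ (1 / q) := by
  unfold lor
  have hq0 : 0 < q := by linarith
  have h1 : ∑' n : ℕ, (rearr (av N : ℕ →₀ 𝕜) n) ^ q * ((n : ℝ) + 1) ^ (q / 2 - 1) =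
      ∑ n ∈ Finset.range (N + 1), (rearr (av N : ℕ →₀ 𝕜) n) ^ q * ((n : ℝ) + 1) ^ (q / 2 - 1) := by
    refine tsum_eq_sum fun n hn => ?_
    rw [rearr_av_zero N n (by simpa using hn), Real.zero_rpow hq0.ne', zero_mul]
  rw [h1]
  refine Real.rpow_le_rpow (Finset.sum_nonneg fun n _ => mul_nonneg
    (Real.rpow_nonneg (rearr_nonneg _ _) _) (by positivity)) ?_ (by positivity)
  refine Finset.sum_le_sum fun n _ => ?_
  have h2 : (rearr (av N : ℕ →₀ 𝕜) n) ^ q ≤ (r n) ^ q :=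
    Real.rpow_le_rpow (rearr_nonneg _ _) (rearr_av N n) hq0.le
  refine (mul_le_mul_of_nonneg_right h2 (by positivity)).trans (le_of_eq ?_)
  have hn : (0 : ℝ) < (n : ℝ) + 1 := by positivity
  have h3 : r n = ((n : ℝ) + 1) ^ (-(1 / 2) : ℝ) := by
    unfold r
    rw [Real.rpow_neg hn.le, ← Real.sqrt_eq_rpow, one_div]
  rw [h3, ← Real.rpow_mul hn.le, ← Real.rpow_add hn]
  have h4 : -(1 / 2) * q + (q / 2 - 1) = (-1 : ℝ) := by ring
  rw [h4, Real.rpow_neg_one, one_div]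

lemma hh_tendsto : Tendsto hh atTop atTop :=
  Real.tendsto_sum_range_one_div_nat_succ_atTop.comp (tendsto_add_atTop_nat 1)

lemma not_embeds (q : ℝ) (hq : 1 < q) : ¬ EmbedsLow q (x : ℕ → H 𝕜) 𝕜 := by
  rintro ⟨C, hC⟩
  have hq0 : 0 < q := by linarith
  have hC0 : 0 ≤ C := by
    by_contra hneg
    push Not at hneg
    have h1 := (lower (𝕜 := 𝕜) 0).trans (hC (av 0))
    have h2 : 0 ≤ lor q (av 0 : ℕ →₀ 𝕜) := by
      unfold lor
      exact Real.rpow_nonneg (tsum_nonneg fun n => mul_nonneg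
        (Real.rpow_nonneg (rearr_nonneg _ _) _) (by positivity)) _
    have h3 := hh_pos 0
    nlinarith
  have h1 : ∀ N, (hh N) ^ (1 - 1 / q) ≤ C := by
    intro N
    have h2 := (lower (𝕜 := 𝕜) N).trans
      ((hC (av N)).trans (mul_le_mul_of_nonneg_left (lor_av q hq N) hC0))
    rw [Real.rpow_sub (hh_pos N), Real.rpow_one, div_le_iff₀ (Real.rpow_pos_of_pos (hh_pos N) _)]
    exact h2
  have h2 : Tendsto (fun N => (hh N) ^ (1 - 1 / q)) atTop atTop := by
    refine (tendsto_rpow_atTop ?_).comp hh_tendsto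
    have : 1 / q < 1 := by rw [div_lt_one hq0]; exact hq
    linarith
  obtain ⟨N, hN⟩ := (h2.eventually_gt_atTop C).exists
  exact absurd (h1 N) (not_le.mpr hN)

end main

end Pool.Agent.Q195.LZ
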