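import Mathlib

set_option autoImplicit false

namespace Pool.Agent.Q195.MB

open Filter Topology

variable (𝕜 : Type) [RCLike 𝕜]

/-- the space of bounded scalar sequences -/
abbrev Linf : Type := lp (fun _ : ℕ => 𝕜) ⊤

/-- index set of the `l_1` part -/
abbrev Gam : Type := {d : Linf 𝕜 // ‖d‖ ≤ 1} × ℕ

noncomputable instance : DecidableEq (Gam 𝕜) := Classical.decEq _

/-- the `l_1` part -/
abbrev L1G : Type := lp (fun _ : Gam 𝕜 => 𝕜) 1

/-- the space: `l_infty` plus a large `l_1(Gamma)` -/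
abbrev Sp : Type := Linf 𝕜 × L1G 𝕜

variable {𝕜}

lemma exists_pairing {Γ : Type} (c : Γ → 𝕜) (K : ℝ) (hc : ∀ γ, ‖c γ‖ ≤ K) :
    ∃ φ : lp (fun _ : Γ => 𝕜) 1 →L[𝕜] 𝕜, ∀ w, HasSum (fun γ => w γ * c γ) (φ w) := by
  have hn : ∀ w : lp (fun _ : Γ => 𝕜) 1, HasSum (fun γ => ‖w γ‖) ‖w‖ := by
    intro w
    have := lp.hasSum_norm (E := fun _ : Γ => 𝕜) (p := 1) (by norm_num) w
    simpa using this
  have hb : ∀ (w : lp (fun _ : Γ => 𝕜) 1) γ, ‖w γ * c γ‖ ≤ ‖w γ‖ * K := by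
    intro w γ
    rw [norm_mul]
    exact mul_le_mul_of_nonneg_left (hc γ) (norm_nonneg _)
  have hs : ∀ w : lp (fun _ : Γ => 𝕜) 1, Summable (fun γ => w γ * c γ) := by
    intro w
    exact Summable.of_norm_bounded ((hn w).summable.mul_right K) (hb w)
  let φ : lp (fun _ : Γ => 𝕜) 1 →ₗ[𝕜] 𝕜 :=
    { toFun := fun w => ∑' γ, w γ * c γ
      map_add' := by
        intro v w
        rw [← (hs v).tsum_add (hs w)]
        congr 1
        funext γ
        show (v γ + w γ) * c γ = _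
        ring
      map_smul' := by
        intro t w
        rw [RingHom.id_apply, smul_eq_mul, ← tsum_mul_left]
        congr 1
        funext γ
        show (t * w γ) * c γ = _
        ring }
  refine ⟨φ.mkContinuous K ?_, fun w => ?_⟩
  · intro w
    show ‖∑' γ, w γ * c γ‖ ≤ _
    have h1 := tsum_of_norm_bounded ((hn w).mul_right K) (hb w)
    linarith
  · exact (hs w).hasSum

/-- cutting the first `k` coordinates -/
noncomputable def cut (k : ℕ) (d : Linf 𝕜) : Linf 𝕜 :=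
  ⟨fun n => if k ≤ n then d n else 0, memℓp_infty <| by
    refine ⟨‖d‖, ?_⟩
    rintro _ ⟨n, rfl⟩
    simp only
    split_ifs
    · exact lp.norm_apply_le_norm (by simp) d n
    · simp⟩

lemma cut_apply (k : ℕ) (d : Linf 𝕜) (n : ℕ) : cut k d n = if k ≤ n then d n else 0 := rfl

/-- the vectors -/
noncomputable def xv : ℕ ⊕ Gam 𝕜 → Sp 𝕜
  | Sum.inl n => (lp.single ⊤ n 1, 0)
  | Sum.inr γ => (-((γ.2 : 𝕜) + 1) • cut γ.2 γ.1.1, lp.single 1 γ 1)

lemma exists_fun : ∃ f : ℕ ⊕ Gam 𝕜 → Sp 𝕜 →L[𝕜] 𝕜,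
    (∀ γ z, f (Sum.inr γ) z = z.2 γ) ∧
    (∀ n (z : Linf 𝕜), f (Sum.inl n) (z, 0) = z n) ∧
    (∀ n γ, f (Sum.inl n) (0, lp.single 1 γ 1) = ((γ.2 : 𝕜) + 1) * cut γ.2 γ.1.1 n) := by
  have hc : ∀ n (γ : Gam 𝕜), ‖((γ.2 : 𝕜) + 1) * cut γ.2 γ.1.1 n‖ ≤ (n:ℝ) + 1 := by
    intro n γ
    rw [cut_apply]
    split_ifs with h
    · rw [norm_mul]
      have h1 : ‖(γ.2 : 𝕜) + 1‖ ≤ (n:ℝ) + 1 := by
        have : ((γ.2 : 𝕜) + 1) = (((γ.2 : ℝ) + 1 : ℝ) : 𝕜) := by push_cast; rfl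
        rw [this, RCLike.norm_ofReal, abs_of_nonneg (by positivity)]
        have : (γ.2 : ℝ) ≤ n := by exact_mod_cast h
        linarith
      have h2 : ‖γ.1.1 n‖ ≤ 1 := (lp.norm_apply_le_norm (by simp) γ.1.1 n).trans γ.1.2
      calc ‖(γ.2 : 𝕜) + 1‖ * ‖γ.1.1 n‖ ≤ ((n:ℝ) + 1) * 1 :=
            mul_le_mul h1 h2 (norm_nonneg _) (by positivity)
        _ = _ := mul_one _
    · rw [mul_zero, norm_zero]; positivity
  choose φ hφ using fun n => exists_pairing (fun γ : Gam 𝕜 => ((γ.2 : 𝕜) + 1) * cut γ.2 γ.1.1 n)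
    ((n:ℝ) + 1) (hc n)
  refine ⟨fun i => match i with
    | Sum.inl n => (lp.evalCLM 𝕜 (fun _ : ℕ => 𝕜) ⊤ n).comp (ContinuousLinearMap.fst 𝕜 _ _) +
        (φ n).comp (ContinuousLinearMap.snd 𝕜 _ _)
    | Sum.inr γ => (lp.evalCLM 𝕜 (fun _ : Gam 𝕜 => 𝕜) 1 γ).comp (ContinuousLinearMap.snd 𝕜 _ _),
    ?_, ?_, ?_⟩
  · intro γ z; rfl
  · intro n z
    show z n + φ n 0 = z n
    rw [map_zero, add_zero]
  · intro n γ
    show (0 : Linf 𝕜) n + φ n (lp.single 1 γ 1) = _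
    have h1 : (0 : Linf 𝕜) n = 0 := rfl
    rw [h1, zero_add]
    refine (hφ n (lp.single 1 γ 1)).unique ?_
    have h2 : HasSum (fun γ' : Gam 𝕜 => (lp.single 1 γ (1:𝕜) : L1G 𝕜) γ' *
        (((γ'.2 : 𝕜) + 1) * cut γ'.2 γ'.1.1 n))
        ((lp.single 1 γ (1:𝕜) : L1G 𝕜) γ * (((γ.2 : 𝕜) + 1) * cut γ.2 γ.1.1 n)) := by
      apply hasSum_single γ
      intro γ' hγ'
      rw [lp.single_apply_ne _ _ _ hγ', zero_mul]
    rw [lp.single_apply_self, one_mul] at h2
    exact h2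

/-- The space has an extended M-basis. -/
theorem mbasis : ∃ f : ℕ ⊕ Gam 𝕜 → Sp 𝕜 →L[𝕜] 𝕜,
    (∀ i, f i (xv i) = 1) ∧ (∀ i j, i ≠ j → f i (xv j) = 0) ∧
    (Submodule.span 𝕜 (Set.range (xv (𝕜 := 𝕜)))).topologicalClosure = ⊤ ∧
    (∀ z, (∀ i, f i z = 0) → z = 0) := by
  classical
  obtain ⟨f, hf1, hf2, hf3⟩ := exists_fun (𝕜 := 𝕜)
  have hγ : ∀ n (γ : Gam 𝕜), f (Sum.inl n) (xv (Sum.inr γ)) = 0 := by
    intro n γ
    have h1 : (xv (Sum.inr γ) : Sp 𝕜) =
        (-((γ.2 : 𝕜) + 1) • cut γ.2 γ.1.1, 0) + (0, lp.single 1 γ 1) := by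
      simp [xv]
    rw [h1, map_add, hf2, hf3]
    show -((γ.2 : 𝕜) + 1) * cut γ.2 γ.1.1 n + _ = 0
    ring
  have hdiag : ∀ i, f i (xv i) = 1 := by
    rintro (n | γ)
    · show f (Sum.inl n) (lp.single ⊤ n 1, 0) = 1
      rw [hf2, lp.single_apply_self]
    · rw [hf1]
      show (lp.single 1 γ (1:𝕜) : L1G 𝕜) γ = 1
      rw [lp.single_apply_self]
  refine ⟨f, hdiag, ?_, ?_, ?_⟩
  · rintro (n | γ) (m | γ') hne
    · show f (Sum.inl n) (lp.single ⊤ m 1, 0) = 0
      rw [hf2, lp.single_apply_ne]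
      intro h; exact hne (by rw [h])
    · exact hγ n γ'
    · rw [hf1]; rfl
    · rw [hf1]
      show (lp.single 1 γ' (1:𝕜) : L1G 𝕜) γ = 0
      rw [lp.single_apply_ne]
      intro h; exact hne (by rw [h])
  · set Y := (Submodule.span 𝕜 (Set.range (xv (𝕜 := 𝕜)))).topologicalClosure with hY
    have hxY : ∀ i, xv i ∈ Y := fun i =>
      Submodule.le_topologicalClosure _ (Submodule.subset_span ⟨i, rfl⟩)
    -- first: elements (d,0) with norm at most one
    have hhead : ∀ (d : Linf 𝕜) (k : ℕ), ((d - cut k d, 0) : Sp 𝕜) ∈ Y := by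
      intro d k
      have h1 : ((d - cut k d, 0) : Sp 𝕜) = ∑ n ∈ Finset.range k, d n • xv (Sum.inl n) := by
        have h2 : d - cut k d = ∑ n ∈ Finset.range k, d n • lp.single ⊤ n (1:𝕜) := by
          apply lp.ext
          funext m
          rw [lp.coeFn_sub, lp.coeFn_sum, Pi.sub_apply, Finset.sum_apply]
          have h3 : ∀ n, (d n • lp.single ⊤ n (1:𝕜) : Linf 𝕜) m = if m = n then d n else 0 := by
            intro n
            rw [lp.coeFn_smul, Pi.smul_apply]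
            by_cases h : m = n
            · subst h; rw [lp.single_apply_self]; simp
            · rw [lp.single_apply_ne _ _ _ h, if_neg h, smul_zero]
          simp only [h3]
          rw [Finset.sum_ite_eq, cut_apply]
          by_cases h : m < k
          · rw [if_neg (by omega), if_pos (by simpa using h), sub_zero]
          · rw [if_pos (by omega), if_neg (by simpa using h), sub_self]
        apply Prod.ext
        · simp only [xv, Prod.fst_sum, Prod.smul_mk]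
          exact h2
        · simp only [xv, Prod.snd_sum, Prod.smul_mk, smul_zero, Finset.sum_const_zero]
      rw [h1]
      exact Submodule.sum_mem _ (fun n _ => Submodule.smul_mem _ _ (hxY _))
    have hball : ∀ d : Linf 𝕜, ‖d‖ ≤ 1 → ((d, 0) : Sp 𝕜) ∈ Y := by
      intro d hd
      -- approximants
      let a : ℕ → Sp 𝕜 := fun k => ((d - cut k d, 0) : Sp 𝕜) -
        ((k : 𝕜) + 1)⁻¹ • xv (Sum.inr (⟨d, hd⟩, k))
      have ha : ∀ k, a k ∈ Y := fun k =>
        Submodule.sub_mem _ (hhead d k) (Submodule.smul_mem _ _ (hxY _))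
      have hne : ∀ k : ℕ, ((k : 𝕜) + 1) ≠ 0 := fun k => Nat.cast_add_one_ne_zero k
      have hval : ∀ k, a k = (d, -((k : 𝕜) + 1)⁻¹ • lp.single 1 (⟨d, hd⟩, k) 1) := by
        intro k
        apply Prod.ext
        · simp only [a, xv, Prod.fst_sub, Prod.smul_fst]
          rw [smul_smul, mul_neg, inv_mul_cancel₀ (hne k), neg_smul, one_smul]
          abel
        · simp only [a, xv, Prod.snd_sub, Prod.smul_snd]
          rw [zero_sub, neg_smul]
      have hlim : Tendsto a atTop (𝓝 (d, 0)) := by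
        have h1 : Tendsto (fun k : ℕ => -((k : 𝕜) + 1)⁻¹ • (lp.single 1 (⟨d, hd⟩, k) 1 : L1G 𝕜))
            atTop (𝓝 0) := by
          apply squeeze_zero_norm' _ tendsto_one_div_add_atTop_nhds_zero_nat
          filter_upwards with k
          rw [norm_smul, norm_neg, lp.norm_single (by norm_num), norm_one, mul_one, norm_inv]
          have : ((k : 𝕜) + 1) = (((k : ℝ) + 1 : ℝ) : 𝕜) := by push_cast; rfl
          rw [this, RCLike.norm_ofReal, abs_of_nonneg (by positivity), one_div]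
        have h2 : Tendsto (fun k : ℕ => ((d, -((k : 𝕜) + 1)⁻¹ •
            (lp.single 1 (⟨d, hd⟩, k) 1 : L1G 𝕜)) : Sp 𝕜)) atTop (𝓝 (d, 0)) :=
          tendsto_const_nhds.prodMk_nhds h1
        exact h2.congr (fun k => (hval k).symm)
      exact (Submodule.isClosed_topologicalClosure _).mem_of_tendsto hlim
        (Filter.Eventually.of_forall ha)
    have hall : ∀ d : Linf 𝕜, ((d, 0) : Sp 𝕜) ∈ Y := by
      intro d
      by_cases hd0 : ‖d‖ = 0
      · apply hball; rw [hd0]; norm_num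
      · have hpos : 0 < ‖d‖ := lt_of_le_of_ne (norm_nonneg _) (Ne.symm hd0)
        have h1 := hball (((‖d‖ : 𝕜)⁻¹) • d) (by
          rw [norm_smul, norm_inv, RCLike.norm_ofReal, abs_of_pos hpos, inv_mul_cancel₀ hd0])
        have h2 := Submodule.smul_mem Y (‖d‖ : 𝕜) h1
        have h3 : ((‖d‖ : 𝕜) • ((((‖d‖ : 𝕜)⁻¹) • d, 0) : Sp 𝕜)) = (d, 0) := by
          rw [Prod.smul_mk, smul_zero, smul_smul, mul_inv_cancel₀ (by exact_mod_cast hd0), one_smul]
        rwa [h3] at h2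
    have hsing : ∀ γ : Gam 𝕜, ((0, lp.single 1 γ 1) : Sp 𝕜) ∈ Y := by
      intro γ
      have h1 : ((0, lp.single 1 γ 1) : Sp 𝕜) =
          xv (Sum.inr γ) - (-((γ.2 : 𝕜) + 1) • cut γ.2 γ.1.1, 0) := by
        simp [xv]
      rw [h1]
      exact Submodule.sub_mem _ (hxY _) (hall _)
    rw [eq_top_iff]
    rintro ⟨d, w⟩ _
    have hw : ((0, w) : Sp 𝕜) ∈ Y := by
      have hs : HasSum (fun γ => (lp.single 1 γ (w γ) : L1G 𝕜)) w :=
        lp.hasSum_single ENNReal.one_ne_top w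
      have hs2 : Tendsto (fun s : Finset (Gam 𝕜) =>
          (((0 : Linf 𝕜), ∑ γ ∈ s, lp.single 1 γ (w γ)) : Sp 𝕜)) atTop (𝓝 (0, w)) :=
        tendsto_const_nhds.prodMk_nhds hs
      refine (Submodule.isClosed_topologicalClosure _).mem_of_tendsto hs2
        (Filter.Eventually.of_forall (fun s => ?_))
      have h1 : (((0 : Linf 𝕜), ∑ γ ∈ s, lp.single 1 γ (w γ)) : Sp 𝕜) =
          ∑ γ ∈ s, w γ • ((0, lp.single 1 γ 1) : Sp 𝕜) := by
        apply Prod.ext
        · simp [Prod.fst_sum]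
        · simp only [Prod.snd_sum, Prod.smul_snd]
          apply Finset.sum_congr rfl
          intro γ _
          rw [← lp.single_smul, smul_eq_mul, mul_one]
      rw [h1]
      exact Submodule.sum_mem _ (fun γ _ => Submodule.smul_mem _ _ (hsing γ))
    have : ((d, w) : Sp 𝕜) = (d, 0) + (0, w) := by simp
    rw [this]
    exact Submodule.add_mem _ (hall d) hw
  · rintro ⟨d, w⟩ hz
    have hw : w = 0 := by
      apply lp.ext
      funext γ
      have := hz (Sum.inr γ)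
      rw [hf1] at this
      exact this
    subst hw
    have hd : d = 0 := by
      apply lp.ext
      funext n
      have := hz (Sum.inl n)
      rw [hf2] at this
      exact this
    rw [hd]; rfl

end Pool.Agent.Q195.MB
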