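import Mathlib

set_option autoImplicit false

namespace Pool.Agent.Q195.MBD

open Filter Topology

variable {𝕜 : Type} [RCLike 𝕜] {E : Type} [NormedAddCommGroup E] [NormedSpace 𝕜 E]

/-- Extended M-basis (Markushevich basis with arbitrary index set) with its associated functionals:
biorthogonal, dense linear span, total functionals. -/
def IsExtMBasis {I : Type} (x : I → E) (f : I → E →L[𝕜] 𝕜) : Prop :=
  (∀ i, f i (x i) = 1) ∧ (∀ i j, i ≠ j → f i (x j) = 0) ∧
    (Submodule.span 𝕜 (Set.range x)).topologicalClosure = ⊤ ∧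
    (∀ z, (∀ i, f i z = 0) → z = 0)

/-- The seminorm `p` is a norm equivalent to the given norm of `E`. -/
def EquivNorm (p : Seminorm 𝕜 E) : Prop :=
  ∃ c C : ℝ, 0 < c ∧ ∀ v : E, c * ‖v‖ ≤ p v ∧ p v ≤ C * ‖v‖

/-- Local uniform convexity of `p`: if `p x = p (x_n) = 1` and `p (x_n + x)` tends to `2` then
`p (x_n - x)` tends to `0`. -/
def LocallyUniformlyConvex (p : Seminorm 𝕜 E) : Prop :=
  ∀ (x : E) (xs : ℕ → E), p x = 1 → (∀ n, p (xs n) = 1) →
    Tendsto (fun n => p (xs n + x)) atTop (𝓝 2) → Tendsto (fun n => p (xs n - x)) atTop (𝓝 0)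

end Pool.Agent.Q195.MBD
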