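import Mathlib

set_option autoImplicit false

namespace Pool.Agent.Q195.OPB

open Filter Topology

variable {𝕜 : Type} [RCLike 𝕜] {E : Type} [NormedAddCommGroup E] [NormedSpace 𝕜 E]

/-- the span of the first `n` vectors -/
def PP (𝕜 : Type) [RCLike 𝕜] {E : Type} [NormedAddCommGroup E] [NormedSpace 𝕜 E]
    (x : ℕ → E) (n : ℕ) : Submodule 𝕜 E := Submodule.span 𝕜 (x '' Set.Iio n)

lemma mem_PP (x : ℕ → E) {i n : ℕ} (h : i < n) : x i ∈ PP 𝕜 x n :=
  Submodule.subset_span ⟨i, h, rfl⟩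

/-- the linear combination of the first `n` vectors with coefficients `α`, in `PP x n` -/
def psum (x : ℕ → E) (n : ℕ) (α : ℕ → 𝕜) : PP 𝕜 x n :=
  ⟨∑ i ∈ Finset.range n, α i • x i, Submodule.sum_mem _ (fun _ hi =>
    Submodule.smul_mem _ _ (mem_PP x (by simpa using hi)))⟩

/-- complete minimal sequence with its functionals -/
def CompleteMinimal (x : ℕ → E) (f : ℕ → E →L[𝕜] 𝕜) : Prop :=
  (∀ i j, f i (x j) = if i = j then 1 else 0) ∧
    (Submodule.span 𝕜 (Set.range x)).topologicalClosure = ⊤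

/-- operational basis with respect to `v` -/
def IsOperational (x : ℕ → E) (f : ℕ → E →L[𝕜] 𝕜) (v : ∀ n, PP 𝕜 x n →ₗ[𝕜] PP 𝕜 x n) : Prop :=
  CompleteMinimal x f ∧
    ∀ z, Tendsto (fun n => (v n (psum x n (fun i => f i z)) : E)) atTop (𝓝 z)

/-- generalized summation basis with respect to `v` -/
def IsGenSummation (x : ℕ → E) (v : ∀ n, PP 𝕜 x n →ₗ[𝕜] PP 𝕜 x n) : Prop :=
  (∀ i, Tendsto (fun n : ℕ => (v (n + i + 1) ⟨x i, mem_PP x (by omega)⟩ : E)) atTop (𝓝 (x i))) ∧
    ∀ z, ∃! α : ℕ → 𝕜, Tendsto (fun n => (v n (psum x n α) : E)) atTop (𝓝 z)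

lemma f_psum (x : ℕ → E) (f : ℕ → E →L[𝕜] 𝕜) (hbi : ∀ i j, f i (x j) = if i = j then 1 else 0)
    (n j : ℕ) (hj : j < n) (α : ℕ → 𝕜) : f j (psum x n α : E) = α j := by
  show f j (∑ i ∈ Finset.range n, α i • x i) = α j
  rw [map_sum, Finset.sum_eq_single j]
  · rw [map_smul, hbi, if_pos rfl]; simp
  · intro i _ hi; rw [map_smul, hbi, if_neg (Ne.symm hi), smul_zero]
  · intro h; exact absurd (Finset.mem_range.mpr hj) h

lemma exists_y (x : ℕ → E) (f : ℕ → E →L[𝕜] 𝕜) (h : CompleteMinimal x f) (i : ℕ) :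
    ∃ y : E, y ∈ Submodule.span 𝕜 (Set.range x) ∧ f i y = 1 ∧ ‖f i‖ * ‖y‖ ≤ 2 := by
  have hpos : 0 < ‖f i‖ := by
    rw [norm_pos_iff]
    intro h0
    have := h.1 i i
    rw [h0, if_pos rfl] at this
    simp at this
  obtain ⟨y, hy, hyf⟩ : ∃ y ∈ Submodule.span 𝕜 (Set.range x), ‖f i‖ / 2 * ‖y‖ < ‖f i y‖ := by
    by_contra hcon
    push Not at hcon
    have hcl : IsClosed {y : E | ‖f i y‖ ≤ ‖f i‖ / 2 * ‖y‖} :=
      isClosed_le (f i).continuous.norm (continuous_const.mul continuous_norm)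
    have hall : ∀ y : E, ‖f i y‖ ≤ ‖f i‖ / 2 * ‖y‖ := by
      intro y
      have h1 : y ∈ (Submodule.span 𝕜 (Set.range x)).topologicalClosure := by rw [h.2]; trivial
      exact closure_minimal (fun y hy => hcon y hy) hcl h1
    have := (f i).opNorm_le_bound (by positivity) hall
    linarith
  have hne : f i y ≠ 0 := by
    intro h0
    rw [h0, norm_zero] at hyf
    have : 0 ≤ ‖f i‖ / 2 * ‖y‖ := by positivity
    linarith
  refine ⟨(f i y)⁻¹ • y, Submodule.smul_mem _ _ hy, ?_, ?_⟩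
  · rw [map_smul, smul_eq_mul, inv_mul_cancel₀ hne]
  · rw [norm_smul, norm_inv]
    have hn : 0 < ‖f i y‖ := norm_pos_iff.mpr hne
    rw [← mul_assoc, mul_comm (‖f i‖), mul_assoc, inv_mul_le_iff₀ hn]
    linarith

lemma mem_PP_of_span (x : ℕ → E) (y : E) (hy : y ∈ Submodule.span 𝕜 (Set.range x)) :
    ∃ M, ∀ n ≥ M, y ∈ PP 𝕜 x n := by
  have hmono : ∀ m n, m ≤ n → PP 𝕜 x m ≤ PP 𝕜 x n := fun m n hmn =>
    Submodule.span_mono (Set.image_mono (fun i hi => lt_of_lt_of_le (show i < m from hi) hmn))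
  induction hy using Submodule.span_induction with
  | mem y hy =>
    obtain ⟨i, rfl⟩ := hy
    exact ⟨i + 1, fun n hn => mem_PP x (by omega)⟩
  | zero => exact ⟨0, fun n _ => Submodule.zero_mem _⟩
  | add a b _ _ h1 h2 =>
    obtain ⟨M1, h1⟩ := h1
    obtain ⟨M2, h2⟩ := h2
    exact ⟨max M1 M2, fun n hn => Submodule.add_mem _ (h1 n (le_of_max_le_left hn))
      (h2 n (le_of_max_le_right hn))⟩
  | smul t a _ h1 =>
    obtain ⟨M1, h1⟩ := h1
    exact ⟨M1, fun n hn => Submodule.smul_mem _ _ (h1 n hn)⟩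

/-- Every operational basis is a generalized summation basis with respect to some operators. -/
theorem main (x : ℕ → E) (f : ℕ → E →L[𝕜] 𝕜) (v : ∀ n, PP 𝕜 x n →ₗ[𝕜] PP 𝕜 x n)
    (h : IsOperational x f v) : ∃ v' : ∀ n, PP 𝕜 x n →ₗ[𝕜] PP 𝕜 x n, IsGenSummation x v' := by
  classical
  obtain ⟨hcm, hop⟩ := h
  have hbi := hcm.1
  choose y hyspan hyf hyn using exists_y x f hcm
  choose M hM using fun i => mem_PP_of_span x (y i) (hyspan i)
  let j : ℕ → ℕ := fun n => (Nat.unpair n).1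
  let cond : ℕ → Prop := fun n => M (j n) ≤ n ∧ j n < n
  let v' : ∀ n, PP 𝕜 x n →ₗ[𝕜] PP 𝕜 x n := fun n =>
    if hc : cond n then
      v n + ((f (j n)).toLinearMap.comp (PP 𝕜 x n).subtype -
        (f (j n)).toLinearMap.comp ((PP 𝕜 x n).subtype.comp (v n))).smulRight
          ⟨y (j n), hM (j n) n hc.1⟩
    else v n
  have hv'pos : ∀ n, cond n → ∀ w : PP 𝕜 x n, (v' n w : E) =
      (v n w : E) + (f (j n) (w : E) - f (j n) (v n w : E)) • y (j n) := by
    intro n hc w
    simp only [v']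
    rw [dif_pos hc]
    rfl
  have hv'neg : ∀ n, ¬ cond n → ∀ w : PP 𝕜 x n, (v' n w : E) = (v n w : E) := by
    intro n hc w
    simp only [v']
    rw [dif_neg hc]
  have hlim : ∀ z, Tendsto (fun n => (v' n (psum x n (fun i => f i z)) : E)) atTop (𝓝 z) := by
    intro z
    rw [tendsto_iff_norm_sub_tendsto_zero]
    have h1 := tendsto_iff_norm_sub_tendsto_zero.mp (hop z)
    have h2 : Tendsto (fun n => 3 * ‖(v n (psum x n (fun i => f i z)) : E) - z‖) atTop (𝓝 0) := by
      simpa using h1.const_mul 3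
    apply squeeze_zero (fun _ => norm_nonneg _) _ h2
    intro n
    by_cases hc : cond n
    · rw [hv'pos n hc, f_psum x f hbi n (j n) hc.2]
      set w : E := (v n (psum x n (fun i => f i z)) : E) with hw
      have h3 : w + (f (j n) z - f (j n) w) • y (j n) - z =
          (w - z) - (f (j n) (w - z)) • y (j n) := by
        rw [map_sub, sub_smul, sub_smul]; abel
      rw [h3]
      have h4 := norm_sub_le (w - z) ((f (j n) (w - z)) • y (j n))
      rw [norm_smul] at h4
      have h5 := (f (j n)).le_opNorm (w - z)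
      have h6 : ‖f (j n) (w - z)‖ * ‖y (j n)‖ ≤ 2 * ‖w - z‖ := by
        calc ‖f (j n) (w - z)‖ * ‖y (j n)‖ ≤ (‖f (j n)‖ * ‖w - z‖) * ‖y (j n)‖ :=
              mul_le_mul_of_nonneg_right h5 (norm_nonneg _)
          _ = (‖f (j n)‖ * ‖y (j n)‖) * ‖w - z‖ := by ring
          _ ≤ 2 * ‖w - z‖ := mul_le_mul_of_nonneg_right (hyn _) (norm_nonneg _)
      linarith
    · rw [hv'neg n hc]
      have := norm_nonneg ((v n (psum x n (fun i => f i z)) : E) - z)
      linarith
  refine ⟨v', ?_, ?_⟩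
  · intro i
    have h1 := hlim (x i)
    have h2 : ∀ n : ℕ, (v' (n + i + 1) (psum x (n + i + 1) (fun k => f k (x i))) : E) =
        (v' (n + i + 1) ⟨x i, mem_PP x (by omega)⟩ : E) := by
      intro n
      congr 2
      apply Subtype.ext
      show ∑ k ∈ Finset.range (n + i + 1), f k (x i) • x k = x i
      rw [Finset.sum_eq_single i]
      · rw [hbi, if_pos rfl, one_smul]
      · intro k _ hk; rw [hbi, if_neg hk, zero_smul]
      · intro h; exact absurd (Finset.mem_range.mpr (by omega)) h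
    have h3 := h1.comp (tendsto_add_atTop_nat (i + 1))
    exact h3.congr (fun n => h2 n)
  · intro z
    refine ⟨fun i => f i z, hlim z, ?_⟩
    intro β hβ
    funext i
    -- subtract
    have hdiff : Tendsto (fun n => (v' n (psum x n β) : E) -
        (v' n (psum x n (fun i => f i z)) : E)) atTop (𝓝 0) := by
      have := Tendsto.sub hβ (hlim z)
      rwa [sub_self] at this
    have hfd : Tendsto (fun n => f i ((v' n (psum x n β) : E) -
        (v' n (psum x n (fun i => f i z)) : E))) atTop (𝓝 0) := by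
      have := ((f i).continuous.tendsto 0).comp hdiff
      rwa [map_zero] at this
    -- along the subsequence where j n = i
    have hsub : Tendsto (fun m => Nat.pair i m) atTop atTop :=
      tendsto_atTop_mono (fun m => Nat.right_le_pair i m) tendsto_id
    have hval : ∀ᶠ m in atTop, f i ((v' (Nat.pair i m) (psum x (Nat.pair i m) β) : E) -
        (v' (Nat.pair i m) (psum x (Nat.pair i m) (fun i => f i z)) : E)) = β i - f i z := by
      filter_upwards [eventually_ge_atTop (M i), eventually_gt_atTop i] with m hm1 hm2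
      have hji : j (Nat.pair i m) = i := by simp [j]
      have hle : m ≤ Nat.pair i m := Nat.right_le_pair i m
      have hc : cond (Nat.pair i m) := by
        refine ⟨?_, ?_⟩
        · rw [hji]; omega
        · rw [hji]; omega
      have hgen : ∀ w : PP 𝕜 x (Nat.pair i m), f i (v' (Nat.pair i m) w : E) = f i (w : E) := by
        intro w
        rw [hv'pos _ hc, hji, map_add, map_smul, hyf]
        simp
      rw [map_sub, hgen, hgen, f_psum x f hbi _ i (by omega), f_psum x f hbi _ i (by omega)]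
    have h1 := (hfd.comp hsub)
    have h2 : Tendsto (fun _ : ℕ => β i - f i z) atTop (𝓝 0) := h1.congr' hval
    have h3 := tendsto_nhds_unique h2 tendsto_const_nhds
    exact (sub_eq_zero.mp h3.symm)

end Pool.Agent.Q195.OPB
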