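import Mathlib

set_option autoImplicit false

namespace Pool.Agent.Q195.PB

open Finset Filter Topology

variable {X : Type*} [NormedAddCommGroup X] [NormedSpace ℝ X]

/-- Data: a one-unconditional basis with its continuous coordinate functionals. -/
structure UB (e : ℕ → X) (c : ℕ → X →L[ℝ] ℝ) : Prop where
  hs : ∀ x, HasSum (fun n => c n x • e n) x
  bi : ∀ n m, c n (e m) = if n = m then 1 else 0
  hu : ∀ (s : Finset ℕ) (a ε : ℕ → ℝ), (∀ n, ε n = 1 ∨ ε n = -1) →
          ‖∑ n ∈ s, (ε n * a n) • e n‖ ≤ ‖∑ n ∈ s, a n • e n‖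

variable {e : ℕ → X} {c : ℕ → X →L[ℝ] ℝ}

lemma UB.coef_sum (h : UB e c) (s : Finset ℕ) (a : ℕ → ℝ) (n : ℕ) :
    c n (∑ m ∈ s, a m • e m) = if n ∈ s then a n else 0 := by
  rw [map_sum]
  simp only [map_smul, h.bi, smul_eq_mul, mul_ite, mul_one, mul_zero]
  rw [Finset.sum_ite_eq]

lemma UB.norm_le_of_abs (h : UB e c) {x y : X} (hxy : ∀ n, |c n x| = |c n y|) : ‖x‖ ≤ ‖y‖ := by
  have h1 := (h.hs x).norm
  have h2 := (h.hs y).norm
  refine le_of_tendsto_of_tendsto' (continuous_norm.continuousAt.tendsto.comp (h.hs x))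
    (continuous_norm.continuousAt.tendsto.comp (h.hs y)) ?_
  intro s
  simp only [Function.comp]
  have hex : ∀ n, ∃ ε : ℝ, (ε = 1 ∨ ε = -1) ∧ c n x = ε * c n y := by
    intro n
    rcases abs_eq_abs.mp (hxy n) with h3 | h3
    · exact ⟨1, Or.inl rfl, by rw [h3]; ring⟩
    · exact ⟨-1, Or.inr rfl, by rw [h3]; ring⟩
  choose ε hε hε' using hex
  have := h.hu s (fun n => c n y) ε hε
  calc ‖∑ n ∈ s, c n x • e n‖ = ‖∑ n ∈ s, (ε n * c n y) • e n‖ := by
        congr 1; apply Finset.sum_congr rfl; intro n _; rw [hε' n]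
    _ ≤ _ := this

/-- projection on a finite set of coordinates -/
noncomputable def P (e : ℕ → X) (c : ℕ → X →L[ℝ] ℝ) (s : Finset ℕ) (x : X) : X :=
  ∑ n ∈ s, c n x • e n

lemma UB.coef_P (h : UB e c) (s : Finset ℕ) (x : X) (n : ℕ) :
    c n (P e c s x) = if n ∈ s then c n x else 0 := h.coef_sum s _ n

lemma UB.norm_P_le (h : UB e c) (s : Finset ℕ) (x : X) : ‖P e c s x‖ ≤ ‖x‖ := by
  have h1 : ‖(2:ℝ) • P e c s x - x‖ ≤ ‖x‖ := by
    apply h.norm_le_of_abs
    intro n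
    rw [map_sub, map_smul, h.coef_P]
    split_ifs
    · congr 1; simp; ring
    · simp
  have h2 : P e c s x = (1/2:ℝ) • (((2:ℝ) • P e c s x - x) + x) := by
    rw [sub_add_cancel, smul_smul]; norm_num
  rw [h2, norm_smul]
  have h3 := norm_add_le ((2:ℝ) • P e c s x - x) x
  have : ‖(1/2:ℝ)‖ = 1/2 := by norm_num
  rw [this]; linarith

lemma UB.tendsto_P (h : UB e c) (x : X) :
    Tendsto (fun N => P e c (Finset.range N) x) atTop (𝓝 x) :=
  (h.hs x).tendsto_sum_nat

lemma UB.sum_abs_le (h : UB e c) (f : X →L[ℝ] ℝ) (s : Finset ℕ) (x : X) :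
    ∑ n ∈ s, |f (e n)| * |c n x| ≤ ‖f‖ * ‖x‖ := by
  classical
  have hex : ∀ n, ∃ ε : ℝ, (ε = 1 ∨ ε = -1) ∧ |f (e n)| * |c n x| = ε * c n x * f (e n) := by
    intro n
    rw [← abs_mul]
    rcases abs_choice (f (e n) * c n x) with h3 | h3
    · exact ⟨1, Or.inl rfl, by rw [h3]; ring⟩
    · exact ⟨-1, Or.inr rfl, by rw [h3]; ring⟩
  choose ε hε hε' using hex
  have h1 : ∑ n ∈ s, |f (e n)| * |c n x| = f (∑ n ∈ s, (ε n * c n x) • e n) := by
    rw [map_sum]; apply Finset.sum_congr rfl; intro n _; rw [map_smul, hε' n, smul_eq_mul]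
  rw [h1]
  calc f (∑ n ∈ s, (ε n * c n x) • e n) ≤ ‖f (∑ n ∈ s, (ε n * c n x) • e n)‖ := le_abs_self _
    _ ≤ ‖f‖ * ‖∑ n ∈ s, (ε n * c n x) • e n‖ := f.le_opNorm _
    _ ≤ ‖f‖ * ‖x‖ := by
      apply mul_le_mul_of_nonneg_left _ (norm_nonneg _)
      exact (h.hu s (fun n => c n x) ε hε).trans (h.norm_P_le s x)

/-- weights -/
noncomputable def G (e : ℕ → X) (F : Finset (X →L[ℝ] ℝ)) (n : ℕ) : ℝ := ∑ f ∈ F, |f (e n)|

lemma G_nonneg (F : Finset (X →L[ℝ] ℝ)) (n : ℕ) : 0 ≤ G e F n :=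
  Finset.sum_nonneg (fun _ _ => abs_nonneg _)

/-- the functional phi -/
noncomputable def phi (e : ℕ → X) (c : ℕ → X →L[ℝ] ℝ) (F : Finset (X →L[ℝ] ℝ)) (x : X) : ℝ :=
  ∑' n, G e F n * |c n x|

lemma UB.partial_le (h : UB e c) (F : Finset (X →L[ℝ] ℝ)) (s : Finset ℕ) (x : X) :
    ∑ n ∈ s, G e F n * |c n x| ≤ (∑ f ∈ F, ‖f‖) * ‖x‖ := by
  unfold G
  calc ∑ n ∈ s, (∑ f ∈ F, |f (e n)|) * |c n x| = ∑ f ∈ F, ∑ n ∈ s, |f (e n)| * |c n x| := by
        simp_rw [Finset.sum_mul]; exact Finset.sum_comm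
    _ ≤ ∑ f ∈ F, ‖f‖ * ‖x‖ := Finset.sum_le_sum (fun f _ => h.sum_abs_le f s x)
    _ = _ := by rw [Finset.sum_mul]

lemma UB.summ (h : UB e c) (F : Finset (X →L[ℝ] ℝ)) (x : X) :
    Summable (fun n => G e F n * |c n x|) :=
  summable_of_sum_le (fun n => mul_nonneg (G_nonneg F n) (abs_nonneg _))
    (fun s => h.partial_le F s x)

lemma UB.phi_le (h : UB e c) (F : Finset (X →L[ℝ] ℝ)) (x : X) :
    phi e c F x ≤ (∑ f ∈ F, ‖f‖) * ‖x‖ :=
  (h.summ F x).tsum_le_of_sum_le (fun s => h.partial_le F s x)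

lemma UB.phi_add (h : UB e c) (F : Finset (X →L[ℝ] ℝ)) {x y : X}
    (hd : ∀ n, c n x = 0 ∨ c n y = 0) : phi e c F (x + y) = phi e c F x + phi e c F y := by
  unfold phi
  rw [← (h.summ F x).tsum_add (h.summ F y)]
  congr 1; ext n
  rcases hd n with h1 | h1 <;> simp [h1]

lemma phi_smul (F : Finset (X →L[ℝ] ℝ)) (t : ℝ) (x : X) :
    phi e c F (t • x) = |t| * phi e c F x := by
  unfold phi
  rw [← tsum_mul_left]
  congr 1; ext n
  rw [map_smul, smul_eq_mul, abs_mul]; ring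

lemma UB.abs_le_phi (h : UB e c) (F : Finset (X →L[ℝ] ℝ)) {f : X →L[ℝ] ℝ} (hf : f ∈ F) (x : X) :
    |f x| ≤ phi e c F x := by
  have h1 : HasSum (fun n => f (c n x • e n)) (f x) := f.hasSum (h.hs x)
  have h2 : ∀ n, ‖f (c n x • e n)‖ ≤ G e F n * |c n x| := by
    intro n
    rw [map_smul, smul_eq_mul, Real.norm_eq_abs, abs_mul, mul_comm]
    apply mul_le_mul_of_nonneg_right _ (abs_nonneg _)
    exact Finset.single_le_sum (f := fun f : X →L[ℝ] ℝ => |f (e n)|) (fun _ _ => abs_nonneg _) hf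
  rw [← h1.tsum_eq]
  exact tsum_of_norm_bounded (h.summ F x).hasSum h2

/-- finitely supported below N -/
def Sup (c : ℕ → X →L[ℝ] ℝ) (N : ℕ) (x : X) : Prop := ∀ n, N ≤ n → c n x = 0


lemma UB.norm_sub_eq (h : UB e c) {x z : X} (hd : ∀ n, c n x = 0 ∨ c n z = 0) :
    ‖x - z‖ ≤ ‖x + z‖ := by
  apply h.norm_le_of_abs
  intro n
  rw [map_sub, map_add]
  rcases hd n with h1 | h1 <;> simp [h1]

/-- pigeonhole: among a bounded sequence of vectors, two members on which all functionals of a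
finite family are close. -/
lemma pigeon (F : Finset (X →L[ℝ] ℝ)) (z : ℕ → X) (R : ℝ) (hz : ∀ k, ‖z k‖ ≤ R) {ε : ℝ}
    (hε : 0 < ε) : ∃ k l, k < l ∧ ∀ f ∈ F, |f (z k) - f (z l)| < ε := by
  classical
  let u : ℕ → (F → ℝ) := fun k f => (f : X →L[ℝ] ℝ) (z k)
  have hb : ∀ k, u k ∈ Metric.closedBall (0 : F → ℝ) ((∑ f ∈ F, ‖f‖) * R) := by
    intro k
    rw [mem_closedBall_zero_iff]
    have hR : 0 ≤ R := (norm_nonneg _).trans (hz k)
    rw [pi_norm_le_iff_of_nonneg (mul_nonneg (Finset.sum_nonneg (fun _ _ => norm_nonneg _)) hR)]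
    intro f
    calc ‖u k f‖ ≤ ‖(f : X →L[ℝ] ℝ)‖ * ‖z k‖ := (f : X →L[ℝ] ℝ).le_opNorm _
      _ ≤ (∑ f ∈ F, ‖f‖) * R := by
        apply mul_le_mul _ (hz k) (norm_nonneg _) (Finset.sum_nonneg (fun _ _ => norm_nonneg _))
        exact Finset.single_le_sum (f := fun f : X →L[ℝ] ℝ => ‖f‖) (fun _ _ => norm_nonneg _) f.2
  obtain ⟨a, -, φ, hφ, hlim⟩ := tendsto_subseq_of_bounded
    (Metric.isBounded_closedBall) hb
  have hc := hlim.cauchySeq
  rw [Metric.cauchySeq_iff] at hc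
  obtain ⟨N, hN⟩ := hc ε hε
  refine ⟨φ N, φ (N+1), hφ (Nat.lt_succ_self N), ?_⟩
  intro f hf
  have h1 := hN N le_rfl (N+1) (Nat.le_succ N)
  have h2 := dist_le_pi_dist ((u ∘ φ) N) ((u ∘ φ) (N+1)) ⟨f, hf⟩
  exact lt_of_le_of_lt h2 h1

/-- the set used in the supremum argument -/
def SS (c : ℕ → X →L[ℝ] ℝ) (F : Finset (X →L[ℝ] ℝ)) (η : ℝ) (x0 : X) : Set X :=
  {x | ‖x‖ < 1 ∧ (∃ N, Sup c N x) ∧ ∀ f ∈ F, |f x - f x0| < η}

lemma exists_margin {ι : Type*} (F : Finset ι) (g : ι → ℝ) (η : ℝ) (h : ∀ f ∈ F, g f < η) :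
    ∃ ε > 0, ∀ f ∈ F, g f + ε < η := by
  classical
  induction F using Finset.induction_on with
  | empty => exact ⟨1, one_pos, by simp⟩
  | insert a s ha ih =>
    obtain ⟨ε, hε, h1⟩ := ih (fun f hf => h f (Finset.mem_insert_of_mem hf))
    have h2 := h a (Finset.mem_insert_self _ _)
    refine ⟨min ε ((η - g a)/2), lt_min hε (by linarith), ?_⟩
    intro f hf
    rcases Finset.mem_insert.mp hf with rfl | hf
    · have := min_le_right ε ((η - g f)/2); linarith
    · have := min_le_left ε ((η - g a)/2); have := h1 f hf; linarith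

lemma UB.stop (h : UB e c) (F : Finset (X →L[ℝ] ℝ)) {η κ : ℝ} (hκ : 0 < κ) (x0 : X)
    (hne : (SS c F η x0).Nonempty) :
    ∃ x ∈ SS c F η x0, ∃ N, Sup c N x ∧ ∀ z K, (∀ n < N, c n z = 0) → Sup c K z →
      ‖x + z‖ < 1 → phi e c F z ≤ κ := by
  classical
  have hM0 : 0 ≤ ∑ f ∈ F, ‖f‖ := Finset.sum_nonneg (fun f _ => norm_nonneg f)
  have hbd : BddAbove (phi e c F '' SS c F η x0) := by
    refine ⟨∑ f ∈ F, ‖f‖, ?_⟩
    rintro _ ⟨x, hx, rfl⟩
    refine (h.phi_le F x).trans ?_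
    calc (∑ f ∈ F, ‖f‖) * ‖x‖ ≤ (∑ f ∈ F, ‖f‖) * 1 :=
          mul_le_mul_of_nonneg_left hx.1.le hM0
      _ = _ := mul_one _
  obtain ⟨_, ⟨x, hx, rfl⟩, hlt⟩ := exists_lt_of_lt_csSup (hne.image (phi e c F))
    (show sSup (phi e c F '' SS c F η x0) - κ < sSup (phi e c F '' SS c F η x0) by linarith)
  obtain ⟨hx1, ⟨N, hN⟩, hx3⟩ := hx
  refine ⟨x, ⟨hx1, ⟨N, hN⟩, hx3⟩, ?_⟩
  by_contra hcon
  push Not at hcon
  have hcon' : ∀ N', N ≤ N' → ∃ z K, N' ≤ K ∧ (∀ n < N', c n z = 0) ∧ Sup c K z ∧ ‖x + z‖ < 1 ∧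
      κ < phi e c F z := by
    intro N' hN'
    obtain ⟨z, K, h1, h2, h3, h4⟩ := hcon N' (fun n hn => hN n (hN'.trans hn))
    exact ⟨z, max K N', le_max_right _ _, h1, fun n hn => h2 n ((le_max_left _ _).trans hn), h3, h4⟩
  choose! z K hK hz1 hz2 hz3 hz4 using hcon'
  let M : ℕ → ℕ := fun k => Nat.rec N (fun _ m => K m) k
  have hM0' : M 0 = N := rfl
  have hMs : ∀ k, M (k+1) = K (M k) := fun k => rfl
  have hMN : ∀ k, N ≤ M k := by
    intro k
    induction k with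
    | zero => exact le_rfl
    | succ k ih => rw [hMs]; exact ih.trans (hK _ ih)
  have hMm : Monotone M := monotone_nat_of_le_succ (fun k => by rw [hMs]; exact hK _ (hMN k))
  let w : ℕ → X := fun k => z (M k)
  have hw1 : ∀ k, ∀ n < M k, c n (w k) = 0 := fun k => hz1 _ (hMN k)
  have hw2 : ∀ k, Sup c (M (k+1)) (w k) := fun k => hz2 _ (hMN k)
  have hw3 : ∀ k, ‖x + w k‖ < 1 := fun k => hz3 _ (hMN k)
  have hw4 : ∀ k, κ < phi e c F (w k) := fun k => hz4 _ (hMN k)
  have hwb : ∀ k, ‖w k‖ ≤ 2 := by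
    intro k
    have : w k = (x + w k) - x := by abel
    rw [this]
    have := norm_sub_le (x + w k) x
    have := hw3 k
    linarith
  obtain ⟨ε, hε, hmar⟩ := exists_margin F (fun f => |f x - f x0|) η hx3
  obtain ⟨k, l, hkl, hclose⟩ := pigeon F w 2 hwb hε
  have hMkl : M (k+1) ≤ M l := hMm hkl
  have hdkl : ∀ n, c n (w k) = 0 ∨ c n (w l) = 0 := by
    intro n
    rcases lt_or_ge n (M l) with h1 | h1
    · exact Or.inr (hw1 l n h1)
    · exact Or.inl (hw2 k n (hMkl.trans h1))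
  have hdx : ∀ j n, c n x = 0 ∨ c n (w j) = 0 := by
    intro j n
    rcases lt_or_ge n (M j) with h1 | h1
    · exact Or.inr (hw1 j n h1)
    · exact Or.inl (hN n ((hMN j).trans h1))
  let x' : X := x + ((1/2:ℝ) • w k + (-(1/2):ℝ) • w l)
  have hx'mem : x' ∈ SS c F η x0 := by
    refine ⟨?_, ⟨M (l+1), ?_⟩, ?_⟩
    · have h1 : x' = (1/2:ℝ) • (x + w k) + (1/2:ℝ) • (x - w l) := by
        simp only [x']; module
      rw [h1]
      have h2 := norm_add_le ((1/2:ℝ) • (x + w k)) ((1/2:ℝ) • (x - w l))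
      rw [norm_smul, norm_smul] at h2
      have h3 : ‖(1/2:ℝ)‖ = 1/2 := by norm_num
      rw [h3] at h2
      have h4 := h.norm_sub_eq (hdx l)
      have h5 := hw3 k
      have h6 := hw3 l
      linarith
    · intro n hn
      have h1 := hw2 l n hn
      have h2 := hw2 k n ((hMm (by omega : k+1 ≤ l+1)).trans hn)
      have h3 := hN n ((hMN (l+1)).trans hn)
      simp [x', h1, h2, h3]
    · intro f hf
      have h1 : f x' - f x0 = (f x - f x0) + (1/2) * (f (w k) - f (w l)) := by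
        simp only [x', map_add, map_smul, smul_eq_mul]; ring
      rw [h1]
      have h2 := hclose f hf
      have h3 : |f x - f x0| + ε < η := hmar f hf
      have h4 := abs_add_le (f x - f x0) ((1/2) * (f (w k) - f (w l)))
      rw [abs_mul] at h4
      have h5 : |(1/2:ℝ)| = 1/2 := by norm_num
      rw [h5] at h4
      linarith
  have hphi : phi e c F x' = phi e c F x + (1/2) * phi e c F (w k) + (1/2) * phi e c F (w l) := by
    simp only [x']
    rw [h.phi_add F, h.phi_add F, phi_smul, phi_smul]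
    · have h5 : |(1/2:ℝ)| = 1/2 := by norm_num
      have h6 : |(-(1/2):ℝ)| = 1/2 := by norm_num
      rw [h5, h6]; ring
    · intro n
      rcases hdkl n with h1 | h1 <;> simp [h1]
    · intro n
      rcases hdx k n with h1 | h1
      · simp [h1]
      · rcases hdx l n with h2 | h2
        · simp [h2]
        · simp [h1, h2]
  have hle : phi e c F x' ≤ sSup (phi e c F '' SS c F η x0) :=
    le_csSup hbd ⟨x', hx'mem, rfl⟩
  have := hw4 k
  have := hw4 l
  linarith

lemma UB.Sup_P (h : UB e c) (K : ℕ) (x : X) : Sup c K (P e c (Finset.range K) x) := by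
  intro n hn
  rw [h.coef_P, if_neg]
  simpa using hn

lemma UB.eq_P_of_Sup (h : UB e c) {N : ℕ} {x : X} (hx : Sup c N x) :
    P e c (Finset.range N) x = x := by
  have h1 := h.hs x
  have h2 : HasSum (fun n => c n x • e n) (∑ n ∈ Finset.range N, c n x • e n) := by
    apply hasSum_sum_of_ne_finset_zero
    intro n hn
    rw [hx n (by simpa using hn), zero_smul]
  exact h2.unique h1

lemma norm_sum_range_le (e : ℕ → X) (N : ℕ) (b : ℕ → ℝ) (δ : ℝ) (hb : ∀ n < N, |b n| ≤ δ) :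
    ‖∑ n ∈ Finset.range N, b n • e n‖ ≤ δ * ∑ n ∈ Finset.range N, ‖e n‖ := by
  refine (norm_sum_le _ _).trans ?_
  rw [Finset.mul_sum]
  apply Finset.sum_le_sum
  intro n hn
  rw [norm_smul]
  exact mul_le_mul_of_nonneg_right (hb n (by simpa using hn)) (norm_nonneg _)

theorem UB.main (h : UB e c) (F : Finset (X →L[ℝ] ℝ)) {η : ℝ} (hη : 0 < η) (x0 : X)
    (hx0 : ‖x0‖ ≤ 1) :
    ∃ (N : ℕ) (q : ℕ → ℚ) (k : ℕ), (∃ y : X, ‖y‖ ≤ 1 ∧ ∀ n < N, |c n y - q n| < 1 / ((k:ℝ) + 1)) ∧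
      ∀ y : X, ‖y‖ ≤ 1 → (∀ n < N, |c n y - q n| < 1 / ((k:ℝ) + 1)) →
        ∀ f ∈ F, |f y - f x0| < η := by
  classical
  have hM0 : 0 ≤ ∑ f ∈ F, ‖f‖ := Finset.sum_nonneg (fun f _ => norm_nonneg f)
  set M := ∑ f ∈ F, ‖f‖ with hMdef
  -- nonemptiness of the set SS with η/2
  have hne : (SS c F (η/2) x0).Nonempty := by
    -- choose r < 1 with (1-r) * M < η/4
    obtain ⟨r, hr0, hr1, hrM⟩ : ∃ r : ℝ, 0 < r ∧ r < 1 ∧ (1 - r) * M < η/4 := by
      refine ⟨1 - min (1/2) (η/8/(M+1)), ?_, ?_, ?_⟩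
      · have := min_le_left (1/2:ℝ) (η/8/(M+1)); linarith
      · have : 0 < min (1/2:ℝ) (η/8/(M+1)) := lt_min (by norm_num) (by positivity)
        linarith
      · have h1 := min_le_right (1/2:ℝ) (η/8/(M+1))
        have h2 : (1 - (1 - min (1/2:ℝ) (η/8/(M+1)))) * M ≤ η/8/(M+1) * M := by
          apply mul_le_mul_of_nonneg_right _ hM0; linarith
        have h3 : η/8/(M+1) * M ≤ η/8 := by
          rw [div_mul_eq_mul_div, div_le_iff₀ (by linarith)]
          nlinarith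
        linarith
    have ht := h.tendsto_P x0
    have ht2 : ∀ᶠ K in atTop, ‖P e c (Finset.range K) x0 - x0‖ * (M+1) < η/8 := by
      have h1 : Tendsto (fun K => ‖P e c (Finset.range K) x0 - x0‖ * (M+1)) atTop
          (𝓝 (‖x0 - x0‖ * (M+1))) :=
        ((ht.sub_const x0).norm).mul_const _
      rw [sub_self, norm_zero, zero_mul] at h1
      exact h1.eventually (gt_mem_nhds (by linarith))
    obtain ⟨K, hK⟩ := ht2.exists
    refine ⟨r • P e c (Finset.range K) x0, ?_, ⟨K, ?_⟩, ?_⟩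
    · rw [norm_smul, Real.norm_eq_abs, abs_of_pos hr0]
      calc r * ‖P e c (Finset.range K) x0‖ ≤ r * 1 :=
            mul_le_mul_of_nonneg_left ((h.norm_P_le _ _).trans hx0) hr0.le
        _ < 1 := by linarith
    · intro n hn
      rw [map_smul, h.Sup_P K x0 n hn, smul_zero]
    · intro f hf
      have hfM : ‖f‖ ≤ M := Finset.single_le_sum (f := fun f : X →L[ℝ] ℝ => ‖f‖)
        (fun _ _ => norm_nonneg _) hf
      have h1 : f (r • P e c (Finset.range K) x0) - f x0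
          = r * f (P e c (Finset.range K) x0 - x0) + (-(1-r)) * f x0 := by
        rw [map_smul, map_sub, smul_eq_mul]; ring
      rw [h1]
      have h2 := abs_add_le (r * f (P e c (Finset.range K) x0 - x0)) ((-(1-r)) * f x0)
      have h3 : |r * f (P e c (Finset.range K) x0 - x0)| ≤ η/8 := by
        rw [abs_mul, abs_of_pos hr0]
        have h4 : |f (P e c (Finset.range K) x0 - x0)| ≤ ‖P e c (Finset.range K) x0 - x0‖ * (M+1) := by
          refine (f.le_opNorm _).trans ?_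
          rw [mul_comm]
          exact mul_le_mul_of_nonneg_left (by linarith) (norm_nonneg _)
        calc r * |f (P e c (Finset.range K) x0 - x0)| ≤ 1 * (η/8) := by
              apply mul_le_mul hr1.le (h4.trans hK.le) (abs_nonneg _) zero_le_one
          _ = η/8 := one_mul _
      have h5 : |(-(1-r)) * f x0| ≤ (1-r) * M := by
        rw [abs_mul, abs_neg, abs_of_pos (by linarith : (0:ℝ) < 1 - r)]
        apply mul_le_mul_of_nonneg_left _ (by linarith)
        have h6 := f.le_opNorm x0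
        rw [Real.norm_eq_abs] at h6
        calc |f x0| ≤ ‖f‖ * ‖x0‖ := h6
          _ ≤ M * 1 := mul_le_mul hfM hx0 (norm_nonneg _) hM0
          _ = M := mul_one _
      linarith
  obtain ⟨x, ⟨hx1, -, hx3⟩, N, hN, hstop⟩ := h.stop F (κ := η/8) (by linarith) x0 hne
  -- parameters
  set E := (∑ n ∈ Finset.range N, ‖e n‖) + 1 with hE
  have hEs : 0 ≤ ∑ n ∈ Finset.range N, ‖e n‖ := Finset.sum_nonneg (fun _ _ => norm_nonneg _)
  have hE1 : 1 ≤ E := by linarith
  obtain ⟨δ, hδ0, hδ1, hδ2⟩ : ∃ δ : ℝ, 0 < δ ∧ δ * E < 1 - ‖x‖ ∧ M * (δ * E) ≤ η/4 := by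
    refine ⟨min ((1-‖x‖)/2/E) (η/4/(M+1)/E), lt_min ?_ ?_, ?_, ?_⟩
    · have : 0 < 1 - ‖x‖ := by linarith
      positivity
    · positivity
    · have h1 := min_le_left ((1-‖x‖)/2/E) (η/4/(M+1)/E)
      have h2 := mul_le_mul_of_nonneg_right h1 (by linarith : (0:ℝ) ≤ E)
      rw [div_mul_cancel₀ _ (by linarith : E ≠ 0)] at h2
      linarith
    · have h1 := min_le_right ((1-‖x‖)/2/E) (η/4/(M+1)/E)
      have h2 := mul_le_mul_of_nonneg_right h1 (by linarith : (0:ℝ) ≤ E)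
      rw [div_mul_cancel₀ _ (by linarith : E ≠ 0)] at h2
      have h3 := mul_le_mul_of_nonneg_left h2 hM0
      refine h3.trans ?_
      rw [mul_div_assoc', div_le_iff₀ (by linarith)]
      nlinarith
  -- the key estimate
  have key : ∀ y : X, ‖y‖ ≤ 1 → (∀ n < N, |c n y - c n x| ≤ δ) → ∀ f ∈ F, |f y - f x0| < η := by
    intro y hy hyc f hf
    have hfM : ‖f‖ ≤ M := Finset.single_le_sum (f := fun f : X →L[ℝ] ℝ => ‖f‖)
      (fun _ _ => norm_nonneg _) hf
    set w := P e c (Finset.range N) y - x with hw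
    have hw1 : w = ∑ n ∈ Finset.range N, (c n y - c n x) • e n := by
      have hx' := h.eq_P_of_Sup hN
      simp only [sub_smul, Finset.sum_sub_distrib]
      rw [hw]
      conv_lhs => rw [← hx']
      rfl
    have hwn : ‖w‖ ≤ δ * E := by
      rw [hw1]
      refine (norm_sum_range_le e N _ δ hyc).trans ?_
      apply mul_le_mul_of_nonneg_left _ hδ0.le
      linarith
    set z := y - P e c (Finset.range N) y with hz
    have hzc : ∀ n, c n z = if n < N then 0 else c n y := by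
      intro n
      rw [hz, map_sub, h.coef_P]
      by_cases hn : n < N
      · simp [hn]
      · simp [hn]
    have hxz : ‖x + (1/2:ℝ) • z‖ < 1 := by
      have h1 : x + (1/2:ℝ) • z = (1/2:ℝ) • (y + x - w) := by
        rw [hz, hw]; module
      rw [h1, norm_smul]
      have h2 := norm_sub_le (y + x) w
      have h3 := norm_add_le y x
      have h4 : ‖(1/2:ℝ)‖ = 1/2 := by norm_num
      rw [h4]
      linarith
    have hfz : ∀ K, N ≤ K → |f (P e c (Finset.range K) z)| ≤ η/4 := by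
      intro K hK
      have h1 : phi e c F ((1/2:ℝ) • P e c (Finset.range K) z) ≤ η/8 := by
        apply hstop _ K
        · intro n hn
          rw [map_smul, h.coef_P, hzc n]
          simp [hn]
        · intro n hn
          rw [map_smul, h.Sup_P K z n hn, smul_zero]
        · have h2 : x + (1/2:ℝ) • P e c (Finset.range K) z
              = P e c (Finset.range K) (x + (1/2:ℝ) • z) := by
            have hxK : P e c (Finset.range K) x = x :=
              h.eq_P_of_Sup (fun n hn => hN n (hK.trans hn))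
            have hlin : P e c (Finset.range K) (x + (1/2:ℝ) • z)
                = P e c (Finset.range K) x + (1/2:ℝ) • P e c (Finset.range K) z := by
              simp only [P, map_add, map_smul, add_smul, Finset.sum_add_distrib, Finset.smul_sum,
                smul_assoc]
            rw [hlin, hxK]
          rw [h2]
          exact lt_of_le_of_lt (h.norm_P_le _ _) hxz
      rw [phi_smul] at h1
      have h2 : |(1/2:ℝ)| = 1/2 := by norm_num
      rw [h2] at h1
      have h3 := h.abs_le_phi F hf (P e c (Finset.range K) z)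
      linarith
    have hfz' : |f z| ≤ η/4 := by
      have h1 : Tendsto (fun K => |f (P e c (Finset.range K) z)|) atTop (𝓝 |f z|) :=
        ((f.continuous.tendsto z).comp (h.tendsto_P z)).abs
      apply le_of_tendsto h1
      filter_upwards [eventually_ge_atTop N] with K hK
      exact hfz K hK
    have hfw : |f w| ≤ η/4 := by
      refine (f.le_opNorm w).trans ?_
      calc ‖f‖ * ‖w‖ ≤ M * (δ * E) := mul_le_mul hfM hwn (norm_nonneg _) hM0
        _ ≤ η/4 := hδ2
    have h1 : f y - f x0 = (f x - f x0) + f w + f z := by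
      rw [hw, hz, map_sub, map_sub]; ring
    rw [h1]
    have h2 := abs_add_le ((f x - f x0) + f w) (f z)
    have h3 := abs_add_le (f x - f x0) (f w)
    have h4 := hx3 f hf
    linarith
  -- rational approximation
  obtain ⟨k, hk⟩ := exists_nat_one_div_lt (show (0:ℝ) < δ/2 by linarith)
  have hq : ∀ n, ∃ q : ℚ, |(q:ℝ) - c n x| < δ/2 := by
    intro n
    obtain ⟨q, hq1, hq2⟩ := exists_rat_btwn (show c n x - δ/2 < c n x + δ/2 by linarith)
    exact ⟨q, by rw [abs_lt]; constructor <;> linarith⟩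
  choose q hq using hq
  refine ⟨N, q, k, ⟨∑ n ∈ Finset.range N, (q n : ℝ) • e n, ?_, ?_⟩, ?_⟩
  · have h1 : ∑ n ∈ Finset.range N, (q n : ℝ) • e n
        = x + ∑ n ∈ Finset.range N, ((q n : ℝ) - c n x) • e n := by
      have hx' : ∑ n ∈ Finset.range N, c n x • e n = x := h.eq_P_of_Sup hN
      simp only [sub_smul, Finset.sum_sub_distrib]
      rw [hx']; abel
    rw [h1]
    have h2 := norm_add_le x (∑ n ∈ Finset.range N, ((q n : ℝ) - c n x) • e n)
    have h3 := norm_sum_range_le e N (fun n => (q n : ℝ) - c n x) δ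
      (fun n _ => (hq n).le.trans (by linarith))
    have h4 : δ * ∑ n ∈ Finset.range N, ‖e n‖ ≤ δ * E :=
      mul_le_mul_of_nonneg_left (by linarith) hδ0.le
    linarith
  · intro n hn
    rw [h.coef_sum]
    simp only [Finset.mem_range, hn, if_true, sub_self, abs_zero]
    positivity
  · intro y hy hyc f hf
    apply key y hy _ f hf
    intro n hn
    have h1 := hyc n hn
    have h2 := hq n
    have h3 : c n y - c n x = (c n y - q n) + (q n - c n x) := by ring
    rw [h3]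
    have h4 := abs_add_le (c n y - q n) ((q n : ℝ) - c n x)
    linarith

end Pool.Agent.Q195.PB
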