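import Pool.Agent.Q195.PB1

set_option autoImplicit false

namespace Pool.Agent.Q195.PB

open Finset Filter Topology

lemma exists_UB (X : Type*) [NormedAddCommGroup X] [NormedSpace ℝ X] (e : ℕ → X)
    (hex : ∀ x : X, ∃! a : ℕ → ℝ, HasSum (fun n => a n • e n) x)
    (hu : ∀ (s : Finset ℕ) (a ε : ℕ → ℝ), (∀ n, ε n = 1 ∨ ε n = -1) →
          ‖∑ n ∈ s, (ε n * a n) • e n‖ ≤ ‖∑ n ∈ s, a n • e n‖) :
    ∃ c : ℕ → X →L[ℝ] ℝ, UB e c := by
  classical
  choose a ha hau using hex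
  have hadd : ∀ x y, a (x + y) = a x + a y := by
    intro x y
    symm
    apply hau
    have := (ha x).add (ha y)
    simpa [add_smul] using this
  have hsmul : ∀ (t : ℝ) x, a (t • x) = t • a x := by
    intro t x
    symm
    apply hau
    have := (ha x).const_smul t
    simpa [smul_smul] using this
  have hde : ∀ m, a (e m) = fun n => if n = m then 1 else 0 := by
    intro m
    symm
    apply hau
    have : HasSum (fun n => (if n = m then (1:ℝ) else 0) • e n) (∑ n ∈ ({m} : Finset ℕ), (if n = m then (1:ℝ) else 0) • e n) := by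
      apply hasSum_sum_of_ne_finset_zero
      intro n hn
      have : n ≠ m := by simpa using hn
      simp [this]
    simpa using this
  have hne : ∀ m, e m ≠ 0 := by
    intro m hm
    have h1 := hde m
    have h2 : a (e m) = 0 := by
      symm; apply hau; rw [hm]; simp
    rw [h2] at h1
    have := congrFun h1 m
    simp at this
  -- bound
  have hmono : ∀ (s : Finset ℕ) (b : ℕ → ℝ) (n : ℕ), n ∈ s →
      ‖b n • e n‖ ≤ ‖∑ m ∈ s, b m • e m‖ := by
    intro s b n hn
    have h1 := hu s b (fun m => if m = n then 1 else -1) (by intro m; by_cases h : m = n <;> simp [h])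
    have h2 : b n • e n = (1/2:ℝ) • ((∑ m ∈ s, b m • e m)
        + ∑ m ∈ s, ((if m = n then (1:ℝ) else -1) * b m) • e m) := by
      rw [← Finset.sum_add_distrib]
      rw [Finset.sum_eq_single n]
      · simp only [if_true, one_mul]; module
      · intro m _ hm
        simp only [hm, if_false]; module
      · intro h; exact absurd hn h
    rw [h2, norm_smul]
    have h3 := norm_add_le (∑ m ∈ s, b m • e m) (∑ m ∈ s, ((if m = n then (1:ℝ) else -1) * b m) • e m)
    have h4 : ‖(1/2:ℝ)‖ = 1/2 := by norm_num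
    rw [h4]; linarith
  have hbd : ∀ n x, ‖a x n • e n‖ ≤ ‖x‖ := by
    intro n x
    have h1 : Tendsto (fun s : Finset ℕ => ‖∑ m ∈ s, a x m • e m‖) atTop (𝓝 ‖x‖) :=
      (continuous_norm.tendsto x).comp (ha x)
    apply ge_of_tendsto h1
    filter_upwards [eventually_ge_atTop ({n} : Finset ℕ)] with s hs
    exact hmono s _ n (hs (Finset.mem_singleton_self n))
  let cl : ℕ → (X →ₗ[ℝ] ℝ) := fun n =>
    { toFun := fun x => a x n
      map_add' := fun x y => by rw [hadd]; rfl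
      map_smul' := fun t x => by rw [hsmul]; rfl }
  refine ⟨fun n => (cl n).mkContinuous (1/‖e n‖) ?_, ?_⟩
  · intro x
    have h1 := hbd n x
    rw [norm_smul] at h1
    have h2 : 0 < ‖e n‖ := norm_pos_iff.mpr (hne n)
    rw [div_mul_eq_mul_div, one_mul, le_div_iff₀ h2]
    exact h1
  · refine ⟨?_, ?_, hu⟩
    · intro x
      exact ha x
    · intro n m
      show a (e m) n = _
      rw [hde m]

lemma weak_nhd {X : Type*} [NormedAddCommGroup X] [NormedSpace ℝ X] (V : Set (WeakSpace ℝ X))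
    (hV : IsOpen V) (x0 : X) (hx0 : toWeakSpace ℝ X x0 ∈ V) :
    ∃ (F : Finset (X →L[ℝ] ℝ)) (η : ℝ), 0 < η ∧
      ∀ y : X, (∀ f ∈ F, |f y - f x0| < η) → toWeakSpace ℝ X y ∈ V := by
  classical
  obtain ⟨O, hO, rfl⟩ := isOpen_induced_iff.mp hV
  rw [isOpen_pi_iff] at hO
  obtain ⟨I, u, hu, hsub⟩ := hO _ hx0
  -- each u f is open containing f x0
  have hball : ∀ f : (X →L[ℝ] ℝ), ∃ η : ℝ, 0 < η ∧ (f ∈ I → ∀ t : ℝ, |t - f x0| < η → t ∈ u f) := by
    intro f
    by_cases hf : f ∈ I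
    · obtain ⟨h1, h2⟩ := hu f hf
      obtain ⟨η, hη, hb⟩ := Metric.isOpen_iff.mp h1 _ h2
      refine ⟨η, hη, fun _ t ht => hb ?_⟩
      rw [Metric.mem_ball, Real.dist_eq]
      exact ht
    · exact ⟨1, one_pos, fun h => absurd h hf⟩
  choose η hη hη2 using hball
  by_cases hI : I.Nonempty
  · refine ⟨I, I.inf' hI η, ?_, ?_⟩
    · rw [Finset.lt_inf'_iff]; exact fun f _ => hη f
    · intro y hy
      apply hsub
      intro f hf
      exact hη2 f hf _ (lt_of_lt_of_le (hy f hf) (Finset.inf'_le η hf))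
  · refine ⟨∅, 1, one_pos, ?_⟩
    intro y _
    apply hsub
    intro f hf
    exact absurd ⟨f, hf⟩ hI

theorem final (X : Type) [NormedAddCommGroup X] [NormedSpace ℝ X] (e : ℕ → X)
    (hex : ∀ x : X, ∃! a : ℕ → ℝ, HasSum (fun n => a n • e n) x)
    (hu : ∀ (s : Finset ℕ) (a ε : ℕ → ℝ), (∀ n, ε n = 1 ∨ ε n = -1) →
          ‖∑ n ∈ s, (ε n * a n) • e n‖ ≤ ‖∑ n ∈ s, a n • e n‖) :
      ∃ U : ℕ → Set (WeakSpace ℝ X),
        (∀ n, IsOpen (U n) ∧
            (U n ∩ (toWeakSpace ℝ X) '' Metric.closedBall (0 : X) 1).Nonempty) ∧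
        ∀ V : Set (WeakSpace ℝ X), IsOpen V →
          (V ∩ (toWeakSpace ℝ X) '' Metric.closedBall (0 : X) 1).Nonempty →
            ∃ n, U n ∩ (toWeakSpace ℝ X) '' Metric.closedBall (0 : X) 1 ⊆ V := by
  classical
  obtain ⟨c, h⟩ := exists_UB X e hex hu
  let B : Set (WeakSpace ℝ X) := (toWeakSpace ℝ X) '' Metric.closedBall (0 : X) 1
  let U0 : (ℕ × (ℕ →₀ ℚ) × ℕ) → Set (WeakSpace ℝ X) := fun p =>
    {y | ∀ n < p.1, |c n ((toWeakSpace ℝ X).symm y) - p.2.1 n| < 1 / ((p.2.2:ℝ) + 1)}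
  have hopen : ∀ p, IsOpen (U0 p) := by
    intro p
    have : U0 p = ⋂ n ∈ Finset.range p.1,
        {y : WeakSpace ℝ X | |c n ((toWeakSpace ℝ X).symm y) - p.2.1 n| < 1 / ((p.2.2:ℝ) + 1)} := by
      ext y; simp [U0]
    rw [this]
    apply isOpen_biInter_finset
    intro n _
    have hc : Continuous (fun y : WeakSpace ℝ X => c n ((toWeakSpace ℝ X).symm y)) :=
      WeakBilin.eval_continuous (topDualPairing ℝ X).flip (c n)
    exact isOpen_lt ((hc.sub continuous_const).abs) continuous_const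
  let U1 : (ℕ × (ℕ →₀ ℚ) × ℕ) → Set (WeakSpace ℝ X) := fun p =>
    if (U0 p ∩ B).Nonempty then U0 p else Set.univ
  obtain ⟨g, hg⟩ := exists_surjective_nat (ℕ × (ℕ →₀ ℚ) × ℕ)
  refine ⟨fun n => U1 (g n), ?_, ?_⟩
  · intro n
    simp only [U1]
    split_ifs with hp
    · exact ⟨hopen _, hp⟩
    · exact ⟨isOpen_univ, ⟨toWeakSpace ℝ X 0, Set.mem_univ _, 0, by simp, rfl⟩⟩
  · rintro V hV ⟨_, hyV, x0, hx0, rfl⟩
    obtain ⟨F, η, hη, hF⟩ := weak_nhd V hV x0 hyV
    have hx0' : ‖x0‖ ≤ 1 := by simpa using hx0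
    obtain ⟨N, q, k, ⟨y, hy1, hy2⟩, hsub⟩ := h.main F hη x0 hx0'
    let q' : ℕ →₀ ℚ := Finsupp.onFinset (Finset.range N) (fun n => if n < N then q n else 0)
      (fun n hn => by
        by_contra hcon
        simp only [Finset.mem_range] at hcon
        simp [hcon] at hn)
    have hq' : ∀ n < N, q' n = q n := by
      intro n hn
      simp [q', hn]
    obtain ⟨m, hm⟩ := hg (N, q', k)
    refine ⟨m, ?_⟩
    have hne : (U0 (N, q', k) ∩ B).Nonempty := by
      refine ⟨toWeakSpace ℝ X y, ?_, y, by simpa using hy1, rfl⟩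
      intro n hn
      show |c n ((toWeakSpace ℝ X).symm (toWeakSpace ℝ X y)) - q' n| < 1 / ((k:ℝ) + 1)
      rw [LinearEquiv.symm_apply_apply, hq' n hn]
      exact hy2 n hn
    have hU : U1 (g m) = U0 (N, q', k) := by
      rw [hm]; simp only [U1]; rw [if_pos hne]
    rintro _ ⟨hyU, y, hyB, rfl⟩
    simp only [hU] at hyU
    apply hF
    apply hsub y (by simpa using hyB)
    intro n hn
    have h1 := hyU n hn
    rw [LinearEquiv.symm_apply_apply] at h1
    rw [← hq' n hn]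
    exact h1

end Pool.Agent.Q195.PB
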