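import Pool.Agent.Q195.FS1

set_option autoImplicit false

namespace Pool.Agent.Q195.PG

open Filter Topology Pool.Agent.Q195.FS

section defs
variable {𝕜 : Type} [RCLike 𝕜] {X : Type} [NormedAddCommGroup X] [NormedSpace 𝕜 X]

/-- Schauder basis, semi-normalized together with its functionals -/
structure IsSchauder (x : ℕ → X) (xs : ℕ → X →L[𝕜] 𝕜) : Prop where
  biorth : ∀ i j, xs i (x j) = if i = j then 1 else 0
  dense : (Submodule.span 𝕜 (Set.range x)).topologicalClosure = ⊤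
  total : ∀ z, (∀ i, xs i z = 0) → z = 0
  bounded : ∃ C : ℝ, ∀ i, ‖x i‖ ≤ C ∧ ‖xs i‖ ≤ C
  partialSums : ∃ C : ℝ, ∀ m z, ‖∑ i ∈ Finset.range m, xs i z • x i‖ ≤ C * ‖z‖

/-- greedy set -/
def IsGreedy (xs : ℕ → X →L[𝕜] 𝕜) (z : X) (G : Finset ℕ) : Prop :=
  ∀ i ∈ G, ∀ j ∉ G, ‖xs j z‖ ≤ ‖xs i z‖

/-- `n`-quasi-greedy -/
def QG (n : ℕ → ℕ) (x : ℕ → X) (xs : ℕ → X →L[𝕜] 𝕜) : Prop :=
  ∃ C : ℝ, ∀ (z : X) (k : ℕ) (G : Finset ℕ), G.card = n k → IsGreedy xs z G →
    ‖∑ i ∈ G, xs i z • x i‖ ≤ C * ‖z‖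

/-- `n`-partially greedy -/
def PartGreedy (n : ℕ → ℕ) (x : ℕ → X) (xs : ℕ → X →L[𝕜] 𝕜) : Prop :=
  ∃ C : ℝ, ∀ (z : X) (k : ℕ) (G : Finset ℕ), G.card = n k → IsGreedy xs z G →
    ‖z - ∑ i ∈ G, xs i z • x i‖ ≤ C * ‖z - ∑ i ∈ Finset.range (n k), xs i z • x i‖

/-- `n`-order-conservative -/
def OC (n : ℕ → ℕ) (x : ℕ → X) : Prop :=
  ∃ C : ℝ, ∀ (k : ℕ) (A B : Finset ℕ), A.card = B.card → (∀ i ∈ A, i < n k) →
    (∀ i ∈ B, n k ≤ i) → ‖∑ i ∈ A, x i‖ ≤ C * ‖∑ i ∈ B, x i‖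

end defs

/-- the sequence with gaps -/
def nn : ℕ → ℕ
  | 0 => 2
  | k + 1 => nn k ^ 4

lemma nn_succ (k : ℕ) : nn (k + 1) = nn k ^ 4 := rfl

lemma nn_ge (k : ℕ) : k + 2 ≤ nn k := by
  induction k with
  | zero => simp [nn]
  | succ k ih =>
    rw [nn_succ]
    have h : nn k * nn k ≤ nn k ^ 4 := by
      rw [← pow_two]; exact Nat.pow_le_pow_right (by omega) (by norm_num)
    nlinarith

lemma nn_strictMono : StrictMono nn := by
  refine strictMono_nat_of_lt_succ fun k => ?_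
  rw [nn_succ]
  have h0 := nn_ge k
  calc nn k = nn k ^ 1 := (pow_one _).symm
    _ < nn k ^ 4 := Nat.pow_lt_pow_right (by omega) (by norm_num)

/-- block sizes -/
def ss (k : ℕ) : ℕ := nn k ^ 2

lemma ss_sq (k : ℕ) : ss k ^ 2 = nn (k + 1) := by
  unfold ss; rw [nn_succ, ← pow_mul]

lemma ss_le (k : ℕ) : ss k ≤ nn (k + 1) := by
  unfold ss; rw [nn_succ]
  exact Nat.pow_le_pow_right (by have := nn_ge k; omega) (by norm_num)

lemma nn_even (k : ℕ) : Even (nn k) := by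
  induction k with
  | zero => decide
  | succ k ih => rw [nn_succ]; exact ih.pow_of_ne_zero (by norm_num)

/-- membership in the `k`-th block -/
def inJ (k i : ℕ) : Prop := nn (k + 1) ≤ i ∧ i < nn (k + 1) + ss k

instance (k i : ℕ) : Decidable (inJ k i) := inferInstanceAs (Decidable (_ ∧ _))

lemma inJ_lt {k i : ℕ} (h : inJ k i) : i < nn (k + 2) := by
  have h1 := h.2
  have h2 := ss_le k
  have h3 : 2 * nn (k + 1) ≤ nn (k + 2) := by
    have h4 := nn_ge (k + 1)
    rw [nn_succ (k + 1)]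
    calc 2 * nn (k + 1) ≤ nn (k + 1) * nn (k + 1) := Nat.mul_le_mul_right _ (by omega)
      _ = nn (k + 1) ^ 2 := (pow_two _).symm
      _ ≤ nn (k + 1) ^ 4 := Nat.pow_le_pow_right (by omega) (by norm_num)
  omega

lemma inJ_unique {j k i : ℕ} (hj : inJ j i) (hk : inJ k i) : j = k := by
  have h1 := inJ_lt hj
  have h2 := inJ_lt hk
  have h3 : nn (k + 1) < nn (j + 2) := lt_of_le_of_lt hk.1 h1
  have h4 : nn (j + 1) < nn (k + 2) := lt_of_le_of_lt hj.1 h2
  rw [nn_strictMono.lt_iff_lt] at h3 h4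
  omega

variable {𝕜 : Type} [RCLike 𝕜]

/-- the norming functionals -/
def Fam (f : ℕ →₀ 𝕜) : Prop :=
  (∑ i ∈ f.support, ‖f i‖ ^ 2 ≤ 1) ∨
  (∃ k, f.support.card ≤ nn k ∧ (∀ i, f i ≠ 0 → nn (k + 1) ≤ i) ∧ ∀ i, ‖f i‖ ≤ 1) ∨
  (∃ k q, ∀ i, f i = if inJ k i ∧ i < q then 1 else 0)

lemma Fam.norm_le {f : ℕ →₀ 𝕜} (h : Fam f) (i : ℕ) : ‖f i‖ ≤ 1 := by
  rcases h with h | ⟨k, _, _, h⟩ | ⟨k, q, h⟩
  · by_cases hi : f i = 0
    · rw [hi, norm_zero]; norm_num
    · have h1 : ‖f i‖ ^ 2 ≤ ∑ i ∈ f.support, ‖f i‖ ^ 2 :=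
        Finset.single_le_sum (f := fun i => ‖f i‖ ^ 2) (fun _ _ => by positivity) (by simpa using hi)
      have h2 : ‖f i‖ ^ 2 ≤ 1 ^ 2 := by rw [one_pow]; exact h1.trans h
      exact le_of_sq_le_sq h2 (by norm_num) |> fun h => h
  · exact h i
  · rw [h i]; split_ifs <;> simp

lemma fam_single (i : ℕ) : Fam (Finsupp.single i (1 : 𝕜)) := by
  left
  rw [Finsupp.support_single i one_ne_zero, Finset.sum_singleton, Finsupp.single_eq_same]
  simp

/-- restriction of a functional to a set -/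
noncomputable def restr (f : ℕ →₀ 𝕜) (p : ℕ → Prop) [DecidablePred p] : ℕ →₀ 𝕜 := f.filter p

lemma restr_apply (f : ℕ →₀ 𝕜) (p : ℕ → Prop) [DecidablePred p] (i : ℕ) :
    restr f p i = if p i then f i else 0 := Finsupp.filter_apply p f i

lemma val_restr (f : ℕ →₀ 𝕜) (p : ℕ → Prop) [DecidablePred p] (a : ℕ → 𝕜) :
    val (restr f p) a = val f (fun i => if p i then a i else 0) := by
  rw [val_eq (restr f p) a f.support (fun i hi => by
    rw [restr_apply] at hi
    split_ifs at hi with h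
    · simpa using hi
    · exact absurd rfl hi)]
  unfold val
  refine Finset.sum_congr rfl fun i _ => ?_
  rw [restr_apply]
  by_cases h : p i
  · simp only [if_pos h]
  · simp only [if_neg h, zero_mul, mul_zero]

/-- the first two kinds of functionals -/
def Fam2 (f : ℕ →₀ 𝕜) : Prop :=
  (∑ i ∈ f.support, ‖f i‖ ^ 2 ≤ 1) ∨
  (∃ k, f.support.card ≤ nn k ∧ (∀ i, f i ≠ 0 → nn (k + 1) ≤ i) ∧ ∀ i, ‖f i‖ ≤ 1)

lemma Fam2.fam {f : ℕ →₀ 𝕜} (h : Fam2 f) : Fam f := by
  rcases h with h | h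
  · exact Or.inl h
  · exact Or.inr (Or.inl h)

/-- the first two kinds of functionals are stable under restriction -/
lemma fam_restr {f : ℕ →₀ 𝕜} (p : ℕ → Prop) [DecidablePred p] (h : Fam2 f) :
    Fam2 (restr f p) := by
  have hsub : (restr f p).support ⊆ f.support := by
    intro i hi
    rw [Finsupp.mem_support_iff, restr_apply] at hi
    rw [Finsupp.mem_support_iff]
    split_ifs at hi with h
    · exact hi
    · exact absurd rfl hi
  have hle : ∀ i, ‖restr f p i‖ ≤ ‖f i‖ := by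
    intro i; rw [restr_apply]; split_ifs <;> simp
  rcases h with h | ⟨k, h1, h2, h3⟩
  · left
    refine le_trans ?_ h
    refine (Finset.sum_le_sum_of_subset_of_nonneg hsub (fun i _ _ => by positivity)).trans ?_
    exact Finset.sum_le_sum fun i _ => pow_le_pow_left₀ (norm_nonneg _) (hle i) 2
  · right
    refine ⟨k, (Finset.card_le_card hsub).trans h1, fun i hi => ?_, fun i => (hle i).trans (h3 i)⟩
    apply h2
    rw [restr_apply] at hi
    split_ifs at hi with h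
    · exact hi
    · exact absurd rfl hi

/-- indicator functional -/
noncomputable def ind (𝕜 : Type) [RCLike 𝕜] (D : Finset ℕ) : ℕ →₀ 𝕜 :=
  Finsupp.indicator D (fun _ _ => (1 : 𝕜))

lemma ind_apply (D : Finset ℕ) (i : ℕ) : ind 𝕜 D i = if i ∈ D then 1 else 0 := by
  unfold ind
  rw [Finsupp.indicator_apply]
  split_ifs <;> rfl

lemma val_ind (D : Finset ℕ) (a : ℕ → 𝕜) : val (ind 𝕜 D) a = ∑ i ∈ D, a i := by
  rw [val_eq _ _ D (fun i hi => by
    rw [ind_apply] at hi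
    by_contra h
    exact hi (if_neg h))]
  exact Finset.sum_congr rfl fun i hi => by rw [ind_apply, if_pos hi, one_mul]

lemma ind_fam2 (D : Finset ℕ) (k : ℕ) (h1 : D.card ≤ nn k) (h2 : ∀ i ∈ D, nn (k + 1) ≤ i) :
    Fam2 (ind 𝕜 D) := by
  right
  have hm : ∀ i, ind 𝕜 D i ≠ 0 → i ∈ D := by
    intro i hi
    rw [ind_apply] at hi
    by_contra h
    exact hi (if_neg h)
  refine ⟨k, (Finset.card_le_card fun i hi => hm i (by simpa using hi)).trans h1,
    fun i hi => h2 i (hm i hi), fun i => ?_⟩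
  rw [ind_apply]; split_ifs <;> simp

/-- the summing functionals -/
noncomputable def Jset (k q : ℕ) : Finset ℕ :=
  (Finset.range (nn (k + 1) + ss k)).filter (fun i => inJ k i ∧ i < q)

lemma mem_Jset {k q i : ℕ} : i ∈ Jset k q ↔ inJ k i ∧ i < q := by
  unfold Jset
  rw [Finset.mem_filter, Finset.mem_range]
  exact ⟨fun h => h.2, fun h => ⟨h.1.2, h⟩⟩

lemma ind_J_fam (k q : ℕ) : Fam (ind 𝕜 (Jset k q)) := by
  right; right
  refine ⟨k, q, fun i => ?_⟩
  rw [ind_apply]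
  by_cases h : inJ k i ∧ i < q
  · rw [if_pos h, if_pos (mem_Jset.mpr h)]
  · rw [if_neg h, if_neg fun h' => h (mem_Jset.mp h')]

lemma fam_cases {f : ℕ →₀ 𝕜} (h : Fam f) : Fam2 f ∨ ∃ k q, f = ind 𝕜 (Jset k q) := by
  rcases h with h | h | ⟨k, q, h⟩
  · exact Or.inl (Or.inl h)
  · exact Or.inl (Or.inr h)
  · refine Or.inr ⟨k, q, ?_⟩
    ext i
    rw [h i, ind_apply]
    by_cases h : inJ k i ∧ i < q
    · rw [if_pos h, if_pos (mem_Jset.mpr h)]
    · rw [if_neg h, if_neg fun h' => h (mem_Jset.mp h')]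

lemma Jset_card (k q : ℕ) : (Jset k q).card ≤ ss k := by
  have h : Jset k q ⊆ Finset.Ico (nn (k + 1)) (nn (k + 1) + ss k) := by
    intro i hi
    rw [Finset.mem_Ico]
    exact (mem_Jset.mp hi).1
  have := Finset.card_le_card h
  rw [Nat.card_Ico] at this
  omega

/-- the space -/
structure Good (X : Type) [NormedAddCommGroup X] [NormedSpace 𝕜 X] (x : ℕ → X)
    (xs : ℕ → X →L[𝕜] 𝕜) : Prop where
  bi : ∀ i j, xs i (x j) = if i = j then 1 else 0
  dn : (Submodule.span 𝕜 (Set.range x)).topologicalClosure = ⊤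
  le : ∀ z (f : ℕ →₀ 𝕜), Fam f → ‖val f (fun i => xs i z)‖ ≤ ‖z‖
  ge : ∀ z C, 0 ≤ C → (∀ f : ℕ →₀ 𝕜, Fam f → ‖val f (fun i => xs i z)‖ ≤ C) → ‖z‖ ≤ C

variable {X : Type} [NormedAddCommGroup X] [NormedSpace 𝕜 X] {x : ℕ → X} {xs : ℕ → X →L[𝕜] 𝕜}

lemma Good.coef (h : Good X x xs) (D : Finset ℕ) (c : ℕ → 𝕜) (i : ℕ) :
    xs i (∑ j ∈ D, c j • x j) = if i ∈ D then c i else 0 := by
  rw [map_sum]
  simp only [map_smul, h.bi, smul_eq_mul, mul_ite, mul_one, mul_zero]
  rw [Finset.sum_ite_eq]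

lemma Good.coef1 (h : Good X x xs) (D : Finset ℕ) (i : ℕ) :
    xs i (∑ j ∈ D, x j) = if i ∈ D then 1 else 0 := by
  have := h.coef D (fun _ => 1) i
  simpa using this

/-- the `ℓ₂` estimate -/
lemma Good.l2 (h : Good X x xs) (z : X) (D : Finset ℕ) :
    ∑ i ∈ D, ‖xs i z‖ ^ 2 ≤ ‖z‖ ^ 2 := by
  set T := √(∑ i ∈ D, ‖xs i z‖ ^ 2) with hT
  have hT2 : T ^ 2 = ∑ i ∈ D, ‖xs i z‖ ^ 2 :=
    Real.sq_sqrt (Finset.sum_nonneg fun _ _ => by positivity)
  rcases (Real.sqrt_nonneg (∑ i ∈ D, ‖xs i z‖ ^ 2)).eq_or_lt with h0 | hpos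
  · rw [← hT2, hT, ← h0, zero_pow two_ne_zero]; positivity
  rw [← hT] at hpos
  let f : ℕ →₀ 𝕜 := Finsupp.indicator D (fun i _ => ((T⁻¹ : ℝ) : 𝕜) * (starRingEnd 𝕜) (xs i z))
  have hf : ∀ i, f i = if i ∈ D then ((T⁻¹ : ℝ) : 𝕜) * (starRingEnd 𝕜) (xs i z) else 0 := by
    intro i
    show Finsupp.indicator D (fun i _ => ((T⁻¹ : ℝ) : 𝕜) * (starRingEnd 𝕜) (xs i z)) i = _
    rw [Finsupp.indicator_apply]
    split_ifs <;> rfl
  have hsupp : ∀ i, f i ≠ 0 → i ∈ D := by
    intro i hi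
    by_contra hc
    exact hi (by rw [hf, if_neg hc])
  have hF : Fam f := by
    left
    have h1 : ∑ i ∈ f.support, ‖f i‖ ^ 2 ≤ ∑ i ∈ D, ‖f i‖ ^ 2 :=
      Finset.sum_le_sum_of_subset_of_nonneg (fun i hi => hsupp i (by simpa using hi))
        fun _ _ _ => by positivity
    refine h1.trans (le_of_eq ?_)
    have h2 : ∀ i ∈ D, ‖f i‖ ^ 2 = (T⁻¹) ^ 2 * ‖xs i z‖ ^ 2 := by
      intro i hi
      rw [hf, if_pos hi, norm_mul, RCLike.norm_conj, RCLike.norm_ofReal,
        abs_of_pos (inv_pos.mpr hpos), mul_pow]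
    rw [Finset.sum_congr rfl h2, ← Finset.mul_sum, ← hT2, ← mul_pow, inv_mul_cancel₀ hpos.ne',
      one_pow]
  have h1 := h.le z f hF
  have h2 : val f (fun i => xs i z) = ((T : ℝ) : 𝕜) := by
    rw [val_eq f _ D hsupp]
    have h3 : ∀ i ∈ D, f i * xs i z = (((T⁻¹ * ‖xs i z‖ ^ 2 : ℝ)) : 𝕜) := by
      intro i hi
      rw [hf, if_pos hi, mul_assoc, RCLike.conj_mul]
      push_cast; ring
    rw [Finset.sum_congr rfl h3, ← RCLike.ofReal_sum, ← Finset.mul_sum, ← hT2]
    congr 1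
    field_simp
  rw [h2, RCLike.norm_ofReal, abs_of_pos hpos] at h1
  rw [← hT2]
  exact pow_le_pow_left₀ hpos.le h1 2

lemma Good.norm_x (h : Good X x xs) (i : ℕ) : ‖x i‖ ≤ 1 := by
  refine h.ge _ 1 (by norm_num) fun f hf => ?_
  have : val f (fun j => xs j (x i)) = f i := by
    simp only [h.bi]
    unfold val
    simp only [mul_ite, mul_one, mul_zero]
    rw [Finset.sum_ite_eq']
    split_ifs with h'
    · rfl
    · exact (by simpa using h' : f i = 0).symm
  rw [this]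
  exact hf.norm_le i

lemma Good.coord (h : Good X x xs) (i : ℕ) (z : X) : ‖xs i z‖ ≤ ‖z‖ := by
  have := h.le z _ (fam_single i)
  rwa [val_single] at this

lemma Good.schauder (h : Good X x xs) : IsSchauder x xs where
  biorth := h.bi
  dense := h.dn
  total := by
    intro z hz
    have : ‖z‖ ≤ 0 := h.ge z 0 le_rfl fun f _ => by
      simp only [hz]; unfold val; simp
    exact norm_le_zero_iff.mp this
  bounded := ⟨1, fun i => ⟨h.norm_x i, ContinuousLinearMap.opNorm_le_bound _ (by norm_num)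
    fun z => by rw [one_mul]; exact h.coord i z⟩⟩
  partialSums := by
    refine ⟨1, fun m z => ?_⟩
    rw [one_mul]
    refine h.ge _ _ (norm_nonneg _) fun f hf => ?_
    simp only [h.coef]
    have e1 : val f (fun i => if i ∈ Finset.range m then xs i z else 0) =
        val (restr f (fun i => i ∈ Finset.range m)) (fun i => xs i z) := (val_restr _ _ _).symm
    rw [e1]
    refine h.le z _ ?_
    rcases fam_cases hf with hf | ⟨k, q, rfl⟩
    · exact (fam_restr _ hf).fam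
    · right; right
      refine ⟨k, min q m, fun i => ?_⟩
      rw [restr_apply, ind_apply]
      by_cases h1 : inJ k i <;> by_cases h2 : i < q <;> by_cases h3 : i < m <;>
        simp [mem_Jset, h1, h2, h3]

lemma Good.qg (h : Good X x xs) : QG nn x xs := by
  classical
  refine ⟨2, fun z k G hcard hG => ?_⟩
  have hz0 := norm_nonneg z
  refine h.ge _ _ (by positivity) fun f hf => ?_
  simp only [h.coef]
  rcases fam_cases hf with hf | ⟨j, q, rfl⟩
  · have e1 : val f (fun i => if i ∈ G then xs i z else 0) =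
        val (restr f (fun i => i ∈ G)) (fun i => xs i z) := (val_restr _ _ _).symm
    rw [e1]
    have := h.le z _ (fam_restr (fun i => i ∈ G) hf).fam
    linarith
  · rw [val_ind, ← Finset.sum_filter]
    rcases le_or_gt k j with hkj | hkj
    · have hF : Fam2 (ind 𝕜 ((Jset j q).filter (fun i => i ∈ G))) := by
        refine ind_fam2 _ j ?_ ?_
        · have h1 : (Jset j q).filter (fun i => i ∈ G) ⊆ G := fun i hi =>
            (Finset.mem_filter.mp hi).2
          refine (Finset.card_le_card h1).trans ?_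
          rw [hcard]
          exact nn_strictMono.monotone hkj
        · intro i hi
          exact (mem_Jset.mp (Finset.mem_filter.mp hi).1).1.1
      have := h.le z _ hF.fam
      rw [val_ind] at this
      linarith
    · have e1 : ∑ i ∈ (Jset j q).filter (fun i => i ∈ G), xs i z =
          ∑ i ∈ Jset j q, xs i z - ∑ i ∈ (Jset j q).filter (fun i => ¬ i ∈ G), xs i z := by
        rw [← Finset.sum_filter_add_sum_filter_not (Jset j q) (fun i => i ∈ G)]; ring
      rw [e1]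
      have h1 : ‖∑ i ∈ Jset j q, xs i z‖ ≤ ‖z‖ := by
        have := h.le z _ (ind_J_fam j q)
        rwa [val_ind] at this
      -- the least coefficient of the greedy set
      have hGne : G.Nonempty := by
        rw [← Finset.card_pos, hcard]; have := nn_ge k; omega
      obtain ⟨i0, hi0, hmin⟩ := Finset.exists_min_image G (fun i => ‖xs i z‖) hGne
      set μ := ‖xs i0 z‖ with hμ
      have hμ0 : 0 ≤ μ := norm_nonneg _
      have h2 : (nn k : ℝ) * μ ^ 2 ≤ ‖z‖ ^ 2 := by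
        refine le_trans ?_ (h.l2 z G)
        have : ∑ i ∈ G, μ ^ 2 ≤ ∑ i ∈ G, ‖xs i z‖ ^ 2 :=
          Finset.sum_le_sum fun i hi => pow_le_pow_left₀ hμ0 (hmin i hi) 2
        rwa [Finset.sum_const, hcard, nsmul_eq_mul] at this
      have h3 : ((ss j : ℝ) * μ) ^ 2 ≤ ‖z‖ ^ 2 := by
        refine le_trans ?_ h2
        rw [mul_pow]
        refine mul_le_mul_of_nonneg_right ?_ (by positivity)
        have h4 : ss j ^ 2 ≤ nn k := by
          rw [ss_sq]; exact nn_strictMono.monotone hkj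
        exact_mod_cast h4
      have h4 : (ss j : ℝ) * μ ≤ ‖z‖ := by
        exact le_of_sq_le_sq h3 hz0 |> fun h => h
      have h5 : ‖∑ i ∈ (Jset j q).filter (fun i => ¬ i ∈ G), xs i z‖ ≤ ss j * μ := by
        refine (norm_sum_le _ _).trans ?_
        have h6 : ∀ i ∈ (Jset j q).filter (fun i => ¬ i ∈ G), ‖xs i z‖ ≤ μ := fun i hi =>
          hG i0 hi0 i (Finset.mem_filter.mp hi).2
        refine (Finset.sum_le_sum h6).trans ?_
        rw [Finset.sum_const, nsmul_eq_mul]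
        refine mul_le_mul_of_nonneg_right ?_ hμ0
        exact_mod_cast (Finset.card_le_card (Finset.filter_subset _ _)).trans (Jset_card j q)
      have h7 := norm_sub_le (∑ i ∈ Jset j q, xs i z)
        (∑ i ∈ (Jset j q).filter (fun i => ¬ i ∈ G), xs i z)
      linarith

/-- values of functionals on indicator vectors -/
lemma val_ite (f : ℕ →₀ 𝕜) (A : Finset ℕ) [DecidablePred (· ∈ A)] :
    val f (fun i => if i ∈ A then 1 else 0) = ∑ i ∈ f.support.filter (fun i => i ∈ A), f i := by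
  unfold val
  simp only [mul_ite, mul_one, mul_zero]
  rw [Finset.sum_filter]

lemma Good.oc (h : Good X x xs) : OC nn x := by
  classical
  refine ⟨1, fun k A B hAB hA hB => ?_⟩
  rw [one_mul]
  refine h.ge _ _ (norm_nonneg _) fun f hf => ?_
  simp only [h.coef1]
  have hl2 : (A.card : ℝ) ≤ ‖∑ i ∈ B, x i‖ ^ 2 := by
    have h1 := h.l2 (∑ i ∈ B, x i) B
    have h2 : ∑ i ∈ B, ‖xs i (∑ i ∈ B, x i)‖ ^ 2 = B.card := by
      have : ∀ i ∈ B, ‖xs i (∑ i ∈ B, x i)‖ ^ 2 = 1 := by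
        intro i hi; rw [h.coef1, if_pos hi]; simp
      rw [Finset.sum_congr rfl this]; simp
    rw [h2, ← hAB] at h1
    exact h1
  -- sets beyond `nn k`
  have hBig : ∀ (m l : ℕ), l + 1 = k → m ≤ nn l → m ≤ A.card → (m : ℝ) ≤ ‖∑ i ∈ B, x i‖ := by
    intro m l hl hm hmA
    rw [hAB] at hmA
    obtain ⟨B', hB', hcard⟩ := Finset.exists_subset_card_eq hmA
    have hF : Fam2 (ind 𝕜 B') := by
      refine ind_fam2 _ l (by rw [hcard]; exact hm) fun i hi => ?_
      rw [hl]; exact hB i (hB' hi)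
    have h1 := h.le (∑ i ∈ B, x i) _ hF.fam
    rw [val_ind] at h1
    have h2 : ∑ i ∈ B', xs i (∑ i ∈ B, x i) = (m : 𝕜) := by
      have : ∀ i ∈ B', xs i (∑ i ∈ B, x i) = 1 := by
        intro i hi; rw [h.coef1, if_pos (hB' hi)]
      rw [Finset.sum_congr rfl this]; simp [hcard]
    rw [h2, RCLike.norm_natCast] at h1
    exact h1
  rw [val_ite]
  set S := f.support.filter (fun i => i ∈ A) with hS
  have hSA : S.card ≤ A.card := Finset.card_le_card fun i hi => (Finset.mem_filter.mp hi).2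
  rcases S.eq_empty_or_nonempty with hSe | ⟨i1, hi1⟩
  · rw [hSe]; simp
  have hi1A : i1 ∈ A := (Finset.mem_filter.mp hi1).2
  have hi1f : f i1 ≠ 0 := by
    have := (Finset.mem_filter.mp hi1).1
    simpa using this
  have hsum1 : ‖∑ i ∈ S, f i‖ ≤ S.card := by
    refine (norm_sum_le _ _).trans ?_
    refine (Finset.sum_le_sum fun i _ => hf.norm_le i).trans ?_
    simp
  rcases hf with hf | ⟨j, h1, h2, h3⟩ | ⟨j, q, h1⟩
  · -- Cauchy-Schwarz
    have h1 : ‖∑ i ∈ S, f i‖ ^ 2 ≤ ‖∑ i ∈ B, x i‖ ^ 2 := by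
      refine le_trans ?_ hl2
      have h2 : (∑ i ∈ S, ‖f i‖) ^ 2 ≤ S.card * ∑ i ∈ S, ‖f i‖ ^ 2 := sq_sum_le_card_mul_sum_sq
      have h3 : ∑ i ∈ S, ‖f i‖ ^ 2 ≤ 1 := by
        refine le_trans (Finset.sum_le_sum_of_subset_of_nonneg (Finset.filter_subset _ _)
          fun _ _ _ => by positivity) hf
      have h4 : ‖∑ i ∈ S, f i‖ ^ 2 ≤ (∑ i ∈ S, ‖f i‖) ^ 2 :=
        pow_le_pow_left₀ (norm_nonneg _) (norm_sum_le _ _) 2
      have h5 : (S.card : ℝ) ≤ A.card := by exact_mod_cast hSA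
      have h6 : (0 : ℝ) ≤ S.card := Nat.cast_nonneg _
      nlinarith
    exact le_of_sq_le_sq h1 (norm_nonneg _) |> fun h => h
  · have hjk : j + 1 < k := by
      have := lt_of_le_of_lt (h2 i1 hi1f) (hA i1 hi1A)
      rwa [nn_strictMono.lt_iff_lt] at this
    refine hsum1.trans (hBig S.card (k - 1) (by omega) ?_ hSA)
    refine (Finset.card_le_card (Finset.filter_subset _ _)).trans (h1.trans ?_)
    exact nn_strictMono.monotone (by omega)
  · have hin : inJ j i1 := by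
      by_contra hc
      exact hi1f (by rw [h1, if_neg fun h => hc h.1])
    have hjk : j + 1 < k := by
      have := lt_of_le_of_lt hin.1 (hA i1 hi1A)
      rwa [nn_strictMono.lt_iff_lt] at this
    refine hsum1.trans (hBig S.card (k - 1) (by omega) ?_ hSA)
    have h2 : S ⊆ Jset j q := by
      intro i hi
      have : f i ≠ 0 := by
        have := (Finset.mem_filter.mp hi).1
        simpa using this
      rw [mem_Jset]
      by_contra hc
      exact this (by rw [h1, if_neg hc])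
    refine (Finset.card_le_card h2).trans ((Jset_card j q).trans ((ss_le j).trans ?_))
    exact nn_strictMono.monotone (by omega)

end Pool.Agent.Q195.PG
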