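import Pool.Agent.Q195.PG1

set_option autoImplicit false

namespace Pool.Agent.Q195.PG

open Filter Topology Pool.Agent.Q195.FS

variable {𝕜 : Type} [RCLike 𝕜]
variable {X : Type} [NormedAddCommGroup X] [NormedSpace 𝕜 X] {x : ℕ → X} {xs : ℕ → X →L[𝕜] 𝕜}

/-- alternating sums over intervals starting at an even number -/
lemma alt_sum (N m : ℕ) (hN : Even N) :
    ‖∑ i ∈ Finset.Ico N m, (-1 : 𝕜) ^ i‖ ≤ 1 := by
  rcases le_or_gt m N with h | h
  · rw [Finset.Ico_eq_empty_of_le h]; simp
  rw [Finset.sum_Ico_eq_sum_range]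
  have : ∀ i ∈ Finset.range (m - N), (-1 : 𝕜) ^ (N + i) = (-1) ^ i := by
    intro i _
    rw [pow_add, hN.neg_one_pow, one_mul]
  rw [Finset.sum_congr rfl this, neg_one_geom_sum]
  split_ifs <;> simp

lemma not_pg (h : Good X x xs) : ¬ PartGreedy nn x xs := by
  classical
  rintro ⟨C, hC⟩
  -- choose `k` large
  obtain ⟨k, hk⟩ := exists_nat_gt (2 * C)
  set N := nn (k + 1) with hN
  have hNe : Even N := nn_even _
  obtain ⟨s2, hs2⟩ : ∃ s2, ss k = 2 * s2 := by
    have : Even (ss k) := (nn_even k).pow_of_ne_zero (by norm_num)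
    obtain ⟨r, hr⟩ := this
    exact ⟨r, by rw [hr]; ring⟩
  have hsN : ss k ≤ N := ss_le k
  set J := Finset.Ico N (N + ss k) with hJ
  set E := (Finset.range s2).image (fun t => N + 2 * t) with hE
  set O := (Finset.range s2).image (fun t => N + 2 * t + 1) with hO
  set D := Finset.range (N - s2) with hD
  have hmemE : ∀ i, i ∈ E ↔ i ∈ J ∧ Even i := by
    intro i
    obtain ⟨r, hr⟩ := hNe
    rw [hE, hJ, Finset.mem_image, Finset.mem_Ico]
    constructor
    · rintro ⟨t, ht, rfl⟩
      rw [Finset.mem_range] at ht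
      exact ⟨by omega, ⟨r + t, by omega⟩⟩
    · rintro ⟨h1, ⟨u, hu⟩⟩
      exact ⟨u - r, by rw [Finset.mem_range]; omega, by omega⟩
  have hmemO : ∀ i, i ∈ O ↔ i ∈ J ∧ ¬ Even i := by
    intro i
    obtain ⟨r, hr⟩ := hNe
    rw [hO, hJ, Finset.mem_image, Finset.mem_Ico, Nat.not_even_iff_odd]
    constructor
    · rintro ⟨t, ht, rfl⟩
      rw [Finset.mem_range] at ht
      exact ⟨by omega, ⟨r + t, by omega⟩⟩
    · rintro ⟨h1, ⟨u, hu⟩⟩
      exact ⟨u - r, by rw [Finset.mem_range]; omega, by omega⟩
  have hEcard : E.card = s2 := by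
    rw [hE, Finset.card_image_of_injective _ (fun a b h => by
      have h' : N + 2 * a = N + 2 * b := h
      omega), Finset.card_range]
  have hOcard : O.card = s2 := by
    rw [hO, Finset.card_image_of_injective _ (fun a b h => by
      have h' : N + 2 * a + 1 = N + 2 * b + 1 := h
      omega), Finset.card_range]
  have hDO : Disjoint D O := by
    rw [Finset.disjoint_left]
    intro i h1 h2
    rw [hD, Finset.mem_range] at h1
    have := ((hmemO i).mp h2).1
    rw [hJ, Finset.mem_Ico] at this
    omega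
  -- the coefficients of the vector
  let c : ℕ → 𝕜 := fun i => if i ∈ J then (-1) ^ i else 1
  set z : X := ∑ i ∈ D ∪ J, c i • x i with hz
  have hcz : ∀ i, xs i z = if i ∈ D ∪ J then c i else 0 := fun i => h.coef _ _ _
  have hcn : ∀ i, ‖c i‖ = 1 := by
    intro i; simp only [c]; split_ifs <;> simp
  set G := D ∪ O with hG
  have hGcard : G.card = nn (k + 1) := by
    rw [hG, Finset.card_union_of_disjoint hDO, hOcard, hD, Finset.card_range]
    omega
  have hGsub : G ⊆ D ∪ J := by
    intro i hi
    rcases Finset.mem_union.mp hi with h1 | h1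
    · exact Finset.mem_union_left _ h1
    · exact Finset.mem_union_right _ ((hmemO i).mp h1).1
  have hgr : IsGreedy xs z G := by
    intro i hi j _
    rw [hcz, hcz, if_pos (hGsub hi), hcn]
    split_ifs
    · rw [hcn]
    · simp
  have key := hC z (k + 1) G hGcard hgr
  -- the left-hand side
  have hleft : (s2 : ℝ) ≤ ‖z - ∑ i ∈ G, xs i z • x i‖ := by
    have h1 := h.le (z - ∑ i ∈ G, xs i z • x i) _ (ind_J_fam k (N + ss k))
    rw [val_ind] at h1
    have h2 : ∑ i ∈ Jset k (N + ss k), xs i (z - ∑ i ∈ G, xs i z • x i) = (s2 : 𝕜) := by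
      have h3 : ∀ i ∈ Jset k (N + ss k), xs i (z - ∑ i ∈ G, xs i z • x i) =
          if i ∈ E then 1 else 0 := by
        intro i hi
        have hiJ : i ∈ J := by rw [hJ, Finset.mem_Ico]; exact (mem_Jset.mp hi).1
        have hiD : i ∉ D := by
          rw [hD, Finset.mem_range]; rw [hJ, Finset.mem_Ico] at hiJ; omega
        rw [map_sub, h.coef G (fun i => xs i z) i]
        rw [hcz, if_pos (Finset.mem_union_right _ hiJ)]
        by_cases he : Even i
        · have h4 : i ∈ E := (hmemE i).mpr ⟨hiJ, he⟩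
          have h5 : i ∉ G := by
            rw [hG, Finset.mem_union]
            rintro (h6 | h6)
            · exact hiD h6
            · exact ((hmemO i).mp h6).2 he
          rw [if_neg h5, if_pos h4, sub_zero]
          simp only [c, if_pos hiJ, he.neg_one_pow]
        · have h4 : i ∉ E := fun h6 => he ((hmemE i).mp h6).2
          have h5 : i ∈ G := Finset.mem_union_right _ ((hmemO i).mpr ⟨hiJ, he⟩)
          rw [if_pos h5, if_neg h4, sub_self]
      rw [Finset.sum_congr rfl h3, ← Finset.sum_filter, Finset.sum_const]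
      have h4 : (Jset k (N + ss k)).filter (fun i => i ∈ E) = E := by
        ext i
        rw [Finset.mem_filter, mem_Jset]
        constructor
        · exact fun h => h.2
        · intro hi
          have := ((hmemE i).mp hi).1
          rw [hJ, Finset.mem_Ico] at this
          exact ⟨⟨this, this.2⟩, hi⟩
      rw [h4, hEcard]; simp
    rw [h2, RCLike.norm_natCast] at h1
    exact h1
  -- the right-hand side
  have hright : ‖z - ∑ i ∈ Finset.range (nn (k + 1)), xs i z • x i‖ ≤ nn k := by
    have hnk1 : (1 : ℝ) ≤ nn k := by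
      have := nn_ge k
      exact_mod_cast (by omega : 1 ≤ nn k)
    have hco : ∀ i, xs i (z - ∑ i ∈ Finset.range (nn (k + 1)), xs i z • x i) =
        if i ∈ J then (-1) ^ i else 0 := by
      intro i
      rw [map_sub, h.coef _ (fun i => xs i z) i]
      rw [hcz, ← hN]
      rcases lt_or_ge i N with h1 | h1
      · have h2 : i ∉ J := by rw [hJ, Finset.mem_Ico]; omega
        rw [if_pos (Finset.mem_range.mpr h1), sub_self, if_neg h2]
      · have h3 : i ∉ D := by rw [hD, Finset.mem_range]; omega
        rw [if_neg (show i ∉ Finset.range N by rw [Finset.mem_range]; omega), sub_zero]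
        by_cases h2 : i ∈ J
        · rw [if_pos (Finset.mem_union_right _ h2), if_pos h2]
          simp only [c, if_pos h2]
        · rw [if_neg h2, if_neg]
          rw [Finset.mem_union]
          rintro (h4 | h4)
          · exact h3 h4
          · exact h2 h4
    refine h.ge _ _ (by positivity) fun f hf => ?_
    simp only [hco]
    -- reduce to a sum over `J`
    have hval : val f (fun i => if i ∈ J then (-1 : 𝕜) ^ i else 0) =
        ∑ i ∈ f.support.filter (fun i => i ∈ J), f i * (-1) ^ i := by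
      unfold val
      rw [Finset.sum_filter]
      refine Finset.sum_congr rfl fun i _ => ?_
      by_cases hi : i ∈ J
      · simp only [if_pos hi]
      · simp only [if_neg hi, mul_zero]
    have hcardJ : (J.card : ℝ) = (nn k : ℝ) ^ 2 := by
      rw [hJ, Nat.card_Ico, Nat.add_sub_cancel_left]
      unfold ss; push_cast; ring
    rcases hf with hf | ⟨j, h1, h2, h3⟩ | ⟨j, q, h1⟩
    · rw [hval]
      set S := f.support.filter (fun i => i ∈ J) with hS
      have hSJ : (S.card : ℝ) ≤ (nn k : ℝ) ^ 2 := by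
        rw [← hcardJ]
        exact_mod_cast Finset.card_le_card fun i hi => (Finset.mem_filter.mp hi).2
      have h1 : ‖∑ i ∈ S, f i * (-1) ^ i‖ ^ 2 ≤ (nn k : ℝ) ^ 2 := by
        refine le_trans ?_ hSJ
        have h2 : (∑ i ∈ S, ‖f i‖) ^ 2 ≤ S.card * ∑ i ∈ S, ‖f i‖ ^ 2 := sq_sum_le_card_mul_sum_sq
        have h3 : ∑ i ∈ S, ‖f i‖ ^ 2 ≤ 1 := by
          refine le_trans (Finset.sum_le_sum_of_subset_of_nonneg (Finset.filter_subset _ _)
            fun _ _ _ => by positivity) hf
        have h4 : ‖∑ i ∈ S, f i * (-1) ^ i‖ ^ 2 ≤ (∑ i ∈ S, ‖f i‖) ^ 2 := by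
          refine pow_le_pow_left₀ (norm_nonneg _) ((norm_sum_le _ _).trans (le_of_eq ?_)) 2
          refine Finset.sum_congr rfl fun i _ => ?_
          rw [norm_mul, norm_pow, norm_neg, norm_one, one_pow, mul_one]
        have h6 : (0 : ℝ) ≤ S.card := Nat.cast_nonneg _
        nlinarith
      exact le_of_sq_le_sq h1 (by positivity) |> fun h => h
    · rw [hval]
      rcases (f.support.filter (fun i => i ∈ J)).eq_empty_or_nonempty with hSe | ⟨i1, hi1⟩
      · rw [hSe]; simp
      have hj : j ≤ k := by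
        have h4 := (Finset.mem_filter.mp hi1).2
        rw [hJ, Finset.mem_Ico] at h4
        have h5 : inJ k i1 := h4
        have h6 := inJ_lt h5
        have h7 := h2 i1 (by have := (Finset.mem_filter.mp hi1).1; simpa using this)
        have h8 := lt_of_le_of_lt h7 h6
        rw [nn_strictMono.lt_iff_lt] at h8
        omega
      refine (norm_sum_le _ _).trans ?_
      have h4 : ∀ i ∈ f.support.filter (fun i => i ∈ J), ‖f i * (-1) ^ i‖ ≤ 1 := by
        intro i _
        rw [norm_mul, norm_pow, norm_neg, norm_one, one_pow, mul_one]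
        exact h3 i
      refine (Finset.sum_le_sum h4).trans ?_
      rw [Finset.sum_const, nsmul_eq_mul, mul_one]
      exact_mod_cast (Finset.card_le_card (Finset.filter_subset _ _)).trans
        (h1.trans (nn_strictMono.monotone hj))
    · refine le_trans ?_ hnk1
      have hf' : f = ind 𝕜 (Jset j q) := by
        ext i
        rw [h1 i, ind_apply]
        by_cases h : inJ j i ∧ i < q
        · rw [if_pos h, if_pos (mem_Jset.mpr h)]
        · rw [if_neg h, if_neg fun h' => h (mem_Jset.mp h')]
      rw [hf', val_ind, ← Finset.sum_filter]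
      by_cases hjk : j = k
      · subst hjk
        have : (Jset j q).filter (fun i => i ∈ J) = Finset.Ico N (min (N + ss j) q) := by
          ext i
          rw [Finset.mem_filter, mem_Jset, hJ, Finset.mem_Ico, Finset.mem_Ico]
          unfold inJ
          rw [← hN]
          omega
        rw [this]
        exact alt_sum N _ hNe
      · have : (Jset j q).filter (fun i => i ∈ J) = ∅ := by
          rw [Finset.filter_eq_empty_iff]
          intro i hi hiJ
          rw [hJ, Finset.mem_Ico] at hiJ
          exact hjk (inJ_unique (mem_Jset.mp hi).1 hiJ)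
        rw [this]; simp
  -- contradiction
  have hs2' : (2 : ℝ) * s2 = (nn k : ℝ) ^ 2 := by
    have : (2 * s2 : ℕ) = nn k ^ 2 := by rw [← hs2]; rfl
    exact_mod_cast this
  have hnk : (k : ℝ) + 2 ≤ nn k := by exact_mod_cast nn_ge k
  have hnk0 : (0 : ℝ) < nn k := by
    have : (0 : ℝ) ≤ k := Nat.cast_nonneg k
    linarith
  have hfin : (s2 : ℝ) ≤ C * ‖z - ∑ i ∈ Finset.range (nn (k + 1)), xs i z • x i‖ :=
    hleft.trans key
  have hC0 : 0 ≤ C := by
    by_contra hneg
    push Not at hneg
    have h1 : C * ‖z - ∑ i ∈ Finset.range (nn (k + 1)), xs i z • x i‖ ≤ 0 :=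
      mul_nonpos_of_nonpos_of_nonneg hneg.le (norm_nonneg _)
    nlinarith
  have h1 : (s2 : ℝ) ≤ C * nn k := hfin.trans (mul_le_mul_of_nonneg_left hright hC0)
  nlinarith

theorem main : ∃ (X : Type) (_ : NormedAddCommGroup X) (_ : NormedSpace 𝕜 X)
    (_ : CompleteSpace X) (x : ℕ → X) (xs : ℕ → X →L[𝕜] 𝕜),
    IsSchauder x xs ∧ QG nn x xs ∧ OC nn x ∧ ¬ PartGreedy nn x xs := by
  obtain ⟨X, i1, i2, i3, x, xs, h1, h2, h3, h4⟩ :=
    exists_space {f : ℕ →₀ 𝕜 // Fam f} (fun γ => γ.1) (fun _ => 1) (fun γ i => γ.2.norm_le i)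
      (fun i => ⟨⟨_, fam_single i⟩, rfl⟩)
  have hg : Good X x xs := ⟨h1, h2, fun z f hf => h3 z ⟨f, hf⟩,
    fun z C hC h => h4 z C hC fun γ => h γ.1 γ.2⟩
  exact ⟨X, i1, i2, i3, x, xs, hg.schauder, hg.qg, hg.oc, not_pg hg⟩

/-- the sequence has arbitrarily large gaps -/
lemma gaps (l : ℕ) : ∃ k, l * nn k < nn (k + 1) := by
  refine ⟨l, ?_⟩
  have h1 := nn_ge l
  rw [nn_succ]
  calc l * nn l < nn l * nn l := Nat.mul_lt_mul_of_pos_right (by omega) (by omega)
    _ = nn l ^ 2 := (pow_two _).symm
    _ ≤ nn l ^ 4 := Nat.pow_le_pow_right (by omega) (by norm_num)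

end Pool.Agent.Q195.PG
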