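import Mathlib

set_option autoImplicit false

namespace Pool.Agent.Q195.PN

open Finset Filter Topology
open scoped ENNReal

/-- weights -/
noncomputable def w (q : ℝ) (n : ℕ) : ℝ := ((n : ℝ) + 1) ^ (q - 1)

lemma w_pos (q : ℝ) (n : ℕ) : 0 < w q n := by unfold w; positivity

lemma w_anti {q : ℝ} (hq : q < 1) {m n : ℕ} (h : m ≤ n) : w q n ≤ w q m := by
  unfold w
  have : (m : ℝ) ≤ n := by exact_mod_cast h
  exact Real.rpow_le_rpow_of_nonpos (by positivity) (by linarith) (by linarith)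

lemma w_le_one {q : ℝ} (hq : q < 1) (n : ℕ) : w q n ≤ 1 := by
  refine (w_anti hq (Nat.zero_le n)).trans (le_of_eq ?_)
  unfold w; simp

/-- shifted weights -/
lemma w_shift {q : ℝ} (hq0 : 0 < q) (hq : q < 1) {K n : ℕ} (h : K ≤ n) :
    (1 / 2) * w q n ≤ w q (K + n) := by
  unfold w
  have hK : (K : ℝ) ≤ n := by exact_mod_cast h
  have h1 : ((2 : ℝ) * ((n : ℝ) + 1)) ^ (q - 1) ≤ (((K + n : ℕ) : ℝ) + 1) ^ (q - 1) := by
    refine Real.rpow_le_rpow_of_nonpos (by positivity) ?_ (by linarith)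
    push_cast; linarith
  refine le_trans ?_ h1
  rw [Real.mul_rpow (by norm_num) (by positivity)]
  refine mul_le_mul_of_nonneg_right ?_ (by positivity)
  rw [one_div, ← Real.rpow_neg_one 2]
  exact Real.rpow_le_rpow_of_exponent_le (by norm_num) (by linarith)

/-- the fundamental function -/
lemma sum_w {q : ℝ} (hq0 : 0 < q) (hq : q < 1) (B : Finset ℕ) :
    ∑ n ∈ B, w q n ≤ (B.card : ℝ) ^ q / q := by
  classical
  induction B using Finset.induction_on_max with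
  | empty => simp; positivity
  | insert a s ha ih =>
    have has : a ∉ s := fun h => lt_irrefl _ (ha a h)
    rw [Finset.sum_insert has, Finset.card_insert_of_notMem has]
    have hk : s.card ≤ a := by
      have : s ⊆ Finset.range a := fun i hi => Finset.mem_range.mpr (ha i hi)
      simpa using Finset.card_le_card this
    have h1 : w q a ≤ w q s.card := w_anti hq hk
    have h2 : (s.card : ℝ) ^ q ≤ ((s.card : ℝ) + 1) ^ q - q * ((s.card : ℝ) + 1) ^ (q - 1) := by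
      set k : ℝ := (s.card : ℝ) with hk'
      have hk0 : 0 ≤ k := Nat.cast_nonneg _
      have hk1 : 0 < k + 1 := by positivity
      have e1 : k = (k + 1) * (1 + -(1 / (k + 1))) := by
        rw [mul_add, mul_one, mul_neg, mul_one_div_cancel hk1.ne']; ring
      have e2 : (1 + -(1 / (k + 1))) ^ q ≤ 1 + q * -(1 / (k + 1)) := by
        refine rpow_one_add_le_one_add_mul_self ?_ hq0.le hq.le
        have : 1 / (k + 1) ≤ 1 := by rw [div_le_one hk1]; linarith
        linarith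
      have e3 : 0 ≤ 1 + -(1 / (k + 1)) := by
        have : 1 / (k + 1) ≤ 1 := by rw [div_le_one hk1]; linarith
        linarith
      calc k ^ q = ((k + 1) * (1 + -(1 / (k + 1)))) ^ q := by rw [← e1]
        _ = (k + 1) ^ q * (1 + -(1 / (k + 1))) ^ q := Real.mul_rpow hk1.le e3
        _ ≤ (k + 1) ^ q * (1 + q * -(1 / (k + 1))) :=
          mul_le_mul_of_nonneg_left e2 (Real.rpow_nonneg hk1.le _)
        _ = (k + 1) ^ q - q * ((k + 1) ^ q / (k + 1)) := by
          have : ∀ y z : ℝ, y * (1 + q * -(1 / z)) = y - q * (y / z) := by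
            intro y z; rw [one_div, div_eq_mul_inv]; ring
          exact this _ _
        _ = (k + 1) ^ q - q * (k + 1) ^ (q - 1) := by rw [Real.rpow_sub_one hk1.ne']
    have h3 : w q s.card = ((s.card : ℝ) + 1) ^ (q - 1) := rfl
    have h4 : (s.card : ℝ) ^ q / q + w q s.card ≤ ((s.card : ℝ) + 1) ^ q / q := by
      rw [h3, le_div_iff₀ hq0, add_mul, div_mul_cancel₀ _ hq0.ne']
      linarith
    push_cast
    linarith

/-- the calculus step in the `ℓ₁` bound -/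
lemma step {q : ℝ} (hq0 : 0 < q) (hq : q < 1) (B' b : ℝ) (hB' : 0 ≤ B') (hb : 0 ≤ b) (m : ℕ)
    (hm : ((m : ℝ) + 1) * b ≤ B' + b) : (B' + b) ^ q ≤ B' ^ q + b ^ q * w q m := by
  rcases hb.eq_or_lt with h | h
  · rw [← h, add_zero, Real.zero_rpow hq0.ne', zero_mul, add_zero]
  have hB : 0 < B' + b := by linarith
  have e1 : B' / (B' + b) ≤ (B' / (B' + b)) ^ q := by
    have h1 : 0 ≤ B' / (B' + b) := by positivity
    have h2 : B' / (B' + b) ≤ 1 := by rw [div_le_one hB]; linarith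
    calc B' / (B' + b) = (B' / (B' + b)) ^ (1 : ℝ) := (Real.rpow_one _).symm
      _ ≤ _ := Real.rpow_le_rpow_of_exponent_ge_of_imp h1 h2 hq.le
        (fun _ h => absurd h one_ne_zero)
  have e2 : B' ^ q = (B' + b) ^ q * (B' / (B' + b)) ^ q := by
    rw [← Real.mul_rpow hB.le (by positivity), mul_div_cancel₀ _ hB.ne']
  have e3 : (B' + b) ^ q - B' ^ q ≤ (B' + b) ^ (q - 1) * b := by
    rw [e2, Real.rpow_sub_one hB.ne']
    have h1 : (B' + b) ^ q * (B' / (B' + b)) ≤ (B' + b) ^ q * (B' / (B' + b)) ^ q :=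
      mul_le_mul_of_nonneg_left e1 (by positivity)
    have h2 : (B' + b) ^ q - (B' + b) ^ q * (B' / (B' + b)) = (B' + b) ^ q / (B' + b) * b := by
      field_simp; ring
    linarith
  have e4 : (B' + b) ^ (q - 1) ≤ (((m : ℝ) + 1) * b) ^ (q - 1) :=
    Real.rpow_le_rpow_of_nonpos (by positivity) hm (by linarith)
  have e5 : (((m : ℝ) + 1) * b) ^ (q - 1) * b = b ^ q * w q m := by
    unfold w
    rw [Real.mul_rpow (by positivity) hb, Real.rpow_sub_one h.ne' q]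
    field_simp
  have e6 := mul_le_mul_of_nonneg_right e4 hb
  linarith

section seq
variable {𝕜 : Type} [RCLike 𝕜]

/-- weighted sum of a finite piece of a sequence, with positions given by `τ` -/
noncomputable def V (q : ℝ) (D : Finset ℕ) (τ : ℕ → ℕ) (x : ℕ → 𝕜) : ℝ :=
  ∑ i ∈ D, ‖x i‖ ^ q * w q (τ i)

lemma V_nonneg (q : ℝ) (D : Finset ℕ) (τ : ℕ → ℕ) (x : ℕ → 𝕜) : 0 ≤ V q D τ x :=
  Finset.sum_nonneg fun _ _ => mul_nonneg (Real.rpow_nonneg (norm_nonneg _) _) (w_pos q _).le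

/-- `q`-th power of the quasi-norm -/
noncomputable def M (q : ℝ) (x : ℕ → 𝕜) : ℝ≥0∞ :=
  ⨆ (D : Finset ℕ) (τ : ℕ → ℕ) (_ : Set.InjOn τ D), ENNReal.ofReal (V q D τ x)

lemma le_M (q : ℝ) (x : ℕ → 𝕜) (D : Finset ℕ) (τ : ℕ → ℕ) (h : Set.InjOn τ D) :
    ENNReal.ofReal (V q D τ x) ≤ M q x :=
  le_iSup_of_le D (le_iSup_of_le τ (le_iSup_of_le h le_rfl))

lemma M_le {q : ℝ} {x : ℕ → 𝕜} {K : ℝ≥0∞}
    (h : ∀ (D : Finset ℕ) (τ : ℕ → ℕ), Set.InjOn τ (D : Set ℕ) →
      ENNReal.ofReal (V q D τ x) ≤ K) : M q x ≤ K :=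
  iSup_le fun D => iSup_le fun τ => iSup_le fun hi => h D τ hi

/-- `q`-subadditivity -/
lemma rpow_add {q : ℝ} (hq0 : 0 < q) (hq : q < 1) {a b : ℝ} (ha : 0 ≤ a) (hb : 0 ≤ b) :
    (a + b) ^ q ≤ a ^ q + b ^ q := by
  have := NNReal.rpow_add_le_add_rpow ⟨a, ha⟩ ⟨b, hb⟩ hq0.le hq.le
  exact_mod_cast this

lemma V_add {q : ℝ} (hq0 : 0 < q) (hq : q < 1) (D : Finset ℕ) (τ : ℕ → ℕ) (x y : ℕ → 𝕜) :
    V q D τ (x + y) ≤ V q D τ x + V q D τ y := by
  unfold V
  rw [← Finset.sum_add_distrib]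
  refine Finset.sum_le_sum fun i _ => ?_
  rw [← add_mul]
  refine mul_le_mul_of_nonneg_right ?_ (w_pos q _).le
  refine le_trans ?_ (rpow_add hq0 hq (norm_nonneg _) (norm_nonneg _))
  exact Real.rpow_le_rpow (norm_nonneg _) (norm_add_le _ _) hq0.le

lemma M_add {q : ℝ} (hq0 : 0 < q) (hq : q < 1) (x y : ℕ → 𝕜) :
    M q (x + y) ≤ M q x + M q y := by
  refine M_le fun D τ h => ?_
  refine (ENNReal.ofReal_le_ofReal (V_add hq0 hq D τ x y)).trans ?_
  rw [ENNReal.ofReal_add (V_nonneg _ _ _ _) (V_nonneg _ _ _ _)]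
  exact add_le_add (le_M q x D τ h) (le_M q y D τ h)

lemma V_smul (q : ℝ) (D : Finset ℕ) (τ : ℕ → ℕ) (c : 𝕜) (x : ℕ → 𝕜) :
    V q D τ (c • x) = ‖c‖ ^ q * V q D τ x := by
  unfold V
  rw [Finset.mul_sum]
  refine Finset.sum_congr rfl fun i _ => ?_
  rw [Pi.smul_apply, smul_eq_mul, norm_mul, Real.mul_rpow (norm_nonneg _) (norm_nonneg _), mul_assoc]

lemma M_smul (q : ℝ) (c : 𝕜) (x : ℕ → 𝕜) :
    M q (c • x) = ENNReal.ofReal (‖c‖ ^ q) * M q x := by
  unfold M
  simp only [ENNReal.mul_iSup]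
  refine iSup_congr fun D => iSup_congr fun τ => iSup_congr fun _ => ?_
  rw [V_smul, ENNReal.ofReal_mul (Real.rpow_nonneg (norm_nonneg _) _)]

lemma coord_le (q : ℝ) (x : ℕ → 𝕜) (i : ℕ) : ENNReal.ofReal (‖x i‖ ^ q) ≤ M q x := by
  refine le_trans (le_of_eq ?_) (le_M q x {i} (fun _ => 0) (by simp))
  congr 1
  unfold V w
  simp

lemma M_mono {q : ℝ} (hq0 : 0 < q) {x y : ℕ → 𝕜} (h : ∀ i, ‖x i‖ ≤ ‖y i‖) : M q x ≤ M q y := by
  refine M_le fun D τ hi => le_trans (ENNReal.ofReal_le_ofReal ?_) (le_M q y D τ hi)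
  exact Finset.sum_le_sum fun i _ =>
    mul_le_mul_of_nonneg_right (Real.rpow_le_rpow (norm_nonneg _) (h i) hq0.le) (w_pos q _).le

lemma M_zero {q : ℝ} (hq0 : 0 < q) : M q (0 : ℕ → 𝕜) = 0 := by
  refine le_antisymm (M_le fun D τ _ => ?_) bot_le
  unfold V
  simp [Real.zero_rpow hq0.ne']

/-- finitely supported sequences have finite norm -/
lemma M_lt_top {q : ℝ} (hq0 : 0 < q) (hq : q < 1) {x : ℕ → 𝕜} (L : ℕ)
    (h : ∀ i, L ≤ i → x i = 0) : M q x < ⊤ := by
  refine lt_of_le_of_lt (b := ENNReal.ofReal (∑ i ∈ Finset.range L, ‖x i‖ ^ q)) (M_le fun D τ _ => ?_)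
    ENNReal.ofReal_lt_top
  refine ENNReal.ofReal_le_ofReal ?_
  have h1 : V q D τ x ≤ ∑ i ∈ D, ‖x i‖ ^ q :=
    Finset.sum_le_sum fun i _ => mul_le_of_le_one_right (Real.rpow_nonneg (norm_nonneg _) _)
      (w_le_one hq _)
  refine h1.trans ?_
  have h2 : ∑ i ∈ D, ‖x i‖ ^ q ≤ ∑ i ∈ D ∪ Finset.range L, ‖x i‖ ^ q :=
    Finset.sum_le_sum_of_subset_of_nonneg Finset.subset_union_left
      fun i _ _ => Real.rpow_nonneg (norm_nonneg _) _
  refine h2.trans (le_of_eq ?_)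
  symm
  refine Finset.sum_subset Finset.subset_union_right fun i _ hi => ?_
  rw [h i (by simpa using hi), norm_zero, Real.zero_rpow hq0.ne']

/-- indicator of a finite set -/
lemma M_indicator {q : ℝ} (hq0 : 0 < q) (hq : q < 1) (A : Finset ℕ) (x : ℕ → 𝕜)
    (h1 : ∀ i ∈ A, ‖x i‖ ≤ 1) (h0 : ∀ i ∉ A, x i = 0) :
    M q x ≤ ENNReal.ofReal ((A.card : ℝ) ^ q / q) := by
  classical
  refine M_le fun D τ hτ => ENNReal.ofReal_le_ofReal ?_
  have e1 : V q D τ x = ∑ i ∈ D ∩ A, ‖x i‖ ^ q * w q (τ i) := by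
    unfold V
    symm
    refine Finset.sum_subset Finset.inter_subset_left fun i hi hi' => ?_
    have : i ∉ A := fun h => hi' (Finset.mem_inter.mpr ⟨hi, h⟩)
    rw [h0 i this, norm_zero, Real.zero_rpow hq0.ne', zero_mul]
  have hinj : Set.InjOn τ (D ∩ A : Finset ℕ) := hτ.mono (by simp)
  have e2 : ∑ i ∈ D ∩ A, ‖x i‖ ^ q * w q (τ i) ≤ ∑ n ∈ (D ∩ A).image τ, w q n := by
    rw [Finset.sum_image hinj]
    refine Finset.sum_le_sum fun i hi => ?_
    refine mul_le_of_le_one_left (w_pos q _).le ?_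
    exact Real.rpow_le_one (norm_nonneg _) (h1 i (Finset.mem_inter.mp hi).2) hq0.le
  rw [e1]
  refine e2.trans ((sum_w hq0 hq _).trans ?_)
  refine div_le_div_of_nonneg_right (Real.rpow_le_rpow (Nat.cast_nonneg _) ?_ hq0.le) hq0.le
  exact_mod_cast Finset.card_image_le.trans (Finset.card_le_card Finset.inter_subset_right)

/-- the quasi-norm dominates the `ℓ₁` norm -/
lemma l1_aux {q : ℝ} (hq0 : 0 < q) (hq : q < 1) (x : ℕ → 𝕜) : ∀ (m : ℕ) (A : Finset ℕ),
    A.card = m → ∃ τ : ℕ → ℕ, Set.InjOn τ A ∧ (∀ i ∈ A, τ i < m) ∧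
      (∑ i ∈ A, ‖x i‖) ^ q ≤ V q A τ x := by
  classical
  intro m
  induction m with
  | zero =>
    intro A hA
    rw [Finset.card_eq_zero] at hA
    subst hA
    refine ⟨fun _ => 0, by simp, by simp, ?_⟩
    unfold V
    simp [Real.zero_rpow hq0.ne']
  | succ m ih =>
    intro A hA
    have hne : A.Nonempty := by rw [← Finset.card_pos, hA]; exact Nat.succ_pos m
    obtain ⟨i0, hi0, hmin⟩ := Finset.exists_min_image A (fun i => ‖x i‖) hne
    obtain ⟨τ, hτ1, hτ2, hτ3⟩ := ih (A.erase i0) (by rw [Finset.card_erase_of_mem hi0, hA]; rfl)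
    refine ⟨fun i => if i = i0 then m else τ i, ?_, ?_, ?_⟩
    · intro a ha b hb hab
      simp only at hab
      by_cases h1 : a = i0 <;> by_cases h2 : b = i0
      · rw [h1, h2]
      · rw [if_pos h1, if_neg h2] at hab
        exact absurd hab.symm (hτ2 b (Finset.mem_erase.mpr ⟨h2, hb⟩)).ne
      · rw [if_neg h1, if_pos h2] at hab
        exact absurd hab (hτ2 a (Finset.mem_erase.mpr ⟨h1, ha⟩)).ne
      · rw [if_neg h1, if_neg h2] at hab
        exact hτ1 (Finset.mem_coe.mpr (Finset.mem_erase.mpr ⟨h1, ha⟩))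
          (Finset.mem_coe.mpr (Finset.mem_erase.mpr ⟨h2, hb⟩)) hab
    · intro i hi
      simp only
      split_ifs with h
      · exact Nat.lt_succ_self m
      · exact (hτ2 i (Finset.mem_erase.mpr ⟨h, hi⟩)).trans (Nat.lt_succ_self m)
    · have e1 : ∑ i ∈ A, ‖x i‖ = ∑ i ∈ A.erase i0, ‖x i‖ + ‖x i0‖ :=
        (Finset.sum_erase_add A _ hi0).symm
      have e2 : V q A (fun i => if i = i0 then m else τ i) x =
          V q (A.erase i0) τ x + ‖x i0‖ ^ q * w q m := by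
        unfold V
        rw [← Finset.sum_erase_add A _ hi0]
        congr 1
        · refine Finset.sum_congr rfl fun i hi => ?_
          simp only [if_neg (Finset.ne_of_mem_erase hi)]
        · simp only [if_true]
      rw [e1, e2]
      refine (step hq0 hq _ _ (Finset.sum_nonneg fun _ _ => norm_nonneg _) (norm_nonneg _) m ?_).trans
        (by linarith)
      rw [← e1]
      have : ∑ i ∈ A, ‖x i0‖ ≤ ∑ i ∈ A, ‖x i‖ := Finset.sum_le_sum fun i hi => hmin i hi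
      rw [Finset.sum_const, hA, nsmul_eq_mul] at this
      push_cast at this
      exact this

lemma l1_le {q : ℝ} (hq0 : 0 < q) (hq : q < 1) (x : ℕ → 𝕜) (A : Finset ℕ) :
    ENNReal.ofReal ((∑ i ∈ A, ‖x i‖) ^ q) ≤ M q x := by
  obtain ⟨τ, h1, _, h3⟩ := l1_aux hq0 hq x A.card A rfl
  exact (ENNReal.ofReal_le_ofReal h3).trans (le_M q x A τ h1)

/-- lower semicontinuity -/
lemma M_lsc {q : ℝ} (hq0 : 0 < q) (u : ℕ → ℕ → 𝕜) (x : ℕ → 𝕜) (K : ℝ≥0∞)
    (hu : ∀ i, Tendsto (fun k => u k i) atTop (𝓝 (x i))) (hK : ∀ᶠ k in atTop, M q (u k) ≤ K) :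
    M q x ≤ K := by
  refine M_le fun D τ hτ => ?_
  have h1 : Tendsto (fun k => V q D τ (u k)) atTop (𝓝 (V q D τ x)) := by
    unfold V
    refine tendsto_finsetSum _ fun i _ => Tendsto.mul_const _ ?_
    exact ((Real.continuous_rpow_const hq0.le).tendsto _).comp (hu i).norm
  have h2 : Tendsto (fun k => ENNReal.ofReal (V q D τ (u k))) atTop
      (𝓝 (ENNReal.ofReal (V q D τ x))) := ENNReal.tendsto_ofReal h1
  refine le_of_tendsto h2 ?_
  filter_upwards [hK] with k hk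
  exact (le_M q (u k) D τ hτ).trans hk

end seq

end Pool.Agent.Q195.PN
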