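import Pool.Agent.Q195.PN1

set_option autoImplicit false

namespace Pool.Agent.Q195.PN

open Finset Filter Topology
open scoped ENNReal

variable {𝕜 : Type} [RCLike 𝕜]

/-- tail of a sequence -/
def tl (L : ℕ) (x : ℕ → 𝕜) : ℕ → 𝕜 := fun i => if i < L then 0 else x i

/-- head of a sequence -/
def hd (L : ℕ) (x : ℕ → 𝕜) : ℕ → 𝕜 := fun i => if i < L then x i else 0

lemma hd_add_tl (L : ℕ) (x : ℕ → 𝕜) : hd L x + tl L x = x := by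
  funext i; simp only [hd, tl, Pi.add_apply]; split_ifs <;> simp

lemma tl_add (L : ℕ) (x y : ℕ → 𝕜) : tl L (x + y) = tl L x + tl L y := by
  funext i; simp only [tl, Pi.add_apply]; split_ifs <;> simp

lemma tl_smul (L : ℕ) (c : 𝕜) (x : ℕ → 𝕜) : tl L (c • x) = c • tl L x := by
  funext i; simp only [tl, Pi.smul_apply]; split_ifs <;> simp

lemma norm_tl_le (L : ℕ) (x : ℕ → 𝕜) (i : ℕ) : ‖tl L x i‖ ≤ ‖x i‖ := by
  unfold tl; split_ifs <;> simp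

/-- the space -/
def Xs (𝕜 : Type) [RCLike 𝕜] (q : ℝ) (hq0 : 0 < q) (hq : q < 1) : Submodule 𝕜 (ℕ → 𝕜) where
  carrier := {x | Tendsto (fun L => M q (tl L x)) atTop (𝓝 0)}
  zero_mem' := by
    have : ∀ L, tl L (0 : ℕ → 𝕜) = 0 := fun L => by funext i; simp [tl]
    simp only [Set.mem_ofPred_eq, this, M_zero hq0]
    exact tendsto_const_nhds
  add_mem' := by
    intro x y hx hy
    have h : Tendsto (fun L => M q (tl L x) + M q (tl L y)) atTop (𝓝 0) := by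
      simpa using hx.add hy
    refine tendsto_of_tendsto_of_tendsto_of_le_of_le tendsto_const_nhds h (fun _ => bot_le)
      fun L => ?_
    rw [tl_add]
    exact M_add hq0 hq _ _
  smul_mem' := by
    intro c x hx
    have h : Tendsto (fun L => ENNReal.ofReal (‖c‖ ^ q) * M q (tl L x)) atTop (𝓝 0) := by
      have := ENNReal.Tendsto.const_mul (a := ENNReal.ofReal (‖c‖ ^ q)) hx
        (Or.inr ENNReal.ofReal_ne_top)
      simpa using this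
    refine h.congr fun L => ?_
    rw [tl_smul, M_smul]

variable {q : ℝ} {hq0 : 0 < q} {hq : q < 1}

lemma mem_Xs {x : ℕ → 𝕜} : x ∈ Xs 𝕜 q hq0 hq ↔ Tendsto (fun L => M q (tl L x)) atTop (𝓝 0) :=
  Iff.rfl

lemma mem_of_fin {x : ℕ → 𝕜} (L : ℕ) (h : ∀ i, L ≤ i → x i = 0) : x ∈ Xs 𝕜 q hq0 hq := by
  rw [mem_Xs]
  refine tendsto_const_nhds.congr' ?_
  filter_upwards [eventually_ge_atTop L] with L' hL'
  have : tl L' x = 0 := by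
    funext i
    unfold tl
    split_ifs with hi
    · rfl
    · exact h i (by omega)
  rw [this, M_zero hq0]

lemma M_ne_top (x : Xs 𝕜 q hq0 hq) : M q (x : ℕ → 𝕜) ≠ ⊤ := by
  have h := x.2
  rw [mem_Xs] at h
  obtain ⟨L, hL⟩ := ((h.eventually_lt_const (show (0 : ℝ≥0∞) < 1 by norm_num))).exists
  rw [← hd_add_tl L (x : ℕ → 𝕜)]
  refine (lt_of_le_of_lt (M_add hq0 hq _ _) ?_).ne
  refine ENNReal.add_lt_top.mpr ⟨M_lt_top hq0 hq L fun i hi => ?_, hL.trans (by norm_num)⟩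
  unfold hd; rw [if_neg (by omega)]

/-- the `q`-th power of the quasi-norm, as a real number -/
noncomputable def mm (x : Xs 𝕜 q hq0 hq) : ℝ := (M q (x : ℕ → 𝕜)).toReal

lemma mm_nonneg (x : Xs 𝕜 q hq0 hq) : 0 ≤ mm x := ENNReal.toReal_nonneg

lemma ofReal_mm (x : Xs 𝕜 q hq0 hq) : ENNReal.ofReal (mm x) = M q (x : ℕ → 𝕜) :=
  ENNReal.ofReal_toReal (M_ne_top x)

lemma mm_add (x y : Xs 𝕜 q hq0 hq) : mm (x + y) ≤ mm x + mm y := by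
  unfold mm
  rw [← ENNReal.toReal_add (M_ne_top x) (M_ne_top y)]
  exact ENNReal.toReal_mono (ENNReal.add_ne_top.mpr ⟨M_ne_top x, M_ne_top y⟩) (M_add hq0 hq _ _)

lemma mm_smul (c : 𝕜) (x : Xs 𝕜 q hq0 hq) : mm (c • x) = ‖c‖ ^ q * mm x := by
  unfold mm
  rw [Submodule.coe_smul, M_smul, ENNReal.toReal_mul,
    ENNReal.toReal_ofReal (Real.rpow_nonneg (norm_nonneg _) _)]

lemma V_le_mm (x : Xs 𝕜 q hq0 hq) (D : Finset ℕ) (τ : ℕ → ℕ) (h : Set.InjOn τ D) :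
    V q D τ (x : ℕ → 𝕜) ≤ mm x := by
  have := le_M q (x : ℕ → 𝕜) D τ h
  rw [← ofReal_mm] at this
  exact (ENNReal.ofReal_le_ofReal_iff (mm_nonneg x)).mp this

lemma coord_le_mm (x : Xs 𝕜 q hq0 hq) (i : ℕ) : ‖(x : ℕ → 𝕜) i‖ ^ q ≤ mm x := by
  have := coord_le q (x : ℕ → 𝕜) i
  rw [← ofReal_mm] at this
  exact (ENNReal.ofReal_le_ofReal_iff (mm_nonneg x)).mp this

lemma l1_le_mm (x : Xs 𝕜 q hq0 hq) (A : Finset ℕ) :
    (∑ i ∈ A, ‖(x : ℕ → 𝕜) i‖) ^ q ≤ mm x := by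
  have := l1_le hq0 hq (x : ℕ → 𝕜) A
  rw [← ofReal_mm] at this
  exact (ENNReal.ofReal_le_ofReal_iff (mm_nonneg x)).mp this

lemma exists_V {x : Xs 𝕜 q hq0 hq} {K : ℝ} (h : K < mm x) :
    ∃ (D : Finset ℕ) (τ : ℕ → ℕ), Set.InjOn τ D ∧ K < V q D τ (x : ℕ → 𝕜) := by
  by_contra hcon
  push Not at hcon
  rcases lt_or_ge K 0 with hK | hK
  · have := hcon ∅ (fun _ => 0) (by simp)
    exact absurd (this.trans_lt hK) (not_lt.mpr (V_nonneg _ _ _ _))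
  have h1 : M q (x : ℕ → 𝕜) ≤ ENNReal.ofReal K :=
    M_le fun D τ hi => ENNReal.ofReal_le_ofReal (hcon D τ hi)
  rw [← ofReal_mm] at h1
  exact absurd ((ENNReal.ofReal_le_ofReal_iff hK).mp h1) (not_le.mpr h)

/-- elements of the space tend to zero -/
lemma tends_zero (x : Xs 𝕜 q hq0 hq) (δ : ℝ) (hδ : 0 < δ) :
    ∃ L, ∀ i, L ≤ i → ‖(x : ℕ → 𝕜) i‖ ≤ δ := by
  have h := x.2
  rw [mem_Xs] at h
  obtain ⟨L, hL⟩ := ((h.eventually_lt_const (show (0 : ℝ≥0∞) < ENNReal.ofReal (δ ^ q) by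
    rw [ENNReal.ofReal_pos]; positivity))).exists
  refine ⟨L, fun i hi => ?_⟩
  have h1 := (coord_le q (tl L (x : ℕ → 𝕜)) i).trans hL.le
  have h2 : tl L (x : ℕ → 𝕜) i = (x : ℕ → 𝕜) i := by unfold tl; rw [if_neg (by omega)]
  rw [h2, ENNReal.ofReal_le_ofReal_iff (by positivity)] at h1
  exact (Real.rpow_le_rpow_iff (norm_nonneg _) hδ.le hq0).mp h1

/-- small tails, in terms of the finite weighted sums -/
lemma tail_small (x : Xs 𝕜 q hq0 hq) (η : ℝ) (hη : 0 < η) :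
    ∃ L0, ∀ L, L0 ≤ L → ∀ (D : Finset ℕ) (τ : ℕ → ℕ), Set.InjOn τ D → (∀ i ∈ D, L ≤ i) →
      V q D τ (x : ℕ → 𝕜) ≤ η := by
  have h := x.2
  rw [mem_Xs] at h
  obtain ⟨L0, hL0⟩ := eventually_atTop.mp ((h.eventually_lt_const
    (show (0 : ℝ≥0∞) < ENNReal.ofReal η by rw [ENNReal.ofReal_pos]; exact hη)))
  refine ⟨L0, fun L hL D τ hi hD => ?_⟩
  have h1 := (le_M q (tl L (x : ℕ → 𝕜)) D τ hi).trans (hL0 L hL).le
  rw [ENNReal.ofReal_le_ofReal_iff hη.le] at h1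
  refine le_trans (le_of_eq ?_) h1
  unfold V
  refine Finset.sum_congr rfl fun i hi' => ?_
  have : tl L (x : ℕ → 𝕜) i = (x : ℕ → 𝕜) i := by
    unfold tl; rw [if_neg (by have := hD i hi'; omega)]
  rw [this]

/-- subspaces of finite codimension -/
lemma exists_far (Y : Submodule 𝕜 (Xs 𝕜 q hq0 hq)) (hY : ¬ FiniteDimensional 𝕜 Y) (L : ℕ) :
    ∃ y ∈ Y, y ≠ 0 ∧ ∀ i < L, (y : ℕ → 𝕜) i = 0 := by
  by_contra hcon
  push Not at hcon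
  apply hY
  let R : Y →ₗ[𝕜] (Fin L → 𝕜) :=
    (LinearMap.funLeft 𝕜 𝕜 (fun i : Fin L => (i : ℕ))).comp
      ((Xs 𝕜 q hq0 hq).subtype.comp Y.subtype)
  have hR : ∀ (y : Y) (i : Fin L), R y i = ((y : Xs 𝕜 q hq0 hq) : ℕ → 𝕜) i := fun _ _ => rfl
  have hR : Function.Injective R := by
    intro y z hyz
    by_contra hne
    obtain ⟨i, hi, h⟩ := hcon (y - z) (Y.sub_mem y.2 z.2) (fun h => hne (by
      rw [sub_eq_zero] at h; exact Subtype.ext h))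
    apply h
    have h1 := congrFun hyz ⟨i, hi⟩
    rw [hR, hR] at h1
    have h2 : (((y : Xs 𝕜 q hq0 hq) - (z : Xs 𝕜 q hq0 hq) : Xs 𝕜 q hq0 hq) : ℕ → 𝕜) i =
      ((y : Xs 𝕜 q hq0 hq) : ℕ → 𝕜) i - ((z : Xs 𝕜 q hq0 hq) : ℕ → 𝕜) i := rfl
    rw [h2, sub_eq_zero]
    exact h1
  exact FiniteDimensional.of_injective R hR

/-- a vector with a coordinate of modulus one -/
lemma exists_peak (Y : Submodule 𝕜 (Xs 𝕜 q hq0 hq)) (hY : ¬ FiniteDimensional 𝕜 Y) (L : ℕ) :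
    ∃ y ∈ Y, (∀ i < L, (y : ℕ → 𝕜) i = 0) ∧ (∀ i, ‖(y : ℕ → 𝕜) i‖ ≤ 1) ∧
      ∃ i0, L ≤ i0 ∧ ‖(y : ℕ → 𝕜) i0‖ = 1 := by
  obtain ⟨y, hyY, hy0, hyL⟩ := exists_far Y hY L
  have h1 : ∃ j, (y : ℕ → 𝕜) j ≠ 0 := by
    by_contra hcon
    push Not at hcon
    exact hy0 (Subtype.ext (funext hcon))
  obtain ⟨j, hj⟩ := h1
  have hj' : 0 < ‖(y : ℕ → 𝕜) j‖ := norm_pos_iff.mpr hj
  obtain ⟨L', hL'⟩ := tends_zero y _ hj'
  obtain ⟨i0, hi0, hmax⟩ := Finset.exists_max_image (Finset.range (max L' j + 1))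
    (fun i => ‖(y : ℕ → 𝕜) i‖) ⟨0, by simp⟩
  have hji : ‖(y : ℕ → 𝕜) j‖ ≤ ‖(y : ℕ → 𝕜) i0‖ := hmax j (by simp)
  have hall : ∀ i, ‖(y : ℕ → 𝕜) i‖ ≤ ‖(y : ℕ → 𝕜) i0‖ := by
    intro i
    rcases lt_or_ge i (max L' j + 1) with h | h
    · exact hmax i (by simpa using h)
    · exact (hL' i (by have := le_max_left L' j; omega)).trans hji
  have hp : 0 < ‖(y : ℕ → 𝕜) i0‖ := hj'.trans_le hji
  have hc : ∀ i, ((((‖(y : ℕ → 𝕜) i0‖⁻¹ : ℝ) : 𝕜) • y : Xs 𝕜 q hq0 hq) : ℕ → 𝕜) i =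
      ((‖(y : ℕ → 𝕜) i0‖⁻¹ : ℝ) : 𝕜) * (y : ℕ → 𝕜) i := fun i => rfl
  have hn : ‖((‖(y : ℕ → 𝕜) i0‖⁻¹ : ℝ) : 𝕜)‖ = ‖(y : ℕ → 𝕜) i0‖⁻¹ := by
    rw [RCLike.norm_ofReal, abs_of_pos (inv_pos.mpr hp)]
  refine ⟨((‖(y : ℕ → 𝕜) i0‖⁻¹ : ℝ) : 𝕜) • y, Y.smul_mem _ hyY, fun i hi => ?_, fun i => ?_,
    i0, ?_, ?_⟩
  · rw [hc, hyL i hi, mul_zero]
  · rw [hc, norm_mul, hn, inv_mul_le_iff₀ hp, mul_one]
    exact hall i
  · by_contra hcon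
    push Not at hcon
    rw [hyL i0 hcon, norm_zero] at hp
    exact lt_irrefl _ hp
  · rw [hc, norm_mul, hn, inv_mul_cancel₀ hp.ne']

/-- vectors with bounded coordinates and large `ℓ₁` norm -/
lemma exists_spread (Y : Submodule 𝕜 (Xs 𝕜 q hq0 hq)) (hY : ¬ FiniteDimensional 𝕜 Y) (m : ℕ) :
    ∀ L, ∃ y ∈ Y, (∀ i < L, (y : ℕ → 𝕜) i = 0) ∧ (∀ i, ‖(y : ℕ → 𝕜) i‖ ≤ 3 / 2) ∧
      ∃ A : Finset ℕ, (m : ℝ) / 2 ≤ ∑ i ∈ A, ‖(y : ℕ → 𝕜) i‖ := by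
  classical
  induction m with
  | zero =>
    intro L
    refine ⟨0, Y.zero_mem, fun _ _ => rfl, fun i => ?_, ∅, by simp⟩
    have : ((0 : Xs 𝕜 q hq0 hq) : ℕ → 𝕜) i = 0 := rfl
    rw [this, norm_zero]; norm_num
  | succ m ih =>
    intro L
    obtain ⟨y, hyY, hyL, hyb, A, hA⟩ := ih L
    obtain ⟨L1, hL1⟩ := tends_zero y (1 / 2) (by norm_num)
    set L2 := max (max L L1) (A.sup id + 1) with hL2
    have hLA : ∀ i ∈ A, i < L2 := fun i hi => by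
      have h1 : i ≤ A.sup id := Finset.le_sup (f := id) hi
      have h2 := le_max_right (max L L1) (A.sup id + 1)
      omega
    have hLL : L ≤ L2 := (le_max_left L L1).trans (le_max_left _ _)
    have hL12 : L1 ≤ L2 := (le_max_right L L1).trans (le_max_left _ _)
    obtain ⟨z, hzY, hz0, hz1, i0, hi0, hzi⟩ := exists_peak Y hY L2
    have hco : ∀ i, ((y + z : Xs 𝕜 q hq0 hq) : ℕ → 𝕜) i = (y : ℕ → 𝕜) i + (z : ℕ → 𝕜) i :=
      fun _ => rfl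
    have hi0A : i0 ∉ A := fun h => by have := hLA i0 h; omega
    refine ⟨y + z, Y.add_mem hyY hzY, fun i hi => ?_, fun i => ?_, insert i0 A, ?_⟩
    · rw [hco, hyL i hi, hz0 i (by omega), add_zero]
    · rw [hco]
      rcases lt_or_ge i L2 with h | h
      · rw [hz0 i h, add_zero]; exact hyb i
      · have h1 := norm_add_le ((y : ℕ → 𝕜) i) ((z : ℕ → 𝕜) i)
        have h2 := hL1 i (by omega)
        have h3 := hz1 i
        linarith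
    · rw [Finset.sum_insert hi0A]
      have h1 : ∑ i ∈ A, ‖((y + z : Xs 𝕜 q hq0 hq) : ℕ → 𝕜) i‖ = ∑ i ∈ A, ‖(y : ℕ → 𝕜) i‖ := by
        refine Finset.sum_congr rfl fun i hi => ?_
        rw [hco, hz0 i (hLA i hi), add_zero]
      have h2 : (1 : ℝ) / 2 ≤ ‖((y + z : Xs 𝕜 q hq0 hq) : ℕ → 𝕜) i0‖ := by
        rw [hco]
        have h3 := norm_sub_norm_le ((z : ℕ → 𝕜) i0) (-(y : ℕ → 𝕜) i0)
        have h4 := hL1 i0 (by omega)
        rw [sub_neg_eq_add, norm_neg, hzi] at h3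
        rw [add_comm]
        linarith
      rw [h1]
      have h5 : ((m + 1 : ℕ) : ℝ) / 2 = (m : ℝ) / 2 + 1 / 2 := by push_cast; ring
      rw [h5]
      linarith

/-- flat normalized vectors far out -/
lemma exists_flat (Y : Submodule 𝕜 (Xs 𝕜 q hq0 hq)) (hY : ¬ FiniteDimensional 𝕜 Y) (L : ℕ)
    (δ : ℝ) (hδ : 0 < δ) :
    ∃ y ∈ Y, (∀ i < L, (y : ℕ → 𝕜) i = 0) ∧ (∀ i, ‖(y : ℕ → 𝕜) i‖ ≤ δ) ∧ mm y = 1 := by
  obtain ⟨m, hm⟩ := exists_nat_gt (3 / δ)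
  have hm0 : (0 : ℝ) < m := lt_trans (by positivity) hm
  obtain ⟨y, hyY, hyL, hyb, A, hA⟩ := exists_spread Y hY m L
  have h1 : ((m : ℝ) / 2) ^ q ≤ mm y :=
    (Real.rpow_le_rpow (by positivity) hA hq0.le).trans (l1_le_mm y A)
  have hmy : 0 < mm y := lt_of_lt_of_le (by positivity) h1
  set t : ℝ := (mm y) ^ (1 / q) with ht
  have ht0 : 0 < t := Real.rpow_pos_of_pos hmy _
  have htm : (m : ℝ) / 2 ≤ t := by
    have h2 := Real.rpow_le_rpow (by positivity) h1 (show 0 ≤ 1 / q by positivity)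
    rwa [← Real.rpow_mul (by positivity), mul_one_div_cancel hq0.ne', Real.rpow_one] at h2
  have hn : ‖((t⁻¹ : ℝ) : 𝕜)‖ = t⁻¹ := by
    rw [RCLike.norm_ofReal, abs_of_pos (inv_pos.mpr ht0)]
  have hc : ∀ i, ((((t⁻¹ : ℝ) : 𝕜) • y : Xs 𝕜 q hq0 hq) : ℕ → 𝕜) i =
      ((t⁻¹ : ℝ) : 𝕜) * (y : ℕ → 𝕜) i := fun i => rfl
  refine ⟨((t⁻¹ : ℝ) : 𝕜) • y, Y.smul_mem _ hyY, fun i hi => ?_, fun i => ?_, ?_⟩
  · rw [hc, hyL i hi, mul_zero]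
  · rw [hc, norm_mul, hn, inv_mul_le_iff₀ ht0]
    refine (hyb i).trans ?_
    have h3 : 3 / δ * δ = 3 := div_mul_cancel₀ _ hδ.ne'
    nlinarith
  · rw [mm_smul, hn, Real.inv_rpow ht0.le, ht, ← Real.rpow_mul hmy.le,
      one_div_mul_cancel hq0.ne', Real.rpow_one, inv_mul_cancel₀ hmy.ne']

end Pool.Agent.Q195.PN
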