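import Pool.Agent.Q195.PN2

set_option autoImplicit false

namespace Pool.Agent.Q195.PN

open Finset Filter Topology
open scoped ENNReal

section defs
variable {𝕜 : Type} [RCLike 𝕜] {X : Type} [AddCommGroup X] [Module 𝕜 X]

/-- `N` is a quasi-norm for which `X` is complete -/
structure IsQuasiBanach (𝕜 : Type) [RCLike 𝕜] {X : Type} [AddCommGroup X] [Module 𝕜 X]
    (N : X → ℝ) : Prop where
  nonneg : ∀ x, 0 ≤ N x
  eq_zero : ∀ x, N x = 0 → x = 0
  smul : ∀ (c : 𝕜) x, N (c • x) = ‖c‖ * N x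
  add : ∃ κ : ℝ, ∀ x y, N (x + y) ≤ κ * (N x + N y)
  complete : ∀ u : ℕ → X, (∀ ε > 0, ∃ n0, ∀ m ≥ n0, ∀ n ≥ n0, N (u m - u n) < ε) →
    ∃ x, Tendsto (fun n => N (u n - x)) atTop (𝓝 0)

/-- basis with biorthogonal functionals -/
structure IsBasis (N : X → ℝ) (x : ℕ → X) (xs : ℕ → X →ₗ[𝕜] 𝕜) : Prop where
  biorth : ∀ i j, xs i (x j) = if i = j then 1 else 0
  dense : ∀ z, ∀ ε > 0, ∃ y ∈ Submodule.span 𝕜 (Set.range x), N (z - y) < ε
  bounds : ∃ c > 0, ∃ C : ℝ, ∀ n, c ≤ N (x n) ∧ N (x n) ≤ C ∧ ∀ z, ‖xs n z‖ ≤ C * N z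

/-- bidemocratic: `φ(m) φ*(m) ≤ C m` -/
def IsBidemocratic (N : X → ℝ) (x : ℕ → X) (xs : ℕ → X →ₗ[𝕜] 𝕜) : Prop :=
  ∃ C : ℝ, ∀ (m : ℕ) (A B : Finset ℕ), A.card ≤ m → B.card ≤ m →
    ∀ z, N (∑ n ∈ A, x n) * ‖∑ n ∈ B, xs n z‖ ≤ C * m * N z

/-- the subspace `Y` has an equivalent `p`-norm -/
def HasPNorm (p : ℝ) (N : X → ℝ) (Y : Submodule 𝕜 X) : Prop :=
  ∃ (P : Y → ℝ) (C : ℝ), (∀ y, 0 ≤ P y) ∧ (∀ (c : 𝕜) y, P (c • y) = ‖c‖ * P y) ∧
    (∀ y z, P (y + z) ^ p ≤ P y ^ p + P z ^ p) ∧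
    ∀ y : Y, N (y : X) ≤ C * P y ∧ P y ≤ C * N (y : X)

end defs

variable {𝕜 : Type} [RCLike 𝕜] {q : ℝ} {hq0 : 0 < q} {hq : q < 1}

/-- building sums with large quasi-norm -/
lemma build (Y : Submodule 𝕜 (Xs 𝕜 q hq0 hq)) (hY : ¬ FiniteDimensional 𝕜 Y) (g : Y → ℝ)
    (hg0 : g 0 ≤ 0) (hg : ∀ S y : Y, mm (y : Xs 𝕜 q hq0 hq) = 1 → g (S + y) ≤ g S + 1) (k : ℕ) :
    ∃ S : Y, g S ≤ k ∧ ∃ (D : Finset ℕ) (τ : ℕ → ℕ), Set.InjOn τ D ∧
      (k : ℝ) / 16 ≤ V q D τ ((S : Xs 𝕜 q hq0 hq) : ℕ → 𝕜) := by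
  classical
  induction k with
  | zero => exact ⟨0, by simpa using hg0, ∅, fun _ => 0, by simp, by simp [V]⟩
  | succ k ih =>
    obtain ⟨S, hS, D, τ, hτ, hV⟩ := ih
    set K := D.sup τ + 1 with hK
    have hτK : ∀ i ∈ D, τ i < K := fun i hi => by
      have : τ i ≤ D.sup τ := Finset.le_sup hi
      omega
    obtain ⟨L0, hL0⟩ := tail_small (S : Xs 𝕜 q hq0 hq) (1 / 16) (by norm_num)
    set L := max L0 (D.sup id + 1) with hL
    have hLD : ∀ i ∈ D, i < L := fun i hi => by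
      have h1 : i ≤ D.sup id := Finset.le_sup (f := id) hi
      have h2 := le_max_right L0 (D.sup id + 1)
      omega
    set δ : ℝ := (1 / (4 * ((K : ℝ) + 1))) ^ (1 / q) with hδ
    have hδ0 : 0 < δ := by positivity
    have hδq : δ ^ q = 1 / (4 * ((K : ℝ) + 1)) := by
      rw [hδ, ← Real.rpow_mul (by positivity), one_div_mul_cancel hq0.ne', Real.rpow_one]
    have hδK : (K : ℝ) * δ ^ q ≤ 1 / 4 := by
      rw [hδq, mul_one_div, div_le_div_iff₀ (by positivity) (by norm_num)]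
      linarith
    obtain ⟨y, hyY, hyL, hyδ, hy1⟩ := exists_flat Y hY L δ hδ0
    obtain ⟨D', τ', hτ', hV'⟩ := exists_V (x := y) (K := 1 / 2) (by rw [hy1]; norm_num)
    set D2 := D'.filter (fun i => L ≤ i) with hD2
    have hD2L : ∀ i ∈ D2, L ≤ i := fun i hi => (Finset.mem_filter.mp hi).2
    have hτ2 : Set.InjOn τ' D2 := hτ'.mono (by
      intro i hi; exact (Finset.mem_filter.mp (Finset.mem_coe.mp hi)).1)
    have hV2 : 1 / 2 < V q D2 τ' (y : ℕ → 𝕜) := by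
      refine lt_of_lt_of_eq hV' ?_
      unfold V
      symm
      refine Finset.sum_subset (Finset.filter_subset _ _) fun i hi hi' => ?_
      have : i < L := by
        by_contra h
        exact hi' (Finset.mem_filter.mpr ⟨hi, not_lt.mp h⟩)
      rw [hyL i this, norm_zero, Real.zero_rpow hq0.ne', zero_mul]
    set τn : ℕ → ℕ := fun i => if i < L then τ i else K + τ' i with hτn
    have hdisj : Disjoint D D2 := by
      rw [Finset.disjoint_left]
      intro i h1 h2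
      have := hLD i h1
      have := hD2L i h2
      omega
    refine ⟨S + ⟨y, hyY⟩, ?_, D ∪ D2, τn, ?_, ?_⟩
    · have := hg S ⟨y, hyY⟩ hy1
      push_cast
      linarith
    · have hmem : ∀ a ∈ (↑(D ∪ D2) : Set ℕ), (a < L ∧ a ∈ D) ∨ (L ≤ a ∧ a ∈ D2) := by
        intro a ha
        rcases Finset.mem_union.mp (Finset.mem_coe.mp ha) with h | h
        · exact Or.inl ⟨hLD a h, h⟩
        · exact Or.inr ⟨hD2L a h, h⟩
      intro a ha b hb hab
      simp only [hτn] at hab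
      rcases hmem a ha with ⟨a1, a2⟩ | ⟨a1, a2⟩ <;> rcases hmem b hb with ⟨b1, b2⟩ | ⟨b1, b2⟩
      · rw [if_pos a1, if_pos b1] at hab
        exact hτ a2 b2 hab
      · rw [if_pos a1, if_neg (by omega)] at hab
        have := hτK a a2; omega
      · rw [if_neg (by omega), if_pos b1] at hab
        have := hτK b b2; omega
      · rw [if_neg (by omega), if_neg (by omega)] at hab
        exact hτ2 a2 b2 (by omega)
    · have hco : ∀ i, (((S + ⟨y, hyY⟩ : Y) : Xs 𝕜 q hq0 hq) : ℕ → 𝕜) i =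
          ((S : Xs 𝕜 q hq0 hq) : ℕ → 𝕜) i + (y : ℕ → 𝕜) i := fun _ => rfl
      have e0 : V q (D ∪ D2) τn (((S + ⟨y, hyY⟩ : Y) : Xs 𝕜 q hq0 hq) : ℕ → 𝕜) =
          V q D τn (((S + ⟨y, hyY⟩ : Y) : Xs 𝕜 q hq0 hq) : ℕ → 𝕜) +
          V q D2 τn (((S + ⟨y, hyY⟩ : Y) : Xs 𝕜 q hq0 hq) : ℕ → 𝕜) := by
        unfold V; exact Finset.sum_union hdisj
      have e1 : V q D τn (((S + ⟨y, hyY⟩ : Y) : Xs 𝕜 q hq0 hq) : ℕ → 𝕜) =
          V q D τ ((S : Xs 𝕜 q hq0 hq) : ℕ → 𝕜) := by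
        unfold V
        refine Finset.sum_congr rfl fun i hi => ?_
        have h1 := hLD i hi
        rw [hco, hyL i h1, add_zero]
        simp only [hτn, if_pos h1]
      have e2 : V q D2 (fun i => K + τ' i) (y : ℕ → 𝕜) ≤
          V q D2 τn (((S + ⟨y, hyY⟩ : Y) : Xs 𝕜 q hq0 hq) : ℕ → 𝕜) +
          V q D2 (fun i => K + τ' i) ((S : Xs 𝕜 q hq0 hq) : ℕ → 𝕜) := by
        unfold V
        rw [← Finset.sum_add_distrib]
        refine Finset.sum_le_sum fun i hi => ?_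
        have h1 : ¬ i < L := by have := hD2L i hi; omega
        simp only [hτn, if_neg h1]
        rw [← add_mul]
        refine mul_le_mul_of_nonneg_right ?_ (w_pos q _).le
        rw [hco]
        refine le_trans ?_ (rpow_add hq0 hq (norm_nonneg _) (norm_nonneg _))
        refine Real.rpow_le_rpow (norm_nonneg _) ?_ hq0.le
        have h2 := norm_sub_le (((S : Xs 𝕜 q hq0 hq) : ℕ → 𝕜) i + (y : ℕ → 𝕜) i)
          (((S : Xs 𝕜 q hq0 hq) : ℕ → 𝕜) i)
        rwa [add_sub_cancel_left] at h2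
      have e3 : V q D2 (fun i => K + τ' i) ((S : Xs 𝕜 q hq0 hq) : ℕ → 𝕜) ≤ 1 / 16 := by
        refine hL0 L (le_max_left _ _) D2 _ ?_ hD2L
        intro a ha b hb hab
        exact hτ2 ha hb (by simpa using hab)
      have e4 : 1 / 8 ≤ V q D2 (fun i => K + τ' i) (y : ℕ → 𝕜) := by
        have h1 : ∀ i ∈ D2, (1 / 2) * (‖(y : ℕ → 𝕜) i‖ ^ q * w q (τ' i) -
            (if τ' i < K then δ ^ q else 0)) ≤ ‖(y : ℕ → 𝕜) i‖ ^ q * w q (K + τ' i) := by
          intro i _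
          have hn : 0 ≤ ‖(y : ℕ → 𝕜) i‖ ^ q := Real.rpow_nonneg (norm_nonneg _) _
          split_ifs with h
          · have h2 : ‖(y : ℕ → 𝕜) i‖ ^ q * w q (τ' i) ≤ δ ^ q := by
              have h3 : ‖(y : ℕ → 𝕜) i‖ ^ q ≤ δ ^ q :=
                Real.rpow_le_rpow (norm_nonneg _) (hyδ i) hq0.le
              exact (mul_le_of_le_one_right hn (w_le_one hq _)).trans h3
            have h3 : 0 ≤ ‖(y : ℕ → 𝕜) i‖ ^ q * w q (K + τ' i) := mul_nonneg hn (w_pos q _).le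
            linarith
          · rw [sub_zero]
            have h2 := w_shift hq0 hq (not_lt.mp h)
            calc (1 / 2) * (‖(y : ℕ → 𝕜) i‖ ^ q * w q (τ' i)) =
                  ‖(y : ℕ → 𝕜) i‖ ^ q * (1 / 2 * w q (τ' i)) := by ring
              _ ≤ _ := mul_le_mul_of_nonneg_left h2 hn
        have h2 := Finset.sum_le_sum h1
        rw [← Finset.mul_sum, Finset.sum_sub_distrib, ← Finset.sum_filter, Finset.sum_const,
          nsmul_eq_mul] at h2
        have h3 : ((D2.filter (fun i => τ' i < K)).card : ℝ) ≤ K := by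
          have : (D2.filter (fun i => τ' i < K)).card ≤ (Finset.range K).card := by
            refine Finset.card_le_card_of_injOn τ' (fun i hi => ?_) (fun a ha b hb hab => ?_)
            · exact Finset.mem_coe.mpr (Finset.mem_range.mpr
                (Finset.mem_filter.mp (Finset.mem_coe.mp hi)).2)
            · exact hτ2 (Finset.mem_coe.mpr (Finset.mem_filter.mp (Finset.mem_coe.mp ha)).1)
                (Finset.mem_coe.mpr (Finset.mem_filter.mp (Finset.mem_coe.mp hb)).1) hab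
          rw [Finset.card_range] at this
          exact_mod_cast this
        have h4 : ((D2.filter (fun i => τ' i < K)).card : ℝ) * δ ^ q ≤ 1 / 4 :=
          (mul_le_mul_of_nonneg_right h3 (by positivity)).trans hδK
        have h5 : (∑ i ∈ D2, ‖(y : ℕ → 𝕜) i‖ ^ q * w q (τ' i)) = V q D2 τ' (y : ℕ → 𝕜) := rfl
        have h6 : (∑ i ∈ D2, ‖(y : ℕ → 𝕜) i‖ ^ q * w q (K + τ' i)) =
          V q D2 (fun i => K + τ' i) (y : ℕ → 𝕜) := rfl
        rw [h5, h6] at h2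
        linarith
      have h7 : ((k + 1 : ℕ) : ℝ) / 16 = (k : ℝ) / 16 + 1 / 16 := by push_cast; ring
      rw [e0, e1, h7]
      linarith

/-- the quasi-norm -/
noncomputable def NN (x : Xs 𝕜 q hq0 hq) : ℝ := (mm x) ^ (1 / q)

lemma NN_nonneg (x : Xs 𝕜 q hq0 hq) : 0 ≤ NN x := Real.rpow_nonneg (mm_nonneg x) _

lemma NN_rpow (x : Xs 𝕜 q hq0 hq) : (NN x) ^ q = mm x := by
  unfold NN
  rw [← Real.rpow_mul (mm_nonneg x), one_div_mul_cancel hq0.ne', Real.rpow_one]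

lemma no_pnorm (Y : Submodule 𝕜 (Xs 𝕜 q hq0 hq)) (hY : ¬ FiniteDimensional 𝕜 Y) (p : ℝ)
    (hp : q < p) : ¬ HasPNorm p (NN : Xs 𝕜 q hq0 hq → ℝ) Y := by
  rintro ⟨P, C0, hP0, hPs, hPa, hPC0⟩
  have hp0 : 0 < p := hq0.trans hp
  set C := max C0 1 with hC
  have hC1 : 1 ≤ C := le_max_right _ _
  have hCp : 0 < C := by linarith
  have hPC : ∀ y : Y, NN (y : Xs 𝕜 q hq0 hq) ≤ C * P y ∧ P y ≤ C * NN (y : Xs 𝕜 q hq0 hq) :=
    fun y => ⟨(hPC0 y).1.trans (mul_le_mul_of_nonneg_right (le_max_left _ _) (hP0 y)),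
      (hPC0 y).2.trans (mul_le_mul_of_nonneg_right (le_max_left _ _) (NN_nonneg _))⟩
  have hP00 : P 0 = 0 := by
    have := hPs 0 0
    simpa using this
  have key : ∀ k : ℕ, 1 ≤ k → (k : ℝ) ^ (1 - q / p) ≤ 16 * (C * C) ^ q := by
    intro k hk
    have hk0 : (0 : ℝ) < k := by exact_mod_cast hk
    obtain ⟨S, hS, D, τ, hτ, hV⟩ := build Y hY (fun y => P y ^ p / C ^ p)
      (by simp only [hP00, Real.zero_rpow hp0.ne', zero_div]; exact le_rfl)
      (fun S y hy => by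
        have h1 : NN (y : Xs 𝕜 q hq0 hq) = 1 := by unfold NN; rw [hy, Real.one_rpow]
        have h2 : P y ≤ C := by have := (hPC y).2; rwa [h1, mul_one] at this
        have h3 : P y ^ p ≤ C ^ p := Real.rpow_le_rpow (hP0 y) h2 hp0.le
        have h4 : 0 < C ^ p := Real.rpow_pos_of_pos hCp _
        rw [div_add_one h4.ne']
        exact div_le_div_of_nonneg_right ((hPa S y).trans (by linarith)) h4.le) k
    have h1 : (k : ℝ) / 16 ≤ (NN (S : Xs 𝕜 q hq0 hq)) ^ q := by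
      rw [NN_rpow]; exact hV.trans (V_le_mm _ D τ hτ)
    have h2 : P S ≤ C * (k : ℝ) ^ (1 / p) := by
      have h4 : 0 < C ^ p := Real.rpow_pos_of_pos hCp _
      have h3 : P S ^ p ≤ k * C ^ p := by rwa [div_le_iff₀ h4] at hS
      have h5 := Real.rpow_le_rpow (Real.rpow_nonneg (hP0 S) _) h3 (show 0 ≤ 1 / p by positivity)
      rw [← Real.rpow_mul (hP0 S), mul_one_div_cancel hp0.ne', Real.rpow_one,
        Real.mul_rpow hk0.le h4.le, ← Real.rpow_mul hCp.le, mul_one_div_cancel hp0.ne',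
        Real.rpow_one] at h5
      linarith
    have h3 : NN (S : Xs 𝕜 q hq0 hq) ≤ C * C * (k : ℝ) ^ (1 / p) := by
      refine (hPC S).1.trans ?_
      rw [mul_assoc]
      exact mul_le_mul_of_nonneg_left h2 hCp.le
    have h4 : (k : ℝ) / 16 ≤ (C * C) ^ q * (k : ℝ) ^ (q / p) := by
      refine h1.trans ((Real.rpow_le_rpow (NN_nonneg _) h3 hq0.le).trans (le_of_eq ?_))
      rw [Real.mul_rpow (by positivity) (by positivity), ← Real.rpow_mul hk0.le]
      congr 2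
      ring
    have h5 : (0 : ℝ) < (k : ℝ) ^ (q / p) := Real.rpow_pos_of_pos hk0 _
    rw [Real.rpow_sub hk0, Real.rpow_one, div_le_iff₀ h5]
    linarith
  have h2 : Tendsto (fun k : ℕ => (k : ℝ) ^ (1 - q / p)) atTop atTop := by
    refine (tendsto_rpow_atTop ?_).comp tendsto_natCast_atTop_atTop
    have : q / p < 1 := by rw [div_lt_one hp0]; exact hp
    linarith
  obtain ⟨k, hk1, hk2⟩ := ((h2.eventually_gt_atTop (16 * (C * C) ^ q)).and
    (eventually_ge_atTop 1)).exists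
  exact absurd (key k hk2) (not_le.mpr hk1)

/-- unit vectors -/
def ev (i : ℕ) : Xs 𝕜 q hq0 hq := ⟨Pi.single i 1, mem_of_fin (i + 1) fun j hj => by
  rw [Pi.single_eq_of_ne (by omega)]⟩

lemma ev_apply (i j : ℕ) : ((ev i : Xs 𝕜 q hq0 hq) : ℕ → 𝕜) j = if j = i then 1 else 0 := by
  show (Pi.single i (1 : 𝕜) : ℕ → 𝕜) j = _
  rw [Pi.single_apply]

/-- coordinate functionals -/
def cf (i : ℕ) : Xs 𝕜 q hq0 hq →ₗ[𝕜] 𝕜 := (LinearMap.proj i).comp (Xs 𝕜 q hq0 hq).subtype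

lemma cf_apply (i : ℕ) (x : Xs 𝕜 q hq0 hq) : cf i x = (x : ℕ → 𝕜) i := rfl

lemma NN_smul (c : 𝕜) (x : Xs 𝕜 q hq0 hq) : NN (c • x) = ‖c‖ * NN x := by
  unfold NN
  rw [mm_smul, Real.mul_rpow (Real.rpow_nonneg (norm_nonneg _) _) (mm_nonneg x),
    ← Real.rpow_mul (norm_nonneg _), mul_one_div_cancel hq0.ne', Real.rpow_one]

lemma NN_coord (x : Xs 𝕜 q hq0 hq) (i : ℕ) : ‖(x : ℕ → 𝕜) i‖ ≤ NN x := by
  have h := coord_le_mm x i
  have h5 := Real.rpow_le_rpow (Real.rpow_nonneg (norm_nonneg _) _) h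
    (show 0 ≤ 1 / q by positivity)
  rwa [← Real.rpow_mul (norm_nonneg _), mul_one_div_cancel hq0.ne', Real.rpow_one] at h5

lemma NN_l1 (x : Xs 𝕜 q hq0 hq) (A : Finset ℕ) : ∑ i ∈ A, ‖(x : ℕ → 𝕜) i‖ ≤ NN x := by
  have h := l1_le_mm x A
  have h0 : 0 ≤ ∑ i ∈ A, ‖(x : ℕ → 𝕜) i‖ := Finset.sum_nonneg fun _ _ => norm_nonneg _
  have h5 := Real.rpow_le_rpow (Real.rpow_nonneg h0 _) h (show 0 ≤ 1 / q by positivity)
  rwa [← Real.rpow_mul h0, mul_one_div_cancel hq0.ne', Real.rpow_one] at h5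

lemma NN_add (x y : Xs 𝕜 q hq0 hq) : NN (x + y) ^ q ≤ NN x ^ q + NN y ^ q := by
  rw [NN_rpow, NN_rpow, NN_rpow]; exact mm_add x y

lemma NN_tendsto (u : ℕ → Xs 𝕜 q hq0 hq) (h : Tendsto (fun n => M q (u n : ℕ → 𝕜)) atTop (𝓝 0)) :
    Tendsto (fun n => NN (u n)) atTop (𝓝 0) := by
  have h1 : Tendsto (fun n => mm (u n)) atTop (𝓝 0) := by
    have := (ENNReal.tendsto_toReal ENNReal.zero_ne_top).comp h
    rw [ENNReal.toReal_zero] at this
    exact this
  have h2 := ((Real.continuous_rpow_const (show 0 ≤ 1 / q by positivity)).tendsto 0).comp h1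
  rw [Real.zero_rpow (by positivity)] at h2
  exact h2

lemma quasiBanach : IsQuasiBanach 𝕜 (NN : Xs 𝕜 q hq0 hq → ℝ) where
  nonneg := NN_nonneg
  eq_zero := by
    intro x hx
    refine Subtype.ext (funext fun i => ?_)
    have := NN_coord x i
    rw [hx] at this
    exact norm_le_zero_iff.mp this
  smul := NN_smul
  add := by
    refine ⟨(2 : ℝ) ^ (1 / q), fun x y => ?_⟩
    set t := NN x + NN y with ht
    have ht0 : 0 ≤ t := add_nonneg (NN_nonneg x) (NN_nonneg y)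
    have h1 : NN (x + y) ^ q ≤ 2 * t ^ q := by
      have hx : NN x ^ q ≤ t ^ q :=
        Real.rpow_le_rpow (NN_nonneg x) (by linarith [NN_nonneg y]) hq0.le
      have hy : NN y ^ q ≤ t ^ q :=
        Real.rpow_le_rpow (NN_nonneg y) (by linarith [NN_nonneg x]) hq0.le
      linarith [NN_add x y]
    have h5 := Real.rpow_le_rpow (Real.rpow_nonneg (NN_nonneg _) _) h1
      (show 0 ≤ 1 / q by positivity)
    rwa [← Real.rpow_mul (NN_nonneg _), mul_one_div_cancel hq0.ne', Real.rpow_one,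
      Real.mul_rpow (by norm_num) (Real.rpow_nonneg ht0 _), ← Real.rpow_mul ht0,
      mul_one_div_cancel hq0.ne', Real.rpow_one] at h5
  complete := by
    intro u hu
    have hc : ∀ i, CauchySeq (fun n => ((u n : Xs 𝕜 q hq0 hq) : ℕ → 𝕜) i) := by
      intro i
      rw [Metric.cauchySeq_iff]
      intro ε hε
      obtain ⟨n0, hn0⟩ := hu ε hε
      refine ⟨n0, fun m hm n hn => ?_⟩
      rw [dist_eq_norm]
      exact (NN_coord (u m - u n) i).trans_lt (hn0 m hm n hn)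
    choose x hx using fun i => cauchySeq_tendsto_of_complete (hc i)
    have hM : ∀ ε : ℝ, 0 < ε → ∃ n0, ∀ n ≥ n0, M q (((u n : Xs 𝕜 q hq0 hq) : ℕ → 𝕜) - x) ≤
        ENNReal.ofReal ε := by
      intro ε hε
      obtain ⟨n0, hn0⟩ := hu (ε ^ (1 / q)) (by positivity)
      refine ⟨n0, fun n hn => ?_⟩
      refine M_lsc hq0 (fun k => ((u n - u k : Xs 𝕜 q hq0 hq) : ℕ → 𝕜)) _ _ (fun i => ?_) ?_
      · exact (hx i).const_sub _
      · filter_upwards [eventually_ge_atTop n0] with k hk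
        rw [← ofReal_mm, ← NN_rpow]
        refine ENNReal.ofReal_le_ofReal ?_
        have h1 := Real.rpow_le_rpow (NN_nonneg _) (hn0 n hn k hk).le hq0.le
        rwa [← Real.rpow_mul hε.le, one_div_mul_cancel hq0.ne', Real.rpow_one] at h1
    have hxX : x ∈ Xs 𝕜 q hq0 hq := by
      rw [mem_Xs, ENNReal.tendsto_atTop_zero]
      intro ε hε
      obtain ⟨ε', hε', hle⟩ : ∃ ε' : ℝ, 0 < ε' ∧ ENNReal.ofReal (2 * ε') ≤ ε := by
        by_cases h : ε = ⊤
        · exact ⟨1, one_pos, by rw [h]; exact le_top⟩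
        · refine ⟨ε.toReal / 2, by have := ENNReal.toReal_pos hε.ne' h; positivity, ?_⟩
          rw [mul_div_cancel₀ _ (by norm_num : (2 : ℝ) ≠ 0), ENNReal.ofReal_toReal h]
      obtain ⟨n0, hn0⟩ := hM ε' hε'
      have h1 := (u n0).2
      rw [mem_Xs, ENNReal.tendsto_atTop_zero] at h1
      obtain ⟨L0, hL0⟩ := h1 (ENNReal.ofReal ε') (ENNReal.ofReal_pos.mpr hε')
      refine ⟨L0, fun L hL => le_trans ?_ hle⟩
      have e1 : tl L x = tl L ((u n0 : Xs 𝕜 q hq0 hq) : ℕ → 𝕜) +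
          (-1 : 𝕜) • tl L (((u n0 : Xs 𝕜 q hq0 hq) : ℕ → 𝕜) - x) := by
        funext i
        simp only [tl, Pi.add_apply, Pi.smul_apply, Pi.sub_apply, smul_eq_mul]
        split_ifs
        · simp
        · ring
      rw [e1]
      refine (M_add hq0 hq _ _).trans ?_
      rw [M_smul, two_mul, ENNReal.ofReal_add hε'.le hε'.le]
      simp only [norm_neg, norm_one, Real.one_rpow, ENNReal.ofReal_one, one_mul]
      exact add_le_add (hL0 L hL) ((M_mono hq0 (norm_tl_le L _)).trans (hn0 n0 le_rfl))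
    refine ⟨⟨x, hxX⟩, NN_tendsto _ ?_⟩
    rw [ENNReal.tendsto_atTop_zero]
    intro ε hε
    obtain ⟨ε', hε', hle⟩ : ∃ ε' : ℝ, 0 < ε' ∧ ENNReal.ofReal ε' ≤ ε := by
      by_cases h : ε = ⊤
      · exact ⟨1, one_pos, by rw [h]; exact le_top⟩
      · exact ⟨ε.toReal, ENNReal.toReal_pos hε.ne' h, by rw [ENNReal.ofReal_toReal h]⟩
    obtain ⟨n0, hn0⟩ := hM ε' hε'
    exact ⟨n0, fun n hn => (hn0 n hn).trans hle⟩

lemma coe_sum_ev (A : Finset ℕ) (i : ℕ) :
    ((∑ n ∈ A, ev n : Xs 𝕜 q hq0 hq) : ℕ → 𝕜) i = if i ∈ A then 1 else 0 := by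
  have h : cf i (∑ n ∈ A, ev n : Xs 𝕜 q hq0 hq) = if i ∈ A then 1 else 0 := by
    rw [map_sum]
    simp only [cf_apply, ev_apply]
    rw [Finset.sum_ite_eq]
  exact h

lemma basis : IsBasis (NN : Xs 𝕜 q hq0 hq → ℝ) ev cf where
  biorth := fun i j => by rw [cf_apply, ev_apply]
  dense := by
    intro z ε hε
    have h := NN_tendsto (fun L => (⟨tl L (z : ℕ → 𝕜), by
      have : tl L (z : ℕ → 𝕜) = (z : ℕ → 𝕜) - hd L (z : ℕ → 𝕜) := by
        rw [eq_sub_iff_add_eq, add_comm]; exact hd_add_tl L _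
      rw [this]
      refine Submodule.sub_mem _ z.2 (mem_of_fin L fun i hi => ?_)
      unfold hd; rw [if_neg (by omega)]⟩ : Xs 𝕜 q hq0 hq)) z.2
    obtain ⟨L, hL⟩ := (h.eventually_lt_const hε).exists
    refine ⟨∑ i ∈ Finset.range L, (z : ℕ → 𝕜) i • ev i, Submodule.sum_mem _ fun i _ =>
      Submodule.smul_mem _ _ (Submodule.subset_span ⟨i, rfl⟩), ?_⟩
    refine lt_of_eq_of_lt ?_ hL
    congr 1
    refine Subtype.ext (funext fun i => ?_)
    have h1 : cf i (z - ∑ j ∈ Finset.range L, (z : ℕ → 𝕜) j • ev j : Xs 𝕜 q hq0 hq) =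
        tl L (z : ℕ → 𝕜) i := by
      rw [map_sub, map_sum]
      simp only [map_smul, cf_apply, ev_apply, smul_eq_mul, mul_ite, mul_one, mul_zero]
      rw [Finset.sum_ite_eq]
      unfold tl
      by_cases h : i < L
      · rw [if_pos (Finset.mem_range.mpr h), if_pos h, sub_self]
      · rw [if_neg (by simpa using h), if_neg h, sub_zero]
    exact h1
  bounds := by
    refine ⟨1, one_pos, (1 / q) ^ (1 / q) + 1, fun n => ⟨?_, ?_, fun z => ?_⟩⟩
    · have := NN_coord (ev n : Xs 𝕜 q hq0 hq) n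
      rw [ev_apply, if_pos rfl, norm_one] at this
      exact this
    · have h1 := M_indicator (𝕜 := 𝕜) hq0 hq {n} ((ev n : Xs 𝕜 q hq0 hq) : ℕ → 𝕜)
        (fun i _ => by rw [ev_apply]; split_ifs <;> simp)
        (fun i hi => by rw [ev_apply, if_neg (by simpa using hi)])
      rw [← ofReal_mm, ENNReal.ofReal_le_ofReal_iff (by positivity)] at h1
      simp only [Finset.card_singleton, Nat.cast_one, Real.one_rpow] at h1
      have h2 : NN (ev n : Xs 𝕜 q hq0 hq) ≤ (1 / q) ^ (1 / q) :=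
        Real.rpow_le_rpow (mm_nonneg _) h1 (by positivity)
      linarith
    · have h1 := NN_coord z n
      have h2 : 0 ≤ (1 / q) ^ (1 / q) * NN z :=
        mul_nonneg (by positivity) (NN_nonneg z)
      rw [cf_apply]
      linarith

lemma bidem : IsBidemocratic (NN : Xs 𝕜 q hq0 hq → ℝ) ev cf := by
  refine ⟨(1 / q) ^ (1 / q), fun m A B hA hB z => ?_⟩
  have h1 : NN (∑ n ∈ A, ev n : Xs 𝕜 q hq0 hq) ≤ (1 / q) ^ (1 / q) * m := by
    have h2 := M_indicator (𝕜 := 𝕜) hq0 hq A ((∑ n ∈ A, ev n : Xs 𝕜 q hq0 hq) : ℕ → 𝕜)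
      (fun i _ => by rw [coe_sum_ev]; split_ifs <;> simp)
      (fun i hi => by rw [coe_sum_ev, if_neg hi])
    rw [← ofReal_mm, ENNReal.ofReal_le_ofReal_iff (by positivity)] at h2
    have h3 : NN (∑ n ∈ A, ev n : Xs 𝕜 q hq0 hq) ≤ ((A.card : ℝ) ^ q / q) ^ (1 / q) :=
      Real.rpow_le_rpow (mm_nonneg _) h2 (by positivity)
    refine h3.trans ?_
    rw [div_eq_mul_one_div, Real.mul_rpow (by positivity) (by positivity),
      ← Real.rpow_mul (Nat.cast_nonneg _), mul_one_div_cancel hq0.ne', Real.rpow_one, mul_comm]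
    exact mul_le_mul_of_nonneg_left (by exact_mod_cast hA) (by positivity)
  have h2 : ‖∑ n ∈ B, cf n z‖ ≤ NN z := by
    refine (norm_sum_le _ _).trans ?_
    exact NN_l1 z B
  exact mul_le_mul h1 h2 (norm_nonneg _) (by positivity)

lemma infdim : ¬ FiniteDimensional 𝕜 (Xs 𝕜 q hq0 hq) := by
  intro h
  have hli : LinearIndependent 𝕜 (ev : ℕ → Xs 𝕜 q hq0 hq) := by
    rw [linearIndependent_iff']
    intro s g hg i hi
    have h1 : cf i (∑ j ∈ s, g j • ev j : Xs 𝕜 q hq0 hq) = g i := by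
      rw [map_sum]
      simp only [map_smul, cf_apply, ev_apply, smul_eq_mul, mul_ite, mul_one, mul_zero]
      rw [Finset.sum_ite_eq, if_pos hi]
    rw [hg, map_zero] at h1
    exact h1.symm
  exact not_finite_iff_infinite.mpr (inferInstance : Infinite ℕ) hli.finite_of_isNoetherian

end Pool.Agent.Q195.PN
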