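import Mathlib

/-!
# A combinatorial design: sets meeting every given set in exactly one point

For a finite set `S` there is a family of sets `R i` such that every nonempty `D ⊆ S` meets a
proportion of at least `1 / (16 (log₂ |S| + 1))` of them in exactly one point.
-/

set_option autoImplicit false

namespace Pool.Agent.Q195.SE

open Finset

/-- counting of the affine maps with one prescribed value in `T` -/
lemma count_one {p : ℕ} [Fact p.Prime] (T : Finset (ZMod p)) (c : ZMod p) :
    (∑ w : ZMod p × ZMod p, if w.1 * c + w.2 ∈ T then (1 : ℤ) else 0) = p * #T := by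
  rw [Fintype.sum_prod_type]
  have h : ∀ a : ZMod p, (∑ b : ZMod p, if a * c + b ∈ T then (1 : ℤ) else 0) = #T := by
    intro a
    have e := Equiv.sum_comp (Equiv.addLeft (a * c)) (fun y => if y ∈ T then (1 : ℤ) else 0)
    have e2 : ∀ b : ZMod p, (Equiv.addLeft (a * c)) b = a * c + b := fun b => rfl
    simp only [e2] at e
    rw [e, Finset.sum_ite_mem, Finset.univ_inter]
    simp
  simp only [h]
  simp [ZMod.card]

/-- counting of the affine maps with two prescribed values in `T` -/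
lemma count_two {p : ℕ} [Fact p.Prime] (T : Finset (ZMod p)) (c c' : ZMod p) (hc : c ≠ c') :
    (∑ w : ZMod p × ZMod p, (if w.1 * c + w.2 ∈ T then (1 : ℤ) else 0) *
      (if w.1 * c' + w.2 ∈ T then (1 : ℤ) else 0)) = #T ^ 2 := by
  have hcc : c - c' ≠ 0 := sub_ne_zero.2 hc
  let e : ZMod p × ZMod p ≃ ZMod p × ZMod p :=
    { toFun := fun w => (w.1 * c + w.2, w.1 * c' + w.2)
      invFun := fun v => ((v.1 - v.2) / (c - c'), v.1 - (v.1 - v.2) / (c - c') * c)
      left_inv := by
        rintro ⟨a, b⟩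
        refine Prod.ext ?_ ?_
        · show (a * c + b - (a * c' + b)) / (c - c') = a
          field_simp
          ring
        · show a * c + b - (a * c + b - (a * c' + b)) / (c - c') * c = b
          have : (a * c + b - (a * c' + b)) / (c - c') = a := by
            field_simp
            ring
          rw [this]
          ring
      right_inv := by
        rintro ⟨a, b⟩
        refine Prod.ext ?_ ?_
        · show (a - b) / (c - c') * c + (a - (a - b) / (c - c') * c) = a
          ring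
        · show (a - b) / (c - c') * c' + (a - (a - b) / (c - c') * c) = b
          field_simp
          ring }
  have h1 := Equiv.sum_comp e (fun v : ZMod p × ZMod p => (if v.1 ∈ T then (1 : ℤ) else 0) *
      (if v.2 ∈ T then (1 : ℤ) else 0))
  have h2 : ∀ w, e w = (w.1 * c + w.2, w.1 * c' + w.2) := fun w => rfl
  simp only [h2] at h1
  rw [h1, Fintype.sum_prod_type]
  have h3 := Finset.sum_mul_sum (Finset.univ : Finset (ZMod p)) (Finset.univ : Finset (ZMod p))
    (fun x => if x ∈ T then (1 : ℤ) else 0) (fun y => if y ∈ T then (1 : ℤ) else 0)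
  refine h3.symm.trans ?_
  simp [sq]

/-- the second moment bound -/
lemma count_exact {p : ℕ} [Fact p.Prime] {α : Type*} [DecidableEq α] (D : Finset α)
    (τ : α → ZMod p) (hτ : Set.InjOn τ D) (T : Finset (ZMod p)) :
    ((#D * #T : ℕ) : ℤ) * (p - #D * #T) ≤
      #{w : ZMod p × ZMod p | #{s ∈ D | w.1 * τ s + w.2 ∈ T} = 1} := by
  set X : ZMod p × ZMod p → ℤ := fun w => ∑ s ∈ D, if w.1 * τ s + w.2 ∈ T then (1 : ℤ) else 0
    with hX
  have hXc : ∀ w, X w = (#{s ∈ D | w.1 * τ s + w.2 ∈ T} : ℤ) := by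
    intro w
    rw [hX]
    simp
  have h1 : ∑ w, X w = #D * (p * #T) := by
    rw [hX, Finset.sum_comm]
    simp only [count_one]
    simp
  have h2 : ∑ w, X w ^ 2 ≤ #D * (p * #T) + #D ^ 2 * #T ^ 2 := by
    have e1 : ∀ w, X w ^ 2 = ∑ s ∈ D, ∑ s' ∈ D, (if w.1 * τ s + w.2 ∈ T then (1 : ℤ) else 0) *
      (if w.1 * τ s' + w.2 ∈ T then (1 : ℤ) else 0) := by
      intro w
      rw [sq, hX, Finset.sum_mul_sum]
    simp only [e1]
    rw [Finset.sum_comm]
    have e2 : ∀ s ∈ D, ∑ w : ZMod p × ZMod p, ∑ s' ∈ D,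
        (if w.1 * τ s + w.2 ∈ T then (1 : ℤ) else 0) *
        (if w.1 * τ s' + w.2 ∈ T then (1 : ℤ) else 0) ≤ p * #T + #D * #T ^ 2 := by
      intro s hs
      rw [Finset.sum_comm, ← Finset.add_sum_erase D _ hs]
      refine add_le_add ?_ ?_
      · have e3 : ∀ w : ZMod p × ZMod p, (if w.1 * τ s + w.2 ∈ T then (1 : ℤ) else 0) *
            (if w.1 * τ s + w.2 ∈ T then (1 : ℤ) else 0) =
            if w.1 * τ s + w.2 ∈ T then (1 : ℤ) else 0 := by
          intro w
          split_ifs <;> simp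
        simp only [e3]
        rw [count_one]
      · have e4 : ∀ s' ∈ D.erase s, (∑ w : ZMod p × ZMod p,
            (if w.1 * τ s + w.2 ∈ T then (1 : ℤ) else 0) *
            (if w.1 * τ s' + w.2 ∈ T then (1 : ℤ) else 0)) = #T ^ 2 := by
          intro s' hs'
          refine count_two T _ _ fun h => ?_
          exact (Finset.ne_of_mem_erase hs') (hτ (Finset.mem_of_mem_erase hs') hs h.symm)
        rw [Finset.sum_congr rfl e4, Finset.sum_const, nsmul_eq_mul]
        refine mul_le_mul_of_nonneg_right ?_ (by positivity)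
        exact_mod_cast Finset.card_erase_le
    refine (Finset.sum_le_sum e2).trans ?_
    rw [Finset.sum_const, nsmul_eq_mul]
    nlinarith
  have h3 : ∀ w, 2 * X w - X w ^ 2 ≤
      if #{s ∈ D | w.1 * τ s + w.2 ∈ T} = 1 then (1 : ℤ) else 0 := by
    intro w
    have h0 : 0 ≤ X w := by rw [hXc]; positivity
    split_ifs with h
    · nlinarith [sq_nonneg (X w - 1)]
    · have h4 : X w ≠ 1 := by
        rw [hXc]
        exact_mod_cast h
      rcases lt_or_gt_of_ne h4 with h5 | h5
      · have : X w = 0 := by omega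
        rw [this]; simp
      · nlinarith
  have h5 := Finset.sum_le_sum fun w (_ : w ∈ (Finset.univ : Finset (ZMod p × ZMod p))) => h3 w
  rw [Finset.sum_sub_distrib, ← Finset.mul_sum, h1] at h5
  have h6 : (∑ w : ZMod p × ZMod p, if #{s ∈ D | w.1 * τ s + w.2 ∈ T} = 1 then (1 : ℤ) else 0) =
      #{w : ZMod p × ZMod p | #{s ∈ D | w.1 * τ s + w.2 ∈ T} = 1} := by
    simp
  rw [h6] at h5
  push_cast
  nlinarith

/-- the design -/
theorem design {α : Type} [DecidableEq α] (S : Finset α) (hS : S.Nonempty) :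
    ∃ (I : Type) (_ : Fintype I) (_ : Nonempty I) (R : I → Finset α),
      ∀ D ⊆ S, D.Nonempty → Fintype.card I ≤ 16 * (Nat.log 2 #S + 1) * #{i | #(D ∩ R i) = 1} := by
  obtain ⟨p, hp, hpp⟩ := Nat.exists_infinite_primes (8 * #S)
  have : Fact p.Prime := ⟨hpp⟩
  have hS0 : 0 < #S := hS.card_pos
  -- an injection of `S` into `ZMod p`
  obtain ⟨τ, hτ⟩ : ∃ τ : α → ZMod p, Set.InjOn τ S := by
    let e := S.equivFin
    refine ⟨fun a => if h : a ∈ S then ((e ⟨a, h⟩ : ℕ) : ZMod p) else 0, ?_⟩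
    intro a ha b hb hab
    have ha' : a ∈ S := ha
    have hb' : b ∈ S := hb
    simp only [ha', hb', dif_pos] at hab
    have h1 : ((e ⟨a, ha'⟩ : ℕ)) < p := lt_of_lt_of_le (e ⟨a, ha'⟩).2 (by omega)
    have h2 : ((e ⟨b, hb'⟩ : ℕ)) < p := lt_of_lt_of_le (e ⟨b, hb'⟩).2 (by omega)
    have h3 := congrArg ZMod.val hab
    rw [ZMod.val_natCast_of_lt h1, ZMod.val_natCast_of_lt h2] at h3
    have h4 := e.injective (Fin.ext h3)
    simpa using h4
  set J := Nat.log 2 #S with hJ
  let T : ℕ → Finset (ZMod p) := fun j => {x | x.val < p / 2 ^ (j + 2)}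
  have hT : ∀ j, #(T j) = p / 2 ^ (j + 2) := by
    intro j
    have hle : p / 2 ^ (j + 2) ≤ p := Nat.div_le_self _ _
    have : T j = (Finset.range (p / 2 ^ (j + 2))).image (fun n : ℕ => (n : ZMod p)) := by
      ext x
      simp only [T, Finset.mem_filter, Finset.mem_univ, true_and, Finset.mem_image,
        Finset.mem_range]
      constructor
      · intro h
        exact ⟨x.val, h, ZMod.natCast_zmod_val x⟩
      · rintro ⟨n, hn, rfl⟩
        rwa [ZMod.val_natCast_of_lt (lt_of_lt_of_le hn hle)]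
    rw [this, Finset.card_image_of_injOn, Finset.card_range]
    intro a ha b hb hab
    have ha' : a < p := lt_of_lt_of_le (by simpa using ha) hle
    have hb' : b < p := lt_of_lt_of_le (by simpa using hb) hle
    have h3 := congrArg ZMod.val hab
    simpa [ZMod.val_natCast_of_lt ha', ZMod.val_natCast_of_lt hb'] using h3
  let R : Fin (J + 1) × ZMod p × ZMod p → Finset α := fun i =>
    {s ∈ S | i.2.1 * τ s + i.2.2 ∈ T i.1}
  refine ⟨Fin (J + 1) × ZMod p × ZMod p, inferInstance, inferInstance, R, ?_⟩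
  intro D hDS hD
  set k := #D with hk
  have hk0 : 0 < k := hD.card_pos
  have hkS : k ≤ #S := Finset.card_le_card hDS
  set j := Nat.log 2 k with hj
  have hjJ : j ≤ J := Nat.log_mono_right hkS
  have h1 : 2 ^ j ≤ k := Nat.pow_log_le_self 2 hk0.ne'
  have h2 : k < 2 ^ (j + 1) := Nat.lt_pow_succ_log_self (by norm_num) k
  -- the count at the scale `j`
  have hc := count_exact D τ (hτ.mono (by exact_mod_cast hDS)) (T j)
  rw [hT j] at hc
  set t := p / 2 ^ (j + 2) with ht
  have ht1 : t * 2 ^ (j + 2) ≤ p := Nat.div_mul_le_self p _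
  have ht2 : p < (t + 1) * 2 ^ (j + 2) := by
    have := Nat.lt_mul_div_succ p (show 0 < 2 ^ (j + 2) by positivity)
    rw [ht]
    nlinarith
  have hx1 : 2 * (k * t) ≤ p := by
    have : k * t ≤ 2 ^ (j + 1) * t := Nat.mul_le_mul_right _ h2.le
    have e : 2 * (2 ^ (j + 1) * t) = t * 2 ^ (j + 2) := by ring
    omega
  have hx2 : p ≤ 8 * (k * t) := by
    have h3 : 2 ^ j * t ≤ k * t := Nat.mul_le_mul_right _ h1
    have e : (t + 1) * 2 ^ (j + 2) = 4 * (2 ^ j * t) + 4 * 2 ^ j := by ring
    have h4 : 8 * 2 ^ j ≤ p := by omega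
    omega
  have hc2 : p ^ 2 ≤ 16 * #{w : ZMod p × ZMod p | #{s ∈ D | w.1 * τ s + w.2 ∈ T j} = 1} := by
    have h3 : ((p ^ 2 : ℕ) : ℤ) ≤ 16 * (((k * t : ℕ) : ℤ) * (p - k * t)) := by
      push_cast
      have a1 : (2 : ℤ) * (k * t) ≤ p := by exact_mod_cast hx1
      have a2 : (p : ℤ) ≤ 8 * (k * t) := by exact_mod_cast hx2
      nlinarith
    have h4 := h3.trans (mul_le_mul_of_nonneg_left hc (by norm_num))
    exact_mod_cast h4
  have hcard : Fintype.card (Fin (J + 1) × ZMod p × ZMod p) = (J + 1) * p ^ 2 := by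
    simp [ZMod.card, sq]
  have hsub : #{w : ZMod p × ZMod p | #{s ∈ D | w.1 * τ s + w.2 ∈ T j} = 1} ≤
      #{i : Fin (J + 1) × ZMod p × ZMod p | #(D ∩ R i) = 1} := by
    refine Finset.card_le_card_of_injOn (fun w => (⟨j, by omega⟩, w)) ?_ ?_
    · intro w hw
      simp only [Finset.coe_filter, Finset.mem_univ, true_and, Set.mem_ofPred_eq] at hw ⊢
      have : D ∩ R (⟨j, by omega⟩, w) = {s ∈ D | w.1 * τ s + w.2 ∈ T j} := by
        ext s
        simp only [R, Finset.mem_inter, Finset.mem_filter]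
        constructor
        · rintro ⟨a, -, b⟩
          exact ⟨a, b⟩
        · rintro ⟨a, b⟩
          exact ⟨a, hDS a, b⟩
      rw [this]
      exact hw
    · intro a _ b _ h
      exact (Prod.ext_iff.1 h).2
  rw [hcard]
  calc (J + 1) * p ^ 2 ≤ (J + 1) * (16 *
        #{w : ZMod p × ZMod p | #{s ∈ D | w.1 * τ s + w.2 ∈ T j} = 1}) :=
        Nat.mul_le_mul_left _ hc2
    _ ≤ (J + 1) * (16 * #{i : Fin (J + 1) × ZMod p × ZMod p | #(D ∩ R i) = 1}) :=
        Nat.mul_le_mul_left _ (Nat.mul_le_mul_left _ hsub)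
    _ = _ := by ring

end Pool.Agent.Q195.SE
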