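import Pool.Agent.Q195.SE1

/-!
# An injective map `K[G]^(4m) → K[G]^m` for a nonamenable group (after Bartholdi)
-/

set_option autoImplicit false

namespace Pool.Agent.Q195.SE

open Finset
open scoped Pointwise Polynomial

variable {G : Type} [Group G] [DecidableEq G] {K : Type} [Field K] {I : Type} [Fintype I]

/-- the entries of the matrix -/
noncomputable def ent (S : Finset G) (R : I → Finset G) (t : G × I → K) (j : ℕ) (i : I) :
    MonoidAlgebra K G := ∑ s ∈ S ∩ R i, MonoidAlgebra.single s (t (s, i) ^ j)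

/-- the polynomial of a point -/
noncomputable def pol {n : ℕ} (x : Fin n → MonoidAlgebra K G) (g : G) : K[X] :=
  ∑ j : Fin n, Polynomial.C ((x j).coeff g) * Polynomial.X ^ (j : ℕ)

lemma pol_eval {n : ℕ} (x : Fin n → MonoidAlgebra K G) (g : G) (c : K) :
    (pol x g).eval c = ∑ j : Fin n, (x j).coeff g * c ^ (j : ℕ) := by
  simp [pol, Polynomial.eval_finsetSum]

lemma map_apply {n : ℕ} (S : Finset G) (R : I → Finset G) (t : G × I → K)
    (x : Fin n → MonoidAlgebra K G) (i : I) (h : G) :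
    (∑ j : Fin n, x j * ent S R t j i).coeff h =
      ∑ s ∈ S ∩ R i, (pol x (h * s⁻¹)).eval (t (s, i)) := by
  simp only [pol_eval]
  rw [Finset.sum_comm]
  have e1 : (∑ j : Fin n, x j * ent S R t j i).coeff h =
      ∑ j : Fin n, (x j * ent S R t j i).coeff h := by
    rw [MonoidAlgebra.coeff_sum, Finsupp.finsetSum_apply]
  rw [e1]
  refine Finset.sum_congr rfl fun j _ => ?_
  unfold ent
  rw [Finset.mul_sum]
  have e2 : (∑ s ∈ S ∩ R i, x j * MonoidAlgebra.single s (t (s, i) ^ (j : ℕ))).coeff h =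
      ∑ s ∈ S ∩ R i, (x j * MonoidAlgebra.single s (t (s, i) ^ (j : ℕ))).coeff h := by
    rw [MonoidAlgebra.coeff_sum, Finsupp.finsetSum_apply]
  rw [e2]
  refine Finset.sum_congr rfl fun s _ => ?_
  exact MonoidAlgebra.coeff_mul_single_apply _ _ _ _

theorem injective_of_expansion (S : Finset G) (R : I → Finset G) (t : G × I → K)
    (ht : Set.InjOn t (S ×ˢ (Finset.univ : Finset I))) (L : ℕ) (hL : 0 < L)
    (hdes : ∀ D ⊆ S, D.Nonempty → Fintype.card I ≤ 16 * L * #{i | #(D ∩ R i) = 1})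
    (hexp : ∀ F : Finset G, F.Nonempty → 64 * L * #F ≤ #(F * S))
    (n : ℕ) (hn : n = 4 * Fintype.card I) (x : Fin n → MonoidAlgebra K G)
    (hx : ∀ i, ∑ j : Fin n, x j * ent S R t j i = 0) : x = 0 := by
  classical
  by_contra hx0
  set F : Finset G := Finset.univ.biUnion (fun j => (x j).coeff.support) with hF
  have hFmem : ∀ g, g ∈ F ↔ ∃ j, (x j).coeff g ≠ 0 := by
    intro g
    rw [hF, Finset.mem_biUnion]
    constructor
    · rintro ⟨j, -, hj⟩
      exact ⟨j, Finsupp.mem_support_iff.1 hj⟩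
    · rintro ⟨j, hj⟩
      exact ⟨j, Finset.mem_univ _, Finsupp.mem_support_iff.2 hj⟩
  have hFne : F.Nonempty := by
    by_contra h
    rw [Finset.not_nonempty_iff_eq_empty] at h
    apply hx0
    funext j
    ext g
    by_contra h1
    have : g ∈ F := (hFmem g).2 ⟨j, h1⟩
    rw [h] at this
    exact absurd this (Finset.notMem_empty g)
  have hpol0 : ∀ g, g ∉ F → pol x g = 0 := by
    intro g hg
    unfold pol
    refine Finset.sum_eq_zero fun j _ => ?_
    have : (x j).coeff g = 0 := by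
      by_contra h
      exact hg ((hFmem g).2 ⟨j, h⟩)
    rw [this]
    simp
  -- the private pairs
  let D : G → Finset G := fun h => {s ∈ S | h * s⁻¹ ∈ F}
  let P : Finset (G × I) := {w ∈ (F * S) ×ˢ (Finset.univ : Finset I) | #(D w.1 ∩ R w.2) = 1}
  have hD : ∀ h ∈ F * S, (D h).Nonempty := by
    intro h hh
    obtain ⟨g, hg, s, hs, rfl⟩ := Finset.mem_mul.1 hh
    refine ⟨s, Finset.mem_filter.2 ⟨hs, ?_⟩⟩
    rwa [mul_inv_cancel_right]
  have hPcard : Fintype.card I * #(F * S) ≤ 16 * L * #P := by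
    have e1 : #P = ∑ h ∈ F * S, #{i | #(D h ∩ R i) = 1} := by
      simp only [P]
      rw [Finset.card_filter, Finset.sum_product]
      simp only [Finset.card_filter]
    rw [e1, Finset.mul_sum, mul_comm, ← smul_eq_mul, ← Finset.sum_const]
    refine Finset.sum_le_sum fun h hh => ?_
    exact hdes (D h) (Finset.filter_subset _ _) (hD h hh)
  have hP2 : #F * n ≤ #P := by
    have h1 := hexp F hFne
    have h2 : Fintype.card I * (64 * L * #F) ≤ 16 * L * #P :=
      (Nat.mul_le_mul_left _ h1).trans hPcard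
    have h3 : 16 * L * (#F * n) ≤ 16 * L * #P := by
      refine le_trans (le_of_eq ?_) h2
      rw [hn]
      ring
    exact Nat.le_of_mul_le_mul_left h3 (by positivity)
  have hchoose : ∀ w : G × I, ∃ s : G, w ∈ P → D w.1 ∩ R w.2 = {s} := by
    intro w
    by_cases hw : w ∈ P
    · obtain ⟨s, hs⟩ := Finset.card_eq_one.1 (Finset.mem_filter.1 hw).2
      exact ⟨s, fun _ => hs⟩
    · exact ⟨1, fun h => absurd h hw⟩
  choose σ hσ using hchoose
  have hσ1 : ∀ w ∈ P, σ w ∈ S ∧ w.1 * (σ w)⁻¹ ∈ F ∧ σ w ∈ R w.2 := by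
    intro w hw
    have : σ w ∈ D w.1 ∩ R w.2 := by
      rw [hσ w hw]
      exact Finset.mem_singleton_self _
    have h1 := Finset.mem_inter.1 this
    have h2 := Finset.mem_filter.1 h1.1
    exact ⟨h2.1, h2.2, h1.2⟩
  obtain ⟨g, hgF, hg⟩ := Finset.exists_le_card_fiber_of_mul_le_card_of_maps_to
    (s := P) (t := F) (f := fun w => w.1 * (σ w)⁻¹) (n := n) (fun w hw => (hσ1 w hw).2.1) hFne hP2
  -- the roots
  set Q : Finset (G × I) := {w ∈ P | w.1 * (σ w)⁻¹ = g} with hQ
  have hroot : ∀ w ∈ Q, (pol x g).eval (t (σ w, w.2)) = 0 := by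
    intro w hw
    obtain ⟨hwP, hwg⟩ := Finset.mem_filter.1 hw
    have h1 := map_apply S R t x w.2 w.1
    rw [hx w.2] at h1
    have h2 : (∑ s ∈ S ∩ R w.2, (pol x (w.1 * s⁻¹)).eval (t (s, w.2))) =
        (pol x (w.1 * (σ w)⁻¹)).eval (t (σ w, w.2)) := by
      refine Finset.sum_eq_single (σ w) ?_ ?_
      · intro s hs hne
        rw [hpol0, Polynomial.eval_zero]
        intro hsF
        have hsS := Finset.mem_inter.1 hs
        have : s ∈ D w.1 ∩ R w.2 :=
          Finset.mem_inter.2 ⟨Finset.mem_filter.2 ⟨hsS.1, hsF⟩, hsS.2⟩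
        rw [hσ w hwP, Finset.mem_singleton] at this
        exact hne this
      · intro h
        exact absurd (Finset.mem_inter.2 ⟨(hσ1 w hwP).1, (hσ1 w hwP).2.2⟩) h
    rw [h2, hwg] at h1
    rw [← h1]
    rfl
  have hinj : Set.InjOn (fun w => t (σ w, w.2)) Q := by
    intro w hw w' hw' h
    obtain ⟨hwP, hwg⟩ := Finset.mem_filter.1 (Finset.mem_coe.1 hw)
    obtain ⟨hwP', hwg'⟩ := Finset.mem_filter.1 (Finset.mem_coe.1 hw')
    have h1 := ht (x₁ := (σ w, w.2)) (x₂ := (σ w', w'.2))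
      (by simp [(hσ1 w hwP).1]) (by simp [(hσ1 w' hwP').1]) h
    obtain ⟨h2, h3⟩ := Prod.ext_iff.1 h1
    refine Prod.ext ?_ h3
    have h4 : w.1 = g * σ w := by rw [← hwg]; group
    have h5 : w'.1 = g * σ w' := by rw [← hwg']; group
    have h6 : σ w = σ w' := h2
    rw [h4, h5, h6]
  have hcard : n ≤ #(Q.image (fun w => t (σ w, w.2))) := by
    rw [Finset.card_image_of_injOn hinj]
    exact hg
  have hzero : pol x g = 0 := by
    refine Polynomial.eq_zero_of_degree_lt_of_eval_finset_eq_zero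
      (Q.image (fun w => t (σ w, w.2))) ?_ ?_
    · refine lt_of_lt_of_le (Polynomial.degree_sum_fin_lt (fun j => (x j).coeff g)) ?_
      exact_mod_cast hcard
    · intro c hc
      obtain ⟨w, hw, rfl⟩ := Finset.mem_image.1 hc
      exact hroot w hw
  obtain ⟨j, hj⟩ := (hFmem g).1 hgF
  apply hj
  have h7 : (pol x g).coeff (j : ℕ) = (x j).coeff g := by
    unfold pol
    rw [Polynomial.finsetSum_coeff]
    rw [Finset.sum_eq_single j]
    · simp
    · intro b _ hb
      rw [Polynomial.coeff_C_mul, Polynomial.coeff_X_pow, if_neg, mul_zero]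
      intro h
      exact hb (Fin.ext h.symm)
    · intro h
      exact absurd (Finset.mem_univ j) h
  rw [← h7, hzero, Polynomial.coeff_zero]

end Pool.Agent.Q195.SE
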