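import Pool.Agent.Q195.SE2

/-!
# Nonamenable groups: the injective map `K[G]^(4m) → K[G]^m`
-/

set_option autoImplicit false

namespace Pool.Agent.Q195.SE

open Finset Filter Topology
open scoped Pointwise Polynomial

/-- Følner's condition. -/
def Amenable (G : Type) [Group G] [DecidableEq G] : Prop :=
  ∀ (S : Finset G) (ε : ℝ), 0 < ε → ∃ F : Finset G, F.Nonempty ∧
    ∀ s ∈ S, (#((F.image fun g => s * g) \ F) : ℝ) ≤ ε * #F

variable {G : Type} [Group G] [DecidableEq G]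

lemma expansion (h : ¬ Amenable G) : ∃ (S : Finset G) (r : ℝ), 1 < r ∧ S.Nonempty ∧
    ∀ F : Finset G, F.Nonempty → r * #F ≤ #(F * S) := by
  unfold Amenable at h
  push Not at h
  obtain ⟨S, ε, hε, hS⟩ := h
  refine ⟨insert 1 S⁻¹, 1 + ε, by linarith, Finset.insert_nonempty _ _, fun F hF => ?_⟩
  obtain ⟨s, hs, hs2⟩ := hS F⁻¹ (by simpa using hF)
  rw [Finset.card_inv] at hs2
  have h1 : #((F⁻¹.image fun g => s * g) \ F⁻¹) = #((F.image fun g => g * s⁻¹) \ F) := by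
    rw [← Finset.card_inv]
    congr 1
    ext x
    simp only [Finset.mem_inv', Finset.mem_sdiff, Finset.mem_image, inv_inv]
    constructor
    · rintro ⟨⟨a, ha, hax⟩, hx⟩
      refine ⟨⟨a⁻¹, ha, ?_⟩, by simpa using hx⟩
      rw [← inv_inj, ← hax]
      group
    · rintro ⟨⟨a, ha, hax⟩, hx⟩
      refine ⟨⟨a⁻¹, by simpa using ha, ?_⟩, by simpa using hx⟩
      rw [← hax]
      group
  rw [h1] at hs2
  have h2 : #F + #((F.image fun g => g * s⁻¹) \ F) ≤ #(F * insert 1 S⁻¹) := by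
    rw [← Finset.card_union_of_disjoint Finset.disjoint_sdiff]
    refine Finset.card_le_card ?_
    intro x hx
    rcases Finset.mem_union.1 hx with h | h
    · exact Finset.mem_mul.2 ⟨x, h, 1, Finset.mem_insert_self _ _, mul_one x⟩
    · obtain ⟨a, ha, rfl⟩ := Finset.mem_image.1 (Finset.mem_sdiff.1 h).1
      exact Finset.mem_mul.2 ⟨a, ha, s⁻¹, Finset.mem_insert_of_mem (Finset.inv_mem_inv hs), rfl⟩
  have h3 : ((#F + #((F.image fun g => g * s⁻¹) \ F) : ℕ) : ℝ) ≤ #(F * insert 1 S⁻¹) := by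
    exact_mod_cast h2
  push_cast at h3
  linarith

lemma expansion_pow (S : Finset G) (r : ℝ) (hr : 1 < r) (hS0 : S.Nonempty)
    (hS : ∀ F : Finset G, F.Nonempty → r * #F ≤ #(F * S)) (k : ℕ) (F : Finset G)
    (hF : F.Nonempty) : r ^ k * #F ≤ #(F * S ^ k) := by
  induction k with
  | zero => simp
  | succ k ih =>
    have h1 := hS (F * S ^ k) (hF.mul (hS0.pow))
    rw [mul_assoc, ← pow_succ] at h1
    refine le_trans ?_ h1
    rw [pow_succ, mul_comm (r ^ k) r, mul_assoc]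
    exact mul_le_mul_of_nonneg_left ih (by linarith)

lemma exists_large (r : ℝ) (hr : 1 < r) (l : ℕ) : ∃ k : ℕ, (64 * (k * l + 1 : ℕ) : ℝ) ≤ r ^ k := by
  have h1 := tendsto_pow_const_div_const_pow_of_one_lt 1 hr
  have h2 := tendsto_pow_const_div_const_pow_of_one_lt 0 hr
  have h3 := ((h1.const_mul (64 * (l : ℝ))).add (h2.const_mul 64))
  simp only [mul_zero, add_zero] at h3
  have h4 := h3.eventually (gt_mem_nhds (show (0 : ℝ) < 1 by norm_num))
  obtain ⟨k, hk⟩ := h4.exists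
  refine ⟨k, ?_⟩
  have hpos : 0 < r ^ k := by positivity
  have h5 : 64 * (l : ℝ) * ((k : ℝ) ^ 1 / r ^ k) + 64 * ((k : ℝ) ^ 0 / r ^ k) =
      (64 * (l * k + 1)) / r ^ k := by
    rw [pow_one, pow_zero]
    ring
  rw [h5, div_lt_one hpos] at hk
  push_cast
  linarith

lemma strong_expansion (h : ¬ Amenable G) : ∃ S : Finset G, S.Nonempty ∧
    ∀ F : Finset G, F.Nonempty → 64 * (Nat.log 2 #S + 1) * #F ≤ #(F * S) := by
  obtain ⟨S, r, hr, hS0, hS⟩ := expansion h
  obtain ⟨k, hk⟩ := exists_large r hr (Nat.log 2 #S + 1)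
  refine ⟨S ^ k, hS0.pow, fun F hF => ?_⟩
  have h1 := expansion_pow S r hr hS0 hS k F hF
  have h2 : Nat.log 2 #(S ^ k) ≤ k * (Nat.log 2 #S + 1) := by
    have e1 : #(S ^ k) ≤ #S ^ k := Finset.card_pow_le
    have e2 : #S ^ k ≤ 2 ^ (k * (Nat.log 2 #S + 1)) := by
      rw [mul_comm, pow_mul]
      exact Nat.pow_le_pow_left (Nat.lt_pow_succ_log_self (by norm_num) _).le k
    have e3 := Nat.log_mono_right (b := 2) (e1.trans e2)
    rwa [Nat.log_pow (by norm_num)] at e3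
  have h3 : ((64 * (Nat.log 2 #(S ^ k) + 1) * #F : ℕ) : ℝ) ≤ r ^ k * #F := by
    push_cast
    refine mul_le_mul_of_nonneg_right ?_ (by positivity)
    refine le_trans ?_ hk
    push_cast
    have : (Nat.log 2 #(S ^ k) : ℝ) ≤ k * (Nat.log 2 #S + 1) := by exact_mod_cast h2
    linarith
  exact_mod_cast h3.trans h1

/-- Bartholdi's theorem, in the form needed -/
theorem exists_injection (h : ¬ Amenable G) : ∃ (I : Type) (_ : Fintype I) (_ : Nonempty I)
    (p : ℕ) (_ : Fact p.Prime) (E : ℕ → I → MonoidAlgebra (ZMod p) G),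
    ∀ x : Fin (4 * Fintype.card I) → MonoidAlgebra (ZMod p) G,
      (∀ i, ∑ j, x j * E j i = 0) → x = 0 := by
  obtain ⟨S, hS0, hS⟩ := strong_expansion h
  obtain ⟨I, hI, hIn, R, hR⟩ := design S hS0
  classical
  set Q : Finset (G × I) := S ×ˢ (Finset.univ : Finset I) with hQ
  obtain ⟨p, hp, hpp⟩ := Nat.exists_infinite_primes (#Q + 1)
  have hfact : Fact p.Prime := ⟨hpp⟩
  obtain ⟨τ, hτ⟩ : ∃ τ : G × I → ZMod p, Set.InjOn τ Q := by
    let e := Q.equivFin
    refine ⟨fun a => if h : a ∈ Q then ((e ⟨a, h⟩ : ℕ) : ZMod p) else 0, ?_⟩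
    intro a ha b hb hab
    have ha' : a ∈ Q := ha
    have hb' : b ∈ Q := hb
    simp only [ha', hb', dif_pos] at hab
    have h1 : ((e ⟨a, ha'⟩ : ℕ)) < p := lt_of_lt_of_le (e ⟨a, ha'⟩).2 (by omega)
    have h2 : ((e ⟨b, hb'⟩ : ℕ)) < p := lt_of_lt_of_le (e ⟨b, hb'⟩).2 (by omega)
    have h3 := congrArg ZMod.val hab
    rw [ZMod.val_natCast_of_lt h1, ZMod.val_natCast_of_lt h2] at h3
    have h4 := e.injective (Fin.ext h3)
    simpa using h4
  refine ⟨I, hI, hIn, p, hfact, fun j i => ent S R τ j i, fun x hx => ?_⟩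
  refine injective_of_expansion S R τ ?_ (Nat.log 2 #S + 1) (Nat.succ_pos _) ?_ hS _ rfl x hx
  · rw [hQ, Finset.coe_product] at hτ
    exact hτ
  · intro D hD hDn
    convert hR D hD hDn using 4

end Pool.Agent.Q195.SE
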