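import Pool.Agent.Q195.SE3

/-!
# Duals of countable groups of exponent `p`
-/

set_option autoImplicit false

namespace Pool.Agent.Q195.SE

open Finset Filter Topology

/-- the dual group -/
abbrev Dl (A : Type) [AddCommGroup A] : Type := A →+ UnitAddCircle

/-- evaluation as a function -/
def ev (A : Type) [AddCommGroup A] (χ : Dl A) : A → UnitAddCircle := fun a => χ a

variable {A : Type} [AddCommGroup A]

lemma ev_injective : Function.Injective (ev A) := by
  intro χ χ' h
  ext a
  exact congrFun h a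

lemma isClosed_range_ev : IsClosed (Set.range (ev A)) := by
  have : Set.range (ev A) = ⋂ (a : A) (b : A), {f : A → UnitAddCircle | f (a + b) = f a + f b} := by
    ext f
    simp only [Set.mem_range, Set.mem_iInter, Set.mem_ofPred_eq]
    constructor
    · rintro ⟨χ, rfl⟩ a b
      exact map_add χ a b
    · intro h
      exact ⟨AddMonoidHom.mk' f h, rfl⟩
  rw [this]
  refine isClosed_iInter fun a => isClosed_iInter fun b => ?_
  exact isClosed_eq (continuous_apply _) ((continuous_apply a).add (continuous_apply b))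

section
variable [MetricSpace (Dl A)] (hm : IsInducing (ev A))

include hm

lemma dual_compact : CompactSpace (Dl A) := by
  have : Fact ((0 : ℝ) < 1) := ⟨one_pos⟩
  have h1 : IsClosedEmbedding (ev A) := ⟨⟨hm, ev_injective⟩, isClosed_range_ev⟩
  exact h1.compactSpace

lemma eval_continuous (a : A) : Continuous fun χ : Dl A => χ a :=
  (continuous_apply a).comp hm.continuous

lemma dual_bounded : ∃ D : ℝ, 0 ≤ D ∧ ∀ χ χ' : Dl A, dist χ χ' ≤ D := by
  have := dual_compact hm
  obtain ⟨D, hD⟩ := (Metric.isBounded_iff.1 (isCompact_univ (X := Dl A)).isBounded)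
  exact ⟨max D 0, le_max_right _ _, fun χ χ' =>
    (hD (Set.mem_univ _) (Set.mem_univ _)).trans (le_max_left _ _)⟩

lemma dual_upper (ε : ℝ) (hε : 0 < ε) : ∃ Q : Finset A, ∀ χ χ' : Dl A,
    (∀ a ∈ Q, χ a = χ' a) → dist χ χ' < ε := by
  have := dual_compact hm
  by_contra hcon
  push Not at hcon
  choose u v huv hd using hcon
  have h1 : ∃ x : Dl A × Dl A, MapClusterPt x atTop fun Q : Finset A => (u Q, v Q) := by
    obtain ⟨x, -, hx⟩ := (isCompact_univ (X := Dl A × Dl A)).exists_mapClusterPt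
      (f := (atTop : Filter (Finset A))) (u := fun Q : Finset A => (u Q, v Q)) (by simp)
    exact ⟨x, hx⟩
  obtain ⟨⟨χ, χ'⟩, hx⟩ := h1
  have h2 : ε ≤ dist χ χ' := by
    have hcl : IsClosed {x : Dl A × Dl A | ε ≤ dist x.1 x.2} :=
      isClosed_le continuous_const (continuous_fst.dist continuous_snd)
    exact hcl.mem_of_mapClusterPt hx (Eventually.of_forall fun Q => hd Q)
  have h3 : ∀ a, χ a = χ' a := by
    intro a
    have hcl : IsClosed {x : Dl A × Dl A | x.1 a = x.2 a} :=
      isClosed_eq ((eval_continuous hm a).comp continuous_fst)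
        ((eval_continuous hm a).comp continuous_snd)
    refine hcl.mem_of_mapClusterPt hx ?_
    filter_upwards [eventually_ge_atTop ({a} : Finset A)] with Q hQ
    exact huv Q a (hQ (Finset.mem_singleton_self a))
  have h4 : χ = χ' := by
    ext a
    exact h3 a
  rw [h4, dist_self] at h2
  linarith

lemma dual_lower (p : ℕ) (hp : 0 < p) (hA : ∀ a : A, p • a = 0) (a : A) :
    ∃ ε > 0, ∀ χ χ' : Dl A, dist χ χ' < ε → χ a = χ' a := by
  have := dual_compact hm
  have : Fact ((0 : ℝ) < 1) := ⟨one_pos⟩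
  -- the torsion is finite
  have hfin : {t : UnitAddCircle | p • t = 0}.Finite := AddCircle.finite_torsion (p := (1 : ℝ)) hp
  obtain ⟨r, hr, hr2⟩ : ∃ r > 0, ∀ t : UnitAddCircle, p • t = 0 → ‖t‖ < r → t = 0 := by
    by_cases hne : ({t : UnitAddCircle | p • t = 0} \ {0}).Nonempty
    · obtain ⟨t0, ht0, hmin⟩ := (hfin.sdiff).exists_minimalFor (fun t => ‖t‖) _ hne
      refine ⟨‖t0‖, norm_pos_iff.2 ht0.2, fun t ht htr => ?_⟩
      by_contra h0
      have := hmin (j := t) ⟨ht, h0⟩ htr.le
      linarith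
    · refine ⟨1, one_pos, fun t ht _ => ?_⟩
      by_contra h0
      exact hne ⟨t, ht, h0⟩
  have huc := CompactSpace.uniformContinuous_of_continuous (eval_continuous hm a)
  obtain ⟨ε, hε, h⟩ := Metric.uniformContinuous_iff.1 huc r hr
  refine ⟨ε, hε, fun χ χ' hd => ?_⟩
  have h1 := h hd
  rw [dist_eq_norm] at h1
  have h2 : p • (χ a - χ' a) = 0 := by
    rw [nsmul_sub, ← map_nsmul, ← map_nsmul, hA, map_zero, map_zero, sub_zero]
  exact sub_eq_zero.1 (hr2 _ h2 h1)

end

/-- the dual of `ℤ/p` is finite -/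
instance finite_dual (p : ℕ) [Fact p.Prime] : Finite (Dl (ZMod p)) := by
  have : Fact ((0 : ℝ) < 1) := ⟨one_pos⟩
  have hfin : {t : UnitAddCircle | p • t = 0}.Finite :=
    AddCircle.finite_torsion (p := (1 : ℝ)) (Fact.out : p.Prime).pos
  have := hfin.to_subtype
  refine Finite.of_injective (fun χ : Dl (ZMod p) => (⟨χ 1, by
    show p • χ 1 = 0
    rw [← map_nsmul]
    simp⟩ : {t : UnitAddCircle | p • t = 0})) ?_
  intro χ χ' h
  have h1 : χ 1 = χ' 1 := congrArg Subtype.val h
  ext x
  obtain ⟨n, rfl⟩ := ZMod.natCast_zmod_surjective x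
  have : (n : ZMod p) = n • (1 : ZMod p) := by simp
  rw [this, map_nsmul, map_nsmul, h1]

lemma two_le_card_dual (p : ℕ) [Fact p.Prime] : 2 ≤ Nat.card (Dl (ZMod p)) := by
  have h : ZMod.toAddCircle (N := p) ≠ (0 : Dl (ZMod p)) := by
    intro h
    have h1 := ZMod.toAddCircle_injective p
    have h2 : (1 : ZMod p) = 0 := h1 (by rw [h]; rfl)
    exact one_ne_zero h2
  have : Nontrivial (Dl (ZMod p)) := ⟨_, _, h⟩
  exact Finite.one_lt_card

end Pool.Agent.Q195.SE
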