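import Pool.Agent.Q195.SE4

/-!
# Coordinates on the dual of `(ℤ/p)[G]^ι`
-/

set_option autoImplicit false

namespace Pool.Agent.Q195.SE

open Finset Filter Topology

variable {G : Type} [Group G] {p : ℕ} [Fact p.Prime] {ι : Type} [Fintype ι] [DecidableEq ι]

/-- the free module -/
abbrev FM (G : Type) [Group G] (p : ℕ) (ι : Type) : Type := ι → MonoidAlgebra (ZMod p) G

/-- the coordinates of a character -/
noncomputable def crd (χ : Dl (FM G p ι)) (g : G) (i : ι) : Dl (ZMod p) :=
  AddMonoidHom.mk' (fun c => χ (Pi.single i (MonoidAlgebra.single g c))) (by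
    intro a b
    rw [MonoidAlgebra.single_add, Pi.single_add, map_add])

lemma crd_apply (χ : Dl (FM G p ι)) (g : G) (i : ι) (c : ZMod p) :
    crd χ g i c = χ (Pi.single i (MonoidAlgebra.single g c)) := rfl

/-- the character with given coordinates -/
noncomputable def chr (z : G → ι → Dl (ZMod p)) : Dl (FM G p ι) :=
  AddMonoidHom.mk' (fun a => ∑ i, (a i).coeff.sum (fun g c => z g i c)) (by
    intro a b
    rw [← Finset.sum_add_distrib]
    refine Finset.sum_congr rfl fun i _ => ?_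
    rw [Pi.add_apply, MonoidAlgebra.coeff_add]
    exact Finsupp.sum_add_index' (fun g => map_zero _) (fun g c c' => map_add _ c c'))

lemma crd_chr (z : G → ι → Dl (ZMod p)) (g : G) : crd (chr z) g = z g := by
  funext i
  ext c
  rw [crd_apply]
  show ∑ j, ((Pi.single i (MonoidAlgebra.single g c) : FM G p ι) j).coeff.sum
    (fun g c => z g j c) = _
  rw [Finset.sum_eq_single i]
  · rw [Pi.single_eq_same, MonoidAlgebra.coeff_single]
    exact Finsupp.sum_single_index (map_zero _)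
  · intro j _ hj
    rw [Pi.single_eq_of_ne hj]
    simp
  · intro h
    exact absurd (Finset.mem_univ i) h

lemma chr_crd (χ : Dl (FM G p ι)) : chr (crd χ) = χ := by
  refine AddMonoidHom.ext fun a => ?_
  show ∑ i, (a i).coeff.sum (fun g c => crd χ g i c) = χ a
  have h1 : a = ∑ i, Pi.single i (a i) := (Finset.univ_sum_single a).symm
  conv_rhs => rw [h1, map_sum]
  refine Finset.sum_congr rfl fun i _ => ?_
  have h2 : a i = (a i).coeff.sum MonoidAlgebra.single := (MonoidAlgebra.sum_coeff_single _).symm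
  conv_rhs => rw [h2]
  have h3 : χ (Pi.single i ((a i).coeff.sum MonoidAlgebra.single)) =
      (χ.comp (AddMonoidHom.single _ i)) ((a i).coeff.sum MonoidAlgebra.single) := rfl
  rw [h3, map_finsuppSum]
  rfl

lemma agree (E : Finset G) (χ χ' : Dl (FM G p ι)) (h : ∀ g ∈ E, crd χ g = crd χ' g)
    (a : FM G p ι) (ha : ∀ i, (a i).coeff.support ⊆ E) : χ a = χ' a := by
  rw [← chr_crd χ, ← chr_crd χ']
  show ∑ i, (a i).coeff.sum (fun g c => crd χ g i c) =
    ∑ i, (a i).coeff.sum (fun g c => crd χ' g i c)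
  refine Finset.sum_congr rfl fun i _ => ?_
  refine Finsupp.sum_congr fun g hg => ?_
  rw [h g (ha i hg)]

lemma exponent (a : FM G p ι) : p • a = 0 := by
  funext i
  refine MonoidAlgebra.ext ?_
  ext g
  show (p • (a i)).coeff g = 0
  rw [MonoidAlgebra.coeff_smul, Finsupp.smul_apply, nsmul_eq_mul, CharP.cast_eq_zero, zero_mul]

section
variable [MetricSpace (Dl (FM G p ι))] (hm : IsInducing (ev (FM G p ι)))

include hm

lemma crd_upper (ε : ℝ) (hε : 0 < ε) : ∃ E : Finset G, ∀ χ χ' : Dl (FM G p ι),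
    (∀ g ∈ E, crd χ g = crd χ' g) → dist χ χ' < ε := by
  classical
  obtain ⟨Q, hQ⟩ := dual_upper hm ε hε
  refine ⟨Q.biUnion fun a => Finset.univ.biUnion fun i => (a i).coeff.support, fun χ χ' h => ?_⟩
  refine hQ χ χ' fun a ha => ?_
  refine agree _ χ χ' h a fun i g hg => ?_
  exact Finset.mem_biUnion.2 ⟨a, ha, Finset.mem_biUnion.2 ⟨i, Finset.mem_univ _, hg⟩⟩

lemma crd_lower : ∃ ε > 0, ∀ χ χ' : Dl (FM G p ι), dist χ χ' < ε → crd χ 1 = crd χ' 1 := by
  have h : ∀ w : ι × ZMod p, ∃ ε > 0, ∀ χ χ' : Dl (FM G p ι), dist χ χ' < ε →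
      crd χ 1 w.1 w.2 = crd χ' 1 w.1 w.2 := fun w =>
    dual_lower hm p (Fact.out : p.Prime).pos exponent _
  choose ε hε h using h
  have hne : ∃ e > 0, ∀ w, e ≤ ε w := by
    rcases isEmpty_or_nonempty (ι × ZMod p) with hE | hN
    · exact ⟨1, one_pos, fun w => (hE.false w).elim⟩
    · obtain ⟨w0, hw0⟩ := Finite.exists_min ε
      exact ⟨ε w0, hε w0, hw0⟩
  obtain ⟨e, he, he2⟩ := hne
  refine ⟨e, he, fun χ χ' hd => ?_⟩
  funext i
  ext c
  exact h (i, c) χ χ' (lt_of_lt_of_le hd (he2 _))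

end

end Pool.Agent.Q195.SE
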