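import Pool.Agent.Q195.SE5

/-!
# Sofic entropy: definitions and the lower bound for free modules
-/

set_option autoImplicit false

namespace Pool.Agent.Q195.SE

open Finset Filter Topology
open scoped ENNReal

/-- A sofic approximation sequence of the group `G`. -/
structure IsSofic (G : Type) [Group G] (d : ℕ → ℕ) (σ : ∀ i, G → Equiv.Perm (Fin (d i))) :
    Prop where
  tendsto : Tendsto d atTop atTop
  mul : ∀ s t : G, Tendsto (fun i => (#{a | σ i s (σ i t a) ≠ σ i (s * t) a} : ℝ) / d i)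
    atTop (𝓝 0)
  free : ∀ s t : G, s ≠ t → Tendsto (fun i => (#{a | σ i s a = σ i t a} : ℝ) / d i) atTop (𝓝 0)

section
variable {G X : Type} [MetricSpace X]

/-- The distance `ρ₂(φ, ψ) = (1/d ∑_a ρ(φ(a), ψ(a))²)^(1/2)`. -/
noncomputable def rho2 {d : ℕ} (φ ψ : Fin d → X) : ℝ := √((∑ a, dist (φ a) (ψ a) ^ 2) / d)

/-- The set `Map(ρ, F, δ, σ)` of approximately equivariant maps. -/
def approxMaps (act : G → X → X) (F : Finset G) (δ : ℝ) {d : ℕ} (σ : G → Equiv.Perm (Fin d)) :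
    Set (Fin d → X) :=
  {φ | ∀ s ∈ F, rho2 (fun a => φ (σ s a)) (fun a => act s (φ a)) ≤ δ}

/-- The maximal cardinality `N_ε(T, ρ_∞)` of a finite subset of `T` whose points have pairwise
distances `ρ_∞(φ, ψ) = max_a ρ(φ(a), ψ(a)) ≥ ε`. -/
noncomputable def sep (ε : ℝ) {d : ℕ} (T : Set (Fin d → X)) : ℕ∞ :=
  ⨆ (P : Finset (Fin d → X)) (_ : (P : Set (Fin d → X)) ⊆ T ∧
    ∀ φ ∈ P, ∀ ψ ∈ P, φ ≠ ψ → ∃ a, ε ≤ dist (φ a) (ψ a)), (#P : ℕ∞)

/-- The topological sofic entropy of Kerr and Li. -/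
noncomputable def soficEntropy (act : G → X → X) (d : ℕ → ℕ)
    (σ : ∀ i, G → Equiv.Perm (Fin (d i))) : EReal :=
  ⨆ (ε : ℝ) (_ : 0 < ε), ⨅ (F : Finset G) (δ : ℝ) (_ : 0 < δ),
    limsup (fun i => ENNReal.log ((sep ε (approxMaps act F δ (σ i)) : ℕ∞) : ℝ≥0∞) / (d i : EReal))
      atTop

end

lemma le_sep {X : Type} [MetricSpace X] {ε : ℝ} {d : ℕ} {T : Set (Fin d → X)}
    (P : Finset (Fin d → X)) (h1 : (P : Set (Fin d → X)) ⊆ T)
    (h2 : ∀ φ ∈ P, ∀ ψ ∈ P, φ ≠ ψ → ∃ a, ε ≤ dist (φ a) (ψ a)) : (#P : ℕ∞) ≤ sep ε T :=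
  le_iSup₂_of_le (f := fun (P : Finset (Fin d → X)) (_ : (P : Set (Fin d → X)) ⊆ T ∧
    ∀ φ ∈ P, ∀ ψ ∈ P, φ ≠ ψ → ∃ a, ε ≤ dist (φ a) (ψ a)) => (#P : ℕ∞)) P ⟨h1, h2⟩ le_rfl

/-- logarithms of natural numbers -/
lemma log_nat (N : ℕ) (hN : 0 < N) : ENNReal.log ((N : ℕ∞) : ℝ≥0∞) = ((Real.log N : ℝ) : EReal) := by
  have h1 : ((N : ℕ∞) : ℝ≥0∞) = ENNReal.ofReal (N : ℝ) := by
    rw [ENNReal.ofReal_natCast]
    rfl
  rw [h1, ENNReal.log_ofReal_of_pos (by exact_mod_cast hN)]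

lemma log_sep_ge {M : ℕ∞} {N d : ℕ} (hN : 0 < N) (h : (N : ℕ∞) ≤ M) :
    ((Real.log N / d : ℝ) : EReal) ≤ ENNReal.log (M : ℝ≥0∞) / (d : EReal) := by
  have h1 : ENNReal.log ((N : ℕ∞) : ℝ≥0∞) ≤ ENNReal.log (M : ℝ≥0∞) :=
    ENNReal.log_monotone (by exact_mod_cast h)
  rw [log_nat N hN] at h1
  have h2 := EReal.div_le_div_right_of_nonneg (c := (d : EReal)) (by positivity) h1
  refine le_trans (le_of_eq ?_) h2
  rw [EReal.coe_div]
  rfl

lemma log_sep_le {M : ℕ∞} {N d : ℕ} (hN : 0 < N) (h : M ≤ (N : ℕ∞)) :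
    ENNReal.log (M : ℝ≥0∞) / (d : EReal) ≤ ((Real.log N / d : ℝ) : EReal) := by
  have h1 : ENNReal.log (M : ℝ≥0∞) ≤ ENNReal.log ((N : ℕ∞) : ℝ≥0∞) :=
    ENNReal.log_monotone (by exact_mod_cast h)
  rw [log_nat N hN] at h1
  have h2 := EReal.div_le_div_right_of_nonneg (c := (d : EReal)) (by positivity) h1
  refine le_trans h2 (le_of_eq ?_)
  rw [EReal.coe_div]
  rfl

/-- the entropy is nonnegative if there is a fixed point -/
lemma entropy_nonneg {G X : Type} [MetricSpace X] (act : G → X → X) (d : ℕ → ℕ)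
    (σ : ∀ i, G → Equiv.Perm (Fin (d i))) (x : X) (hx : ∀ s, act s x = x) :
    0 ≤ soficEntropy act d σ := by
  unfold soficEntropy
  refine le_iSup₂_of_le (1 : ℝ) one_pos ?_
  refine le_iInf fun F => le_iInf₂ fun δ hδ => ?_
  refine le_limsup_of_frequently_le (Eventually.of_forall fun i => ?_).frequently
  have h1 : ((1 : ℕ) : ℕ∞) ≤ sep 1 (approxMaps act F δ (σ i)) := by
    refine le_trans ?_ (le_sep (ε := 1) {fun _ => x} ?_ ?_)
    · simp
    · intro φ hφ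
      simp only [Finset.coe_singleton, Set.mem_singleton_iff] at hφ
      subst hφ
      intro s _
      simp only [rho2, hx, dist_self]
      simpa using hδ.le
    · intro φ hφ ψ hψ hne
      rw [Finset.mem_singleton] at hφ hψ
      exact absurd (hφ.trans hψ.symm) hne
  have h2 := log_sep_ge (d := d i) one_pos h1
  simpa using h2

variable {G : Type} [Group G] {p : ℕ} [Fact p.Prime] {ι : Type} [Fintype ι] [DecidableEq ι]

theorem lower [MetricSpace (Dl (FM G p ι))] (hm : IsInducing (ev (FM G p ι)))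
    (act : G → Dl (FM G p ι) → Dl (FM G p ι))
    (hact : ∀ g χ h, crd (act g χ) h = crd χ (g⁻¹ * h)) (d : ℕ → ℕ)
    (σ : ∀ i, G → Equiv.Perm (Fin (d i))) (hσ : IsSofic G d σ) :
    ((Fintype.card ι * Real.log (Nat.card (Dl (ZMod p))) : ℝ) : EReal) ≤
      soficEntropy act d σ := by
  classical
  obtain ⟨ε, hε, hlow⟩ := crd_lower hm
  obtain ⟨D, hD0, hD⟩ := dual_bounded hm
  unfold soficEntropy
  refine le_iSup₂_of_le ε hε ?_
  refine le_iInf fun F => le_iInf₂ fun δ hδ => ?_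
  obtain ⟨E, hE⟩ := crd_upper hm (δ / 2) (by positivity)
  refine le_limsup_of_frequently_le (Eventually.frequently ?_)
  -- the bad points
  have hbad : Tendsto (fun i => ∑ g ∈ E, ∑ s ∈ F,
      (#{a | σ i g⁻¹ (σ i s a) ≠ σ i (g⁻¹ * s) a} : ℝ) / d i) atTop (𝓝 0) := by
    have h1 : Tendsto (fun i => ∑ g ∈ E, ∑ s ∈ F,
      (#{a | σ i g⁻¹ (σ i s a) ≠ σ i (g⁻¹ * s) a} : ℝ) / d i) atTop
      (𝓝 (∑ g ∈ E, ∑ s ∈ F, (0 : ℝ))) :=
      tendsto_finsetSum _ fun g _ => tendsto_finsetSum _ fun s _ => hσ.mul g⁻¹ s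
    simpa using h1
  have hbad2 := (hbad.const_mul (D ^ 2)).eventually
    (gt_mem_nhds (show D ^ 2 * 0 < δ ^ 2 / 2 by rw [mul_zero]; positivity))
  filter_upwards [hbad2, hσ.tendsto.eventually_gt_atTop 0] with i hi hdi
  have hd0 : (0 : ℝ) < d i := by exact_mod_cast hdi
  set V := ι → Dl (ZMod p) with hV
  have hfinV : Finite V := by rw [hV]; infer_instance
  have : Fintype V := Fintype.ofFinite V
  let Φ : (Fin (d i) → V) → (Fin (d i) → Dl (FM G p ι)) := fun z a =>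
    chr (fun g => z (σ i g⁻¹ a))
  have hΦc : ∀ z a g, crd (Φ z a) g = z (σ i g⁻¹ a) := fun z a g => crd_chr _ g
  have hsep : ∀ z z', z ≠ z' → ∃ a, ε ≤ dist (Φ z a) (Φ z' a) := by
    intro z z' hne
    obtain ⟨b, hb⟩ := Function.ne_iff.1 hne
    refine ⟨(σ i 1).symm b, ?_⟩
    by_contra hlt
    have h1 := hlow _ _ (not_le.1 hlt)
    rw [hΦc, hΦc, inv_one, Equiv.apply_symm_apply] at h1
    exact hb h1
  have hΦinj : Function.Injective Φ := by
    intro z z' h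
    by_contra hne
    obtain ⟨a, ha⟩ := hsep z z' hne
    rw [h, dist_self] at ha
    linarith
  have hmaps : ∀ z, Φ z ∈ approxMaps act F δ (σ i) := by
    intro z s hs
    unfold rho2
    rw [Real.sqrt_le_left hδ.le]
    set B : Finset (Fin (d i)) := E.biUnion fun g => {a | σ i g⁻¹ (σ i s a) ≠ σ i (g⁻¹ * s) a}
      with hB
    have hgood : ∀ a, a ∉ B → dist (Φ z (σ i s a)) (act s (Φ z a)) < δ / 2 := by
      intro a ha
      refine hE _ _ fun g hg => ?_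
      rw [hact, hΦc, hΦc]
      have : σ i g⁻¹ (σ i s a) = σ i (g⁻¹ * s) a := by
        by_contra h
        exact ha (Finset.mem_biUnion.2 ⟨g, hg, by simpa using h⟩)
      rw [this, mul_inv_rev, inv_inv]
    have hBcard : (#B : ℝ) / d i ≤ ∑ g ∈ E, ∑ s ∈ F,
        (#{a | σ i g⁻¹ (σ i s a) ≠ σ i (g⁻¹ * s) a} : ℝ) / d i := by
      have h1 : (#B : ℝ) ≤ ∑ g ∈ E, (#{a | σ i g⁻¹ (σ i s a) ≠ σ i (g⁻¹ * s) a} : ℝ) := by
        exact_mod_cast Finset.card_biUnion_le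
      calc (#B : ℝ) / d i ≤ (∑ g ∈ E, (#{a | σ i g⁻¹ (σ i s a) ≠ σ i (g⁻¹ * s) a} : ℝ)) / d i := by
            gcongr
        _ = ∑ g ∈ E, (#{a | σ i g⁻¹ (σ i s a) ≠ σ i (g⁻¹ * s) a} : ℝ) / d i := by
            rw [Finset.sum_div]
        _ ≤ _ := by
            refine Finset.sum_le_sum fun g _ => ?_
            exact Finset.single_le_sum (f := fun s =>
              (#{a | σ i g⁻¹ (σ i s a) ≠ σ i (g⁻¹ * s) a} : ℝ) / d i)
              (fun _ _ => by positivity) hs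
    have hsum : ∑ a, dist (Φ z (σ i s a)) (act s (Φ z a)) ^ 2 ≤
        d i * (δ / 2) ^ 2 + #B * D ^ 2 := by
      have h1 : ∀ a, dist (Φ z (σ i s a)) (act s (Φ z a)) ^ 2 ≤
          (δ / 2) ^ 2 + if a ∈ B then D ^ 2 else 0 := by
        intro a
        split_ifs with h
        · have := hD (Φ z (σ i s a)) (act s (Φ z a))
          have h2 : dist (Φ z (σ i s a)) (act s (Φ z a)) ^ 2 ≤ D ^ 2 :=
            pow_le_pow_left₀ dist_nonneg this 2
          linarith [sq_nonneg (δ / 2)]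
        · rw [add_zero]
          exact pow_le_pow_left₀ dist_nonneg (hgood a h).le 2
      refine (Finset.sum_le_sum fun a _ => h1 a).trans (le_of_eq ?_)
      rw [Finset.sum_add_distrib, Finset.sum_const, Finset.sum_ite_mem, Finset.univ_inter,
        Finset.sum_const, Finset.card_univ, Fintype.card_fin, nsmul_eq_mul, nsmul_eq_mul]
    rw [div_le_iff₀ hd0]
    refine hsum.trans ?_
    have h3 : (#B : ℝ) * D ^ 2 ≤ δ ^ 2 / 2 * d i := by
      have h4 : D ^ 2 * ((#B : ℝ) / d i) ≤ δ ^ 2 / 2 :=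
        (mul_le_mul_of_nonneg_left hBcard (sq_nonneg D)).trans hi.le
      have h5 : D ^ 2 * ((#B : ℝ) / d i) = (#B * D ^ 2) / d i := by ring
      rw [h5, div_le_iff₀ hd0] at h4
      exact h4
    nlinarith [sq_nonneg δ]
  -- the separated set
  have h1 : ((Nat.card V ^ d i : ℕ) : ℕ∞) ≤ sep ε (approxMaps act F δ (σ i)) := by
    refine le_trans (le_of_eq ?_) (le_sep (Finset.univ.image Φ) ?_ ?_)
    · rw [Finset.card_image_of_injective _ hΦinj, Finset.card_univ, Fintype.card_fun,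
        Fintype.card_fin, Nat.card_eq_fintype_card]
    · intro φ hφ
      obtain ⟨z, -, rfl⟩ := Finset.mem_image.1 (Finset.mem_coe.1 hφ)
      exact hmaps z
    · intro φ hφ ψ hψ hne
      obtain ⟨z, -, rfl⟩ := Finset.mem_image.1 hφ
      obtain ⟨z', -, rfl⟩ := Finset.mem_image.1 hψ
      exact hsep z z' fun h => hne (by rw [h])
  have hVcard : Nat.card V = Nat.card (Dl (ZMod p)) ^ Fintype.card ι := by
    rw [hV, Nat.card_fun, Nat.card_eq_fintype_card (α := ι)]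
  have hk : 0 < Nat.card (Dl (ZMod p)) := Nat.card_pos
  have h2 := log_sep_ge (d := d i) (by rw [hVcard]; positivity) h1
  refine le_trans (le_of_eq ?_) h2
  congr 1
  rw [hVcard]
  push_cast
  rw [Real.log_pow, Real.log_pow]
  field_simp

end Pool.Agent.Q195.SE
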