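import Pool.Agent.Q195.SE6

/-!
# The upper bound for the entropy of the dual of a free module
-/

set_option autoImplicit false

namespace Pool.Agent.Q195.SE

open Finset Filter Topology
open scoped ENNReal

lemma count_partial (W : Type) [Fintype W] [DecidableEq W] (q e d : ℕ) (hq : 1 ≤ q)
    (hw : Fintype.card W = q ^ e) :
    #{β : Fin d → Option W | e * #{a | β a ≠ none} ≤ d} ≤ 2 ^ d * q ^ d := by
  have hq0 : (0 : ℝ) < q := by exact_mod_cast hq
  set w : ℝ := (Fintype.card W : ℝ) with hwd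
  have hw0 : 0 < w := by rw [hwd, hw]; positivity
  let u : Option W → ℝ := fun o => if o ≠ none then w⁻¹ else 1
  have h1 : ∑ o, u o = 2 := by
    rw [Fintype.sum_option]
    simp only [u, ne_eq, not_true_eq_false, if_false, reduceCtorEq, not_false_eq_true, if_true,
      Finset.sum_const, Finset.card_univ, nsmul_eq_mul]
    rw [← hwd, mul_inv_cancel₀ hw0.ne']
    norm_num
  have h2 := Fintype.sum_pow u d
  rw [h1] at h2
  have h3 : ∀ β : Fin d → Option W, ∏ a, u (β a) = (w⁻¹) ^ #{a | β a ≠ none} := by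
    intro β
    simp only [u]
    rw [Finset.prod_ite, Finset.prod_const, Finset.prod_const_one, mul_one]
  simp only [h3] at h2
  have h4 : ∑ β ∈ ({β : Fin d → Option W | e * #{a | β a ≠ none} ≤ d} : Finset _),
      ((q : ℝ) ^ d)⁻¹ ≤ 2 ^ d := by
    rw [h2]
    refine (Finset.sum_le_sum fun β hβ => ?_).trans
      (Finset.sum_le_sum_of_subset_of_nonneg (Finset.subset_univ _) fun _ _ _ => by positivity)
    have hb := (Finset.mem_filter.1 hβ).2
    rw [inv_pow]
    refine inv_anti₀ (by positivity) ?_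
    rw [hwd, hw]
    push_cast
    rw [← pow_mul]
    exact pow_le_pow_right₀ (by exact_mod_cast hq) hb
  rw [Finset.sum_const, nsmul_eq_mul, ← div_eq_mul_inv, div_le_iff₀ (by positivity)] at h4
  exact_mod_cast h4

lemma chebyshev {X : Type} [MetricSpace X] {d : ℕ} (hd : 0 < d) (φ ψ : Fin d → X) (ε δ : ℝ)
    (hε : 0 < ε) (h : rho2 φ ψ ≤ δ) (hδ : 0 < δ) :
    (#{a | ε ≤ dist (φ a) (ψ a)} : ℝ) ≤ d * (δ / ε) ^ 2 := by
  have hd0 : (0 : ℝ) < d := by exact_mod_cast hd
  unfold rho2 at h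
  rw [Real.sqrt_le_left hδ.le, div_le_iff₀ hd0] at h
  have h1 : (#{a | ε ≤ dist (φ a) (ψ a)} : ℝ) * ε ^ 2 ≤ ∑ a, dist (φ a) (ψ a) ^ 2 := by
    rw [← nsmul_eq_mul, ← Finset.sum_const]
    refine (Finset.sum_le_sum fun a ha => ?_).trans
      (Finset.sum_le_sum_of_subset_of_nonneg (Finset.subset_univ _) fun _ _ _ => by positivity)
    exact pow_le_pow_left₀ hε.le (Finset.mem_filter.1 ha).2 2
  rw [div_pow, mul_div_assoc', le_div_iff₀ (by positivity)]
  linarith

variable {G : Type} [Group G] {p : ℕ} [Fact p.Prime] {ι : Type} [Fintype ι] [DecidableEq ι]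

theorem upper [Nonempty ι] [MetricSpace (Dl (FM G p ι))] (hm : IsInducing (ev (FM G p ι)))
    (act : G → Dl (FM G p ι) → Dl (FM G p ι))
    (hact : ∀ g χ h, crd (act g χ) h = crd χ (g⁻¹ * h)) (d : ℕ → ℕ)
    (σ : ∀ i, G → Equiv.Perm (Fin (d i))) (hd : Tendsto d atTop atTop) :
    soficEntropy act d σ ≤
      ((3 * (Fintype.card ι * Real.log (Nat.card (Dl (ZMod p)))) : ℝ) : EReal) := by
  classical
  unfold soficEntropy
  refine iSup₂_le fun ε hε => ?_
  obtain ⟨E0, hE0⟩ := crd_upper hm ε hε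
  obtain ⟨ε1, hε1, hlow⟩ := crd_lower hm
  set E := insert 1 E0 with hE
  have he : 0 < #E := Finset.card_pos.2 ⟨1, Finset.mem_insert_self _ _⟩
  have he0 : (0 : ℝ) < #E := by exact_mod_cast he
  set δ : ℝ := ε1 / #E with hδd
  have hδ : 0 < δ := by positivity
  refine iInf_le_of_le (E.image fun g => g⁻¹) (iInf₂_le_of_le δ hδ ?_)
  refine limsup_le_of_le (h := ?_)
  filter_upwards [hd.eventually_gt_atTop 0] with i hdi
  have hd0 : (0 : ℝ) < d i := by exact_mod_cast hdi
  set V := ι → Dl (ZMod p) with hV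
  have hfinV : Finite V := by rw [hV]; infer_instance
  have : Fintype V := Fintype.ofFinite V
  set q := Fintype.card V with hq
  have hVcard : q = Nat.card (Dl (ZMod p)) ^ Fintype.card ι := by
    rw [hq, ← Nat.card_eq_fintype_card, hV, Nat.card_fun, Nat.card_eq_fintype_card (α := ι)]
  have hk2 := two_le_card_dual p
  have hq2 : 2 ≤ q := by
    rw [hVcard]
    calc 2 ≤ Nat.card (Dl (ZMod p)) ^ 1 := by rw [pow_one]; exact hk2
      _ ≤ _ := Nat.pow_le_pow_right (by omega) Fintype.card_pos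
  -- bad points
  let bad : (Fin (d i) → Dl (FM G p ι)) → Finset (Fin (d i)) := fun φ =>
    {a | ∃ g ∈ E, crd (φ (σ i g⁻¹ a)) 1 ≠ crd (act g⁻¹ (φ a)) 1}
  have hbad : ∀ φ ∈ approxMaps act (E.image fun g => g⁻¹) δ (σ i), #E * #(bad φ) ≤ d i := by
    intro φ hφ
    have h1 : #(bad φ) ≤ ∑ g ∈ E, #{a | ε1 ≤ dist (φ (σ i g⁻¹ a)) (act g⁻¹ (φ a))} := by
      refine le_trans (Finset.card_le_card ?_) Finset.card_biUnion_le
      intro a ha
      obtain ⟨g, hg, hne⟩ := (Finset.mem_filter.1 ha).2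
      refine Finset.mem_biUnion.2 ⟨g, hg, Finset.mem_filter.2 ⟨Finset.mem_univ _, ?_⟩⟩
      by_contra hlt
      exact hne (hlow _ _ (not_le.1 hlt))
    have h2 : ∀ g ∈ E, (#{a | ε1 ≤ dist (φ (σ i g⁻¹ a)) (act g⁻¹ (φ a))} : ℝ) ≤
        d i * (δ / ε1) ^ 2 := fun g hg =>
      chebyshev hdi _ _ ε1 δ hε1 (hφ g⁻¹ (Finset.mem_image_of_mem _ hg)) hδ
    have h3 : (#(bad φ) : ℝ) ≤ #E * (d i * (δ / ε1) ^ 2) := by
      calc (#(bad φ) : ℝ) ≤ ((∑ g ∈ E, #{a | ε1 ≤ dist (φ (σ i g⁻¹ a)) (act g⁻¹ (φ a))} : ℕ) : ℝ) := by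
            exact_mod_cast h1
        _ = ∑ g ∈ E, (#{a | ε1 ≤ dist (φ (σ i g⁻¹ a)) (act g⁻¹ (φ a))} : ℝ) := by push_cast; rfl
        _ ≤ ∑ g ∈ E, (d i * (δ / ε1) ^ 2 : ℝ) := Finset.sum_le_sum h2
        _ = _ := by rw [Finset.sum_const, nsmul_eq_mul]
    have h4 : δ / ε1 = 1 / #E := by
      rw [hδd]
      field_simp
    rw [h4] at h3
    have h5 : (#E : ℝ) * #(bad φ) ≤ d i := by
      calc (#E : ℝ) * #(bad φ) ≤ #E * (#E * (d i * (1 / #E) ^ 2)) := by gcongr
        _ = d i := by field_simp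
    exact_mod_cast h5
  -- the code
  let c : (Fin (d i) → Dl (FM G p ι)) → (Fin (d i) → V) × (Fin (d i) → Option (E → V)) :=
    fun φ => (fun a => crd (φ a) 1, fun a => if a ∈ bad φ then some (fun g => crd (φ a) g) else none)
  have hcsupp : ∀ φ, ({a | (c φ).2 a ≠ none} : Finset _) = bad φ := by
    intro φ
    ext a
    simp only [c, Finset.mem_filter, Finset.mem_univ, true_and]
    by_cases h : a ∈ bad φ
    · simp [h]
    · simp [h]
  have hcode : ∀ φ ψ, c φ = c ψ → ∀ a, dist (φ a) (ψ a) < ε := by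
    intro φ ψ h a
    refine hE0 _ _ fun g hg => ?_
    have hgE : g ∈ E := Finset.mem_insert_of_mem hg
    have hw : ∀ b, crd (φ b) 1 = crd (ψ b) 1 := fun b => congrFun (congrArg Prod.fst h) b
    have hβ := congrFun (congrArg Prod.snd h) a
    by_cases ha : a ∈ bad φ
    · have ha' : a ∈ bad ψ := by
        rw [← hcsupp ψ, Finset.mem_filter]
        refine ⟨Finset.mem_univ _, ?_⟩
        rw [← hβ]
        simp [c, ha]
      simp only [c, ha, ha', if_true, Option.some.injEq] at hβ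
      exact congrFun hβ ⟨g, hgE⟩
    · have ha' : a ∉ bad ψ := by
        intro ha2
        apply ha
        rw [← hcsupp φ, Finset.mem_filter]
        refine ⟨Finset.mem_univ _, ?_⟩
        rw [hβ]
        simp [c, ha2]
      have key : ∀ θ : Fin (d i) → Dl (FM G p ι), a ∉ bad θ →
          crd (θ a) g = crd (θ (σ i g⁻¹ a)) 1 := by
        intro θ hθ
        have h1 : crd (θ (σ i g⁻¹ a)) 1 = crd (act g⁻¹ (θ a)) 1 := by
          by_contra hne
          exact hθ (Finset.mem_filter.2 ⟨Finset.mem_univ _, g, hgE, hne⟩)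
        rw [h1, hact, inv_inv, mul_one]
      rw [key φ ha, key ψ ha', hw]
  have hsep : sep ε (approxMaps act (E.image fun g => g⁻¹) δ (σ i)) ≤ ((q ^ (3 * d i) : ℕ) : ℕ∞) := by
    refine iSup₂_le fun P hP => ?_
    obtain ⟨hP1, hP2⟩ := hP
    have hinj : Set.InjOn c P := by
      intro φ hφ ψ hψ h
      by_contra hne
      obtain ⟨a, ha⟩ := hP2 φ hφ ψ hψ hne
      exact absurd (hcode φ ψ h a) (not_lt.2 ha)
    have h1 : #P ≤ #((Finset.univ : Finset (Fin (d i) → V)) ×ˢ
        ({β : Fin (d i) → Option (E → V) | #E * #{a | β a ≠ none} ≤ d i} : Finset _)) := by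
      refine Finset.card_le_card_of_injOn c ?_ hinj
      intro φ hφ
      refine Finset.mem_coe.2 (Finset.mem_product.2 ⟨Finset.mem_univ _, ?_⟩)
      rw [Finset.mem_filter]
      refine ⟨Finset.mem_univ _, ?_⟩
      rw [hcsupp φ]
      exact hbad φ (hP1 hφ)
    have h2 := count_partial (E → V) q #E (d i) (by omega) (by
      rw [Fintype.card_fun, Fintype.card_coe])
    rw [Finset.card_product, Finset.card_univ, Fintype.card_fun, Fintype.card_fin] at h1
    have h3 : #P ≤ q ^ (3 * d i) := by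
      calc #P ≤ q ^ d i * (2 ^ d i * q ^ d i) := h1.trans (Nat.mul_le_mul_left _ h2)
        _ ≤ q ^ d i * (q ^ d i * q ^ d i) := by gcongr
        _ = q ^ (3 * d i) := by ring
    exact_mod_cast h3
  refine (log_sep_le (d := d i) (by positivity) hsep).trans (le_of_eq ?_)
  congr 1
  rw [hVcard]
  push_cast
  rw [Real.log_pow, Real.log_pow]
  push_cast
  field_simp

end Pool.Agent.Q195.SE
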