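import Pool.Agent.Q195.SE7

/-!
# The exact sequence and the failure of additivity
-/

set_option autoImplicit false

namespace Pool.Agent.Q195.SE

open Finset Filter Topology
open scoped ENNReal

/-- Amenability of a group (Følner's condition). -/
def IsAmenable (G : Type) [Group G] : Prop :=
  ∀ (S : Finset G) (ε : ℝ), 0 < ε → ∃ F : Finset G, F.Nonempty ∧
    ∀ s ∈ S, (({g | g ∈ F ∧ s * g ∉ F} : Set G).ncard : ℝ) ≤ ε * #F

/-- The action of `G` on the dual of a `ℤ[G]`-module: `(g χ)(a) = χ(g⁻¹ a)`. -/
noncomputable def dualAct (G A : Type) [Group G] [AddCommGroup A] [Module (MonoidAlgebra ℤ G) A]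
    (g : G) (χ : A →+ UnitAddCircle) : A →+ UnitAddCircle :=
  χ.comp (DistribSMul.toAddMonoidHom A (MonoidAlgebra.single g⁻¹ 1 : MonoidAlgebra ℤ G))

/-- `m` is a metric on the dual group which induces the topology of pointwise convergence. -/
def Compatible (A : Type) [AddCommGroup A] (m : MetricSpace (A →+ UnitAddCircle)) : Prop :=
  letI := m
  IsInducing (fun (χ : A →+ UnitAddCircle) (a : A) => χ a)

/-- The entropy of the action of `G` on the dual of `A`, with the metric `m`. -/
noncomputable def entropy (G A : Type) [Group G] [AddCommGroup A] [Module (MonoidAlgebra ℤ G) A]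
    (m : MetricSpace (A →+ UnitAddCircle)) (d : ℕ → ℕ) (σ : ∀ i, G → Equiv.Perm (Fin (d i))) :
    EReal :=
  letI := m
  soficEntropy (dualAct G A) d σ


theorem exists_compatible (A : Type) [AddCommGroup A] [Countable A] :
    ∃ m : MetricSpace (A →+ UnitAddCircle), Compatible A m := by
  let τ : TopologicalSpace (A →+ UnitAddCircle) :=
    TopologicalSpace.induced (fun (χ : A →+ UnitAddCircle) (a : A) => χ a) inferInstance
  have hi : @IsInducing _ _ τ _ (fun (χ : A →+ UnitAddCircle) (a : A) => χ a) :=
    @IsInducing.mk _ _ τ _ _ rfl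
  have he : @IsEmbedding _ _ τ _ (fun (χ : A →+ UnitAddCircle) (a : A) => χ a) :=
    @IsEmbedding.mk _ _ τ _ _ hi ev_injective
  have hmet : @TopologicalSpace.MetrizableSpace _ τ := he.metrizableSpace
  exact ⟨@TopologicalSpace.metrizableSpaceMetric _ τ hmet, hi⟩

lemma isAmenable_of {G : Type} [Group G] [DecidableEq G] (h : Amenable G) : IsAmenable G := by
  intro S ε hε
  obtain ⟨F, hF, hS⟩ := h S ε hε
  refine ⟨F, hF, fun s hs => le_trans ?_ (hS s hs)⟩
  have h1 : ({g | g ∈ F ∧ s * g ∉ F} : Set G).ncard ≤ #((F.image fun g => s * g) \ F) := by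
    rw [← Set.ncard_coe_finset]
    refine Set.ncard_le_ncard_of_injOn (fun g => s * g) ?_ ?_ (Finset.finite_toSet _)
    · rintro g ⟨hg1, hg2⟩
      rw [Finset.mem_coe, Finset.mem_sdiff]
      exact ⟨Finset.mem_image_of_mem _ hg1, hg2⟩
    · intro a _ b _ hab
      exact mul_left_cancel hab
  exact_mod_cast h1

section
variable (G : Type) [Group G] (p : ℕ) [Fact p.Prime]

/-- reduction modulo `p` of the group ring -/
noncomputable def red : MonoidAlgebra ℤ G →+* MonoidAlgebra (ZMod p) G :=
  MonoidAlgebra.mapRingHom G (Int.castRingHom (ZMod p))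

lemma red_single (g : G) : red G p (MonoidAlgebra.single g 1) = MonoidAlgebra.single g 1 := by
  unfold red
  rw [MonoidAlgebra.mapRingHom_single]
  simp

/-- the module structure over `ℤ[G]` -/
noncomputable def modFM (ι : Type) : Module (MonoidAlgebra ℤ G) (FM G p ι) :=
  Module.compHom (FM G p ι) (red G p)

end

variable {G : Type} [Group G] {p : ℕ} [Fact p.Prime] {ι : Type} [Fintype ι] [DecidableEq ι]

lemma crd_dualAct (g : G) (χ : Dl (FM G p ι)) (h : G) :
    letI := modFM G p ι
    crd (dualAct G (FM G p ι) g χ) h = crd χ (g⁻¹ * h) := by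
  letI := modFM G p ι
  funext i
  ext c
  rw [crd_apply, crd_apply]
  show χ ((red G p (MonoidAlgebra.single g⁻¹ 1)) • (Pi.single i (MonoidAlgebra.single h c) :
    FM G p ι)) = _
  rw [red_single]
  congr 1
  funext j
  rw [Pi.smul_apply, smul_eq_mul]
  by_cases hj : j = i
  · subst hj
    rw [Pi.single_eq_same, Pi.single_eq_same, MonoidAlgebra.single_mul_single, one_mul]
  · rw [Pi.single_eq_of_ne hj, Pi.single_eq_of_ne hj, mul_zero]

/-- additivity fails -/
theorem main (G : Type) [Group G] [Countable G] (hG : ¬ IsAmenable G) (d : ℕ → ℕ)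
    (σ : ∀ i, G → Equiv.Perm (Fin (d i))) (hσ : IsSofic G d σ) :
    ∃ (A B C : Type) (_ : AddCommGroup A) (_ : AddCommGroup B) (_ : AddCommGroup C)
      (_ : Module (MonoidAlgebra ℤ G) A) (_ : Module (MonoidAlgebra ℤ G) B)
      (_ : Module (MonoidAlgebra ℤ G) C) (f : A →ₗ[MonoidAlgebra ℤ G] B)
      (g : B →ₗ[MonoidAlgebra ℤ G] C),
      Countable A ∧ Countable B ∧ Countable C ∧
      Function.Injective f ∧ Function.Exact f g ∧ Function.Surjective g ∧
      ∀ (mA : MetricSpace (A →+ UnitAddCircle)) (mB : MetricSpace (B →+ UnitAddCircle))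
        (mC : MetricSpace (C →+ UnitAddCircle)),
        Compatible A mA → Compatible B mB → Compatible C mC →
        entropy G B mB d σ < entropy G A mA d σ + entropy G C mC d σ := by
  classical
  obtain ⟨I, hI, hIn, p, hp, E, hE⟩ := exists_injection (fun h => hG (isAmenable_of h))
  set n := 4 * Fintype.card I with hn
  letI MA : Module (MonoidAlgebra ℤ G) (FM G p (Fin n)) := modFM G p (Fin n)
  letI MB : Module (MonoidAlgebra ℤ G) (FM G p I) := modFM G p I
  let f : FM G p (Fin n) →ₗ[MonoidAlgebra ℤ G] FM G p I :=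
    { toFun := fun x i => ∑ j, x j * E j i
      map_add' := by
        intro x y
        funext i
        simp only [Pi.add_apply, add_mul, Finset.sum_add_distrib]
      map_smul' := by
        intro r x
        funext i
        show ∑ j, (red G p r * x j) * E j i = red G p r * ∑ j, x j * E j i
        rw [Finset.mul_sum]
        simp only [mul_assoc] }
  have hf : Function.Injective f := by
    rw [← LinearMap.ker_eq_bot, LinearMap.ker_eq_bot']
    intro x hx
    exact hE x fun i => congrFun hx i
  have hcA : Countable (MonoidAlgebra (ZMod p) G) := by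
    have : Countable (G →₀ ZMod p) := inferInstance
    exact MonoidAlgebra.coeff_injective.countable
  have hcB : Countable (FM G p I) := inferInstance
  refine ⟨FM G p (Fin n), FM G p I, FM G p I ⧸ LinearMap.range f, inferInstance, inferInstance,
    inferInstance, MA, MB, inferInstance, f, (LinearMap.range f).mkQ, inferInstance, hcB,
    (Submodule.mkQ_surjective _).countable, hf, ?_, Submodule.mkQ_surjective _, ?_⟩
  · rw [LinearMap.exact_iff, Submodule.ker_mkQ]
  · intro mA mB mC hA hB hC
    have h1 : entropy G (FM G p I) mB d σ ≤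
        ((3 * (Fintype.card I * Real.log (Nat.card (Dl (ZMod p)))) : ℝ) : EReal) := by
      letI := mB
      exact upper hB (dualAct G (FM G p I)) (fun g χ h => crd_dualAct g χ h) d σ hσ.tendsto
    have h2 : ((Fintype.card (Fin n) * Real.log (Nat.card (Dl (ZMod p))) : ℝ) : EReal) ≤
        entropy G (FM G p (Fin n)) mA d σ := by
      letI := mA
      exact lower hA (dualAct G (FM G p (Fin n))) (fun g χ h => crd_dualAct g χ h) d σ hσ
    have h3 : 0 ≤ entropy G (FM G p I ⧸ LinearMap.range f) mC d σ := by
      letI := mC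
      refine entropy_nonneg _ d σ (0 : (FM G p I ⧸ LinearMap.range f) →+ UnitAddCircle) ?_
      intro s
      rfl
    have hk : (2 : ℝ) ≤ Nat.card (Dl (ZMod p)) := by exact_mod_cast two_le_card_dual p
    have hlog : 0 < Real.log (Nat.card (Dl (ZMod p))) := Real.log_pos (by linarith)
    have hcI : (0 : ℝ) < Fintype.card I := by exact_mod_cast Fintype.card_pos
    have h4 : ((3 * (Fintype.card I * Real.log (Nat.card (Dl (ZMod p)))) : ℝ) : EReal) <
        ((Fintype.card (Fin n) * Real.log (Nat.card (Dl (ZMod p))) : ℝ) : EReal) := by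
      rw [EReal.coe_lt_coe_iff, Fintype.card_fin, hn]
      push_cast
      nlinarith [mul_pos hcI hlog]
    calc entropy G (FM G p I) mB d σ ≤ _ := h1
      _ < _ := h4
      _ ≤ entropy G (FM G p (Fin n)) mA d σ := h2
      _ = entropy G (FM G p (Fin n)) mA d σ + 0 := (add_zero _).symm
      _ ≤ _ := by gcongr

end Pool.Agent.Q195.SE
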