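import Pool.Agent.Q195.MB1

set_option autoImplicit false

/-! Banach spaces whose unit ball is the closed absolutely convex hull of a given set of finitely
supported vectors. -/

namespace Pool.Agent.Q195.SS

open Filter Topology

theorem exists_hull (G : Set (ℕ →₀ ℝ)) (K : ℕ → ℝ) (hK : ∀ g ∈ G, ∀ k, |g k| ≤ K k)
    (he : ∀ k, Finsupp.single k 1 ∈ G) :
    ∃ (X : Type) (_ : NormedAddCommGroup X) (_ : NormedSpace ℝ X) (_ : CompleteSpace X)
      (v : (ℕ →₀ ℝ) →ₗ[ℝ] X) (c : ℕ → X →L[ℝ] ℝ),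
      (∀ k w, c k (v w) = w k) ∧ (∀ g ∈ G, ‖v g‖ ≤ 1) ∧
      (∀ (f : X →L[ℝ] ℝ) (C : ℝ), 0 ≤ C → (∀ g ∈ G, |f (v g)| ≤ C) → ‖f‖ ≤ C) ∧
      (∀ x, (∀ k, c k x = 0) → x = 0) := by
  classical
  let L : Type := lp (fun _ : G => ℝ) 1
  have hq : ∀ k : ℕ, ∃ φ : lp (fun _ : G => ℝ) 1 →L[ℝ] ℝ, ∀ w, HasSum (fun γ : G => w γ * (γ : ℕ →₀ ℝ) k) (φ w) :=
    fun k => MB.exists_pairing (𝕜 := ℝ) (fun γ : G => (γ : ℕ →₀ ℝ) k) (K k) (fun γ => hK γ γ.2 k)
  choose q hq using hq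
  have hqs : ∀ k (γ : G), q k (lp.single 1 γ (1:ℝ)) = (γ : ℕ →₀ ℝ) k := by
    intro k γ
    have h1 := hq k (lp.single 1 γ (1:ℝ))
    have h2 : HasSum (fun γ' : G => (lp.single 1 γ (1:ℝ) : lp (fun _ : G => ℝ) 1) γ' * (γ' : ℕ →₀ ℝ) k)
        ((γ : ℕ →₀ ℝ) k) := by
      convert hasSum_single γ ?_ using 1
      · rw [lp.single_apply_self, one_mul]
      · intro γ' h'
        rw [lp.single_apply_ne _ _ _ h', zero_mul]
    exact h1.unique h2
  let N : Submodule ℝ (lp (fun _ : G => ℝ) 1) := ⨅ k, (q k).ker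
  have hN : ∀ a, a ∈ N ↔ ∀ k, q k a = 0 := by
    intro a
    simp only [N, Submodule.mem_iInf]
    exact Iff.rfl
  have hNc : IsClosed (N : Set (lp (fun _ : G => ℝ) 1)) := by
    have : (N : Set (lp (fun _ : G => ℝ) 1)) = ⋂ k, {a | q k a = 0} := by
      ext a
      simp only [Set.mem_iInter, SetLike.mem_coe]
      exact hN a
    rw [this]
    exact isClosed_iInter fun k => isClosed_eq (q k).continuous continuous_const
  haveI := hNc
  let π : lp (fun _ : G => ℝ) 1 →L[ℝ] (lp (fun _ : G => ℝ) 1 ⧸ N) := N.mkQL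
  let c : ℕ → (lp (fun _ : G => ℝ) 1 ⧸ N) →L[ℝ] ℝ := fun k => N.liftQL (q k) (by
    intro a ha; exact (hN a).mp ha k)
  have hc : ∀ k a, c k (π a) = q k a := fun k a => rfl
  have hπ : ∀ a, ‖π a‖ ≤ ‖a‖ := fun a => Submodule.Quotient.norm_mk_le N a
  have hinj : ∀ x, (∀ k, c k x = 0) → x = 0 := by
    intro x hx
    obtain ⟨a, rfl⟩ := Submodule.Quotient.mk_surjective N x
    rw [Submodule.Quotient.mk_eq_zero, hN]
    exact hx
  let v : (ℕ →₀ ℝ) →ₗ[ℝ] (lp (fun _ : G => ℝ) 1 ⧸ N) :=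
    Finsupp.linearCombination ℝ (fun k => π (lp.single 1 (⟨Finsupp.single k 1, he k⟩ : G) (1:ℝ)))
  have hcv : ∀ k w, c k (v w) = w k := by
    intro k w
    simp only [v]
    rw [Finsupp.linearCombination_apply, Finsupp.sum, map_sum]
    have : ∀ i ∈ w.support, c k (w i • π (lp.single 1 (⟨Finsupp.single i 1, he i⟩ : G) (1:ℝ))) =
        if i = k then w k else 0 := by
      intro i _
      rw [map_smul, hc, hqs]
      by_cases hik : i = k
      · subst hik; simp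
      · simp [hik, Finsupp.single_apply]
    rw [Finset.sum_congr rfl this, Finset.sum_ite_eq' ]
    by_cases h : k ∈ w.support
    · rw [if_pos h]
    · rw [if_neg h, Finsupp.notMem_support_iff.mp h]
  have hvg : ∀ g (hg : g ∈ G), v g = π (lp.single 1 (⟨g, hg⟩ : G) (1:ℝ)) := by
    intro g hg
    rw [← sub_eq_zero]
    apply hinj
    intro k
    rw [map_sub, hcv, hc, hqs]
    simp
  refine ⟨(lp (fun _ : G => ℝ) 1 ⧸ N), inferInstance, inferInstance, inferInstance, v, c, hcv, ?_, ?_, hinj⟩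
  · intro g hg
    rw [hvg g hg]
    refine (hπ _).trans ?_
    rw [lp.norm_single (by norm_num)]
    simp
  · intro f C hC hf
    refine f.opNorm_le_bound hC fun x => ?_
    refine le_of_forall_pos_le_add fun ε hε => ?_
    obtain ⟨a, rfl, ha⟩ := Submodule.Quotient.norm_mk_lt x (show 0 < ε / (C + 1) by positivity)
    have h1 : HasSum (fun γ : G => f (π (lp.single 1 γ (a γ)))) (f (π a)) := by
      have := lp.hasSum_single (E := fun _ : G => ℝ) (p := 1) (by norm_num) a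
      exact this.mapL (f.comp π)
    have h2 : ∀ γ : G, ‖f (π (lp.single 1 γ (a γ)))‖ ≤ ‖a γ‖ * C := by
      intro γ
      have : (lp.single 1 γ (a γ) : lp (fun _ : G => ℝ) 1) = (a γ) • lp.single 1 γ (1:ℝ) := by
        rw [← lp.single_smul]; simp
      rw [this, map_smul, map_smul, norm_smul]
      apply mul_le_mul_of_nonneg_left _ (norm_nonneg _)
      have := hf γ γ.2
      rw [hvg γ γ.2] at this
      simpa using this
    have h3 : HasSum (fun γ : G => ‖a γ‖) ‖a‖ := by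
      have := lp.hasSum_norm (E := fun _ : G => ℝ) (p := 1) (by norm_num) a
      simpa using this
    have h4 : ‖f (π a)‖ ≤ ‖a‖ * C := by
      have := tsum_of_norm_bounded (h3.mul_right C) h2
      rwa [h1.tsum_eq] at this
    have h5 : ‖a‖ * C ≤ (‖(Submodule.Quotient.mk a : lp (fun _ : G => ℝ) 1 ⧸ N)‖ + ε / (C + 1)) * C :=
      mul_le_mul_of_nonneg_right ha.le hC
    have h6 : ε / (C + 1) * C ≤ ε := by
      rw [div_mul_eq_mul_div, div_le_iff₀ (by positivity)]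
      nlinarith
    calc ‖f (Submodule.Quotient.mk a)‖ ≤ ‖a‖ * C := h4
      _ ≤ (‖(Submodule.Quotient.mk a : lp (fun _ : G => ℝ) 1 ⧸ N)‖ + ε / (C + 1)) * C := h5
      _ ≤ C * ‖(Submodule.Quotient.mk a : lp (fun _ : G => ℝ) 1 ⧸ N)‖ + ε := by nlinarith

end Pool.Agent.Q195.SS
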