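import Pool.Agent.Q195.SS1

set_option autoImplicit false

/-! A Banach space with the symmetric strong diameter two property whose bidual fails it. -/

namespace Pool.Agent.Q195.SS

open Filter Topology

/-- The slice of the unit ball given by `f` and `α`. -/
def slice {X : Type*} [NormedAddCommGroup X] [NormedSpace ℝ X] (f : StrongDual ℝ X) (α : ℝ) :
    Set X := {x | ‖x‖ ≤ 1 ∧ 1 - α < f x}

/-- The symmetric strong diameter two property. -/
def SSD2P (X : Type*) [NormedAddCommGroup X] [NormedSpace ℝ X] : Prop :=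
  ∀ (n : ℕ) (f : Fin n → StrongDual ℝ X) (α : Fin n → ℝ), (∀ i, ‖f i‖ = 1) → (∀ i, 0 < α i) →
    ∀ ε : ℝ, 0 < ε → ∃ (x : Fin n → X) (y : X), ‖y‖ ≤ 1 ∧ 1 - ε < ‖y‖ ∧
      ∀ i, x i ∈ slice (f i) (α i) ∧ x i + y ∈ slice (f i) (α i) ∧ x i - y ∈ slice (f i) (α i)

/-- the generating set -/
def G : Set (ℕ →₀ ℝ) := {g | ∃ n, (∀ k < n, g k = 2) ∧ ∀ k, n ≤ k → |g k| ≤ 1}

lemma G_le (g : ℕ →₀ ℝ) (hg : g ∈ G) (k : ℕ) : |g k| ≤ 2 := by
  obtain ⟨n, h1, h2⟩ := hg
  by_cases h : k < n
  · rw [h1 k h]; norm_num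
  · exact (h2 k (not_lt.mp h)).trans (by norm_num)

lemma single_mem (k : ℕ) : Finsupp.single k (1:ℝ) ∈ G := by
  refine ⟨0, by simp, fun j _ => ?_⟩
  rw [Finsupp.single_apply]
  split_ifs <;> simp

/-- The abstract situation. -/
structure Sit (X : Type) [NormedAddCommGroup X] [NormedSpace ℝ X] (v : (ℕ →₀ ℝ) →ₗ[ℝ] X)
    (c : ℕ → X →L[ℝ] ℝ) : Prop where
  cv : ∀ k w, c k (v w) = w k
  le : ∀ g ∈ G, ‖v g‖ ≤ 1
  op : ∀ (f : X →L[ℝ] ℝ) (C : ℝ), 0 ≤ C → (∀ g ∈ G, |f (v g)| ≤ C) → ‖f‖ ≤ C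

variable {X : Type} [NormedAddCommGroup X] [NormedSpace ℝ X] {v : (ℕ →₀ ℝ) →ₗ[ℝ] X}
    {c : ℕ → X →L[ℝ] ℝ}

lemma Sit.f_le (h : Sit X v c) (f : X →L[ℝ] ℝ) (g : ℕ →₀ ℝ) (hg : g ∈ G) : |f (v g)| ≤ ‖f‖ := by
  have h1 := f.le_opNorm (v g)
  have h2 := h.le g hg
  have h3 : ‖f‖ * ‖v g‖ ≤ ‖f‖ * 1 := mul_le_mul_of_nonneg_left h2 (norm_nonneg f)
  rw [Real.norm_eq_abs] at h1
  linarith

/-- coefficients of a functional -/
noncomputable def co (v : (ℕ →₀ ℝ) →ₗ[ℝ] X) (f : X →L[ℝ] ℝ) (k : ℕ) : ℝ := f (v (Finsupp.single k 1))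

lemma val_eq (f : X →L[ℝ] ℝ) (w : ℕ →₀ ℝ) : f (v w) = ∑ k ∈ w.support, w k * co v f k := by
  conv_lhs => rw [← Finsupp.sum_single w]
  rw [Finsupp.sum, map_sum, map_sum]
  apply Finset.sum_congr rfl
  intro k _
  have : (Finsupp.single k (w k) : ℕ →₀ ℝ) = w k • Finsupp.single k 1 := by
    rw [Finsupp.smul_single, smul_eq_mul, mul_one]
  rw [this, map_smul, map_smul, smul_eq_mul]
  rfl

lemma Sit.partial_le (h : Sit X v c) (f : X →L[ℝ] ℝ) (s : Finset ℕ) :
    ∑ k ∈ s, |co v f k| ≤ ‖f‖ := by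
  classical
  let g : ℕ →₀ ℝ := ∑ k ∈ s, Finsupp.single k (if 0 ≤ co v f k then (1:ℝ) else -1)
  have hg : ∀ j, g j = if j ∈ s then (if 0 ≤ co v f j then (1:ℝ) else -1) else 0 := by
    intro j
    simp only [g, Finsupp.finsetSum_apply, Finsupp.single_apply]
    rw [Finset.sum_ite_eq']
  have hgG : g ∈ G := by
    refine ⟨0, by simp, fun j _ => ?_⟩
    rw [hg]
    split_ifs <;> simp
  have h1 := h.f_le f g hgG
  have h2 : f (v g) = ∑ k ∈ s, |co v f k| := by
    simp only [g, map_sum]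
    apply Finset.sum_congr rfl
    intro k _
    have : (Finsupp.single k (if 0 ≤ co v f k then (1:ℝ) else -1) : ℕ →₀ ℝ) =
        (if 0 ≤ co v f k then (1:ℝ) else -1) • Finsupp.single k 1 := by
      rw [Finsupp.smul_single, smul_eq_mul, mul_one]
    rw [this, map_smul, map_smul, smul_eq_mul]
    change _ * co v f k = _
    split_ifs with h0
    · rw [one_mul, abs_of_nonneg h0]
    · rw [abs_of_neg (not_le.mp h0)]; ring
  rw [h2] at h1
  exact (le_abs_self _).trans h1

lemma Sit.summ (h : Sit X v c) (f : X →L[ℝ] ℝ) : Summable fun k => |co v f k| :=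
  summable_of_sum_le (fun _ => abs_nonneg _) (h.partial_le f)

/-- tails -/
noncomputable def tail (v : (ℕ →₀ ℝ) →ₗ[ℝ] X) (f : X →L[ℝ] ℝ) (N : ℕ) : ℝ :=
  (∑' k, |co v f k|) - ∑ k ∈ Finset.range N, |co v f k|

lemma Sit.tail_tendsto (h : Sit X v c) (f : X →L[ℝ] ℝ) : Tendsto (tail v f) atTop (𝓝 0) := by
  have := (h.summ f).hasSum.tendsto_sum_nat.const_sub (∑' k, |co v f k|)
  rw [sub_self] at this
  exact this

lemma Sit.val_le (h : Sit X v c) (f : X →L[ℝ] ℝ) (w : ℕ →₀ ℝ) (N : ℕ) (C : ℝ) (hC : 0 ≤ C)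
    (hw : ∀ k < N, w k = 0) (hwC : ∀ k, |w k| ≤ C) : |f (v w)| ≤ C * tail v f N := by
  classical
  rw [val_eq]
  calc |∑ k ∈ w.support, w k * co v f k| ≤ ∑ k ∈ w.support, |w k * co v f k| :=
        Finset.abs_sum_le_sum_abs _ _
    _ ≤ ∑ k ∈ w.support, C * |co v f k| := by
        apply Finset.sum_le_sum
        intro k _
        rw [abs_mul]
        exact mul_le_mul_of_nonneg_right (hwC k) (abs_nonneg _)
    _ = C * ∑ k ∈ w.support, |co v f k| := by rw [Finset.mul_sum]
    _ ≤ C * tail v f N := by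
        apply mul_le_mul_of_nonneg_left _ hC
        unfold tail
        have hd : Disjoint w.support (Finset.range N) := by
          rw [Finset.disjoint_left]
          intro k hk hk2
          exact (Finsupp.mem_support_iff.mp hk) (hw k (Finset.mem_range.mp hk2))
        have := (h.summ f).sum_le_tsum (w.support ∪ Finset.range N) (fun _ _ => abs_nonneg _)
        rw [Finset.sum_union hd] at this
        linarith

/-- the test vector -/
noncomputable def alt (N m : ℕ) : ℕ →₀ ℝ := ∑ k ∈ Finset.range m, Finsupp.single (N + k) ((-1 : ℝ) ^ k)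

lemma alt_apply (N m j : ℕ) : alt N m j = if N ≤ j ∧ j < N + m then (-1 : ℝ) ^ (j - N) else 0 := by
  classical
  unfold alt
  rw [Finsupp.finsetSum_apply]
  simp only [Finsupp.single_apply]
  by_cases h : N ≤ j ∧ j < N + m
  · rw [if_pos h, Finset.sum_eq_single (j - N)]
    · rw [if_pos (by omega)]
    · intro b _ hb
      rw [if_neg (by omega)]
    · intro hb
      exact absurd (Finset.mem_range.mpr (by omega)) hb
  · rw [if_neg h]
    apply Finset.sum_eq_zero
    intro b hb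
    rw [if_neg]
    have := Finset.mem_range.mp hb
    omega

lemma alt_le (N m j : ℕ) : |alt N m j| ≤ 1 := by
  rw [alt_apply]
  split_ifs <;> simp

lemma alt_sum_bound (g : ℕ →₀ ℝ) (hg : g ∈ G) (N m : ℕ) :
    |∑ k ∈ Finset.range m, (-1 : ℝ) ^ k * g (N + k)| ≤ m + 2 := by
  obtain ⟨n, h1, h2⟩ := hg
  let a := min (n - N) m
  have e1 : ∀ k ∈ Finset.range m, (-1 : ℝ) ^ k * g (N + k) =
      (if k < a then 2 * (-1 : ℝ) ^ k else 0) + (if k < a then 0 else (-1 : ℝ) ^ k * g (N + k)) := by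
    intro k hk
    by_cases h : k < a
    · rw [if_pos h, if_pos h, h1 (N + k) (by omega)]; ring
    · rw [if_neg h, if_neg h, zero_add]
  rw [Finset.sum_congr rfl e1, Finset.sum_add_distrib]
  have e2 : ∑ k ∈ Finset.range m, (if k < a then 2 * (-1 : ℝ) ^ k else 0) =
      2 * ∑ k ∈ Finset.range a, (-1 : ℝ) ^ k := by
    rw [← Finset.sum_filter, Finset.mul_sum]
    apply Finset.sum_congr _ (fun _ _ => rfl)
    ext k
    simp only [Finset.mem_filter, Finset.mem_range]
    omega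
  rw [e2, neg_one_geom_sum]
  have e3 : |∑ k ∈ Finset.range m, (if k < a then (0:ℝ) else (-1 : ℝ) ^ k * g (N + k))| ≤ m := by
    calc |∑ k ∈ Finset.range m, (if k < a then (0:ℝ) else (-1 : ℝ) ^ k * g (N + k))| ≤
          ∑ k ∈ Finset.range m, |if k < a then (0:ℝ) else (-1 : ℝ) ^ k * g (N + k)| :=
          Finset.abs_sum_le_sum_abs _ _
      _ ≤ ∑ k ∈ Finset.range m, (1:ℝ) := by
          apply Finset.sum_le_sum
          intro k hk
          have hkm := Finset.mem_range.mp hk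
          by_cases h : k < a
          · rw [if_pos h]; simp
          · rw [if_neg h, abs_mul, abs_pow, abs_neg, abs_one, one_pow, one_mul]
            exact h2 (N + k) (by omega)
      _ = m := by simp
  have e4 : |(2:ℝ) * (if Even a then 0 else 1)| ≤ 2 := by
    split_ifs <;> simp
  have e5 := abs_add_le ((2:ℝ) * (if Even a then 0 else 1))
    (∑ k ∈ Finset.range m, (if k < a then (0:ℝ) else (-1 : ℝ) ^ k * g (N + k)))
  linarith

lemma Sit.norm_alt (h : Sit X v c) (N L : ℕ) (hL : 0 < L) :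
    1 - 1 / (L:ℝ) < ‖v (alt N (2 * L))‖ := by
  have hLr : (0:ℝ) < L := by exact_mod_cast hL
  let f : X →L[ℝ] ℝ := ∑ k ∈ Finset.range (2 * L), ((-1 : ℝ) ^ k) • c (N + k)
  have hf : ∀ w, f (v w) = ∑ k ∈ Finset.range (2 * L), (-1 : ℝ) ^ k * w (N + k) := by
    intro w
    simp only [f, sum_apply, smul_apply, h.cv, smul_eq_mul]
  have h1 : ‖f‖ ≤ 2 * L + 2 := by
    refine h.op f _ (by positivity) fun g hg => ?_
    rw [hf]
    have := alt_sum_bound g hg N (2 * L)
    push_cast at this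
    exact this
  have h2 : f (v (alt N (2 * L))) = 2 * L := by
    rw [hf]
    have : ∀ k ∈ Finset.range (2 * L), (-1 : ℝ) ^ k * alt N (2 * L) (N + k) = 1 := by
      intro k hk
      have := Finset.mem_range.mp hk
      rw [alt_apply, if_pos (by omega)]
      have e : N + k - N = k := by omega
      rw [e, ← mul_pow]; simp
    rw [Finset.sum_congr rfl this]
    simp
  have h3 := f.le_opNorm (v (alt N (2 * L)))
  rw [h2, Real.norm_eq_abs, abs_of_pos (by positivity)] at h3
  have h4 : ‖f‖ * ‖v (alt N (2 * L))‖ ≤ (2 * L + 2) * ‖v (alt N (2 * L))‖ :=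
    mul_le_mul_of_nonneg_right h1 (norm_nonneg _)
  have h5 : (L:ℝ) ≤ (L + 1) * ‖v (alt N (2 * L))‖ := by linarith
  have h6 : (1 - 1 / (L:ℝ)) * (L + 1) < L := by
    have : (1 - 1 / (L:ℝ)) * (L + 1) = L - 1 / L := by field_simp; ring
    rw [this]
    have : 0 < 1 / (L:ℝ) := by positivity
    linarith
  have h7 : (1 - 1 / (L:ℝ)) * (L + 1) < (L + 1) * ‖v (alt N (2 * L))‖ := lt_of_lt_of_le h6 h5
  rw [mul_comm] at h7
  exact lt_of_mul_lt_mul_left h7 (by positivity)

theorem Sit.ssd2p (h : Sit X v c) : SSD2P X := by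
  classical
  intro n f α hf hα ε hε
  -- step 1
  have h1 : ∀ i, ∃ g ∈ G, ∃ s : ℝ, (s = 1 ∨ s = -1) ∧ 1 - α i / 2 < s * f i (v g) := by
    intro i
    by_contra hc
    push Not at hc
    have h2 : ∀ g ∈ G, |f i (v g)| ≤ max 0 (1 - α i / 2) := by
      intro g hg
      rw [abs_le']
      have ha := hc g hg 1 (Or.inl rfl)
      have hb := hc g hg (-1) (Or.inr rfl)
      constructor
      · exact le_max_of_le_right (by linarith)
      · exact le_max_of_le_right (by linarith)
    have h3 := h.op (f i) _ (le_max_left _ _) h2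
    rw [hf i] at h3
    have h4 : max 0 (1 - α i / 2) < 1 := max_lt (by norm_num) (by linarith [hα i])
    linarith
  choose g hgG s hs hgs using h1
  -- step 2
  obtain ⟨N0, hN0⟩ : ∃ N0 : ℕ, ∀ i, ∀ k, N0 ≤ k → g i k = 0 := by
    refine ⟨(Finset.univ.sup fun i => (g i).support.sup id) + 1, fun i k hk => ?_⟩
    by_contra hne
    have h2 : k ≤ (g i).support.sup id := Finset.le_sup (f := id) (Finsupp.mem_support_iff.mpr hne)
    have h3 : (g i).support.sup id ≤ Finset.univ.sup fun i => (g i).support.sup id :=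
      Finset.le_sup (f := fun i => (g i).support.sup id) (Finset.mem_univ i)
    omega
  have h3 : ∀ᶠ N in atTop, ∀ i, tail v (f i) N < α i / 2 := by
    rw [eventually_all]
    intro i
    exact (h.tail_tendsto (f i)).eventually (gt_mem_nhds (by linarith [hα i]))
  obtain ⟨N, hN1, hN2⟩ := (h3.and (eventually_ge_atTop N0)).exists
  obtain ⟨L, hL⟩ := exists_nat_gt (1 / ε)
  have hL0 : 0 < L := by
    have : (0:ℝ) < L := lt_trans (by positivity) hL
    exact_mod_cast this
  have hLε : 1 / (L:ℝ) < ε := by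
    rw [div_lt_iff₀ (by exact_mod_cast hL0)]
    rw [div_lt_iff₀ hε] at hL
    linarith
  let w := alt N (2 * L)
  have hw0 : ∀ k < N, w k = 0 := by
    intro k hk
    simp only [w]
    rw [alt_apply, if_neg (by omega)]
  have hwG : w ∈ G := ⟨0, by simp, fun k _ => alt_le N (2 * L) k⟩
  have hmem : ∀ i, ∀ t : ℝ, (t = 1 ∨ t = -1) → g i + t • w ∈ G := by
    intro i t ht
    obtain ⟨m, hm1, hm2⟩ := hgG i
    have hmN : m ≤ N := by
      by_contra hc
      push Not at hc
      have := hm1 N hc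
      rw [hN0 i N hN2] at this
      norm_num at this
    have htw : ∀ k, |t * w k| ≤ 1 := by
      intro k
      rw [abs_mul]
      have : |t| = 1 := by rcases ht with rfl | rfl <;> simp
      rw [this, one_mul]
      exact alt_le N (2 * L) k
    refine ⟨m, fun k hk => ?_, fun k hk => ?_⟩
    · rw [Finsupp.add_apply, Finsupp.smul_apply, hw0 k (by omega), smul_zero, add_zero, hm1 k hk]
    · rw [Finsupp.add_apply, Finsupp.smul_apply, smul_eq_mul]
      by_cases hkN : k < N
      · rw [hw0 k hkN, mul_zero, add_zero]; exact hm2 k hk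
      · rw [hN0 i k (by omega), zero_add]; exact htw k
  have hsmall : ∀ i, |f i (v w)| < α i / 2 := by
    intro i
    have := h.val_le (f i) w N 1 zero_le_one hw0 (fun k => alt_le N (2 * L) k)
    rw [one_mul] at this
    exact lt_of_le_of_lt this (hN1 i)
  refine ⟨fun i => s i • v (g i), v w, h.le w hwG, ?_, fun i => ?_⟩
  · have := h.norm_alt N L hL0
    change _ < ‖v (alt N (2 * L))‖
    linarith
  · have hsi : s i * s i = 1 := by rcases hs i with h | h <;> rw [h] <;> norm_num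
    have hsn : |s i| = 1 := by rcases hs i with h | h <;> rw [h] <;> norm_num
    have hval := hgs i
    have hsm := abs_lt.mp (hsmall i)
    have key : ∀ t : ℝ, (t = 1 ∨ t = -1) → ‖s i • v (g i) + t • v w‖ ≤ 1 := by
      intro t ht
      have e : s i • v (g i) + t • v w = s i • v (g i + (s i * t) • w) := by
        rw [map_add, map_smul, smul_add, smul_smul, ← mul_assoc, hsi, one_mul]
      rw [e, norm_smul, Real.norm_eq_abs, hsn, one_mul]
      apply h.le
      apply hmem
      rcases hs i with h | h <;> rcases ht with h' | h' <;> rw [h, h'] <;> norm_num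
    refine ⟨⟨?_, ?_⟩, ⟨?_, ?_⟩, ⟨?_, ?_⟩⟩
    · rw [norm_smul, Real.norm_eq_abs, hsn, one_mul]; exact h.le _ (hgG i)
    · rw [map_smul, smul_eq_mul]; linarith [hα i]
    · have := key 1 (Or.inl rfl); rwa [one_smul] at this
    · rw [map_add, map_smul, smul_eq_mul]; linarith [hα i]
    · have := key (-1) (Or.inr rfl)
      rwa [neg_one_smul, ← sub_eq_add_neg] at this
    · rw [map_sub, map_smul, smul_eq_mul]; linarith [hα i]

end Pool.Agent.Q195.SS
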