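import Pool.Agent.Q195.SS2

set_option autoImplicit false

namespace Pool.Agent.Q195.SS

open Filter Topology

variable {X : Type} [NormedAddCommGroup X] [NormedSpace ℝ X] {v : (ℕ →₀ ℝ) →ₗ[ℝ] X}
    {c : ℕ → X →L[ℝ] ℝ}

/-- partial constant vectors -/
noncomputable def two (n : ℕ) : ℕ →₀ ℝ := ∑ k ∈ Finset.range n, Finsupp.single k (2:ℝ)

lemma two_apply (n j : ℕ) : two n j = if j < n then 2 else 0 := by
  classical
  unfold two
  rw [Finsupp.finsetSum_apply]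
  simp only [Finsupp.single_apply]
  rw [Finset.sum_ite_eq']
  simp

lemma two_mem (n : ℕ) : two n ∈ G := by
  refine ⟨n, fun k hk => ?_, fun k hk => ?_⟩
  · rw [two_apply, if_pos hk]
  · rw [two_apply, if_neg (by omega)]; simp

lemma f_two (f : X →L[ℝ] ℝ) (n : ℕ) :
    f (v (two n)) = ∑ k ∈ Finset.range n, 2 * co v f k := by
  unfold two
  rw [map_sum, map_sum]
  apply Finset.sum_congr rfl
  intro k _
  have : (Finsupp.single k (2:ℝ) : ℕ →₀ ℝ) = (2:ℝ) • Finsupp.single k 1 := by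
    rw [Finsupp.smul_single, smul_eq_mul, mul_one]
  rw [this, map_smul, map_smul, smul_eq_mul]
  rfl

lemma Sit.summ2 (h : Sit X v c) (f : X →L[ℝ] ℝ) : Summable fun k => 2 * co v f k :=
  (h.summ f).of_abs.mul_left 2

lemma Sit.tendsto_two (h : Sit X v c) (f : X →L[ℝ] ℝ) :
    Tendsto (fun n => f (v (two n))) atTop (𝓝 (∑' k, 2 * co v f k)) := by
  simp only [f_two]
  exact (h.summ2 f).hasSum.tendsto_sum_nat

lemma Sit.exists_e (h : Sit X v c) : ∃ e : StrongDual ℝ (StrongDual ℝ X), ‖e‖ ≤ 1 ∧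
    ∀ f, Tendsto (fun n => f (v (two n))) atTop (𝓝 (e f)) := by
  let e : StrongDual ℝ X →ₗ[ℝ] ℝ :=
    { toFun := fun f => ∑' k, 2 * co v f k
      map_add' := by
        intro f g
        rw [← (h.summ2 f).tsum_add (h.summ2 g)]
        congr 1
        funext k
        change 2 * (f _ + g _) = 2 * f _ + 2 * g _
        ring
      map_smul' := by
        intro t f
        rw [RingHom.id_apply, smul_eq_mul, ← tsum_mul_left]
        congr 1
        funext k
        change 2 * (t * f _) = t * (2 * f _)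
        ring }
  have hb : ∀ f, ‖e f‖ ≤ 1 * ‖f‖ := by
    intro f
    rw [one_mul]
    have h1 : Tendsto (fun n => |f (v (two n))|) atTop (𝓝 |e f|) := (h.tendsto_two f).abs
    exact le_of_tendsto h1 (Eventually.of_forall fun n => h.f_le f _ (two_mem n))
  exact ⟨e.mkContinuous 1 hb, LinearMap.mkContinuous_norm_le _ zero_le_one _,
    fun f => h.tendsto_two f⟩

lemma Sit.c_norm (h : Sit X v c) (j : ℕ) : ‖c j‖ ≤ 2 :=
  h.op (c j) 2 (by norm_num) fun g hg => by rw [h.cv]; exact G_le g hg j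

lemma exists_ulim {Z : Type} [NormedAddCommGroup Z] [NormedSpace ℝ Z] (ev : ℕ → StrongDual ℝ Z)
    (hev : ∀ j, ‖ev j‖ ≤ 2) : ∃ φ : StrongDual ℝ Z, (∀ z, ‖φ z‖ ≤ 2 * ‖z‖) ∧
    ∀ z, Tendsto (fun j => ev j z) (hyperfilter ℕ) (𝓝 (φ z)) := by
  have hb : ∀ (z : Z) j, ‖ev j z‖ ≤ 2 * ‖z‖ := by
    intro z j
    exact ((ev j).le_opNorm _).trans (mul_le_mul_of_nonneg_right (hev j) (norm_nonneg _))
  have hlim : ∀ z : Z, ∃ a,
      Tendsto (fun j => ev j z) (hyperfilter ℕ) (𝓝 a) := by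
    intro z
    have hK : IsCompact (Metric.closedBall (0:ℝ) (2 * ‖z‖)) := isCompact_closedBall _ _
    have h1 : ((hyperfilter ℕ).map fun j => ev j z : Filter ℝ) ≤
        𝓟 (Metric.closedBall (0:ℝ) (2 * ‖z‖)) := by
      rw [le_principal_iff]
      exact Filter.mem_map.mpr (univ_mem' fun j => by
        change ev j z ∈ Metric.closedBall (0:ℝ) (2 * ‖z‖)
        rw [mem_closedBall_zero_iff]; exact hb z j)
    obtain ⟨a, -, ha⟩ := hK.ultrafilter_le_nhds _ h1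
    exact ⟨a, ha⟩
  choose φ hφ using hlim
  have hadd : ∀ z w, φ (z + w) = φ z + φ w := by
    intro z w
    refine tendsto_nhds_unique (hφ (z + w)) ?_
    simp only [map_add]
    exact (hφ z).add (hφ w)
  have hsmul : ∀ (t : ℝ) z, φ (t • z) = t • φ z := by
    intro t z
    refine tendsto_nhds_unique (hφ (t • z)) ?_
    simp only [map_smul]
    exact (hφ z).const_smul t
  let Φ : Z →ₗ[ℝ] ℝ :=
    { toFun := φ
      map_add' := hadd
      map_smul' := hsmul }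
  have hΦ : ∀ z, ‖Φ z‖ ≤ 2 * ‖z‖ := by
    intro z
    exact le_of_tendsto (hφ z).norm (Eventually.of_forall fun j => hb z j)
  exact ⟨Φ.mkContinuous 2 hΦ, hΦ, hφ⟩

lemma Sit.dist_le (h : Sit X v c) (f : X →L[ℝ] ℝ) (a : ℝ)
    (hf : Tendsto (fun n => f (v (two n))) atTop (𝓝 a)) (g : ℕ →₀ ℝ) (n j : ℕ) (hj : j ≤ n)
    (h1 : ∀ k < n, g k = 2) (h2 : ∀ k, n ≤ k → |g k| ≤ 1) : |f (v g) - a| ≤ 3 * tail v f j := by
  have h3 : Tendsto (fun m => |f (v g) - f (v (two m))|) atTop (𝓝 |f (v g) - a|) :=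
    (tendsto_const_nhds.sub hf).abs
  refine le_of_tendsto h3 ?_
  filter_upwards [eventually_ge_atTop j] with m hm
  rw [← map_sub, ← map_sub]
  apply h.val_le f _ j 3 (by norm_num)
  · intro k hk
    rw [Finsupp.sub_apply, two_apply, if_pos (by omega), h1 k (by omega), sub_self]
  · intro k
    rw [Finsupp.sub_apply, two_apply]
    have hg : |g k| ≤ 2 := G_le g ⟨n, h1, h2⟩ k
    by_cases hkn : k < n
    · rw [h1 k hkn]
      split_ifs <;> norm_num
    · have := abs_le.mp (h2 k (not_lt.mp hkn))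
      rw [abs_le]
      split_ifs <;> constructor <;> linarith

lemma Sit.key (h : Sit X v c) (e z : StrongDual ℝ (StrongDual ℝ X)) (he1 : ‖e‖ ≤ 1)
    (he : ∀ f, Tendsto (fun n => f (v (two n))) atTop (𝓝 (e f)))
    (b : ℝ) (hφ : Tendsto (fun j => z (c j)) (hyperfilter ℕ) (𝓝 b)) (hz : ‖z‖ ≤ 1) (α : ℝ)
    (hα : 0 ≤ α) (hza : 2 - α < b) : ‖z - e‖ ≤ 2 * α := by
  -- one-sided estimate
  have one : ∀ f : StrongDual ℝ X, ‖f‖ ≤ 1 → e f - z f ≤ 2 * α := by
    intro f hf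
    refine le_of_forall_pos_le_add fun δ hδ => ?_
    have h1 : ∀ᶠ j in (hyperfilter ℕ : Filter ℕ), 2 - α < z (c j) :=
      hφ.eventually (lt_mem_nhds hza)
    have h2 : ∀ᶠ j in (hyperfilter ℕ : Filter ℕ), tail v f j < δ / 3 :=
      Nat.hyperfilter_le_atTop ((h.tail_tendsto f).eventually (gt_mem_nhds (by positivity)))
    obtain ⟨j, hj1, hj2⟩ := (h1.and h2).exists
    have hef : |e f| ≤ 1 := by
      have := e.le_opNorm f
      rw [Real.norm_eq_abs] at this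
      have h5 : ‖e‖ * ‖f‖ ≤ 1 * 1 := mul_le_mul he1 hf (norm_nonneg _) zero_le_one
      linarith
    have hef' := abs_le.mp hef
    have h3 : ‖c j - (1 / 2 : ℝ) • f‖ ≤ 2 - 1 / 2 * e f + δ / 2 := by
      apply h.op _ _ (by linarith)
      rintro g ⟨n, hg1, hg2⟩
      have hfg : |f (v g)| ≤ 1 := (h.f_le f g ⟨n, hg1, hg2⟩).trans hf
      have hfg' := abs_le.mp hfg
      change |c j (v g) - (1 / 2 : ℝ) * f (v g)| ≤ _
      rw [h.cv]
      by_cases hjn : j < n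
      · have h6 := abs_le.mp (h.dist_le f (e f) (he f) g n j hjn.le hg1 hg2)
        rw [hg1 j hjn, abs_le]
        constructor <;> linarith
      · have h6 := abs_le.mp (hg2 j (not_lt.mp hjn))
        rw [abs_le]
        constructor <;> linarith
    have h4 : z (c j - (1 / 2 : ℝ) • f) ≤ ‖c j - (1 / 2 : ℝ) • f‖ := by
      have h5 := z.le_opNorm (c j - (1 / 2 : ℝ) • f)
      have h6 : ‖z‖ * ‖c j - (1 / 2 : ℝ) • f‖ ≤ 1 * ‖c j - (1 / 2 : ℝ) • f‖ :=
        mul_le_mul_of_nonneg_right hz (norm_nonneg _)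
      have h7 := le_abs_self (z (c j - (1 / 2 : ℝ) • f))
      rw [Real.norm_eq_abs] at h5
      linarith
    rw [map_sub, map_smul, smul_eq_mul] at h4
    linarith
  refine ContinuousLinearMap.opNorm_le_of_unit_norm (by positivity) fun f hf => ?_
  have h1 := one f hf.le
  have h2 := one (-f) (by rw [norm_neg]; exact hf.le)
  rw [map_neg, map_neg] at h2
  change |z f - e f| ≤ _
  rw [abs_le]
  constructor <;> linarith

lemma not_of {Z : Type} [NormedAddCommGroup Z] [NormedSpace ℝ Z] (φ : StrongDual ℝ Z) (e : Z)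
    (he1 : ‖e‖ ≤ 1) (hφb : ∀ z, ‖φ z‖ ≤ 2 * ‖z‖) (hφe : φ e = 2)
    (key : ∀ z, ‖z‖ ≤ 1 → 2 - 1 / 16 < φ z → ‖z - e‖ ≤ 1 / 8) : ¬ SSD2P Z := by
  have hn : ‖(1 / 2 : ℝ) • φ‖ = 1 := by
    apply le_antisymm
    · refine ContinuousLinearMap.opNorm_le_bound _ zero_le_one fun z => ?_
      change ‖(1 / 2 : ℝ) * φ z‖ ≤ _
      rw [norm_mul]
      have := hφb z
      norm_num at this ⊢
      linarith
    · have h1 := ((1 / 2 : ℝ) • φ).le_opNorm e
      have h2 : ((1 / 2 : ℝ) • φ) e = 1 := by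
        change (1 / 2 : ℝ) * φ e = 1
        rw [hφe]; norm_num
      rw [h2, norm_one] at h1
      have h3 : ‖(1 / 2 : ℝ) • φ‖ * ‖e‖ ≤ ‖(1 / 2 : ℝ) • φ‖ * 1 :=
        mul_le_mul_of_nonneg_left he1 (norm_nonneg _)
      linarith
  intro hS
  obtain ⟨x, y, hy1, hy2, hxy⟩ := hS 1 (fun _ => (1 / 2 : ℝ) • φ) (fun _ => 1 / 32) (fun _ => hn)
    (fun _ => by norm_num) (1 / 2) (by norm_num)
  obtain ⟨-, ⟨h1, h2⟩, ⟨h3, h4⟩⟩ := hxy 0
  change 1 - 1 / 32 < (1 / 2 : ℝ) * φ (x 0 + y) at h2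
  change 1 - 1 / 32 < (1 / 2 : ℝ) * φ (x 0 - y) at h4
  have h5 := key _ h1 (by linarith)
  have h6 := key _ h3 (by linarith)
  have h7 : ‖(2:ℝ) • y‖ ≤ 1 / 4 := by
    have : (2:ℝ) • y = (x 0 + y - e) - (x 0 - y - e) := by module
    rw [this]
    refine (norm_sub_le _ _).trans ?_
    linarith
  rw [norm_smul] at h7
  norm_num at h7
  linarith

lemma final {Z : Type} [NormedAddCommGroup Z] [NormedSpace ℝ Z] (ev : ℕ → StrongDual ℝ Z)
    (hev : ∀ j, ‖ev j‖ ≤ 2) (e : Z) (he1 : ‖e‖ ≤ 1) (heve : ∀ j, ev j e = 2)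
    (key : ∀ z, ‖z‖ ≤ 1 → ∀ b, Tendsto (fun j => ev j z) (hyperfilter ℕ) (𝓝 b) →
      2 - 1 / 16 < b → ‖z - e‖ ≤ 1 / 8) : ¬ SSD2P Z := by
  obtain ⟨φ, hφb, hφ⟩ := exists_ulim ev hev
  have hφe : φ e = 2 := by
    refine tendsto_nhds_unique (hφ e) ?_
    simp only [heve]
    exact tendsto_const_nhds
  exact not_of φ e he1 hφb hφe fun z hz1 hz2 => key z hz1 (φ z) (hφ z) hz2

theorem Sit.not_ssd2p (h : Sit X v c) : ¬ SSD2P (StrongDual ℝ (StrongDual ℝ X)) := by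
  obtain ⟨e, he1, he⟩ := h.exists_e
  refine final (Z := StrongDual ℝ (StrongDual ℝ X))
    (fun j => NormedSpace.inclusionInDoubleDual ℝ (StrongDual ℝ X) (c j))
    (fun j => (NormedSpace.double_dual_bound ℝ (StrongDual ℝ X) (c j)).trans (h.c_norm j))
    e he1 ?_ ?_
  · intro j
    change e (c j) = 2
    refine tendsto_nhds_unique (he (c j)) ?_
    refine tendsto_const_nhds.congr' ?_
    filter_upwards [eventually_gt_atTop j] with n hn
    rw [h.cv, two_apply, if_pos hn]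
  · intro z hz1 b hb hz2
    have hb' : Tendsto (fun j => z (c j)) (hyperfilter ℕ) (𝓝 b) := hb
    have := h.key e z he1 he b hb' hz1 (1 / 16) (by norm_num) hz2
    linarith

/-- The example. -/
theorem main : ∃ (X : Type) (_ : NormedAddCommGroup X) (_ : NormedSpace ℝ X) (_ : CompleteSpace X),
    SSD2P X ∧ ¬ SSD2P (StrongDual ℝ (StrongDual ℝ X)) := by
  obtain ⟨X, i1, i2, i3, v, c, h1, h2, h3, -⟩ := exists_hull G (fun _ => 2)
    (fun g hg k => G_le g hg k) single_mem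
  have h : Sit X v c := ⟨h1, h2, h3⟩
  exact ⟨X, i1, i2, i3, h.ssd2p, h.not_ssd2p⟩

end Pool.Agent.Q195.SS
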