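import Mathlib

set_option autoImplicit false

namespace Pool.Agent.Q195.TG

open Filter Topology

/-- consistent matrix -/
def IsConsistent {𝕜 : Type} [RCLike 𝕜] (T : ℕ → ℕ → 𝕜) : Prop :=
  (∃ C : ℝ, ∀ n, Summable (fun m => ‖T n m‖) ∧ ∑' m, ‖T n m‖ ≤ C) ∧
    (∀ m, Tendsto (fun n => T n m) atTop (𝓝 0)) ∧
    Tendsto (fun n => ∑' m, T n m) atTop (𝓝 1)

/-- `T`-basis -/
def IsTBasis {𝕜 : Type} [RCLike 𝕜] {E : Type} [NormedAddCommGroup E] [NormedSpace 𝕜 E]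
    (T : ℕ → ℕ → 𝕜) (x : ℕ → E) : Prop :=
  ∀ z : E, ∃! α : ℕ → 𝕜, ∃ σ : ℕ → E,
    (∀ n, Tendsto (fun m => ∑ j ∈ Finset.range m, T n j • ∑ i ∈ Finset.range (j + 1), α i • x i)
      atTop (𝓝 (σ n))) ∧ Tendsto σ atTop (𝓝 z)

/-- M-basis with its functionals -/
def IsMBasis {𝕜 : Type} [RCLike 𝕜] {E : Type} [NormedAddCommGroup E] [NormedSpace 𝕜 E]
    (x : ℕ → E) (f : ℕ → E →L[𝕜] 𝕜) : Prop :=
  (∀ i j, f i (x j) = if i = j then 1 else 0) ∧
    (Submodule.span 𝕜 (Set.range x)).topologicalClosure = ⊤ ∧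
    (∀ z, (∀ i, f i z = 0) → z = 0)

/-- the tail-sum matrix -/
noncomputable def tail {𝕜 : Type} [RCLike 𝕜] (T : ℕ → ℕ → 𝕜) (n m : ℕ) : 𝕜 := ∑' j, T n (m + j)

/-- `γ`-basis with respect to `l` -/
def IsGammaBasis {𝕜 : Type} [RCLike 𝕜] {E : Type} [NormedAddCommGroup E] [NormedSpace 𝕜 E]
    (l : ℕ → ℕ → 𝕜) (x : ℕ → E) (f : ℕ → E →L[𝕜] 𝕜) : Prop :=
  IsMBasis x f ∧ ∀ z : E, ∃ τ : ℕ → E,
    (∀ n, Tendsto (fun m => ∑ i ∈ Finset.range m, (l n i * f i z) • x i) atTop (𝓝 (τ n))) ∧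
      Tendsto τ atTop (𝓝 z)

/-- `E` has a `T`-basis, for some consistent `T`, which is not a `γ`-basis for the tail-sum matrix,
because the series `∑ l_{0i} f_i(z) x_i` diverges for some `z` -/
def TailSumFails (𝕜 : Type) [RCLike 𝕜] (E : Type) [NormedAddCommGroup E] [NormedSpace 𝕜 E] :
    Prop :=
  ∃ (T : ℕ → ℕ → 𝕜) (x : ℕ → E) (f : ℕ → E →L[𝕜] 𝕜), IsConsistent T ∧ IsTBasis T x ∧
    IsMBasis x f ∧ ¬ IsGammaBasis (tail T) x f ∧
    ∃ z, ¬ ∃ L, Tendsto (fun m => ∑ i ∈ Finset.range m, (tail T 0 i * f i z) • x i)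
      atTop (𝓝 L)

section
variable {𝕜 : Type} [RCLike 𝕜]

abbrev H (𝕜 : Type) [RCLike 𝕜] := lp (fun _ : ℕ => 𝕜) 2

/-- unit vectors -/
noncomputable def e (i : ℕ) : H 𝕜 := lp.single 2 i (1 : 𝕜)

lemma e_apply (i j : ℕ) : (e i : H 𝕜) j = if j = i then 1 else 0 := by
  unfold e
  rw [lp.single_apply]
  by_cases h : j = i
  · subst h; simp
  · simp [h]

/-- small numbers -/
noncomputable def ε (k : ℕ) : 𝕜 := (1/8 : 𝕜) ^ k

lemma ε_ne (k : ℕ) : (ε k : 𝕜) ≠ 0 := by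
  unfold ε; exact pow_ne_zero _ (by norm_num)

/-- the vectors -/
noncomputable def x (i : ℕ) : H 𝕜 :=
  if i % 2 = 0 then e i else e (2 * (i / 2)) + (ε (i / 2) : 𝕜) • e (2 * (i / 2) + 1)

lemma x_even (k : ℕ) : (x (2 * k) : H 𝕜) = e (2 * k) := by
  unfold x; rw [if_pos (by omega)]

lemma x_odd (k : ℕ) : (x (2 * k + 1) : H 𝕜) = e (2 * k) + (ε k : 𝕜) • e (2 * k + 1) := by
  unfold x
  rw [if_neg (by omega)]
  have : (2 * k + 1) / 2 = k := by omega
  rw [this]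

/-- coordinates -/
noncomputable def co (i : ℕ) : H 𝕜 →L[𝕜] 𝕜 := lp.evalCLM 𝕜 (fun _ : ℕ => 𝕜) 2 i

lemma co_apply (i : ℕ) (z : H 𝕜) : co i z = z i := rfl

lemma co_e (i j : ℕ) : co i (e j : H 𝕜) = if i = j then 1 else 0 := by
  rw [co_apply, e_apply]

/-- the functionals -/
noncomputable def f (i : ℕ) : H 𝕜 →L[𝕜] 𝕜 :=
  if i % 2 = 0 then co i - (ε (i / 2) : 𝕜)⁻¹ • co (i + 1) else (ε (i / 2) : 𝕜)⁻¹ • co i

lemma f_even (k : ℕ) (z : H 𝕜) : f (2 * k) z = z (2 * k) - (ε k : 𝕜)⁻¹ * z (2 * k + 1) := by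
  unfold f
  rw [if_pos (by omega)]
  have : (2 * k) / 2 = k := by omega
  rw [this]; rfl

lemma f_odd (k : ℕ) (z : H 𝕜) : f (2 * k + 1) z = (ε k : 𝕜)⁻¹ * z (2 * k + 1) := by
  unfold f
  rw [if_neg (by omega)]
  have : (2 * k + 1) / 2 = k := by omega
  rw [this]; rfl

lemma biorth (i j : ℕ) : f i (x j : H 𝕜) = if i = j then 1 else 0 := by
  have h0 : ∀ k, (ε k : 𝕜) ≠ 0 := ε_ne
  obtain ⟨k, hk | hk⟩ : ∃ k, i = 2 * k ∨ i = 2 * k + 1 := ⟨i / 2, by omega⟩ <;>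
  obtain ⟨l, hl | hl⟩ : ∃ l, j = 2 * l ∨ j = 2 * l + 1 := ⟨j / 2, by omega⟩ <;> subst hk <;> subst hl
  · rw [f_even, x_even, e_apply, e_apply, if_neg (show ¬ (2 * k + 1 = 2 * l) by omega)]
    simp
  · rw [f_even, x_odd]
    simp only [lp.coeFn_add, lp.coeFn_smul, Pi.add_apply, Pi.smul_apply, e_apply, smul_eq_mul]
    rw [if_neg (show ¬ (2 * k = 2 * l + 1) by omega), if_neg (show ¬ (2 * k + 1 = 2 * l) by omega)]
    by_cases h : k = l
    · subst h; simp [h0 k]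
    · rw [if_neg (show ¬ (2 * k = 2 * l) by omega), if_neg (show ¬ (2 * k + 1 = 2 * l + 1) by omega)]
      simp
  · rw [f_odd, x_even, e_apply, if_neg (show ¬ (2 * k + 1 = 2 * l) by omega)]
    simp
  · rw [f_odd, x_odd]
    simp only [lp.coeFn_add, lp.coeFn_smul, Pi.add_apply, Pi.smul_apply, e_apply, smul_eq_mul]
    rw [if_neg (show ¬ (2 * k + 1 = 2 * l) by omega)]
    by_cases h : k = l
    · subst h; simp [h0 k]
    · rw [if_neg (show ¬ (2 * k + 1 = 2 * l + 1) by omega)]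
      simp

/-- block partial sums -/
lemma psum_even (z : H 𝕜) (k : ℕ) :
    ∑ i ∈ Finset.range (2 * k), f i z • (x i : H 𝕜) = ∑ i ∈ Finset.range (2 * k), z i • e i := by
  induction k with
  | zero => simp
  | succ k ih =>
    have : 2 * (k + 1) = 2 * k + 1 + 1 := by ring
    rw [this, Finset.sum_range_succ, Finset.sum_range_succ, Finset.sum_range_succ,
      Finset.sum_range_succ, ih, add_assoc, add_assoc]
    congr 1
    rw [f_even, f_odd, x_even, x_odd, smul_add, smul_smul]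
    have : (ε k : 𝕜)⁻¹ * z (2 * k + 1) * ε k = z (2 * k + 1) := by
      field_simp [ε_ne k]
    rw [this, ← add_assoc, ← add_smul]
    congr 2
    ring

lemma tendsto_co (z : H 𝕜) : Tendsto (fun n => ∑ i ∈ Finset.range n, z i • (e i : H 𝕜))
    atTop (𝓝 z) := by
  have h := (lp.hasSum_single (E := fun _ : ℕ => 𝕜) (p := 2) (by simp) z).tendsto_sum_nat
  refine h.congr fun n => Finset.sum_congr rfl fun i _ => ?_
  unfold e
  rw [← lp.single_smul]; simp

/-- block partial sums converge -/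
lemma tendsto_block (z : H 𝕜) :
    Tendsto (fun k => ∑ i ∈ Finset.range (2 * k), f i z • (x i : H 𝕜)) atTop (𝓝 z) := by
  have h := (tendsto_co z).comp (tendsto_id.const_mul_atTop' (show (0:ℕ) < 2 by norm_num))
  refine h.congr fun k => ?_
  rw [psum_even]; rfl

/-- the matrix -/
noncomputable def T (n m : ℕ) : 𝕜 :=
  if m % 2 = 1 ∧ n ≤ m / 2 then (1/2 : 𝕜) ^ (m / 2 - n + 1) else 0

lemma T_odd (n k : ℕ) : (T n (2 * (n + k) + 1) : 𝕜) = (1/2 : 𝕜) ^ (k + 1) := by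
  unfold T
  have : (2 * (n + k) + 1) / 2 = n + k := by omega
  rw [this, if_pos ⟨by omega, by omega⟩]
  congr 1; omega

lemma T_zero (n m : ℕ) (h : m ∉ Set.range (fun k => 2 * (n + k) + 1)) : (T n m : 𝕜) = 0 := by
  unfold T
  refine if_neg fun h' => h ⟨m / 2 - n, ?_⟩
  simp only
  omega

lemma inj (n : ℕ) : Function.Injective (fun k => 2 * (n + k) + 1) := by
  intro a b h; simp only at h; omega

lemma hs_congr {F : Type} [NormedAddCommGroup F] {a : F} {g h : ℕ → F} (H : ∀ k, g k = h k) :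
    HasSum g a ↔ HasSum h a := by rw [funext H]

lemma half_sum : HasSum (fun k : ℕ => (1/2 : 𝕜) ^ (k + 1)) 1 := by
  have h := (hasSum_geometric_of_norm_lt_one (ξ := (1/2 : 𝕜)) (by
    rw [norm_div, norm_one, RCLike.norm_ofNat]; norm_num)).mul_left (1/2 : 𝕜)
  have h2 : (1/2 : 𝕜) * (1 - 1/2)⁻¹ = 1 := by norm_num
  rw [h2] at h
  refine (hs_congr fun k => ?_).mp h
  rw [pow_succ]; ring

lemma norm_T (n m : ℕ) : ‖(T n m : 𝕜)‖ = (T n m : ℝ) := by
  unfold T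
  split_ifs
  · rw [norm_pow, norm_div, norm_one, RCLike.norm_ofNat]
  · simp

lemma hasSum_T (n : ℕ) : HasSum (fun m => (T n m : 𝕜)) 1 := by
  rw [← (inj n).hasSum_iff (T_zero n)]
  refine (hs_congr fun k => ?_).mp half_sum
  simp only [Function.comp]
  rw [T_odd]

lemma consistent : IsConsistent (T : ℕ → ℕ → 𝕜) := by
  refine ⟨⟨1, fun n => ?_⟩, fun m => ?_, ?_⟩
  · have h := hasSum_T (𝕜 := ℝ) n
    have h2 : HasSum (fun m => ‖(T n m : 𝕜)‖) 1 := (hs_congr fun m => norm_T n m).mpr h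
    exact ⟨h2.summable, h2.tsum_eq.le⟩
  · refine tendsto_const_nhds.congr' ?_
    filter_upwards [eventually_gt_atTop m] with n hn
    unfold T
    rw [if_neg (by omega)]
  · refine tendsto_const_nhds.congr fun n => ?_
    rw [(hasSum_T n).tsum_eq]

lemma tail_zero (k : ℕ) : tail (T : ℕ → ℕ → 𝕜) 0 (2 * k) = (1/2 : 𝕜) ^ k := by
  unfold tail
  have hz : ∀ j, j ∉ Set.range (fun i => 2 * i + 1) → (T 0 (2 * k + j) : 𝕜) = 0 := by
    intro j hj
    unfold T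
    refine if_neg fun h' => hj ⟨j / 2, ?_⟩
    simp only
    omega
  have hi : Function.Injective (fun i => 2 * i + 1) := fun a b h => by simp only at h; omega
  have h : HasSum (fun j => (T 0 (2 * k + j) : 𝕜)) ((1/2 : 𝕜) ^ k * 1) := by
    rw [← hi.hasSum_iff hz]
    refine (hs_congr fun i => ?_).mp (half_sum.mul_left ((1/2 : 𝕜) ^ k))
    simp only [Function.comp]
    have := T_odd (𝕜 := 𝕜) 0 (k + i)
    have h2 : 2 * k + (2 * i + 1) = 2 * (0 + (k + i)) + 1 := by ring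
    rw [h2, this, ← pow_add]
    rfl
  rw [h.tsum_eq, mul_one]

lemma span_e_mem (i : ℕ) : (e i : H 𝕜) ∈ Submodule.span 𝕜 (Set.range (x : ℕ → H 𝕜)) := by
  obtain ⟨k, hk | hk⟩ : ∃ k, i = 2 * k ∨ i = 2 * k + 1 := ⟨i / 2, by omega⟩
  · subst hk; rw [← x_even]; exact Submodule.subset_span ⟨_, rfl⟩
  · subst hk
    have h1 : (x (2 * k + 1) : H 𝕜) - x (2 * k) = (ε k : 𝕜) • e (2 * k + 1) := by
      rw [x_odd, x_even]; abel
    have h2 : (e (2 * k + 1) : H 𝕜) = (ε k : 𝕜)⁻¹ • ((x (2 * k + 1) : H 𝕜) - x (2 * k)) := by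
      rw [h1, smul_smul, inv_mul_cancel₀ (ε_ne k), one_smul]
    rw [h2]
    exact Submodule.smul_mem _ _ (Submodule.sub_mem _ (Submodule.subset_span ⟨_, rfl⟩)
      (Submodule.subset_span ⟨_, rfl⟩))

lemma mbasis : IsMBasis (x : ℕ → H 𝕜) f := by
  refine ⟨biorth, ?_, ?_⟩
  · rw [Submodule.eq_top_iff']
    intro z
    refine mem_closure_of_tendsto (tendsto_co z) (Eventually.of_forall fun n => ?_)
    exact Submodule.sum_mem _ fun i _ => Submodule.smul_mem _ _ (span_e_mem i)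
  · intro z hz
    refine tendsto_nhds_unique (tendsto_block z) ?_
    refine tendsto_const_nhds.congr fun k => ?_
    simp [hz]

/-- the unsummable point -/
noncomputable def z0 : H 𝕜 := ⟨fun j => (1/2 : 𝕜) ^ j, by
  refine memℓp_gen ?_
  have h : ∀ j : ℕ, ‖(1/2 : 𝕜) ^ j‖ ^ (2 : ENNReal).toReal = (1/4 : ℝ) ^ j := by
    intro j
    rw [norm_pow, norm_div, norm_one, RCLike.norm_ofNat]
    simp only [ENNReal.toReal_ofNat, Real.rpow_two]
    rw [← pow_mul, mul_comm, pow_mul]; norm_num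
  simp_rw [h]
  exact summable_geometric_of_lt_one (by norm_num) (by norm_num)⟩

lemma z0_apply (j : ℕ) : (z0 : H 𝕜) j = (1/2 : 𝕜) ^ j := rfl

lemma norm_e (i : ℕ) : ‖(e i : H 𝕜)‖ = 1 := by
  unfold e; rw [lp.norm_single (by norm_num)]; simp

lemma diverge : ¬ ∃ L : H 𝕜, Tendsto (fun m => ∑ i ∈ Finset.range m,
    (tail (T : ℕ → ℕ → 𝕜) 0 i * f i z0) • (x i : H 𝕜)) atTop (𝓝 L) := by
  rintro ⟨L, hL⟩
  have h1 : Tendsto (fun m => (tail (T : ℕ → ℕ → 𝕜) 0 m * f m z0) • (x m : H 𝕜)) atTop (𝓝 0) := by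
    have h := (hL.comp (tendsto_add_atTop_nat 1)).sub hL
    rw [sub_self] at h
    refine h.congr fun m => ?_
    simp only [Function.comp]
    rw [Finset.sum_range_succ]; abel
  have h2 := (h1.comp (tendsto_id.const_mul_atTop' (show (0:ℕ) < 2 by norm_num))).norm
  rw [norm_zero] at h2
  have h3 : ∀ k : ℕ, ‖(tail (T : ℕ → ℕ → 𝕜) 0 (2 * k) * f (2 * k) z0) • (x (2 * k) : H 𝕜)‖
      = |(1/8 : ℝ) ^ k - 1/2| := by
    intro k
    rw [tail_zero, f_even, x_even, norm_smul, norm_e, mul_one, z0_apply, z0_apply]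
    have : (1/2 : 𝕜) ^ k * ((1/2 : 𝕜) ^ (2 * k) - (ε k)⁻¹ * (1/2 : 𝕜) ^ (2 * k + 1))
        = (((1/8 : ℝ) ^ k - 1/2 : ℝ) : 𝕜) := by
      unfold ε
      push_cast
      rw [pow_succ, pow_mul]
      have h8 : (1/8 : 𝕜) ^ k = (1/2 : 𝕜) ^ k * ((1/2 : 𝕜) ^ 2) ^ k := by
        rw [← mul_pow]; norm_num
      have hne : ((1/2 : 𝕜) ^ 2) ^ k ≠ 0 := pow_ne_zero _ (by norm_num)
      have hne' : (1/2 : 𝕜) ^ k ≠ 0 := pow_ne_zero _ (by norm_num)
      rw [h8]
      field_simp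
    rw [this, RCLike.norm_ofReal]
  have h4 : Tendsto (fun k : ℕ => |(1/8 : ℝ) ^ k - 1/2|) atTop (𝓝 |(0:ℝ) - 1/2|) :=
    ((tendsto_pow_atTop_nhds_zero_of_lt_one (by norm_num) (by norm_num)).sub_const _).abs
  have h5 : Tendsto (fun k : ℕ => |(1/8 : ℝ) ^ k - 1/2|) atTop (𝓝 0) :=
    h2.congr fun k => h3 k
  have := tendsto_nhds_unique h4 h5
  norm_num at this

lemma co_x (i j : ℕ) (h : i / 2 ≠ j / 2) : co i (x j : H 𝕜) = 0 := by
  obtain ⟨l, hl | hl⟩ : ∃ l, j = 2 * l ∨ j = 2 * l + 1 := ⟨j / 2, by omega⟩ <;> subst hl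
  · rw [x_even, co_e, if_neg (by omega)]
  · rw [x_odd, map_add, map_smul, co_e, co_e, if_neg (by omega), if_neg (by omega)]; simp

/-- evaluation of the coordinates in the `k`-th block on partial sums -/
lemma co_sum (α : ℕ → 𝕜) (i k : ℕ) (hi : i / 2 = k) (m : ℕ) (hm : 2 * k + 2 ≤ m) :
    co i (∑ l ∈ Finset.range m, α l • (x l : H 𝕜)) =
      α (2 * k) * co i (x (2 * k)) + α (2 * k + 1) * co i (x (2 * k + 1)) := by
  rw [map_sum]
  simp only [map_smul, smul_eq_mul]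
  rw [← Finset.sum_subset (s₁ := {2 * k, 2 * k + 1})]
  · rw [Finset.sum_pair (by omega)]
  · intro a ha
    simp only [Finset.mem_insert, Finset.mem_singleton] at ha
    rw [Finset.mem_range]; omega
  · intro a _ ha
    simp only [Finset.mem_insert, Finset.mem_singleton] at ha
    rw [co_x, mul_zero]
    omega

lemma co_sigma (α : ℕ → 𝕜) (σ : ℕ → H 𝕜) (z : H 𝕜)
    (h : ∀ n, Tendsto (fun m => ∑ j ∈ Finset.range m, (T n j : 𝕜) •
      ∑ i ∈ Finset.range (j + 1), α i • (x i : H 𝕜)) atTop (𝓝 (σ n)))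
    (hσ : Tendsto σ atTop (𝓝 z)) (i k : ℕ) (hi : i / 2 = k) :
    co i z = α (2 * k) * co i (x (2 * k) : H 𝕜) + α (2 * k + 1) * co i (x (2 * k + 1) : H 𝕜) := by
  have h1 : Tendsto (fun n => co i (σ n)) atTop (𝓝 (co i z)) :=
    ((co i).continuous.tendsto z).comp hσ
  refine tendsto_nhds_unique h1 (tendsto_const_nhds.congr' ?_)
  filter_upwards [eventually_ge_atTop k] with n hn
  have h2 := ((co i).continuous.tendsto (σ n)).comp (h n)
  set c := α (2 * k) * co i (x (2 * k) : H 𝕜) + α (2 * k + 1) * co i (x (2 * k + 1) : H 𝕜) with hc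
  have h3 : Tendsto (fun m => ∑ j ∈ Finset.range m, (T n j : 𝕜) * c) atTop (𝓝 (1 * c)) :=
    ((hasSum_T n).mul_right c).tendsto_sum_nat
  rw [one_mul] at h3
  refine tendsto_nhds_unique h3 (h2.congr fun m => ?_)
  simp only [Function.comp]
  rw [map_sum]
  refine Finset.sum_congr rfl fun j _ => ?_
  rw [map_smul, smul_eq_mul]
  by_cases hj : j % 2 = 1 ∧ n ≤ j / 2
  · rw [co_sum α i k hi (j + 1) (by omega)]
  · have : (T n j : 𝕜) = 0 := by unfold T; rw [if_neg hj]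
    rw [this, zero_mul, zero_mul]

lemma alpha_eq (α : ℕ → 𝕜) (z : H 𝕜) (h : ∀ i k, i / 2 = k →
    co i z = α (2 * k) * co i (x (2 * k) : H 𝕜) + α (2 * k + 1) * co i (x (2 * k + 1) : H 𝕜)) :
    α = fun i => f i z := by
  have hodd : ∀ k, α (2 * k + 1) = f (2 * k + 1) z := by
    intro k
    have := h (2 * k + 1) k (by omega)
    rw [x_even, x_odd, map_add, map_smul, co_e, co_e, if_neg (by omega), if_pos rfl] at this
    rw [f_odd]
    have h2 : z (2 * k + 1) = α (2 * k + 1) * ε k := by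
      rw [co_apply] at this
      rw [this]; simp
    rw [h2]
    field_simp [ε_ne k]
  funext i
  obtain ⟨k, hk | hk⟩ : ∃ k, i = 2 * k ∨ i = 2 * k + 1 := ⟨i / 2, by omega⟩ <;> subst hk
  · have := h (2 * k) k (by omega)
    rw [x_even, x_odd, map_add, map_smul, co_e, co_e, if_pos rfl, if_neg (by omega),
      hodd, f_odd] at this
    rw [f_even]
    rw [co_apply] at this
    rw [this]; simp
  · exact hodd k

lemma block_bound (z : H 𝕜) : ∃ C, ∀ k,
    ‖∑ i ∈ Finset.range (2 * k), f i z • (x i : H 𝕜)‖ ≤ C := by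
  obtain ⟨C, hC⟩ := (tendsto_block z).norm.bddAbove_range
  exact ⟨C, fun k => hC ⟨k, rfl⟩⟩

lemma tbasis : IsTBasis (T : ℕ → ℕ → 𝕜) (x : ℕ → H 𝕜) := by
  intro z
  refine ⟨fun i => f i z, ?_, ?_⟩
  · obtain ⟨C, hC⟩ := block_bound z
    set S : ℕ → H 𝕜 := fun k => ∑ i ∈ Finset.range (2 * k), f i z • (x i : H 𝕜) with hS
    have hsum : ∀ n, Summable (fun k : ℕ => (1/2 : 𝕜) ^ (k + 1) • S (n + k + 1)) := by
      intro n
      have h1 : Summable (fun k : ℕ => (1/2 : ℝ) ^ (k + 1) * C) :=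
        (half_sum (𝕜 := ℝ)).summable.mul_right C
      refine Summable.of_norm_bounded h1 fun k => ?_
      rw [norm_smul, norm_pow, norm_div, norm_one, RCLike.norm_ofNat]
      exact mul_le_mul_of_nonneg_left (hC _) (by positivity)
    refine ⟨fun n => ∑' k : ℕ, (1/2 : 𝕜) ^ (k + 1) • S (n + k + 1), fun n => ?_, ?_⟩
    · have h1 : HasSum (fun j => (T n j : 𝕜) • ∑ i ∈ Finset.range (j + 1), f i z • (x i : H 𝕜))
          (∑' k : ℕ, (1/2 : 𝕜) ^ (k + 1) • S (n + k + 1)) := by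
        rw [← (inj n).hasSum_iff]
        · refine (hs_congr fun k => ?_).mp (hsum n).hasSum
          simp only [Function.comp]
          rw [T_odd]
          simp only [hS]
          have : 2 * (n + k + 1) = 2 * (n + k) + 1 + 1 := by ring
          rw [this]
        · intro j hj
          rw [T_zero n j hj, zero_smul]
      exact h1.tendsto_sum_nat
    · rw [Metric.tendsto_atTop]
      intro δ hδ
      obtain ⟨N, hN⟩ := Metric.tendsto_atTop.mp (tendsto_block z) (δ / 2) (by positivity)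
      refine ⟨N, fun n hn => ?_⟩
      have hz : HasSum (fun k : ℕ => (1/2 : 𝕜) ^ (k + 1) • z) z := by
        have := (half_sum (𝕜 := 𝕜)).smul_const z
        rwa [one_smul] at this
      have h2 := (hsum n).hasSum.sub hz
      have h3 : HasSum (fun k : ℕ => (1/2 : ℝ) ^ (k + 1) * (δ / 2)) (δ / 2) := by
        have := (half_sum (𝕜 := ℝ)).mul_right (δ / 2)
        rwa [one_mul] at this
      rw [dist_eq_norm, ← h2.tsum_eq]
      refine lt_of_le_of_lt (tsum_of_norm_bounded h3 fun k => ?_) (half_lt_self hδ)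
      rw [← smul_sub, norm_smul, norm_pow, norm_div, norm_one, RCLike.norm_ofNat]
      refine mul_le_mul_of_nonneg_left ?_ (by positivity)
      rw [← dist_eq_norm]
      exact (hN (n + k + 1) (by omega)).le
  · rintro α ⟨σ, h1, h2⟩
    exact alpha_eq α z fun i k hi => co_sigma α σ z h1 h2 i k hi

end

end Pool.Agent.Q195.TG
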