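import Pool.Agent.Q195.TG2

set_option autoImplicit false

open scoped Topology
open Filter

namespace Pool.Agent.Q195.TG.Gen

variable {𝕜 : Type} [RCLike 𝕜] {E : Type} [NormedAddCommGroup E] [NormedSpace 𝕜 E]
variable {T : ℕ → ℕ → 𝕜} {x : ℕ → E}

/-- matrices admitted in the definition of a `γ`-basis -/
def IsGammaMatrix {𝕜 : Type} [RCLike 𝕜] (l : ℕ → ℕ → 𝕜) : Prop :=
  (∀ i, Tendsto (fun n => l n i) atTop (𝓝 1)) ∧
    ∃ C : ℝ, ∀ n, Summable (fun i => ‖l n i - l n (i + 1)‖) ∧ ∑' i, ‖l n i - l n (i + 1)‖ ≤ C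

/-- A summable family `t` and commuting projections `s j` (partial sums of a biorthogonal
expansion), with uniformly bounded partial sums `F J = ∑_{j<J} t j • s j` tending strongly to `S`:
then `(S - F J)^2` is small in norm. -/
lemma sq_small (t : ℕ → 𝕜) (s : ℕ → E →L[𝕜] E) (hs : ∀ i j, (s i).comp (s j) = s (min i j))
    (S : E →L[𝕜] E) (B : ℝ)
    (hB : ∀ J, ‖∑ j ∈ Finset.range J, t j • s j‖ ≤ B)
    (hS : ∀ y, Tendsto (fun J => (∑ j ∈ Finset.range J, t j • s j) y) atTop (𝓝 (S y)))
    (ht : Summable (fun j => ‖t j‖)) (J : ℕ) :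
    ‖(S - ∑ j ∈ Finset.range J, t j • s j).comp (S - ∑ j ∈ Finset.range J, t j • s j)‖ ≤
      4 * B * ∑' j, ‖t (j + J)‖ := by
  set F : ℕ → E →L[𝕜] E := fun J => ∑ j ∈ Finset.range J, t j • s j with hF
  have hB0 : 0 ≤ B := (norm_nonneg _).trans (hB 0)
  -- increments
  have hFs : ∀ L, F (L + 1) = F L + t L • s L := fun L => Finset.sum_range_succ _ _
  set D : ℕ → E →L[𝕜] E := fun L => F (J + L) - F J with hD
  have hD0 : D 0 = 0 := by simp [hD]
  have hDs : ∀ L, D (L + 1) = D L + t (J + L) • s (J + L) := by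
    intro L
    show F (J + L + 1) - F J = _
    rw [hFs]
    simp only [hD]
    abel
  have hleft : ∀ L M, J + L ≤ M → (s M).comp (D L) = D L := by
    intro L
    induction L with
    | zero => intro M _; rw [hD0]; simp
    | succ L ih =>
      intro M hM
      rw [hDs, ContinuousLinearMap.comp_add, ih M (by omega), ContinuousLinearMap.comp_smul, hs,
        min_eq_right (by omega)]
  have hright : ∀ L M, J + L ≤ M → (D L).comp (s M) = D L := by
    intro L
    induction L with
    | zero => intro M _; rw [hD0]; simp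
    | succ L ih =>
      intro M hM
      rw [hDs, ContinuousLinearMap.add_comp, ih M (by omega), ContinuousLinearMap.smul_comp, hs,
        min_eq_left (by omega)]
  have hDD : ∀ L, (D L).comp (D L) = ∑ l ∈ Finset.range L, t (J + l) • (D l + D (l + 1)) := by
    intro L
    induction L with
    | zero => rw [hD0]; simp
    | succ L ih =>
      rw [Finset.sum_range_succ, ← ih]
      conv_lhs => rw [hDs]
      rw [ContinuousLinearMap.add_comp, ContinuousLinearMap.comp_add, ContinuousLinearMap.comp_add,
        ContinuousLinearMap.comp_smul, ContinuousLinearMap.smul_comp,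
        ContinuousLinearMap.smul_comp, ContinuousLinearMap.comp_smul, hright L _ le_rfl,
        hleft L _ le_rfl, hs, min_self, hDs]
      module
  have hDn : ∀ L, ‖D L‖ ≤ 2 * B := by
    intro L
    have := norm_sub_le (F (J + L)) (F J)
    have h1 := hB (J + L)
    have h2 := hB J
    simp only [hD]
    linarith
  have hsum : ∀ L, ∑ l ∈ Finset.range L, ‖t (J + l)‖ ≤ ∑' j, ‖t (j + J)‖ := by
    intro L
    have h1 : Summable (fun j => ‖t (j + J)‖) := (summable_nat_add_iff J).mpr ht
    have h2 := h1.sum_le_tsum (Finset.range L) (fun i _ => norm_nonneg _)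
    refine le_trans (le_of_eq (Finset.sum_congr rfl (fun l _ => by rw [add_comm]))) h2
  have hDDn : ∀ L, ‖(D L).comp (D L)‖ ≤ 4 * B * ∑' j, ‖t (j + J)‖ := by
    intro L
    rw [hDD]
    refine (norm_sum_le _ _).trans ?_
    have h1 : ∀ l ∈ Finset.range L, ‖t (J + l) • (D l + D (l + 1))‖ ≤ ‖t (J + l)‖ * (4 * B) := by
      intro l _
      rw [norm_smul]
      refine mul_le_mul_of_nonneg_left ?_ (norm_nonneg _)
      have := norm_add_le (D l) (D (l + 1))
      have h1 := hDn l
      have h2 := hDn (l + 1)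
      linarith
    refine (Finset.sum_le_sum h1).trans ?_
    rw [← Finset.sum_mul, mul_comm]
    exact mul_le_mul_of_nonneg_left (hsum L) (by positivity)
  -- strong limit
  have hDlim : ∀ y, Tendsto (fun L => D L y) atTop (𝓝 ((S - F J) y)) := by
    intro y
    have h1 : Tendsto (fun L => F (J + L) y) atTop (𝓝 (S y)) := by
      have := (hS y).comp (tendsto_add_atTop_nat J)
      refine this.congr (fun L => ?_)
      simp only [Function.comp, hF]
      rw [add_comm L J]
    exact h1.sub_const _
  refine ContinuousLinearMap.opNorm_le_bound _ ?_ (fun y => ?_)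
  · exact mul_nonneg (by positivity) (tsum_nonneg (fun _ => norm_nonneg _))
  · -- D L (D L y) → R (R y)
    have h2 : Tendsto (fun L => D L (D L y)) atTop (𝓝 ((S - F J) ((S - F J) y))) := by
      have h3 : Tendsto (fun L => D L ((S - F J) y) + D L (D L y - (S - F J) y)) atTop
          (𝓝 ((S - F J) ((S - F J) y) + 0)) := by
        refine (hDlim _).add ?_
        refine squeeze_zero_norm (fun L => (D L).le_of_opNorm_le (hDn L) _) ?_
        have h4 : Tendsto (fun L => ‖D L y - (S - F J) y‖) atTop (𝓝 0) :=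
          tendsto_iff_norm_sub_tendsto_zero.mp (hDlim y)
        simpa using h4.const_mul (2 * B)
      rw [add_zero] at h3
      refine h3.congr (fun L => ?_)
      rw [← map_add]
      congr 1
      abel
    refine le_of_tendsto h2.norm (Eventually.of_forall (fun L => ?_))
    exact ((D L).comp (D L)).le_of_opNorm_le (hDDn L) y


/-- partial sum projections built from the functionals -/
lemma ps_single (i : ℕ) : ps x (Pi.single i (1 : 𝕜)) i = x i := by
  unfold ps
  rw [Finset.sum_eq_single i]
  · simp
  · intro j _ hj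
    rw [Pi.single_eq_of_ne hj, zero_smul]
  · intro h; exact absurd (Finset.mem_range.mpr (Nat.lt_succ_self i)) h

lemma tau_eq (hT : IsConsistent T) (n i : ℕ) : tau T n i = ∑' j, T n (j + i) := by
  unfold tau
  rw [← (summ hT n).sum_add_tsum_nat_add i]; ring

lemma tau_succ (n i : ℕ) : tau T n (i + 1) = tau T n i - T n i := by
  unfold tau
  rw [Finset.sum_range_succ]; ring

lemma norm_tau_le (hT : IsConsistent T) (n i : ℕ) : ‖tau T n i‖ ≤ ∑' j, ‖T n (j + i)‖ := by
  obtain ⟨M, hM⟩ := hT.1
  rw [tau_eq hT]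
  exact norm_tsum_le_tsum_norm ((summable_nat_add_iff i).mpr (hM n).1)

lemma tau_lim (hT : IsConsistent T) (n : ℕ) : Tendsto (fun J => tau T n J) atTop (𝓝 0) :=
  squeeze_zero_norm (norm_tau_le hT n) (tendsto_sum_nat_add (fun j => ‖T n j‖))

lemma norm_tau_le' (hT : IsConsistent T) (M : ℝ)
    (hM : ∀ n, Summable (fun m => ‖T n m‖) ∧ ∑' m, ‖T n m‖ ≤ M) (n i : ℕ) : ‖tau T n i‖ ≤ M := by
  refine (norm_tau_le hT n i).trans (le_trans ?_ (hM n).2)
  rw [← (hM n).1.sum_add_tsum_nat_add i]
  exact le_add_of_nonneg_left (Finset.sum_nonneg fun _ _ => norm_nonneg _)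

/-- **A `T`-basis is a `γ`-basis** with respect to a suitable matrix. -/
theorem main [CompleteSpace E] (hT : IsConsistent T) (hx : IsTBasis T x) :
    ∃ (f : ℕ → E →L[𝕜] 𝕜) (l : ℕ → ℕ → 𝕜), IsGammaMatrix l ∧ IsGammaBasis l x f := by
  obtain ⟨⟨C, hC⟩, hpn⟩ := bounds hT hx
  choose Cn hCn using hpn
  -- coordinate functionals are bounded
  have hco : ∀ i, ∃ K : ℝ, ∀ y, ‖co hx y i‖ ≤ K * ‖y‖ := by
    intro i
    obtain ⟨n, K, hK0, hK⟩ := co_le hT hx i
    refine ⟨K * Cn n, fun y => ?_⟩
    rw [mul_assoc]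
    exact (hK y).trans (mul_le_mul_of_nonneg_left (hCn n y) hK0)
  choose K hK using hco
  let f : ℕ → E →L[𝕜] 𝕜 := fun i => LinearMap.mkContinuous
    { toFun := fun y => co hx y i
      map_add' := fun y z => by rw [co_add]; rfl
      map_smul' := fun c y => by rw [co_smul]; rfl } (K i) (hK i)
  have hf : ∀ i y, f i y = co hx y i := fun i y => rfl
  have hfx : ∀ i j, f i (x j) = if i = j then 1 else 0 := by
    intro i j
    rw [hf, ← ps_single (𝕜 := 𝕜) (x := x) j, co_fin hT hx _ j
      (fun l hl => Pi.single_eq_of_ne (by omega) _), Pi.single_apply]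
  let s : ℕ → E →L[𝕜] E := fun j => ∑ i ∈ Finset.range (j + 1), (f i).smulRight (x i)
  have hs_apply : ∀ j y, s j y = ps x (co hx y) j := by
    intro j y
    simp only [s, ps, sum_apply, ContinuousLinearMap.smulRight_apply, hf]
  have hs : ∀ i j, (s i).comp (s j) = s (min i j) := by
    intro i j
    ext y
    rw [ContinuousLinearMap.comp_apply, hs_apply, hs_apply, hs_apply]
    classical
    set α : ℕ → 𝕜 := fun l => if l ≤ j then co hx y l else 0 with hα
    have h1 : ps x (co hx y) j = ps x α j := by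
      unfold ps
      refine Finset.sum_congr rfl (fun l hl => ?_)
      have : l ≤ j := by simp at hl; omega
      simp [hα, this]
    rw [h1, co_fin hT hx α j (fun l hl => by simp [hα]; omega)]
    unfold ps
    rcases le_total i j with h | h
    · rw [min_eq_left h]
      refine Finset.sum_congr rfl (fun l hl => ?_)
      have : l ≤ j := by simp at hl; omega
      simp [hα, this]
    · rw [min_eq_right h]
      have h2 : ∀ l ∈ Finset.range (j + 1), co hx y l • x l = α l • x l := by
        intro l hl
        have : l ≤ j := by simp at hl; omega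
        simp [hα, this]
      rw [Finset.sum_congr rfl h2]
      symm
      refine Finset.sum_subset (by intro a ha; simp at ha ⊢; omega) (fun l _ hl => ?_)
      have : ¬ l ≤ j := by simp at hl; omega
      simp [hα, this]
  have hFF : ∀ n J y, (∑ j ∈ Finset.range J, T n j • s j) y = FF T x n J (co hx y) := by
    intro n J y
    unfold FF
    simp only [sum_apply, smul_apply, hs_apply]
  let S : ℕ → E →L[𝕜] E := fun n => LinearMap.mkContinuous
    { toFun := fun y => sg hx y n
      map_add' := fun y z => sg_add hx y z n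
      map_smul' := fun c y => sg_smul hx c y n } C (fun y => (le_pinf hx y n).trans (hC y))
  have hS : ∀ n y, S n y = sg hx y n := fun n y => rfl
  have hC0 : 0 ≤ |C| := abs_nonneg C
  have hSn : ∀ n, ‖S n‖ ≤ |C| := by
    intro n
    refine ContinuousLinearMap.opNorm_le_bound _ hC0 (fun y => ?_)
    exact ((le_pinf hx y n).trans (hC y)).trans
      (mul_le_mul_of_nonneg_right (le_abs_self C) (norm_nonneg y))
  have hFn : ∀ n J, ‖∑ j ∈ Finset.range J, T n j • s j‖ ≤ |Cn n| := by
    intro n J
    refine ContinuousLinearMap.opNorm_le_bound _ (abs_nonneg _) (fun y => ?_)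
    rw [hFF]
    exact ((le_pn hx n y J).trans (hCn n y)).trans
      (mul_le_mul_of_nonneg_right (le_abs_self _) (norm_nonneg y))
  obtain ⟨M, hM⟩ := hT.1
  have hM0 : 0 ≤ M := (tsum_nonneg (fun _ => norm_nonneg _)).trans (hM 0).2
  have hsq : ∀ n J, ‖(S n - ∑ j ∈ Finset.range J, T n j • s j).comp
      (S n - ∑ j ∈ Finset.range J, T n j • s j)‖ ≤ 4 * |Cn n| * ∑' j, ‖T n (j + J)‖ := by
    intro n J
    refine sq_small (T n) s hs (S n) (|Cn n|) (hFn n) (fun y => ?_) (hM n).1 J
    simp_rw [hFF]
    exact sg_mean hx y n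
  have hchoose : ∀ n : ℕ, ∃ J, 4 * |Cn n| * ∑' j, ‖T n (j + J)‖ ≤ 1 / ((n : ℝ) + 1) ∧
      ∑' j, ‖T n (j + J)‖ ≤ 1 / ((n : ℝ) + 1) ∧ n < J := by
    intro n
    have h1 : Tendsto (fun J => 4 * |Cn n| * ∑' j, ‖T n (j + J)‖) atTop (𝓝 (4 * |Cn n| * 0)) :=
      (tendsto_sum_nat_add (fun j => ‖T n j‖)).const_mul _
    rw [mul_zero] at h1
    have h2 := tendsto_sum_nat_add (fun j => ‖T n j‖)
    exact ((h1.eventually_le_const (show (0 : ℝ) < 1 / ((n : ℝ) + 1) by positivity)).and
      ((h2.eventually_le_const (show (0 : ℝ) < 1 / ((n : ℝ) + 1) by positivity)).and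
        (eventually_gt_atTop n))).exists
  choose J hJ hJ2 hJ3 using hchoose
  let F : ℕ → E →L[𝕜] E := fun n => ∑ j ∈ Finset.range (J n), T n j • s j
  let R : ℕ → E →L[𝕜] E := fun n => S n - F n
  have hR : ∀ n, ‖(R n).comp (R n)‖ ≤ 1 / ((n : ℝ) + 1) := fun n => (hsq n (J n)).trans (hJ n)
  let G : ℕ → E →L[𝕜] E := fun n => (S n).comp (S n) - (R n).comp (R n)
  have hG : ∀ n, G n = (F n).comp (S n) + (R n).comp (F n) := by
    intro n
    simp only [G, R]
    ext y
    simp only [sub_apply, add_apply, ContinuousLinearMap.comp_apply,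
      map_sub]
    abel
  have hGlim : ∀ y, Tendsto (fun n => G n y) atTop (𝓝 y) := by
    intro y
    have h1 : Tendsto (fun n => S n (S n y)) atTop (𝓝 y) := by
      have h3 : Tendsto (fun n => S n y + S n (S n y - y)) atTop (𝓝 (y + 0)) := by
        refine (sg_lim hx y).add ?_
        refine squeeze_zero_norm (fun n => (S n).le_of_opNorm_le (hSn n) _) ?_
        have h4 : Tendsto (fun n => ‖S n y - y‖) atTop (𝓝 0) :=
          tendsto_iff_norm_sub_tendsto_zero.mp (sg_lim hx y)
        simpa using h4.const_mul |C|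
      rw [add_zero] at h3
      refine h3.congr (fun n => ?_)
      rw [map_sub]
      abel
    have h2 : Tendsto (fun n => (R n).comp (R n) y) atTop (𝓝 0) := by
      refine squeeze_zero_norm (fun n => ((R n).comp (R n)).le_of_opNorm_le (hR n) y) ?_
      have h3 : Tendsto (fun n : ℕ => 1 / ((n : ℝ) + 1)) atTop (𝓝 0) :=
        tendsto_one_div_add_atTop_nhds_zero_nat
      simpa using h3.mul_const ‖y‖
    have h3 := h1.sub h2
    rw [sub_zero] at h3
    exact h3
  -- the diagonal form of the operators
  have htot : ∀ z, (∀ i, f i z = 0) → z = 0 := by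
    intro z hz
    have h0 : co hx z = 0 := funext fun i => hz i
    refine tendsto_nhds_unique (sg_lim hx z) ?_
    refine tendsto_const_nhds.congr fun n => ?_
    refine tendsto_nhds_unique ?_ (sg_mean hx z n)
    refine tendsto_const_nhds.congr fun J => ?_
    rw [h0]
    unfold FF ps
    simp
  have hFd : ∀ n J z, (∑ j ∈ Finset.range J, T n j • s j) z =
      ∑ i ∈ Finset.range J, ((tau T n i - tau T n J) * f i z) • x i := by
    intro n J z
    induction J with
    | zero => simp
    | succ J ih =>
      rw [Finset.sum_range_succ, add_apply, ih, smul_apply, hs_apply]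
      unfold ps
      rw [Finset.smul_sum]
      have h1 : ∑ i ∈ Finset.range J, ((tau T n i - tau T n J) * f i z) • x i =
          ∑ i ∈ Finset.range (J + 1), ((tau T n i - tau T n J) * f i z) • x i := by
        rw [Finset.sum_range_succ, sub_self, zero_mul, zero_smul, add_zero]
      rw [h1, ← Finset.sum_add_distrib]
      refine Finset.sum_congr rfl fun i _ => ?_
      rw [smul_smul, ← add_smul, tau_succ, ← hf]
      congr 1
      ring
  have hfd : ∀ (c : ℕ → 𝕜) (J i : ℕ), i < J → f i (∑ l ∈ Finset.range J, c l • x l) = c i := by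
    intro c J i hi
    rw [map_sum, Finset.sum_eq_single i]
    · rw [map_smul, hfx, if_pos rfl, smul_eq_mul, mul_one]
    · intro l _ hl
      rw [map_smul, hfx, if_neg (Ne.symm hl), smul_zero]
    · intro h; exact absurd (Finset.mem_range.mpr hi) h
  have hfS : ∀ n i z, f i (S n z) = tau T n i * f i z := by
    intro n i z
    have h1 : Tendsto (fun J => f i ((∑ j ∈ Finset.range J, T n j • s j) z)) atTop
        (𝓝 (f i (S n z))) := by
      refine ((f i).continuous.tendsto _).comp ?_
      simp_rw [hFF]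
      exact sg_mean hx z n
    have h2 : Tendsto (fun J => (tau T n i - tau T n J) * f i z) atTop
        (𝓝 ((tau T n i - 0) * f i z)) :=
      ((tau_lim hT n).const_sub _).mul_const _
    rw [sub_zero] at h2
    refine tendsto_nhds_unique h1 (h2.congr' ?_)
    filter_upwards [eventually_gt_atTop i] with J hJ
    rw [hFd, hfd _ J i hJ]
  have hSx : ∀ n i, S n (x i) = tau T n i • x i := by
    intro n i
    rw [← sub_eq_zero]
    refine htot _ fun l => ?_
    rw [map_sub, hfS, map_smul, hfx, smul_eq_mul]
    by_cases h : l = i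
    · subst h; ring
    · rw [if_neg h]; ring
  have hGd : ∀ n z, G n z =
      ∑ i ∈ Finset.range (J n), (((tau T n i) ^ 2 - (tau T n (J n)) ^ 2) * f i z) • x i := by
    intro n z
    rw [hG, add_apply, ContinuousLinearMap.comp_apply, ContinuousLinearMap.comp_apply]
    have e1 : F n (S n z) = ∑ i ∈ Finset.range (J n),
        ((tau T n i - tau T n (J n)) * (tau T n i * f i z)) • x i := by
      show (∑ j ∈ Finset.range (J n), T n j • s j) (S n z) = _
      rw [hFd]
      simp_rw [hfS]
    have e0 : F n z = ∑ i ∈ Finset.range (J n), ((tau T n i - tau T n (J n)) * f i z) • x i :=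
      hFd n (J n) z
    have e2 : S n (F n z) = ∑ i ∈ Finset.range (J n),
        ((tau T n i - tau T n (J n)) * f i z * tau T n i) • x i := by
      rw [e0, map_sum]
      refine Finset.sum_congr rfl fun i _ => ?_
      rw [map_smul, hSx, smul_smul]
    have e3 : F n (F n z) = ∑ i ∈ Finset.range (J n),
        ((tau T n i - tau T n (J n)) * ((tau T n i - tau T n (J n)) * f i z)) • x i := by
      have : F n (F n z) = ∑ i ∈ Finset.range (J n),
        ((tau T n i - tau T n (J n)) * f i (F n z)) • x i := hFd n (J n) (F n z)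
      rw [this]
      refine Finset.sum_congr rfl fun i hi => ?_
      rw [e0, hfd _ (J n) i (Finset.mem_range.mp hi)]
    have e4 : R n (F n z) = S n (F n z) - F n (F n z) := rfl
    rw [e4, e1, e2, e3, ← Finset.sum_sub_distrib, ← Finset.sum_add_distrib]
    refine Finset.sum_congr rfl fun i _ => ?_
    rw [← sub_smul, ← add_smul]
    congr 1
    ring
  refine ⟨f, fun n i => (tau T n (min i (J n))) ^ 2 - (tau T n (J n)) ^ 2, ⟨fun i => ?_, ?_⟩,
    ⟨hfx, ?_, htot⟩, fun z => ⟨fun n => G n z, fun n => ?_, hGlim z⟩⟩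
  · have h1 : Tendsto (fun n => tau T n (J n)) atTop (𝓝 0) := by
      refine squeeze_zero_norm (fun n => (norm_tau_le hT n (J n)).trans (hJ2 n)) ?_
      exact tendsto_one_div_add_atTop_nhds_zero_nat
    have h2 := ((tendsto_tau hT i).pow 2).sub (h1.pow 2)
    have h3 : (1 : 𝕜) ^ 2 - 0 ^ 2 = 1 := by norm_num
    rw [h3] at h2
    refine h2.congr' ?_
    filter_upwards [eventually_ge_atTop i] with n hn
    rw [min_eq_left (hn.trans (hJ3 n).le)]
  · refine ⟨2 * M * M, fun n => ?_⟩
    have hb : ∀ i, ‖((tau T n (min i (J n))) ^ 2 - (tau T n (J n)) ^ 2) -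
        ((tau T n (min (i + 1) (J n))) ^ 2 - (tau T n (J n)) ^ 2)‖ ≤ 2 * M * ‖T n i‖ := by
      intro i
      rcases lt_or_ge i (J n) with h | h
      · rw [min_eq_left h.le, min_eq_left (show i + 1 ≤ J n from h)]
        have e1 : (tau T n i) ^ 2 - (tau T n (J n)) ^ 2 -
            ((tau T n (i + 1)) ^ 2 - (tau T n (J n)) ^ 2) =
            (tau T n i + tau T n (i + 1)) * T n i := by
          rw [tau_succ]; ring
        rw [e1, norm_mul]
        refine mul_le_mul_of_nonneg_right ?_ (norm_nonneg _)
        have h1 := norm_tau_le' hT M hM n i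
        have h2 := norm_tau_le' hT M hM n (i + 1)
        have h3 := norm_add_le (tau T n i) (tau T n (i + 1))
        linarith
      · rw [min_eq_right h, min_eq_right (h.trans (Nat.le_succ i)), sub_self, norm_zero]
        positivity
    have hsm := Summable.of_nonneg_of_le (fun _ => norm_nonneg _) hb ((hM n).1.mul_left (2 * M))
    refine ⟨hsm, (hsm.tsum_le_tsum hb ((hM n).1.mul_left (2 * M))).trans ?_⟩
    rw [tsum_mul_left]
    exact mul_le_mul_of_nonneg_left (hM n).2 (by positivity)
  · rw [Submodule.eq_top_iff']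
    intro z
    refine mem_closure_of_tendsto (hGlim z) (Eventually.of_forall fun n => ?_)
    rw [hGd]
    exact Submodule.sum_mem _ fun i _ => Submodule.smul_mem _ _ (Submodule.subset_span ⟨i, rfl⟩)
  · refine tendsto_const_nhds.congr' ?_
    filter_upwards [eventually_ge_atTop (J n)] with m hm
    rw [hGd]
    have h1 : ∀ i ∈ Finset.range (J n),
        (((tau T n i) ^ 2 - (tau T n (J n)) ^ 2) * f i z) • x i =
        (((tau T n (min i (J n))) ^ 2 - (tau T n (J n)) ^ 2) * f i z) • x i := by
      intro i hi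
      rw [min_eq_left (Finset.mem_range.mp hi).le]
    rw [Finset.sum_congr rfl h1]
    refine Finset.sum_subset (Finset.range_mono hm) fun i _ hi => ?_
    rw [min_eq_right (by simpa using hi), sub_self, zero_mul, zero_smul]

end Pool.Agent.Q195.TG.Gen
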